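import Pool.Agent.Lib.MP_cf0da3_ag.Defs

/-! Basic properties of graded families. -/

namespace Pool.Agent.Lib.MP_cf0da3_ag

open Module Filter TensorProduct

variable {k K : Type*} [Field k] [Field K] [Algebra k K] {W : Submodule k K}

theorem Rg_of_neg (W : Submodule k K) {t : ℤ} (ht : t < 0) : Rg W t = ⊥ := by
  simp [Rg, not_le.mpr ht]

theorem Rg_natCast (W : Submodule k K) (n : ℕ) : Rg W (n : ℤ) = W ^ n := by
  simp [Rg]

theorem Rg_zero (W : Submodule k K) : Rg W 0 = 1 := by
  simp [Rg]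

theorem Rg_one (W : Submodule k K) : Rg W 1 = W := by
  simp [Rg]

theorem algebraMap_mem_Rg_zero (W : Submodule k K) (c : k) : algebraMap k K c ∈ Rg W 0 := by
  rw [Rg_zero]; exact Submodule.algebraMap_mem c

theorem one_mem_Rg_zero (W : Submodule k K) : (1 : K) ∈ Rg W 0 := by
  simpa using algebraMap_mem_Rg_zero W 1

theorem mem_Rg_one {w : K} (hw : w ∈ W) : w ∈ Rg W 1 := by
  rwa [Rg_one]

theorem mul_mem_Rg {a b : ℤ} {f g : K} (hf : f ∈ Rg W a) (hg : g ∈ Rg W b) :
    f * g ∈ Rg W (a + b) := by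
  rcases lt_or_ge a 0 with ha | ha
  · rw [Rg_of_neg W ha, Submodule.mem_bot] at hf
    simp [hf]
  rcases lt_or_ge b 0 with hb | hb
  · rw [Rg_of_neg W hb, Submodule.mem_bot] at hg
    simp [hg]
  lift a to ℕ using ha
  lift b to ℕ using hb
  rw [← Nat.cast_add, Rg_natCast, pow_add]
  rw [Rg_natCast] at hf hg
  exact Submodule.mul_mem_mul hf hg

theorem pow_mem_Rg {a : ℤ} {f : K} (hf : f ∈ Rg W a) (n : ℕ) : f ^ n ∈ Rg W (n * a) := by
  induction n with
  | zero => simpa using one_mem_Rg_zero W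
  | succ n ih =>
    have := mul_mem_Rg ih hf
    rw [pow_succ]
    have h : ((n + 1 : ℕ) : ℤ) * a = n * a + a := by push_cast; ring
    rwa [h]

theorem prod_mem_Rg {ι : Type*} (s : Finset ι) (a : ι → ℤ) (f : ι → K)
    (h : ∀ i ∈ s, f i ∈ Rg W (a i)) : ∏ i ∈ s, f i ∈ Rg W (∑ i ∈ s, a i) := by
  classical
  induction s using Finset.induction_on with
  | empty => simpa using one_mem_Rg_zero W
  | insert i s hi ih =>
    rw [Finset.prod_insert hi, Finset.sum_insert hi]
    exact mul_mem_Rg (h i (Finset.mem_insert_self _ _))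
      (ih fun j hj => h j (Finset.mem_insert_of_mem hj))

theorem Rg_mono_left {U : Submodule k K} (h : U ≤ W) (t : ℤ) : Rg U t ≤ Rg W t := by
  unfold Rg
  split_ifs
  · exact pow_le_pow_left' h _
  · exact le_rfl

theorem nonneg_of_mem_Rg {a : ℤ} {f : K} (hf : f ∈ Rg W a) (h0 : f ≠ 0) : 0 ≤ a := by
  by_contra h
  rw [Rg_of_neg W (not_le.mp h), Submodule.mem_bot] at hf
  exact h0 hf

theorem finiteDimensional_Rg [FiniteDimensional k W] (t : ℤ) : FiniteDimensional k (Rg W t) := by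
  rcases lt_or_ge t 0 with ht | ht
  · rw [Rg_of_neg W ht]; infer_instance
  · lift t to ℕ using ht
    rw [Rg_natCast]
    exact Module.Finite.of_fg (Submodule.FG.pow (Module.Finite.iff_fg.mp inferInstance) _)

variable {V : Type*} [AddCommGroup V] [Module K V] [Module k V] [IsScalarTower k K V]
  {L N : ℤ → Submodule k V}

@[simp] theorem smulMap_apply (v : V) (f : K) : smulMap k K v f = f • v := rfl

theorem isMod_Rg (W : Submodule k K) : IsMod W (Rg W) := by
  intro t w hw v hv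
  have := mul_mem_Rg (mem_Rg_one hw) hv
  rwa [add_comm] at this

theorem IsMod.smul_mem (hL : IsMod W L) {a t : ℤ} {f : K} {v : V} (hf : f ∈ Rg W a)
    (hv : v ∈ L t) : f • v ∈ L (a + t) := by
  rcases lt_or_ge a 0 with ha | ha
  · rw [Rg_of_neg W ha, Submodule.mem_bot] at hf
    simp [hf]
  lift a to ℕ using ha
  rw [Rg_natCast] at hf
  induction hf using Submodule.pow_induction_on_left' with
  | algebraMap r =>
    rw [algebraMap_smul]
    simpa using Submodule.smul_mem _ r hv
  | add x y i hx hy ihx ihy => rw [add_smul]; exact Submodule.add_mem _ ihx ihy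
  | mem_mul m hm i x hx ih =>
    rw [mul_smul]
    have := hL _ m hm _ ih
    have h : ((i.succ : ℕ) : ℤ) + t = i + t + 1 := by push_cast; ring
    rwa [h]

theorem IsMod.mono (h1 : (1 : K) ∈ W) (hL : IsMod W L) : Monotone L := by
  apply monotone_int_of_le_succ
  intro t v hv
  simpa using hL t 1 h1 v hv

theorem Rg_mono (h1 : (1 : K) ∈ W) : Monotone (Rg W) := (isMod_Rg W).mono h1

theorem IsMod.of_le {U : Submodule k K} (h : U ≤ W) (hL : IsMod W L) : IsMod U L :=
  fun t w hw v hv => hL t w (h hw) v hv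

theorem IsMod.inf (hL : IsMod W L) (hN : IsMod W N) : IsMod W (L ⊓ N) :=
  fun t w hw v hv => ⟨hL t w hw v hv.1, hN t w hw v hv.2⟩

theorem IsMod.sup (hL : IsMod W L) (hN : IsMod W N) : IsMod W (L ⊔ N) := by
  intro t w _hw v hv
  obtain ⟨x, hx, y, hy, rfl⟩ := Submodule.mem_sup.mp hv
  rw [smul_add]
  exact Submodule.add_mem_sup (hL t w _hw x hx) (hN t w _hw y hy)

theorem mem_cst {Y : Submodule K V} {t : ℤ} {v : V} : v ∈ cst k Y t ↔ v ∈ Y := Iff.rfl

theorem isMod_cst (W : Submodule k K) (Y : Submodule K V) : IsMod W (cst k Y) :=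
  fun _ w _ _ hv => Y.smul_mem w hv

theorem IsMod.shift (hL : IsMod W L) (j : ℤ) : IsMod W (fun t => L (t + j)) := by
  intro t w hw v hv
  have := hL _ w hw v hv
  have h : t + 1 + j = t + j + 1 := by ring
  simpa only [h] using this

theorem mem_cyc {b t : ℤ} {v x : V} :
    x ∈ cyc W b v t ↔ ∃ f ∈ Rg W (t - b), f • v = x := Iff.rfl

theorem mem_gen {ι : Type*} [Fintype ι] {b : ι → ℤ} {v : ι → V} {t : ℤ} {x : V} :
    x ∈ gen W b v t ↔ ∃ f : ι → K, (∀ i, f i ∈ Rg W (t - b i)) ∧ ∑ i, f i • v i = x := by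
  classical
  constructor
  · intro hx
    unfold gen at hx
    induction hx using Submodule.iSup_induction' with
    | mem i x hx =>
      obtain ⟨f, hf, rfl⟩ := mem_cyc.mp hx
      refine ⟨Pi.single i f, fun j => ?_, ?_⟩
      · by_cases h : j = i
        · subst h; simpa using hf
        · simp [h]
      · rw [Finset.sum_eq_single i] <;> simp +contextual [Pi.single_apply]
    | zero => exact ⟨0, fun i => Submodule.zero_mem _, by simp⟩
    | add x y _ _ ihx ihy =>
      obtain ⟨f, hf, rfl⟩ := ihx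
      obtain ⟨g, hg, rfl⟩ := ihy
      exact ⟨f + g, fun i => Submodule.add_mem _ (hf i) (hg i), by
        simp [add_smul, Finset.sum_add_distrib]⟩
  · rintro ⟨f, hf, rfl⟩
    exact Submodule.sum_mem _ fun i _ =>
      Submodule.mem_iSup_of_mem i (mem_cyc.mpr ⟨f i, hf i, rfl⟩)

theorem self_mem_cyc (W : Submodule k K) (b : ℤ) (v : V) : v ∈ cyc W b v b :=
  mem_cyc.mpr ⟨1, by simpa using one_mem_Rg_zero W, one_smul _ _⟩

theorem cyc_le_gen (W : Submodule k K) {ι : Type*} (b : ι → ℤ) (v : ι → V) (i : ι) :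
    cyc W (b i) (v i) ≤ gen W b v :=
  fun t => le_iSup (fun i => cyc W (b i) (v i) t) i

theorem self_mem_gen (W : Submodule k K) {ι : Type*} (b : ι → ℤ) (v : ι → V) (i : ι) :
    v i ∈ gen W b v (b i) :=
  cyc_le_gen W b v i _ (self_mem_cyc W _ _)

theorem isMod_cyc (W : Submodule k K) (b : ℤ) (v : V) : IsMod W (cyc W b v) := by
  rintro t w hw x ⟨f, hf, rfl⟩
  refine ⟨w * f, ?_, by simp [mul_smul]⟩
  have := mul_mem_Rg (mem_Rg_one hw) hf
  have h : t + 1 - b = 1 + (t - b) := by ring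
  rwa [h]

theorem isMod_gen (W : Submodule k K) {ι : Type*} (b : ι → ℤ) (v : ι → V) :
    IsMod W (gen W b v) := by
  intro t w hw x hx
  unfold gen at hx
  induction hx using Submodule.iSup_induction' with
  | mem i x hx => exact cyc_le_gen W b v i _ (isMod_cyc W _ _ t w hw x hx)
  | zero => simp
  | add x y _ _ ihx ihy => rw [smul_add]; exact Submodule.add_mem _ ihx ihy

theorem cyc_le (hL : IsMod W L) {b : ℤ} {v : V} (hv : v ∈ L b) : cyc W b v ≤ L := by
  rintro t x ⟨f, hf, rfl⟩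
  simpa using hL.smul_mem hf hv

theorem gen_le (hL : IsMod W L) {ι : Type*} {b : ι → ℤ} {v : ι → V} (hv : ∀ i, v i ∈ L (b i)) :
    gen W b v ≤ L :=
  fun t => iSup_le fun i => cyc_le hL (hv i) t

theorem gen_reindex (W : Submodule k K) {ι ι' : Type*} (e : ι' ≃ ι) (b : ι → ℤ) (v : ι → V) :
    gen W (b ∘ e) (v ∘ e) = gen W b v := by
  funext t
  exact e.iSup_comp (g := fun i => cyc W (b i) (v i) t)

theorem isFG_gen (W : Submodule k K) {ι : Type*} [Finite ι] (b : ι → ℤ) (v : ι → V) :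
    IsFG W (gen W b v) := by
  obtain ⟨n, ⟨e⟩⟩ := Finite.exists_equiv_fin ι
  exact ⟨n, b ∘ e.symm, v ∘ e.symm, (gen_reindex W e.symm b v).symm⟩

theorem cyc_eq_gen (W : Submodule k K) (b : ℤ) (v : V) :
    cyc W b v = gen W (fun _ : Unit => b) (fun _ => v) := by
  funext t; simp [gen]

theorem isFG_cyc (W : Submodule k K) (b : ℤ) (v : V) : IsFG W (cyc W b v) := by
  rw [cyc_eq_gen]; exact isFG_gen _ _ _

theorem IsFG.isMod (hL : IsFG W L) : IsMod W L := by
  obtain ⟨n, b, v, rfl⟩ := hL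
  exact isMod_gen _ _ _

theorem gen_sum (W : Submodule k K) {ι ι' : Type*} (b : ι → ℤ) (v : ι → V) (b' : ι' → ℤ)
    (v' : ι' → V) : gen W (Sum.elim b b') (Sum.elim v v') = gen W b v ⊔ gen W b' v' := by
  funext t
  simp [gen, iSup_sum]

theorem IsFG.sup (hL : IsFG W L) (hN : IsFG W N) : IsFG W (L ⊔ N) := by
  obtain ⟨n, b, v, rfl⟩ := hL
  obtain ⟨n', b', v', rfl⟩ := hN
  rw [← gen_sum]
  exact isFG_gen _ _ _

theorem cyc_one (W : Submodule k K) : cyc W 0 (1 : K) = Rg W := by
  funext t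
  ext x
  simp [mem_cyc]

theorem isFG_Rg (W : Submodule k K) : IsFG W (Rg W) := by
  rw [← cyc_one]; exact isFG_cyc _ _ _

theorem IsFG.finiteDimensional [FiniteDimensional k W] (hL : IsFG W L) (t : ℤ) :
    FiniteDimensional k (L t) := by
  obtain ⟨n, b, v, rfl⟩ := hL
  have : ∀ i, FiniteDimensional k (cyc W (b i) (v i) t) := fun i => by
    have := finiteDimensional_Rg (W := W) (t - b i)
    unfold cyc
    infer_instance
  unfold gen
  infer_instance

theorem IsFG.exists_eq_bot (hL : IsFG W L) : ∃ t₀ : ℤ, ∀ t < t₀, L t = ⊥ := by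
  obtain ⟨n, b, v, rfl⟩ := hL
  obtain ⟨t₀, ht₀⟩ := (Set.finite_range b).bddBelow
  refine ⟨t₀, fun t ht => ?_⟩
  unfold gen
  rw [iSup_eq_bot]
  intro i
  have : t - b i < 0 := by
    have := ht₀ ⟨i, rfl⟩
    omega
  simp [cyc, Rg_of_neg W this]

theorem IsFG.shift (hL : IsFG W L) (j : ℤ) : IsFG W (fun t => L (t + j)) := by
  obtain ⟨n, b, v, rfl⟩ := hL
  refine ⟨n, fun i => b i - j, v, ?_⟩
  funext t
  unfold gen cyc
  refine iSup_congr fun i => ?_
  have : t + j - b i = t - (b i - j) := by ring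
  rw [this]

theorem IsFG.map {V' : Type*} [AddCommGroup V'] [Module K V'] [Module k V'] [IsScalarTower k K V']
    (hL : IsFG W L) (φ : V →ₗ[K] V') :
    IsFG W (fun t => (L t).map (φ.restrictScalars k)) := by
  obtain ⟨n, b, v, rfl⟩ := hL
  refine ⟨n, b, fun i => φ (v i), ?_⟩
  funext t
  ext x
  simp only [Submodule.mem_map, mem_gen, LinearMap.coe_restrictScalars]
  constructor
  · rintro ⟨y, ⟨f, hf, rfl⟩, rfl⟩
    exact ⟨f, hf, by simp⟩
  · rintro ⟨f, hf, rfl⟩
    exact ⟨_, ⟨f, hf, rfl⟩, by simp⟩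

theorem IsFG.trans {U : Submodule k K} (hR : IsFG U (Rg W)) (hL : IsFG W L) : IsFG U L := by
  obtain ⟨n, b, v, rfl⟩ := hL
  obtain ⟨n', b', v', hR'⟩ := hR
  have hUW : IsMod U (Rg W) := by rw [hR']; exact isMod_gen _ _ _
  have hle : U ≤ W := fun u hu => by
    simpa [Rg_one] using hUW 0 u hu 1 (one_mem_Rg_zero W)
  have key : gen W b v = gen U (fun x : Fin n × Fin n' => b x.1 + b' x.2)
      (fun x => v' x.2 • v x.1) := by
    apply le_antisymm
    · intro t
      refine iSup_le fun i => ?_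
      rintro x ⟨f, hf, rfl⟩
      rw [SetLike.mem_coe, hR', mem_gen] at hf
      obtain ⟨g, hg, rfl⟩ := hf
      simp only [smulMap_apply, Finset.sum_smul]
      refine Submodule.sum_mem _ fun j _ => ?_
      refine cyc_le_gen U (fun x : Fin n × Fin n' => b x.1 + b' x.2)
        (fun x => v' x.2 • v x.1) (i, j) t ⟨g j, ?_, by simp [mul_smul]⟩
      have h : t - (b i + b' j) = t - b i - b' j := by ring
      simpa [h] using hg j
    · refine gen_le ((isMod_gen W b v).of_le hle) fun x => ?_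
      have h1 : v' x.2 ∈ Rg W (b' x.2) := by rw [hR']; exact self_mem_gen _ _ _ _
      have := (isMod_gen W b v).smul_mem h1 (self_mem_gen W b v x.1)
      rwa [add_comm] at this
  rw [key]
  exact isFG_gen _ _ _

theorem hf_nonneg {V : Type*} [AddCommGroup V] [Module k V] (L : ℤ → Submodule k V) (t : ℤ) :
    0 ≤ hf L t := Int.natCast_nonneg _

theorem hf_mono {V : Type*} [AddCommGroup V] [Module k V] {A B : ℤ → Submodule k V} {t t' : ℤ}
    [FiniteDimensional k (B t')] (h : A t ≤ B t') : hf A t ≤ hf B t' := by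
  unfold hf
  exact_mod_cast Submodule.finrank_mono h

theorem hf_eq_zero_of_eq_bot {V : Type*} [AddCommGroup V] [Module k V] {A : ℤ → Submodule k V}
    {t : ℤ} (h : A t = ⊥) : hf A t = 0 := by
  unfold hf
  rw [h]
  simp

theorem hf_inf_sub_le {V : Type*} [AddCommGroup V] [Module k V] {A B : ℤ → Submodule k V}
    (Y : ℤ → Submodule k V) {t : ℤ} [FiniteDimensional k (B t)] (h : A t ≤ B t) :
    hf (B ⊓ Y) t - hf (A ⊓ Y) t ≤ hf B t - hf A t := by
  have : FiniteDimensional k (A t) := Submodule.finiteDimensional_of_le h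
  have : FiniteDimensional k (B t ⊓ Y t : Submodule k V) :=
    Submodule.finiteDimensional_of_le inf_le_left
  have h1 := Submodule.finrank_sup_add_finrank_inf_eq (A t) (B t ⊓ Y t)
  have h2 : A t ⊓ (B t ⊓ Y t) = A t ⊓ Y t := by rw [← inf_assoc, inf_eq_left.mpr h]
  have h3 : finrank k (A t ⊔ B t ⊓ Y t : Submodule k V) ≤ finrank k (B t) :=
    Submodule.finrank_mono (sup_le h inf_le_left)
  rw [h2] at h1
  simp only [hf, Pi.inf_apply]
  omega

theorem hf_gen_of_li [FiniteDimensional k W] {ι : Type*} [Fintype ι] (b : ι → ℤ) {v : ι → V}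
    (hv : LinearIndependent K v) (t : ℤ) :
    hf (gen W b v) t = ∑ i, hf (Rg W) (t - b i) := by
  classical
  have := fun i => finiteDimensional_Rg (W := W) (t - b i)
  let φ : (∀ i, Rg W (t - b i)) →ₗ[k] V :=
    ∑ i, (smulMap k K (v i)).comp ((Rg W (t - b i)).subtype.comp (LinearMap.proj i))
  have hφ : ∀ f, φ f = ∑ i, (f i : K) • v i := by
    intro f; simp [φ]
  have hinj : Function.Injective φ := by
    rw [injective_iff_map_eq_zero]
    intro f hf
    rw [hφ] at hf
    have := Fintype.linearIndependent_iff.mp hv (fun i => (f i : K)) hf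
    funext i
    exact Subtype.ext (this i)
  have hr : LinearMap.range φ = gen W b v t := by
    ext x
    rw [mem_gen, LinearMap.mem_range]
    constructor
    · rintro ⟨f, rfl⟩
      exact ⟨fun i => f i, fun i => (f i).2, (hφ f).symm⟩
    · rintro ⟨f, hf, rfl⟩
      exact ⟨fun i => ⟨f i, hf i⟩, hφ _⟩
  unfold hf
  rw [← hr, LinearMap.finrank_range_of_inj hinj, Module.finrank_pi_fintype]
  push_cast
  rfl

theorem hf_cyc_of_ne [FiniteDimensional k W] (b : ℤ) {v : V} (hv : v ≠ 0) (t : ℤ) :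
    hf (cyc W b v) t = hf (Rg W) (t - b) := by
  rw [cyc_eq_gen, hf_gen_of_li _ ((linearIndependent_unique_iff).mpr hv)]
  simp

theorem hf_gen_le [FiniteDimensional k W] {ι : Type*} [Fintype ι] (b : ι → ℤ) (v : ι → V)
    (t : ℤ) : hf (gen W b v) t ≤ ∑ i, hf (Rg W) (t - b i) := by
  classical
  have := fun i => finiteDimensional_Rg (W := W) (t - b i)
  let φ : (∀ i, Rg W (t - b i)) →ₗ[k] V :=
    ∑ i, (smulMap k K (v i)).comp ((Rg W (t - b i)).subtype.comp (LinearMap.proj i))
  have hφ : ∀ f, φ f = ∑ i, (f i : K) • v i := by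
    intro f; simp [φ]
  have hr : LinearMap.range φ = gen W b v t := by
    ext x
    rw [mem_gen, LinearMap.mem_range]
    constructor
    · rintro ⟨f, rfl⟩
      exact ⟨fun i => f i, fun i => (f i).2, (hφ f).symm⟩
    · rintro ⟨f, hf, rfl⟩
      exact ⟨fun i => ⟨f i, hf i⟩, hφ _⟩
  unfold hf
  have := LinearMap.finrank_range_le φ
  rw [hr, Module.finrank_pi_fintype] at this
  exact_mod_cast this

theorem one_mem_U3 (s : Fin 2 → K) : (1 : K) ∈ U3 k s :=
  Submodule.subset_span (by simp)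

theorem s_mem_U3 (s : Fin 2 → K) (i : Fin 2) : s i ∈ U3 k s :=
  Submodule.subset_span (by fin_cases i <;> simp)

theorem U3_le {s : Fin 2 → K} (h1 : (1 : K) ∈ W) (hs : ∀ i, s i ∈ W) : U3 k s ≤ W := by
  rw [U3, Submodule.span_le]
  rintro x (rfl | rfl | rfl)
  exacts [h1, hs 0, hs 1]

instance finiteDimensional_U3 (s : Fin 2 → K) : FiniteDimensional k (U3 k s) :=
  FiniteDimensional.span_of_finite k (Set.toFinite _)

instance isScalarTower_intermediateField (F : IntermediateField k K) : IsScalarTower k F V :=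
  ⟨fun c f v => by
    change ((c • f : F) : K) • v = c • ((f : K) • v)
    rw [IntermediateField.coe_smul, smul_assoc]⟩

section Transfer

variable {F : Type*} [Field F] [Algebra k F] [Algebra F K] [IsScalarTower k F K]

theorem Rg_map (U : Submodule k F) (t : ℤ) :
    Rg (U.map (IsScalarTower.toAlgHom k F K).toLinearMap) t =
      (Rg U t).map (IsScalarTower.toAlgHom k F K).toLinearMap := by
  unfold Rg
  split_ifs
  · rw [Submodule.map_pow]
  · simp

theorem U3_map (s : Fin 2 → F) :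
    (U3 k s).map (IsScalarTower.toAlgHom k F K).toLinearMap =
      U3 k (fun i => algebraMap F K (s i)) := by
  simp [U3, Submodule.map_span, Set.image_insert_eq]

theorem mem_Rg_U3_map (s : Fin 2 → F) (t : ℤ) (x : K) :
    x ∈ Rg (U3 k (fun i => algebraMap F K (s i))) t ↔
      ∃ y ∈ Rg (U3 k s) t, algebraMap F K y = x := by
  rw [← U3_map, Rg_map]
  rfl

theorem ev3_map (s : Fin 2 → F) (f : MvPolynomial (Fin 3) k) :
    ev3 k (fun i => algebraMap F K (s i)) f = algebraMap F K (ev3 k s f) := by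
  have : ev3 k (fun i => algebraMap F K (s i)) =
      (IsScalarTower.toAlgHom k F K).comp (ev3 k s) := by
    apply MvPolynomial.algHom_ext
    intro i
    fin_cases i <;> simp [ev3]
  rw [this]; rfl

variable [Module F V] [IsScalarTower k F V] [IsScalarTower F K V]

theorem gen_U3_map (s : Fin 2 → F) {ι : Type*} (b : ι → ℤ) (v : ι → V) :
    gen (U3 k (fun i => algebraMap F K (s i))) b v = gen (U3 k s) b v := by
  funext t
  unfold gen
  refine iSup_congr fun i => ?_
  ext x
  simp only [mem_cyc, mem_Rg_U3_map]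
  constructor
  · rintro ⟨f, ⟨y, hy, rfl⟩, rfl⟩
    exact ⟨y, hy, by simp⟩
  · rintro ⟨y, hy, rfl⟩
    exact ⟨_, ⟨y, hy, rfl⟩, by simp⟩

theorem isFG_U3_map_iff (s : Fin 2 → F) :
    IsFG (U3 k (fun i => algebraMap F K (s i))) L ↔ IsFG (U3 k s) L := by
  simp only [IsFG, gen_U3_map]

theorem hull_map (s : Fin 2 → F) (G : ℤ → Submodule k V) :
    hull (fun i => algebraMap F K (s i)) G = hull s G := by
  funext t
  simp only [hull, ev3_map, algebraMap_smul]

end Transfer

end Pool.Agent.Lib.MP_cf0da3_ag
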