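import Pool.Agent.Lib.MP_cf0da3_ag.Defs

/-! Petersen's theorem on five vertices: a generated case tree. -/

namespace Pool.Agent.Lib.MP_cf0da3_ag

theorem petersen_core {P : Prop} (m c0 c1 c2 c3 c4 c5 c6 c7 c8 c9 : ℕ)
    (e0 : c0 + c1 + c2 + c3 = 2 * (m + 1)) (e1 : c0 + c4 + c5 + c6 = 2 * (m + 1))
    (e2 : c1 + c4 + c7 + c8 = 2 * (m + 1)) (e3 : c2 + c5 + c7 + c9 = 2 * (m + 1))
    (e4 : c3 + c6 + c8 + c9 = 2 * (m + 1))
    (H0 : 2 ≤ c3 → 1 ≤ c4 → 1 ≤ c5 → 1 ≤ c7 → P)
    (H1 : 1 ≤ c2 → 1 ≤ c3 → 1 ≤ c4 → 1 ≤ c6 → 1 ≤ c7 → P)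
    (H2 : 1 ≤ c2 → 1 ≤ c3 → 1 ≤ c4 → 1 ≤ c5 → 1 ≤ c8 → P)
    (H3 : 1 ≤ c2 → 1 ≤ c3 → 2 ≤ c4 → 1 ≤ c9 → P)
    (H4 : 2 ≤ c2 → 1 ≤ c4 → 1 ≤ c6 → 1 ≤ c8 → P)
    (H5 : 1 ≤ c1 → 1 ≤ c3 → 1 ≤ c5 → 1 ≤ c6 → 1 ≤ c7 → P)
    (H6 : 1 ≤ c1 → 1 ≤ c3 → 2 ≤ c5 → 1 ≤ c8 → P)
    (H7 : 1 ≤ c1 → 1 ≤ c3 → 1 ≤ c4 → 1 ≤ c5 → 1 ≤ c9 → P)
    (H8 : 1 ≤ c1 → 1 ≤ c2 → 2 ≤ c6 → 1 ≤ c7 → P)
    (H9 : 1 ≤ c1 → 1 ≤ c2 → 1 ≤ c5 → 1 ≤ c6 → 1 ≤ c8 → P)
    (H10 : 1 ≤ c1 → 1 ≤ c2 → 1 ≤ c4 → 1 ≤ c6 → 1 ≤ c9 → P)
    (H11 : 2 ≤ c1 → 1 ≤ c5 → 1 ≤ c6 → 1 ≤ c9 → P)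
    (H12 : 1 ≤ c0 → 1 ≤ c3 → 1 ≤ c6 → 2 ≤ c7 → P)
    (H13 : 1 ≤ c0 → 1 ≤ c3 → 1 ≤ c5 → 1 ≤ c7 → 1 ≤ c8 → P)
    (H14 : 1 ≤ c0 → 1 ≤ c3 → 1 ≤ c4 → 1 ≤ c7 → 1 ≤ c9 → P)
    (H15 : 1 ≤ c0 → 1 ≤ c2 → 1 ≤ c6 → 1 ≤ c7 → 1 ≤ c8 → P)
    (H16 : 1 ≤ c0 → 1 ≤ c2 → 1 ≤ c5 → 2 ≤ c8 → P)
    (H17 : 1 ≤ c0 → 1 ≤ c2 → 1 ≤ c4 → 1 ≤ c8 → 1 ≤ c9 → P)
    (H18 : 1 ≤ c0 → 1 ≤ c1 → 1 ≤ c6 → 1 ≤ c7 → 1 ≤ c9 → P)
    (H19 : 1 ≤ c0 → 1 ≤ c1 → 1 ≤ c5 → 1 ≤ c8 → 1 ≤ c9 → P)
    (H20 : 1 ≤ c0 → 1 ≤ c1 → 1 ≤ c4 → 2 ≤ c9 → P)
    (H21 : 2 ≤ c0 → 1 ≤ c7 → 1 ≤ c8 → 1 ≤ c9 → P)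
    : P := by
  by_cases h1 : 1 ≤ c4
  · by_cases h2 : 1 ≤ c5
    · by_cases h3 : 1 ≤ c7
      · by_cases h4 : 2 ≤ c3
        · exact H0 (by omega) (by omega) (by omega) (by omega)
        · by_cases h5 : 1 ≤ c6
          · by_cases h6 : 1 ≤ c8
            · by_cases h7 : 2 ≤ c2
              · exact H4 (by omega) (by omega) (by omega) (by omega)
              · by_cases h8 : 1 ≤ c0
                · by_cases h9 : 1 ≤ c1
                  · by_cases h10 : 1 ≤ c9
                    · exact H18 (by omega) (by omega) (by omega) (by omega) (by omega)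
                    · omega
                  · omega
                · omega
            · by_cases h11 : 2 ≤ c1
              · by_cases h12 : 1 ≤ c9
                · exact H11 (by omega) (by omega) (by omega) (by omega)
                · omega
              · omega
          · by_cases h13 : 2 ≤ c0
            · by_cases h14 : 1 ≤ c8
              · by_cases h15 : 1 ≤ c9
                · exact H21 (by omega) (by omega) (by omega) (by omega)
                · omega
              · omega
            · omega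
      · by_cases h16 : 1 ≤ c2
        · by_cases h17 : 1 ≤ c8
          · by_cases h18 : 1 ≤ c3
            · exact H2 (by omega) (by omega) (by omega) (by omega) (by omega)
            · by_cases h19 : 2 ≤ c2
              · by_cases h20 : 1 ≤ c6
                · exact H4 (by omega) (by omega) (by omega) (by omega)
                · by_cases h21 : 1 ≤ c0
                  · by_cases h22 : 2 ≤ c8
                    · exact H16 (by omega) (by omega) (by omega) (by omega)
                    · omega
                  · omega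
              · by_cases h23 : 1 ≤ c0
                · by_cases h24 : 1 ≤ c9
                  · exact H17 (by omega) (by omega) (by omega) (by omega) (by omega)
                  · omega
                · omega
          · by_cases h25 : 1 ≤ c9
            · by_cases h26 : 2 ≤ c4
              · by_cases h27 : 1 ≤ c3
                · exact H3 (by omega) (by omega) (by omega) (by omega)
                · by_cases h28 : 1 ≤ c1
                  · by_cases h29 : 1 ≤ c6
                    · exact H10 (by omega) (by omega) (by omega) (by omega) (by omega)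
                    · omega
                  · omega
              · by_cases h30 : 1 ≤ c1
                · by_cases h31 : 1 ≤ c6
                  · exact H10 (by omega) (by omega) (by omega) (by omega) (by omega)
                  · omega
                · omega
            · omega
        · by_cases h32 : 1 ≤ c1
          · by_cases h33 : 1 ≤ c9
            · by_cases h34 : 1 ≤ c3
              · exact H7 (by omega) (by omega) (by omega) (by omega) (by omega)
              · by_cases h35 : 1 ≤ c0
                · by_cases h36 : 2 ≤ c9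
                  · exact H20 (by omega) (by omega) (by omega) (by omega)
                  · omega
                · omega
            · omega
          · omega
    · by_cases h37 : 1 ≤ c6
      · by_cases h38 : 2 ≤ c2
        · by_cases h39 : 1 ≤ c8
          · exact H4 (by omega) (by omega) (by omega) (by omega)
          · by_cases h40 : 1 ≤ c3
            · by_cases h41 : 1 ≤ c7
              · exact H1 (by omega) (by omega) (by omega) (by omega) (by omega)
              · by_cases h42 : 2 ≤ c4
                · by_cases h43 : 1 ≤ c9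
                  · exact H3 (by omega) (by omega) (by omega) (by omega)
                  · omega
                · omega
            · by_cases h44 : 1 ≤ c1
              · by_cases h45 : 1 ≤ c9
                · exact H10 (by omega) (by omega) (by omega) (by omega) (by omega)
                · omega
              · omega
        · by_cases h46 : 1 ≤ c0
          · by_cases h47 : 2 ≤ c7
            · by_cases h48 : 1 ≤ c3
              · exact H12 (by omega) (by omega) (by omega) (by omega)
              · by_cases h49 : 1 ≤ c1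
                · by_cases h50 : 1 ≤ c9
                  · exact H18 (by omega) (by omega) (by omega) (by omega) (by omega)
                  · omega
                · omega
            · by_cases h51 : 1 ≤ c1
              · by_cases h52 : 2 ≤ c9
                · exact H20 (by omega) (by omega) (by omega) (by omega)
                · omega
              · omega
          · by_cases h53 : 1 ≤ c2
            · by_cases h54 : 1 ≤ c3
              · by_cases h55 : 1 ≤ c7
                · exact H1 (by omega) (by omega) (by omega) (by omega) (by omega)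
                · omega
              · by_cases h56 : 1 ≤ c1
                · by_cases h57 : 1 ≤ c9
                  · exact H10 (by omega) (by omega) (by omega) (by omega) (by omega)
                  · omega
                · omega
            · omega
      · by_cases h58 : 1 ≤ c0
        · by_cases h59 : 2 ≤ c9
          · by_cases h60 : 1 ≤ c1
            · exact H20 (by omega) (by omega) (by omega) (by omega)
            · by_cases h61 : 1 ≤ c3
              · by_cases h62 : 1 ≤ c7
                · exact H14 (by omega) (by omega) (by omega) (by omega) (by omega)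
                · by_cases h63 : 1 ≤ c2
                  · by_cases h64 : 2 ≤ c4
                    · exact H3 (by omega) (by omega) (by omega) (by omega)
                    · omega
                  · omega
              · by_cases h65 : 1 ≤ c2
                · by_cases h66 : 1 ≤ c8
                  · exact H17 (by omega) (by omega) (by omega) (by omega) (by omega)
                  · omega
                · omega
          · by_cases h67 : 1 ≤ c9
            · by_cases h68 : 1 ≤ c3
              · by_cases h69 : 1 ≤ c7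
                · exact H14 (by omega) (by omega) (by omega) (by omega) (by omega)
                · omega
              · by_cases h70 : 1 ≤ c2
                · by_cases h71 : 1 ≤ c8
                  · exact H17 (by omega) (by omega) (by omega) (by omega) (by omega)
                  · omega
                · omega
            · omega
        · by_cases h72 : 1 ≤ c2
          · by_cases h73 : 1 ≤ c3
            · by_cases h74 : 2 ≤ c4
              · by_cases h75 : 1 ≤ c9
                · exact H3 (by omega) (by omega) (by omega) (by omega)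
                · omega
              · omega
            · omega
          · omega
  · by_cases h76 : 1 ≤ c1
    · by_cases h77 : 1 ≤ c8
      · by_cases h78 : 2 ≤ c5
        · by_cases h79 : 1 ≤ c3
          · exact H6 (by omega) (by omega) (by omega) (by omega)
          · by_cases h80 : 1 ≤ c2
            · by_cases h81 : 1 ≤ c6
              · exact H9 (by omega) (by omega) (by omega) (by omega) (by omega)
              · by_cases h82 : 1 ≤ c0
                · by_cases h83 : 2 ≤ c8
                  · exact H16 (by omega) (by omega) (by omega) (by omega)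
                  · omega
                · omega
            · by_cases h84 : 1 ≤ c0
              · by_cases h85 : 1 ≤ c9
                · exact H19 (by omega) (by omega) (by omega) (by omega) (by omega)
                · omega
              · omega
        · by_cases h86 : 1 ≤ c7
          · by_cases h87 : 2 ≤ c6
            · by_cases h88 : 1 ≤ c2
              · exact H8 (by omega) (by omega) (by omega) (by omega)
              · by_cases h89 : 1 ≤ c0
                · by_cases h90 : 1 ≤ c9
                  · exact H18 (by omega) (by omega) (by omega) (by omega) (by omega)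
                  · omega
                · omega
            · by_cases h91 : 2 ≤ c0
              · by_cases h92 : 1 ≤ c9
                · exact H21 (by omega) (by omega) (by omega) (by omega)
                · omega
              · omega
          · by_cases h93 : 1 ≤ c5
            · by_cases h94 : 1 ≤ c2
              · by_cases h95 : 1 ≤ c6
                · exact H9 (by omega) (by omega) (by omega) (by omega) (by omega)
                · omega
              · by_cases h96 : 1 ≤ c0
                · by_cases h97 : 1 ≤ c9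
                  · exact H19 (by omega) (by omega) (by omega) (by omega) (by omega)
                  · omega
                · omega
            · omega
      · by_cases h98 : 1 ≤ c7
        · by_cases h99 : 2 ≤ c6
          · by_cases h100 : 1 ≤ c2
            · exact H8 (by omega) (by omega) (by omega) (by omega)
            · by_cases h101 : 1 ≤ c3
              · by_cases h102 : 1 ≤ c5
                · exact H5 (by omega) (by omega) (by omega) (by omega) (by omega)
                · by_cases h103 : 1 ≤ c0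
                  · by_cases h104 : 2 ≤ c7
                    · exact H12 (by omega) (by omega) (by omega) (by omega)
                    · omega
                  · omega
              · by_cases h105 : 1 ≤ c0
                · by_cases h106 : 1 ≤ c9
                  · exact H18 (by omega) (by omega) (by omega) (by omega) (by omega)
                  · omega
                · omega
          · by_cases h107 : 1 ≤ c6
            · by_cases h108 : 1 ≤ c3
              · by_cases h109 : 1 ≤ c5
                · exact H5 (by omega) (by omega) (by omega) (by omega) (by omega)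
                · omega
              · by_cases h110 : 1 ≤ c0
                · by_cases h111 : 1 ≤ c9
                  · exact H18 (by omega) (by omega) (by omega) (by omega) (by omega)
                  · omega
                · omega
            · omega
        · by_cases h112 : 2 ≤ c1
          · by_cases h113 : 1 ≤ c5
            · by_cases h114 : 1 ≤ c6
              · by_cases h115 : 1 ≤ c9
                · exact H11 (by omega) (by omega) (by omega) (by omega)
                · omega
              · omega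
            · omega
          · omega
    · by_cases h116 : 1 ≤ c7
      · by_cases h117 : 1 ≤ c8
        · by_cases h118 : 2 ≤ c0
          · by_cases h119 : 1 ≤ c9
            · exact H21 (by omega) (by omega) (by omega) (by omega)
            · by_cases h120 : 1 ≤ c3
              · by_cases h121 : 1 ≤ c5
                · exact H13 (by omega) (by omega) (by omega) (by omega) (by omega)
                · by_cases h122 : 1 ≤ c6
                  · by_cases h123 : 2 ≤ c7
                    · exact H12 (by omega) (by omega) (by omega) (by omega)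
                    · omega
                  · omega
              · by_cases h124 : 1 ≤ c2
                · by_cases h125 : 1 ≤ c6
                  · exact H15 (by omega) (by omega) (by omega) (by omega) (by omega)
                  · omega
                · omega
          · by_cases h126 : 1 ≤ c0
            · by_cases h127 : 1 ≤ c3
              · by_cases h128 : 1 ≤ c5
                · exact H13 (by omega) (by omega) (by omega) (by omega) (by omega)
                · omega
              · by_cases h129 : 1 ≤ c2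
                · by_cases h130 : 1 ≤ c6
                  · exact H15 (by omega) (by omega) (by omega) (by omega) (by omega)
                  · omega
                · omega
            · omega
        · by_cases h131 : 1 ≤ c0
          · by_cases h132 : 1 ≤ c3
            · by_cases h133 : 1 ≤ c6
              · by_cases h134 : 2 ≤ c7
                · exact H12 (by omega) (by omega) (by omega) (by omega)
                · omega
              · omega
            · omega
          · omega
      · by_cases h135 : 1 ≤ c0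
        · by_cases h136 : 1 ≤ c2
          · by_cases h137 : 1 ≤ c5
            · by_cases h138 : 2 ≤ c8
              · exact H16 (by omega) (by omega) (by omega) (by omega)
              · omega
            · omega
          · omega
        · omega

theorem exists_le_cperm {m : ℕ} {c : Fin 10 → ℕ} (h : Reg (m + 1) c) :
    ∃ σ : Equiv.Perm (Fin 5), (∀ i, σ i ≠ i) ∧ ∀ e, cperm σ e ≤ c e := by
  obtain ⟨e0, e1, e2, e3, e4⟩ := h
  have key : ∀ (σ : Equiv.Perm (Fin 5)) (f : Fin 10 → ℕ), ((∀ i, σ i ≠ i) ∧ cperm σ = f) →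
      (f 0 ≤ c 0 ∧ f 1 ≤ c 1 ∧ f 2 ≤ c 2 ∧ f 3 ≤ c 3 ∧ f 4 ≤ c 4 ∧ f 5 ≤ c 5 ∧ f 6 ≤ c 6 ∧
        f 7 ≤ c 7 ∧ f 8 ≤ c 8 ∧ f 9 ≤ c 9) →
      ∃ σ : Equiv.Perm (Fin 5), (∀ i, σ i ≠ i) ∧ ∀ e, cperm σ e ≤ c e := by
    rintro σ f ⟨h1, rfl⟩ ⟨a0, a1, a2, a3, a4, a5, a6, a7, a8, a9⟩
    refine ⟨σ, h1, fun e => ?_⟩
    fin_cases e
    exacts [a0, a1, a2, a3, a4, a5, a6, a7, a8, a9]
  refine petersen_core m (c 0) (c 1) (c 2) (c 3) (c 4) (c 5) (c 6) (c 7) (c 8) (c 9)
    e0 e1 e2 e3 e4 ?_ ?_ ?_ ?_ ?_ ?_ ?_ ?_ ?_ ?_ ?_ ?_ ?_ ?_ ?_ ?_ ?_ ?_ ?_ ?_ ?_ ?_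
  · intro a3 a4 a5 a7
    exact key ⟨![4, 2, 3, 1, 0], ![4, 3, 1, 2, 0], by decide, by decide⟩ ![0, 0, 0, 2, 1, 1, 0, 1, 0, 0]
      (by decide) ⟨Nat.zero_le _, Nat.zero_le _, Nat.zero_le _, a3, a4, a5, Nat.zero_le _, a7, Nat.zero_le _, Nat.zero_le _⟩
  · intro a2 a3 a4 a6 a7
    exact key ⟨![3, 4, 1, 2, 0], ![4, 2, 3, 0, 1], by decide, by decide⟩ ![0, 0, 1, 1, 1, 0, 1, 1, 0, 0]
      (by decide) ⟨Nat.zero_le _, Nat.zero_le _, a2, a3, a4, Nat.zero_le _, a6, a7, Nat.zero_le _, Nat.zero_le _⟩
  · intro a2 a3 a4 a5 a8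
    exact key ⟨![3, 2, 4, 1, 0], ![4, 3, 1, 0, 2], by decide, by decide⟩ ![0, 0, 1, 1, 1, 1, 0, 0, 1, 0]
      (by decide) ⟨Nat.zero_le _, Nat.zero_le _, a2, a3, a4, a5, Nat.zero_le _, Nat.zero_le _, a8, Nat.zero_le _⟩
  · intro a2 a3 a4 a9
    exact key ⟨![3, 2, 1, 4, 0], ![4, 2, 1, 0, 3], by decide, by decide⟩ ![0, 0, 1, 1, 2, 0, 0, 0, 0, 1]
      (by decide) ⟨Nat.zero_le _, Nat.zero_le _, a2, a3, a4, Nat.zero_le _, Nat.zero_le _, Nat.zero_le _, Nat.zero_le _, a9⟩
  · intro a2 a4 a6 a8
    exact key ⟨![3, 2, 4, 0, 1], ![3, 4, 1, 0, 2], by decide, by decide⟩ ![0, 0, 2, 0, 1, 0, 1, 0, 1, 0]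
      (by decide) ⟨Nat.zero_le _, Nat.zero_le _, a2, Nat.zero_le _, a4, Nat.zero_le _, a6, Nat.zero_le _, a8, Nat.zero_le _⟩
  · intro a1 a3 a5 a6 a7
    exact key ⟨![2, 4, 3, 1, 0], ![4, 3, 0, 2, 1], by decide, by decide⟩ ![0, 1, 0, 1, 0, 1, 1, 1, 0, 0]
      (by decide) ⟨Nat.zero_le _, a1, Nat.zero_le _, a3, Nat.zero_le _, a5, a6, a7, Nat.zero_le _, Nat.zero_le _⟩
  · intro a1 a3 a5 a8
    exact key ⟨![2, 3, 4, 1, 0], ![4, 3, 0, 1, 2], by decide, by decide⟩ ![0, 1, 0, 1, 0, 2, 0, 0, 1, 0]
      (by decide) ⟨Nat.zero_le _, a1, Nat.zero_le _, a3, Nat.zero_le _, a5, Nat.zero_le _, Nat.zero_le _, a8, Nat.zero_le _⟩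
  · intro a1 a3 a4 a5 a9
    exact key ⟨![2, 3, 1, 4, 0], ![4, 2, 0, 1, 3], by decide, by decide⟩ ![0, 1, 0, 1, 1, 1, 0, 0, 0, 1]
      (by decide) ⟨Nat.zero_le _, a1, Nat.zero_le _, a3, a4, a5, Nat.zero_le _, Nat.zero_le _, Nat.zero_le _, a9⟩
  · intro a1 a2 a6 a7
    exact key ⟨![2, 4, 3, 0, 1], ![3, 4, 0, 2, 1], by decide, by decide⟩ ![0, 1, 1, 0, 0, 0, 2, 1, 0, 0]
      (by decide) ⟨Nat.zero_le _, a1, a2, Nat.zero_le _, Nat.zero_le _, Nat.zero_le _, a6, a7, Nat.zero_le _, Nat.zero_le _⟩
  · intro a1 a2 a5 a6 a8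
    exact key ⟨![2, 3, 4, 0, 1], ![3, 4, 0, 1, 2], by decide, by decide⟩ ![0, 1, 1, 0, 0, 1, 1, 0, 1, 0]
      (by decide) ⟨Nat.zero_le _, a1, a2, Nat.zero_le _, Nat.zero_le _, a5, a6, Nat.zero_le _, a8, Nat.zero_le _⟩
  · intro a1 a2 a4 a6 a9
    exact key ⟨![2, 4, 1, 0, 3], ![3, 2, 0, 4, 1], by decide, by decide⟩ ![0, 1, 1, 0, 1, 0, 1, 0, 0, 1]
      (by decide) ⟨Nat.zero_le _, a1, a2, Nat.zero_le _, a4, Nat.zero_le _, a6, Nat.zero_le _, Nat.zero_le _, a9⟩
  · intro a1 a5 a6 a9
    exact key ⟨![2, 3, 0, 4, 1], ![2, 4, 0, 1, 3], by decide, by decide⟩ ![0, 2, 0, 0, 0, 1, 1, 0, 0, 1]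
      (by decide) ⟨Nat.zero_le _, a1, Nat.zero_le _, Nat.zero_le _, Nat.zero_le _, a5, a6, Nat.zero_le _, Nat.zero_le _, a9⟩
  · intro a0 a3 a6 a7
    exact key ⟨![1, 4, 3, 2, 0], ![4, 0, 3, 2, 1], by decide, by decide⟩ ![1, 0, 0, 1, 0, 0, 1, 2, 0, 0]
      (by decide) ⟨a0, Nat.zero_le _, Nat.zero_le _, a3, Nat.zero_le _, Nat.zero_le _, a6, a7, Nat.zero_le _, Nat.zero_le _⟩
  · intro a0 a3 a5 a7 a8
    exact key ⟨![1, 3, 4, 2, 0], ![4, 0, 3, 1, 2], by decide, by decide⟩ ![1, 0, 0, 1, 0, 1, 0, 1, 1, 0]
      (by decide) ⟨a0, Nat.zero_le _, Nat.zero_le _, a3, Nat.zero_le _, a5, Nat.zero_le _, a7, a8, Nat.zero_le _⟩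
  · intro a0 a3 a4 a7 a9
    exact key ⟨![1, 2, 3, 4, 0], ![4, 0, 1, 2, 3], by decide, by decide⟩ ![1, 0, 0, 1, 1, 0, 0, 1, 0, 1]
      (by decide) ⟨a0, Nat.zero_le _, Nat.zero_le _, a3, a4, Nat.zero_le _, Nat.zero_le _, a7, Nat.zero_le _, a9⟩
  · intro a0 a2 a6 a7 a8
    exact key ⟨![1, 4, 3, 0, 2], ![3, 0, 4, 2, 1], by decide, by decide⟩ ![1, 0, 1, 0, 0, 0, 1, 1, 1, 0]
      (by decide) ⟨a0, Nat.zero_le _, a2, Nat.zero_le _, Nat.zero_le _, Nat.zero_le _, a6, a7, a8, Nat.zero_le _⟩
  · intro a0 a2 a5 a8
    exact key ⟨![1, 3, 4, 0, 2], ![3, 0, 4, 1, 2], by decide, by decide⟩ ![1, 0, 1, 0, 0, 1, 0, 0, 2, 0]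
      (by decide) ⟨a0, Nat.zero_le _, a2, Nat.zero_le _, Nat.zero_le _, a5, Nat.zero_le _, Nat.zero_le _, a8, Nat.zero_le _⟩
  · intro a0 a2 a4 a8 a9
    exact key ⟨![1, 2, 4, 0, 3], ![3, 0, 1, 4, 2], by decide, by decide⟩ ![1, 0, 1, 0, 1, 0, 0, 0, 1, 1]
      (by decide) ⟨a0, Nat.zero_le _, a2, Nat.zero_le _, a4, Nat.zero_le _, Nat.zero_le _, Nat.zero_le _, a8, a9⟩
  · intro a0 a1 a6 a7 a9
    exact key ⟨![1, 4, 0, 2, 3], ![2, 0, 3, 4, 1], by decide, by decide⟩ ![1, 1, 0, 0, 0, 0, 1, 1, 0, 1]
      (by decide) ⟨a0, a1, Nat.zero_le _, Nat.zero_le _, Nat.zero_le _, Nat.zero_le _, a6, a7, Nat.zero_le _, a9⟩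
  · intro a0 a1 a5 a8 a9
    exact key ⟨![1, 3, 0, 4, 2], ![2, 0, 4, 1, 3], by decide, by decide⟩ ![1, 1, 0, 0, 0, 1, 0, 0, 1, 1]
      (by decide) ⟨a0, a1, Nat.zero_le _, Nat.zero_le _, Nat.zero_le _, a5, Nat.zero_le _, Nat.zero_le _, a8, a9⟩
  · intro a0 a1 a4 a9
    exact key ⟨![1, 2, 0, 4, 3], ![2, 0, 1, 4, 3], by decide, by decide⟩ ![1, 1, 0, 0, 1, 0, 0, 0, 0, 2]
      (by decide) ⟨a0, a1, Nat.zero_le _, Nat.zero_le _, a4, Nat.zero_le _, Nat.zero_le _, Nat.zero_le _, Nat.zero_le _, a9⟩
  · intro a0 a7 a8 a9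
    exact key ⟨![1, 0, 3, 4, 2], ![1, 0, 4, 2, 3], by decide, by decide⟩ ![2, 0, 0, 0, 0, 0, 0, 1, 1, 1]
      (by decide) ⟨a0, Nat.zero_le _, Nat.zero_le _, Nat.zero_le _, Nat.zero_le _, Nat.zero_le _, Nat.zero_le _, a7, a8, a9⟩

end Pool.Agent.Lib.MP_cf0da3_ag
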