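import Pool.Agent.Lib.MP_cf0da3_ag.Basic
import Pool.Agent.Lib.MP_cf0da3_ag.CfgBasicA

/-! Monomials, Petersen's theorem for five vertices, straightening. -/

namespace Pool.Agent.Lib.MP_cf0da3_ag

open Module Filter

theorem Reg.le {m : ℕ} {c : Fin 10 → ℕ} (h : Reg m c) (e : Fin 10) : c e ≤ 2 * m := by
  obtain ⟨h0, h1, h2, h3, h4⟩ := h
  have key : c 0 ≤ 2 * m ∧ c 1 ≤ 2 * m ∧ c 2 ≤ 2 * m ∧ c 3 ≤ 2 * m ∧ c 4 ≤ 2 * m ∧ c 5 ≤ 2 * m ∧
    c 6 ≤ 2 * m ∧ c 7 ≤ 2 * m ∧ c 8 ≤ 2 * m ∧ c 9 ≤ 2 * m := by omega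
  obtain ⟨a0, a1, a2, a3, a4, a5, a6, a7, a8, a9⟩ := key
  fin_cases e
  exacts [a0, a1, a2, a3, a4, a5, a6, a7, a8, a9]

theorem finite_Reg (m : ℕ) : {c : Fin 10 → ℕ | Reg m c}.Finite := by
  refine (Set.Finite.pi' (fun _ : Fin 10 => Set.finite_Iic (2 * m))).subset ?_
  intro c hc e
  exact Reg.le hc e

theorem Reg.add {m m' : ℕ} {c c' : Fin 10 → ℕ} (h : Reg m c) (h' : Reg m' c') :
    Reg (m + m') (c + c') := by
  obtain ⟨h0, h1, h2, h3, h4⟩ := h
  obtain ⟨g0, g1, g2, g3, g4⟩ := h'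
  simp only [Reg, Pi.add_apply]
  omega

theorem Reg.eq_zero {c : Fin 10 → ℕ} (h : Reg 0 c) : c = 0 := by
  funext e
  have := h.le e
  simp only [Pi.zero_apply]
  omega

theorem reg_zero : Reg 0 0 := by simp [Reg]

theorem reg_cperm_aux : ∀ σ : Equiv.Perm (Fin 5), (∀ i, σ i ≠ i) → Reg 1 (cperm σ) := by
  unfold Reg
  decide +kernel

theorem reg_cperm {σ : Equiv.Perm (Fin 5)} (hσ : ∀ i, σ i ≠ i) : Reg 1 (cperm σ) :=
  reg_cperm_aux σ hσ

/-- Petersen's two-factor theorem for multigraphs on five vertices. -/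
theorem petersen {m : ℕ} {c : Fin 10 → ℕ} (h : Reg (m + 1) c) :
    ∃ (σ : Equiv.Perm (Fin 5)) (c' : Fin 10 → ℕ), (∀ i, σ i ≠ i) ∧ Reg m c' ∧
      c = c' + cperm σ := by
  obtain ⟨σ, hσ, hle⟩ := exists_le_cperm h
  refine ⟨σ, fun e => c e - cperm σ e, hσ, ?_, ?_⟩
  · obtain ⟨h0, h1, h2, h3, h4⟩ := h
    obtain ⟨g0, g1, g2, g3, g4⟩ := reg_cperm hσ
    have a0 := hle 0
    have a1 := hle 1
    have a2 := hle 2
    have a3 := hle 3
    have a4 := hle 4
    have a5 := hle 5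
    have a6 := hle 6
    have a7 := hle 7
    have a8 := hle 8
    have a9 := hle 9
    simp only [Reg]
    omega
  · funext e
    have := hle e
    simp only [Pi.add_apply]
    omega

/-- The edge with given end points. -/
def edg : Fin 5 → Fin 5 → Fin 10 :=
  ![![0, 0, 1, 2, 3], ![0, 0, 4, 5, 6], ![1, 4, 0, 7, 8], ![2, 5, 7, 0, 9], ![3, 6, 8, 9, 0]]

theorem edg_spec : ∀ i j : Fin 5, i ≠ j →
    (src (edg i j) = i ∧ tgt (edg i j) = j) ∨ (src (edg i j) = j ∧ tgt (edg i j) = i) := by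
  decide

theorem sum_edg : ∀ σ : Equiv.Perm (Fin 5), (∀ i, σ i ≠ i) → ∀ e,
    (∑ i, if edg i (σ i) = e then 1 else 0) = cperm σ e := by
  decide +kernel

theorem src_ne_tgt : ∀ e, src e ≠ tgt e := by decide

/-- The coordinate of a derangement is, up to a universal sign, a monomial. -/
theorem exists_sign {σ : Equiv.Perm (Fin 5)} (hσ : ∀ i, σ i ≠ i) :
    ∃ ε : ℤ, (ε = 1 ∨ ε = -1) ∧ ∀ (K : Type) [Field K] (C : Cfg K),
      C.xs σ = (ε : K) * C.zmon (cperm σ) := by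
  have h1 : ∀ i, ∃ s : ℤ, IsUnit s ∧ ∀ (K : Type) [Field K] (C : Cfg K),
      C.z i (σ i) = (s : K) * C.z (src (edg i (σ i))) (tgt (edg i (σ i))) := by
    intro i
    rcases edg_spec i (σ i) (hσ i).symm with ⟨a, b⟩ | ⟨a, b⟩
    · exact ⟨1, isUnit_one, fun K _ C => by rw [a, b]; simp⟩
    · exact ⟨-1, isUnit_one.neg, fun K _ C => by rw [a, b, C.anti (σ i) i]; simp⟩
  choose s hs hz using h1
  refine ⟨∏ i, s i, Int.isUnit_iff.mp (IsUnit.prod_univ_iff.mpr hs), fun K _ C => ?_⟩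
  unfold Cfg.xs Cfg.zmon
  simp only [hz _ K C]
  rw [Finset.prod_mul_distrib, Int.cast_prod]
  congr 1
  simp only [← sum_edg σ hσ, ← Finset.prod_pow_eq_pow_sum]
  rw [Finset.prod_comm]
  apply Finset.prod_congr rfl
  intro i _
  simp only [pow_ite, pow_one, pow_zero]
  rw [Finset.prod_ite_eq]
  simp

namespace Cfg

variable {K : Type} [Field K] (C : Cfg K)

theorem z_self (i : Fin 5) : C.z i i = 0 := by
  have h := C.pow7 i i
  rw [sub_self] at h
  exact pow_eq_zero_iff (by norm_num) |>.mp h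

theorem xs_eq_zero {σ : Equiv.Perm (Fin 5)} (hσ : ¬ ∀ i, σ i ≠ i) : C.xs σ = 0 := by
  push Not at hσ
  obtain ⟨i, hi⟩ := hσ
  exact Finset.prod_eq_zero (Finset.mem_univ i) (by rw [hi, C.z_self])

theorem zmon_add (c c' : Fin 10 → ℕ) : C.zmon (c + c') = C.zmon c * C.zmon c' := by
  simp only [zmon, Pi.add_apply, pow_add, Finset.prod_mul_distrib]

theorem zmon_zero : C.zmon 0 = 1 := by simp [zmon]

theorem zmon_ne_zero (c : Fin 10 → ℕ) : C.zmon c ≠ 0 :=
  Finset.prod_ne_zero_iff.mpr fun e _ => pow_ne_zero _ (C.ne _ _ (src_ne_tgt e))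

theorem zmon_single (e : Fin 10) (n : ℕ) :
    C.zmon (Pi.single e n) = C.z (src e) (tgt e) ^ n := by
  unfold zmon
  rw [Finset.prod_eq_single e]
  · simp
  · intro b _ hb
    simp [Pi.single_eq_of_ne hb]
  · simp

/-- Pluecker relation. -/
theorem plucker (i j l m : Fin 5) :
    C.z i j ^ 7 * C.z l m ^ 7 - C.z i l ^ 7 * C.z j m ^ 7 + C.z i m ^ 7 * C.z j l ^ 7 = 0 := by
  simp only [C.pow7]; ring

end Cfg

/-- The statement of straightening for one monomial. -/
def Strt (m : ℕ) (c : Fin 10 → ℕ) : Prop :=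
  ∃ n : (Fin 10 → ℕ) →₀ ℤ, (∀ c' ∈ n.support, Reg m c' ∧ Std c') ∧
    ∀ (K : Type) [Field K] (C : Cfg K),
      C.zmon c = n.sum fun c' a => (a : K) * C.zmon c'

theorem Strt.sub {m : ℕ} {c c1 c2 : Fin 10 → ℕ} (h1 : Strt m c1) (h2 : Strt m c2)
    (h : ∀ (K : Type) [Field K] (C : Cfg K), C.zmon c = C.zmon c1 - C.zmon c2) : Strt m c := by
  classical
  obtain ⟨n1, a1, b1⟩ := h1
  obtain ⟨n2, a2, b2⟩ := h2
  refine ⟨n1 - n2, fun c' hc' => ?_, fun K _ C => ?_⟩
  · rcases Finset.mem_union.mp (Finsupp.support_sub hc') with h | h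
    · exact a1 c' h
    · exact a2 c' h
  · rw [h, b1, b2, Finsupp.sum_sub_index]
    intro a x y
    push_cast
    ring

theorem exists_split {c : Fin 10 → ℕ} {e f : Fin 10} (hef : e ≠ f) (he : 7 ≤ c e) (hf : 7 ≤ c f) :
    ∃ d : Fin 10 → ℕ, c = d + Pi.single e 7 + Pi.single f 7 := by
  refine ⟨c - Pi.single e 7 - Pi.single f 7, funext fun x => ?_⟩
  simp only [Pi.add_apply, Pi.sub_apply, Pi.single_apply]
  split_ifs with h1 h2 h2
  · exact absurd (h1.symm.trans h2) hef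
  · subst h1; omega
  · subst h2; omega
  · omega

/-- The measure that decreases under straightening. -/
def msr (c : Fin 10 → ℕ) : ℕ :=
  c 0 + 4 * c 1 + 9 * c 2 + 16 * c 3 + c 4 + 4 * c 5 + 9 * c 6 + c 7 + 4 * c 8 + c 9

theorem strt_step {m : ℕ} (d : Fin 10 → ℕ) (e f g h g' h' : Fin 10)
    (hp : ∀ (K : Type) [Field K] (C : Cfg K),
      C.z (src g') (tgt g') ^ 7 * C.z (src h') (tgt h') ^ 7 -
        C.z (src g) (tgt g) ^ 7 * C.z (src h) (tgt h) ^ 7 +
        C.z (src e) (tgt e) ^ 7 * C.z (src f) (tgt f) ^ 7 = 0)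
    (h1 : Strt m (d + Pi.single g 7 + Pi.single h 7))
    (h2 : Strt m (d + Pi.single g' 7 + Pi.single h' 7)) :
    Strt m (d + Pi.single e 7 + Pi.single f 7) := by
  refine h1.sub h2 fun K _ C => ?_
  simp only [C.zmon_add, C.zmon_single]
  linear_combination C.zmon d * hp K C

theorem strt_aux (m N : ℕ) : ∀ c : Fin 10 → ℕ, msr c < N → Reg m c → Strt m c := by
  induction N with
  | zero => intro c h; omega
  | succ N ih =>
    intro c hN h
    by_cases hs : Std c
    · refine ⟨Finsupp.single c 1, fun c' hc' => ?_, fun K _ C => ?_⟩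
      · have := Finsupp.support_single_subset hc'
        rw [Finset.mem_singleton] at this
        rw [this]
        exact ⟨h, hs⟩
      · rw [Finsupp.sum_single_index] <;> simp
    · have hc : (7 ≤ c 2 ∧ 7 ≤ c 4) ∨ (7 ≤ c 3 ∧ 7 ≤ c 4) ∨ (7 ≤ c 3 ∧ 7 ≤ c 5) ∨
          (7 ≤ c 3 ∧ 7 ≤ c 7) ∨ (7 ≤ c 6 ∧ 7 ≤ c 7) := by
        unfold Std at hs
        omega
      rcases hc with ⟨a, b⟩ | ⟨a, b⟩ | ⟨a, b⟩ | ⟨a, b⟩ | ⟨a, b⟩
      · obtain ⟨d, rfl⟩ := exists_split (by decide) a b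
        simp [Reg, msr] at h hN
        refine strt_step d 2 4 1 5 0 7 (fun K _ C => C.plucker 0 1 2 3) (ih _ ?_ ?_) (ih _ ?_ ?_) <;>
          simp [Reg, msr] <;> omega
      · obtain ⟨d, rfl⟩ := exists_split (by decide) a b
        simp [Reg, msr] at h hN
        refine strt_step d 3 4 1 6 0 8 (fun K _ C => C.plucker 0 1 2 4) (ih _ ?_ ?_) (ih _ ?_ ?_) <;>
          simp [Reg, msr] <;> omega
      · obtain ⟨d, rfl⟩ := exists_split (by decide) a b
        simp [Reg, msr] at h hN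
        refine strt_step d 3 5 2 6 0 9 (fun K _ C => C.plucker 0 1 3 4) (ih _ ?_ ?_) (ih _ ?_ ?_) <;>
          simp [Reg, msr] <;> omega
      · obtain ⟨d, rfl⟩ := exists_split (by decide) a b
        simp [Reg, msr] at h hN
        refine strt_step d 3 7 2 8 1 9 (fun K _ C => C.plucker 0 2 3 4) (ih _ ?_ ?_) (ih _ ?_ ?_) <;>
          simp [Reg, msr] <;> omega
      · obtain ⟨d, rfl⟩ := exists_split (by decide) a b
        simp [Reg, msr] at h hN
        refine strt_step d 6 7 5 8 4 9 (fun K _ C => C.plucker 1 2 3 4) (ih _ ?_ ?_) (ih _ ?_ ?_) <;>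
          simp [Reg, msr] <;> omega

/-- Straightening with universal integer coefficients. -/
theorem straighten {m : ℕ} {c : Fin 10 → ℕ} (h : Reg m c) :
    ∃ n : (Fin 10 → ℕ) →₀ ℤ, (∀ c' ∈ n.support, Reg m c' ∧ Std c') ∧
      ∀ (K : Type) [Field K] (C : Cfg K),
        C.zmon c = n.sum fun c' a => (a : K) * C.zmon c' :=
  strt_aux m (msr c + 1) c (Nat.lt_succ_self _) h

theorem exists_poly (m : ℕ) : ∀ c : Fin 10 → ℕ, Reg m c →
    ∃ g : MvPolynomial (Fin (119 + 1)) ℤ, g.IsHomogeneous m ∧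
      ∀ (K : Type) [Field K] (C : Cfg K), MvPolynomial.aeval C.xn g = C.zmon c := by
  induction m with
  | zero =>
    intro c h
    refine ⟨1, MvPolynomial.isHomogeneous_one _ _, fun K _ C => ?_⟩
    rw [h.eq_zero, C.zmon_zero, map_one]
  | succ m ih =>
    intro c h
    obtain ⟨σ, c', hσ, hc', rfl⟩ := petersen h
    obtain ⟨g, hg, hg2⟩ := ih c' hc'
    obtain ⟨ε, hε, hs⟩ := exists_sign hσ
    refine ⟨g * (MvPolynomial.C ε * MvPolynomial.X (eqv.symm σ)),
      hg.mul (MvPolynomial.isHomogeneous_C_mul_X _ _), fun K _ C => ?_⟩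
    rw [map_mul, map_mul, hg2, MvPolynomial.aeval_C, MvPolynomial.aeval_X, Cfg.xn,
      Equiv.apply_symm_apply, hs, C.zmon_add]
    rcases hε with rfl | rfl <;> simp

theorem exists_coord (j : Fin (119 + 1)) : ∃ (ε : ℤ) (c : Fin 10 → ℕ), Reg 1 c ∧
    ∀ (K : Type) [Field K] (C : Cfg K), C.xn j = (ε : K) * C.zmon c := by
  by_cases hσ : ∀ i, eqv j i ≠ i
  · obtain ⟨ε, -, hs⟩ := exists_sign hσ
    exact ⟨ε, _, reg_cperm hσ, fun K _ C => hs K C⟩
  · refine ⟨0, ![2, 0, 0, 0, 0, 0, 0, 1, 1, 1], by unfold Reg; decide, fun K _ C => ?_⟩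
    rw [Cfg.xn, C.xs_eq_zero hσ]
    simp

theorem exists_monomial (μ : Fin (119 + 1) →₀ ℕ) : ∃ (ε : ℤ) (c : Fin 10 → ℕ), Reg μ.degree c ∧
    ∀ (K : Type) [Field K] (C : Cfg K),
      MvPolynomial.aeval C.xn (MvPolynomial.monomial μ (1 : ℤ)) = (ε : K) * C.zmon c := by
  induction μ using Finsupp.induction_linear with
  | zero => exact ⟨1, 0, by simpa using reg_zero, fun K _ C => by simp [C.zmon_zero]⟩
  | add f g hf hg =>
    obtain ⟨ε1, c1, a1, b1⟩ := hf
    obtain ⟨ε2, c2, a2, b2⟩ := hg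
    refine ⟨ε1 * ε2, c1 + c2, by rw [map_add]; exact a1.add a2, fun K _ C => ?_⟩
    rw [← mul_one (1 : ℤ), ← MvPolynomial.monomial_mul, map_mul, b1, b2, C.zmon_add]
    push_cast
    ring
  | single j n =>
    rw [Finsupp.degree_single]
    induction n with
    | zero => exact ⟨1, 0, reg_zero, fun K _ C => by simp [C.zmon_zero]⟩
    | succ n ih =>
      obtain ⟨ε1, c1, a1, b1⟩ := ih
      obtain ⟨ε2, c2, a2, b2⟩ := exists_coord j
      refine ⟨ε1 * ε2, c1 + c2, a1.add a2, fun K _ C => ?_⟩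
      have h1 := b1 K C
      rw [← MvPolynomial.X_pow_eq_monomial, map_pow, MvPolynomial.aeval_X] at h1 ⊢
      rw [pow_succ, h1, b2, C.zmon_add]
      push_cast
      ring

namespace Cfg

variable {K : Type} [Field K] (C : Cfg K)

variable (k : Type) [Field k] [Algebra k K]

theorem Wc_pow_eq_span (c : K) (m : ℕ) :
    C.Wc k c ^ m = Submodule.span k {x | ∃ e, Reg m e ∧ x = c ^ m * C.zmon e} := by
  induction m with
  | zero =>
    rw [pow_zero, Submodule.one_eq_span]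
    congr 1
    ext x
    constructor
    · rintro rfl
      exact ⟨0, reg_zero, by simp [C.zmon_zero]⟩
    · rintro ⟨e, he, rfl⟩
      simp [he.eq_zero, C.zmon_zero]
  | succ m ih =>
    rw [pow_succ, ih, Wc, Submodule.span_mul_span]
    apply le_antisymm
    · rw [Submodule.span_le]
      rintro _ ⟨_, ⟨e, he, rfl⟩, _, ⟨σ, rfl⟩, rfl⟩
      by_cases hσ : ∀ i, σ i ≠ i
      · obtain ⟨ε, -, hs⟩ := exists_sign hσ
        have h1 : c ^ m * C.zmon e * (c * C.xs σ) = ε • (c ^ (m + 1) * C.zmon (e + cperm σ)) := by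
          rw [hs, C.zmon_add, zsmul_eq_mul]
          ring
        change c ^ m * C.zmon e * (c * C.xs σ) ∈ _
        rw [h1]
        exact Submodule.smul_of_tower_mem _ ε
          (Submodule.subset_span ⟨_, he.add (reg_cperm hσ), rfl⟩)
      · change c ^ m * C.zmon e * (c * C.xs σ) ∈ _
        rw [C.xs_eq_zero hσ, mul_zero, mul_zero]
        exact Submodule.zero_mem _
    · rw [Submodule.span_le]
      rintro _ ⟨e, he, rfl⟩
      obtain ⟨σ, e', hσ, he', rfl⟩ := petersen he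
      obtain ⟨ε, hε, hs⟩ := exists_sign hσ
      have h1 : c ^ (m + 1) * C.zmon (e' + cperm σ) = ε • (c ^ m * C.zmon e' * (c * C.xs σ)) := by
        rw [hs, C.zmon_add, zsmul_eq_mul]
        rcases hε with rfl | rfl <;> push_cast <;> ring
      rw [h1]
      exact Submodule.smul_of_tower_mem _ ε
        (Submodule.subset_span ⟨_, ⟨e', he', rfl⟩, _, ⟨σ, rfl⟩, rfl⟩)

theorem Wc_pow_eq_span_std (c : K) (m : ℕ) :
    C.Wc k c ^ m = Submodule.span k {x | ∃ e, Reg m e ∧ Std e ∧ x = c ^ m * C.zmon e} := by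
  rw [Wc_pow_eq_span]
  apply le_antisymm
  · rw [Submodule.span_le]
    rintro _ ⟨e, he, rfl⟩
    obtain ⟨n, hn, hz⟩ := straighten he
    rw [hz K C, Finsupp.sum, Finset.mul_sum]
    refine Submodule.sum_mem _ fun e' he' => ?_
    have h1 : c ^ m * ((n e' : K) * C.zmon e') = n e' • (c ^ m * C.zmon e') := by
      rw [zsmul_eq_mul]
      ring
    rw [h1]
    exact Submodule.smul_of_tower_mem _ _
      (Submodule.subset_span ⟨e', (hn e' he').1, (hn e' he').2, rfl⟩)
  · apply Submodule.span_mono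
    rintro _ ⟨e, h1, -, h2⟩
    exact ⟨e, h1, h2⟩

theorem finrank_Wc_pow (h : C.Indep k) {c : K} (hc : c ≠ 0) (m : ℕ) :
    finrank k (C.Wc k c ^ m : Submodule k K) =
      Nat.card {e : Fin 10 → ℕ // Reg m e ∧ Std e} := by
  have hfin : Finite {e : Fin 10 → ℕ // Reg m e ∧ Std e} :=
    ((finite_Reg m).subset fun e (he : Reg m e ∧ Std e) => he.1).to_subtype
  have := Fintype.ofFinite {e : Fin 10 → ℕ // Reg m e ∧ Std e}
  have hli := (h m).map' (LinearMap.mulLeft k (c ^ m))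
    (LinearMap.ker_eq_bot.mpr (mul_right_injective₀ (pow_ne_zero m hc)))
  rw [Nat.card_eq_fintype_card, ← finrank_span_eq_card hli, Wc_pow_eq_span_std]
  have hset : {x | ∃ e, Reg m e ∧ Std e ∧ x = c ^ m * C.zmon e} =
      Set.range (⇑(LinearMap.mulLeft k (c ^ m)) ∘
        fun e : {e : Fin 10 → ℕ // Reg m e ∧ Std e} => C.zmon e.1) := by
    ext x
    constructor
    · rintro ⟨e, h1, h2, rfl⟩
      exact ⟨⟨e, h1, h2⟩, rfl⟩
    · rintro ⟨⟨e, h1, h2⟩, rfl⟩
      exact ⟨e, h1, h2, rfl⟩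
  rw [hset]

/-- The homogeneous relations between the coordinates are generated by the integral ones. -/
theorem mem_span_RelZ (h : C.Indep k) {m : ℕ} {f : MvPolynomial (Fin (119 + 1)) k}
    (hf : f.IsHomogeneous m) (h0 : MvPolynomial.aeval C.xn f = 0) :
    f ∈ Submodule.span k (MvPolynomial.map (Int.castRingHom k) '' RelZ) := by
  classical
  have hG : ∀ c : Fin 10 → ℕ, ∃ g : MvPolynomial (Fin (119 + 1)) ℤ, Reg m c →
      g.IsHomogeneous m ∧
        ∀ (K : Type) [Field K] (C : Cfg K), MvPolynomial.aeval C.xn g = C.zmon c := by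
    intro c
    by_cases hc : Reg m c
    · obtain ⟨g, hg⟩ := exists_poly m c hc
      exact ⟨g, fun _ => hg⟩
    · exact ⟨0, fun h => absurd h hc⟩
  choose G hG using hG
  set S : Set (Fin 10 → ℕ) := {e | Reg m e ∧ Std e} with hS
  set Φ := Finsupp.linearCombination k fun c => MvPolynomial.map (Int.castRingHom k) (G c) with hΦ
  set Ψ := Finsupp.linearCombination k C.zmon with hΨ
  set I := Submodule.span k (MvPolynomial.map (σ := Fin (119 + 1)) (Int.castRingHom k) '' RelZ)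
    with hI
  have hmono : ∀ μ : Fin (119 + 1) →₀ ℕ, μ.degree = m → ∃ t ∈ Finsupp.supported k k S,
      MvPolynomial.monomial μ (1 : k) - Φ t ∈ I ∧
        MvPolynomial.aeval C.xn (MvPolynomial.monomial μ (1 : k)) = Ψ t := by
    intro μ hμ
    obtain ⟨ε, c, hc, hv⟩ := exists_monomial μ
    rw [hμ] at hc
    obtain ⟨n, hn, hz⟩ := straighten hc
    refine ⟨∑ e ∈ n.support, Finsupp.single e ((ε * n e : ℤ) : k), ?_, ?_, ?_⟩
    · exact Submodule.sum_mem _ fun e he => Finsupp.single_mem_supported k _ (hn e he)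
    · refine Submodule.subset_span ⟨MvPolynomial.monomial μ 1 -
        ∑ e ∈ n.support, MvPolynomial.C (ε * n e) * G e, ⟨m, ?_, fun K _ C => ?_⟩, ?_⟩
      · refine (MvPolynomial.isHomogeneous_monomial _ hμ).sub ?_
        exact MvPolynomial.IsHomogeneous.sum _ _ _ fun e he => (hG e (hn e he).1).1.C_mul _
      · rw [map_sub, hv, hz K C, map_sum, Finsupp.sum, Finset.mul_sum, sub_eq_zero]
        refine Finset.sum_congr rfl fun e he => ?_
        rw [map_mul, (hG e (hn e he).1).2, MvPolynomial.aeval_C, algebraMap_int_eq, eq_intCast]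
        push_cast
        ring
      · rw [map_sub, MvPolynomial.map_monomial, map_one, map_sum, map_sum]
        congr 1
        refine Finset.sum_congr rfl fun e _ => ?_
        rw [hΦ, Finsupp.linearCombination_single, map_mul, MvPolynomial.map_C,
          MvPolynomial.smul_eq_C_mul]
        rfl
    · have h1 : MvPolynomial.aeval C.xn (MvPolynomial.monomial μ (1 : k)) =
          MvPolynomial.aeval C.xn (MvPolynomial.monomial μ (1 : ℤ)) := by
        rw [MvPolynomial.aeval_monomial, MvPolynomial.aeval_monomial, map_one, map_one]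
      rw [h1, hv, hz K C, map_sum, Finsupp.sum, Finset.mul_sum]
      refine Finset.sum_congr rfl fun e _ => ?_
      rw [hΨ, Finsupp.linearCombination_single, Int.cast_smul_eq_zsmul, zsmul_eq_mul]
      push_cast
      ring
  have hall : ∀ μ : Fin (119 + 1) →₀ ℕ, ∃ t, μ ∈ f.support → t ∈ Finsupp.supported k k S ∧
      MvPolynomial.monomial μ (1 : k) - Φ t ∈ I ∧
        MvPolynomial.aeval C.xn (MvPolynomial.monomial μ (1 : k)) = Ψ t := by
    intro μ
    by_cases hμ : μ ∈ f.support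
    · have hd : μ.degree = m := by
        by_contra hne
        exact MvPolynomial.mem_support_iff.mp hμ (hf.coeff_eq_zero hne)
      obtain ⟨t, ht⟩ := hmono μ hd
      exact ⟨t, fun _ => ht⟩
    · exact ⟨0, fun h => absurd h hμ⟩
  choose t ht using hall
  have hfs : f = ∑ μ ∈ f.support, MvPolynomial.coeff μ f • MvPolynomial.monomial μ (1 : k) := by
    conv_lhs => rw [f.as_sum]
    refine Finset.sum_congr rfl fun μ _ => ?_
    rw [MvPolynomial.smul_monomial, smul_eq_mul, mul_one]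
  set T := ∑ μ ∈ f.support, MvPolynomial.coeff μ f • t μ with hT
  have hT1 : T ∈ Finsupp.supported k k S :=
    Submodule.sum_mem _ fun μ hμ => Submodule.smul_mem _ _ (ht μ hμ).1
  have hT2 : Ψ T = 0 := by
    rw [← h0, hT, map_sum]
    conv_rhs => rw [hfs, map_sum]
    refine Finset.sum_congr rfl fun μ hμ => ?_
    rw [map_smul, map_smul, (ht μ hμ).2.2]
  have hT0 : T = 0 := (linearIndepOn_iff.mp (h m)) T hT1 hT2
  have hT3 : f - Φ T ∈ I := by
    rw [hT, map_sum]
    conv => arg 2; arg 1; rw [hfs]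
    rw [← Finset.sum_sub_distrib]
    refine Submodule.sum_mem _ fun μ hμ => ?_
    rw [map_smul, ← smul_sub]
    exact Submodule.smul_mem _ _ (ht μ hμ).2.1
  rwa [hT0, map_zero, sub_zero] at hT3

end Cfg

end Pool.Agent.Lib.MP_cf0da3_ag
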