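import Pool.Agent.Lib.MP_cf0da3_ag.Defs

/-! Kummer independence and leading terms. -/

namespace Pool.Agent.Lib.MP_cf0da3_ag

open Polynomial

theorem std_ext_aux0 (s t u b2 b3 b4 b5 b6 b7 : ℤ) (h2 : 0 ≤ b2) (h3 : 0 ≤ b3) (h4 : 0 ≤ b4)
    (h5 : 0 ≤ b5) (h6 : 0 ≤ b6) (h7 : 0 ≤ b7) (g2 : 0 ≤ b2 - 7 * (t + u))
    (g3 : 0 ≤ b3 + 7 * (s + t + u)) (g4 : 0 ≤ b4 + 7 * s) (g5 : 0 ≤ b5 + 7 * u)
    (g6 : 0 ≤ b6 - 7 * (s + u)) (g7 : 0 ≤ b7 + 7 * t)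
    (sb : (b2 < 7 ∨ b4 < 7) ∧ (b3 < 7 ∨ b4 < 7) ∧ (b3 < 7 ∨ b5 < 7) ∧ (b3 < 7 ∨ b7 < 7) ∧
      (b6 < 7 ∨ b7 < 7))
    (sa : (b2 - 7 * (t + u) < 7 ∨ b4 + 7 * s < 7) ∧ (b3 + 7 * (s + t + u) < 7 ∨ b4 + 7 * s < 7) ∧
      (b3 + 7 * (s + t + u) < 7 ∨ b5 + 7 * u < 7) ∧ (b3 + 7 * (s + t + u) < 7 ∨ b7 + 7 * t < 7) ∧
      (b6 - 7 * (s + u) < 7 ∨ b7 + 7 * t < 7)) : s = 0 ∧ t = 0 ∧ u = 0 := by
  omega

theorem std_ext_aux (m a0 a1 a2 a3 a4 a5 a6 a7 a8 a9 b0 b1 b2 b3 b4 b5 b6 b7 b8 b9 : ℕ)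
    (ha : a0 + a1 + a2 + a3 = 2 * m ∧ a0 + a4 + a5 + a6 = 2 * m ∧
      a1 + a4 + a7 + a8 = 2 * m ∧ a2 + a5 + a7 + a9 = 2 * m ∧ a3 + a6 + a8 + a9 = 2 * m)
    (hb : b0 + b1 + b2 + b3 = 2 * m ∧ b0 + b4 + b5 + b6 = 2 * m ∧
      b1 + b4 + b7 + b8 = 2 * m ∧ b2 + b5 + b7 + b9 = 2 * m ∧ b3 + b6 + b8 + b9 = 2 * m)
    (sa : (a2 < 7 ∨ a4 < 7) ∧ (a3 < 7 ∨ a4 < 7) ∧ (a3 < 7 ∨ a5 < 7) ∧ (a3 < 7 ∨ a7 < 7) ∧
      (a6 < 7 ∨ a7 < 7))
    (sb : (b2 < 7 ∨ b4 < 7) ∧ (b3 < 7 ∨ b4 < 7) ∧ (b3 < 7 ∨ b5 < 7) ∧ (b3 < 7 ∨ b7 < 7) ∧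
      (b6 < 7 ∨ b7 < 7))
    (r1 : a1 % 7 = b1 % 7) (r2 : a2 % 7 = b2 % 7) (r4 : a4 % 7 = b4 % 7) (r5 : a5 % 7 = b5 % 7)
    (r7 : a7 % 7 = b7 % 7) (d1 : a2 / 7 + a5 / 7 + a7 / 7 = b2 / 7 + b5 / 7 + b7 / 7)
    (d2 : a1 / 7 + a4 / 7 = b1 / 7 + b4 / 7) :
    a0 = b0 ∧ a1 = b1 ∧ a2 = b2 ∧ a3 = b3 ∧ a4 = b4 ∧ a5 = b5 ∧ a6 = b6 ∧ a7 = b7 ∧ a8 = b8 ∧
      a9 = b9 := by
  obtain ⟨s, hs⟩ : ∃ s : ℤ, (a4 : ℤ) = b4 + 7 * s :=
    ⟨(a4 / 7 : ℕ) - (b4 / 7 : ℕ), by clear sa sb ha hb; omega⟩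
  obtain ⟨t, ht⟩ : ∃ t : ℤ, (a7 : ℤ) = b7 + 7 * t :=
    ⟨(a7 / 7 : ℕ) - (b7 / 7 : ℕ), by clear sa sb ha hb; omega⟩
  obtain ⟨u, hu⟩ : ∃ u : ℤ, (a5 : ℤ) = b5 + 7 * u :=
    ⟨(a5 / 7 : ℕ) - (b5 / 7 : ℕ), by clear sa sb ha hb; omega⟩
  have e1 : a1 + a4 = b1 + b4 := by clear sa sb ha hb; omega
  have e2 : a2 + a5 + a7 = b2 + b5 + b7 := by clear sa sb ha hb; omega
  clear r1 r2 r4 r5 r7 d1 d2
  have h2 : (a2 : ℤ) = b2 - 7 * (t + u) := by clear sa sb; omega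
  have h3 : (a3 : ℤ) = b3 + 7 * (s + t + u) := by clear sa sb; omega
  have h6 : (a6 : ℤ) = b6 - 7 * (s + u) := by clear sa sb; omega
  have := std_ext_aux0 s t u b2 b3 b4 b5 b6 b7 (by positivity) (by positivity) (by positivity)
    (by positivity) (by positivity) (by positivity) (by rw [← h2]; positivity)
    (by rw [← h3]; positivity) (by rw [← hs]; positivity) (by rw [← hu]; positivity)
    (by rw [← h6]; positivity) (by rw [← ht]; positivity) (by exact_mod_cast sb)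
    (by rw [← h2, ← h3, ← hs, ← hu, ← h6, ← ht]; exact_mod_cast sa)
  clear sa sb
  omega

theorem std_ext {m : ℕ} {a b : Fin 10 → ℕ} (ha : Reg m a) (hb : Reg m b) (sa : Std a)
    (sb : Std b) (r1 : a 1 % 7 = b 1 % 7) (r2 : a 2 % 7 = b 2 % 7) (r4 : a 4 % 7 = b 4 % 7)
    (r5 : a 5 % 7 = b 5 % 7) (r7 : a 7 % 7 = b 7 % 7)
    (d1 : a 2 / 7 + a 5 / 7 + a 7 / 7 = b 2 / 7 + b 5 / 7 + b 7 / 7)
    (d2 : a 1 / 7 + a 4 / 7 = b 1 / 7 + b 4 / 7) : a = b := by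
  obtain ⟨h0, h1, h2, h3, h4, h5, h6, h7, h8, h9⟩ :=
    std_ext_aux m _ _ _ _ _ _ _ _ _ _ _ _ _ _ _ _ _ _ _ _ ha hb sa sb r1 r2 r4 r5 r7 d1 d2
  funext i
  fin_cases i
  exacts [h0, h1, h2, h3, h4, h5, h6, h7, h8, h9]

theorem indep_of_roots {F Ω : Type*} [Field F] [Field Ω] [Algebra F Ω] [IsGalois F Ω]
    (hroot : ∀ w : Ω, w ^ 7 = 1 → w ∈ Set.range (algebraMap F Ω)) {κ : Type*} (u : κ → Ω)
    (hu0 : ∀ i, u i ≠ 0) (hu : ∀ i, u i ^ 7 ∈ Set.range (algebraMap F Ω))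
    (hd : ∀ i j, u i / u j ∈ Set.range (algebraMap F Ω) → i = j) : LinearIndependent F u := by
  have hfix : ∀ i (σ τ : Ω ≃ₐ[F] Ω), τ (σ (u i) / u i) = σ (u i) / u i := by
    intro i σ τ
    obtain ⟨a, ha⟩ := hu i
    obtain ⟨b, hb⟩ := hroot (σ (u i) / u i) (by
      rw [div_pow, ← map_pow, ← ha, σ.commutes, ha, div_self (pow_ne_zero _ (hu0 i))])
    rw [← hb, τ.commutes]
  let χ : κ → ((Ω ≃ₐ[F] Ω) →* Ω) := fun i =>
    { toFun := fun σ => σ (u i) / u i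
      map_one' := by simp [hu0 i]
      map_mul' := fun σ τ => by
        have h1 := hfix i τ σ
        have h2 : σ (u i) ≠ 0 := (map_ne_zero σ).2 (hu0 i)
        rw [map_div₀, div_eq_iff h2] at h1
        rw [AlgEquiv.mul_apply, h1]
        ring }
  have hχ : Function.Injective χ := by
    intro i j hij
    refine hd i j ((InfiniteGalois.mem_range_algebraMap_iff_fixed _).2 (fun σ => ?_))
    have h1 : σ (u i) / u i = σ (u j) / u j := DFunLike.congr_fun hij σ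
    have h2 : σ (u j) ≠ 0 := (map_ne_zero σ).2 (hu0 j)
    rw [div_eq_div_iff (hu0 i) (hu0 j)] at h1
    rw [map_div₀, div_eq_div_iff h2 (hu0 j), h1, mul_comm]
  have hli := (linearIndependent_monoidHom (Ω ≃ₐ[F] Ω) Ω).comp χ hχ
  rw [linearIndependent_iff'] at hli ⊢
  intro s g hg i hi
  have h := hli s (fun i => g i • u i) (by
    funext σ
    have h1 := congrArg σ hg
    rw [map_sum, map_zero] at h1
    rw [Finset.sum_apply, Pi.zero_apply, ← h1]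
    refine Finset.sum_congr rfl (fun j _ => ?_)
    show (g j • u j) * (σ (u j) / u j) = _
    rw [map_smul, smul_mul_assoc, mul_div_cancel₀ _ (hu0 j)]) i hi
  exact (smul_eq_zero.1 h).resolve_right (hu0 i)

theorem indep_fiber {k F Ω : Type*} [Field k] [Field F] [Field Ω] [Algebra k F] [Algebra F Ω]
    [Algebra k Ω] [IsScalarTower k F Ω] {ι κ : Type*} (u : κ → Ω) (hu : LinearIndependent F u)
    (r : ι → κ) (P : ι → F)
    (hP : ∀ (s : Finset ι) (g : ι → k), (∀ i ∈ s, ∀ j ∈ s, r i = r j) →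
      ∑ i ∈ s, g i • P i = 0 → ∀ i ∈ s, g i = 0) :
    LinearIndependent k (fun i => P i • u (r i)) := by
  classical
  rw [linearIndependent_iff'] at hu ⊢
  intro s g hg i hi
  have h := hu (s.image r) (fun c => ∑ j ∈ s with r j = c, g j • P j) (by
    rw [← hg, ← Finset.sum_fiberwise_of_maps_to (s := s) (t := s.image r) (g := r)
      (fun j hj => Finset.mem_image_of_mem r hj)]
    refine Finset.sum_congr rfl (fun c _ => ?_)
    rw [Finset.sum_smul]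
    refine Finset.sum_congr rfl (fun j hj => ?_)
    rw [(Finset.mem_filter.1 hj).2, smul_assoc]) (r i) (Finset.mem_image_of_mem r hi)
  refine hP _ g (fun a ha b hb => ?_) h i (Finset.mem_filter.2 ⟨hi, rfl⟩)
  rw [(Finset.mem_filter.1 ha).2, (Finset.mem_filter.1 hb).2]

theorem lead_indep {k : Type*} [Field k] {ι : Type*} (P : ι → k[X][X]) (hP : ∀ i, P i ≠ 0)
    (s : Finset ι) (g : ι → k)
    (hinj : ∀ i ∈ s, ∀ j ∈ s, (P i).natDegree = (P j).natDegree →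
      (P i).leadingCoeff.natDegree = (P j).leadingCoeff.natDegree → i = j)
    (h : ∑ i ∈ s, g i • P i = 0) : ∀ i ∈ s, g i = 0 := by
  classical
  by_contra hne
  push Not at hne
  obtain ⟨i0, hi0, hg0⟩ := hne
  obtain ⟨i, hi, hmax⟩ := Finset.exists_max_image (s.filter (fun i => g i ≠ 0))
    (fun i => toLex ((P i).natDegree, (P i).leadingCoeff.natDegree))
    ⟨i0, Finset.mem_filter.2 ⟨hi0, hg0⟩⟩
  obtain ⟨his, hgi⟩ := Finset.mem_filter.1 hi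
  have h1 := congrArg (fun q : k[X][X] =>
    (q.coeff (P i).natDegree).coeff (P i).leadingCoeff.natDegree) h
  simp only [finsetSum_coeff, coeff_smul, coeff_zero, smul_eq_mul] at h1
  rw [Finset.sum_eq_single i] at h1
  · rcases mul_eq_zero.1 h1 with h2 | h2
    · exact hgi h2
    · exact hP i (leadingCoeff_eq_zero.1 (leadingCoeff_eq_zero.1 h2))
  · intro j hj hji
    by_cases hgj : g j = 0
    · rw [hgj, zero_mul]
    · rcases Prod.Lex.toLex_le_toLex.1 (hmax j (Finset.mem_filter.2 ⟨hj, hgj⟩)) with h2 | ⟨h2, h3⟩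
      · rw [coeff_eq_zero_of_natDegree_lt h2, coeff_zero, mul_zero]
      · dsimp only at h2 h3
        rcases h3.lt_or_eq with h4 | h4
        · rw [← h2, coeff_natDegree, coeff_eq_zero_of_natDegree_lt h4, mul_zero]
        · exact absurd (hinj j hj i his h2 h4) hji
  · intro h2
    exact absurd his h2

/-- The product of powers of the five linear forms `x, y, x - 1, y - 1, y - x`. -/
noncomputable def fmon (k : Type*) [Field k] (a b c d e : ℕ) : k[X][X] :=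
  C (X - C 0) ^ a * (X - C 0) ^ b * C (X - C 1) ^ c * (X - C 1) ^ d * (X - C X) ^ e

theorem fmon_ne_zero (k : Type*) [Field k] (a b c d e : ℕ) : fmon k a b c d e ≠ 0 := by
  unfold fmon
  exact mul_ne_zero (mul_ne_zero (mul_ne_zero (mul_ne_zero
    (pow_ne_zero _ (C_ne_zero.2 (X_sub_C_ne_zero _))) (pow_ne_zero _ (X_sub_C_ne_zero _)))
    (pow_ne_zero _ (C_ne_zero.2 (X_sub_C_ne_zero _)))) (pow_ne_zero _ (X_sub_C_ne_zero _)))
    (pow_ne_zero _ (X_sub_C_ne_zero _))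

/-- Additive functions on the nonzero elements of a domain. -/
def Addi {B : Type*} [CommRing B] (v : B → ℕ) : Prop :=
  ∀ p q, p ≠ 0 → q ≠ 0 → v (p * q) = v p + v q

theorem Addi.pow {B : Type*} [CommRing B] [IsDomain B] {v : B → ℕ} (hv : Addi v) {p : B}
    (hp : p ≠ 0) (n : ℕ) : v (p ^ n) = n * v p := by
  induction n with
  | zero =>
    have := hv 1 1 one_ne_zero one_ne_zero
    rw [mul_one] at this
    rw [pow_zero]
    omega
  | succ n ih => rw [pow_succ, hv _ _ (pow_ne_zero _ hp) hp, ih]; ring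

theorem Addi.fmon {k : Type*} [Field k] {v : k[X][X] → ℕ} (hv : Addi v) (a b c d e : ℕ) :
    v (fmon k a b c d e) = a * v (C (X - C 0)) + b * v (X - C 0) + c * v (C (X - C 1))
      + d * v (X - C 1) + e * v (X - C X) := by
  have h1 : (C (X - C 0) : k[X][X]) ≠ 0 := C_ne_zero.2 (X_sub_C_ne_zero _)
  have h2 : (X - C 0 : k[X][X]) ≠ 0 := X_sub_C_ne_zero _
  have h3 : (C (X - C 1) : k[X][X]) ≠ 0 := C_ne_zero.2 (X_sub_C_ne_zero _)
  have h4 : (X - C 1 : k[X][X]) ≠ 0 := X_sub_C_ne_zero _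
  have h5 : (X - C X : k[X][X]) ≠ 0 := X_sub_C_ne_zero _
  have g1 := pow_ne_zero a h1
  have g2 := mul_ne_zero g1 (pow_ne_zero b h2)
  have g3 := mul_ne_zero g2 (pow_ne_zero c h3)
  have g4 := mul_ne_zero g3 (pow_ne_zero d h4)
  unfold Pool.Agent.Lib.MP_cf0da3_ag.fmon
  rw [hv _ _ g4 (pow_ne_zero e h5), hv _ _ g3 (pow_ne_zero d h4), hv _ _ g2 (pow_ne_zero c h3),
    hv _ _ g1 (pow_ne_zero b h2), hv.pow h1, hv.pow h2, hv.pow h3, hv.pow h4, hv.pow h5]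

theorem addi_root {R : Type*} [CommRing R] [IsDomain R] (a : R) :
    Addi (fun p : R[X] => rootMultiplicity a p) :=
  fun _ _ hp hq => rootMultiplicity_mul (mul_ne_zero hp hq)

theorem addi_deg {R : Type*} [CommRing R] [IsDomain R] : Addi (fun p : R[X] => p.natDegree) :=
  fun _ _ hp hq => natDegree_mul hp hq

theorem Addi.lead {R : Type*} [CommRing R] [IsDomain R] {v : R → ℕ} (hv : Addi v) :
    Addi (fun p : R[X] => v p.leadingCoeff) :=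
  fun p q hp hq => by
    show v (p * q).leadingCoeff = _
    rw [leadingCoeff_mul, hv _ _ (leadingCoeff_ne_zero.2 hp) (leadingCoeff_ne_zero.2 hq)]

theorem fmon_deg (k : Type*) [Field k] (a b c d e : ℕ) :
    (fmon k a b c d e).natDegree = b + d + e ∧
      (fmon k a b c d e).leadingCoeff.natDegree = a + c := by
  have h1 := (addi_deg (R := k[X])).fmon a b c d e
  have h2 := (addi_deg (R := k)).lead.fmon a b c d e
  simp only [natDegree_C, natDegree_X_sub_C, leadingCoeff_C, leadingCoeff_X_sub_C,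
    natDegree_one] at h1 h2
  omega

theorem fmon_mod (k : Type*) [Field k] {a b c d e a' b' c' d' e' : ℕ} {g h : k[X][X]}
    (hg : g ≠ 0) (hh : h ≠ 0)
    (heq : fmon k a b c d e * h ^ 7 = fmon k a' b' c' d' e' * g ^ 7) :
    a % 7 = a' % 7 ∧ b % 7 = b' % 7 ∧ c % 7 = c' % 7 ∧ d % 7 = d' % 7 ∧ e % 7 = e' % 7 := by
  classical
  have key : ∀ v : k[X][X] → ℕ, Addi v →
      v (fmon k a b c d e) % 7 = v (fmon k a' b' c' d' e') % 7 := by
    intro v hv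
    have := congrArg v heq
    rw [hv _ _ (fmon_ne_zero k _ _ _ _ _) (pow_ne_zero _ hh),
      hv _ _ (fmon_ne_zero k _ _ _ _ _) (pow_ne_zero _ hg), hv.pow hh, hv.pow hg] at this
    omega
  have n1 : (X : k[X]) ≠ 0 := X_ne_zero
  have n2 : (X : k[X]) ≠ 1 := fun h => by simpa using congrArg natDegree h
  have one0 : ∀ x : k, rootMultiplicity x (1 : k[X]) = 0 := fun x => rootMultiplicity_C 1 x
  have h1 := key _ (addi_root (0 : k)).lead
  have h2 := key _ (addi_root (0 : k[X]))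
  have h3 := key _ (addi_root (1 : k)).lead
  have h4 := key _ (addi_root (1 : k[X]))
  have h5 := key _ (addi_root (X : k[X]))
  rw [(addi_root (0 : k)).lead.fmon, (addi_root (0 : k)).lead.fmon] at h1
  rw [(addi_root (0 : k[X])).fmon, (addi_root (0 : k[X])).fmon] at h2
  rw [(addi_root (1 : k)).lead.fmon, (addi_root (1 : k)).lead.fmon] at h3
  rw [(addi_root (1 : k[X])).fmon, (addi_root (1 : k[X])).fmon] at h4
  rw [(addi_root (X : k[X])).fmon, (addi_root (X : k[X])).fmon] at h5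
  simp only [rootMultiplicity_C, rootMultiplicity_X_sub_C, leadingCoeff_C, leadingCoeff_X_sub_C,
    one0, if_true, zero_ne_one, one_ne_zero, if_false, n1, n2, n1.symm, n2.symm, mul_one, mul_zero,
    add_zero, zero_add] at h1 h2 h3 h4 h5
  exact ⟨h1, h2, h3, h4, h5⟩

end Pool.Agent.Lib.MP_cf0da3_ag
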