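import Pool.Agent.Lib.MP_cf0da3_ag.CfgBasic
import Pool.Agent.Lib.MP_cf0da3_ag.CfgExistA

/-! Existence of the generic configuration. -/

namespace Pool.Agent.Lib.MP_cf0da3_ag

open Module Filter Polynomial

/-- Seventh roots of `x, y, x - 1, y - 1, y - x`. -/
structure Roots (K : Type) [Field K] where
  w1 : K
  w2 : K
  w4 : K
  w5 : K
  w7 : K
  n1 : w1 ≠ 0
  n2 : w2 ≠ 0
  n4 : w4 ≠ 0
  n5 : w5 ≠ 0
  n7 : w7 ≠ 0
  e4 : w4 ^ 7 = w1 ^ 7 - 1
  e5 : w5 ^ 7 = w2 ^ 7 - 1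
  e7 : w7 ^ 7 = w2 ^ 7 - w1 ^ 7

namespace Roots

variable {K : Type} [Field K] (r : Roots K)

/-- The configuration of the points `0, 1, x, y, ∞`. -/
def cfg : Cfg K where
  a := ![0, 1, r.w1 ^ 7, r.w2 ^ 7, 1]
  b := ![1, 1, 1, 1, 0]
  z := ![![0, -1, -r.w1, -r.w2, -1], ![1, 0, -r.w4, -r.w5, -1], ![r.w1, r.w4, 0, -r.w7, -1],
    ![r.w2, r.w5, r.w7, 0, -1], ![1, 1, 1, 1, 0]]
  anti := by
    intro i j
    fin_cases i <;> fin_cases j <;> simp
  pow7 := by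
    have o : Odd 7 := by decide
    intro i j
    fin_cases i <;> fin_cases j <;> simp [o.neg_pow, r.e4, r.e5, r.e7]
  ne := by
    intro i j hij
    fin_cases i <;> fin_cases j <;> simp [r.n1, r.n2, r.n4, r.n5, r.n7] at hij ⊢

/-- The unsigned monomial. -/
def mon (c : Fin 10 → ℕ) : K :=
  r.w1 ^ c 1 * r.w2 ^ c 2 * r.w4 ^ c 4 * r.w5 ^ c 5 * r.w7 ^ c 7

theorem zmon_eq (c : Fin 10 → ℕ) : r.cfg.zmon c = (-1) ^ (∑ e, c e) * r.mon c := by
  simp only [Cfg.zmon, mon, Fin.prod_univ_succ, Fin.sum_univ_succ, cfg, src, tgt]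
  simp [neg_pow r.w1, neg_pow r.w2, neg_pow r.w4, neg_pow r.w5, neg_pow r.w7]
  ring

variable (k : Type) [Field k] [Algebra k K]

theorem frac_of_mon {x : K} (c c' : Fin 10 → ℕ) (hc : Reg 1 c) (hc' : Reg 1 c')
    (hs : ∑ e, c e = ∑ e, c' e) (h : r.mon c' * x = r.mon c) :
    ∃ m : ℕ, ∃ h ∈ r.cfg.Wc k 1 ^ m, h ≠ 0 ∧ h * x ∈ r.cfg.Wc k 1 ^ m := by
  refine ⟨1, r.cfg.zmon c', ?_, r.cfg.zmon_ne_zero c', ?_⟩
  · rw [Cfg.Wc_pow_eq_span]
    exact Submodule.subset_span ⟨c', hc', by rw [one_pow, one_mul]⟩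
  · rw [Cfg.Wc_pow_eq_span]
    exact Submodule.subset_span ⟨c, hc, by
      rw [one_pow, one_mul, zmon_eq, zmon_eq, mul_assoc, h, hs]⟩

theorem frac (hg : IntermediateField.adjoin k {r.w1, r.w2, r.w4, r.w5, r.w7} = ⊤) (x : K) :
    ∃ m : ℕ, ∃ h ∈ r.cfg.Wc k 1 ^ m, h ≠ 0 ∧ h * x ∈ r.cfg.Wc k 1 ^ m := by
  have hx : x ∈ IntermediateField.adjoin k {r.w1, r.w2, r.w4, r.w5, r.w7} := by
    rw [hg]; trivial
  induction hx using IntermediateField.adjoin_induction with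
  | mem x hx =>
    simp only [Set.mem_insert_iff, Set.mem_singleton_iff] at hx
    rcases hx with rfl | rfl | rfl | rfl | rfl
    · exact r.frac_of_mon k ![0, 1, 1, 0, 0, 1, 1, 0, 1, 0] ![1, 0, 1, 0, 0, 1, 0, 0, 2, 0]
        (by simp [Reg]) (by simp [Reg]) (by decide) (by simp [mon]; ring)
    · exact r.frac_of_mon k ![0, 1, 1, 0, 1, 0, 1, 0, 0, 1] ![1, 1, 0, 0, 1, 0, 0, 0, 0, 2]
        (by simp [Reg]) (by simp [Reg]) (by decide) (by simp [mon]; ring)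
    · exact r.frac_of_mon k ![0, 0, 1, 1, 1, 1, 0, 0, 1, 0] ![1, 0, 1, 0, 0, 1, 0, 0, 2, 0]
        (by simp [Reg]) (by simp [Reg]) (by decide) (by simp [mon]; ring)
    · exact r.frac_of_mon k ![0, 1, 0, 1, 1, 1, 0, 0, 0, 1] ![1, 1, 0, 0, 1, 0, 0, 0, 0, 2]
        (by simp [Reg]) (by simp [Reg]) (by decide) (by simp [mon])
    · exact r.frac_of_mon k ![1, 0, 0, 1, 0, 0, 1, 2, 0, 0] ![2, 0, 0, 0, 0, 0, 0, 1, 1, 1]
        (by simp [Reg]) (by simp [Reg]) (by decide) (by simp [mon]; ring)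
  | algebraMap c =>
    refine ⟨0, 1, ?_, one_ne_zero, ?_⟩
    · rw [pow_zero]; exact Submodule.one_le.1 le_rfl
    · rw [pow_zero, one_mul]; exact Submodule.algebraMap_mem c
  | add x y _ _ hx hy =>
    obtain ⟨m, g, hg1, hg2, hg3⟩ := hx
    obtain ⟨n, h, hh1, hh2, hh3⟩ := hy
    refine ⟨m + n, g * h, ?_, mul_ne_zero hg2 hh2, ?_⟩
    · rw [pow_add]; exact Submodule.mul_mem_mul hg1 hh1
    · rw [pow_add, show g * h * (x + y) = g * x * h + g * (h * y) by ring]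
      exact add_mem (Submodule.mul_mem_mul hg3 hh1) (Submodule.mul_mem_mul hg1 hh3)
  | inv x _ hx =>
    obtain ⟨m, g, hg1, hg2, hg3⟩ := hx
    by_cases h0 : x = 0
    · exact ⟨m, g, hg1, hg2, by rw [h0, inv_zero, mul_zero]; exact zero_mem _⟩
    · exact ⟨m, g * x, hg3, mul_ne_zero hg2 h0, by rwa [mul_inv_cancel_right₀ h0]⟩
  | mul x y _ _ hx hy =>
    obtain ⟨m, g, hg1, hg2, hg3⟩ := hx
    obtain ⟨n, h, hh1, hh2, hh3⟩ := hy
    refine ⟨m + n, g * h, ?_, mul_ne_zero hg2 hh2, ?_⟩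
    · rw [pow_add]; exact Submodule.mul_mem_mul hg1 hh1
    · rw [pow_add, show g * h * (x * y) = g * x * (h * y) by ring]
      exact Submodule.mul_mem_mul hg3 hh3

theorem isAlg (hg : IntermediateField.adjoin k {r.w1, r.w2, r.w4, r.w5, r.w7} = ⊤) :
    Algebra.IsAlgebraic (Algebra.adjoin k (Set.range ![r.w1 ^ 7, r.w2 ^ 7])) K := by
  refine ⟨fun x => ?_⟩
  have hx : x ∈ IntermediateField.adjoin k {r.w1, r.w2, r.w4, r.w5, r.w7} := by
    rw [hg]; trivial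
  have hA : ∀ y ∈ Algebra.adjoin k (Set.range ![r.w1 ^ 7, r.w2 ^ 7]),
      IsAlgebraic (Algebra.adjoin k (Set.range ![r.w1 ^ 7, r.w2 ^ 7])) y :=
    fun y hy => isAlgebraic_algebraMap
      (⟨y, hy⟩ : Algebra.adjoin k (Set.range ![r.w1 ^ 7, r.w2 ^ 7]))
  have h1 : r.w1 ^ 7 ∈ Algebra.adjoin k (Set.range ![r.w1 ^ 7, r.w2 ^ 7]) :=
    Algebra.subset_adjoin ⟨0, rfl⟩
  have h2 : r.w2 ^ 7 ∈ Algebra.adjoin k (Set.range ![r.w1 ^ 7, r.w2 ^ 7]) :=
    Algebra.subset_adjoin ⟨1, rfl⟩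
  induction hx using IntermediateField.adjoin_induction with
  | mem x hx =>
    simp only [Set.mem_insert_iff, Set.mem_singleton_iff] at hx
    refine IsAlgebraic.of_pow (n := 7) (by norm_num) (hA _ ?_)
    rcases hx with rfl | rfl | rfl | rfl | rfl
    · exact h1
    · exact h2
    · rw [r.e4]; exact sub_mem h1 (one_mem _)
    · rw [r.e5]; exact sub_mem h2 (one_mem _)
    · rw [r.e7]; exact sub_mem h2 h1
  | algebraMap c => exact hA _ (Subalgebra.algebraMap_mem _ c)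
  | add x y _ _ hx hy => exact hx.add hy
  | inv x _ hx => exact hx.inv
  | mul x y _ _ hx hy => exact hx.mul hy

theorem indep_of_mon (h : ∀ m : ℕ, LinearIndependent k
    (fun e : {e : Fin 10 → ℕ // Reg m e ∧ Std e} => r.mon e.1)) : r.cfg.Indep k := by
  intro m
  have h1 := (h m).units_smul (fun e => (-1) ^ (∑ i, e.1 i))
  have e : (fun e : {e : Fin 10 → ℕ // Reg m e ∧ Std e} => r.cfg.zmon e.1) =
      (fun e : {e : Fin 10 → ℕ // Reg m e ∧ Std e} => ((-1) ^ (∑ i, e.1 i) : kˣ)) •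
        (fun e : {e : Fin 10 → ℕ // Reg m e ∧ Std e} => r.mon e.1) := by
    funext e
    rw [zmon_eq, Pi.smul_apply', Units.smul_def, Algebra.smul_def]
    simp
  rw [e]
  exact h1

/-- Restriction to the field generated by the roots. -/
def restrict : Roots (IntermediateField.adjoin k {r.w1, r.w2, r.w4, r.w5, r.w7}) where
  w1 := ⟨r.w1, IntermediateField.subset_adjoin _ _ (by simp)⟩
  w2 := ⟨r.w2, IntermediateField.subset_adjoin _ _ (by simp)⟩
  w4 := ⟨r.w4, IntermediateField.subset_adjoin _ _ (by simp)⟩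
  w5 := ⟨r.w5, IntermediateField.subset_adjoin _ _ (by simp)⟩
  w7 := ⟨r.w7, IntermediateField.subset_adjoin _ _ (by simp)⟩
  n1 := fun h => r.n1 (congrArg Subtype.val h)
  n2 := fun h => r.n2 (congrArg Subtype.val h)
  n4 := fun h => r.n4 (congrArg Subtype.val h)
  n5 := fun h => r.n5 (congrArg Subtype.val h)
  n7 := fun h => r.n7 (congrArg Subtype.val h)
  e4 := Subtype.ext r.e4
  e5 := Subtype.ext r.e5
  e7 := Subtype.ext r.e7

theorem restrict_gen : IntermediateField.adjoin k {(r.restrict k).w1, (r.restrict k).w2,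
    (r.restrict k).w4, (r.restrict k).w5, (r.restrict k).w7} = ⊤ := by
  apply IntermediateField.lift_injective
  rw [IntermediateField.lift_adjoin, IntermediateField.lift_top]
  simp only [Set.image_insert_eq, Set.image_singleton]
  rfl

theorem good_restrict (h : ∀ m : ℕ, LinearIndependent k
    (fun e : {e : Fin 10 → ℕ // Reg m e ∧ Std e} => r.mon e.1))
    (ha : AlgebraicIndependent k ![r.w1 ^ 7, r.w2 ^ 7]) : (r.restrict k).cfg.Good k := by
  refine ⟨(r.restrict k).indep_of_mon k (fun m => ?_), (r.restrict k).frac k (r.restrict_gen k),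
    ![(r.restrict k).w1 ^ 7, (r.restrict k).w2 ^ 7],
    isTranscendenceBasis_iff_algebraicIndependent_isAlgebraic.2
      ⟨?_, (r.restrict k).isAlg k (r.restrict_gen k)⟩⟩
  · exact LinearIndependent.of_comp (IntermediateField.val _).toLinearMap (h m)
  · refine AlgebraicIndependent.of_comp (IntermediateField.val _) ?_
    have e : (IntermediateField.val _) ∘ ![(r.restrict k).w1 ^ 7, (r.restrict k).w2 ^ 7] =
        ![r.w1 ^ 7, r.w2 ^ 7] := by
      funext i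
      fin_cases i <;> rfl
    rw [e]
    exact ha

end Roots

theorem mon_indep {k F Ω : Type} [Field k] [IsAlgClosed k] [Field F] [Field Ω] [Algebra k[X][X] F]
    [IsFractionRing k[X][X] F] [Algebra k F] [IsScalarTower k k[X][X] F] [Algebra F Ω]
    [Algebra k Ω] [IsScalarTower k F Ω] [IsGalois F Ω] (r : Roots Ω)
    (h1 : r.w1 ^ 7 = algebraMap F Ω (algebraMap k[X][X] F (C X)))
    (h2 : r.w2 ^ 7 = algebraMap F Ω (algebraMap k[X][X] F X)) (m : ℕ) :
    LinearIndependent k (fun e : {e : Fin 10 → ℕ // Reg m e ∧ Std e} => r.mon e.1) := by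
  set ι : k[X][X] →+* Ω := (algebraMap F Ω).comp (algebraMap k[X][X] F) with hι
  have hιi : Function.Injective ι := (algebraMap F Ω).injective.comp (IsFractionRing.injective _ _)
  have h1' : r.w1 ^ 7 = ι (C X) := h1
  have h2' : r.w2 ^ 7 = ι X := h2
  have hf : ∀ a b c d e : ℕ, (r.w1 ^ a * r.w2 ^ b * r.w4 ^ c * r.w5 ^ d * r.w7 ^ e) ^ 7
      = ι (fmon k a b c d e) := by
    intro a b c d e
    simp only [fmon, map_mul, map_pow, map_sub, map_zero, map_one, sub_zero, ← h1', ← h2',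
      ← r.e4, ← r.e5, ← r.e7]
    ring
  let u : Fin 7 × Fin 7 × Fin 7 × Fin 7 × Fin 7 → Ω := fun ρ =>
    r.w1 ^ (ρ.1 : ℕ) * r.w2 ^ (ρ.2.1 : ℕ) * r.w4 ^ (ρ.2.2.1 : ℕ) * r.w5 ^ (ρ.2.2.2.1 : ℕ) *
      r.w7 ^ (ρ.2.2.2.2 : ℕ)
  have hu0 : ∀ ρ, u ρ ≠ 0 := fun ρ =>
    mul_ne_zero (mul_ne_zero (mul_ne_zero (mul_ne_zero (pow_ne_zero _ r.n1) (pow_ne_zero _ r.n2))
      (pow_ne_zero _ r.n4)) (pow_ne_zero _ r.n5)) (pow_ne_zero _ r.n7)
  have hu : LinearIndependent F u := by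
    refine indep_of_roots (fun w hw => ?_) u hu0 (fun ρ => ⟨_, (hf _ _ _ _ _).symm⟩) ?_
    · have hint : IsIntegral k w := IsIntegral.of_pow (n := 7) (by norm_num)
        (by rw [hw]; exact isIntegral_one)
      obtain ⟨c, hc⟩ := minpoly.mem_range_of_degree_eq_one k w
        (IsAlgClosed.degree_eq_one_of_irreducible k (minpoly.irreducible hint))
      exact ⟨algebraMap k F c, by rw [← IsScalarTower.algebraMap_apply, hc]⟩
    · rintro ρ ρ' ⟨q, hq⟩
      obtain ⟨g, h, hh, rfl⟩ := IsFractionRing.div_surjective (A := k[X][X]) q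
      have hh0 : h ≠ 0 := nonZeroDivisors.ne_zero hh
      have hh1 : ι h ≠ 0 := (map_ne_zero_iff ι hιi).2 hh0
      have hq' : ι g / ι h = u ρ / u ρ' := by rw [← hq, map_div₀]; rfl
      rw [div_eq_div_iff hh1 (hu0 ρ')] at hq'
      have hg0 : g ≠ 0 := by
        rintro rfl
        rw [map_zero, zero_mul] at hq'
        exact mul_ne_zero (hu0 ρ) hh1 hq'.symm
      have heq : fmon k ρ.1 ρ.2.1 ρ.2.2.1 ρ.2.2.2.1 ρ.2.2.2.2 * h ^ 7
          = fmon k ρ'.1 ρ'.2.1 ρ'.2.2.1 ρ'.2.2.2.1 ρ'.2.2.2.2 * g ^ 7 := by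
        apply hιi
        rw [map_mul, map_mul, map_pow, map_pow, ← hf, ← hf, ← mul_pow, ← mul_pow]
        exact congrArg (· ^ 7) (hq'.symm.trans (mul_comm _ _))
      obtain ⟨a1, a2, a3, a4, a5⟩ := fmon_mod k hg0 hh0 heq
      simp only [Nat.mod_eq_of_lt (Fin.is_lt _)] at a1 a2 a3 a4 a5
      exact Prod.ext (Fin.ext a1) (Prod.ext (Fin.ext a2) (Prod.ext (Fin.ext a3)
        (Prod.ext (Fin.ext a4) (Fin.ext a5))))
  let res : {e : Fin 10 → ℕ // Reg m e ∧ Std e} → Fin 7 × Fin 7 × Fin 7 × Fin 7 × Fin 7 :=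
    fun e => (⟨e.1 1 % 7, Nat.mod_lt _ (by norm_num)⟩, ⟨e.1 2 % 7, Nat.mod_lt _ (by norm_num)⟩,
      ⟨e.1 4 % 7, Nat.mod_lt _ (by norm_num)⟩, ⟨e.1 5 % 7, Nat.mod_lt _ (by norm_num)⟩,
      ⟨e.1 7 % 7, Nat.mod_lt _ (by norm_num)⟩)
  let P : {e : Fin 10 → ℕ // Reg m e ∧ Std e} → k[X][X] :=
    fun e => fmon k (e.1 1 / 7) (e.1 2 / 7) (e.1 4 / 7) (e.1 5 / 7) (e.1 7 / 7)
  have h := indep_fiber (k := k) u hu res (fun e => algebraMap k[X][X] F (P e))
    (fun s g hs hsum => lead_indep P (fun e => fmon_ne_zero k _ _ _ _ _) s g (fun i hi j hj d1 d2 => ?_) ?_)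
  · have e : (fun e : {e : Fin 10 → ℕ // Reg m e ∧ Std e} => r.mon e.1) =
        fun e => algebraMap k[X][X] F (P e) • u (res e) := by
      funext e
      rw [Algebra.smul_def]
      show _ = ι (P e) * _
      simp only [P, ← hf, u, res, Roots.mon]
      conv_lhs => rw [← Nat.div_add_mod (e.1 1) 7, ← Nat.div_add_mod (e.1 2) 7,
        ← Nat.div_add_mod (e.1 4) 7, ← Nat.div_add_mod (e.1 5) 7, ← Nat.div_add_mod (e.1 7) 7]
      ring
    rw [e]
    exact h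
  · have hr := hs i hi j hj
    simp only [res, Prod.mk.injEq, Fin.mk.injEq] at hr
    rw [(fmon_deg k _ _ _ _ _).1, (fmon_deg k _ _ _ _ _).1] at d1
    rw [(fmon_deg k _ _ _ _ _).2, (fmon_deg k _ _ _ _ _).2] at d2
    exact Subtype.ext (std_ext i.2.1 j.2.1 i.2.2 j.2.2 hr.1 hr.2.1 hr.2.2.1 hr.2.2.2.1 hr.2.2.2.2
      d1 d2)
  · apply IsFractionRing.injective k[X][X] F
    rw [map_zero, ← hsum, map_sum]
    refine Finset.sum_congr rfl (fun i _ => ?_)
    rw [Algebra.smul_def, Algebra.smul_def, map_mul, ← IsScalarTower.algebraMap_apply]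

theorem exists_good (k : Type) [Field k] (h7 : (7 : k) ≠ 0) :
    ∃ (K : Type) (_ : Field K) (_ : Algebra k K) (C : Cfg K), C.Good k := by
  let k' := AlgebraicClosure k
  let F := FractionRing k'[X][X]
  let Ω := SeparableClosure F
  let ι : k'[X][X] →ₐ[k'] Ω := (IsScalarTower.toAlgHom k' F Ω).comp
    (IsScalarTower.toAlgHom k' k'[X][X] F)
  have hιi : Function.Injective ι :=
    (algebraMap F Ω).injective.comp (IsFractionRing.injective k'[X][X] F)
  have hst : IsScalarTower k k' Ω := IsScalarTower.of_algebraMap_eq (fun _ => rfl)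
  have h7' : NeZero ((7 : ℕ) : Ω) := ⟨by
    rw [← map_natCast (algebraMap k Ω)]
    exact (_root_.map_ne_zero _).2 (by exact_mod_cast h7)⟩
  have hroot : ∀ p : k'[X][X], p ≠ 0 → ∃ w : Ω, w ≠ 0 ∧ w ^ 7 = ι p := by
    intro p hp
    obtain ⟨w, hw⟩ := IsSepClosed.exists_pow_nat_eq (ι p) 7
    refine ⟨w, ?_, hw⟩
    rintro rfl
    rw [zero_pow (by norm_num)] at hw
    exact (map_ne_zero_iff ι hιi).2 hp hw.symm
  obtain ⟨w1, n1, e1⟩ := hroot (C X) (C_ne_zero.2 X_ne_zero)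
  obtain ⟨w2, n2, e2⟩ := hroot X X_ne_zero
  obtain ⟨w4, n4, e4⟩ := hroot (C (X - C 1)) (C_ne_zero.2 (X_sub_C_ne_zero _))
  obtain ⟨w5, n5, e5⟩ := hroot (X - C 1) (X_sub_C_ne_zero _)
  obtain ⟨w7, n7, e7⟩ := hroot (X - C X) (X_sub_C_ne_zero _)
  let r : Roots Ω := ⟨w1, w2, w4, w5, w7, n1, n2, n4, n5, n7,
    by rw [e4, e1]; simp only [map_sub, map_one], by rw [e5, e2]; simp only [map_sub, map_one],
    by rw [e7, e2, e1, map_sub]⟩
  refine ⟨_, inferInstance, inferInstance, _, r.good_restrict k (fun m => ?_) ?_⟩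
  · exact (mon_indep (k := k') (F := F) r e1 e2 m).restrict_scalars' k
  · have h1 := (MvPolynomial.algebraicIndependent_X (Fin 2) k').map'
      (f := ι.comp (Polynomial.Bivariate.equivMvPolynomial k').symm.toAlgHom)
      (hιi.comp (Polynomial.Bivariate.equivMvPolynomial k').symm.injective)
    have e : ![r.w1 ^ 7, r.w2 ^ 7] = (ι.comp
        (Polynomial.Bivariate.equivMvPolynomial k').symm.toAlgHom) ∘ MvPolynomial.X := by
      funext i
      fin_cases i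
      · exact e1.trans (congrArg ι (Polynomial.Bivariate.equivMvPolynomial_symm_X_0 (R := k')).symm)
      · exact e2.trans (congrArg ι (Polynomial.Bivariate.equivMvPolynomial_symm_X_1 (R := k')).symm)
    rw [e]
    exact h1.restrictScalars (algebraMap k k').injective

end Pool.Agent.Lib.MP_cf0da3_ag
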