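import Pool.Agent.Lib.MP_cf0da3_ag.Primes

/-! Local rings at homogeneous primes, closed points, local freeness. -/

namespace Pool.Agent.Lib.MP_cf0da3_ag

open Module Filter TensorProduct

variable {k K : Type*} [Field k] [Field K] [Algebra k K] {W : Submodule k K}
  {V : Type*} [AddCommGroup V] [Module K V] [Module k V] [IsScalarTower k K V]
  {L N M : ℤ → Submodule k V} {q : ℤ → Submodule k K}

theorem ne_zero_of_notMem_fam {a : ℤ} {h : K} (hh : h ∉ q a) : h ≠ 0 :=
  fun e => hh (e ▸ Submodule.zero_mem _)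

omit [IsScalarTower k K V] in
theorem locSet_zero (hq : IsPrimeFam W q) :
    ∃ a : ℤ, ∃ h ∈ Rg W a, h ∉ q a ∧ h • (0 : V) ∈ L a :=
  ⟨0, 1, one_mem_Rg_zero W, hq.one_notMem, by simp⟩

theorem locSet_add (hq : IsPrimeFam W q) (hL : IsMod W L) {x y : V}
    (hx : ∃ a : ℤ, ∃ h ∈ Rg W a, h ∉ q a ∧ h • x ∈ L a)
    (hy : ∃ a : ℤ, ∃ h ∈ Rg W a, h ∉ q a ∧ h • y ∈ L a) :
    ∃ a : ℤ, ∃ h ∈ Rg W a, h ∉ q a ∧ h • (x + y) ∈ L a := by
  obtain ⟨a, h, hh, hh', hx⟩ := hx
  obtain ⟨a', h', gg, gg', hy⟩ := hy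
  refine ⟨a + a', h * h', mul_mem_Rg hh gg, hq.mul_notMem hh gg hh' gg', ?_⟩
  rw [smul_add]
  refine Submodule.add_mem _ ?_ ?_
  · have := hL.smul_mem gg hx
    rwa [add_comm, smul_smul, mul_comm] at this
  · have := hL.smul_mem hh hy
    rwa [smul_smul] at this

theorem locSet_smul (hq : IsPrimeFam W q) (hL : IsMod W L) {x : K} {y : V}
    (hx : ∃ a : ℤ, ∃ h ∈ Rg W a, h ∉ q a ∧ h * x ∈ Rg W a)
    (hy : ∃ a : ℤ, ∃ h ∈ Rg W a, h ∉ q a ∧ h • y ∈ L a) :
    ∃ a : ℤ, ∃ h ∈ Rg W a, h ∉ q a ∧ h • (x • y) ∈ L a := by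
  obtain ⟨a, h, hh, hh', hx⟩ := hx
  obtain ⟨a', h', gg, gg', hy⟩ := hy
  refine ⟨a + a', h * h', mul_mem_Rg hh gg, hq.mul_notMem hh gg hh' gg', ?_⟩
  have := hL.smul_mem hx hy
  rw [smul_smul] at this ⊢
  rwa [mul_right_comm]

theorem mem_Oloc (hq : IsPrimeFam W q) {x : K} :
    x ∈ Oloc W q ↔ ∃ a : ℤ, ∃ h ∈ Rg W a, h ∉ q a ∧ h * x ∈ Rg W a := by
  refine ⟨fun hx => ?_, fun hx => Subring.subset_closure hx⟩
  unfold Oloc at hx
  induction hx using Subring.closure_induction with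
  | mem x hx => exact hx
  | zero => exact locSet_zero (L := Rg W) hq
  | one => exact ⟨0, 1, one_mem_Rg_zero W, hq.one_notMem, by simpa using one_mem_Rg_zero W⟩
  | add x y _ _ hx hy => exact locSet_add hq (isMod_Rg W) hx hy
  | neg x _ hx =>
    obtain ⟨a, h, hh, hh', hx⟩ := hx
    exact ⟨a, h, hh, hh', by simpa using hx⟩
  | mul x y _ _ hx hy => exact locSet_smul hq (isMod_Rg W) hx hy

theorem mem_loc (hq : IsPrimeFam W q) (hL : IsMod W L) {v : V} :
    v ∈ loc W q L ↔ ∃ a : ℤ, ∃ h ∈ Rg W a, h ∉ q a ∧ h • v ∈ L a := by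
  refine ⟨fun hv => ?_, fun hv => Submodule.subset_span hv⟩
  unfold loc at hv
  induction hv using Submodule.span_induction with
  | mem x hx => exact hx
  | zero => exact locSet_zero hq
  | add x y _ _ hx hy => exact locSet_add hq hL hx hy
  | smul c x _ hx => exact locSet_smul hq hL ((mem_Oloc hq).1 c.2) hx

theorem algebraMap_mem_Oloc (hq : IsPrimeFam W q) (c : k) : algebraMap k K c ∈ Oloc W q :=
  (mem_Oloc hq).2 ⟨0, 1, one_mem_Rg_zero W, hq.one_notMem, by
    simpa using algebraMap_mem_Rg_zero W c⟩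

theorem div_mem_Oloc (hq : IsPrimeFam W q) {a : ℤ} {f h : K} (hf : f ∈ Rg W a) (hh : h ∈ Rg W a)
    (hh' : h ∉ q a) : f / h ∈ Oloc W q :=
  (mem_Oloc hq).2 ⟨a, h, hh, hh', by rwa [mul_div_cancel₀ _ (ne_zero_of_notMem_fam hh')]⟩

theorem mloc_subset (hq : IsPrimeFam W q) : mloc W q ⊆ Oloc W q := by
  rintro x ⟨a, h, hh, hh', hx⟩
  exact (mem_Oloc hq).2 ⟨a, h, hh, hh', hq.le a hx⟩

theorem one_notMem_mloc (hq : IsPrimeFam W q) : (1 : K) ∉ mloc W q := by
  have _ := hq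
  rintro ⟨a, h, -, hh', hx⟩
  exact hh' (by simpa using hx)

theorem zero_mem_mloc (hq : IsPrimeFam W q) : (0 : K) ∈ mloc W q :=
  locSet_zero (L := q) hq

theorem add_mem_mloc (hq : IsPrimeFam W q) {x y : K} (hx : x ∈ mloc W q) (hy : y ∈ mloc W q) :
    x + y ∈ mloc W q :=
  locSet_add hq hq.isMod hx hy

theorem mul_mem_mloc (hq : IsPrimeFam W q) {x y : K} (hx : x ∈ Oloc W q) (hy : y ∈ mloc W q) :
    x * y ∈ mloc W q :=
  locSet_smul hq hq.isMod ((mem_Oloc hq).1 hx) hy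

theorem inv_mem_Oloc (hq : IsPrimeFam W q) {x : K} (hx : x ∈ Oloc W q) (hx' : x ∉ mloc W q) :
    x ≠ 0 ∧ x⁻¹ ∈ Oloc W q := by
  have hx0 : x ≠ 0 := fun e => hx' (e ▸ zero_mem_mloc hq)
  obtain ⟨a, h, hh, hh', hxa⟩ := (mem_Oloc hq).1 hx
  have h1 : h * x ∉ q a := fun e => hx' ⟨a, h, hh, hh', e⟩
  refine ⟨hx0, ?_⟩
  have := div_mem_Oloc hq hh hxa h1
  rwa [div_mul_cancel_left₀ (ne_zero_of_notMem_fam hh')] at this

/-- For `f, h` of the same degree with `h ∉ q`: `f / h ∈ mloc ↔ f ∈ q`. -/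
theorem div_mem_mloc_iff (hq : IsPrimeFam W q) {a : ℤ} {f h : K} (hf : f ∈ Rg W a)
    (hh : h ∈ Rg W a) (hh' : h ∉ q a) : f / h ∈ mloc W q ↔ f ∈ q a := by
  have h0 := ne_zero_of_notMem_fam hh'
  constructor
  · rintro ⟨a', h', gg, gg', hx⟩
    have h1 := hq.mul_mem_left hh hx
    have h2 : h * (h' * (f / h)) = f * h' := by field_simp
    rw [h2] at h1
    exact (hq.prime a a' f hf h' gg h1).resolve_right gg'
  · intro hfq
    exact ⟨a, h, hh, hh', by rwa [mul_div_cancel₀ _ h0]⟩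

theorem isUnit_Oloc_iff (hq : IsPrimeFam W q) (x : Oloc W q) :
    IsUnit x ↔ (x : K) ∉ mloc W q := by
  constructor
  · intro hx hm
    obtain ⟨y, hy⟩ := hx.exists_left_inv
    have h1 := mul_mem_mloc hq y.2 hm
    have h2 : (y : K) * x = 1 := by exact_mod_cast congrArg Subtype.val hy
    rw [h2] at h1
    exact one_notMem_mloc hq h1
  · intro hx
    obtain ⟨h0, h1⟩ := inv_mem_Oloc hq x.2 hx
    exact IsUnit.of_mul_eq_one ⟨_, h1⟩ (Subtype.ext (mul_inv_cancel₀ h0))

theorem isLocalRing_Oloc (hq : IsPrimeFam W q) : IsLocalRing (Oloc W q) := by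
  refine IsLocalRing.of_isUnit_or_isUnit_one_sub_self fun x => ?_
  rw [isUnit_Oloc_iff hq, isUnit_Oloc_iff hq]
  by_contra h
  rw [not_or, not_not, not_not] at h
  have := add_mem_mloc hq h.1 h.2
  exact one_notMem_mloc hq (by simpa using this)

theorem mem_maximalIdeal_Oloc (hq : IsPrimeFam W q) [IsLocalRing (Oloc W q)] (x : Oloc W q) :
    x ∈ IsLocalRing.maximalIdeal (Oloc W q) ↔ (x : K) ∈ mloc W q := by
  rw [IsLocalRing.mem_maximalIdeal, mem_nonunits_iff, isUnit_Oloc_iff hq, not_not]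

omit [IsScalarTower k K V] in
theorem loc_mono (h : N ≤ L) : loc W q N ≤ loc W q L := by
  refine Submodule.span_mono ?_
  rintro v ⟨a, f, hf, hf', hv⟩
  exact ⟨a, f, hf, hf', h a hv⟩

theorem loc_inf (hq : IsPrimeFam W q) (hL : IsMod W L) (hN : IsMod W N) :
    loc W q (L ⊓ N) = loc W q L ⊓ loc W q N := by
  refine le_antisymm (le_inf (loc_mono inf_le_left) (loc_mono inf_le_right)) ?_
  rintro v ⟨hv, hv'⟩
  obtain ⟨a, h, hh, hh', hx⟩ := (mem_loc hq hL).1 hv
  obtain ⟨a', h', gg, gg', hy⟩ := (mem_loc hq hN).1 hv'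
  refine (mem_loc hq (hL.inf hN)).2
    ⟨a + a', h * h', mul_mem_Rg hh gg, hq.mul_notMem hh gg hh' gg', ?_, ?_⟩
  · have := hL.smul_mem gg hx
    rwa [add_comm, smul_smul, mul_comm] at this
  · have := hN.smul_mem hh hy
    rwa [smul_smul] at this

omit [IsScalarTower k K V] in
theorem inv_smul_mem_loc {a : ℤ} {h : K} (hh : h ∈ Rg W a) (hh' : h ∉ q a) {x : V}
    (hx : x ∈ L a) : h⁻¹ • x ∈ loc W q L :=
  Submodule.subset_span ⟨a, h, hh, hh', by rwa [smul_inv_smul₀ (ne_zero_of_notMem_fam hh')]⟩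

theorem loc_sup (hq : IsPrimeFam W q) (hL : IsMod W L) (hN : IsMod W N) :
    loc W q (L ⊔ N) = loc W q L ⊔ loc W q N := by
  refine le_antisymm ?_ (sup_le (loc_mono le_sup_left) (loc_mono le_sup_right))
  intro v hv
  obtain ⟨a, h, hh, hh', hx⟩ := (mem_loc hq (hL.sup hN)).1 hv
  obtain ⟨x, hx, y, hy, hxy⟩ := Submodule.mem_sup.1 hx
  have : v = h⁻¹ • x + h⁻¹ • y := by
    rw [← smul_add, hxy, inv_smul_smul₀ (ne_zero_of_notMem_fam hh')]
  rw [this]
  exact Submodule.add_mem_sup (inv_smul_mem_loc hh hh' hx) (inv_smul_mem_loc hh hh' hy)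

theorem zpow_mem_Rg {g : K} (hg : g ∈ W) {n : ℤ} (hn : 0 ≤ n) : g ^ n ∈ Rg W n := by
  lift n to ℕ using hn
  simpa using pow_mem_Rg (mem_Rg_one hg) n

theorem IsPrimeFam.zpow_notMem (hq : IsPrimeFam W q) {g : K} (hg : g ∈ W) (hg' : g ∉ q 1) {n : ℤ}
    (hn : 0 ≤ n) : g ^ n ∉ q n := by
  lift n to ℕ using hn
  simpa using hq.pow_notMem (mem_Rg_one hg) hg' n

/-- Dehomogenisation with respect to `g` lands in the localisation. -/
theorem zpow_smul_mem_loc (hq : IsPrimeFam W q) {g : K} (hg : g ∈ W) (hg' : g ∉ q 1)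
    (hL : IsMod W L) {t : ℤ} {v : V} (hv : v ∈ L t) : g ^ (-t) • v ∈ loc W q L := by
  have h0 := ne_zero_of_notMem_fam hg'
  have h1 : 0 ≤ max t 0 := le_max_right _ _
  have h2 : 0 ≤ max t 0 - t := sub_nonneg.2 (le_max_left _ _)
  refine (mem_loc hq hL).2 ⟨max t 0, g ^ (max t 0), zpow_mem_Rg hg h1,
    hq.zpow_notMem hg hg' h1, ?_⟩
  have := hL.smul_mem (zpow_mem_Rg hg h2) hv
  rw [sub_add_cancel] at this
  rwa [smul_smul, ← zpow_add₀ h0, ← sub_eq_add_neg]

theorem loc_Rg_iff (hq : IsPrimeFam W q) {x : K} : x ∈ loc W q (Rg W) ↔ x ∈ Oloc W q := by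
  rw [mem_loc hq (isMod_Rg W), mem_Oloc hq]
  rfl

theorem zpow_mul_mem_Oloc (hq : IsPrimeFam W q) {g : K} (hg : g ∈ W) (hg' : g ∉ q 1) {t : ℤ}
    {f : K} (hf : f ∈ Rg W t) : g ^ (-t) * f ∈ Oloc W q :=
  (loc_Rg_iff hq).1 (zpow_smul_mem_loc hq hg hg' (isMod_Rg W) hf)

theorem zpow_div_mem_Oloc (hq : IsPrimeFam W q) {g : K} (hg : g ∈ W) {a : ℤ}
    {h : K} (hh : h ∈ Rg W a) (hh' : h ∉ q a) : g ^ a / h ∈ Oloc W q :=
  div_mem_Oloc hq (zpow_mem_Rg hg (nonneg_of_mem_Rg hh (ne_zero_of_notMem_fam hh'))) hh hh'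

theorem loc_gen (hq : IsPrimeFam W q) {g : K} (hg : g ∈ W) (hg' : g ∉ q 1) {ι : Type*}
    (b : ι → ℤ) (v : ι → V) :
    loc W q (gen W b v) =
      Submodule.span (Oloc W q) (Set.range fun i => g ^ (-b i) • v i) := by
  have h0 := ne_zero_of_notMem_fam hg'
  apply le_antisymm
  · intro x hx
    obtain ⟨a, h, hh, hh', hx⟩ := (mem_loc hq (isMod_gen W b v)).1 hx
    have key : ∀ y ∈ gen W b v a, g ^ (-a) • y ∈
        Submodule.span (Oloc W q) (Set.range fun i => g ^ (-b i) • v i) := by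
      intro y hy
      unfold gen at hy
      induction hy using Submodule.iSup_induction' with
      | mem i y hy =>
        obtain ⟨f, hf, rfl⟩ := mem_cyc.1 hy
        have h1 := Submodule.smul_mem
          (Submodule.span (Oloc W q) (Set.range fun i => g ^ (-b i) • v i))
          (⟨_, zpow_mul_mem_Oloc hq hg hg' hf⟩ : Oloc W q) (Submodule.subset_span ⟨i, rfl⟩)
        rw [Subring.smul_def, smul_smul, mul_right_comm, ← zpow_add₀ h0] at h1
        have h2 : -(a - b i) + -b i = -a := by ring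
        rwa [h2, mul_smul] at h1
      | zero => simp
      | add y z _ _ hy hz => rw [smul_add]; exact Submodule.add_mem _ hy hz
    have h1 := Submodule.smul_mem _ (⟨_, zpow_div_mem_Oloc hq hg hh hh'⟩ : Oloc W q) (key _ hx)
    rw [Subring.smul_def, smul_smul, smul_smul] at h1
    have h2 : g ^ a / h * g ^ (-a) * h = 1 := by
      have := ne_zero_of_notMem_fam hh'
      have := zpow_ne_zero a h0
      rw [zpow_neg]
      field_simp
    rwa [h2, one_smul] at h1
  · rw [Submodule.span_le]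
    rintro _ ⟨i, rfl⟩
    exact zpow_smul_mem_loc hq hg hg' (isMod_gen W b v) (self_mem_gen W b v i)

theorem loc_cyc (hq : IsPrimeFam W q) {g : K} (hg : g ∈ W) (hg' : g ∉ q 1) (b : ℤ) (v : V) :
    loc W q (cyc W b v) = Submodule.span (Oloc W q) {g ^ (-b) • v} := by
  rw [cyc_eq_gen, loc_gen hq hg hg', Set.range_const]

theorem loc_fg (hq : IsPrimeFam W q) (hrel : Relevant W q) (hL : IsFG W L) :
    (loc W q L).FG := by
  obtain ⟨g, hg, hg'⟩ := hrel
  obtain ⟨n, b, v, rfl⟩ := hL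
  rw [loc_gen hq hg hg']
  exact Submodule.fg_span (Set.finite_range _)

/-- The graded family attached to a module over the local ring. -/
def famOf (hq : IsPrimeFam W q) (g : K) (Λ : Submodule (Oloc W q) V) : ℤ → Submodule k V :=
  fun a =>
  { carrier := {v | g ^ (-a) • v ∈ Λ}
    add_mem' := fun hx hy => by
      rw [Set.mem_ofPred_eq, smul_add]
      exact Λ.add_mem hx hy
    zero_mem' := by simp
    smul_mem' := fun c x hx => by
      have := Λ.smul_mem (⟨_, algebraMap_mem_Oloc hq c⟩ : Oloc W q) hx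
      rw [Subring.smul_def, smul_comm, algebraMap_smul] at this
      exact this }

theorem mem_famOf (hq : IsPrimeFam W q) {g : K} {Λ : Submodule (Oloc W q) V} {a : ℤ} {v : V} :
    v ∈ famOf hq g Λ a ↔ g ^ (-a) • v ∈ Λ := Iff.rfl

theorem isMod_famOf (hq : IsPrimeFam W q) {g : K} (hg : g ∈ W) (hg' : g ∉ q 1)
    (Λ : Submodule (Oloc W q) V) : IsMod W (famOf hq g Λ) := by
  intro t w hw v hv
  have h0 := ne_zero_of_notMem_fam hg'
  have h1 := Λ.smul_mem (⟨_, zpow_mul_mem_Oloc hq hg hg' (mem_Rg_one hw)⟩ : Oloc W q)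
    ((mem_famOf hq).1 hv)
  rw [Subring.smul_def, smul_smul, mul_right_comm, ← zpow_add₀ h0] at h1
  have h2 : -(t + 1) = -1 + -t := by ring
  rwa [mem_famOf, h2, smul_smul]

theorem isNoetherianRing_Oloc [FiniteDimensional k W] (hq : IsPrimeFam W q)
    (hrel : Relevant W q) : IsNoetherianRing (Oloc W q) := by
  obtain ⟨g, hg, hg'⟩ := hrel
  have h0 := ne_zero_of_notMem_fam hg'
  rw [isNoetherianRing_iff_ideal_fg]
  intro I
  set Λ : Submodule (Oloc W q) K := Submodule.map (Algebra.linearMap (Oloc W q) K) I with hΛ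
  have hmod := (isMod_Rg W).inf (isMod_famOf hq hg hg' Λ)
  have hfg := loc_fg hq ⟨g, hg, hg'⟩ ((isFG_Rg W).of_le hmod inf_le_left)
  have heq : loc W q (Rg W ⊓ famOf hq g Λ) = Λ := by
    apply le_antisymm
    · intro x hx
      obtain ⟨a, h, hh, hh', -, hx⟩ := (mem_loc hq hmod).1 hx
      have h1 := Λ.smul_mem (⟨_, zpow_div_mem_Oloc hq hg hh hh'⟩ : Oloc W q) ((mem_famOf hq).1 hx)
      rw [Subring.smul_def, smul_smul, smul_smul] at h1
      have h2 : g ^ a / h * g ^ (-a) * h = 1 := by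
        have := ne_zero_of_notMem_fam hh'
        have := zpow_ne_zero a h0
        rw [zpow_neg]
        field_simp
      rwa [h2, one_smul] at h1
    · intro x hx
      obtain ⟨y, -, hy⟩ := Submodule.mem_map.1 (id hx)
      have hxO : x ∈ Oloc W q := hy ▸ y.2
      obtain ⟨a, h, hh, hh', hxa⟩ := (mem_Oloc hq).1 hxO
      refine (mem_loc hq hmod).2 ⟨a, h, hh, hh', hxa, ?_⟩
      have h1 := Λ.smul_mem (⟨_, zpow_mul_mem_Oloc hq hg hg' hh⟩ : Oloc W q) hx
      rw [Subring.smul_def, mul_smul] at h1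
      exact h1
  rw [heq] at hfg
  exact Submodule.fg_of_fg_map_injective _ Subtype.val_injective hfg

/-- Every element of `K` is a quotient of elements of the local ring. -/
theorem Ctx.frac_Oloc (hW : Ctx W) (hq : IsPrimeFam W q) (hrel : Relevant W q) (x : K) :
    ∃ a ∈ Oloc W q, a ≠ 0 ∧ a * x ∈ Oloc W q := by
  obtain ⟨g, hg, hg'⟩ := hrel
  obtain ⟨a, h, hh, h0, hx⟩ := hW.frac x
  refine ⟨g ^ (-a) * h, zpow_mul_mem_Oloc hq hg hg' hh,
    mul_ne_zero (zpow_ne_zero _ (ne_zero_of_notMem_fam hg')) h0, ?_⟩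
  rw [mul_assoc]
  exact zpow_mul_mem_Oloc hq hg hg' hx

/-- The graded ideal attached to an ideal of a subalgebra, dehomogenising with respect to `g`. -/
def famIdeal (W : Submodule k K) (g : K) {S : Subalgebra k K} (I : Ideal S) :
    ℤ → Submodule k K :=
  fun a =>
  { carrier := {f | f ∈ Rg W a ∧ ∃ y ∈ I, (y : K) = g ^ (-a) * f}
    add_mem' := by
      rintro f f' ⟨hf, y, hy, e⟩ ⟨hf', y', hy', e'⟩
      exact ⟨Submodule.add_mem _ hf hf', y + y', I.add_mem hy hy', by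
        rw [mul_add, ← e, ← e']; rfl⟩
    zero_mem' := ⟨Submodule.zero_mem _, 0, I.zero_mem, by simp⟩
    smul_mem' := by
      rintro c f ⟨hf, y, hy, e⟩
      refine ⟨Submodule.smul_mem _ c hf, algebraMap k S c * y, I.mul_mem_left _ hy, ?_⟩
      rw [Subalgebra.coe_mul, e, Subalgebra.coe_algebraMap, mul_smul_comm, Algebra.smul_def] }

theorem mem_famIdeal {g : K} {S : Subalgebra k K} {I : Ideal S} {a : ℤ} {f : K} :
    f ∈ famIdeal W g I a ↔ f ∈ Rg W a ∧ ∃ y ∈ I, (y : K) = g ^ (-a) * f := Iff.rfl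

theorem zpow_mul_mem_of_forall {g : K} (h0 : g ≠ 0) {S : Subalgebra k K}
    (hS : ∀ w ∈ W, g⁻¹ * w ∈ S) {a : ℤ} {f : K} (hf : f ∈ Rg W a) : g ^ (-a) * f ∈ S := by
  rcases lt_or_ge a 0 with ha | ha
  · rw [Rg_of_neg W ha, Submodule.mem_bot] at hf
    simp [hf]
  lift a to ℕ using ha
  rw [Rg_natCast] at hf
  induction hf using Submodule.pow_induction_on_left' with
  | algebraMap r => simp
  | add x y i hx hy ihx ihy => rw [mul_add]; exact S.add_mem ihx ihy
  | mem_mul m hm i x hx ih =>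
    have h1 := S.mul_mem (hS m hm) ih
    have h2 : g ^ (-((i.succ : ℕ) : ℤ)) * (m * x) = g⁻¹ * m * (g ^ (-(i : ℤ)) * x) := by
      rw [Nat.succ_eq_add_one, Nat.cast_add, Nat.cast_one, neg_add, zpow_add₀ h0, zpow_neg_one]
      ring
    rwa [h2]

/-- Nullstellensatz: every relevant prime is contained in a closed point. -/
theorem exists_point [IsAlgClosed k] [FiniteDimensional k W] (hq : IsPrimeFam W q)
    (hrel : Relevant W q) : ∃ q', IsPoint W q' ∧ q ≤ q' := by
  classical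
  obtain ⟨g, hg, hg'⟩ := hrel
  have h0 := ne_zero_of_notMem_fam hg'
  obtain ⟨T, hT⟩ : W.FG := Module.Finite.iff_fg.mp inferInstance
  set S : Subalgebra k K := Algebra.adjoin k (T.image fun w => g⁻¹ * w : Finset K) with hSdef
  have hS : ∀ w ∈ W, g⁻¹ * w ∈ S := by
    intro w hw
    rw [← hT] at hw
    induction hw using Submodule.span_induction with
    | mem x hx => exact Algebra.subset_adjoin (Finset.mem_coe.2 (Finset.mem_image_of_mem _ hx))
    | zero => simp
    | add x y _ _ hx hy => rw [mul_add]; exact S.add_mem hx hy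
    | smul c x _ hx => rw [mul_smul_comm]; exact S.smul_mem hx c
  have hSO : ∀ x ∈ S, x ∈ Oloc W q := by
    intro x hx
    induction hx using Algebra.adjoin_induction with
    | mem x hx =>
      obtain ⟨w, hw, rfl⟩ := Finset.mem_image.1 (Finset.mem_coe.1 hx)
      have hwW : w ∈ W := hT ▸ Submodule.subset_span hw
      simpa using zpow_mul_mem_Oloc hq hg hg' (mem_Rg_one hwW)
    | algebraMap r => exact algebraMap_mem_Oloc hq r
    | add x y _ _ hx hy => exact Subring.add_mem _ hx hy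
    | mul x y _ _ hx hy => exact Subring.mul_mem _ hx hy
  let I : Ideal S :=
    { carrier := {y | (y : K) ∈ mloc W q}
      add_mem' := fun hx hy => add_mem_mloc hq hx hy
      zero_mem' := zero_mem_mloc hq
      smul_mem' := fun c y hy => mul_mem_mloc hq (hSO _ c.2) hy }
  have hI : I ≠ ⊤ := (Ideal.ne_top_iff_one I).2 (one_notMem_mloc hq)
  obtain ⟨m, hm, hIm⟩ := Ideal.exists_le_maximal I hI
  have hft : Algebra.FiniteType k S :=
    (Subalgebra.fg_iff_finiteType S).1 (Subalgebra.fg_adjoin_finset _)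
  let _ : Field (S ⧸ m) := Ideal.Quotient.field m
  have hfin : Module.Finite k (S ⧸ m) := finite_of_finite_type_of_isJacobsonRing k (S ⧸ m)
  have hbij : Function.Bijective (algebraMap k (S ⧸ m)) :=
    IsAlgClosed.algebraMap_bijective_of_isIntegral
  have hmem : ∀ {a : ℤ} {f : K} (hf : f ∈ Rg W a), f ∈ famIdeal W g m a ↔
      (⟨_, zpow_mul_mem_of_forall h0 hS hf⟩ : S) ∈ m := by
    intro a f hf
    refine ⟨fun ⟨_, y, hy, e⟩ => ?_, fun h => ⟨hf, _, h, rfl⟩⟩
    have : y = ⟨_, zpow_mul_mem_of_forall h0 hS hf⟩ := Subtype.ext e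
    rwa [this] at hy
  have hprime : IsPrimeFam W (famIdeal W g m) := by
    refine ⟨fun t f hf => hf.1, ?_, ?_, ?_⟩
    · rintro t w hw f ⟨hf, y, hy, e⟩
      refine ⟨isMod_Rg W t w hw f hf, ⟨_, hS w hw⟩ * y, m.mul_mem_left _ hy, ?_⟩
      rw [Subalgebra.coe_mul, e, neg_add, zpow_add₀ h0, zpow_neg_one, smul_eq_mul]
      ring
    · rintro ⟨-, y, hy, e⟩
      have : y = 1 := Subtype.ext (by simpa using e)
      exact hm.ne_top ((Ideal.eq_top_iff_one m).2 (this ▸ hy))
    · intro a b f hf f' hf' h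
      rw [hmem hf, hmem hf']
      refine hm.isPrime.mem_or_mem ?_
      obtain ⟨-, y, hy, e⟩ := h
      have : y = ⟨_, zpow_mul_mem_of_forall h0 hS hf⟩ * ⟨_, zpow_mul_mem_of_forall h0 hS hf'⟩ := by
        apply Subtype.ext
        rw [Subalgebra.coe_mul, e, neg_add, zpow_add₀ h0]
        ring
      rwa [this] at hy
  refine ⟨famIdeal W g m, ⟨hprime, ⟨g, hg, ?_⟩, ?_⟩, ?_⟩
  · rintro ⟨-, y, hy, e⟩
    have : y = 1 := Subtype.ext (by simpa [h0] using e)
    exact hm.ne_top ((Ideal.eq_top_iff_one m).2 (this ▸ hy))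
  · intro x hx
    obtain ⟨a, h, hh, hh', hxa⟩ := (mem_Oloc hprime).1 hx
    set y₁ : S := ⟨_, zpow_mul_mem_of_forall h0 hS hh⟩ with hy₁
    set y₂ : S := ⟨_, zpow_mul_mem_of_forall h0 hS hxa⟩ with hy₂
    have h1 : Ideal.Quotient.mk m y₁ ≠ 0 := fun e =>
      hh' ((hmem hh).2 (Ideal.Quotient.eq_zero_iff_mem.1 e))
    obtain ⟨c, hc⟩ := hbij.2 (Ideal.Quotient.mk m y₂ / Ideal.Quotient.mk m y₁)
    have h2 : y₂ - algebraMap k S c * y₁ ∈ m := by
      rw [← Ideal.Quotient.eq_zero_iff_mem, map_sub, map_mul, Ideal.Quotient.mk_algebraMap, hc,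
        div_mul_cancel₀ _ h1, sub_self]
    refine ⟨c, a, h, hh, hh', ?_, _, h2, ?_⟩
    · rw [mul_sub]
      refine Submodule.sub_mem _ hxa ?_
      simpa using mul_mem_Rg hh (algebraMap_mem_Rg_zero W c)
    · rw [AddSubgroupClass.coe_sub, Subalgebra.coe_mul, Subalgebra.coe_algebraMap]
      simp only [hy₁, hy₂]
      ring
  · intro a f hf
    have hfR := hq.le a hf
    rw [hmem hfR]
    apply hIm
    by_cases hf0 : f = 0
    · change g ^ (-a) * f ∈ mloc W q
      rw [hf0, mul_zero]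
      exact zero_mem_mloc hq
    · have ha := nonneg_of_mem_Rg hfR hf0
      have := (div_mem_mloc_iff hq hfR (zpow_mem_Rg hg ha) (hq.zpow_notMem hg hg' ha)).2 hf
      change g ^ (-a) * f ∈ mloc W q
      rwa [zpow_neg, mul_comm, ← div_eq_mul_inv]

/-- In a generating family of minimal size all relations have non-unit coefficients. -/
theorem exists_minimal_gen {O : Type*} [CommRing O] {V : Type*} [AddCommGroup V] [Module O V]
    (Λ : Submodule O V) (hΛ : Λ.FG) :
    ∃ (n : ℕ) (m : Fin n → V), Submodule.span O (Set.range m) = Λ ∧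
      ∀ c : Fin n → O, ∑ i, c i • m i = 0 → ∀ i, ¬ IsUnit (c i) := by
  classical
  have hex : ∃ n : ℕ, ∃ m : Fin n → V, Submodule.span O (Set.range m) = Λ :=
    Submodule.fg_iff_exists_fin_generating_family.1 hΛ
  obtain ⟨m, hm⟩ := Nat.find_spec hex
  have hmin := fun n => Nat.find_min hex (m := n)
  generalize Nat.find hex = n at m hm hmin
  refine ⟨n, m, hm, fun c hc i hi => ?_⟩
  cases n with
  | zero => exact i.elim0
  | succ n =>
    refine hmin n (Nat.lt_succ_self n) ⟨fun j => m (i.succAbove j), le_antisymm ?_ ?_⟩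
    · rw [← hm]
      refine Submodule.span_mono ?_
      rintro _ ⟨j, rfl⟩
      exact ⟨_, rfl⟩
    · rw [← hm, Submodule.span_le]
      rintro _ ⟨j, rfl⟩
      rcases eq_or_ne j i with rfl | hj
      · rw [Fin.sum_univ_succAbove _ j] at hc
        obtain ⟨d, hd⟩ := hi.exists_left_inv
        have h1 : m j = -(d • ∑ l, c (j.succAbove l) • m (j.succAbove l)) := by
          rw [eq_neg_of_add_eq_zero_right hc, smul_neg, neg_neg, smul_smul, hd, one_smul]
        rw [h1]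
        exact Submodule.neg_mem _ (Submodule.smul_mem _ _ (Submodule.sum_mem _ fun l _ =>
          Submodule.smul_mem _ _ (Submodule.subset_span ⟨l, rfl⟩)))
      · obtain ⟨l, rfl⟩ := Fin.exists_succAbove_eq hj
        exact Submodule.subset_span ⟨l, rfl⟩

theorem free_of_two_gen_aux {K : Type*} [Field K] (O : Subring K) [IsLocalRing O]
    [IsNoetherianRing O] {V : Type*} [AddCommGroup V] [Module K V] (Λ : Submodule O V)
    (hΛ : Λ.FG) (u v : O) (hu : u ≠ 0) (hm : IsLocalRing.maximalIdeal O = Ideal.span {u, v})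
    (hS2 : ∀ z : V, (∀ x ∈ IsLocalRing.maximalIdeal O, x • z ∈ Λ) → z ∈ Λ) :
    ∃ (n : ℕ) (m : Fin n → V), LinearIndependent O m ∧
      Submodule.span O (Set.range m) = Λ := by
  obtain ⟨n, m, hspan, hrel⟩ := exists_minimal_gen Λ hΛ
  refine ⟨n, m, ?_, hspan⟩
  set φ := Fintype.linearCombination O m with hφ
  have hrange : ∀ z, z ∈ Λ ↔ ∃ c, φ c = z := by
    intro z
    rw [← hspan, ← Fintype.range_linearCombination, LinearMap.mem_range]
  have hu' : (u : K) ≠ 0 := fun e => hu (Subtype.ext e)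
  have huv : u ∈ IsLocalRing.maximalIdeal O ∧ v ∈ IsLocalRing.maximalIdeal O := by
    rw [hm]
    exact ⟨Ideal.subset_span (by simp), Ideal.subset_span (by simp)⟩
  have hker : LinearMap.ker φ = ⊥ := by
    refine Submodule.eq_bot_of_le_smul_of_le_jacobson_bot (IsLocalRing.maximalIdeal O) _
      (IsNoetherian.noetherian _) ?_ (IsLocalRing.maximalIdeal_le_jacobson _)
    intro c hc
    have h1 : ∀ i, ∃ α β : O, α * u + β * v = c i := by
      intro i
      rw [← Ideal.mem_span_pair, ← hm]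
      exact hrel c hc i
    choose α β hαβ using h1
    have hc' : c = u • α + v • β := by
      funext i
      simp only [Pi.add_apply, Pi.smul_apply, smul_eq_mul, ← hαβ i]
      ring
    have h2 : u • φ α + v • φ β = 0 := by
      rw [← map_smul, ← map_smul, ← map_add, ← hc']
      exact hc
    set z : V := (u : K)⁻¹ • φ β with hz
    have hz1 : u • z = φ β := by rw [hz, Subring.smul_def, smul_inv_smul₀ hu']
    have hz2 : v • z = -φ α := by
      have h3 : v • φ β = -(u • φ α) := eq_neg_of_add_eq_zero_right h2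
      rw [hz, smul_comm, h3, Subring.smul_def, smul_neg, inv_smul_smul₀ hu']
    have hzΛ : z ∈ Λ := by
      refine hS2 z fun x hx => ?_
      rw [hm, Ideal.mem_span_pair] at hx
      obtain ⟨a, b, rfl⟩ := hx
      rw [add_smul, mul_smul, mul_smul, hz1, hz2]
      exact Λ.add_mem (Λ.smul_mem _ ((hrange _).2 ⟨_, rfl⟩))
        (Λ.smul_mem _ (Λ.neg_mem ((hrange _).2 ⟨_, rfl⟩)))
    obtain ⟨γ, hγ⟩ := (hrange z).1 hzΛ
    have h4 : c = u • (α + v • γ) + v • (β - u • γ) := by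
      rw [hc', smul_add, smul_sub, smul_comm u v γ]
      abel
    rw [h4]
    refine Submodule.add_mem _ (Submodule.smul_mem_smul huv.1 ?_) (Submodule.smul_mem_smul huv.2 ?_)
    · rw [LinearMap.mem_ker, map_add, map_smul, hγ, hz2, add_neg_cancel]
    · rw [LinearMap.mem_ker, map_sub, map_smul, hγ, hz1, sub_self]
  rw [Fintype.linearIndependent_iff]
  intro c hc i
  have : c ∈ LinearMap.ker φ := hc
  rw [hker, Submodule.mem_bot] at this
  rw [this]
  rfl

/-- A finitely generated module of depth two over a local ring of embedding dimension at most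
two is free. -/
theorem free_of_two_gen {K : Type*} [Field K] (O : Subring K) [IsLocalRing O]
    [IsNoetherianRing O] {V : Type*} [AddCommGroup V] [Module K V] (Λ : Submodule O V)
    (hΛ : Λ.FG) (u v : O) (hm : IsLocalRing.maximalIdeal O = Ideal.span {u, v})
    (hS2 : ∀ z : V, (∀ x ∈ IsLocalRing.maximalIdeal O, x • z ∈ Λ) → z ∈ Λ) :
    ∃ (n : ℕ) (m : Fin n → V), LinearIndependent O m ∧
      Submodule.span O (Set.range m) = Λ := by
  by_cases hu : u = 0
  · by_cases hv : v = 0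
    · obtain ⟨n, m, hspan, hrel⟩ := exists_minimal_gen Λ hΛ
      refine ⟨n, m, Fintype.linearIndependent_iff.2 fun c hc i => ?_, hspan⟩
      have h1 : c i ∈ IsLocalRing.maximalIdeal O := hrel c hc i
      rw [hm, Ideal.mem_span_pair] at h1
      obtain ⟨a, b, h1⟩ := h1
      rw [← h1, hu, hv]
      simp
    · exact free_of_two_gen_aux O Λ hΛ v u hv (by rw [hm, Set.pair_comm]) hS2
  · exact free_of_two_gen_aux O Λ hΛ u v hu hm hS2

/-- Common denominator for a finite family in a localisation. -/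
theorem exists_common_denom (hq : IsPrimeFam W q) (hL : IsMod W L) {ι : Type*} [Finite ι]
    (m : ι → V) (hm : ∀ i, m i ∈ loc W q L) :
    ∃ a : ℤ, ∃ h ∈ Rg W a, h ∉ q a ∧ ∀ i, h • m i ∈ L a := by
  classical
  have := Fintype.ofFinite ι
  choose a h hh hh' hm using fun i => (mem_loc hq hL).1 (hm i)
  refine ⟨∑ i, a i, ∏ i, h i, prod_mem_Rg _ _ _ fun i _ => hh i,
    hq.prod_notMem _ _ _ (fun i _ => hh i) fun i _ => hh' i, fun i => ?_⟩
  have := hL.smul_mem (prod_mem_Rg (Finset.univ.erase i) a h fun j _ => hh j) (hm i)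
  rwa [smul_smul, Finset.prod_erase_mul _ _ (Finset.mem_univ i),
    Finset.sum_erase_add _ _ (Finset.mem_univ i)] at this

theorem LF_of_loc_eq_span (hq : IsPrimeFam W q) (hrel : Relevant W q) (hM : IsFG W M)
    {ι : Type*} [Fintype ι] (m : ι → V) (hli : LinearIndependent K m)
    (h : loc W q M = Submodule.span (Oloc W q) (Set.range m)) :
    LF W M (Fintype.card ι) q := by
  obtain ⟨g, hg, hg'⟩ := hrel
  have h0 := ne_zero_of_notMem_fam hg'
  obtain ⟨B, H, hH, hH', hHm⟩ := exists_common_denom hq hM.isMod m fun i => by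
    rw [h]; exact Submodule.subset_span ⟨i, rfl⟩
  have hH0 := ne_zero_of_notMem_fam hH'
  set e := (Fintype.equivFin ι).symm with he
  set m' : Fin (Fintype.card ι) → V := fun i => H • m (e i) with hm'
  have hGmod := isMod_gen W (fun _ => B) m'
  have hle : loc W q M ≤ loc W q (gen W (fun _ => B) m') := by
    rw [h, Submodule.span_le]
    rintro _ ⟨i, rfl⟩
    have h1 := inv_smul_mem_loc hH hH' (self_mem_gen W (fun _ => B) m' (e.symm i))
    simpa [hm', hH0] using h1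
  obtain ⟨n, b, v, rfl⟩ := hM
  obtain ⟨a, f, hf, hf', hfv⟩ := exists_common_denom hq hGmod (fun j => g ^ (-b j) • v j)
    fun j => hle (zpow_smul_mem_loc hq hg hg' (isMod_gen W b v) (self_mem_gen W b v j))
  obtain ⟨c, hc⟩ := (Set.finite_range b).bddBelow
  have hc0 : 0 ≤ max (-c) 0 := le_max_right _ _
  have hc1 : ∀ j, 0 ≤ max (-c) 0 + b j := fun j => by
    have h1 := hc ⟨j, rfl⟩
    have h2 := le_max_left (-c) 0
    omega
  refine ⟨B, max (-c) 0 + a, m', fun i => hHm _, ?_, g ^ max (-c) 0 * f,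
    mul_mem_Rg (zpow_mem_Rg hg hc0) hf,
    hq.mul_notMem (zpow_mem_Rg hg hc0) hf (hq.zpow_notMem hg hg' hc0) hf', ?_⟩
  · exact (hli.comp e e.injective).units_smul fun _ => Units.mk0 H hH0
  · intro t x hx
    obtain ⟨φ, hφ, rfl⟩ := mem_gen.1 hx
    rw [Finset.smul_sum]
    refine Submodule.sum_mem _ fun j _ => ?_
    have h1 := hGmod.smul_mem (hφ j) (hGmod.smul_mem (zpow_mem_Rg hg (hc1 j)) (hfv j))
    have h2 : t - b j + (max (-c) 0 + b j + a) = t + (max (-c) 0 + a) := by ring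
    have h3 : φ j • g ^ (max (-c) 0 + b j) • f • g ^ (-b j) • v j =
        (g ^ max (-c) 0 * f) • φ j • v j := by
      simp only [smul_smul]
      congr 1
      have := zpow_ne_zero (b j) h0
      rw [zpow_add₀ h0, zpow_neg]
      field_simp
    rwa [h2, h3] at h1

theorem LF_of_S2 (hW : Ctx W) (hq : IsPrimeFam W q) (hrel : Relevant W q) (hM : IsFG W M)
    (u v : K) (hu : u ∈ mloc W q) (hv : v ∈ mloc W q)
    (hgen : ∀ x ∈ mloc W q, ∃ α ∈ Oloc W q, ∃ β ∈ Oloc W q, x = α * u + β * v)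
    (hS2 : ∀ z : V, (∀ x ∈ mloc W q, x • z ∈ loc W q M) → z ∈ loc W q M) :
    LF W M (finrank K (spanK K M)) q := by
  have := hW.fd
  have := isLocalRing_Oloc hq
  have := isNoetherianRing_Oloc hq hrel
  have hmax : IsLocalRing.maximalIdeal (Oloc W q) =
      Ideal.span {⟨u, mloc_subset hq hu⟩, ⟨v, mloc_subset hq hv⟩} := by
    apply le_antisymm
    · intro x hx
      obtain ⟨α, hα, β, hβ, e⟩ := hgen x ((mem_maximalIdeal_Oloc hq x).1 hx)
      exact Ideal.mem_span_pair.2 ⟨⟨α, hα⟩, ⟨β, hβ⟩, Subtype.ext e.symm⟩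
    · rw [Ideal.span_le]
      rintro x (rfl | rfl)
      · exact (mem_maximalIdeal_Oloc hq _).2 hu
      · exact (mem_maximalIdeal_Oloc hq _).2 hv
  obtain ⟨n, m, hli, hspan⟩ := free_of_two_gen (Oloc W q) (loc W q M) (loc_fg hq hrel hM) _ _ hmax
    fun z hz => hS2 z fun x hx =>
      hz ⟨x, mloc_subset hq hx⟩ ((mem_maximalIdeal_Oloc hq _).2 hx)
  have hfrac : IsFractionRing (Oloc W q) K := by
    refine IsFractionRing.of_field _ _ fun z => ?_
    obtain ⟨a, ha, ha0, haz⟩ := hW.frac_Oloc hq hrel z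
    refine ⟨⟨_, haz⟩, ⟨a, ha⟩, ?_⟩
    change z = a * z / a
    rw [mul_div_cancel_left₀ _ ha0]
  have hli' : LinearIndependent K m := (LinearIndependent.iff_fractionRing (Oloc W q) K).1 hli
  have hK : spanK K M = Submodule.span K (Set.range m) := by
    obtain ⟨g, hg, hg'⟩ := hrel
    apply le_antisymm
    · rw [spanK, Submodule.span_le]
      intro x hx
      obtain ⟨t, hx⟩ := Set.mem_iUnion.1 hx
      have h1 := zpow_smul_mem_loc hq hg hg' hM.isMod hx
      rw [← hspan] at h1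
      have h2 := Submodule.span_subset_span (Oloc W q) K _ h1
      exact (Submodule.smul_mem_iff _ (zpow_ne_zero _ (ne_zero_of_notMem_fam hg'))).1 h2
    · rw [Submodule.span_le]
      rintro _ ⟨i, rfl⟩
      have h1 : m i ∈ loc W q M := hspan ▸ Submodule.subset_span ⟨i, rfl⟩
      obtain ⟨a, h, -, hh', hx⟩ := (mem_loc hq hM.isMod).1 h1
      exact (Submodule.smul_mem_iff _ (ne_zero_of_notMem_fam hh')).1
        (Submodule.subset_span (Set.mem_iUnion.2 ⟨a, hx⟩))
  rw [hK, finrank_span_eq_card hli']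
  exact LF_of_loc_eq_span hq hrel hM m hli' hspan.symm

/-- If the local ring at a point is generated by two elements over its `p`-th powers, its
maximal ideal is generated by two elements. -/
theorem two_gen_of_pbasis [IsAlgClosed k] (p : ℕ) [Fact p.Prime] [CharP k p]
    [FiniteDimensional k W] (hq : IsPoint W q) (u v : K) (hu : u ∈ Oloc W q)
    (hv : v ∈ Oloc W q)
    (h : ∀ x ∈ Oloc W q, ∃ w : Fin p × Fin p → K, (∀ ij, w ij ∈ Oloc W q) ∧
        x = ∑ ij : Fin p × Fin p, w ij ^ p * (u ^ (ij.1 : ℕ) * v ^ (ij.2 : ℕ))) :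
    ∃ u' ∈ mloc W q, ∃ v' ∈ mloc W q,
      ∀ x ∈ mloc W q, ∃ α ∈ Oloc W q, ∃ β ∈ Oloc W q, x = α * u' + β * v' := by
  obtain ⟨hq, hrel, hres⟩ := hq
  have hp : p.Prime := Fact.out
  have := isLocalRing_Oloc hq
  have := isNoetherianRing_Oloc hq hrel
  obtain ⟨c₁, hc₁⟩ := hres u hu
  obtain ⟨c₂, hc₂⟩ := hres v hv
  obtain ⟨d₁, rfl⟩ := IsAlgClosed.exists_pow_nat_eq c₁ hp.pos
  obtain ⟨d₂, rfl⟩ := IsAlgClosed.exists_pow_nat_eq c₂ hp.pos
  let ε : k →+* Oloc W q := (algebraMap k K).codRestrict _ (algebraMap_mem_Oloc hq)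
  have : CharP (Oloc W q) p := charP_of_injective_ringHom ε.injective p
  set U : Oloc W q := ⟨u, hu⟩ with hU
  set V : Oloc W q := ⟨v, hv⟩ with hV
  set J : Ideal (Oloc W q) := Ideal.span {U - ε d₁ ^ p, V - ε d₂ ^ p} with hJ
  have hU' : ((U - ε d₁ ^ p : Oloc W q) : K) = u - algebraMap k K (d₁ ^ p) := by
    rw [← map_pow]; rfl
  have hV' : ((V - ε d₂ ^ p : Oloc W q) : K) = v - algebraMap k K (d₂ ^ p) := by
    rw [← map_pow]; rfl
  have hJle : J ≤ IsLocalRing.maximalIdeal (Oloc W q) := by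
    rw [hJ, Ideal.span_le]
    rintro x (rfl | rfl)
    · exact (mem_maximalIdeal_Oloc hq _).2 (hU' ▸ hc₁)
    · exact (mem_maximalIdeal_Oloc hq _).2 (hV' ▸ hc₂)
  have hle : IsLocalRing.maximalIdeal (Oloc W q) ≤ J := by
    refine Submodule.le_of_le_smul_of_le_jacobson_bot (I := IsLocalRing.maximalIdeal (Oloc W q))
      (IsNoetherian.noetherian _) (IsLocalRing.maximalIdeal_le_jacobson _) ?_
    intro x hx
    obtain ⟨w, hw, e⟩ := h x x.2
    set w' : Fin p × Fin p → Oloc W q := fun ij => ⟨w ij, hw ij⟩ with hw'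
    have e' : x = ∑ ij : Fin p × Fin p, w' ij ^ p * (U ^ (ij.1 : ℕ) * V ^ (ij.2 : ℕ)) := by
      apply Subtype.ext
      rw [e]
      push_cast
      rfl
    set y : Oloc W q := ∑ ij : Fin p × Fin p, w' ij * (ε d₁ ^ (ij.1 : ℕ) * ε d₂ ^ (ij.2 : ℕ))
      with hy
    have h1 : Ideal.Quotient.mk J U = Ideal.Quotient.mk J (ε d₁ ^ p) :=
      Ideal.Quotient.eq.2 (Ideal.subset_span (by simp))
    have h2 : Ideal.Quotient.mk J V = Ideal.Quotient.mk J (ε d₂ ^ p) :=
      Ideal.Quotient.eq.2 (Ideal.subset_span (by simp))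
    have h3 : x - y ^ p ∈ J := by
      rw [← Ideal.Quotient.eq, e', hy, sum_pow_char, map_sum, map_sum]
      refine Finset.sum_congr rfl fun ij _ => ?_
      simp only [map_mul, map_pow, h1, h2, mul_pow]
      rw [← pow_mul, ← pow_mul, ← pow_mul, ← pow_mul, mul_comm p, mul_comm p]
    have h4 : y ^ p ∈ IsLocalRing.maximalIdeal (Oloc W q) := by
      have := Submodule.sub_mem _ hx (hJle h3)
      rwa [sub_sub_cancel] at this
    have h5 : y ∈ IsLocalRing.maximalIdeal (Oloc W q) :=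
      (IsLocalRing.maximalIdeal.isMaximal _).isPrime.mem_of_pow_mem p h4
    have h6 : y ^ p = y • y ^ (p - 1) := by
      rw [smul_eq_mul, ← pow_succ', Nat.sub_add_cancel hp.pos]
    have h7 : x = (x - y ^ p) + y ^ p := by ring
    rw [h7]
    refine Submodule.add_mem_sup h3 ?_
    rw [h6]
    exact Submodule.smul_mem_smul h5
      (Ideal.pow_mem_of_mem _ h5 _ (Nat.sub_pos_of_lt hp.one_lt))
  refine ⟨_, hc₁, _, hc₂, fun x hx => ?_⟩
  have h1 := hle ((mem_maximalIdeal_Oloc hq ⟨x, mloc_subset hq hx⟩).2 hx)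
  obtain ⟨α, β, e⟩ := Ideal.mem_span_pair.1 h1
  refine ⟨α, α.2, β, β.2, ?_⟩
  rw [← hU', ← hV']
  exact (congrArg Subtype.val e).symm

end Pool.Agent.Lib.MP_cf0da3_ag
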