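import Pool.Agent.Lib.MP_cf0da3_ag.ChartsA
import Pool.Agent.Lib.MP_cf0da3_ag.Local

/-! Laurent monomials in the local rings of the surface. -/

namespace Pool.Agent.Lib.MP_cf0da3_ag

theorem exists_pSubalgebra {k K : Type*} [Field k] [Field K] [Algebra k K] [IsAlgClosed k]
    (p : ℕ) [Fact p.Prime] [CharP k p] (O : Subring K) (hk : ∀ a : k, algebraMap k K a ∈ O)
    {u v : K} (hu : u ∈ O) (hv : v ∈ O) :
    ∃ B : Subalgebra k K, u ∈ B ∧ v ∈ B ∧ (∀ x ∈ O, x ^ p ∈ B) ∧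
      ∀ x ∈ B, ∃ w : Fin p × Fin p → K, (∀ ij, w ij ∈ O) ∧
        x = ∑ ij : Fin p × Fin p, w ij ^ p * (u ^ (ij.1 : ℕ) * v ^ (ij.2 : ℕ)) := by
  have : CharP K p := charP_of_injective_algebraMap (algebraMap k K).injective p
  have hp : 0 < p := (Fact.out : p.Prime).pos
  let O' : Subring K := O.map (frobenius K p)
  let T : Submodule O' K := Submodule.span O'
    (Set.range fun ij : Fin p × Fin p => u ^ (ij.1 : ℕ) * v ^ (ij.2 : ℕ))
  have hpw : ∀ x ∈ O, ∀ y ∈ T, x ^ p * y ∈ T := fun x hx y hy =>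
    T.smul_mem (⟨x ^ p, x, hx, rfl⟩ : O') hy
  have hmon : ∀ a b : ℕ, u ^ a * v ^ b ∈ T := by
    intro a b
    have h1 : u ^ (a % p) * v ^ (b % p) ∈ T :=
      Submodule.subset_span ⟨(⟨a % p, Nat.mod_lt _ hp⟩, ⟨b % p, Nat.mod_lt _ hp⟩), rfl⟩
    have h2 := hpw (u ^ (a / p) * v ^ (b / p)) (O.mul_mem (O.pow_mem hu _) (O.pow_mem hv _)) _ h1
    have h3 : u ^ a * v ^ b = (u ^ (a / p) * v ^ (b / p)) ^ p * (u ^ (a % p) * v ^ (b % p)) := by
      conv_lhs => rw [← Nat.div_add_mod' a p, ← Nat.div_add_mod' b p]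
      rw [pow_add, pow_add, pow_mul, pow_mul, mul_pow]
      ring
    rwa [h3]
  have h1 : (1 : K) ∈ T := by simpa using hmon 0 0
  have hmul : ∀ x ∈ T, ∀ y ∈ T, x * y ∈ T := by
    intro x hx y hy
    induction hx using Submodule.span_induction with
    | mem x hx =>
      obtain ⟨ij, rfl⟩ := hx
      induction hy using Submodule.span_induction with
      | mem y hy =>
        obtain ⟨ij', rfl⟩ := hy
        have := hmon (ij.1 + ij'.1) (ij.2 + ij'.2)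
        rw [pow_add, pow_add, mul_mul_mul_comm] at this
        exact this
      | zero => rw [mul_zero]; exact T.zero_mem
      | add y z _ _ hy hz => rw [mul_add]; exact T.add_mem hy hz
      | smul a y _ hy => rw [mul_smul_comm]; exact T.smul_mem a hy
    | zero => rw [zero_mul]; exact T.zero_mem
    | add x z _ _ hx hz => rw [add_mul]; exact T.add_mem hx hz
    | smul a x _ hx => rw [smul_mul_assoc]; exact T.smul_mem a hx
  have hpw1 : ∀ x ∈ O, x ^ p ∈ T := fun x hx => by simpa using hpw x hx 1 h1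
  refine ⟨{ carrier := T
            mul_mem' := fun hx hy => hmul _ hx _ hy
            add_mem' := fun hx hy => T.add_mem hx hy
            algebraMap_mem' := fun a => ?_ }, ?_, ?_, hpw1, ?_⟩
  · obtain ⟨b, rfl⟩ := IsAlgClosed.exists_pow_nat_eq a hp
    rw [map_pow]
    exact hpw1 _ (hk b)
  · simpa using hmon 1 0
  · simpa using hmon 0 1
  · intro x hx
    obtain ⟨f, hf⟩ := (Submodule.mem_span_range_iff_exists_fun O').1 hx
    have h2 : ∀ ij, ∃ w ∈ O, w ^ p = (f ij : K) := fun ij => (f ij).2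
    choose w hw hw' using h2
    refine ⟨w, hw, ?_⟩
    rw [← hf]
    refine Finset.sum_congr rfl fun ij _ => ?_
    rw [hw']
    rfl

theorem inv_mem_of_pow_mem {k K : Type*} [Field k] [Field K] [Algebra k K] {p : ℕ} (hp : 0 < p)
    {O : Subring K} {B : Subalgebra k K} (hB : ∀ x ∈ O, x ^ p ∈ B) {x : K} (hx : x ∈ B)
    (hx' : x⁻¹ ∈ O) : x⁻¹ ∈ B := by
  rcases eq_or_ne x 0 with rfl | h0
  · simp
  obtain ⟨n, rfl⟩ := Nat.exists_eq_succ_of_ne_zero hp.ne'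
  have h : x⁻¹ = x ^ n * x⁻¹ ^ (n + 1) := by
    rw [pow_succ, ← mul_assoc, ← mul_pow, mul_inv_cancel₀ h0, one_pow, one_mul]
  rw [h]
  exact B.mul_mem (B.pow_mem hx n) (hB _ hx')

theorem mem_of_pow_seven_mem {k K : Type*} [Field k] [Field K] [Algebra k K] {p : ℕ}
    (hp : p.Prime) (h7 : 7 < p) {O : Subring K} {B : Subalgebra k K} (hB : ∀ x ∈ O, x ^ p ∈ B)
    {x : K} (hx : x ^ 7 ∈ B) (hx' : x⁻¹ ∈ O) : x ∈ B := by
  rcases eq_or_ne x 0 with rfl | h0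
  · simp
  have hc : Nat.Coprime 7 p := (Nat.coprime_primes (by norm_num) hp).2 h7.ne
  obtain ⟨a, -, ha⟩ := Nat.exists_mul_mod_eq_one_of_coprime hc hp.one_lt
  have h1 : 7 * a = 7 * a / p * p + 1 := by
    conv_lhs => rw [← Nat.div_add_mod' (7 * a) p, ha]
  have h : x = (x ^ 7) ^ a * (x⁻¹ ^ (7 * a / p)) ^ p := by
    rw [← pow_mul, ← pow_mul]
    generalize 7 * a / p = b at h1
    rw [h1, pow_succ, mul_right_comm, ← mul_pow, mul_inv_cancel₀ h0, one_pow, one_mul]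
  rw [h]
  exact B.mul_mem (B.pow_mem hx a) (hB _ (O.pow_mem hx' _))

theorem zpow_mem_of_inv_mem {k K : Type*} [Field k] [Field K] [Algebra k K]
    {B : Subalgebra k K} {x : K} (hx : x ∈ B) (hx' : x⁻¹ ∈ B) (n : ℤ) : x ^ n ∈ B := by
  rcases n with n | n
  · simpa using B.pow_mem hx n
  · rw [zpow_negSucc, ← inv_pow]
    exact B.pow_mem hx' _

/-- Exponent vectors of degree zero at every vertex. -/
def Deg0 (e : Fin 10 → ℤ) : Prop :=
  e 0 + e 1 + e 2 + e 3 = 0 ∧ e 0 + e 4 + e 5 + e 6 = 0 ∧ e 1 + e 4 + e 7 + e 8 = 0 ∧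
  e 2 + e 5 + e 7 + e 9 = 0 ∧ e 3 + e 6 + e 8 + e 9 = 0

theorem Deg0.neg {e : Fin 10 → ℤ} (h : Deg0 e) : Deg0 (-e) := by
  obtain ⟨h0, h1, h2, h3, h4⟩ := h
  simp only [Deg0, Pi.neg_apply]
  omega

theorem Reg.deg0_sub {m : ℕ} {c c' : Fin 10 → ℕ} (h : Reg m c) (h' : Reg m c') :
    Deg0 ((fun i => (c i : ℤ)) - fun i => (c' i : ℤ)) := by
  obtain ⟨h0, h1, h2, h3, h4⟩ := h
  obtain ⟨g0, g1, g2, g3, g4⟩ := h'
  simp only [Deg0, Pi.sub_apply]
  omega

theorem cperm_pos_iff (σ : Equiv.Perm (Fin 5)) (e : Fin 10) :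
    0 < cperm σ e ↔ σ (src e) = tgt e ∨ σ (tgt e) = src e := by
  unfold cperm
  split_ifs with h1 h2 h2 <;> simp [h1, h2]

namespace Cfg

variable {K : Type} [Field K] (C : Cfg K)

/-- The Laurent monomial attached to an integral exponent vector. -/
def zl (e : Fin 10 → ℤ) : K := ∏ i, C.z (src i) (tgt i) ^ e i

theorem zl_add (e e' : Fin 10 → ℤ) : C.zl (e + e') = C.zl e * C.zl e' := by
  unfold zl
  rw [← Finset.prod_mul_distrib]
  exact Finset.prod_congr rfl fun i _ => zpow_add₀ (C.ne _ _ (src_ne_tgt i)) _ _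

theorem zl_neg (e : Fin 10 → ℤ) : C.zl (-e) = (C.zl e)⁻¹ := by
  unfold zl
  rw [← Finset.prod_inv_distrib]
  exact Finset.prod_congr rfl fun i _ => zpow_neg _ _

theorem zl_sub (e e' : Fin 10 → ℤ) : C.zl (e - e') = C.zl e / C.zl e' := by
  rw [sub_eq_add_neg, zl_add, zl_neg, div_eq_mul_inv]

theorem zl_zsmul (n : ℤ) (e : Fin 10 → ℤ) : C.zl (n • e) = C.zl e ^ n := by
  unfold zl
  rw [← Finset.prod_zpow]
  refine Finset.prod_congr rfl fun i _ => ?_
  rw [Pi.smul_apply, smul_eq_mul, mul_comm, zpow_mul]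

theorem zl_natCast (c : Fin 10 → ℕ) : C.zl (fun i => (c i : ℤ)) = C.zmon c := by
  unfold zl zmon
  exact Finset.prod_congr rfl fun i _ => zpow_natCast _ _

theorem zl_ne_zero (e : Fin 10 → ℤ) : C.zl e ≠ 0 :=
  Finset.prod_ne_zero_iff.mpr fun i _ => zpow_ne_zero _ (C.ne _ _ (src_ne_tgt i))

theorem zl_eq (e : Fin 10 → ℤ) : C.zl e = C.z 0 1 ^ e 0 * C.z 0 2 ^ e 1 * C.z 0 3 ^ e 2 *
    C.z 0 4 ^ e 3 * C.z 1 2 ^ e 4 * C.z 1 3 ^ e 5 * C.z 1 4 ^ e 6 * C.z 2 3 ^ e 7 *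
    C.z 2 4 ^ e 8 * C.z 3 4 ^ e 9 := by
  unfold zl
  simp only [Fin.prod_univ_castSucc, Fin.prod_univ_zero, one_mul]
  rfl

variable {k : Type} [Field k] [Algebra k K] {c : K} {q : ℤ → Submodule k K}

/-- The edge `i j` is used by a coordinate that does not vanish at `q`. -/
def Usd (c : K) (q : ℤ → Submodule k K) (i j : Fin 5) : Prop :=
  ∃ σ : Equiv.Perm (Fin 5), c * C.xs σ ∉ q 1 ∧ (σ i = j ∨ σ j = i)

theorem Usd.symm {C : Cfg K} {i j : Fin 5} (h : C.Usd c q i j) : C.Usd c q j i := by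
  obtain ⟨σ, h1, h2⟩ := h
  exact ⟨σ, h1, h2.symm⟩

theorem relabel_Usd (π : Equiv.Perm (Fin 5)) (i j : Fin 5) :
    (C.relabel π).Usd c q i j ↔ C.Usd c q (π i) (π j) := by
  constructor
  · rintro ⟨σ, h1, h2⟩
    rw [relabel_xs] at h1
    exact ⟨_, h1, by simpa using h2⟩
  · rintro ⟨σ, h1, h2⟩
    refine ⟨π⁻¹ * σ * π, ?_, ?_⟩
    · rw [relabel_xs]
      simpa [mul_assoc] using h1
    · simpa [Equiv.symm_apply_eq] using h2

theorem xs_mem (c : K) (σ : Equiv.Perm (Fin 5)) : c * C.xs σ ∈ C.Wc k c :=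
  Submodule.subset_span ⟨σ, rfl⟩

theorem derange_of_notMem {σ : Equiv.Perm (Fin 5)} (h : c * C.xs σ ∉ q 1) : ∀ i, σ i ≠ i := by
  by_contra h1
  rw [C.xs_eq_zero h1, mul_zero] at h
  exact h (Submodule.zero_mem _)

theorem mon_mem {m : ℕ} {e : Fin 10 → ℕ} (he : Reg m e) :
    c ^ m * C.zmon e ∈ Rg (C.Wc k c) m := by
  rw [Rg_natCast, Wc_pow_eq_span]
  exact Submodule.subset_span ⟨e, he, rfl⟩

theorem mon_succ {σ : Equiv.Perm (Fin 5)} (hσ : ∀ i, σ i ≠ i) (c : K) (m : ℕ)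
    (e : Fin 10 → ℕ) :
    c ^ (m + 1) * C.zmon (e + cperm σ) = c ^ m * C.zmon e * (c * C.xs σ) ∨
    c ^ (m + 1) * C.zmon (e + cperm σ) = - (c ^ m * C.zmon e * (c * C.xs σ)) := by
  obtain ⟨ε, hε, hs⟩ := exists_sign hσ
  rw [hs, C.zmon_add]
  rcases hε with rfl | rfl
  · left; push_cast; ring
  · right; push_cast; ring

theorem mon_mem_q (hq : IsPrimeFam (C.Wc k c) q) (m : ℕ) : ∀ e : Fin 10 → ℕ, Reg m e →
    ∀ i, ¬ C.Usd c q (src i) (tgt i) → 0 < e i → c ^ m * C.zmon e ∈ q m := by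
  induction m with
  | zero =>
    intro e he i _ hi
    rw [he.eq_zero] at hi
    exact absurd hi (lt_irrefl _)
  | succ m ih =>
    intro e he i hu hi
    obtain ⟨σ, e', hσ, he', rfl⟩ := petersen he
    have key : c ^ m * C.zmon e' * (c * C.xs σ) ∈ q ((m + 1 : ℕ) : ℤ) := by
      rw [Nat.cast_succ]
      by_cases h1 : 0 < e' i
      · have := hq.mul_mem_left (mem_Rg_one (C.xs_mem c σ)) (ih e' he' i hu h1)
        rwa [mul_comm, add_comm] at this
      · have h2 : 0 < cperm σ i := by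
          rw [Pi.add_apply] at hi
          omega
        have h3 : c * C.xs σ ∈ q 1 := by
          by_contra h3
          exact hu ⟨σ, h3, (cperm_pos_iff σ i).1 h2⟩
        exact hq.mul_mem_left (C.mon_mem he') h3
    rcases C.mon_succ hσ c m e' with h | h <;> rw [h]
    · exact key
    · exact Submodule.neg_mem _ key

theorem exists_big (hq : IsPrimeFam (C.Wc k c) q) : ∃ (n : ℕ) (P : Fin 10 → ℕ), Reg n P ∧
    c ^ n * C.zmon P ∉ q n ∧ ∀ i, C.Usd c q (src i) (tgt i) → 1 ≤ P i := by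
  classical
  suffices h : ∀ s : Finset (Fin 10), ∃ (n : ℕ) (P : Fin 10 → ℕ), Reg n P ∧
      c ^ n * C.zmon P ∉ q n ∧ ∀ i ∈ s, C.Usd c q (src i) (tgt i) → 1 ≤ P i by
    obtain ⟨n, P, h1, h2, h3⟩ := h Finset.univ
    exact ⟨n, P, h1, h2, fun i => h3 i (Finset.mem_univ _)⟩
  intro s
  induction s using Finset.induction_on with
  | empty => exact ⟨0, 0, reg_zero, by simpa [C.zmon_zero] using hq.one_notMem, by simp⟩
  | insert j s _ ih =>
    obtain ⟨n, P, h1, h2, h3⟩ := ih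
    by_cases hj : C.Usd c q (src j) (tgt j)
    · obtain ⟨σ, hσ, hσ'⟩ := hj
      have hd := C.derange_of_notMem hσ
      have key : c ^ n * C.zmon P * (c * C.xs σ) ∉ q ((n + 1 : ℕ) : ℤ) := by
        rw [Nat.cast_succ]
        exact hq.mul_notMem (C.mon_mem h1) (mem_Rg_one (C.xs_mem c σ)) h2 hσ
      refine ⟨n + 1, P + cperm σ, h1.add (reg_cperm hd), ?_, fun i hi hu => ?_⟩
      · rcases C.mon_succ hd c n P with h | h <;> rw [h]
        · exact key
        · rwa [Submodule.neg_mem_iff]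
      · rw [Pi.add_apply]
        rcases Finset.mem_insert.1 hi with rfl | hi
        · have := (cperm_pos_iff σ i).2 hσ'
          omega
        · have := h3 i hi hu
          omega
    · refine ⟨n, P, h1, h2, fun i hi hu => ?_⟩
      rcases Finset.mem_insert.1 hi with rfl | hi
      · exact absurd hu hj
      · exact h3 i hi hu

theorem zl_clear (hq : IsPrimeFam (C.Wc k c) q) {e : Fin 10 → ℤ} (he : Deg0 e)
    (h0 : ∀ i, ¬ C.Usd c q (src i) (tgt i) → 0 ≤ e i) :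
    ∃ (M : ℕ) (h : K) (e' : Fin 10 → ℕ), h ∈ Rg (C.Wc k c) M ∧ h ∉ q M ∧ Reg M e' ∧
      h * C.zl e = c ^ M * C.zmon e' ∧ ∀ i, e i ≤ e' i := by
  obtain ⟨n, P, h1, h2, h3⟩ := C.exists_big hq
  set N : ℕ := ∑ i, (e i).natAbs with hN
  have hN' : ∀ i, (e i).natAbs ≤ N := fun i =>
    Finset.single_le_sum (f := fun i => (e i).natAbs) (fun _ _ => Nat.zero_le _)
      (Finset.mem_univ i)
  have hpos : ∀ i, 0 ≤ e i + N * P i := by
    intro i
    by_cases hu : C.Usd c q (src i) (tgt i)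
    · have a1 : (N : ℤ) * 1 ≤ N * P i :=
        mul_le_mul_of_nonneg_left (by exact_mod_cast h3 i hu) (Int.natCast_nonneg _)
      have a2 := hN' i
      omega
    · exact add_nonneg (h0 i hu) (by positivity)
  have hcast : ∀ i, (((e i + N * P i).toNat : ℕ) : ℤ) = e i + N * P i :=
    fun i => Int.toNat_of_nonneg (hpos i)
  refine ⟨N * n, (c ^ n * C.zmon P) ^ N, fun i => (e i + N * P i).toNat, ?_, ?_, ?_, ?_, ?_⟩
  · rw [Nat.cast_mul]
    exact pow_mem_Rg (C.mon_mem h1) N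
  · rw [Nat.cast_mul]
    exact hq.pow_notMem (C.mon_mem h1) h2 N
  · obtain ⟨a0, a1, a2, a3, a4⟩ := he
    obtain ⟨b0, b1, b2, b3, b4⟩ := h1
    zify at b0 b1 b2 b3 b4
    refine ⟨?_, ?_, ?_, ?_, ?_⟩ <;> zify <;> simp only [hcast]
    · linear_combination a0 + (N : ℤ) * b0
    · linear_combination a1 + (N : ℤ) * b1
    · linear_combination a2 + (N : ℤ) * b2
    · linear_combination a3 + (N : ℤ) * b3
    · linear_combination a4 + (N : ℤ) * b4
  · have h4 : (fun i => (((e i + N * P i).toNat : ℕ) : ℤ)) = e + (N : ℤ) • fun i => (P i : ℤ) :=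
      funext fun i => hcast i
    rw [← C.zl_natCast fun i => (e i + N * P i).toNat, h4, zl_add, zl_zsmul, zl_natCast,
      zpow_natCast, mul_pow, ← pow_mul, mul_comm n N]
    ring
  · intro i
    rw [hcast]
    exact le_add_of_nonneg_right (by positivity)

theorem zl_mem_Oloc (hq : IsPrimeFam (C.Wc k c) q) {e : Fin 10 → ℤ} (he : Deg0 e)
    (h0 : ∀ i, ¬ C.Usd c q (src i) (tgt i) → 0 ≤ e i) : C.zl e ∈ Oloc (C.Wc k c) q := by
  obtain ⟨M, h, e', h1, h2, h3, h4, -⟩ := C.zl_clear hq he h0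
  exact (mem_Oloc hq).2 ⟨M, h, h1, h2, h4 ▸ C.mon_mem h3⟩

theorem zl_mem_mloc (hq : IsPrimeFam (C.Wc k c) q) {e : Fin 10 → ℤ} (he : Deg0 e)
    (h0 : ∀ i, ¬ C.Usd c q (src i) (tgt i) → 0 ≤ e i) {j : Fin 10}
    (hj : ¬ C.Usd c q (src j) (tgt j)) (hj' : 0 < e j) : C.zl e ∈ mloc (C.Wc k c) q := by
  obtain ⟨M, h, e', h1, h2, h3, h4, h5⟩ := C.zl_clear hq he h0
  have h6 : 0 < e' j := by
    have := h5 j
    omega
  exact ⟨M, h, h1, h2, h4 ▸ C.mon_mem_q hq M e' h3 j hj h6⟩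

theorem usd_plucker (hq : IsPrimeFam (C.Wc k c) q) (h01 : C.Usd c q 0 1) (h23 : C.Usd c q 2 3) :
    (C.Usd c q 0 2 ∧ C.Usd c q 1 3) ∨ (C.Usd c q 0 3 ∧ C.Usd c q 1 2) := by
  by_contra hcon
  rw [not_or, not_and_or, not_and_or] at hcon
  obtain ⟨ha, hb⟩ := hcon
  have hnn : ∀ e : Fin 10 → ℤ, (∀ i, i ≠ 0 → i ≠ 7 → 0 ≤ e i) →
      ∀ i, ¬ C.Usd c q (src i) (tgt i) → 0 ≤ e i := by
    intro e he i hi
    refine he i ?_ ?_
    · rintro rfl
      exact hi h01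
    · rintro rfl
      exact hi h23
  have m1 : C.zl ![-7, 7, 0, 0, 0, 7, 0, -7, 0, 0] ∈ mloc (C.Wc k c) q := by
    rcases ha with h | h
    · exact C.zl_mem_mloc hq (by unfold Deg0; decide) (hnn _ (by decide)) (j := 1) h (by decide)
    · exact C.zl_mem_mloc hq (by unfold Deg0; decide) (hnn _ (by decide)) (j := 5) h (by decide)
  have m2 : C.zl ![-7, 0, 7, 0, 7, 0, 0, -7, 0, 0] ∈ mloc (C.Wc k c) q := by
    rcases hb with h | h
    · exact C.zl_mem_mloc hq (by unfold Deg0; decide) (hnn _ (by decide)) (j := 2) h (by decide)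
    · exact C.zl_mem_mloc hq (by unfold Deg0; decide) (hnn _ (by decide)) (j := 4) h (by decide)
  have m3 := add_mem_mloc hq m1 (mul_mem_mloc hq (Subring.neg_mem _ (Subring.one_mem _)) m2)
  have h1 : C.zl ![-7, 7, 0, 0, 0, 7, 0, -7, 0, 0] + -1 * C.zl ![-7, 0, 7, 0, 7, 0, 0, -7, 0, 0]
      = 1 := by
    have a1 := C.ne 0 1 (by decide)
    have a2 := C.ne 2 3 (by decide)
    simp only [zl_eq, Matrix.cons_val, zpow_neg, zpow_ofNat]
    field_simp
    linear_combination - C.plucker 0 1 2 3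
  rw [h1] at m3
  exact one_notMem_mloc hq m3

end Cfg

theorem comb_bool : ∀ S : Fin 10 → Bool,
    (∀ π : Equiv.Perm (Fin 5), S (edg (π 0) (π 1)) = true → S (edg (π 2) (π 3)) = true →
      (S (edg (π 0) (π 2)) = true ∧ S (edg (π 1) (π 3)) = true) ∨
      (S (edg (π 0) (π 3)) = true ∧ S (edg (π 1) (π 2)) = true)) →
    (∃ σ : Equiv.Perm (Fin 5), ∀ i, σ i ≠ i ∧ S (edg i (σ i)) = true) →
    ∃ π : Equiv.Perm (Fin 5), ∀ e, e ≠ 0 → e ≠ 7 →
      S (edg (π (src e)) (π (tgt e))) = true := by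
  decide +kernel

theorem comb_rel (R : Fin 5 → Fin 5 → Prop) (hs : ∀ i j, R i j → R j i)
    (hP : ∀ π : Equiv.Perm (Fin 5), R (π 0) (π 1) → R (π 2) (π 3) →
      (R (π 0) (π 2) ∧ R (π 1) (π 3)) ∨ (R (π 0) (π 3) ∧ R (π 1) (π 2)))
    (hσ : ∃ σ : Equiv.Perm (Fin 5), ∀ i, σ i ≠ i ∧ R i (σ i)) :
    ∃ π : Equiv.Perm (Fin 5), ∀ e, e ≠ 0 → e ≠ 7 → R (π (src e)) (π (tgt e)) := by
  classical
  have key : ∀ i j, i ≠ j → (decide (R (src (edg i j)) (tgt (edg i j))) = true ↔ R i j) := by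
    intro i j hij
    rw [decide_eq_true_iff]
    rcases edg_spec i j hij with ⟨a, b⟩ | ⟨a, b⟩ <;> rw [a, b]
    exact ⟨hs _ _, hs _ _⟩
  obtain ⟨π, hπ⟩ := comb_bool (fun e => decide (R (src e) (tgt e))) (fun π => by
    rw [key _ _ (π.injective.ne (by decide)), key _ _ (π.injective.ne (by decide)),
      key _ _ (π.injective.ne (by decide)), key _ _ (π.injective.ne (by decide)),
      key _ _ (π.injective.ne (by decide)), key _ _ (π.injective.ne (by decide))]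
    exact hP π) (by
    obtain ⟨σ, h⟩ := hσ
    exact ⟨σ, fun i => ⟨(h i).1, (key _ _ (h i).1.symm).2 (h i).2⟩⟩)
  exact ⟨π, fun e h0 h7 => (key _ _ (π.injective.ne (src_ne_tgt e))).1 (hπ e h0 h7)⟩

end Pool.Agent.Lib.MP_cf0da3_ag
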