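import Pool.Agent.Lib.MP_cf0da3_ag.CfgBasic
import Pool.Agent.Lib.MP_cf0da3_ag.Local
import Pool.Agent.Lib.MP_cf0da3_ag.ChartsB

/-! Local coordinates on the surface: smoothness and the canonical class. -/

namespace Pool.Agent.Lib.MP_cf0da3_ag

open Module Filter

/-- A five-cycle avoiding the edges `01` and `23`. -/
def tau : Equiv.Perm (Fin 5) := ⟨![2, 3, 1, 4, 0], ![4, 2, 0, 1, 3], by decide, by decide⟩

theorem tau_ne : ∀ i, tau i ≠ i := by decide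

theorem cperm_tau : cperm tau = ![0, 1, 0, 1, 1, 1, 0, 0, 0, 1] := by decide

theorem Deg0.eq_comb {e : Fin 10 → ℤ} (h : Deg0 e) :
    e = e 0 • ![1, -1, 0, 0, 0, 0, -1, 0, 1, 0] + e 7 • ![0, -1, 0, 1, 0, 0, 0, 1, 0, -1] +
      e 4 • ![0, -1, 0, 1, 1, 0, -1, 0, 0, 0] + e 2 • ![0, -1, 1, 0, 0, 0, 0, 0, 1, -1] +
      e 5 • ![0, -1, 0, 1, 0, 1, -1, 0, 1, -1] := by
  obtain ⟨h0, h1, h2, h3, h4⟩ := h
  funext i
  fin_cases i <;> simp <;> omega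

namespace Cfg

variable {K : Type} [Field K] (C : Cfg K)

theorem xs_tau : C.xs tau = C.z 0 2 * C.z 0 4 * C.z 1 2 * C.z 1 3 * C.z 3 4 := by
  unfold xs
  rw [Fin.prod_univ_five]
  change C.z 0 2 * C.z 1 3 * C.z 2 1 * C.z 3 4 * C.z 4 0 = _
  rw [C.anti 1 2, C.anti 0 4]
  ring

theorem xs_tau_eq : C.xs tau = C.zmon (cperm tau) := by
  rw [← zl_natCast, zl_eq, xs_tau, cperm_tau]
  simp

theorem uu_eq : C.zl ![1, -1, 0, 0, 0, 0, -1, 0, 1, 0] = C.uu := by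
  simp only [zl_eq, Matrix.cons_val, zpow_neg, zpow_ofNat, uu]
  ring

theorem vv_eq : C.zl ![0, -1, 0, 1, 0, 0, 0, 1, 0, -1] = C.vv := by
  simp only [zl_eq, Matrix.cons_val, zpow_neg, zpow_ofNat, vv]
  ring

theorem gamma_pow : C.zl ![0, -1, 0, 1, 1, 0, -1, 0, 0, 0] ^ 7 = 1 - C.uu ^ 7 := by
  have a1 := C.ne 0 2 (by decide)
  have a2 := C.ne 1 4 (by decide)
  simp only [zl_eq, Matrix.cons_val, zpow_neg, zpow_ofNat, uu]
  field_simp
  linear_combination C.plucker 0 1 2 4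

theorem delta_pow : C.zl ![0, -1, 1, 0, 0, 0, 0, 0, 1, -1] ^ 7 = 1 + C.vv ^ 7 := by
  have a1 := C.ne 0 2 (by decide)
  have a2 := C.ne 3 4 (by decide)
  simp only [zl_eq, Matrix.cons_val, zpow_neg, zpow_ofNat, vv]
  field_simp
  linear_combination - C.plucker 0 2 3 4

theorem eps_pow : C.zl ![0, -1, 0, 1, 0, 1, -1, 0, 1, -1] ^ 7 = 1 + C.vv ^ 7 - C.uu ^ 7 := by
  have a1 := C.ne 0 2 (by decide)
  have a2 := C.ne 3 4 (by decide)
  have a3 := C.ne 1 4 (by decide)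
  simp only [zl_eq, Matrix.cons_val, zpow_neg, zpow_ofNat, uu, vv]
  field_simp
  linear_combination C.z 2 4 ^ 7 * C.plucker 0 1 3 4 - C.z 1 4 ^ 7 * C.plucker 0 2 3 4

theorem ratio {c : K} (hc : c ≠ 0) (σ : Equiv.Perm (Fin 5)) :
    (c * C.xs tau)⁻¹ * (c * C.xs σ) = 0 ∨ ∃ e, Deg0 e ∧ 0 ≤ e 0 ∧ 0 ≤ e 7 ∧
      ((c * C.xs tau)⁻¹ * (c * C.xs σ) = C.zl e ∨
        (c * C.xs tau)⁻¹ * (c * C.xs σ) = - C.zl e) := by
  by_cases hσ : ∀ i, σ i ≠ i
  · right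
    refine ⟨_, (reg_cperm hσ).deg0_sub (reg_cperm tau_ne), ?_, ?_, ?_⟩
    · simp [cperm_tau]
    · simp [cperm_tau]
    · obtain ⟨ε, hε, hs⟩ := exists_sign hσ
      have h0 := C.zmon_ne_zero (cperm tau)
      rw [zl_sub, zl_natCast, zl_natCast, hs, xs_tau_eq]
      rcases hε with rfl | rfl
      · left; push_cast; field_simp
      · right; push_cast; field_simp
  · left
    rw [C.xs_eq_zero hσ, mul_zero, mul_zero]

variable {k : Type} [Field k] [Algebra k K]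

theorem exists_xs_notMem {c : K} {q : ℤ → Submodule k K} (hrel : Relevant (C.Wc k c) q) :
    ∃ σ, c * C.xs σ ∉ q 1 := by
  by_contra h
  push Not at h
  obtain ⟨g, hg, hg'⟩ := hrel
  have h1 : C.Wc k c ≤ q 1 := by
    rw [Wc, Submodule.span_le]
    rintro _ ⟨σ, rfl⟩
    exact h σ
  exact hg' (h1 hg)

theorem jac_eq {c : K} (hc : c ≠ 0) (h49 : (49 : K) ≠ 0) (D₁ D₂ : Derivation k K K) :
    D₁ C.uu * D₂ C.vv - D₂ C.uu * D₁ C.vv =
      49⁻¹ * C.zl ![0, -8, 6, 2, 1, 1, -2, 0, 7, -7] * (c * C.xs tau) ^ 5 * C.j0 c D₁ D₂ := by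
  have a0 := C.ne 0 1 (by decide)
  have a1 := C.ne 0 2 (by decide)
  have a2 := C.ne 0 3 (by decide)
  have a3 := C.ne 0 4 (by decide)
  have a4 := C.ne 1 2 (by decide)
  have a5 := C.ne 1 3 (by decide)
  have a6 := C.ne 1 4 (by decide)
  have a7 := C.ne 2 3 (by decide)
  have a8 := C.ne 2 4 (by decide)
  have a9 := C.ne 3 4 (by decide)
  have h := C.jac_uv D₁ D₂
  have h0 : 49 * (C.z 0 1 ^ 7 * C.z 1 4 ^ 7 * C.z 2 3 ^ 7 * C.z 0 2 ^ 7 * C.z 3 4 ^ 7) ≠ 0 := by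
    simp [*]
  apply mul_left_cancel₀ h0
  rw [mul_right_comm, h]
  simp only [zl_eq, Matrix.cons_val, zpow_neg, zpow_ofNat, uu, vv, xs_tau, j0, Z6]
  field_simp

theorem chart_std [IsAlgClosed k] (p : ℕ) [Fact p.Prime] [CharP k p] (hp : 7 < p) {c : K}
    (hc : c ≠ 0) {q : ℤ → Submodule k K} (hq : IsPrimeFam (C.Wc k c) q)
    (hrel : Relevant (C.Wc k c) q)
    (hU : ∀ e, e ≠ 0 → e ≠ 7 → C.Usd c q (src e) (tgt e)) : ∃ u v g c' : K,
      u ∈ Oloc (C.Wc k c) q ∧ v ∈ Oloc (C.Wc k c) q ∧ g ∈ C.Wc k c ∧ g ∉ q 1 ∧ c' ≠ 0 ∧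
      c' ∈ Oloc (C.Wc k c) q ∧ c'⁻¹ ∈ Oloc (C.Wc k c) q ∧
      (∀ x ∈ Oloc (C.Wc k c) q, ∃ w : Fin p × Fin p → K, (∀ ij, w ij ∈ Oloc (C.Wc k c) q) ∧
        x = ∑ ij : Fin p × Fin p, w ij ^ p * (u ^ (ij.1 : ℕ) * v ^ (ij.2 : ℕ))) ∧
      ∀ D₁ D₂ : Derivation k K K, D₁ u * D₂ v - D₂ u * D₁ v = c' * g ^ 5 * C.j0 c D₁ D₂ := by
  have hpp : p.Prime := Fact.out
  have hO : ∀ e, Deg0 e → 0 ≤ e 0 → 0 ≤ e 7 → C.zl e ∈ Oloc (C.Wc k c) q := by
    intro e he h0 h7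
    refine C.zl_mem_Oloc hq he fun i hi => ?_
    by_cases i0 : i = 0
    · rwa [i0]
    by_cases i7 : i = 7
    · rwa [i7]
    exact absurd (hU i i0 i7) hi
  have hO' : ∀ e, Deg0 e → e 0 = 0 → e 7 = 0 → (C.zl e)⁻¹ ∈ Oloc (C.Wc k c) q := by
    intro e he h0 h7
    rw [← zl_neg]
    exact hO _ he.neg (by simp [h0]) (by simp [h7])
  have hu : C.uu ∈ Oloc (C.Wc k c) q :=
    C.uu_eq ▸ hO _ (by unfold Deg0; decide) (by decide) (by decide)
  have hv : C.vv ∈ Oloc (C.Wc k c) q :=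
    C.vv_eq ▸ hO _ (by unfold Deg0; decide) (by decide) (by decide)
  have hg : c * C.xs tau ∈ C.Wc k c := C.xs_mem c tau
  have hg0 : c * C.xs tau ≠ 0 := mul_ne_zero hc (C.xs_tau_eq ▸ C.zmon_ne_zero _)
  have hg' : c * C.xs tau ∉ q 1 := by
    intro hgq
    obtain ⟨σ, hσ⟩ := C.exists_xs_notMem hrel
    have h1 := (div_mem_mloc_iff hq (mem_Rg_one hg) (mem_Rg_one (C.xs_mem c σ)) hσ).2 hgq
    have h2 : (c * C.xs tau)⁻¹ * (c * C.xs σ) ∈ Oloc (C.Wc k c) q := by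
      rcases C.ratio hc σ with h | ⟨e, he, h0, h7, h | h⟩ <;> rw [h]
      · exact Subring.zero_mem _
      · exact hO e he h0 h7
      · exact Subring.neg_mem _ (hO e he h0 h7)
    have h3 := mul_mem_mloc hq h2 h1
    have h4 := ne_zero_of_notMem_fam hσ
    rw [div_eq_mul_inv, mul_mul_mul_comm, inv_mul_cancel₀ hg0, mul_inv_cancel₀ h4, one_mul] at h3
    exact one_notMem_mloc hq h3
  have h7 : (7 : k) ≠ 0 := by
    intro h0
    have h1 : ((7 : ℕ) : k) = 0 := by exact_mod_cast h0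
    rw [CharP.cast_eq_zero_iff k p] at h1
    exact absurd (Nat.le_of_dvd (by norm_num) h1) (by omega)
  have h49k : (49 : k) ≠ 0 := by
    have : (49 : k) = 7 * 7 := by norm_num
    rw [this]
    exact mul_ne_zero h7 h7
  have h49 : algebraMap k K 49 = 49 := map_ofNat _ _
  have h49K : (49 : K) ≠ 0 := by
    rw [← h49]
    exact (map_ne_zero _).2 h49k
  have hd : Deg0 ![0, -8, 6, 2, 1, 1, -2, 0, 7, -7] := by unfold Deg0; decide
  refine ⟨C.uu, C.vv, c * C.xs tau, 49⁻¹ * C.zl ![0, -8, 6, 2, 1, 1, -2, 0, 7, -7], hu, hv, hg,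
    hg', mul_ne_zero (inv_ne_zero h49K) (C.zl_ne_zero _), ?_, ?_, ?_, C.jac_eq hc h49K⟩
  · refine Subring.mul_mem _ ?_ (hO _ hd (by decide) (by decide))
    rw [← h49, ← map_inv₀]
    exact algebraMap_mem_Oloc hq _
  · rw [mul_inv, inv_inv]
    refine Subring.mul_mem _ ?_ (hO' _ hd (by decide) (by decide))
    rw [← h49]
    exact algebraMap_mem_Oloc hq _
  · obtain ⟨B, huB, hvB, hpB, hB⟩ := exists_pSubalgebra p (Oloc (C.Wc k c) q)
      (algebraMap_mem_Oloc hq) hu hv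
    have hunit : ∀ e, Deg0 e → e 0 = 0 → e 7 = 0 → C.zl e ^ 7 ∈ B → ∀ n : ℤ, C.zl e ^ n ∈ B := by
      intro e he h0 h7 h n
      have h1 := mem_of_pow_seven_mem hpp hp hpB h (hO' e he h0 h7)
      exact zpow_mem_of_inv_mem h1 (inv_mem_of_pow_mem hpp.pos hpB h1 (hO' e he h0 h7)) n
    have hu7 := B.pow_mem huB 7
    have hv7 := B.pow_mem hvB 7
    have hzl : ∀ e, Deg0 e → 0 ≤ e 0 → 0 ≤ e 7 → C.zl e ∈ B := by
      intro e he h0 h7
      rw [he.eq_comb]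
      simp only [zl_add, zl_zsmul, uu_eq, vv_eq]
      refine B.mul_mem (B.mul_mem (B.mul_mem (B.mul_mem ?_ ?_) ?_) ?_) ?_
      · rw [← Int.toNat_of_nonneg h0, zpow_natCast]
        exact B.pow_mem huB _
      · rw [← Int.toNat_of_nonneg h7, zpow_natCast]
        exact B.pow_mem hvB _
      · refine hunit _ (by unfold Deg0; decide) (by decide) (by decide) ?_ _
        rw [gamma_pow]
        exact B.sub_mem B.one_mem hu7
      · refine hunit _ (by unfold Deg0; decide) (by decide) (by decide) ?_ _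
        rw [delta_pow]
        exact B.add_mem B.one_mem hv7
      · refine hunit _ (by unfold Deg0; decide) (by decide) (by decide) ?_ _
        rw [eps_pow]
        exact B.sub_mem (B.add_mem B.one_mem hv7) hu7
    have hW : ∀ w ∈ C.Wc k c, (c * C.xs tau)⁻¹ * w ∈ B := by
      intro w hw
      unfold Wc at hw
      induction hw using Submodule.span_induction with
      | mem x hx =>
        obtain ⟨σ, rfl⟩ := hx
        rcases C.ratio hc σ with h | ⟨e, he, h0, h7, h | h⟩ <;> rw [h]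
        · exact B.zero_mem
        · exact hzl e he h0 h7
        · exact B.neg_mem (hzl e he h0 h7)
      | zero => rw [mul_zero]; exact B.zero_mem
      | add x y _ _ hx hy => rw [mul_add]; exact B.add_mem hx hy
      | smul a x _ hx => rw [mul_smul_comm]; exact B.smul_mem hx a
    intro x hx
    apply hB
    obtain ⟨a, h, hh, hh', hxa⟩ := (mem_Oloc hq).1 hx
    have h0 := ne_zero_of_notMem_fam hh'
    have h1 := zpow_mul_mem_of_forall hg0 hW hh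
    have h2 := zpow_mul_mem_of_forall hg0 hW hxa
    have h3 : ((c * C.xs tau) ^ (-a) * h)⁻¹ ∈ Oloc (C.Wc k c) q := by
      rw [mul_inv, zpow_neg, inv_inv, ← div_eq_mul_inv]
      exact zpow_div_mem_Oloc hq hg hh hh'
    have h4 := B.mul_mem (inv_mem_of_pow_mem hpp.pos hpB h1 h3) h2
    rwa [← mul_assoc _ h x, ← mul_assoc, inv_mul_cancel₀ (mul_ne_zero (zpow_ne_zero _ hg0) h0),
      one_mul] at h4

theorem exists_relabel {c : K} {q : ℤ → Submodule k K} (hq : IsPrimeFam (C.Wc k c) q)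
    (hrel : Relevant (C.Wc k c) q) : ∃ π : Equiv.Perm (Fin 5),
      ∀ e, e ≠ 0 → e ≠ 7 → (C.relabel π).Usd c q (src e) (tgt e) := by
  simp only [relabel_Usd]
  refine comb_rel (C.Usd c q) (fun _ _ h => h.symm) (fun π => ?_) ?_
  · simp only [← relabel_Usd]
    refine (C.relabel π).usd_plucker ?_
    rwa [relabel_Wc]
  · obtain ⟨σ, hσ⟩ := C.exists_xs_notMem hrel
    exact ⟨σ, fun i => ⟨C.derange_of_notMem hσ i, σ, hσ, Or.inl rfl⟩⟩

end Cfg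

theorem Cfg.chart {K : Type} [Field K] (C : Cfg K) (k : Type) [Field k] [IsAlgClosed k]
    [Algebra k K] (p : ℕ) [Fact p.Prime] [CharP k p] (hp : 7 < p) {c : K} (hc : c ≠ 0) :
    ∃ j₀ : Derivation k K K → Derivation k K K → K,
    ∀ q, IsPrimeFam (C.Wc k c) q → Relevant (C.Wc k c) q → ∃ u v g c' : K,
      u ∈ Oloc (C.Wc k c) q ∧ v ∈ Oloc (C.Wc k c) q ∧ g ∈ C.Wc k c ∧ g ∉ q 1 ∧ c' ≠ 0 ∧
      c' ∈ Oloc (C.Wc k c) q ∧ c'⁻¹ ∈ Oloc (C.Wc k c) q ∧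
      (∀ x ∈ Oloc (C.Wc k c) q, ∃ w : Fin p × Fin p → K, (∀ ij, w ij ∈ Oloc (C.Wc k c) q) ∧
        x = ∑ ij : Fin p × Fin p, w ij ^ p * (u ^ (ij.1 : ℕ) * v ^ (ij.2 : ℕ))) ∧
      ∀ D₁ D₂ : Derivation k K K, D₁ u * D₂ v - D₂ u * D₁ v = c' * g ^ 5 * j₀ D₁ D₂ := by
  refine ⟨C.j0 c, fun q hq hrel => ?_⟩
  obtain ⟨π, hπ⟩ := C.exists_relabel hq hrel
  obtain ⟨ε, hε, hj⟩ := C.j0_relabel k π c
  have h := (C.relabel π).chart_std p hp hc (by rwa [Cfg.relabel_Wc]) (by rwa [Cfg.relabel_Wc]) hπ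
  rw [Cfg.relabel_Wc] at h
  obtain ⟨u, v, g, c', h1, h2, h3, h4, h5, h6, h7, h8, h9⟩ := h
  rcases hε with rfl | rfl
  · exact ⟨u, v, g, c', h1, h2, h3, h4, h5, h6, h7, h8, fun D₁ D₂ => by rw [h9, hj, one_mul]⟩
  · refine ⟨u, v, g, -c', h1, h2, h3, h4, neg_ne_zero.2 h5, Subring.neg_mem _ h6, ?_, h8,
      fun D₁ D₂ => by rw [h9, hj]; ring⟩
    rw [inv_neg]
    exact Subring.neg_mem _ h7

end Pool.Agent.Lib.MP_cf0da3_ag
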