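import Pool.Agent.Lib.MP_cf0da3_ag.CfgBasic

/-! Algebraic identities for the charts: the canonical form and relabelling. -/

namespace Pool.Agent.Lib.MP_cf0da3_ag

section Poly

variable {R : Type*} [CommRing R]

/-- The bracket of two points. -/
def br (a b : Fin 5 → R) (i j : Fin 5) : R := a i * b j - a j * b i

/-- The contraction of the volume form of five points with the Lie algebra of `SL 2`. -/
def om (a b t s : Fin 5 → R) : R :=
  (t 0 * s 1 - t 1 * s 0) * (br a b 2 3 * br a b 3 4 * br a b 4 2)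
  - (t 0 * s 2 - t 2 * s 0) * (br a b 1 3 * br a b 3 4 * br a b 4 1)
  + (t 0 * s 3 - t 3 * s 0) * (br a b 1 2 * br a b 2 4 * br a b 4 1)
  - (t 0 * s 4 - t 4 * s 0) * (br a b 1 2 * br a b 2 3 * br a b 3 1)
  + (t 1 * s 2 - t 2 * s 1) * (br a b 0 3 * br a b 3 4 * br a b 4 0)
  - (t 1 * s 3 - t 3 * s 1) * (br a b 0 2 * br a b 2 4 * br a b 4 0)
  + (t 1 * s 4 - t 4 * s 1) * (br a b 0 2 * br a b 2 3 * br a b 3 0)
  + (t 2 * s 3 - t 3 * s 2) * (br a b 0 1 * br a b 1 4 * br a b 4 0)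
  - (t 2 * s 4 - t 4 * s 2) * (br a b 0 1 * br a b 1 3 * br a b 3 0)
  + (t 3 * s 4 - t 4 * s 3) * (br a b 0 1 * br a b 1 2 * br a b 2 0)

theorem om_comp (a b t s : Fin 5 → R) (f : Fin 5 → Fin 5)
    (hf : f = ![1, 0, 2, 3, 4] ∨ f = ![0, 2, 1, 3, 4] ∨ f = ![0, 1, 3, 2, 4] ∨
      f = ![0, 1, 2, 4, 3]) :
    om (fun i => a (f i)) (fun i => b (f i)) (fun i => t (f i)) (fun i => s (f i)) =
      - om a b t s := by
  rcases hf with rfl | rfl | rfl | rfl <;>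
  · simp only [om, br, Matrix.cons_val]
    ring

/-- The numerator of the logarithmic derivative of the first cross ratio. -/
def nA (a b t : Fin 5 → R) : R :=
  - t 0 * br a b 1 2 * br a b 1 4 * br a b 2 4 + t 1 * br a b 0 4 * br a b 0 2 * br a b 2 4
  - t 2 * br a b 0 4 * br a b 0 1 * br a b 1 4 + t 4 * br a b 1 2 * br a b 0 1 * br a b 0 2

/-- The numerator of the logarithmic derivative of the second cross ratio. -/
def nB (a b t : Fin 5 → R) : R :=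
  t 0 * br a b 2 4 * br a b 2 3 * br a b 3 4 - t 2 * br a b 0 3 * br a b 0 4 * br a b 3 4
  + t 3 * br a b 2 4 * br a b 0 4 * br a b 0 2 - t 4 * br a b 0 3 * br a b 2 3 * br a b 0 2

theorem nA_nB (a b t s : Fin 5 → R) :
    nA a b t * nB a b s - nA a b s * nB a b t =
      br a b 0 2 * br a b 0 4 * br a b 2 4 * om a b t s := by
  simp only [nA, nB, om, br]
  ring

/-- The derivative of a bracket. -/
def dbr (a b da db : Fin 5 → R) (i j : Fin 5) : R :=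
  a i * db j + b j * da i - (a j * db i + b i * da j)

theorem nA_eq (a b da db : Fin 5 → R) :
    dbr a b da db 0 1 * br a b 2 4 * br a b 0 2 * br a b 1 4
      + br a b 0 1 * dbr a b da db 2 4 * br a b 0 2 * br a b 1 4
      - br a b 0 1 * br a b 2 4 * dbr a b da db 0 2 * br a b 1 4
      - br a b 0 1 * br a b 2 4 * br a b 0 2 * dbr a b da db 1 4 =
      nA a b (fun i => a i * db i - b i * da i) := by
  simp only [nA, br, dbr]
  ring

theorem nB_eq (a b da db : Fin 5 → R) :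
    dbr a b da db 2 3 * br a b 0 4 * br a b 0 2 * br a b 3 4
      + br a b 2 3 * dbr a b da db 0 4 * br a b 0 2 * br a b 3 4
      - br a b 2 3 * br a b 0 4 * dbr a b da db 0 2 * br a b 3 4
      - br a b 2 3 * br a b 0 4 * br a b 0 2 * dbr a b da db 3 4 =
      nB a b (fun i => a i * db i - b i * da i) := by
  simp only [nB, br, dbr]
  ring

end Poly

theorem swap_cases (i : Fin 4) :
    (⇑(Equiv.swap i.castSucc i.succ) : Fin 5 → Fin 5) = ![1, 0, 2, 3, 4] ∨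
    (⇑(Equiv.swap i.castSucc i.succ) : Fin 5 → Fin 5) = ![0, 2, 1, 3, 4] ∨
    (⇑(Equiv.swap i.castSucc i.succ) : Fin 5 → Fin 5) = ![0, 1, 3, 2, 4] ∨
    (⇑(Equiv.swap i.castSucc i.succ) : Fin 5 → Fin 5) = ![0, 1, 2, 4, 3] := by
  revert i
  decide

namespace Cfg

variable {K : Type} [Field K] (C : Cfg K)

/-- Relabelling of the five points. -/
def relabel (π : Equiv.Perm (Fin 5)) : Cfg K where
  a := fun i => C.a (π i)
  b := fun i => C.b (π i)
  z := fun i j => C.z (π i) (π j)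
  anti := fun _ _ => C.anti _ _
  pow7 := fun _ _ => C.pow7 _ _
  ne := fun _ _ h => C.ne _ _ (π.injective.ne h)

theorem relabel_z (π : Equiv.Perm (Fin 5)) (i j : Fin 5) :
    (C.relabel π).z i j = C.z (π i) (π j) := rfl

theorem relabel_one : C.relabel 1 = C := rfl

theorem relabel_mul (π ρ : Equiv.Perm (Fin 5)) :
    C.relabel (π * ρ) = (C.relabel π).relabel ρ := rfl

theorem relabel_xs (π σ : Equiv.Perm (Fin 5)) :
    (C.relabel π).xs σ = C.xs (π * σ * π⁻¹) := by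
  unfold xs
  rw [← Equiv.prod_comp π (fun j => C.z j ((π * σ * π⁻¹) j))]
  refine Finset.prod_congr rfl fun i _ => ?_
  simp [relabel_z]

variable (k : Type) [Field k] [Algebra k K]

theorem relabel_Wc (π : Equiv.Perm (Fin 5)) (c : K) : (C.relabel π).Wc k c = C.Wc k c := by
  unfold Wc
  have h : Function.Surjective fun σ : Equiv.Perm (Fin 5) => π * σ * π⁻¹ :=
    fun τ => ⟨π⁻¹ * τ * π, by simp [mul_assoc]⟩
  rw [← h.range_comp fun σ => c * C.xs σ]
  simp only [relabel_xs]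
  rfl

variable {k}

/-- The one-forms `a db - b da`. -/
def th (D : Derivation k K K) (i : Fin 5) : K := C.a i * D (C.b i) - C.b i * D (C.a i)

/-- The product of the sixth powers of the roots. -/
def Z6 : K := C.z 0 1 ^ 6 * C.z 0 2 ^ 6 * C.z 0 3 ^ 6 * C.z 0 4 ^ 6 * C.z 1 2 ^ 6 * C.z 1 3 ^ 6 *
  C.z 1 4 ^ 6 * C.z 2 3 ^ 6 * C.z 2 4 ^ 6 * C.z 3 4 ^ 6

/-- The canonical two-form of the surface. -/
def j0 (c : K) (D₁ D₂ : Derivation k K K) : K :=
  om C.a C.b (C.th D₁) (C.th D₂) / (c ^ 5 * C.Z6)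

theorem z_pow_six (i j : Fin 5) : C.z j i ^ 6 = C.z i j ^ 6 := by
  rw [C.anti i j]; ring

theorem Z6_swap (i : Fin 4) : (C.relabel (Equiv.swap i.castSucc i.succ)).Z6 = C.Z6 := by
  unfold Z6
  simp only [relabel_z]
  rcases swap_cases i with h | h | h | h <;> rw [h] <;> simp only [Matrix.cons_val]
  · rw [C.z_pow_six 0 1]; ring
  · rw [C.z_pow_six 1 2]; ring
  · rw [C.z_pow_six 2 3]; ring
  · rw [C.z_pow_six 3 4]; ring

theorem j0_swap (i : Fin 4) (c : K) (D₁ D₂ : Derivation k K K) :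
    (C.relabel (Equiv.swap i.castSucc i.succ)).j0 c D₁ D₂ = - C.j0 c D₁ D₂ := by
  unfold j0
  rw [Z6_swap, ← neg_div, ← om_comp C.a C.b (C.th D₁) (C.th D₂) _ (swap_cases i)]
  rfl

variable (k) in
theorem j0_relabel (π : Equiv.Perm (Fin 5)) (c : K) :
    ∃ ε : K, (ε = 1 ∨ ε = -1) ∧ ∀ D₁ D₂ : Derivation k K K,
      (C.relabel π).j0 c D₁ D₂ = ε * C.j0 c D₁ D₂ := by
  have hπ : π ∈ Submonoid.closure (Set.range fun i : Fin 4 => Equiv.swap i.castSucc i.succ) := by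
    rw [Equiv.Perm.mclosure_swap_castSucc_succ 4]
    exact Submonoid.mem_top _
  induction hπ using Submonoid.closure_induction generalizing C with
  | mem x hx =>
    obtain ⟨i, rfl⟩ := hx
    exact ⟨-1, Or.inr rfl, fun D₁ D₂ => by rw [j0_swap, neg_one_mul]⟩
  | one => exact ⟨1, Or.inl rfl, fun D₁ D₂ => by rw [relabel_one, one_mul]⟩
  | mul x y _ _ hx hy =>
    obtain ⟨ε, hε, h⟩ := hx C
    obtain ⟨ε', hε', h'⟩ := hy (C.relabel x)
    refine ⟨ε' * ε, ?_, fun D₁ D₂ => by rw [relabel_mul, h', h, mul_assoc]⟩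
    rcases hε with rfl | rfl <;> rcases hε' with rfl | rfl <;> simp

theorem z7 (i j : Fin 5) : C.z i j ^ 7 = br C.a C.b i j := C.pow7 i j

theorem D_z (D : Derivation k K K) (i j : Fin 5) :
    7 * C.z i j ^ 6 * D (C.z i j) =
      dbr C.a C.b (fun i => D (C.a i)) (fun i => D (C.b i)) i j := by
  have h := congrArg D (C.pow7 i j)
  rw [Derivation.leibniz_pow, map_sub, Derivation.leibniz, Derivation.leibniz] at h
  simp only [smul_eq_mul, nsmul_eq_mul] at h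
  unfold dbr
  rw [← h]
  push_cast
  ring

/-- The first local coordinate. -/
def uu : K := C.z 0 1 * C.z 2 4 / (C.z 0 2 * C.z 1 4)

/-- The second local coordinate. -/
def vv : K := C.z 2 3 * C.z 0 4 / (C.z 0 2 * C.z 3 4)

theorem D_cross (D : Derivation k K K) {x y z w : K} (hx : x ≠ 0) (hy : y ≠ 0) (hz : z ≠ 0)
    (hw : w ≠ 0) :
    7 * D (x * y / (z * w)) * (x ^ 7 * y ^ 7 * z ^ 7 * w ^ 7) = x * y / (z * w) *
      (7 * x ^ 6 * D x * y ^ 7 * z ^ 7 * w ^ 7 + x ^ 7 * (7 * y ^ 6 * D y) * z ^ 7 * w ^ 7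
        - x ^ 7 * y ^ 7 * (7 * z ^ 6 * D z) * w ^ 7
        - x ^ 7 * y ^ 7 * z ^ 7 * (7 * w ^ 6 * D w)) := by
  rw [Derivation.leibniz_div, Derivation.leibniz, Derivation.leibniz]
  simp only [smul_eq_mul]
  field_simp
  ring

theorem D_uu (D : Derivation k K K) :
    7 * D C.uu * (C.z 0 1 ^ 7 * C.z 2 4 ^ 7 * C.z 0 2 ^ 7 * C.z 1 4 ^ 7) =
      C.uu * nA C.a C.b (C.th D) := by
  unfold uu
  rw [D_cross D (C.ne 0 1 (by decide)) (C.ne 2 4 (by decide)) (C.ne 0 2 (by decide))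
    (C.ne 1 4 (by decide))]
  simp only [D_z, z7]
  rw [nA_eq]
  rfl

theorem D_vv (D : Derivation k K K) :
    7 * D C.vv * (C.z 2 3 ^ 7 * C.z 0 4 ^ 7 * C.z 0 2 ^ 7 * C.z 3 4 ^ 7) =
      C.vv * nB C.a C.b (C.th D) := by
  unfold vv
  rw [D_cross D (C.ne 2 3 (by decide)) (C.ne 0 4 (by decide)) (C.ne 0 2 (by decide))
    (C.ne 3 4 (by decide))]
  simp only [D_z, z7]
  rw [nB_eq]
  rfl

theorem jac_uv (D₁ D₂ : Derivation k K K) :
    49 * (D₁ C.uu * D₂ C.vv - D₂ C.uu * D₁ C.vv) *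
      (C.z 0 1 ^ 7 * C.z 1 4 ^ 7 * C.z 2 3 ^ 7 * C.z 0 2 ^ 7 * C.z 3 4 ^ 7) =
      C.uu * C.vv * om C.a C.b (C.th D₁) (C.th D₂) := by
  have h0 : C.z 0 2 ^ 7 * C.z 0 4 ^ 7 * C.z 2 4 ^ 7 ≠ 0 :=
    mul_ne_zero (mul_ne_zero (pow_ne_zero _ (C.ne 0 2 (by decide)))
      (pow_ne_zero _ (C.ne 0 4 (by decide)))) (pow_ne_zero _ (C.ne 2 4 (by decide)))
  apply mul_left_cancel₀ h0
  have h := nA_nB C.a C.b (C.th D₁) (C.th D₂)
  rw [← z7, ← z7, ← z7] at h
  have a1 := C.D_uu D₁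
  have a2 := C.D_uu D₂
  have b1 := C.D_vv D₁
  have b2 := C.D_vv D₂
  linear_combination (C.uu * C.vv) * h +
    (7 * D₂ C.vv * (C.z 2 3 ^ 7 * C.z 0 4 ^ 7 * C.z 0 2 ^ 7 * C.z 3 4 ^ 7)) * a1 +
    (C.uu * nA C.a C.b (C.th D₁)) * b2 -
    (7 * D₁ C.vv * (C.z 2 3 ^ 7 * C.z 0 4 ^ 7 * C.z 0 2 ^ 7 * C.z 3 4 ^ 7)) * a2 -
    (C.uu * nA C.a C.b (C.th D₂)) * b1

end Cfg

end Pool.Agent.Lib.MP_cf0da3_ag
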