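import Mathlib

/-! Cartier descent and stabilisation of chains of subspaces. -/

namespace Pool.Agent.Lib.MP_cf0da3_ag

open Module Filter TensorProduct

theorem mem_of_sum_eigen {R M ι κ : Type*} [Field R] [AddCommGroup M] [Module R M]
    (T : Submodule R M) (θ : κ → M →ₗ[R] M) (hθ : ∀ l, ∀ v ∈ T, θ l v ∈ T)
    (ev : ι → κ → R) (hev : Function.Injective ev) (S : Finset ι) :
    ∀ x : ι → M, (∀ a l, θ l (x a) = ev a l • x a) → ∑ a ∈ S, x a ∈ T → ∀ a ∈ S, x a ∈ T := by
  classical
  induction S using Finset.strongInduction with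
  | H S ih =>
    intro x hx hsum a ha
    by_cases h : ∃ c ∈ S, c ≠ a
    · obtain ⟨c, hc, hca⟩ := h
      have : ev a ≠ ev c := fun h => hca (hev h).symm
      obtain ⟨l, hl⟩ := Function.ne_iff.mp this
      have h1 : ∑ d ∈ S.erase c, (ev d l - ev c l) • x d ∈ T := by
        have h2 : ∑ d ∈ S.erase c, (ev d l - ev c l) • x d =
            ∑ d ∈ S, (ev d l - ev c l) • x d := by
          rw [← Finset.add_sum_erase S _ hc]; simp
        rw [h2]
        have h3 : ∑ d ∈ S, (ev d l - ev c l) • x d =
            θ l (∑ d ∈ S, x d) - ev c l • ∑ d ∈ S, x d := by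
          simp [map_sum, hx, sub_smul, Finset.sum_sub_distrib, Finset.smul_sum]
        rw [h3]
        exact T.sub_mem (hθ l _ hsum) (T.smul_mem _ hsum)
      have h4 := ih (S.erase c) (Finset.erase_ssubset hc) (fun d => (ev d l - ev c l) • x d)
        (fun d l' => by rw [map_smul, hx, smul_comm]) h1 a (Finset.mem_erase.mpr ⟨hca.symm, ha⟩)
      have h5 : ev a l - ev c l ≠ 0 := sub_ne_zero.mpr hl
      have := T.smul_mem (ev a l - ev c l)⁻¹ h4
      rwa [smul_smul, inv_mul_cancel₀ h5, one_smul] at this
    · push Not at h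
      have : S = {a} := Finset.eq_singleton_iff_unique_mem.mpr ⟨ha, h⟩
      rw [this] at hsum
      simpa using hsum

/-- Cartier descent. -/
theorem descent (p : ℕ) [Fact p.Prime] {K₀ K V : Type*} [Field K₀] [Field K] [Algebra K₀ K]
    [CharP K p] [AddCommGroup V] [Module K₀ V] (s : Fin 2 → K)
    (b : Basis (Fin p × Fin p) K₀ K)
    (hb : ∀ ij : Fin p × Fin p, b ij = s 0 ^ (ij.1 : ℕ) * s 1 ^ (ij.2 : ℕ))
    (D : Fin 2 → Derivation K₀ K K) (hD : ∀ i j, D i (s j) = if i = j then 1 else 0)
    (T : Submodule K (K ⊗[K₀] V))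
    (hT : ∀ i, ∀ v ∈ T, (D i : K →ₗ[K₀] K).rTensor V v ∈ T) :
    ∃ Y : Submodule K₀ V, T = Y.baseChange K := by
  classical
  have : CharP K₀ p := (algebraMap K₀ K).charP (algebraMap K₀ K).injective p
  refine ⟨(T.restrictScalars K₀).comap (TensorProduct.mk K₀ K V 1), le_antisymm ?_ ?_⟩
  · intro x hx
    obtain ⟨c, rfl⟩ := TensorProduct.eq_repr_basis_left b x
    let θ : Fin 2 → (K ⊗[K₀] V) →ₗ[K₀] (K ⊗[K₀] V) := fun i =>
      ((LinearMap.mulLeft K₀ (s i)).comp (D i : K →ₗ[K₀] K)).rTensor V
    have hθ' : ∀ i v, θ i v = s i • (D i : K →ₗ[K₀] K).rTensor V v := by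
      intro i v
      induction v using TensorProduct.induction_on with
      | zero => simp
      | tmul a y => simp [θ, TensorProduct.smul_tmul']
      | add a y ha hy => simp [ha, hy]
    let ev : Fin p × Fin p → Fin 2 → K₀ := fun ij => ![((ij.1 : ℕ) : K₀), ((ij.2 : ℕ) : K₀)]
    have hev : Function.Injective ev := by
      intro a a' h
      have h0 := congrFun h 0
      have h1 := congrFun h 1
      simp only [ev, Matrix.cons_val_zero, Matrix.cons_val_one] at h0 h1
      have e0 := CharP.natCast_injOn_Iio K₀ p a.1.2 a'.1.2 h0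
      have e1 := CharP.natCast_injOn_Iio K₀ p a.2.2 a'.2.2 h1
      exact Prod.ext (Fin.ext e0) (Fin.ext e1)
    have hpow : ∀ (x : K) (n : ℕ), x * ((n : K) * x ^ (n - 1)) = n * x ^ n := by
      intro x n
      cases n with
      | zero => simp
      | succ n => simp [pow_succ]; ring
    have hx' := mem_of_sum_eigen (T.restrictScalars K₀) θ
      (fun l v hv => by rw [hθ']; exact T.smul_mem _ (hT l v hv)) ev hev c.support
      (fun a => b a ⊗ₜ c a) (fun a l => by
        simp only [θ, LinearMap.rTensor_tmul, TensorProduct.smul_tmul']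
        congr 1
        rw [hb, Algebra.smul_def]
        fin_cases l
        · simp only [ev, LinearMap.comp_apply, Derivation.coeFn_coe, Derivation.leibniz,
            Derivation.leibniz_pow, hD, LinearMap.mulLeft_apply]
          simp
          rw [← mul_assoc, mul_comm (s 0) (s 1 ^ _), mul_assoc, hpow]; ring
        · simp only [ev, LinearMap.comp_apply, Derivation.coeFn_coe, Derivation.leibniz,
            Derivation.leibniz_pow, hD, LinearMap.mulLeft_apply]
          simp
          rw [← mul_assoc, mul_comm (s 1) (s 0 ^ _), mul_assoc, hpow]; ring) hx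
    refine Submodule.sum_mem _ fun a ha => Submodule.tmul_mem_baseChange_of_mem _ ?_
    have h1 : (b a)⁻¹ • (b a ⊗ₜ[K₀] c a) ∈ T := T.smul_mem _ (hx' a ha)
    rw [TensorProduct.smul_tmul', smul_eq_mul, inv_mul_cancel₀ (b.ne_zero a)] at h1
    exact h1
  · rw [Submodule.baseChange_eq_span, Submodule.span_le]
    rintro _ ⟨y, hy, rfl⟩
    exact hy

theorem exists_stable_of_monotone {F V : Type*} [Field F] [AddCommGroup V] [Module F V]
    [FiniteDimensional F V] (S : ℕ → Submodule F V) (hS : ∀ j, S j ≤ S (j + 1)) (n : ℕ)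
    (hn : finrank F V ≤ n) : ∃ j ≤ n, S (j + 1) = S j := by
  by_contra h
  push Not at h
  have key : ∀ j ≤ n + 1, j ≤ finrank F (S j) := by
    intro j hj
    induction j with
    | zero => exact Nat.zero_le _
    | succ j ih =>
      have h1 : S j < S (j + 1) := lt_of_le_of_ne (hS j) (h j (by omega)).symm
      have := Submodule.finrank_lt_finrank_of_lt h1
      have := ih (by omega)
      omega
  have := key (n + 1) le_rfl
  have := Submodule.finrank_le (S (n + 1))
  omega

theorem exists_stable_of_antitone {F V : Type*} [Field F] [AddCommGroup V] [Module F V]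
    [FiniteDimensional F V] (S : ℕ → Submodule F V) (hS : ∀ j, S (j + 1) ≤ S j) (n : ℕ)
    (hn : finrank F V ≤ n) : ∃ j ≤ n, S (j + 1) = S j := by
  by_contra h
  push Not at h
  have key : ∀ j ≤ n + 1, finrank F (S j) + j ≤ n := by
    intro j hj
    induction j with
    | zero => exact (Submodule.finrank_le (S 0)).trans hn
    | succ j ih =>
      have h1 : S (j + 1) < S j := lt_of_le_of_ne (hS j) (h j (by omega))
      have := Submodule.finrank_lt_finrank_of_lt h1
      have := ih (by omega)
      omega
  have := key (n + 1) le_rfl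
  omega

theorem nabla_smul {K₀ K V : Type*} [Field K₀] [Field K] [Algebra K₀ K]
    [AddCommGroup V] [Module K₀ V] (D : Derivation K₀ K K) (f : K) (v : K ⊗[K₀] V) :
    (D : K →ₗ[K₀] K).rTensor V (f • v) = D f • v + f • (D : K →ₗ[K₀] K).rTensor V v := by
  induction v using TensorProduct.induction_on with
  | zero => simp
  | tmul a y =>
    simp only [TensorProduct.smul_tmul', LinearMap.rTensor_tmul, smul_eq_mul,
      Derivation.coeFn_coe, Derivation.leibniz, ← TensorProduct.add_tmul]
    congr 1; ring
  | add a y ha hy => simp only [smul_add, map_add, ha, hy]; abel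

theorem finrank_baseChange_sub {K₀ K V : Type*} [Field K₀] [Field K] [Algebra K₀ K]
    [AddCommGroup V] [Module K₀ V] (Y : Submodule K₀ V) :
    finrank K (Y.baseChange K) = finrank K₀ Y := by
  rw [← (Submodule.toBaseChange.toLinearEquiv K Y).finrank_eq, Module.finrank_baseChange]

end Pool.Agent.Lib.MP_cf0da3_ag
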