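import Pool.Agent.Lib.MP_cf0da3_ag.Setup2
import Pool.Agent.Lib.MP_cf0da3_ag.CoreA

/-! The vanishing statements and the contradiction in large characteristic. -/

namespace Pool.Agent.Lib.MP_cf0da3_ag

open Module Filter TensorProduct

theorem tendsto_lin {n : ℤ} (hn : 0 < n) (b : ℤ) :
    Tendsto (fun m : ℤ => n * m + b) atTop atTop :=
  Filter.tendsto_atTop_atTop.2 fun B => ⟨max (B - b) 0, fun m hm => by
    have h1 : B - b ≤ m := (le_max_left _ _).trans hm
    have h2 : 0 ≤ m := (le_max_right _ _).trans hm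
    nlinarith⟩

theorem deriv_mem_Rg {k K : Type*} [Field k] [Field K] [Algebra k K] {W : Submodule k K}
    (h1 : (1 : K) ∈ W) (D : Derivation k K K) (Δ : K) (c : ℤ)
    (h : ∀ w ∈ W, Δ * D w ∈ Rg W c) {a : ℤ} {f : K} (hf : f ∈ Rg W a) :
    Δ * D f ∈ Rg W (a + c) := by
  rcases lt_or_ge a 0 with ha | ha
  · rw [Rg_of_neg W ha, Submodule.mem_bot] at hf
    simp [hf]
  lift a to ℕ using ha
  rw [Rg_natCast] at hf
  induction hf using Submodule.pow_induction_on_left' with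
  | algebraMap r => simp
  | add x y i hx hy ihx ihy => rw [map_add, mul_add]; exact Submodule.add_mem _ ihx ihy
  | mem_mul m hm i x hx ih =>
    have e : Δ * D (m * x) = m * (Δ * D x) + x * (Δ * D m) := by
      simp only [Derivation.leibniz, smul_eq_mul]; ring
    rw [e]
    refine Submodule.add_mem _ ?_ ?_
    · have := mul_mem_Rg (mem_Rg_one hm) ih
      have h' : ((i.succ : ℕ) : ℤ) + c = 1 + (i + c) := by push_cast; ring
      rwa [h']
    · have hx' : x ∈ Rg W (i : ℤ) := by rwa [Rg_natCast]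
      exact Rg_mono h1 (by push_cast; omega) (mul_mem_Rg hx' (h m hm))

theorem smul_mem_of_W {k K V : Type*} [Field k] [Field K] [Algebra k K] {W : Submodule k K}
    [AddCommGroup V] [Module K V] [Module k V] [IsScalarTower k K V]
    (hfrac : ∀ x : K, ∃ a : ℤ, ∃ h ∈ Rg W a, h ≠ 0 ∧ h * x ∈ Rg W a)
    (F : IntermediateField k K) [FiniteDimensional F V] (T : Submodule F V)
    (hT : ∀ w ∈ W, ∀ v ∈ T, w • v ∈ T) (x : K) (v : V) (hv : v ∈ T) : x • v ∈ T := by
  have hTW : IsMod W (fun _ => T.restrictScalars k) := fun _ w hw v hv => hT w hw v hv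
  obtain ⟨a, h, hh, hh0, hhx⟩ := hfrac x
  let mulL : V →ₗ[F] V := (LinearMap.lsmul K V h).restrictScalars F
  have hmap : ∀ y ∈ T, mulL y ∈ T := fun y hy => hTW.smul_mem (t := 0) hh hy
  have hinj : Function.Injective (mulL.restrict hmap) := by
    intro y z hyz
    have : h • (y : V) = h • (z : V) := congrArg Subtype.val hyz
    exact Subtype.ext (smul_right_injective _ hh0 this)
  obtain ⟨v', hv'⟩ := LinearMap.injective_iff_surjective.mp hinj ⟨v, hv⟩
  have h1 : h • (v' : V) = v := congrArg Subtype.val hv'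
  rw [← h1, smul_smul, mul_comm]
  exact hTW.smul_mem (t := 0) hhx v'.2

theorem finrank_restrictScalars_eq {k K V : Type*} [Field k] [Field K] [Algebra k K]
    [AddCommGroup V] [Module K V] (F : IntermediateField k K) (T : Submodule K V) :
    finrank F (T.restrictScalars F) = finrank F K * finrank K T := by
  rw [Module.finrank_mul_finrank F K T]
  rfl

namespace Setup

variable {p N : ℕ} [Fact p.Prime] {k K K₀ V : Type} [Field k] [IsAlgClosed k] [CharP k p]
  [Field K] [Field K₀] [Algebra k K] [Algebra k K₀] [Algebra K₀ K] [IsScalarTower k K₀ K]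
  [AddCommGroup V] [Module K₀ V] [Module k V] [IsScalarTower k K₀ V] (S : Setup p N k K K₀ V)

omit [Fact p.Prime] [IsAlgClosed k] [CharP k p] [IsScalarTower k K₀ K] in
theorem algebraMap_sF : (fun i => algebraMap S.F K (S.sF i)) = S.s := rfl

theorem isFG_sF_G : IsFG (U3 k S.sF) S.G := by
  rw [← isFG_U3_map_iff (K := K), S.algebraMap_sF]
  exact S.isFG_U3_Rg.trans S.isFG_G

omit [Fact p.Prime] [IsAlgClosed k] [CharP k p] in
theorem hull_sF : hull S.sF S.G = hull S.s S.G := by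
  rw [← hull_map (K := K), S.algebraMap_sF]

omit [Fact p.Prime] [IsAlgClosed k] [CharP k p] in
theorem nabla_G (D : Derivation K₀ K K) (Δ : K) (c : ℤ)
    (h : ∀ (a : ℤ), ∀ f ∈ Rg S.W a, Δ * D f ∈ Rg S.W (a + c)) (t : ℤ) (v : K ⊗[K₀] V)
    (hv : v ∈ S.G t) : Δ • (D : K →ₗ[K₀] K).rTensor V v ∈ S.G (t + c) := by
  obtain ⟨f, hf', rfl⟩ := mem_gen.mp hv
  refine mem_gen.mpr ⟨fun i => Δ * D (f i), fun i => ?_, ?_⟩
  · have := h _ _ (hf' i)
    simpa using this
  · simp only [map_sum, nabla_smul, Finset.smul_sum, e', LinearMap.rTensor_tmul,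
      Derivation.coeFn_coe, Derivation.map_one_eq_zero, TensorProduct.zero_tmul, smul_zero,
      add_zero, mul_smul]

theorem exists_data (hp : N < p) : ∃ (D : Fin 2 → Derivation K₀ K K) (Δ : K),
    (∀ i j, D i (S.s j) = if i = j then 1 else 0) ∧ Δ ≠ 0 ∧
    Δ ∈ Rg S.W ((120 * N : ℕ) : ℤ) ∧
    (∀ i (a : ℤ), ∀ f ∈ Rg S.W a, Δ * D i f ∈ Rg S.W (a + (120 * N : ℕ))) ∧
    ∀ T : Submodule K (K ⊗[K₀] V), (∀ i, ∀ v ∈ T, (D i : K →ₗ[K₀] K).rTensor V v ∈ T) →
      ∃ Y : Submodule K₀ V, T = Y.baseChange K := by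
  have : CharP K p := charP_of_injective_algebraMap (algebraMap k K).injective p
  obtain ⟨D, hD⟩ := S.exists_derivations hp
  obtain ⟨Δ, hΔ, hΔ0, hΔ'⟩ := S.exists_denom hp
  obtain ⟨b, hb⟩ := S.exists_pbasis hp
  refine ⟨D, Δ, hD, hΔ0, hΔ, fun i a f hf' => ?_, descent p S.s b hb D hD⟩
  refine deriv_mem_Rg S.one_mem ((D i).restrictScalars k) Δ _ (hΔ' _ fun j => ?_) hf'
  by_cases h : i = j
  · exact ⟨1, by simp [hD, h]⟩
  · exact ⟨0, by simp [hD, h]⟩

theorem hull_eq_bot (hp : N < p) (t : ℤ) (ht : t + N * (120 * N) < -4 * (p : ℤ)) :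
    hull S.sF S.G t = ⊥ := by
  classical
  by_contra hne
  obtain ⟨g, hg, hg0⟩ := (Submodule.ne_bot_iff _).mp hne
  obtain ⟨D, Δ, -, hΔ0, hΔ, hDΔ, hdesc⟩ := S.exists_data hp
  obtain ⟨e, -⟩ := S.exists_basis_e' hp
  have hFG := isFG_hull S.algInd_sF S.adjoin_sF S.isFG_sF_G e
  obtain ⟨C, hC⟩ := hf_hull_sub_le S.algInd_sF S.adjoin_sF S.isFG_sF_G e
  have hfd := hFG.finiteDimensional
  rw [S.hull_sF] at hg hC hfd
  set c : ℤ := ((120 * N : ℕ) : ℤ) with hc
  have hc0 : 0 ≤ c := Int.natCast_nonneg _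
  set H := hull S.s S.G with hH
  have hGW : IsMod S.W S.G := S.isFG_G.isMod
  have hHW : IsMod S.W H := isMod_hull (hGW.of_le S.U3_le_W) hGW
  have hmono : Monotone H := hHW.mono S.one_mem
  have := S.finite_V
  have hr : finrank K (K ⊗[K₀] V) ≤ N := by
    rw [Module.finrank_baseChange]
    have := S.N_eq
    omega
  obtain ⟨j, hj, hst⟩ := exists_stable_of_monotone
    (fun j : ℕ => Submodule.span K (H (t + j * c) : Set (K ⊗[K₀] V)))
    (fun j => Submodule.span_mono (hmono (by push_cast; nlinarith))) N hr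
  set b : ℤ := t + j * c with hb
  have hst' : Submodule.span K (H (b + c) : Set (K ⊗[K₀] V)) = Submodule.span K (H b) := by
    rw [← hst]
    congr 3
    push_cast; ring
  have hHstab : ∀ i, ∀ v ∈ H b, Δ • (D i : K →ₗ[K₀] K).rTensor V v ∈ H (b + c) := by
    intro i v hv
    exact hull_stable S.U3_le_W hGW c
      (((LinearMap.lsmul K (K ⊗[K₀] V) Δ).restrictScalars k).comp
        (((D i : K →ₗ[K₀] K).rTensor V).restrictScalars k)) (fun f => Δ * D i f)
      (fun f v => by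
        simp only [LinearMap.comp_apply, LinearMap.restrictScalars_apply, LinearMap.lsmul_apply,
          nabla_smul, smul_add, mul_smul]
        rw [smul_comm Δ f])
      (fun a f hf' => hDΔ i a f (Rg_mono_left S.U3_le_W a hf'))
      (fun t v hv => S.nabla_G (D i) Δ c (hDΔ i) t v hv) b v hv
  obtain ⟨Y, hY⟩ := hdesc (Submodule.span K (H b)) (by
    intro i v hv
    induction hv using Submodule.span_induction with
    | mem x hx =>
      have h1 : Δ • (D i : K →ₗ[K₀] K).rTensor V x ∈ Submodule.span K (H b : Set _) := by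
        rw [← hst']; exact Submodule.subset_span (hHstab i x hx)
      have := Submodule.smul_mem _ Δ⁻¹ h1
      rwa [smul_smul, inv_mul_cancel₀ hΔ0, one_smul] at this
    | zero => simp
    | add x y _ _ hx hy => rw [map_add]; exact Submodule.add_mem _ hx hy
    | smul a x hx' hx =>
      rw [nabla_smul]
      exact Submodule.add_mem _ (Submodule.smul_mem _ _ hx') (Submodule.smul_mem _ _ hx))
  obtain ⟨f, hf1, -, hf3⟩ :=
    Submodule.exists_fun_fin_finrank_span_eq K (H b : Set (K ⊗[K₀] V))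
  have hrank : finrank K (Submodule.span K (H b : Set (K ⊗[K₀] V))) = finrank K₀ Y := by
    rw [hY, finrank_baseChange_sub]
  have hpos : 0 < finrank K₀ Y := by
    rw [← hrank]
    have h1 : 0 ≤ (j : ℤ) * c := mul_nonneg (Int.natCast_nonneg _) hc0
    have h2 : g ∈ Submodule.span K (H b : Set (K ⊗[K₀] V)) :=
      Submodule.subset_span (hmono (show t ≤ b by omega) hg)
    by_contra h3
    rw [not_lt, Nat.le_zero, Submodule.finrank_eq_zero] at h3
    rw [h3] at h2
    exact hg0 (by simpa using h2)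
  have hle : gen S.W (fun _ => b) f ≤ H ⊓ cst k (Y.baseChange K) :=
    gen_le (hHW.inf (isMod_cst _ _)) fun i =>
      ⟨hf1 i, by rw [← hY]; exact Submodule.subset_span (hf1 i)⟩
  have := S.geo.fd
  have hlow : ∀ τ, (finrank K₀ Y : ℤ) * hf (Rg S.W) (τ - b) ≤
      hf (S.G ⊓ cst k (Y.baseChange K)) τ + C := by
    intro τ
    have h1 := hf_gen_of_li (W := S.W) (fun _ => b) hf3 τ
    have : FiniteDimensional k ((H ⊓ cst k (Y.baseChange K) : ℤ → _) τ) :=
      have := hfd τ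
      Submodule.finiteDimensional_of_le (S₂ := H τ) inf_le_left
    have h2 := hf_mono (hle τ)
    have := hfd τ
    have h3 := hf_inf_sub_le (A := S.G) (B := H) (cst k (Y.baseChange K)) (le_hull S.s S.G τ)
    have h4 := hC τ
    simp only [Finset.sum_const, Finset.card_univ, Fintype.card_fin, hrank, nsmul_eq_mul] at h1
    omega
  obtain ⟨κ, c', hκ, hev⟩ := S.hf_G_inf_slope hp Y
  have hp0 : 0 < p := (Fact.out : p.Prime).pos
  have hev2 := (tendsto_lin (n := p) (by exact_mod_cast hp0) (-b)).eventually S.hilb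
  have key := quad_le_of_eventually (n := p) hp0
    (a₂ := finrank K₀ Y * (1715 / 2)) (a₁ := finrank K₀ Y * (1715 * (-2 * b - 5) / 2))
    (a₀ := finrank K₀ Y * ((1715 * b * (b + 5) + 9604) / 2))
    (b₂ := finrank K₀ Y * (1715 / 2)) (b₁ := finrank K₀ Y * (-(1715 * 5) / 2) + κ * p)
    (b₀ := c' + C) (by
      filter_upwards [hev, hev2] with m h1 h2
      have h3 : ((finrank K₀ Y : ℤ) : ℚ) * (hf (Rg S.W) (p * m - b) : ℚ) ≤
          (hf (S.G ⊓ cst k (Y.baseChange K)) (p * m) : ℚ) + C := by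
        exact_mod_cast hlow (p * m)
      have h4 : (hf (Rg S.W) (p * m - b) : ℚ) =
          (1715 * ((p : ℚ) * m - b) * ((p : ℚ) * m - b - 5) + 9604) / 2 := by
        rw [← sub_eq_add_neg] at h2
        have : (2 : ℚ) * (hf (Rg S.W) (p * m - b) : ℚ) =
            1715 * ((p : ℚ) * m - b) * ((p : ℚ) * m - b - 5) + 9604 := by exact_mod_cast h2
        linarith
      rw [h1, h4] at h3
      push_cast at h3
      linarith)
  have h5 := (key.2 rfl).1
  have hs : (0 : ℚ) < finrank K₀ Y := by exact_mod_cast hpos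
  have hpq : (0 : ℚ) < p := by exact_mod_cast hp0
  have h6 : (finrank K₀ Y : ℚ) * (-(b : ℚ)) ≤ finrank K₀ Y * (4 * p) := by nlinarith
  have h7 : -(b : ℚ) ≤ 4 * p := le_of_mul_le_mul_left h6 hs
  have h8 : -b ≤ 4 * (p : ℤ) := by exact_mod_cast h7
  have h9 : (j : ℤ) * c ≤ N * c := mul_le_mul_of_nonneg_right (by exact_mod_cast hj) hc0
  have h10 : c = 120 * (N : ℤ) := by rw [hc]; push_cast; ring
  rw [← h10] at ht
  omega

omit [Fact p.Prime] [IsAlgClosed k] [CharP k p] in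
theorem deriv_mem_F (D : Derivation K₀ K K) (hD : ∀ j, D (S.s j) = 0 ∨ D (S.s j) = 1) {x : K}
    (hx : x ∈ S.F) : D x ∈ S.F := by
  induction hx using IntermediateField.adjoin_induction with
  | mem x hx =>
    obtain ⟨j, rfl⟩ := hx
    rcases hD j with h | h <;> rw [h]
    exacts [zero_mem _, OneMemClass.one_mem _]
  | algebraMap x =>
    rw [IsScalarTower.algebraMap_apply k K₀ K, Derivation.map_algebraMap]
    exact zero_mem _
  | add x y _ _ hx hy => rw [map_add]; exact add_mem hx hy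
  | inv x hx' hx =>
    rw [Derivation.leibniz_inv, smul_eq_mul]
    exact mul_mem (neg_mem (pow_mem (inv_mem hx') 2)) hx
  | mul x y hx' hy' hx hy =>
    rw [Derivation.leibniz, smul_eq_mul, smul_eq_mul]
    exact add_mem (mul_mem hx' hy) (mul_mem hy' hx)

omit [Fact p.Prime] [IsAlgClosed k] [CharP k p] in
theorem deriv_mem_Rg_U3 (D : Derivation K₀ K K) (hD : ∀ j, D (S.s j) = 0 ∨ D (S.s j) = 1)
    {a : ℤ} {y : S.F} (hy : y ∈ Rg (U3 k S.sF) a) :
    (⟨D y, S.deriv_mem_F D hD y.2⟩ : S.F) ∈ Rg (U3 k S.sF) a := by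
  have h1 : (y : K) ∈ Rg (U3 k S.s) a := (mem_Rg_U3_map (K := K) S.sF a _).mpr ⟨y, hy, rfl⟩
  have h2 := deriv_mem_Rg (one_mem_U3 S.s) (D.restrictScalars k) 1 0 (fun w hw => by
    rw [one_mul]
    induction hw using Submodule.span_induction with
    | mem x hx =>
      have h0 : (0 : K) ∈ Rg (U3 k S.s) 0 := zero_mem _
      have h1 := one_mem_Rg_zero (U3 k S.s)
      rcases hx with rfl | rfl | rfl
      · simp
      · rcases hD 0 with h | h <;> simp [h, h1]
      · rcases hD 1 with h | h <;> simp [h, h1]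
    | zero => simp
    | add x y _ _ hx hy => rw [map_add]; exact add_mem hx hy
    | smul c x _ hx => rw [Derivation.map_smul]; exact Submodule.smul_mem _ _ hx) h1
  rw [one_mul, add_zero] at h2
  obtain ⟨y', hy', he⟩ := (mem_Rg_U3_map (K := K) S.sF a _).mp h2
  have : y' = ⟨D y, S.deriv_mem_F D hD y.2⟩ := Subtype.ext he
  rwa [← this]

omit [Fact p.Prime] [IsAlgClosed k] [CharP k p] in
theorem exists_dual_nabla (D : Derivation K₀ K K) (hD : ∀ j, D (S.s j) = 0 ∨ D (S.s j) = 1)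
    (Δ : K) (c : ℤ) (hΔ : Δ ∈ Rg S.W c)
    (hDΔ : ∀ (a : ℤ), ∀ f ∈ Rg S.W a, Δ * D f ∈ Rg S.W (a + c)) (u : ℤ)
    (ψ : Module.Dual S.F (K ⊗[K₀] V)) (hψ : ψ ∈ dualFam S.sF S.G u) :
    ∃ φ ∈ dualFam S.sF S.G (u + 2 * c), ∀ v, ψ ((Δ * Δ) • v) = 0 →
      φ v = - ψ ((D : K →ₗ[K₀] K).rTensor V ((Δ * Δ) • v)) := by
  have hGW : IsMod S.W S.G := isMod_gen _ _ _
  let DF : S.F → S.F := fun y => ⟨D y, S.deriv_mem_F D hD y.2⟩
  have hadd : ∀ y z, DF (y + z) = DF y + DF z := fun y z => Subtype.ext (by simp [DF])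
  have hmul : ∀ y z, DF (y * z) = y * DF z + z * DF y := fun y z =>
    Subtype.ext (by simp [DF])
  have h0 : DF 0 = 0 := Subtype.ext (by simp [DF])
  let φ' : Module.Dual S.F (K ⊗[K₀] V) :=
    { toFun := fun x => DF (ψ ((Δ * Δ) • x)) - ψ ((D : K →ₗ[K₀] K).rTensor V ((Δ * Δ) • x))
      map_add' := fun x y => by simp only [smul_add, map_add, hadd]; ring
      map_smul' := fun f x => by
        have h1 : (D : K →ₗ[K₀] K).rTensor V (f • (Δ * Δ) • x) =
            DF f • (Δ * Δ) • x + f • (D : K →ₗ[K₀] K).rTensor V ((Δ * Δ) • x) :=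
          nabla_smul D f _
        have h2 : (Δ * Δ) • f • x = f • (Δ * Δ) • x := smul_comm (Δ * Δ) (f : K) x
        rw [h2, h1]
        simp only [map_add, map_smul, smul_eq_mul, hmul, RingHom.id_apply]; ring }
  refine ⟨φ', fun t g hg => ?_, fun v hv => ?_⟩
  · have h1 : (Δ * Δ) • g ∈ S.G (c + c + t) := hGW.smul_mem (mul_mem_Rg hΔ hΔ) hg
    have h2 : (D : K →ₗ[K₀] K).rTensor V ((Δ * Δ) • g) ∈ S.G (c + c + t) := by
      have e1 : (D : K →ₗ[K₀] K).rTensor V ((Δ * Δ) • g) =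
          (Δ * D Δ) • g + (Δ * D Δ) • g + Δ • Δ • (D : K →ₗ[K₀] K).rTensor V g := by
        rw [nabla_smul, Derivation.leibniz, smul_eq_mul, add_smul, mul_smul Δ Δ]
      rw [e1]
      have h3 := hGW.smul_mem (hDΔ c Δ hΔ) hg
      have h4 := hGW.smul_mem hΔ (S.nabla_G D Δ c hDΔ t g hg)
      have h5 : c + (t + c) = c + c + t := by ring
      rw [h5] at h4
      exact add_mem (add_mem h3 h3) h4
    have h6 : t + (u + 2 * c) = c + c + t + u := by ring
    rw [h6]
    exact sub_mem (S.deriv_mem_Rg_U3 D hD (hψ _ _ h1)) (hψ _ _ h2)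
  · change DF (ψ ((Δ * Δ) • v)) - _ = _
    rw [hv, h0, zero_sub]

theorem exists_ann (hp : N < p) (u : ℤ) : ∃ (u' : ℤ) (Y : Submodule K₀ V), u ≤ u' ∧
    u' ≤ u + N * (240 * N) ∧
    ∀ v, v ∈ Y.baseChange K ↔ ∀ ψ ∈ dualFam S.sF S.G u', ψ v = 0 := by
  obtain ⟨D, Δ, hD, hΔ0, hΔ, hDΔ, hdesc⟩ := S.exists_data hp
  obtain ⟨e, -⟩ := S.exists_basis_e' hp
  have hD' : ∀ i j, D i (S.s j) = 0 ∨ D i (S.s j) = 1 := fun i j => by
    rw [hD]; split_ifs <;> simp
  generalize hc : ((120 * N : ℕ) : ℤ) = c at hΔ hDΔ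
  have hc1 : 1 ≤ c := by have := S.N_pos; omega
  have hGW : IsMod S.W S.G := S.isFG_G.isMod
  have hfin : FiniteDimensional S.F (K ⊗[K₀] V) := Module.Finite.of_basis e
  have hrk : finrank S.F (K ⊗[K₀] V) = N := by simpa using finrank_eq_card_basis e
  have hmono : Monotone (dualFam S.sF S.G) := fun a b hab φ hφ t g hg =>
    Rg_mono (one_mem_U3 S.sF) (by omega) (hφ t g hg)
  let T : ℤ → Submodule S.F (K ⊗[K₀] V) := fun u =>
    { carrier := {v | ∀ ψ ∈ dualFam S.sF S.G u, ψ v = 0}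
      add_mem' := fun ha hb ψ hψ => by rw [map_add, ha ψ hψ, hb ψ hψ, add_zero]
      zero_mem' := fun ψ _ => map_zero ψ
      smul_mem' := fun a v hv ψ hψ => by rw [map_smul, hv ψ hψ, smul_zero] }
  have hTmem : ∀ u v, v ∈ T u ↔ ∀ ψ ∈ dualFam S.sF S.G u, ψ v = 0 := fun _ _ => Iff.rfl
  clear_value T
  obtain ⟨j, hj, hst⟩ := exists_stable_of_antitone (fun j : ℕ => T (u + j * (2 * c)))
    (fun j v hv => by
      have h : u + j * (2 * c) ≤ u + ((j + 1 : ℕ) : ℤ) * (2 * c) := by push_cast; nlinarith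
      rw [hTmem] at hv ⊢
      exact fun ψ hψ => hv ψ (hmono h hψ))
    N hrk.le
  have h1 : u + ((j + 1 : ℕ) : ℤ) * (2 * c) = u + j * (2 * c) + 2 * c := by push_cast; ring
  simp only [h1] at hst
  have h2 : 0 ≤ (j : ℤ) * (2 * c) := mul_nonneg (Int.natCast_nonneg _) (by omega)
  have h3 : (j : ℤ) * (2 * c) ≤ N * (2 * c) :=
    mul_le_mul_of_nonneg_right (by exact_mod_cast hj) (by omega)
  have h4 : 2 * c = 240 * (N : ℤ) := by rw [← hc]; push_cast; ring
  generalize hu' : u + j * (2 * c) = u' at hst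
  have hTK : ∀ (x : K), ∀ v ∈ T u', x • v ∈ T u' := by
    refine smul_mem_of_W S.geo.frac S.F (T u') fun w hw v hv => ?_
    rw [← hst, hTmem] at hv
    refine (hTmem _ _).mpr fun ψ hψ =>
      hv (ψ.comp ((LinearMap.lsmul K (K ⊗[K₀] V) w).restrictScalars S.F)) ?_
    intro t g hg
    exact Rg_mono (one_mem_U3 S.sF) (by omega) (hψ _ _ (hGW t w hw g hg))
  obtain ⟨Y, hY⟩ := hdesc
    { carrier := T u'
      add_mem' := (T u').add_mem
      zero_mem' := (T u').zero_mem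
      smul_mem' := fun x v hv => hTK x v hv } (by
    intro i v hv
    have hv' : v ∈ T u' := hv
    refine (hTmem _ _).mpr fun ψ hψ => ?_
    obtain ⟨φ, hφ, hφ'⟩ := S.exists_dual_nabla (D i) (hD' i) Δ c hΔ (hDΔ i) u' ψ hψ
    have h5 := hTK (Δ * Δ)⁻¹ v hv'
    rw [← hst, hTmem] at h5
    have h6 : (Δ * Δ) • ((Δ * Δ)⁻¹ • v) = v := by
      rw [smul_smul, mul_inv_cancel₀ (mul_ne_zero hΔ0 hΔ0), one_smul]
    have h7 := hφ' ((Δ * Δ)⁻¹ • v) (by rw [h6]; exact (hTmem _ _).mp hv' ψ hψ)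
    rw [h5 φ hφ, h6] at h7
    exact neg_eq_zero.mp h7.symm)
  refine ⟨u', Y, by omega, by rw [← h4]; omega, fun v => ?_⟩
  rw [← hY, ← hTmem]
  rfl

theorem dualFam_eq_bot (hp : N < p) (u : ℤ) (hu : u + N * (240 * N) < 4 * ((p : ℤ) - 1)) :
    dualFam S.sF S.G u = ⊥ := by
  by_contra hne
  obtain ⟨φ₀, hφ₀, hφ0⟩ := (Submodule.ne_bot_iff _).mp hne
  obtain ⟨u', Y, hu1, hu2, hY⟩ := S.exists_ann hp u
  obtain ⟨e, -⟩ := S.exists_basis_e' hp
  have hfin : FiniteDimensional S.F (K ⊗[K₀] V) := Module.Finite.of_basis e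
  have hrk : finrank S.F (K ⊗[K₀] V) = N := by simpa using finrank_eq_card_basis e
  have hmono : Monotone (dualFam S.sF S.G) := fun a b hab φ hφ t g hg =>
    Rg_mono (one_mem_U3 S.sF) (by omega) (hφ t g hg)
  obtain ⟨n, φ, hφ, hker, hn⟩ := exists_functionals (⊤ : Submodule S.F (K ⊗[K₀] V))
    (dualFam S.sF S.G u' : Set _)
  have hT : (⨅ ψ ∈ (dualFam S.sF S.G u' : Set (Module.Dual S.F (K ⊗[K₀] V))),
      LinearMap.ker ψ : Submodule S.F (K ⊗[K₀] V)) = (Y.baseChange K).restrictScalars S.F := by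
    ext v
    rw [Submodule.restrictScalars_mem, hY]
    simp only [Submodule.mem_iInf, SetLike.mem_coe, LinearMap.mem_ker]
  rw [top_inf_eq, top_inf_eq, hT] at hker
  rw [top_inf_eq, hT, finrank_top, hrk] at hn
  have hTr : finrank S.F ((Y.baseChange K).restrictScalars S.F) = 1715 * finrank K₀ Y := by
    rw [← finrank_baseChange_sub (K := K), ← S.finrank_F]
    exact finrank_restrictScalars_eq S.F (Y.baseChange K)
  replace hn : n + 1715 * finrank K₀ Y = N := by rw [← hTr]; exact hn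
  have hn0 : 0 < n := by
    by_contra h
    have h1 : finrank S.F ((Y.baseChange K).restrictScalars S.F) =
      finrank S.F (K ⊗[K₀] V) := by rw [hTr, hrk]; omega
    have h2 := Submodule.eq_top_of_finrank_eq h1
    apply hφ0
    refine LinearMap.ext fun v => ?_
    have h3 : v ∈ (Y.baseChange K).restrictScalars S.F := by rw [h2]; trivial
    exact (hY v).mp h3 φ₀ (hmono hu1 hφ₀)
  have := S.geo.fd
  have hup : ∀ τ, hf S.G τ - hf (S.G ⊓ cst k (Y.baseChange K)) τ ≤ n * al (τ + u') := by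
    intro τ
    have := S.isFG_G.finiteDimensional τ
    have h1 := hf_sub_le_of_functionals S.algInd_sF (L := S.G) φ u' τ
      (fun i v hv => hφ i τ v hv)
    rw [hker] at h1
    exact h1
  obtain ⟨κ, c', hκ, hev⟩ := S.hf_G_inf_slope hp Y
  have hp0 : 0 < p := (Fact.out : p.Prime).pos
  have hev2 := (tendsto_lin (n := p) (by exact_mod_cast hp0) 0).eventually (S.hf_G hp)
  have hev3 := (tendsto_lin (n := p) (by exact_mod_cast hp0) u').eventually
    (eventually_ge_atTop (-2))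
  have hnq : (n : ℚ) = 1715 * (finrank K₀ V - finrank K₀ Y) := by
    have h1 := S.N_eq
    have h2 : n + 1715 * finrank K₀ Y = 1715 * finrank K₀ V := by omega
    have h3 : (n : ℚ) + 1715 * finrank K₀ Y = 1715 * finrank K₀ V := by exact_mod_cast h2
    linarith
  have key := quad_le_of_eventually (n := p) hp0
    (a₂ := (finrank K₀ V - finrank K₀ Y) * (1715 / 2))
    (a₁ := finrank K₀ V * (6860 * p - 8575 / 2) + finrank K₀ Y * (8575 / 2) - κ * p)
    (a₀ := finrank K₀ V * (14063 * (p : ℚ) ^ 2 - 17150 * p + 4802) - c')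
    (b₂ := n / 2) (b₁ := n * (2 * u' + 3) / 2) (b₀ := n * ((u' + 1) * (u' + 2)) / 2) (by
      filter_upwards [hev, hev2, hev3] with m h1 h2 h3
      have h4 : (hf S.G (p * m) : ℚ) - hf (S.G ⊓ cst k (Y.baseChange K)) (p * m) ≤
          n * (al (p * m + u') : ℚ) := by exact_mod_cast hup (p * m)
      have h5 : (al (p * m + u') : ℚ) =
          ((p : ℚ) * m + u' + 1) * ((p : ℚ) * m + u' + 2) / 2 := by
        have : (2 : ℚ) * (al (p * m + u') : ℚ) =
            ((p : ℚ) * m + u' + 1) * ((p : ℚ) * m + u' + 2) := by exact_mod_cast two_mul_al h3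
        linarith
      rw [add_zero] at h2
      rw [h1, h2, h5] at h4
      push_cast at h4
      linarith)
  have h5 := (key.2 (by rw [hnq]; ring)).1
  have hpq : (0 : ℚ) < p := by exact_mod_cast hp0
  have hnq0 : (0 : ℚ) < n := by exact_mod_cast hn0
  have h6 : (n : ℚ) * (4 * p - 4) ≤ n * u' := by
    have : κ * p ≤ 6860 * finrank K₀ Y * p := mul_le_mul_of_nonneg_right hκ hpq.le
    rw [hnq] at h5 ⊢
    nlinarith
  have h7 : (4 * p - 4 : ℚ) ≤ u' := le_of_mul_le_mul_left h6 hnq0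
  have h8 : 4 * (p : ℤ) - 4 ≤ u' := by exact_mod_cast h7
  omega

theorem hf_dualFam_le (hp : N < p) (u₀ : ℤ) (B : ℤ) (n : ℕ) (hB : u₀ + n + 1 ≤ B) (hB0 : 0 ≤ B) :
    hf (dualFam S.sF S.G) (u₀ + n) ≤ hf (dualFam S.sF S.G) u₀ + n * (N * B) := by
  obtain ⟨e, he⟩ := S.exists_basis_e' hp
  induction n with
  | zero => simp
  | succ n ih =>
    have h1 := hf_dualFam_succ_le S.algInd_sF S.adjoin_sF S.isFG_sF_G e
      (fun i => by rw [he]; exact self_mem_gen S.W (fun _ => 0) S.e' i) (u₀ + n)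
    have h2 := ih (by push_cast at hB; omega)
    have h3 : (N : ℤ) * max (u₀ + n + 2) 0 ≤ N * B :=
      mul_le_mul_of_nonneg_left (max_le (by push_cast at hB; omega) hB0) (Int.natCast_nonneg _)
    push_cast
    rw [← add_assoc]
    linarith

end Setup

theorem coreZ (N : ℕ) : ∃ P₀ : ℕ, ∀ (p : ℕ) [Fact p.Prime], P₀ < p →
    ∀ (k K K₀ V : Type) [Field k] [IsAlgClosed k] [CharP k p]
      [Field K] [Field K₀] [Algebra k K] [Algebra k K₀] [Algebra K₀ K] [IsScalarTower k K₀ K]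
      [AddCommGroup V] [Module K₀ V] [Module k V] [IsScalarTower k K₀ V],
      Setup p N k K K₀ V → False := by
  refine ⟨(360 * N ^ 2 + 3) * N * (4 + 120 * N ^ 2) + N + 2, ?_⟩
  intro p _ hP k K K₀ V _ _ _ _ _ _ _ _ _ _ _ _ _ S
  have hp : N < p := by omega
  obtain ⟨e, he⟩ := S.exists_basis_e' hp
  set t : ℤ := -4 * (p : ℤ) - 120 * N ^ 2 - 1 with ht
  have h1 := duality_ineq S.algInd_sF S.adjoin_sF S.isFG_sF_G e
    (fun i => by rw [he]; exact self_mem_gen S.W (fun _ => 0) S.e' i) (S.hf_G hp) t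
  rw [hf_eq_zero_of_eq_bot (S.hull_eq_bot hp t (by rw [ht]; nlinarith))] at h1
  have h2 := S.hf_dualFam_le hp (4 * (p : ℤ) - 240 * N ^ 2 - 5) (4 * p + 120 * N ^ 2)
    (360 * N ^ 2 + 3) (by push_cast; linarith) (by positivity)
  rw [hf_eq_zero_of_eq_bot
    (S.dualFam_eq_bot hp (4 * (p : ℤ) - 240 * N ^ 2 - 5) (by nlinarith))] at h2
  have h3 : 4 * (p : ℤ) - 240 * N ^ 2 - 5 + ((360 * N ^ 2 + 3 : ℕ) : ℤ) = -t - 3 := by
    rw [ht]; push_cast; ring
  rw [h3] at h2
  have h4 : (hf (dualFam S.sF S.G) (-t - 3) : ℚ) ≤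
      (360 * (N : ℚ) ^ 2 + 3) * (N * (4 * p + 120 * N ^ 2)) := by
    have : (hf (dualFam S.sF S.G) (-t - 3) : ℚ) ≤
        ((0 + ((360 * N ^ 2 + 3 : ℕ) : ℤ) * (N * (4 * p + 120 * N ^ 2)) : ℤ) : ℚ) := by
      exact_mod_cast h2
    push_cast at this
    linarith
  have hr : (1 : ℚ) ≤ finrank K₀ V := by
    have h5 := S.N_eq
    have h6 := S.N_pos
    have : 1 ≤ finrank K₀ V := by omega
    exact_mod_cast this
  have hPq : (360 * (N : ℚ) ^ 2 + 3) * N * (4 + 120 * N ^ 2) + N + 2 < p := by exact_mod_cast hP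
  set A : ℚ := (360 * (N : ℚ) ^ 2 + 3) * N with hA
  have hA0 : 0 ≤ A := by positivity
  have hN0 : (0 : ℚ) ≤ N := by positivity
  have hN2 : (0 : ℚ) ≤ 120 * (N : ℚ) ^ 2 := by positivity
  have hp2 : (2 : ℚ) < p := by nlinarith
  have h7 : A * (4 * p + 120 * N ^ 2) ≤ (p : ℚ) ^ 2 := by
    have h8 : A * (4 * p + 120 * N ^ 2) ≤ A * (4 + 120 * N ^ 2) * p := by
      have : A * (120 * N ^ 2) * 1 ≤ A * (120 * N ^ 2) * p :=
        mul_le_mul_of_nonneg_left (by linarith) (by positivity)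
      nlinarith
    nlinarith
  have h9 : (finrank K₀ V : ℚ) * (1715 / 2) * (t : ℚ) ^ 2 +
      finrank K₀ V * (6860 * p - 8575 / 2) * t +
      finrank K₀ V * (14063 * (p : ℚ) ^ 2 - 17150 * p + 4802) =
      finrank K₀ V * (1715 / 2 * (t + 4 * p - 5 / 2) ^ 2 + (343 * p ^ 2 - 4459 / 8)) := by ring
  rw [h9] at h1
  have h10 : (0 : ℚ) ≤ 1715 / 2 * ((t : ℚ) + 4 * p - 5 / 2) ^ 2 := by positivity
  have h11 : (p : ℚ) ^ 2 < 343 * p ^ 2 - 4459 / 8 := by nlinarith
  have h12 : (0 : ℚ) ≤ (p : ℚ) ^ 2 := by positivity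
  push_cast at h1
  nlinarith

end Pool.Agent.Lib.MP_cf0da3_ag
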