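import Pool.Agent.Lib.MP_cf0da3_ag.Defs

/-! Counting standard monomials. -/

namespace Pool.Agent.Lib.MP_cf0da3_ag

open Module Filter Finset

namespace CountAux

/-- The residues modulo seven. -/
def rho (r1 r2 r4 r5 r7 : ℕ) : Fin 10 → ℕ :=
  ![(35 - (r1 + r2 + r4 + r5 + r7)) % 7, r1, r2, (r4 + r5 + r7) % 7, r4, r5, (r1 + r2 + r7) % 7,
    r7, (21 - (r1 + r4 + r7)) % 7, (21 - (r2 + r5 + r7)) % 7]

/-- Half the sum of the degrees of the residue graph, divided by seven. -/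
def hh (r1 r2 r4 r5 r7 : ℕ) : ℕ :=
  ((35 - (r1 + r2 + r4 + r5 + r7)) % 7 + r1 + r2 + (r4 + r5 + r7) % 7 + r4 + r5 +
    (r1 + r2 + r7) % 7 + r7 + (21 - (r1 + r4 + r7)) % 7 + (21 - (r2 + r5 + r7)) % 7) / 7

/-- Sum of the squares of the degrees of the residue graph divided by seven. -/
def gg (r1 r2 r4 r5 r7 : ℕ) : ℕ :=
  (((35 - (r1 + r2 + r4 + r5 + r7)) % 7 + r1 + r2 + (r4 + r5 + r7) % 7) / 7) ^ 2 +
  (((35 - (r1 + r2 + r4 + r5 + r7)) % 7 + r4 + r5 + (r1 + r2 + r7) % 7) / 7) ^ 2 +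
  ((r1 + r4 + r7 + (21 - (r1 + r4 + r7)) % 7) / 7) ^ 2 +
  ((r2 + r5 + r7 + (21 - (r2 + r5 + r7)) % 7) / 7) ^ 2 +
  (((r4 + r5 + r7) % 7 + (r1 + r2 + r7) % 7 + (21 - (r1 + r4 + r7)) % 7 +
    (21 - (r2 + r5 + r7)) % 7) / 7) ^ 2

theorem sum_hh : ∑ r1 ∈ range 7, ∑ r2 ∈ range 7, ∑ r4 ∈ range 7, ∑ r5 ∈ range 7, ∑ r7 ∈ range 7,
    hh r1 r2 r4 r5 r7 = 72030 := by
  decide +kernel

theorem sum_gg : ∑ r1 ∈ range 7, ∑ r2 ∈ range 7, ∑ r4 ∈ range 7, ∑ r5 ∈ range 7, ∑ r7 ∈ range 7,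
    (hh r1 r2 r4 r5 r7 ^ 2 + 2) = 9604 + 72030 +
    ∑ r1 ∈ range 7, ∑ r2 ∈ range 7, ∑ r4 ∈ range 7, ∑ r5 ∈ range 7, ∑ r7 ∈ range 7,
      gg r1 r2 r4 r5 r7 := by
  decide +kernel

end CountAux

end Pool.Agent.Lib.MP_cf0da3_ag
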