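import Pool.Agent.Lib.MP_cf0da3_ag.CountA
import Pool.Agent.Lib.MP_cf0da3_ag.CountB

/-! Counting standard monomials. -/

namespace Pool.Agent.Lib.MP_cf0da3_ag

open Module Filter Finset

namespace CountAux

theorem ar1 {a b c d g : ℕ} (ha : a < 7) (hb : b < 7) (hc : c < 7) (hd : d < 7)
    (h : a + b + c + d = 7 * g) : g ≤ 3 := by omega

theorem ar2 {a b c d g x y z w j β : ℕ} (h : a + b + c + d = 7 * g) (hβ : β + g = 2 * j) :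
    (a + 7 * x) + (b + 7 * y) + (c + 7 * z) + (d + 7 * w) = 2 * (7 * j) ↔ x + y + z + w = β := by
  omega

theorem ar3 {b0 b1 b2 b3 b4 s q0 q1 q2 q3 q4 q5 q6 q7 q8 q9 : ℕ}
    (hs : b0 + b1 + b2 + b3 + b4 = 2 * s)
    (d0 : q0 + q1 + q2 + q3 = b0) (d1 : q0 + q4 + q5 + q6 = b1) (d2 : q1 + q4 + q7 + q8 = b2)
    (d3 : q2 + q5 + q7 + q9 = b3) (d4 : q3 + q6 + q8 + q9 = b4) :
    q0 ≤ min b0 b1 ∧ q9 ≤ min b3 b4 ∧ q9 ≤ q0 + (s - b0 - b1) ∧ q0 ≤ q9 + (s - b3 - b4) ∧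
      q0 + q9 ≤ s - b2 := by
  refine ⟨?_, ?_, ?_, ?_, ?_⟩ <;> omega

theorem ar4 {j g0 g1 g2 g3 g4 h : ℕ} (hj : 5 ≤ j) (u0 : g0 ≤ 3) (u1 : g1 ≤ 3) (u2 : g2 ≤ 3)
    (u3 : g3 ≤ 3) (u4 : g4 ≤ 3) (hg : g0 + g1 + g2 + g3 + g4 = 2 * h) :
    ∃ b0 b1 b2 b3 b4 s : ℕ, b0 + g0 = 2 * j ∧ b1 + g1 = 2 * j ∧ b2 + g2 = 2 * j ∧
      b3 + g3 = 2 * j ∧ b4 + g4 = 2 * j ∧ s + h = 5 * j ∧ b0 + b1 + b2 + b3 + b4 = 2 * s ∧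
      b0 + b1 ≤ s ∧ b3 + b4 ≤ s ∧ b2 ≤ s :=
  ⟨2 * j - g0, 2 * j - g1, 2 * j - g2, 2 * j - g3, 2 * j - g4, 5 * j - h, by omega⟩

theorem ar5 {j g b : ℕ} (u : g ≤ 3) (h : b + g = 2 * j) : 2 * j ≤ b + 3 := by omega

theorem ar6 {j g b : ℕ} (h : b + g = 2 * j) : b ≤ 2 * j := by omega

theorem ar7 {x y : ℕ} (hx : x < 7) : (x + 7 * y) / 7 = y := by omega

theorem ar8 {x r : ℕ} (h : x % 7 = r) : x = r + 7 * (x / 7) := by omega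

theorem ar9 {g b c : ℕ} (h : b + g = c) : (b : ℤ) = c - g := by omega

theorem fiber_bij (j : ℕ) (S : Finset (Fin 10 → ℕ)) (ρ : Fin 10 → ℕ)
    (hρ : ∀ e, ρ e < 7) (g0 g1 g2 g3 g4 b0 b1 b2 b3 b4 s : ℕ)
    (e0 : ρ 0 + ρ 1 + ρ 2 + ρ 3 = 7 * g0) (e1 : ρ 0 + ρ 4 + ρ 5 + ρ 6 = 7 * g1)
    (e2 : ρ 1 + ρ 4 + ρ 7 + ρ 8 = 7 * g2) (e3 : ρ 2 + ρ 5 + ρ 7 + ρ 9 = 7 * g3)
    (e4 : ρ 3 + ρ 6 + ρ 8 + ρ 9 = 7 * g4)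
    (hb0 : b0 + g0 = 2 * j) (hb1 : b1 + g1 = 2 * j) (hb2 : b2 + g2 = 2 * j)
    (hb3 : b3 + g3 = 2 * j) (hb4 : b4 + g4 = 2 * j)
    (hbs : b0 + b1 + b2 + b3 + b4 = 2 * s) (hP : b0 + b1 ≤ s) (hQ : b3 + b4 ≤ s) (hR : b2 ≤ s)
    (hS : ∀ c, c ∈ S ↔ Reg (7 * j) c ∧ Std c ∧ ∀ e, c e % 7 = ρ e) :
    S.card = (region (min b0 b1) (min b3 b4) (s - b0 - b1) (s - b3 - b4) (s - b2)).card := by
  have hdec : ∀ c ∈ S, ∃ q : Fin 10 → ℕ, (∀ e, c e = ρ e + 7 * q e) ∧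
      q 0 + q 1 + q 2 + q 3 = b0 ∧ q 0 + q 4 + q 5 + q 6 = b1 ∧ q 1 + q 4 + q 7 + q 8 = b2 ∧
      q 2 + q 5 + q 7 + q 9 = b3 ∧ q 3 + q 6 + q 8 + q 9 = b4 ∧
      (q 2 = 0 ∨ q 4 = 0) ∧ (q 3 = 0 ∨ q 4 = 0) ∧ (q 3 = 0 ∨ q 5 = 0) ∧ (q 3 = 0 ∨ q 7 = 0) ∧
      (q 6 = 0 ∨ q 7 = 0) := by
    intro c hc
    obtain ⟨⟨d0, d1, d2, d3, d4⟩, ⟨n1, n2, n3, n4, n5⟩, hr⟩ := (hS c).mp hc
    have hq : ∀ e, c e = ρ e + 7 * (c e / 7) := fun e => ar8 (hr e)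
    refine ⟨fun e => c e / 7, hq, (ar2 e0 hb0).mp ?_, (ar2 e1 hb1).mp ?_, (ar2 e2 hb2).mp ?_,
      (ar2 e3 hb3).mp ?_, (ar2 e4 hb4).mp ?_,
      n1.imp Nat.div_eq_of_lt Nat.div_eq_of_lt, n2.imp Nat.div_eq_of_lt Nat.div_eq_of_lt,
      n3.imp Nat.div_eq_of_lt Nat.div_eq_of_lt, n4.imp Nat.div_eq_of_lt Nat.div_eq_of_lt,
      n5.imp Nat.div_eq_of_lt Nat.div_eq_of_lt⟩ <;> simp only [← hq] <;> assumption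
  refine card_nbij' (fun c => (c 0 / 7, c 9 / 7))
    (fun x => fun e => ρ e + 7 * nn b0 b1 b3 b4 s x.1 x.2 e) ?_ ?_ ?_ ?_
  · intro c hc
    obtain ⟨q, hq, d0, d1, d2, d3, d4, -⟩ := hdec c hc
    rw [mem_coe, mem_region]
    simp only [hq 0, hq 9, ar7 (hρ 0), ar7 (hρ 9)]
    exact ar3 hbs d0 d1 d2 d3 d4
  · rintro ⟨a, b⟩ hx
    rw [mem_coe, mem_region] at hx
    obtain ⟨r1, r2, r3, r4, r5⟩ := hx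
    obtain ⟨q1, q2, q3, q4, q5, q6, q7, q8, hn, d0, d1, d2, d3, d4, n1, n2, n3, n4, n5⟩ :=
      nn_exists b0 b1 b2 b3 b4 s a b hbs hP hQ hR (le_trans r1 (min_le_left _ _))
        (le_trans r1 (min_le_right _ _)) (le_trans r2 (min_le_left _ _))
        (le_trans r2 (min_le_right _ _)) r3 r4 r5
    rw [mem_coe, hS]
    simp only [hn]
    have hz : ∀ (e : Fin 10) (x : ℕ), x = 0 → ρ e + 7 * x < 7 := by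
      rintro e x rfl
      exact hρ e
    refine ⟨⟨(ar2 e0 hb0).mpr d0, (ar2 e1 hb1).mpr d1, (ar2 e2 hb2).mpr d2, (ar2 e3 hb3).mpr d3,
      (ar2 e4 hb4).mpr d4⟩, ⟨n1.imp (hz 2 _) (hz 4 _), n2.imp (hz 3 _) (hz 4 _),
      n3.imp (hz 3 _) (hz 5 _), n4.imp (hz 3 _) (hz 7 _), n5.imp (hz 6 _) (hz 7 _)⟩, fun e => ?_⟩
    rw [Nat.add_mul_mod_self_left]
    exact Nat.mod_eq_of_lt (hρ e)
  · intro c hc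
    obtain ⟨q, hq, d0, d1, d2, d3, d4, n1, n2, n3, n4, n5⟩ := hdec c hc
    have hn := nn_unique b0 b1 b2 b3 b4 s (q 0) (q 1) (q 2) (q 3) (q 4) (q 5) (q 6) (q 7) (q 8)
      (q 9) hbs hP hQ d0 d1 d2 d3 d4 n1 n2 n3 n4 n5
    have hq2 : ![q 0, q 1, q 2, q 3, q 4, q 5, q 6, q 7, q 8, q 9] = q := by
      funext e
      fin_cases e <;> rfl
    funext e
    simp only [hq 0, hq 9, ar7 (hρ 0), ar7 (hρ 9), hn, hq2]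
    exact (hq e).symm
  · rintro ⟨a, b⟩ _
    exact Prod.ext (ar7 (hρ 0)) (ar7 (hρ 9))

theorem fiber_card (j : ℕ) (hj : 5 ≤ j) (S : Finset (Fin 10 → ℕ)) (ρ : Fin 10 → ℕ)
    (hρ : ∀ e, ρ e < 7) (g0 g1 g2 g3 g4 h : ℕ)
    (e0 : ρ 0 + ρ 1 + ρ 2 + ρ 3 = 7 * g0) (e1 : ρ 0 + ρ 4 + ρ 5 + ρ 6 = 7 * g1)
    (e2 : ρ 1 + ρ 4 + ρ 7 + ρ 8 = 7 * g2) (e3 : ρ 2 + ρ 5 + ρ 7 + ρ 9 = 7 * g3)
    (e4 : ρ 3 + ρ 6 + ρ 8 + ρ 9 = 7 * g4) (hg : g0 + g1 + g2 + g3 + g4 = 2 * h)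
    (hS : ∀ c, c ∈ S ↔ Reg (7 * j) c ∧ Std c ∧ ∀ e, c e % 7 = ρ e) :
    2 * (S.card : ℤ) = 5 * (j : ℤ) ^ 2 + 5 * j - 2 * j * h + h ^ 2 - h + 2 -
      (g0 ^ 2 + g1 ^ 2 + g2 ^ 2 + g3 ^ 2 + g4 ^ 2) := by
  have u0 := ar1 (hρ _) (hρ _) (hρ _) (hρ _) e0
  have u1 := ar1 (hρ _) (hρ _) (hρ _) (hρ _) e1
  have u2 := ar1 (hρ _) (hρ _) (hρ _) (hρ _) e2
  have u3 := ar1 (hρ _) (hρ _) (hρ _) (hρ _) e3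
  have u4 := ar1 (hρ _) (hρ _) (hρ _) (hρ _) e4
  obtain ⟨b0, b1, b2, b3, b4, s, hb0, hb1, hb2, hb3, hb4, hs, hbs, hP, hQ, hR⟩ :=
    ar4 hj u0 u1 u2 u3 u4 hg
  have hc := card_region_beta b0 b1 b2 b3 b4 s j hbs hj (ar5 u0 hb0) (ar5 u1 hb1) (ar5 u2 hb2)
    (ar5 u3 hb3) (ar5 u4 hb4) (ar6 hb0) (ar6 hb1) (ar6 hb2) (ar6 hb3) (ar6 hb4)
  rw [fiber_bij j S ρ hρ g0 g1 g2 g3 g4 b0 b1 b2 b3 b4 s e0 e1 e2 e3 e4 hb0 hb1 hb2 hb3 hb4 hbs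
    hP hQ hR hS, hc, ar9 hb0, ar9 hb1, ar9 hb2, ar9 hb3, ar9 hb4, ar9 hs]
  have z6 : (g0 + g1 + g2 + g3 + g4 : ℤ) = 2 * h := by exact_mod_cast hg
  push_cast
  linear_combination (4 * j) * z6

/-- The set of free residues. -/
def res : Finset (ℕ × ℕ × ℕ × ℕ × ℕ) := range 7 ×ˢ range 7 ×ˢ range 7 ×ˢ range 7 ×ˢ range 7

theorem card_res : res.card = 16807 := by
  simp only [res, card_product, card_range]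

theorem sum_res (f : ℕ → ℕ → ℕ → ℕ → ℕ → ℕ) :
    ∑ r ∈ res, f r.1 r.2.1 r.2.2.1 r.2.2.2.1 r.2.2.2.2 =
      ∑ r1 ∈ range 7, ∑ r2 ∈ range 7, ∑ r4 ∈ range 7, ∑ r5 ∈ range 7, ∑ r7 ∈ range 7,
        f r1 r2 r4 r5 r7 := by
  simp only [res, sum_product]

theorem br1 {x : ℕ} (h : x % 7 = 0) : x = 7 * (x / 7) := by omega

theorem br2 {a b c d e s : ℕ} (ha : a % 7 = 0) (hb : b % 7 = 0) (hc : c % 7 = 0) (hd : d % 7 = 0)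
    (he : e % 7 = 0) (h : a + b + c + d + e = 2 * s) :
    a / 7 + b / 7 + c / 7 + d / 7 + e / 7 = 2 * (s / 7) := by omega

section
variable {r1 r2 r4 r5 r7 : ℕ}

theorem m0 (p1 : r1 < 7) (p2 : r2 < 7) (p4 : r4 < 7) (p5 : r5 < 7) (p7 : r7 < 7) :
    ((35 - (r1 + r2 + r4 + r5 + r7)) % 7 + r1 + r2 + (r4 + r5 + r7) % 7) % 7 = 0 := by omega

theorem m1 (p1 : r1 < 7) (p2 : r2 < 7) (p4 : r4 < 7) (p5 : r5 < 7) (p7 : r7 < 7) :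
    ((35 - (r1 + r2 + r4 + r5 + r7)) % 7 + r4 + r5 + (r1 + r2 + r7) % 7) % 7 = 0 := by omega

theorem m2 (p1 : r1 < 7) (p4 : r4 < 7) (p7 : r7 < 7) :
    (r1 + r4 + r7 + (21 - (r1 + r4 + r7)) % 7) % 7 = 0 := by omega

theorem m4 (p1 : r1 < 7) (p2 : r2 < 7) (p4 : r4 < 7) (p5 : r5 < 7) (p7 : r7 < 7) :
    ((r4 + r5 + r7) % 7 + (r1 + r2 + r7) % 7 + (21 - (r1 + r4 + r7)) % 7 +
      (21 - (r2 + r5 + r7)) % 7) % 7 = 0 := by omega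

end

theorem k8 {c1 c4 c7 c8 j : ℕ} (h : c1 + c4 + c7 + c8 = 2 * (7 * j)) :
    c8 % 7 = (21 - (c1 % 7 + c4 % 7 + c7 % 7)) % 7 := by omega

theorem k0 {c0 c1 c2 c4 c5 c7 j : ℕ} (h : c0 + c1 + c2 + c4 + c5 + c7 = 21 * j) :
    c0 % 7 = (35 - (c1 % 7 + c2 % 7 + c4 % 7 + c5 % 7 + c7 % 7)) % 7 := by omega

theorem k3 {c3 c4 c5 c7 j : ℕ} (h : c3 + 7 * j = c4 + c5 + c7) :
    c3 % 7 = (c4 % 7 + c5 % 7 + c7 % 7) % 7 := by omega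

theorem kl {c0 c1 c2 c3 c4 c5 c6 c7 c8 c9 j : ℕ} (h0 : c0 + c1 + c2 + c3 = 2 * (7 * j))
    (h1 : c0 + c4 + c5 + c6 = 2 * (7 * j)) (h2 : c1 + c4 + c7 + c8 = 2 * (7 * j))
    (h3 : c2 + c5 + c7 + c9 = 2 * (7 * j)) (h4 : c3 + c6 + c8 + c9 = 2 * (7 * j)) :
    c0 + c1 + c2 + c4 + c5 + c7 = 21 * j ∧ c3 + 7 * j = c4 + c5 + c7 ∧
      c6 + 7 * j = c1 + c2 + c7 := by omega

theorem fiber_res (j : ℕ) (hj : 5 ≤ j) (S : Finset (Fin 10 → ℕ)) (r1 r2 r4 r5 r7 : ℕ)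
    (p1 : r1 < 7) (p2 : r2 < 7) (p4 : r4 < 7) (p5 : r5 < 7) (p7 : r7 < 7)
    (hS : ∀ c, c ∈ S ↔ (Reg (7 * j) c ∧ Std c) ∧
      (c 1 % 7, c 2 % 7, c 4 % 7, c 5 % 7, c 7 % 7) = (r1, r2, r4, r5, r7)) :
    2 * (S.card : ℤ) = (5 * (j : ℤ) ^ 2 + 5 * j) - (2 * j + 1) * (hh r1 r2 r4 r5 r7 : ℕ) +
        ((hh r1 r2 r4 r5 r7 ^ 2 + 2 : ℕ) : ℤ) - (gg r1 r2 r4 r5 r7 : ℕ) := by
  have hρ : ∀ e, rho r1 r2 r4 r5 r7 e < 7 := by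
    intro e
    fin_cases e
    exacts [Nat.mod_lt _ (by norm_num), p1, p2, Nat.mod_lt _ (by norm_num), p4, p5,
      Nat.mod_lt _ (by norm_num), p7, Nat.mod_lt _ (by norm_num), Nat.mod_lt _ (by norm_num)]
  have key := fiber_card j hj S (rho r1 r2 r4 r5 r7) hρ
    (((35 - (r1 + r2 + r4 + r5 + r7)) % 7 + r1 + r2 + (r4 + r5 + r7) % 7) / 7)
    (((35 - (r1 + r2 + r4 + r5 + r7)) % 7 + r4 + r5 + (r1 + r2 + r7) % 7) / 7)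
    ((r1 + r4 + r7 + (21 - (r1 + r4 + r7)) % 7) / 7)
    ((r2 + r5 + r7 + (21 - (r2 + r5 + r7)) % 7) / 7)
    (((r4 + r5 + r7) % 7 + (r1 + r2 + r7) % 7 + (21 - (r1 + r4 + r7)) % 7 +
      (21 - (r2 + r5 + r7)) % 7) / 7) (hh r1 r2 r4 r5 r7)
    (br1 (m0 p1 p2 p4 p5 p7)) (br1 (m1 p1 p2 p4 p5 p7)) (br1 (m2 p1 p4 p7)) (br1 (m2 p2 p5 p7))
    (br1 (m4 p1 p2 p4 p5 p7))
    (br2 (m0 p1 p2 p4 p5 p7) (m1 p1 p2 p4 p5 p7) (m2 p1 p4 p7) (m2 p2 p5 p7) (m4 p1 p2 p4 p5 p7)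
      (by ring)) ?_
  · rw [key, gg]
    simp only [Nat.cast_add, Nat.cast_pow, Nat.cast_ofNat]
    ring
  · intro c
    rw [hS, and_assoc]
    refine and_congr_right fun hR => and_congr_right fun _ => ?_
    obtain ⟨h0, h1, h2, h3, h4⟩ := hR
    simp only [Prod.mk.injEq]
    constructor
    · rintro ⟨rfl, rfl, rfl, rfl, rfl⟩ e
      obtain ⟨l0, l3, l6⟩ := kl h0 h1 h2 h3 h4
      fin_cases e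
      exacts [k0 l0, rfl, rfl, k3 l3, rfl, rfl, k3 l6, rfl, k8 h2, k8 h3]
    · intro h
      exact ⟨h 1, h 2, h 4, h 5, h 7⟩

end CountAux

open CountAux in
theorem count_std (j : ℕ) (hj : 5 ≤ j) :
    2 * (Nat.card {e : Fin 10 → ℕ // Reg (7 * j) e ∧ Std e} : ℤ) =
      1715 * (7 * (j : ℤ)) * (7 * (j : ℤ) - 5) + 9604 := by
  classical
  obtain ⟨S, hS⟩ : ∃ S : Finset (Fin 10 → ℕ), ∀ e, e ∈ S ↔ Reg (7 * j) e ∧ Std e := by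
    refine ⟨(Fintype.piFinset fun _ : Fin 10 => range (14 * j + 1)).filter
      fun e => Reg (7 * j) e ∧ Std e, fun c => ?_⟩
    rw [mem_filter, and_iff_right_iff_imp, Fintype.mem_piFinset]
    rintro ⟨⟨h0, h1, h2, h3, h4⟩, -⟩ e
    rw [mem_range]
    have key : c 0 < 14 * j + 1 ∧ c 1 < 14 * j + 1 ∧ c 2 < 14 * j + 1 ∧ c 3 < 14 * j + 1 ∧
      c 4 < 14 * j + 1 ∧ c 5 < 14 * j + 1 ∧ c 6 < 14 * j + 1 ∧ c 7 < 14 * j + 1 ∧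
      c 8 < 14 * j + 1 ∧ c 9 < 14 * j + 1 := by
      refine ⟨?_, ?_, ?_, ?_, ?_, ?_, ?_, ?_, ?_, ?_⟩ <;> omega
    obtain ⟨a0, a1, a2, a3, a4, a5, a6, a7, a8, a9⟩ := key
    fin_cases e
    exacts [a0, a1, a2, a3, a4, a5, a6, a7, a8, a9]
  rw [Nat.subtype_card S hS]
  have hmap : ∀ c ∈ S, (c 1 % 7, c 2 % 7, c 4 % 7, c 5 % 7, c 7 % 7) ∈ res := by
    intro c _
    have h7 : ∀ x : ℕ, x % 7 < 7 := fun x => Nat.mod_lt _ (by norm_num)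
    simp only [res, mem_product, mem_range, h7, and_self]
  rw [card_eq_sum_card_fiberwise hmap, Nat.cast_sum, mul_sum]
  have hfib : ∀ r ∈ res, 2 * ((S.filter fun c =>
      (c 1 % 7, c 2 % 7, c 4 % 7, c 5 % 7, c 7 % 7) = r).card : ℤ) =
      (5 * (j : ℤ) ^ 2 + 5 * j) - (2 * j + 1) * (hh r.1 r.2.1 r.2.2.1 r.2.2.2.1 r.2.2.2.2 : ℕ) +
        ((hh r.1 r.2.1 r.2.2.1 r.2.2.2.1 r.2.2.2.2 ^ 2 + 2 : ℕ) : ℤ) -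
        (gg r.1 r.2.1 r.2.2.1 r.2.2.2.1 r.2.2.2.2 : ℕ) := by
    rintro ⟨r1, r2, r4, r5, r7⟩ hr
    simp only [res, mem_product, mem_range] at hr
    obtain ⟨p1, p2, p4, p5, p7⟩ := hr
    exact fiber_res j hj _ r1 r2 r4 r5 r7 p1 p2 p4 p5 p7 fun c => by rw [mem_filter, hS]
  have s1 := (sum_res hh).trans sum_hh
  have s2 := (sum_res fun a b c d e => hh a b c d e ^ 2 + 2).trans sum_gg
  rw [← sum_res gg] at s2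
  rw [sum_congr rfl hfib, sum_sub_distrib, sum_add_distrib, sum_sub_distrib, ← mul_sum,
    ← Nat.cast_sum, ← Nat.cast_sum, ← Nat.cast_sum, sum_const, card_res, s1, s2]
  generalize ∑ r ∈ res, gg r.1 r.2.1 r.2.2.1 r.2.2.2.1 r.2.2.2.2 = G
  rw [nsmul_eq_mul]
  push_cast
  ring

end Pool.Agent.Lib.MP_cf0da3_ag
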