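import Pool.Agent.Lib.MP_cf0da3_ag.Defs

/-! Counting standard monomials. -/

namespace Pool.Agent.Lib.MP_cf0da3_ag

open Module Filter Finset

namespace CountAux

theorem sum_sub_left (k : ℕ) : ∀ n, k ≤ n → 2 * ∑ a ∈ range n, (k - a) = k * (k + 1) := by
  induction k with
  | zero => intro n _; simp
  | succ k ih =>
    intro n hn
    obtain ⟨n, rfl⟩ : ∃ n', n = n' + 1 := ⟨n - 1, by omega⟩
    rw [sum_range_succ']
    simp only [Nat.add_sub_add_right, Nat.sub_zero]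
    have := ih n (by omega)
    linarith

theorem sum_sub_right (l A : ℕ) : 2 * ∑ a ∈ range (A + 1), (a - l) = (A - l) * (A - l + 1) := by
  induction A with
  | zero => simp
  | succ A ih =>
    rw [sum_range_succ, mul_add, ih]
    rcases le_or_gt l A with h | h
    · obtain ⟨x, rfl⟩ := Nat.exists_eq_add_of_le h
      have h1 : l + x + 1 - l = x + 1 := by omega
      have h2 : l + x - l = x := by omega
      rw [h1, h2]
      ring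
    · have h1 : A + 1 - l = 0 := by omega
      have h2 : A - l = 0 := by omega
      rw [h1, h2]

/-- The lattice points of a rectangle with three corners cut off. -/
def region (A B P Q R : ℕ) : Finset (ℕ × ℕ) :=
  (range (A + 1) ×ˢ range (B + 1)).filter fun x => x.2 ≤ x.1 + P ∧ x.1 ≤ x.2 + Q ∧ x.1 + x.2 ≤ R

theorem mem_region {A B P Q R : ℕ} {x : ℕ × ℕ} : x ∈ region A B P Q R ↔
    x.1 ≤ A ∧ x.2 ≤ B ∧ x.2 ≤ x.1 + P ∧ x.1 ≤ x.2 + Q ∧ x.1 + x.2 ≤ R := by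
  simp only [region, mem_filter, mem_product, mem_range]
  omega

theorem card_region (A B P Q R : ℕ) (h1 : P ≤ B) (h2 : Q ≤ A) (h3 : B ≤ R) (h4 : R ≤ A + B)
    (h5 : 2 * B ≤ P + R) (h6 : 2 * A ≤ Q + R) (h7 : A ≤ R) :
    2 * (region A B P Q R).card + (B - P) * (B - P + 1) + (A - Q) * (A - Q + 1) +
      (A - (R - B)) * (A - (R - B) + 1) = 2 * ((A + 1) * (B + 1)) := by
  have hc : (region A B P Q R).card =
      ∑ a ∈ range (A + 1), (min (min B (a + P)) (R - a) + 1 - (a - Q)) := by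
    rw [region, card_filter, sum_product]
    refine sum_congr rfl fun a ha => ?_
    rw [← card_filter, ← Nat.card_Icc]
    congr 1
    ext b
    simp only [mem_filter, mem_range, mem_Icc] at ha ⊢
    omega
  rw [hc, ← sum_sub_left (B - P) (A + 1) (by omega), ← sum_sub_right, ← sum_sub_right,
    ← mul_add, ← mul_add, ← mul_add, ← sum_add_distrib, ← sum_add_distrib, ← sum_add_distrib]
  congr 1
  rw [sum_congr rfl (g := fun _ => B + 1), sum_const, card_range, smul_eq_mul]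
  intro a ha
  simp only [mem_range] at ha
  omega

theorem card_region_beta (b0 b1 b2 b3 b4 s j : ℕ) (hs : b0 + b1 + b2 + b3 + b4 = 2 * s)
    (hj : 5 ≤ j) (l0 : 2 * j ≤ b0 + 3) (l1 : 2 * j ≤ b1 + 3) (l2 : 2 * j ≤ b2 + 3)
    (l3 : 2 * j ≤ b3 + 3) (l4 : 2 * j ≤ b4 + 3) (u0 : b0 ≤ 2 * j) (u1 : b1 ≤ 2 * j)
    (u2 : b2 ≤ 2 * j) (u3 : b3 ≤ 2 * j) (u4 : b4 ≤ 2 * j) :
    2 * ((region (min b0 b1) (min b3 b4) (s - b0 - b1) (s - b3 - b4) (s - b2)).card : ℤ) =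
      (s : ℤ) ^ 2 + s + 2 - (b0 ^ 2 + b1 ^ 2 + b2 ^ 2 + b3 ^ 2 + b4 ^ 2) := by
  have h := card_region (min b0 b1) (min b3 b4) (s - b0 - b1) (s - b3 - b4) (s - b2)
    (by omega) (by omega) (by omega) (by omega) (by omega) (by omega) (by omega)
  set N := (region (min b0 b1) (min b3 b4) (s - b0 - b1) (s - b3 - b4) (s - b2)).card
  set A := min b0 b1 with hA
  set B := min b3 b4 with hB
  obtain ⟨x, hx⟩ : ∃ x, x = B - (s - b0 - b1) := ⟨_, rfl⟩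
  obtain ⟨y, hy⟩ : ∃ y, y = A - (s - b3 - b4) := ⟨_, rfl⟩
  obtain ⟨z, hz⟩ : ∃ z, z = A - (s - b2 - B) := ⟨_, rfl⟩
  rw [← hx, ← hy, ← hz] at h
  have ex : (x : ℤ) = B - s + b0 + b1 := by omega
  have ey : (y : ℤ) = A - s + b3 + b4 := by omega
  have ez : (z : ℤ) = A + B - s + b2 := by omega
  have eb : (b2 : ℤ) = 2 * s - b0 - b1 - b3 - b4 := by omega
  have hz2 : (2 * N + x * (x + 1) + y * (y + 1) + z * (z + 1) : ℤ) = 2 * ((A + 1) * (B + 1)) := by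
    exact_mod_cast h
  rw [ex, ey, ez] at hz2
  have eA : ((A : ℤ) - b0) * (A - b1) = 0 := by
    rcases le_total b0 b1 with h | h
    · rw [hA, min_eq_left h]; ring
    · rw [hA, min_eq_right h]; ring
  have eB : ((B : ℤ) - b3) * (B - b4) = 0 := by
    rcases le_total b3 b4 with h | h
    · rw [hB, min_eq_left h]; ring
    · rw [hB, min_eq_right h]; ring
  rw [eb] at hz2 ⊢
  linear_combination hz2 - 2 * eA - 2 * eB

/-- The non-nested multigraph with given degrees and given `c 0 = a`, `c 9 = b`. -/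
def nn (b0 b1 b3 b4 s a b : ℕ) : Fin 10 → ℕ :=
  ![a, min b0 (s - b3 - b4 + b) - a, min b0 (s - b4) - (s - b3 - b4 + b), b0 - (s - b4),
    min (b0 + b1 - a) (s - b3 - b4 + b) - b0,
    min (b0 + b1 - a) (s - b4) - max b0 (s - b3 - b4 + b),
    (b0 + b1 - a) - max b0 (s - b4),
    min (s - b) (s - b4) - max (b0 + b1 - a) (s - b3 - b4 + b),
    (s - b) - max (b0 + b1 - a) (s - b4), b]

theorem nn_unique (b0 b1 b2 b3 b4 s q0 q1 q2 q3 q4 q5 q6 q7 q8 q9 : ℕ)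
    (hs : b0 + b1 + b2 + b3 + b4 = 2 * s) (hP : b0 + b1 ≤ s) (hQ : b3 + b4 ≤ s)
    (d0 : q0 + q1 + q2 + q3 = b0) (d1 : q0 + q4 + q5 + q6 = b1) (d2 : q1 + q4 + q7 + q8 = b2)
    (d3 : q2 + q5 + q7 + q9 = b3) (d4 : q3 + q6 + q8 + q9 = b4)
    (n1 : q2 = 0 ∨ q4 = 0) (n2 : q3 = 0 ∨ q4 = 0) (n3 : q3 = 0 ∨ q5 = 0) (n4 : q3 = 0 ∨ q7 = 0)
    (n5 : q6 = 0 ∨ q7 = 0) :
    nn b0 b1 b3 b4 s q0 q9 = ![q0, q1, q2, q3, q4, q5, q6, q7, q8, q9] := by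
  have e : s - b3 - b4 + q9 = q0 + q1 + q4 := by omega
  have e2 : s - b4 = q0 + q1 + q4 + q2 + q5 + q7 := by omega
  have e3 : b0 + b1 - q0 = b0 + q4 + q5 + q6 := by omega
  have e4 : s - q9 = b0 + q4 + q5 + q6 + q7 + q8 := by omega
  unfold nn
  rw [e, e2, e3, e4, ← d0]
  clear e e2 e3 e4 hs hP hQ d0 d1 d2 d3 d4
  have f1 : min (q0 + q1 + q2 + q3) (q0 + q1 + q4) - q0 = q1 := by omega
  have f2 : min (q0 + q1 + q2 + q3) (q0 + q1 + q4 + q2 + q5 + q7) - (q0 + q1 + q4) = q2 := by omega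
  have f3 : (q0 + q1 + q2 + q3) - (q0 + q1 + q4 + q2 + q5 + q7) = q3 := by omega
  have f4 : min (q0 + q1 + q2 + q3 + q4 + q5 + q6) (q0 + q1 + q4) - (q0 + q1 + q2 + q3) = q4 := by
    omega
  have f5 : min (q0 + q1 + q2 + q3 + q4 + q5 + q6) (q0 + q1 + q4 + q2 + q5 + q7) -
      max (q0 + q1 + q2 + q3) (q0 + q1 + q4) = q5 := by omega
  have f6 : (q0 + q1 + q2 + q3 + q4 + q5 + q6) -
      max (q0 + q1 + q2 + q3) (q0 + q1 + q4 + q2 + q5 + q7) = q6 := by omega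
  have f7 : min (q0 + q1 + q2 + q3 + q4 + q5 + q6 + q7 + q8) (q0 + q1 + q4 + q2 + q5 + q7) -
      max (q0 + q1 + q2 + q3 + q4 + q5 + q6) (q0 + q1 + q4) = q7 := by omega
  have f8 : (q0 + q1 + q2 + q3 + q4 + q5 + q6 + q7 + q8) -
      max (q0 + q1 + q2 + q3 + q4 + q5 + q6) (q0 + q1 + q4 + q2 + q5 + q7) = q8 := by omega
  rw [f1, f2, f3, f4, f5, f6, f7, f8]

theorem nn_exists (b0 b1 b2 b3 b4 s a b : ℕ)
    (hs : b0 + b1 + b2 + b3 + b4 = 2 * s) (hP : b0 + b1 ≤ s) (hQ : b3 + b4 ≤ s) (hR : b2 ≤ s)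
    (r1 : a ≤ b0) (r2 : a ≤ b1) (r3 : b ≤ b3) (r4 : b ≤ b4) (r5 : b ≤ a + (s - b0 - b1))
    (r6 : a ≤ b + (s - b3 - b4)) (r7 : a + b ≤ s - b2) :
    ∃ q1 q2 q3 q4 q5 q6 q7 q8 : ℕ, nn b0 b1 b3 b4 s a b = ![a, q1, q2, q3, q4, q5, q6, q7, q8, b] ∧
      a + q1 + q2 + q3 = b0 ∧ a + q4 + q5 + q6 = b1 ∧ q1 + q4 + q7 + q8 = b2 ∧
      q2 + q5 + q7 + b = b3 ∧ q3 + q6 + q8 + b = b4 ∧
      (q2 = 0 ∨ q4 = 0) ∧ (q3 = 0 ∨ q4 = 0) ∧ (q3 = 0 ∨ q5 = 0) ∧ (q3 = 0 ∨ q7 = 0) ∧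
      (q6 = 0 ∨ q7 = 0) := by
  refine ⟨_, _, _, _, _, _, _, _, rfl, ?_⟩
  obtain ⟨U2, hU2⟩ : ∃ x, x = s - b3 - b4 + b := ⟨_, rfl⟩
  obtain ⟨U3, hU3⟩ : ∃ x, x = s - b4 := ⟨_, rfl⟩
  obtain ⟨T1, hT1⟩ : ∃ x, x = b0 + b1 - a := ⟨_, rfl⟩
  obtain ⟨T2, hT2⟩ : ∃ x, x = s - b := ⟨_, rfl⟩
  rw [← hU2, ← hU3, ← hT1, ← hT2]
  have g1 : a ≤ U2 := by omega
  have g2 : U2 + b3 = U3 + b := by omega
  have g3 : U3 + b4 = s := by omega
  have g4 : T1 + a = b0 + b1 := by omega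
  have g5 : T2 + b = s := by omega
  have g6 : U2 ≤ T1 := by omega
  have g7 : T1 ≤ T2 := by omega
  have g8 : T2 + U2 = b2 + T1 + a := by omega
  clear hU2 hU3 hT1 hT2 r5 r6 r7 hs hP hQ hR
  refine ⟨?_, ?_, ?_, ?_, ?_, ?_, ?_, ?_, ?_, ?_⟩ <;> omega

end CountAux

end Pool.Agent.Lib.MP_cf0da3_ag
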