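import Pool.Agent.Lib.MP_cf0da3_ag.CfgBasic

/-! Auxiliary results: homogeneous polynomials, extension to the fraction field, transport of
configurations along semilinear isomorphisms. -/

namespace Pool.Agent.Lib.MP_cf0da3_ag

open Module Filter MvPolynomial

section Homog

variable {k A J : Type*} [CommRing k] [CommRing A] [Algebra k A]

theorem mem_span_range_pow (x : J → A) (m : ℕ) (y : A) :
    y ∈ Submodule.span k (Set.range x) ^ m ↔
      ∃ f : MvPolynomial J k, f.IsHomogeneous m ∧ aeval x f = y := by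
  have h1 : Submodule.span k (Set.range x) =
      (homogeneousSubmodule J k 1).map (aeval x : MvPolynomial J k →ₐ[k] A).toLinearMap := by
    simp [homogeneousSubmodule_one_eq_span_X, Submodule.map_span, ← Set.range_comp,
      Function.comp_def]
  rw [h1, ← Submodule.map_pow, homogeneousSubmodule_one_pow]
  simp

theorem aeval_mul_of_isHomogeneous {f : MvPolynomial J k} {m : ℕ} (hf : f.IsHomogeneous m)
    (c : A) (x : J → A) : aeval (fun j => c * x j) f = c ^ m * aeval x f := by
  rw [aeval_def, aeval_def, eval₂_eq, eval₂_eq, Finset.mul_sum]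
  refine Finset.sum_congr rfl fun d hd => ?_
  simp only [mul_pow]
  rw [Finset.prod_mul_distrib, Finset.prod_pow_eq_pow_sum, ← hf.degree_eq_sum_deg_support hd]
  ring

theorem map_eq_zero_of_homog {M : Type*} [Ring M] [Algebra k M] {x : J → A}
    {ψ : MvPolynomial J k →ₐ[k] M} {l : MvPolynomial J k} (hl : l.IsHomogeneous 1)
    (hx : aeval x l = 1) (hψ : ψ l = 1)
    (h : ∀ (m : ℕ) (f : MvPolynomial J k), f.IsHomogeneous m → aeval x f = 0 → ψ f = 0)
    (f : MvPolynomial J k) (hf : aeval x f = 0) : ψ f = 0 := by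
  let F : MvPolynomial J k := ∑ n ∈ Finset.range (f.totalDegree + 1),
    homogeneousComponent n f * l ^ (f.totalDegree - n)
  have hF : F.IsHomogeneous f.totalDegree := by
    apply IsHomogeneous.sum
    intro n hn
    have h1 := (homogeneousComponent_isHomogeneous n f).mul (hl.pow (f.totalDegree - n))
    have h2 : n + 1 * (f.totalDegree - n) = f.totalDegree := by
      have := Finset.mem_range.1 hn
      omega
    rwa [h2] at h1
  have h1 : aeval x F = aeval x f := by
    conv_rhs => rw [← sum_homogeneousComponent f]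
    simp [F, hx]
  have h2 : ψ F = ψ f := by
    conv_rhs => rw [← sum_homogeneousComponent f]
    simp [F, hψ]
  rw [← h2]
  exact h _ F hF (h1.trans hf)

end Homog

/-- Extension of a ring homomorphism to a field of fractions. -/
theorem exists_ringHom_extend {R K M : Type*} [CommRing R] [Field K] [Ring M] (ev : R →+* K)
    (ψ : R →+* M) (hsurj : ∀ y, ∃ a b, ev b ≠ 0 ∧ y * ev b = ev a)
    (hker : ∀ a, ev a = 0 → ψ a = 0) (hunit : ∀ a, ev a ≠ 0 → IsUnit (ψ a)) :
    ∃ ρ : K →+* M, ∀ a, ρ (ev a) = ψ a := by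
  let Q : K → M → Prop := fun y m => ∃ a b, ev b ≠ 0 ∧ y * ev b = ev a ∧ m * ψ b = ψ a
  have hcongr : ∀ a b, ev a = ev b → ψ a = ψ b := by
    intro a b hab
    have := hker (a - b) (by rw [map_sub, hab, sub_self])
    rwa [map_sub, sub_eq_zero] at this
  have huniq : ∀ y m m', Q y m → Q y m' → m = m' := by
    rintro y m m' ⟨a, b, hb, h1, h2⟩ ⟨a', b', hb', h1', h2'⟩
    have hu := hunit (b * b') (by rw [map_mul]; exact mul_ne_zero hb hb')
    apply hu.mul_right_cancel
    have h3 : ψ (a * b') = ψ (a' * b) := by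
      apply hcongr
      rw [map_mul, map_mul, ← h1, ← h1']
      ring
    calc m * ψ (b * b') = ψ (a * b') := by rw [map_mul, ← mul_assoc, h2, map_mul]
      _ = ψ (a' * b) := h3
      _ = m' * ψ (b * b') := by rw [mul_comm b b', map_mul, map_mul, ← mul_assoc, h2']
  have hex : ∀ y, ∃ m, Q y m := by
    intro y
    obtain ⟨a, b, hb, h1⟩ := hsurj y
    obtain ⟨u, hu⟩ := hunit b hb
    refine ⟨ψ a * (u⁻¹ : Mˣ), a, b, hb, h1, ?_⟩
    rw [← hu, mul_assoc, Units.inv_mul, mul_one]
  choose r hr using hex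
  have hev : ∀ a, Q (ev a) (ψ a) := fun a => ⟨a, 1, by simp, by simp, by simp⟩
  have hadd : ∀ y y' m m', Q y m → Q y' m' → Q (y + y') (m + m') := by
    rintro y y' m m' ⟨a, b, hb, h1, h2⟩ ⟨a', b', hb', h1', h2'⟩
    refine ⟨a * b' + a' * b, b * b', by rw [map_mul]; exact mul_ne_zero hb hb', ?_, ?_⟩
    · rw [map_add, map_mul, map_mul, map_mul, ← h1, ← h1']
      ring
    · rw [add_mul, map_add]
      congr 1
      · rw [map_mul, ← mul_assoc, h2, map_mul]
      · rw [mul_comm b b', map_mul, ← mul_assoc, h2', map_mul]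
  have hmul : ∀ y y' m m', Q y m → Q y' m' → Q (y * y') (m * m') := by
    rintro y y' m m' ⟨a, b, hb, h1, h2⟩ ⟨a', b', hb', h1', h2'⟩
    refine ⟨a * a', b' * b, by rw [map_mul]; exact mul_ne_zero hb' hb, ?_, ?_⟩
    · rw [map_mul, map_mul, ← h1, ← h1']
      ring
    · calc m * m' * ψ (b' * b) = m * (m' * ψ b' * ψ b) := by
            rw [map_mul]; simp only [mul_assoc]
        _ = m * ψ (a' * b) := by rw [h2', map_mul]
        _ = m * ψ b * ψ a' := by rw [mul_comm a' b, map_mul, mul_assoc]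
        _ = ψ (a * a') := by rw [h2, map_mul]
  have hr' : ∀ a, r (ev a) = ψ a := fun a => huniq _ _ _ (hr _) (hev a)
  refine ⟨{ toFun := r
            map_one' := by simpa using hr' 1
            map_mul' := fun y y' => huniq _ _ _ (hr _) (hmul _ _ _ _ (hr y) (hr y'))
            map_zero' := by simpa using hr' 0
            map_add' := fun y y' => huniq _ _ _ (hr _) (hadd _ _ _ _ (hr y) (hr y')) }, hr'⟩

namespace Cfg

variable {K K' : Type} [Field K] [Field K'] (C : Cfg K)

/-- Transport of a configuration along a field homomorphism. -/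
def map (Φ : K →+* K') : Cfg K' where
  a := fun i => Φ (C.a i)
  b := fun i => Φ (C.b i)
  z := fun i j => Φ (C.z i j)
  anti := fun i j => by rw [C.anti i j, map_neg]
  pow7 := fun i j => by rw [← map_pow, C.pow7, map_sub, map_mul, map_mul]
  ne := fun i j h => (map_ne_zero Φ).2 (C.ne i j h)

theorem map_xs (Φ : K →+* K') (σ : Equiv.Perm (Fin 5)) : (C.map Φ).xs σ = Φ (C.xs σ) := by
  simp [xs, map]

theorem map_xn (Φ : K →+* K') (j : Fin (119 + 1)) : (C.map Φ).xn j = Φ (C.xn j) :=
  C.map_xs Φ _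

theorem map_zmon (Φ : K →+* K') (c : Fin 10 → ℕ) : (C.map Φ).zmon c = Φ (C.zmon c) := by
  simp only [zmon, map, map_prod, map_pow]

variable (k : Type) [Field k] [Algebra k K]

theorem Wc_eq (c : K) : C.Wc k c = Submodule.span k (Set.range fun j => c * C.xn j) := by
  unfold Wc
  congr 1
  exact (eqv.surjective.range_comp fun σ => c * C.xs σ).symm

theorem mem_Wc_pow (c : K) (m : ℕ) (y : K) :
    y ∈ C.Wc k c ^ m ↔ ∃ f : MvPolynomial (Fin (119 + 1)) k, f.IsHomogeneous m ∧
      aeval (fun j => c * C.xn j) f = y := by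
  rw [Wc_eq, mem_span_range_pow]

theorem mul_mem_Wc_pow (c : K) {m : ℕ} {y : K} (hy : y ∈ C.Wc k 1 ^ m) :
    c ^ m * y ∈ C.Wc k c ^ m := by
  obtain ⟨f, hf, rfl⟩ := (C.mem_Wc_pow k 1 m y).1 hy
  refine (C.mem_Wc_pow k c m _).2 ⟨f, hf, ?_⟩
  rw [aeval_mul_of_isHomogeneous hf, aeval_mul_of_isHomogeneous hf, one_pow, one_mul]

theorem exists_xn_ne_zero : ∃ j, C.xn j ≠ 0 := by
  refine ⟨eqv.symm (finRotate 5), ?_⟩
  rw [xn, Equiv.apply_symm_apply, xs]
  refine Finset.prod_ne_zero_iff.2 fun i _ => C.ne _ _ ?_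
  revert i
  decide

variable {k} [Algebra k K']

theorem map_mem_Wc_pow {σ : k →+* k} {Φ : K →+* K'}
    (h : ∀ a, Φ (algebraMap k K a) = algebraMap k K' (σ a)) (c : K) {m : ℕ} {y : K}
    (hy : y ∈ C.Wc k c ^ m) : Φ y ∈ (C.map Φ).Wc k (Φ c) ^ m := by
  obtain ⟨f, hf, rfl⟩ := (C.mem_Wc_pow k c m y).1 hy
  refine ((C.map Φ).mem_Wc_pow k _ m _).2 ⟨MvPolynomial.map σ f, hf.map σ, ?_⟩
  rw [aeval_def, aeval_def, eval₂_map, eval₂_comp_left]
  congr 1
  · ext a
    simp [h]
  · funext j
    simp [map_xn]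

theorem map_map_symm (Φ : K ≃+* K') : (C.map (Φ : K →+* K')).map (Φ.symm : K' →+* K) = C := by
  cases C
  simp [map]

theorem Good.map {C : Cfg K} (hC : C.Good k) (σ : k ≃+* k) (Φ : K ≃+* K')
    (h : ∀ a, Φ (algebraMap k K a) = algebraMap k K' (σ a)) :
    (C.map (Φ : K →+* K')).Good k := by
  have h' : ∀ a, Φ.symm (algebraMap k K' a) = algebraMap k K (σ.symm a) := by
    intro a
    apply Φ.injective
    rw [h]
    simp
  refine ⟨fun m => ?_, fun x => ?_, ?_⟩
  · have h1 := (hC.indep m).map_of_surjective_injective (σ : k → k)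
      ((Φ : K →+* K') : K →+ K') σ.surjective (fun y hy => by simpa using hy)
      (fun r y => by simp [Algebra.smul_def, h])
    have h2 : (fun e : {e : Fin 10 → ℕ // Reg m e ∧ Std e} => (C.map (Φ : K →+* K')).zmon e.1) =
        ((Φ : K →+* K') : K →+ K') ∘ fun e => C.zmon e.1 := by
      funext e
      simp [map_zmon]
    rw [h2]
    exact h1
  · obtain ⟨m, y, hy, hy0, hyx⟩ := hC.frac (Φ.symm x)
    have h1 := C.map_mem_Wc_pow (σ := (σ : k →+* k)) (Φ := (Φ : K →+* K')) h 1 hy
    have h2 := C.map_mem_Wc_pow (σ := (σ : k →+* k)) (Φ := (Φ : K →+* K')) h 1 hyx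
    refine ⟨m, Φ y, by simpa using h1, by simpa using hy0, by simpa using h2⟩
  · obtain ⟨t, ht⟩ := hC.trdeg
    have h1 : AlgebraicIndependent k ((Φ : K →+* K') ∘ t) :=
      ht.1.ringHom_of_comp_eq (σ : k →+* k) (Φ : K →+* K') σ.surjective Φ.injective
        (RingHom.ext fun a => (h a).symm)
    refine ⟨_, h1.isTranscendenceBasis_of_trdeg_le_of_finite ?_⟩
    obtain ⟨s, hs⟩ := exists_isTranscendenceBasis k K'
    have h2 := hs.1.ringHom_of_comp_eq (σ.symm : k →+* k) (Φ.symm : K' →+* K) σ.symm.surjective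
      Φ.symm.injective (RingHom.ext fun a => (h' a).symm)
    rw [← hs.cardinalMk_eq_trdeg, ht.cardinalMk_eq_trdeg]
    exact h2.cardinalMk_le_trdeg

end Cfg

/-- Column vectors, as a module over a field acting through matrices. -/
def Vec {K F : Type} [Field K] [Field F] {N : ℕ} (_ρ : K →+* Matrix (Fin N) (Fin N) F) : Type :=
  Fin N → F

namespace Vec

variable {K F : Type} [Field K] [Field F] {N : ℕ} (ρ : K →+* Matrix (Fin N) (Fin N) F)

instance : AddCommGroup (Vec ρ) := Pi.addCommGroup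

instance : Module K (Vec ρ) where
  smul y v := (ρ y).mulVec v
  one_smul v := by
    change (ρ 1).mulVec v = v
    rw [map_one]
    exact Matrix.one_mulVec _
  mul_smul x y v := by
    change (ρ (x * y)).mulVec v = (ρ x).mulVec ((ρ y).mulVec v)
    rw [map_mul]
    exact (Matrix.mulVec_mulVec _ _ _).symm
  smul_zero x := Matrix.mulVec_zero _
  smul_add x v w := Matrix.mulVec_add _ _ _
  add_smul x y v := by
    change (ρ (x + y)).mulVec v = (ρ x).mulVec v + (ρ y).mulVec v
    rw [map_add]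
    exact Matrix.add_mulVec _ _ _
  zero_smul v := by
    change (ρ 0).mulVec v = 0
    rw [map_zero]
    exact Matrix.zero_mulVec _

/-- The identification with column vectors. -/
def toFun : Vec ρ ≃+ (Fin N → F) := AddEquiv.refl _

theorem toFun_smul (y : K) (v : Vec ρ) : toFun ρ (y • v) = (ρ y).mulVec (toFun ρ v) := rfl

/-- The standard basis. -/
def e (i : Fin N) : Vec ρ := (toFun ρ).symm (Pi.single i 1)

theorem toFun_e (i : Fin N) : toFun ρ (e ρ i) = Pi.single i 1 := rfl

variable {ρ} {ι : F → K}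

theorem toFun_sum (hρ : ∀ y : F, ρ (ι y) = Matrix.scalar (Fin N) y) (g : Fin N → F) :
    toFun ρ (∑ a, ι (g a) • e ρ a) = g := by
  rw [map_sum]
  funext j
  simp [toFun_smul, toFun_e, hρ, Finset.sum_apply]

theorem smul_e (hρ : ∀ y : F, ρ (ι y) = Matrix.scalar (Fin N) y) (y : K) (i : Fin N) :
    y • e ρ i = ∑ a, ι (ρ y a i) • e ρ a := by
  apply (toFun ρ).injective
  rw [toFun_sum hρ, toFun_smul, toFun_e]
  funext j
  simp

end Vec

end Pool.Agent.Lib.MP_cf0da3_ag
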