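import Pool.Agent.Lib.MP_cf0da3_ag.CfgExist
import Pool.Agent.Lib.MP_cf0da3_ag.Count
import Pool.Agent.Lib.MP_cf0da3_ag.Charts
import Pool.Agent.Lib.MP_cf0da3_ag.DatumA

/-! From an Ulrich module in characteristic `p` to the abstract set-up. -/

namespace Pool.Agent.Lib.MP_cf0da3_ag

open Module Filter

theorem Cfg.geo {K : Type} [Field K] (C : Cfg K) (k : Type) [Field k] [IsAlgClosed k]
    [Algebra k K] (p : ℕ) [Fact p.Prime] [CharP k p] (hp : 7 < p) (hC : C.Good k) {c : K}
    (hc : c ≠ 0) : Geo p (C.Wc k c) := by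
  refine ⟨?_, ?_, ?_, ?_, C.chart k p hp hc⟩
  · exact FiniteDimensional.span_of_finite k (Set.finite_range _)
  · have h1 := finrank_range_le_card (R := k) fun σ : Equiv.Perm (Fin 5) => c * C.xs σ
    have h2 : Fintype.card (Equiv.Perm (Fin 5)) = 120 := by
      simp [Fintype.card_perm, Nat.factorial]
    rw [h2] at h1
    exact h1
  · intro x
    obtain ⟨m, h, hh, h0, hx⟩ := hC.frac x
    refine ⟨m, c ^ m * h, ?_, mul_ne_zero (pow_ne_zero _ hc) h0, ?_⟩
    · rw [Rg_natCast]
      exact C.mul_mem_Wc_pow k c hh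
    · rw [Rg_natCast, mul_assoc]
      exact C.mul_mem_Wc_pow k c hx
  · filter_upwards [eventually_ge_atTop 5] with j hj
    have h1 : (7 * (j : ℤ)) = ((7 * j : ℕ) : ℤ) := by push_cast; ring
    rw [← count_std j hj]
    unfold hf
    rw [h1, Rg_natCast, C.finrank_Wc_pow k hC.indep hc]

open MvPolynomial in
/-- The generic fibre of the Ulrich module as a vector space over the function field. -/
theorem exists_generic_module {N : ℕ} (hN : 0 < N) {k : Type} [Field k] (h : UData k N)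
    {K : Type} [Field K] [Algebra k K] {C : Cfg K} (hC : C.Good k) :
    ∃ (c : K) (s : Fin 2 → K) (V : Type) (_ : AddCommGroup V) (_ : Module K V) (e : Fin N → V),
      c ≠ 0 ∧ (1 : K) ∈ C.Wc k c ∧ (∀ i, s i ∈ C.Wc k c) ∧ AlgebraicIndependent k s ∧
      LinearIndependent (IntermediateField.adjoin k (Set.range s)) e ∧
      Submodule.span (IntermediateField.adjoin k (Set.range s)) (Set.range e) = ⊤ ∧
      ∀ (j : Fin (119 + 1)) (i : Fin N), ∃ f : Fin N → K, (∀ a, f a ∈ U3 k s) ∧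
        (c * C.xn j) • e i = ∑ a, f a • e a := by
  obtain ⟨ℓ, ψ, hℓ, hψ1, hψ2, hψ3⟩ := h
  have : Nonempty (Fin N) := ⟨⟨0, hN⟩⟩
  have hker : ∀ (m : ℕ) (f : MvPolynomial (Fin (119 + 1)) k), f.IsHomogeneous m →
      aeval C.xn f = 0 → ψ f = 0 := by
    intro m f hf h0
    have h1 := C.mem_span_RelZ k hC.indep hf h0
    have h2 : Submodule.span k (MvPolynomial.map (Int.castRingHom k) '' RelZ) ≤
        LinearMap.ker ψ.toLinearMap := by
      rw [Submodule.span_le]
      rintro _ ⟨g, hg, rfl⟩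
      exact hψ2 g hg
    exact h2 h1
  have hl0 : aeval C.xn (ℓ 0) ≠ 0 := by
    intro h0
    have h1 := hker 1 _ (hℓ 0) h0
    rw [hψ3] at h1
    have h2 := congrFun (congrFun h1 ⟨0, hN⟩) ⟨0, hN⟩
    simp at h2
  let c : K := (aeval C.xn (ℓ 0))⁻¹
  have hc : c ≠ 0 := inv_ne_zero hl0
  let ev : MvPolynomial (Fin (119 + 1)) k →ₐ[k] K := aeval fun j => c * C.xn j
  have hev0 : ev (ℓ 0) = 1 := by
    change aeval (fun j => c * C.xn j) (ℓ 0) = 1
    rw [aeval_mul_of_isHomogeneous (hℓ 0), pow_one]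
    exact inv_mul_cancel₀ hl0
  have hevW : ∀ i, ev (ℓ i) ∈ C.Wc k c := by
    intro i
    have := (C.mem_Wc_pow k c 1 _).2 ⟨ℓ i, hℓ i, rfl⟩
    rwa [pow_one] at this
  let s : Fin 2 → K := fun i => ev (ℓ i.succ)
  let G : MvPolynomial (Fin 2) k →ₐ[k] MvPolynomial (Fin (119 + 1)) k :=
    aeval fun i => ℓ i.succ
  have hG : ∀ g, ev (G g) = aeval s g := by
    intro g
    have : ev.comp G = aeval s := MvPolynomial.algHom_ext fun i => by simp [G, s]
    exact AlgHom.congr_fun this g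
  -- dehomogenised representation
  have hdeh : ∀ (B : Type) [CommRing B] [Algebra k B] (t : Fin 2 → B),
      ∃ ψ' : MvPolynomial (Fin (119 + 1)) k →ₐ[k] Matrix (Fin N) (Fin N) B,
        (∀ f a b, ψ' f a b = aeval ![1, t 0, t 1] (ψ f a b)) ∧ (∀ f, ev f = 0 → ψ' f = 0) ∧
        ∀ g, ψ' (G g) = Matrix.scalar (Fin N) (aeval t g) := by
    intro B _ _ t
    let ψ' : MvPolynomial (Fin (119 + 1)) k →ₐ[k] Matrix (Fin N) (Fin N) B :=
      (AlgHom.mapMatrix (aeval ![1, t 0, t 1] : MvPolynomial (Fin 3) k →ₐ[k] B)).comp ψ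
    have hd : ∀ i, ψ' (ℓ i) = Matrix.diagonal fun _ => ![1, t 0, t 1] i := by
      intro i
      simp [ψ', hψ3, Matrix.diagonal_map]
    refine ⟨ψ', fun f a b => rfl, ?_, ?_⟩
    · refine map_eq_zero_of_homog (hℓ 0) hev0 (by rw [hd]; simp) ?_
      intro m f hf h0
      rw [aeval_mul_of_isHomogeneous hf] at h0
      have h1 := hker m f hf ((mul_eq_zero.1 h0).resolve_left (pow_ne_zero _ hc))
      simp [ψ', h1]
    · intro g
      have : ψ'.comp G = (Matrix.scalarAlgHom (Fin N) k).comp (aeval t) := by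
        refine MvPolynomial.algHom_ext fun i => ?_
        simp only [G, AlgHom.comp_apply, aeval_X, hd]
        fin_cases i <;> simp
      exact AlgHom.congr_fun this g
  have hs : AlgebraicIndependent k s := by
    rw [algebraicIndependent_iff]
    intro g hg
    obtain ⟨ψ', -, h2, h3⟩ := hdeh (MvPolynomial (Fin 2) k) X
    have h4 := h2 (G g) (by rw [hG, hg])
    rw [h3] at h4
    have h5 := congrFun (congrFun h4 ⟨0, hN⟩) ⟨0, hN⟩
    simpa using h5
  have hbasis : IsTranscendenceBasis k s := by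
    obtain ⟨t, ht⟩ := hC.trdeg
    exact hs.isTranscendenceBasis_of_trdeg_le_of_finite ht.cardinalMk_eq_trdeg.ge
  let F : IntermediateField k K := IntermediateField.adjoin k (Set.range s)
  let sF : Fin 2 → F := fun i => ⟨s i, IntermediateField.subset_adjoin k _ ⟨i, rfl⟩⟩
  have hsF : ∀ g : MvPolynomial (Fin 2) k, ((aeval sF g : F) : K) = aeval s g := by
    intro g
    have : F.val.comp (aeval sF) = aeval s := MvPolynomial.algHom_ext fun i => by simp [sF]
    exact AlgHom.congr_fun this g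
  obtain ⟨ψ', hψ'1, hψ'2, hψ'3⟩ := hdeh F sF
  have hunit : ∀ f, ev f ≠ 0 → IsUnit (ψ' f) := by
    intro f hf
    have halg := hbasis.isAlgebraic.isAlgebraic (ev f)
    obtain ⟨q, hq0, hq⟩ := halg.exists_nonzero_coeff_and_aeval_eq_zero
      (mem_nonZeroDivisors_of_ne_zero hf)
    have hrange : ∀ y : Algebra.adjoin k (Set.range s),
        ∃ g : MvPolynomial (Fin 2) k, aeval s g = (y : K) := by
      rintro ⟨y, hy⟩
      rw [Algebra.adjoin_range_eq_range_aeval] at hy
      exact hy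
    have hb : Polynomial.aeval (ev f) q.divX ∈ ev.range := by
      rw [Polynomial.aeval_eq_sum_range]
      refine Subalgebra.sum_mem _ fun i _ => ?_
      obtain ⟨g, hg⟩ := hrange (q.divX.coeff i)
      refine ⟨G g * f ^ i, ?_⟩
      change ev (G g * f ^ i) = (q.divX.coeff i : K) * ev f ^ i
      rw [map_mul, map_pow, hG, hg]
    obtain ⟨b, hb⟩ := hb
    obtain ⟨g, hg⟩ := hrange (q.coeff 0)
    have h1 : ev (f * b + G g) = 0 := by
      rw [← Polynomial.X_mul_divX_add q, map_add, map_mul, Polynomial.aeval_X,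
        Polynomial.aeval_C] at hq
      rw [map_add, map_mul, hG, hg]
      change ev b = _ at hb
      rw [hb]
      exact hq
    have h2 := hψ'2 _ h1
    rw [map_add, map_mul, hψ'3, add_eq_zero_iff_eq_neg] at h2
    have h3 : (aeval sF g : F) ≠ 0 := by
      intro h0
      apply hq0
      apply Subtype.ext
      rw [← hg, ← hsF, h0]
      rfl
    have h4 : IsUnit (ψ' f * ψ' b) := by
      rw [h2]
      exact ((Ne.isUnit h3).map (Matrix.scalar (Fin N))).neg
    exact (((Commute.all f b).map ψ').isUnit_mul_iff.1 h4).1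
  have hsurj : ∀ y : K, ∃ a b, ev b ≠ 0 ∧ y * ev b = ev a := by
    intro y
    obtain ⟨m, h, hh, h0, hy⟩ := hC.frac y
    obtain ⟨b, -, hb⟩ := (C.mem_Wc_pow k c m _).1 (C.mul_mem_Wc_pow k c hh)
    obtain ⟨a, -, ha⟩ := (C.mem_Wc_pow k c m _).1 (C.mul_mem_Wc_pow k c hy)
    change ev b = _ at hb
    change ev a = _ at ha
    refine ⟨a, b, ?_, ?_⟩
    · rw [hb]
      exact mul_ne_zero (pow_ne_zero _ hc) h0
    · rw [ha, hb]
      ring
  obtain ⟨ρ, hρ⟩ := exists_ringHom_extend ev.toRingHom ψ'.toRingHom hsurj hψ'2 hunit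
  have hρ' : ∀ a, ρ (ev a) = ψ' a := hρ
  have hρF : ∀ y : F, ρ (y : K) = Matrix.scalar (Fin N) y := by
    let ρ' : K →ₐ[k] Matrix (Fin N) (Fin N) F :=
      { ρ with
        commutes' := fun a => by
          have h1 := hρ' (algebraMap k _ a)
          rw [AlgHom.commutes, AlgHom.commutes] at h1
          exact h1 }
    have : ρ'.comp F.val = Matrix.scalarAlgHom (Fin N) k := by
      apply IntermediateField.adjoin_algHom_ext
      rintro _ ⟨i, rfl⟩
      have h1 := hρ' (G (X i))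
      rw [hG, hψ'3, aeval_X, aeval_X] at h1
      exact h1
    exact fun y => AlgHom.congr_fun this y
  refine ⟨c, s, Vec ρ, inferInstance, inferInstance, Vec.e ρ, hc, hev0 ▸ hevW 0,
    fun i => hevW _, hs, ?_, ?_, ?_⟩
  · rw [Fintype.linearIndependent_iff]
    intro g hg i
    have h1 := Vec.toFun_sum (ι := fun y : F => (y : K)) hρF g
    have h2 : ∑ a, ((g a : F) : K) • Vec.e ρ a = 0 := hg
    rw [h2, map_zero] at h1
    exact (congrFun h1 i).symm
  · rw [eq_top_iff]
    intro v _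
    have h1 : v = ∑ a, (Vec.toFun ρ v a) • Vec.e ρ a :=
      (Vec.toFun ρ).injective (Vec.toFun_sum (ι := fun y : F => (y : K)) hρF _).symm
    rw [h1]
    exact Submodule.sum_mem _ fun a _ =>
      Submodule.smul_mem _ _ (Submodule.subset_span ⟨a, rfl⟩)
  · intro j i
    refine ⟨_, fun a => ?_, Vec.smul_e (ι := fun y : F => (y : K)) hρF _ i⟩
    have h1 : ρ (c * C.xn j) = ψ' (X j) := by
      rw [← hρ']
      simp [ev]
    have h2 : F.val.comp (aeval ![1, sF 0, sF 1]) = aeval ![1, s 0, s 1] :=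
      MvPolynomial.algHom_ext fun i => by fin_cases i <;> simp [sF]
    have h3 := (mem_span_range_pow (k := k) ![1, s 0, s 1] 1 _).2 ⟨_, hψ1 j a i, rfl⟩
    rw [pow_one, ← h2] at h3
    rw [h1, hψ'1]
    have h4 : Set.range ![1, s 0, s 1] = {1, s 0, s 1} := by
      simp only [Matrix.range_cons, Matrix.range_empty, Set.union_empty, Set.singleton_union]
    rw [h4] at h3
    exact h3

theorem false_of_udata {p N : ℕ} [Fact p.Prime] (hp : 7 < p) (hN : 0 < N) {k : Type} [Field k]
    [IsAlgClosed k] [CharP k p] (h : UData k N)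
    (hcore : ∀ (K K₀ V : Type) [Field K] [Field K₀] [Algebra k K] [Algebra k K₀] [Algebra K₀ K]
      [IsScalarTower k K₀ K] [AddCommGroup V] [Module K₀ V] [Module k V] [IsScalarTower k K₀ V],
      Setup p N k K K₀ V → False) : False := by
  have h7 : (7 : k) ≠ 0 := by
    intro h0
    have h1 : ((7 : ℕ) : k) = 0 := by exact_mod_cast h0
    rw [CharP.cast_eq_zero_iff k p] at h1
    exact absurd (Nat.le_of_dvd (by norm_num) h1) (by omega)
  obtain ⟨K, _, _, C, hC⟩ := exists_good k h7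
  have : CharP K p := charP_of_injective_algebraMap (algebraMap k K).injective p
  let σ : k ≃+* k := frobeniusEquiv k p
  have hσ : ∀ a, σ a = a ^ p := fun a => rfl
  let K₀ : IntermediateField k K := (frobenius K p).fieldRange.toIntermediateField fun a =>
    ⟨algebraMap k K (σ.symm a), by
      rw [frobenius_def, ← map_pow, ← hσ, RingEquiv.apply_symm_apply]⟩
  let Φ₀ : K →+* K₀ := (frobenius K p).codRestrict K₀ fun x => ⟨x, rfl⟩
  have hΦ₀ : Function.Bijective Φ₀ := by
    refine ⟨Φ₀.injective, ?_⟩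
    rintro ⟨_, x, rfl⟩
    exact ⟨x, rfl⟩
  let Φ : K ≃+* K₀ := RingEquiv.ofBijective Φ₀ hΦ₀
  have hΦ : ∀ x, algebraMap K₀ K (Φ x) = x ^ p := fun x => rfl
  have hΦσ : ∀ a, Φ (algebraMap k K a) = algebraMap k K₀ (σ a) := by
    intro a
    apply (algebraMap K₀ K).injective
    rw [hΦ, hσ, ← IsScalarTower.algebraMap_apply, map_pow]
  have hΦσ' : ∀ a, Φ.symm (algebraMap k K₀ a) = algebraMap k K (σ.symm a) := by
    intro a
    apply Φ.injective
    rw [hΦσ]
    simp
  have hC₀ := hC.map σ Φ hΦσ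
  obtain ⟨c₀, s₀, V, _, _, e, hc₀, h1, hs₀, hind, hli, hspan, hmul⟩ :=
    exists_generic_module hN h hC₀
  obtain ⟨c, rfl⟩ := Φ.surjective c₀
  have hc : c ≠ 0 := by simpa using hc₀
  have hW : ∀ x, Φ x ∈ (C.map (Φ : K →+* K₀)).Wc k (Φ c) ↔ x ∈ C.Wc k c := by
    intro x
    constructor
    · intro hx
      rw [← pow_one (Cfg.Wc _ k (Φ c))] at hx
      have h2 := (C.map (Φ : K →+* K₀)).map_mem_Wc_pow (σ := (σ.symm : k →+* k))
        (Φ := (Φ.symm : K₀ →+* K)) hΦσ' _ hx
      rw [Cfg.map_map_symm] at h2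
      simpa using h2
    · intro hx
      rw [← pow_one (C.Wc k c)] at hx
      have h2 := C.map_mem_Wc_pow (σ := (σ : k →+* k)) (Φ := (Φ : K →+* K₀)) hΦσ _ hx
      simpa using h2
  let : Module k V := Module.compHom V (algebraMap k K₀)
  have hsm : ∀ (a : k) (v : V), a • v = algebraMap k K₀ a • v := fun _ _ => rfl
  have : IsScalarTower k K₀ V := ⟨fun a y v => by rw [hsm, Algebra.smul_def, mul_smul]⟩
  refine hcore K K₀ V
    { W := C.Wc k c
      W₀ := (C.map (Φ : K →+* K₀)).Wc k (Φ c)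
      s := fun i => Φ.symm (s₀ i)
      s₀ := s₀
      e := e
      frob_mem := fun x => ⟨Φ x, hΦ x⟩
      frob_surj := fun y => ⟨Φ.symm y, by rw [← hΦ, RingEquiv.apply_symm_apply]⟩
      W₀_iff := ?_
      s₀_eq := fun i => by rw [← hΦ, RingEquiv.apply_symm_apply]
      one_mem := (hW 1).1 (by rw [map_one]; exact h1)
      s_mem := fun i => (hW _).1 (by rw [RingEquiv.apply_symm_apply]; exact hs₀ i)
      algInd := hind.ringHom_of_comp_eq (σ.symm : k →+* k) (Φ.symm : K₀ →+* K)
        σ.symm.surjective Φ.symm.injective (RingHom.ext fun a => (hΦσ' a).symm)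
      geo := C.geo k p hp hC hc
      N_pos := hN
      e_li := hli
      e_span := hspan
      ulrich := ?_ }
  · intro x y hxy
    obtain rfl : y = Φ x := (algebraMap K₀ K).injective (by rw [hxy, hΦ])
    exact hW x
  · have key : ∀ w ∈ (C.map (Φ : K →+* K₀)).Wc k (Φ c), ∀ i,
        w • e i ∈ gen (U3 k s₀) (fun _ => 0) e 1 := by
      intro w hw i
      rw [Cfg.Wc_eq] at hw
      induction hw using Submodule.span_induction with
      | mem x hx =>
        obtain ⟨j, rfl⟩ := hx
        obtain ⟨f, hf, hf'⟩ := hmul j i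
        exact mem_gen.2 ⟨f, fun a => by simpa [Rg_one] using hf a, hf'.symm⟩
      | zero => simp
      | add x y _ _ hx hy => rw [add_smul]; exact Submodule.add_mem _ hx hy
      | smul a x _ hx => rw [smul_assoc]; exact Submodule.smul_mem _ _ hx
    intro t w hw v hv
    obtain ⟨f, hf, rfl⟩ := mem_gen.1 hv
    rw [Finset.smul_sum]
    refine Submodule.sum_mem _ fun i _ => ?_
    rw [smul_comm]
    have := (isMod_gen (U3 k s₀) (fun _ => 0) e).smul_mem (hf i) (key w hw i)
    simpa using this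

end Pool.Agent.Lib.MP_cf0da3_ag
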