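import Mathlib

/-!
Definitions for the counterexample to the existence of Ulrich sheaves.

A graded module is modelled as a family `ℤ → Submodule k V` of finite dimensional `k`-subspaces
of a vector space `V` over the function field `K`; the graded ring is `t ↦ W ^ t`.
-/

namespace Pool.Agent.Lib.MP_cf0da3_ag

open Module Filter TensorProduct

section Lattice

variable {k K : Type*} [Field k] [Field K] [Algebra k K]

/-- The degree `t` piece of the graded ring generated by `W`. -/
def Rg (W : Submodule k K) (t : ℤ) : Submodule k K :=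
  if 0 ≤ t then W ^ t.toNat else ⊥

/-- The span of `1, s 0, s 1`: degree one piece of the dehomogenised polynomial ring. -/
def U3 (k : Type*) {K : Type*} [Field k] [Field K] [Algebra k K] (s : Fin 2 → K) :
    Submodule k K :=
  Submodule.span k {1, s 0, s 1}

/-- Evaluation of a polynomial in three variables at `(1, s 0, s 1)`. -/
noncomputable def ev3 (k : Type*) {K : Type*} [Field k] [Field K] [Algebra k K]
    (s : Fin 2 → K) : MvPolynomial (Fin 3) k →ₐ[k] K :=
  MvPolynomial.aeval ![1, s 0, s 1]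

variable {V : Type*} [AddCommGroup V] [Module K V] [Module k V] [IsScalarTower k K V]

/-- The family `L` is a graded module over the ring generated by `W`. -/
def IsMod (W : Submodule k K) (L : ℤ → Submodule k V) : Prop :=
  ∀ t : ℤ, ∀ w ∈ W, ∀ v ∈ L t, w • v ∈ L (t + 1)

/-- The `k`-linear map `f ↦ f • v`. -/
def smulMap (k K : Type*) {V : Type*} [Field k] [Field K] [Algebra k K] [AddCommGroup V]
    [Module K V] [Module k V] [IsScalarTower k K V] (v : V) : K →ₗ[k] V :=
  (LinearMap.toSpanSingleton K V v).restrictScalars k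

/-- The cyclic graded module generated by `v` placed in degree `b`. -/
def cyc (W : Submodule k K) (b : ℤ) (v : V) : ℤ → Submodule k V :=
  fun t => (Rg W (t - b)).map (smulMap k K v)

/-- The graded module generated by the `v i` placed in degrees `b i`. -/
def gen (W : Submodule k K) {ι : Type*} (b : ι → ℤ) (v : ι → V) : ℤ → Submodule k V :=
  fun t => ⨆ i, cyc W (b i) (v i) t

/-- Finitely generated graded module. -/
def IsFG (W : Submodule k K) (L : ℤ → Submodule k V) : Prop :=
  ∃ (n : ℕ) (b : Fin n → ℤ) (v : Fin n → V), L = gen W b v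

/-- Hilbert function. -/
noncomputable def hf {k V : Type*} [Field k] [AddCommGroup V] [Module k V]
    (L : ℤ → Submodule k V) (t : ℤ) : ℤ :=
  (finrank k (L t) : ℤ)

/-- Eventually a polynomial of degree at most two. -/
def EvQuad (h : ℤ → ℤ) : Prop :=
  ∃ c₂ c₁ c₀ : ℚ, ∀ᶠ t : ℤ in atTop, (h t : ℚ) = c₂ * (t : ℚ) ^ 2 + c₁ * t + c₀

/-- The `K`-span of all the pieces of a family. -/
def spanK (K : Type*) {k V : Type*} [Field k] [Field K] [AddCommGroup V] [Module K V]
    [Module k V] (L : ℤ → Submodule k V) : Submodule K V :=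
  Submodule.span K (⋃ t, (L t : Set V))

/-- The constant family attached to a `K`-subspace. -/
def cst (k : Type*) {K V : Type*} [Field k] [Field K] [Algebra k K] [AddCommGroup V]
    [Module K V] [Module k V] [IsScalarTower k K V] (Y : Submodule K V) : ℤ → Submodule k V :=
  fun _ => Y.restrictScalars k

/-- Standing hypotheses on the graded ring generated by `W`. -/
structure Ctx (W : Submodule k K) : Prop where
  fd : FiniteDimensional k W
  one_mem : (1 : K) ∈ W
  frac : ∀ x : K, ∃ a : ℤ, ∃ h ∈ Rg W a, h ≠ 0 ∧ h * x ∈ Rg W a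
  quad : ∃ s : Fin 2 → K, (∀ i, s i ∈ W) ∧ IsFG (U3 k s) (Rg W)

/-- Homogeneous prime ideal. -/
structure IsPrimeFam (W : Submodule k K) (q : ℤ → Submodule k K) : Prop where
  le : ∀ t, q t ≤ Rg W t
  isMod : IsMod W q
  one_notMem : (1 : K) ∉ q 0
  prime : ∀ a b : ℤ, ∀ f ∈ Rg W a, ∀ g ∈ Rg W b, f * g ∈ q (a + b) → f ∈ q a ∨ g ∈ q b

/-- The ideal does not contain the irrelevant ideal. -/
def Relevant (W : Submodule k K) (q : ℤ → Submodule k K) : Prop :=
  ∃ g ∈ W, g ∉ q 1

/-- Height one primes: nonzero primes whose quotient has unbounded Hilbert function. -/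
def Ht1 (W : Submodule k K) (q : ℤ → Submodule k K) : Prop :=
  IsPrimeFam W q ∧ (∃ a, q a ≠ ⊥) ∧ ¬ ∃ C : ℤ, ∀ᶠ t in atTop, hf (Rg W) t - hf q t ≤ C

/-- The colon ideal `(N : w)` for `w` placed in degree `b`. -/
def colon (W : Submodule k K) (N : ℤ → Submodule k V) (b : ℤ) (w : V) : ℤ → Submodule k K :=
  fun a => Rg W a ⊓ (N (a + b)).comap (smulMap k K w)

/-- The product `q M`. -/
def idealSmul (q : ℤ → Submodule k K) (M : ℤ → Submodule k V) : ℤ → Submodule k V :=
  fun t => Submodule.span k {x | ∃ i j : ℤ, i + j = t ∧ ∃ f ∈ q i, ∃ m ∈ M j, x = f • m}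

/-- The local ring (degree zero localisation) at `q`, inside `K`. -/
def Oloc (W : Submodule k K) (q : ℤ → Submodule k K) : Subring K :=
  Subring.closure {x | ∃ a : ℤ, ∃ h ∈ Rg W a, h ∉ q a ∧ h * x ∈ Rg W a}

/-- The maximal ideal of the local ring at `q`, as a subset of `K`. -/
def mloc (W : Submodule k K) (q : ℤ → Submodule k K) : Set K :=
  {x | ∃ a : ℤ, ∃ h ∈ Rg W a, h ∉ q a ∧ h * x ∈ q a}

/-- The degree zero localisation of `L` at `q`, inside `V`. -/
def loc (W : Submodule k K) (q : ℤ → Submodule k K) (L : ℤ → Submodule k V) :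
    Submodule (Oloc W q) V :=
  Submodule.span (Oloc W q) {v | ∃ a : ℤ, ∃ h ∈ Rg W a, h ∉ q a ∧ h • v ∈ L a}

/-- A closed point: relevant prime with residue field `k`. -/
def IsPoint (W : Submodule k K) (q : ℤ → Submodule k K) : Prop :=
  IsPrimeFam W q ∧ Relevant W q ∧ ∀ x ∈ Oloc W q, ∃ c : k, x - algebraMap k K c ∈ mloc W q

/-- `M` is locally free of rank `r` at `q`. -/
def LF (W : Submodule k K) (M : ℤ → Submodule k V) (r : ℕ) (q : ℤ → Submodule k K) : Prop :=
  ∃ (b e : ℤ) (m : Fin r → V), (∀ i, m i ∈ M b) ∧ LinearIndependent K m ∧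
    ∃ h ∈ Rg W e, h ∉ q e ∧ ∀ t, ∀ v ∈ M t, h • v ∈ gen W (fun _ => b) m (t + e)

variable {V' : Type*} [AddCommGroup V'] [Module K V'] [Module k V'] [IsScalarTower k K V']

/-- Image of the tensor product of two graded modules in `V ⊗[K] V'`. -/
def tens (K : Type*) {k V V' : Type*} [Field k] [Field K] [Algebra k K] [AddCommGroup V]
    [Module K V] [Module k V] [IsScalarTower k K V] [AddCommGroup V'] [Module K V']
    [Module k V'] (L : ℤ → Submodule k V) (M : ℤ → Submodule k V') :
    ℤ → Submodule k (V ⊗[K] V') :=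
  fun t => Submodule.span k {x | ∃ i j : ℤ, i + j = t ∧ ∃ v ∈ L i, ∃ m ∈ M j, x = v ⊗ₜ[K] m}

open Classical in
/-- The eventual value of `h(M/qM) - r h(R/q)` (degree of `M` on the curve `q`). -/
noncomputable def cval (W : Submodule k K) (M : ℤ → Submodule k V) (r : ℕ)
    (q : ℤ → Submodule k K) : ℤ :=
  if h : ∃ c : ℤ, ∀ᶠ t in atTop,
      hf M t - hf (idealSmul q M) t - r * (hf (Rg W) t - hf q t) = c then h.choose else 0

/-- The saturation of `G` in codimension two over the polynomial ring in three variables. -/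
def hull (s : Fin 2 → K) (G : ℤ → Submodule k V) : ℤ → Submodule k V :=
  fun t => Submodule.span k {v | ∀ q : MvPolynomial (Fin 3) k, Prime q →
    ∃ (a : ℕ) (f : MvPolynomial (Fin 3) k), f.IsHomogeneous a ∧ ¬ q ∣ f ∧
      ev3 k s f • v ∈ G (t + a)}

/-- The graded dual of `G` over the polynomial ring in three variables. -/
def dualFam (s : Fin 2 → K) (G : ℤ → Submodule k V) : ℤ → Submodule k (Module.Dual K V) :=
  fun u =>
  { carrier := {φ | ∀ t, ∀ g ∈ G t, φ g ∈ Rg (U3 k s) (t + u)}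
    add_mem' := fun ha hb t g hg => Submodule.add_mem _ (ha t g hg) (hb t g hg)
    zero_mem' := fun _ _ _ => Submodule.zero_mem _
    smul_mem' := fun c _ ha t g hg => Submodule.smul_mem _ c (ha t g hg) }

end Lattice

/-- Length of `B / A` (for `A ≤ B`). -/
noncomputable def relLen {O V : Type*} [Ring O] [AddCommGroup V] [Module O V]
    (A B : Submodule O V) : ℕ∞ :=
  Module.length O (B.map A.mkQ)

/-- Dimension of the space of ternary forms of degree `x`. -/
def al (x : ℤ) : ℤ := if 0 ≤ x then (x + 1) * (x + 2) / 2 else 0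

/-- The geometric input on the surface, in characteristic `p`. -/
structure Geo (p : ℕ) {k K : Type*} [Field k] [Field K] [Algebra k K] (W : Submodule k K) :
    Prop where
  fd : FiniteDimensional k W
  rank_le : finrank k W ≤ 120
  frac : ∀ x : K, ∃ a : ℤ, ∃ h ∈ Rg W a, h ≠ 0 ∧ h * x ∈ Rg W a
  hilb : ∀ᶠ j : ℕ in atTop,
    2 * hf (Rg W) (7 * (j : ℤ)) = 1715 * (7 * (j : ℤ)) * (7 * (j : ℤ) - 5) + 9604
  chart : ∃ j₀ : Derivation k K K → Derivation k K K → K,
    ∀ q, IsPrimeFam W q → Relevant W q → ∃ u v g c : K,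
      u ∈ Oloc W q ∧ v ∈ Oloc W q ∧ g ∈ W ∧ g ∉ q 1 ∧ c ≠ 0 ∧ c ∈ Oloc W q ∧ c⁻¹ ∈ Oloc W q ∧
      (∀ x ∈ Oloc W q, ∃ w : Fin p × Fin p → K, (∀ ij, w ij ∈ Oloc W q) ∧
        x = ∑ ij : Fin p × Fin p, w ij ^ p * (u ^ (ij.1 : ℕ) * v ^ (ij.2 : ℕ))) ∧
      ∀ D₁ D₂ : Derivation k K K, D₁ u * D₂ v - D₂ u * D₁ v = c * g ^ 5 * j₀ D₁ D₂

/-- All the data of the characteristic `p` argument: `K₀ = K ^ p`, an Ulrich module with basis `e`
over the graded ring generated by `W₀ = W ^ [p]`. -/
structure Setup (p N : ℕ) (k K K₀ V : Type) [Field k] [Field K] [Field K₀] [Algebra k K]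
    [Algebra k K₀] [Algebra K₀ K] [AddCommGroup V] [Module K₀ V] [Module k V]
    [IsScalarTower k K₀ V] where
  W : Submodule k K
  W₀ : Submodule k K₀
  s : Fin 2 → K
  s₀ : Fin 2 → K₀
  e : Fin N → V
  frob_mem : ∀ x : K, ∃ y : K₀, algebraMap K₀ K y = x ^ p
  frob_surj : ∀ y : K₀, ∃ x : K, algebraMap K₀ K y = x ^ p
  W₀_iff : ∀ (x : K) (y : K₀), algebraMap K₀ K y = x ^ p → (y ∈ W₀ ↔ x ∈ W)
  s₀_eq : ∀ i, algebraMap K₀ K (s₀ i) = s i ^ p
  one_mem : (1 : K) ∈ W
  s_mem : ∀ i, s i ∈ W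
  algInd : AlgebraicIndependent k s
  geo : Geo p W
  N_pos : 0 < N
  e_li : LinearIndependent (IntermediateField.adjoin k (Set.range s₀)) e
  e_span : Submodule.span (IntermediateField.adjoin k (Set.range s₀)) (Set.range e) = ⊤
  ulrich : IsMod W₀ (gen (U3 k s₀) (fun _ => 0) e)

namespace Setup

variable {p N : ℕ} {k K K₀ V : Type} [Field k] [Field K] [Field K₀] [Algebra k K]
  [Algebra k K₀] [Algebra K₀ K] [IsScalarTower k K₀ K] [AddCommGroup V] [Module K₀ V]
  [Module k V] [IsScalarTower k K₀ V] (S : Setup p N k K K₀ V)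

/-- The rational function field `k(s)`. -/
abbrev F : IntermediateField k K := IntermediateField.adjoin k (Set.range S.s)

/-- The rational function field `k(s₀)`. -/
abbrev F₀ : IntermediateField k K₀ := IntermediateField.adjoin k (Set.range S.s₀)

/-- `s` as a family in `k(s)`. -/
def sF : Fin 2 → S.F := fun i => ⟨S.s i, IntermediateField.subset_adjoin k _ ⟨i, rfl⟩⟩

/-- `s₀` as a family in `k(s₀)`. -/
def sF₀ : Fin 2 → S.F₀ := fun i => ⟨S.s₀ i, IntermediateField.subset_adjoin k _ ⟨i, rfl⟩⟩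

/-- The Ulrich module. -/
def M : ℤ → Submodule k V := gen (U3 k S.s₀) (fun _ => 0) S.e

/-- The generators of the Frobenius pull-back. -/
def e' : Fin N → K ⊗[K₀] V := fun i => (1 : K) ⊗ₜ[K₀] S.e i

/-- The Frobenius pull-back of the Ulrich module. -/
def G : ℤ → Submodule k (K ⊗[K₀] V) := gen S.W (fun _ => 0) S.e'

/-- The Frobenius push-forward of the coordinate ring. -/
def L : ℤ → Submodule k K := fun m => Rg S.W (p * m)

end Setup

/-- Five points on the projective line together with seventh roots of their brackets. -/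
structure Cfg (K : Type) [Field K] where
  a : Fin 5 → K
  b : Fin 5 → K
  z : Fin 5 → Fin 5 → K
  anti : ∀ i j, z j i = - z i j
  pow7 : ∀ i j, z i j ^ 7 = a i * b j - a j * b i
  ne : ∀ i j, i ≠ j → z i j ≠ 0

/-- Smaller end point of the edge `e` of the complete graph on five vertices. -/
def src : Fin 10 → Fin 5 := ![0, 0, 0, 0, 1, 1, 1, 2, 2, 3]

/-- Larger end point of the edge `e` of the complete graph on five vertices. -/
def tgt : Fin 10 → Fin 5 := ![1, 2, 3, 4, 2, 3, 4, 3, 4, 4]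

/-- `2 m`-regular multigraphs on five vertices. -/
def Reg (m : ℕ) (c : Fin 10 → ℕ) : Prop :=
  c 0 + c 1 + c 2 + c 3 = 2 * m ∧ c 0 + c 4 + c 5 + c 6 = 2 * m ∧
  c 1 + c 4 + c 7 + c 8 = 2 * m ∧ c 2 + c 5 + c 7 + c 9 = 2 * m ∧
  c 3 + c 6 + c 8 + c 9 = 2 * m

/-- Standard monomials: no nested pair of edges both with exponent at least seven. -/
def Std (c : Fin 10 → ℕ) : Prop :=
  (c 2 < 7 ∨ c 4 < 7) ∧ (c 3 < 7 ∨ c 4 < 7) ∧ (c 3 < 7 ∨ c 5 < 7) ∧ (c 3 < 7 ∨ c 7 < 7) ∧
  (c 6 < 7 ∨ c 7 < 7)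

/-- The multigraph of a permutation. -/
def cperm (σ : Equiv.Perm (Fin 5)) : Fin 10 → ℕ :=
  fun e => (if σ (src e) = tgt e then 1 else 0) + (if σ (tgt e) = src e then 1 else 0)

/-- A numbering of the permutations of five letters. -/
noncomputable def eqv : Fin (119 + 1) ≃ Equiv.Perm (Fin 5) :=
  (Fintype.equivFinOfCardEq (by simp [Fintype.card_perm, Nat.factorial])).symm

namespace Cfg

variable {K : Type} [Field K] (C : Cfg K)

/-- The coordinate attached to a permutation. -/
def xs (σ : Equiv.Perm (Fin 5)) : K := ∏ i, C.z i (σ i)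

/-- The coordinates, numbered. -/
noncomputable def xn (j : Fin (119 + 1)) : K := C.xs (eqv j)

/-- The monomial attached to a multigraph. -/
def zmon (c : Fin 10 → ℕ) : K := ∏ e, C.z (src e) (tgt e) ^ c e

/-- The degree one piece of the coordinate ring, rescaled by `c`. -/
def Wc (k : Type) [Field k] [Algebra k K] (c : K) : Submodule k K :=
  Submodule.span k (Set.range fun σ => c * C.xs σ)

/-- Standard monomials of each degree are linearly independent. -/
def Indep (k : Type) [Field k] [Algebra k K] : Prop :=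
  ∀ m : ℕ, LinearIndependent k (fun e : {e : Fin 10 → ℕ // Reg m e ∧ Std e} => C.zmon e.1)

/-- The generic configuration. -/
structure Good (k : Type) [Field k] [Algebra k K] : Prop where
  indep : C.Indep k
  frac : ∀ x : K, ∃ m : ℕ, ∃ h ∈ C.Wc k 1 ^ m, h ≠ 0 ∧ h * x ∈ C.Wc k 1 ^ m
  trdeg : ∃ t : Fin 2 → K, IsTranscendenceBasis k t

end Cfg

/-- Homogeneous integral relations between the coordinates, valid for all configurations. -/
def RelZ : Set (MvPolynomial (Fin (119 + 1)) ℤ) :=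
  {g | ∃ m, g.IsHomogeneous m ∧ ∀ (K : Type) [Field K] (C : Cfg K),
    MvPolynomial.aeval C.xn g = 0}

/-- An Ulrich module of size `N` on the surface over the field `k`. -/
def UData (k : Type) [Field k] (N : ℕ) : Prop :=
  ∃ (ℓ : Fin 3 → MvPolynomial (Fin (119 + 1)) k)
    (ψ : MvPolynomial (Fin (119 + 1)) k →ₐ[k] Matrix (Fin N) (Fin N) (MvPolynomial (Fin 3) k)),
    (∀ i, (ℓ i).IsHomogeneous 1) ∧
    (∀ j a b, ((ψ (MvPolynomial.X j)) a b).IsHomogeneous 1) ∧
    (∀ g ∈ RelZ, ψ (MvPolynomial.map (Int.castRingHom k) g) = 0) ∧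
    (∀ i, ψ (ℓ i) = Matrix.diagonal (fun _ => MvPolynomial.X i))

end Pool.Agent.Lib.MP_cf0da3_ag
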