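import Pool.Agent.Lib.MP_cf0da3_ag.Defs

/-! Reduction modulo a large prime. -/

namespace Pool.Agent.Lib.MP_cf0da3_ag

open MvPolynomial

/-- Elements that become integral after multiplication by a power of `D`. -/
def intAway (L : Type) [Field L] (D : ℤ) : Subring L where
  carrier := {x | ∃ n : ℕ, IsIntegral ℤ ((D : L) ^ n * x)}
  zero_mem' := ⟨0, by simpa using isIntegral_zero⟩
  one_mem' := ⟨0, by simpa using isIntegral_one⟩
  add_mem' := by
    rintro x y ⟨n, hn⟩ ⟨m, hm⟩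
    have hD : IsIntegral ℤ (D : L) := isIntegral_algebraMap (R := ℤ) (x := D)
    refine ⟨n + m, ?_⟩
    have e : (D : L) ^ (n + m) * (x + y) = (D : L) ^ m * ((D : L) ^ n * x)
        + (D : L) ^ n * ((D : L) ^ m * y) := by ring
    rw [e]
    exact ((hD.pow m).mul hn).add ((hD.pow n).mul hm)
  mul_mem' := by
    rintro x y ⟨n, hn⟩ ⟨m, hm⟩
    refine ⟨n + m, ?_⟩
    have e : (D : L) ^ (n + m) * (x * y) = ((D : L) ^ n * x) * ((D : L) ^ m * y) := by ring
    rw [e]
    exact hn.mul hm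
  neg_mem' := by
    rintro x ⟨n, hn⟩
    exact ⟨n, by rw [mul_neg]; exact hn.neg⟩

theorem span_ne_top_intAway (L : Type) [Field L] [CharZero L] {D : ℤ} {p : ℕ} (hp : p.Prime)
    (hpD : ¬ (p : ℤ) ∣ D) : Ideal.span {(p : intAway L D)} ≠ ⊤ := by
  intro h
  rw [Ideal.span_singleton_eq_top] at h
  obtain ⟨r, hr⟩ := h.exists_right_inv
  obtain ⟨n, hn⟩ := r.2
  have hr' : (p : L) * (r : L) = 1 := by
    have := congrArg (intAway L D).subtype hr
    simpa using this
  have hp0 : (p : L) ≠ 0 := Nat.cast_ne_zero.2 hp.ne_zero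
  have e : (D : L) ^ n * (r : L) = algebraMap ℚ L ((D : ℚ) ^ n / p) := by
    rw [map_div₀, map_pow, map_intCast, map_natCast, eq_div_iff hp0, mul_assoc, mul_comm (r : L),
      hr', mul_one]
  rw [e, isIntegral_algebraMap_iff (algebraMap ℚ L).injective] at hn
  obtain ⟨y, hy⟩ := IsIntegrallyClosed.isIntegral_iff.1 hn
  have hp0' : (p : ℚ) ≠ 0 := Nat.cast_ne_zero.2 hp.ne_zero
  rw [eq_div_iff hp0'] at hy
  have hy' : y * p = D ^ n := by
    have : ((y * p : ℤ) : ℚ) = ((D ^ n : ℤ) : ℚ) := by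
      push_cast
      exact hy
    exact_mod_cast this
  exact hpD ((Nat.prime_iff_prime_int.1 hp).dvd_of_dvd_pow ⟨y, by rw [← hy', mul_comm]⟩)

theorem exists_spec (S : Finset (AlgebraicClosure ℚ)) (P₀ : ℕ) :
    ∃ (R : Subring (AlgebraicClosure ℚ)), (∀ x ∈ S, x ∈ R) ∧
      ∃ (p : ℕ) (_ : Fact p.Prime) (k : Type) (_ : Field k) (_ : IsAlgClosed k) (_ : CharP k p),
        P₀ < p ∧ Nonempty (R →+* k) := by
  have halg : Algebra.IsAlgebraic ℤ (AlgebraicClosure ℚ) :=
    (IsFractionRing.comap_isAlgebraic_iff (A := ℤ) (K := ℚ)).2 (AlgebraicClosure.isAlgebraic ℚ)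
  obtain ⟨D, hD, hint⟩ := Algebra.IsAlgebraic.exists_integral_multiples ℤ S
  obtain ⟨p, hp1, hp⟩ := Nat.exists_infinite_primes (P₀ + D.natAbs + 1)
  have hpD : ¬ (p : ℤ) ∣ D := by
    intro h
    have := Nat.le_of_dvd (Int.natAbs_pos.2 hD) (Int.natCast_dvd.1 h)
    omega
  obtain ⟨m, hm, hpm⟩ := Ideal.exists_le_maximal _ (span_ne_top_intAway (AlgebraicClosure ℚ) hp hpD)
  let := Ideal.Quotient.field m
  let φ : intAway (AlgebraicClosure ℚ) D →+* AlgebraicClosure (intAway (AlgebraicClosure ℚ) D ⧸ m) :=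
    (algebraMap _ _).comp (Ideal.Quotient.mk m)
  have hp0 : (p : AlgebraicClosure (intAway (AlgebraicClosure ℚ) D ⧸ m)) = 0 := by
    rw [← map_natCast φ]
    have : Ideal.Quotient.mk m (p : intAway (AlgebraicClosure ℚ) D) = 0 :=
      Ideal.Quotient.eq_zero_iff_mem.2 (hpm (Ideal.mem_span_singleton_self _))
    simp only [φ, RingHom.comp_apply, this, map_zero]
  refine ⟨intAway _ D, fun x hx => ⟨1, ?_⟩, p, ⟨hp⟩, _, inferInstance, inferInstance,
    (CharP.charP_iff_prime_eq_zero hp).2 hp0, by omega, ⟨φ⟩⟩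
  have := hint x hx
  rwa [zsmul_eq_mul, ← pow_one (D : AlgebraicClosure ℚ)] at this

theorem udata_transfer {L : Type} [Field L] {N : ℕ}
    (ℓ : Fin 3 → MvPolynomial (Fin (119 + 1)) L)
    (ψ : MvPolynomial (Fin (119 + 1)) L →ₐ[L] Matrix (Fin N) (Fin N) (MvPolynomial (Fin 3) L))
    (h1 : ∀ i, (ℓ i).IsHomogeneous 1)
    (h2 : ∀ j a b, ((ψ (MvPolynomial.X j)) a b).IsHomogeneous 1)
    (h3 : ∀ g ∈ RelZ, ψ (MvPolynomial.map (Int.castRingHom L) g) = 0)
    (h4 : ∀ i, ψ (ℓ i) = Matrix.diagonal (fun _ => MvPolynomial.X i))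
    (R : Subring L) (hℓ : ∀ i, ∀ c ∈ (ℓ i).coeffs, c ∈ R)
    (hψ : ∀ j a b, ∀ c ∈ (ψ (X j) a b).coeffs, c ∈ R) {k : Type} [Field k] (φ : R →+* k) :
    UData k N := by
  classical
  have hinj : Function.Injective R.subtype := Subtype.val_injective
  have hlift : ∀ {σ : Type} (q : MvPolynomial σ L), (∀ c ∈ q.coeffs, c ∈ R) →
      ∃ q' : MvPolynomial σ R, map R.subtype q' = q := by
    intro σ q hq
    exact mem_range_map_iff_coeffs_subset.2 (fun c hc => ⟨⟨c, hq c hc⟩, rfl⟩)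
  choose ℓ' hℓ' using fun i => hlift (ℓ i) (hℓ i)
  choose A hA using fun j a b => hlift (ψ (X j) a b) (hψ j a b)
  let Φ : Matrix (Fin N) (Fin N) (MvPolynomial (Fin 3) R) →+*
      Matrix (Fin N) (Fin N) (MvPolynomial (Fin 3) L) := (map R.subtype).mapMatrix
  have hΦ : Function.Injective Φ := by
    intro x y hxy
    ext a b : 1
    exact map_injective _ hinj (congrFun (congrFun hxy a) b)
  have hC : ∀ r : R, Φ (algebraMap R _ r) = algebraMap L _ (r : L) := by
    intro r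
    ext a b : 1
    simp only [Φ, RingHom.mapMatrix_apply, Matrix.map_apply, Matrix.algebraMap_matrix_apply]
    split_ifs
    · simp
    · simp
  have hX : ∀ j, Φ (Matrix.of (A j)) = ψ (X j) := by
    intro j
    ext a b : 1
    exact hA j a b
  have hmem : ∀ g : MvPolynomial (Fin (119 + 1)) R,
      (ψ.toRingHom.comp (map R.subtype)) g ∈ Φ.range := by
    intro g
    induction g using MvPolynomial.induction_on with
    | C r =>
      refine ⟨algebraMap R _ r, ?_⟩
      rw [hC, RingHom.comp_apply, map_C]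
      exact (ψ.commutes (r : L)).symm
    | add p q hp hq => rw [map_add]; exact add_mem hp hq
    | mul_X p j hp =>
      rw [map_mul]
      refine mul_mem hp ⟨Matrix.of (A j), ?_⟩
      rw [hX, RingHom.comp_apply, map_X]
      rfl
  let e := RingEquiv.ofLeftInverse (Function.leftInverse_invFun hΦ)
  let ψ' : MvPolynomial (Fin (119 + 1)) R →+* Matrix (Fin N) (Fin N) (MvPolynomial (Fin 3) R) :=
    e.symm.toRingHom.comp ((ψ.toRingHom.comp (map R.subtype)).codRestrict Φ.range hmem)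
  have hψ' : ∀ g, Φ (ψ' g) = ψ (map R.subtype g) := by
    intro g
    exact congrArg Subtype.val (e.apply_symm_apply ⟨_, hmem g⟩)
  let Ψ : Matrix (Fin N) (Fin N) (MvPolynomial (Fin 3) R) →+*
      Matrix (Fin N) (Fin N) (MvPolynomial (Fin 3) k) := (map φ).mapMatrix
  let ψ'' : MvPolynomial (Fin (119 + 1)) k →ₐ[k] Matrix (Fin N) (Fin N) (MvPolynomial (Fin 3) k) :=
    AddMonoidAlgebra.lift k _ _ ((Ψ.comp ψ').toMonoidHom.comp (monomialOneHom R _))
  have hX'' : ∀ j, ψ'' (X j) = Ψ (ψ' (X j)) := by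
    intro j
    have := AddMonoidAlgebra.lift_single (R := k)
      ((Ψ.comp ψ').toMonoidHom.comp (monomialOneHom R (Fin (119 + 1)))) (Finsupp.single j 1) 1
    rw [one_smul] at this
    exact this
  have hC' : ∀ r : R, ψ' (C r) = algebraMap R _ r := by
    intro r
    apply hΦ
    rw [hψ', hC, map_C]
    exact ψ.commutes (r : L)
  have hcomp : ψ''.toRingHom.comp (map φ) = Ψ.comp ψ' := by
    refine ringHom_ext (fun r => ?_) (fun j => ?_)
    · rw [RingHom.comp_apply, RingHom.comp_apply, map_C, hC']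
      refine (ψ''.commutes (φ r)).trans ?_
      ext a b : 1
      simp only [Ψ, RingHom.mapMatrix_apply, Matrix.map_apply, Matrix.algebraMap_matrix_apply]
      split_ifs
      · simp
      · simp
    · rw [RingHom.comp_apply, RingHom.comp_apply, map_X]
      exact hX'' j
  have hc : ∀ g, ψ'' (map φ g) = Ψ (ψ' g) := fun g => RingHom.congr_fun hcomp g
  refine ⟨fun i => map φ (ℓ' i), ψ'', fun i => ?_, fun j a b => ?_, fun g hg => ?_, fun i => ?_⟩
  · exact (IsHomogeneous.of_map hinj (by rw [hℓ']; exact h1 i)).map φ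
  · have e1 : ψ' (X j) = Matrix.of (A j) := hΦ (by rw [hψ', hX, map_X])
    rw [hX'', e1]
    exact (IsHomogeneous.of_map (φ := A j a b) hinj (by rw [hA]; exact h2 j a b)).map φ
  · have e1 : map (Int.castRingHom k) g = map φ (map (Int.castRingHom R) g) := by
      rw [map_map, RingHom.ext_int (φ.comp (Int.castRingHom R)) (Int.castRingHom k)]
    have e2 : ψ' (map (Int.castRingHom R) g) = 0 := by
      apply hΦ
      rw [hψ', map_map, RingHom.ext_int (R.subtype.comp (Int.castRingHom R)) (Int.castRingHom L),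
        h3 g hg, map_zero]
    rw [e1, hc, e2, map_zero]
  · have e1 : ψ' (ℓ' i) = Matrix.diagonal (fun _ => X i) := by
      apply hΦ
      rw [hψ', hℓ', h4]
      simp only [Φ, RingHom.mapMatrix_apply]
      rw [Matrix.diagonal_map (map_zero _)]
      simp only [map_X]
    rw [hc, e1]
    simp only [Ψ, RingHom.mapMatrix_apply]
    rw [Matrix.diagonal_map (map_zero _)]
    simp only [map_X]

theorem spread {N : ℕ} (h : UData (AlgebraicClosure ℚ) N) (P₀ : ℕ) :
    ∃ (p : ℕ) (_ : Fact p.Prime) (k : Type) (_ : Field k) (_ : IsAlgClosed k) (_ : CharP k p),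
      P₀ < p ∧ UData k N := by
  classical
  obtain ⟨ℓ, ψ, h1, h2, h3, h4⟩ := h
  obtain ⟨R, hR, p, hp, k, hk, hk', hkp, hP, ⟨φ⟩⟩ := exists_spec
    (Finset.univ.biUnion (fun i => (ℓ i).coeffs) ∪
      Finset.univ.biUnion (fun q : Fin (119 + 1) × Fin N × Fin N =>
        (ψ (X q.1) q.2.1 q.2.2).coeffs)) P₀
  refine ⟨p, hp, k, hk, hk', hkp, hP, udata_transfer ℓ ψ h1 h2 h3 h4 R (fun i c hc => hR c ?_)
    (fun j a b c hc => hR c ?_) φ⟩
  · exact Finset.mem_union_left _ (Finset.mem_biUnion.2 ⟨i, Finset.mem_univ _, hc⟩)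
  · exact Finset.mem_union_right _ (Finset.mem_biUnion.2 ⟨(j, a, b), Finset.mem_univ _, hc⟩)

end Pool.Agent.Lib.MP_cf0da3_ag
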