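import Pool.Agent.Lib.MP_cf0da3_ag.Core
import Pool.Agent.Lib.MP_cf0da3_ag.Datum
import Pool.Agent.Lib.MP_cf0da3_ag.Spread

/-! The surface has no Ulrich module in characteristic zero. -/

namespace Pool.Agent.Lib.MP_cf0da3_ag

open Module Filter

theorem not_udata (N : ℕ) (hN : 0 < N) : ¬ UData (AlgebraicClosure ℚ) N := by
  intro h
  obtain ⟨P₀, hP₀⟩ := coreZ N
  obtain ⟨p, _, k, _, _, _, hp, hk⟩ := spread h (max P₀ 7)
  exact false_of_udata (lt_of_le_of_lt (le_max_right _ _) hp) hN hk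
    fun K K₀ V _ _ _ _ _ _ _ _ _ _ S => hP₀ p (lt_of_le_of_lt (le_max_left _ _) hp) k K K₀ V S

/-- The homogeneous ideal of the surface. -/
noncomputable def surfIdeal {K : Type} [Field K] (C : Cfg K) (k : Type) [Field k] [Algebra k K] :
    Ideal (MvPolynomial (Fin (119 + 1)) k) :=
  RingHom.ker (MvPolynomial.aeval (R := k)
    (fun j => Polynomial.C (C.xn j) * Polynomial.X : Fin (119 + 1) → Polynomial K))

section

variable {K : Type} [Field K] (C : Cfg K) (k : Type) [Field k] [Algebra k K]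

theorem surfIdeal_isPrime : (surfIdeal C k).IsPrime := RingHom.ker_isPrime _

theorem aeval_C_mul_X {J : Type} (x : J → K) {f : MvPolynomial J k} {m : ℕ}
    (hf : f.IsHomogeneous m) :
    MvPolynomial.aeval (fun j => Polynomial.C (x j) * Polynomial.X : J → Polynomial K) f =
      Polynomial.monomial m (MvPolynomial.aeval x f) := by
  have h1 : (Polynomial.CAlgHom : K →ₐ[k] Polynomial K).comp (MvPolynomial.aeval x) =
      MvPolynomial.aeval (fun j => Polynomial.C (x j)) :=
    MvPolynomial.algHom_ext fun j => by simp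
  have h2 : (fun j => Polynomial.C (x j) * Polynomial.X : J → Polynomial K) =
      fun j => Polynomial.X * Polynomial.C (x j) := funext fun j => mul_comm _ _
  rw [h2, aeval_mul_of_isHomogeneous hf, ← h1, mul_comm]
  exact Polynomial.C_mul_X_pow_eq_monomial

theorem coeff_aeval_C_mul_X {J : Type} (x : J → K) (f : MvPolynomial J k) (n : ℕ) :
    (MvPolynomial.aeval (fun j => Polynomial.C (x j) * Polynomial.X : J → Polynomial K) f).coeff n =
      MvPolynomial.aeval x (MvPolynomial.homogeneousComponent n f) := by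
  conv_lhs => rw [← MvPolynomial.sum_homogeneousComponent f]
  rw [map_sum, Polynomial.finsetSum_coeff]
  simp only [aeval_C_mul_X k x (MvPolynomial.homogeneousComponent_isHomogeneous _ f),
    Polynomial.coeff_monomial, Finset.sum_ite_eq', Finset.mem_range]
  split_ifs with h
  · rfl
  · rw [MvPolynomial.homogeneousComponent_eq_zero _ _ (by omega), map_zero]

theorem mem_surfIdeal_iff (f : MvPolynomial (Fin (119 + 1)) k) :
    f ∈ surfIdeal C k ↔
      ∀ n, MvPolynomial.aeval C.xn (MvPolynomial.homogeneousComponent n f) = 0 := by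
  rw [surfIdeal, RingHom.mem_ker, Polynomial.ext_iff]
  simp only [coeff_aeval_C_mul_X, Polynomial.coeff_zero]

theorem surfIdeal_homogeneous (f : MvPolynomial (Fin (119 + 1)) k) (hf : f ∈ surfIdeal C k)
    (n : ℕ) : MvPolynomial.homogeneousComponent n f ∈ surfIdeal C k := by
  rw [surfIdeal, RingHom.mem_ker,
    aeval_C_mul_X k C.xn (MvPolynomial.homogeneousComponent_isHomogeneous n f),
    (mem_surfIdeal_iff C k f).1 hf n, map_zero]

theorem exists_X_notMem_surfIdeal :
    ∃ j, (MvPolynomial.X j : MvPolynomial (Fin (119 + 1)) k) ∉ surfIdeal C k := by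
  obtain ⟨j, hj⟩ := C.exists_xn_ne_zero
  refine ⟨j, ?_⟩
  rw [surfIdeal, RingHom.mem_ker, MvPolynomial.aeval_X]
  exact mul_ne_zero (Polynomial.C_ne_zero.2 hj) Polynomial.X_ne_zero

theorem map_RelZ_mem_surfIdeal {g : MvPolynomial (Fin (119 + 1)) ℤ} (hg : g ∈ RelZ) :
    MvPolynomial.map (Int.castRingHom k) g ∈ surfIdeal C k := by
  obtain ⟨m, hm, h0⟩ := hg
  rw [surfIdeal, RingHom.mem_ker, aeval_C_mul_X k C.xn (hm.map _), ← algebraMap_int_eq,
    MvPolynomial.aeval_map_algebraMap, h0 K C, map_zero]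

/-- The surface has dimension two. -/
theorem dim_eq_two (hC : C.Good k) (d : ℕ) (ℓ : Fin (d + 1) → MvPolynomial (Fin (119 + 1)) k)
    (hinj : Function.Injective
      (MvPolynomial.aeval (fun i => Ideal.Quotient.mk (surfIdeal C k) (ℓ i)) :
        MvPolynomial (Fin (d + 1)) k →ₐ[k] MvPolynomial (Fin (119 + 1)) k ⧸ surfIdeal C k))
    (hfin : (MvPolynomial.aeval (fun i => Ideal.Quotient.mk (surfIdeal C k) (ℓ i)) :
        MvPolynomial (Fin (d + 1)) k →ₐ[k]
          MvPolynomial (Fin (119 + 1)) k ⧸ surfIdeal C k).toRingHom.Finite) : d = 2 := by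
  let θ : MvPolynomial (Fin (119 + 1)) k →ₐ[k] Polynomial K :=
    MvPolynomial.aeval fun j => Polynomial.C (C.xn j) * Polynomial.X
  let ι : (MvPolynomial (Fin (119 + 1)) k ⧸ surfIdeal C k) →ₐ[k] Polynomial K :=
    Ideal.kerLiftAlg θ
  have hι : Function.Injective ι := Ideal.kerLiftAlg_injective θ
  have hιθ : ∀ f, ι (Ideal.Quotient.mk _ f) = θ f := fun f => rfl
  let φ₀ : MvPolynomial (Fin (d + 1)) k →ₐ[k] MvPolynomial (Fin (119 + 1)) k ⧸ surfIdeal C k :=
    MvPolynomial.aeval (fun i => Ideal.Quotient.mk (surfIdeal C k) (ℓ i))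
  let φ : MvPolynomial (Fin (d + 1)) k →ₐ[k] Polynomial K := ι.comp φ₀
  have hφ : Function.Injective φ := hι.comp hinj
  let : Algebra (MvPolynomial (Fin (d + 1)) k) (Polynomial K) := φ.toRingHom.toAlgebra
  have : IsScalarTower k (MvPolynomial (Fin (d + 1)) k) (Polynomial K) :=
    IsScalarTower.of_algebraMap_eq fun a => (φ.commutes a).symm
  have : FaithfulSMul (MvPolynomial (Fin (d + 1)) k) (Polynomial K) :=
    (faithfulSMul_iff_algebraMap_injective _ _).2 hφ
  have hθ : ∀ f, IsAlgebraic (MvPolynomial (Fin (d + 1)) k) (θ f) := by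
    intro f
    obtain ⟨q, hq, hq0⟩ := hfin.to_isIntegral (Ideal.Quotient.mk _ f)
    refine IsIntegral.isAlgebraic ⟨q, hq, ?_⟩
    have h1 := congrArg ι.toRingHom hq0
    rw [Polynomial.hom_eval₂, map_zero] at h1
    exact h1
  have hW : ∀ (m : ℕ) (y : K), y ∈ C.Wc k 1 ^ m →
      IsAlgebraic (MvPolynomial (Fin (d + 1)) k) (Polynomial.monomial m y) := by
    intro m y hy
    obtain ⟨f, hf, rfl⟩ := (C.mem_Wc_pow k 1 m y).1 hy
    simp only [one_mul]
    rw [← aeval_C_mul_X k C.xn hf]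
    exact hθ f
  have hC' : ∀ y : K, IsAlgebraic (MvPolynomial (Fin (d + 1)) k) (Polynomial.C y) := by
    intro y
    obtain ⟨m, h, hh, h0, hy⟩ := hC.frac y
    refine IsAlgebraic.of_mul (y := Polynomial.monomial m h)
      (mem_nonZeroDivisors_of_ne_zero (by simpa using h0)) (hW m h hh) ?_
    rw [Polynomial.monomial_mul_C]
    exact hW m _ hy
  have hX : IsAlgebraic (MvPolynomial (Fin (d + 1)) k) (Polynomial.X : Polynomial K) := by
    obtain ⟨j, hj⟩ := C.exists_xn_ne_zero
    refine IsAlgebraic.of_mul (y := Polynomial.C (C.xn j))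
      (mem_nonZeroDivisors_of_ne_zero (by simpa using hj)) (hC' _) ?_
    simpa [θ] using hθ (MvPolynomial.X j)
  have : Algebra.IsAlgebraic (MvPolynomial (Fin (d + 1)) k) (Polynomial K) := by
    refine ⟨fun f => ?_⟩
    induction f using Polynomial.induction_on' with
    | add f g hf hg => exact hf.add hg
    | monomial n a =>
      rw [← Polynomial.C_mul_X_pow_eq_monomial]
      exact (hC' a).mul (hX.pow n)
  have h1 := trdeg_add_eq k (MvPolynomial (Fin (d + 1)) k) (A := Polynomial K)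
  have h2 := trdeg_add_eq k K (A := Polynomial K)
  obtain ⟨t, ht⟩ := hC.trdeg
  rw [trdeg_eq_zero (R := MvPolynomial (Fin (d + 1)) k), MvPolynomial.trdeg_of_isDomain] at h1
  rw [← ht.cardinalMk_eq_trdeg, Polynomial.trdeg_of_isDomain, ← h1] at h2
  simp only [Cardinal.mk_fin, Cardinal.lift_natCast, add_zero] at h2
  have h3 : 2 + 1 = d + 1 := by exact_mod_cast h2
  omega

end

theorem main :
    ¬ (∀ (k : Type) [Field k] [IsAlgClosed k] (m : ℕ)
      (P : Ideal (MvPolynomial (Fin (m + 1)) k)),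
      P.IsPrime →
      (∀ f ∈ P, ∀ n : ℕ, MvPolynomial.homogeneousComponent n f ∈ P) →
      (∃ j : Fin (m + 1), (MvPolynomial.X j : MvPolynomial (Fin (m + 1)) k) ∉ P) →
      ∃ (d : ℕ) (ℓ : Fin (d + 1) → MvPolynomial (Fin (m + 1)) k),
        (∀ i, (ℓ i).IsHomogeneous 1) ∧
        Function.Injective
          (MvPolynomial.aeval (fun i => Ideal.Quotient.mk P (ℓ i)) :
            MvPolynomial (Fin (d + 1)) k →ₐ[k] MvPolynomial (Fin (m + 1)) k ⧸ P) ∧
        (MvPolynomial.aeval (fun i => Ideal.Quotient.mk P (ℓ i)) :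
            MvPolynomial (Fin (d + 1)) k →ₐ[k] MvPolynomial (Fin (m + 1)) k ⧸ P).toRingHom.Finite ∧
        ∃ (r : ℕ) (ψ : MvPolynomial (Fin (m + 1)) k →ₐ[k]
            Matrix (Fin r) (Fin r) (MvPolynomial (Fin (d + 1)) k)),
          0 < r ∧
          (∀ (j : Fin (m + 1)) (a b : Fin r), ((ψ (MvPolynomial.X j)) a b).IsHomogeneous 1) ∧
          (∀ f ∈ P, ψ f = 0) ∧
          (∀ i : Fin (d + 1), ψ (ℓ i) = Matrix.diagonal (fun _ => MvPolynomial.X i))) := by
  intro H
  obtain ⟨K, _, _, C, hC⟩ := exists_good (AlgebraicClosure ℚ) (by norm_num)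
  obtain ⟨d, ℓ, hℓ, hinj, hfin, r, ψ, hr, h1, h2, h3⟩ :=
    H (AlgebraicClosure ℚ) 119 (surfIdeal C _) (surfIdeal_isPrime C _)
      (surfIdeal_homogeneous C _) (exists_X_notMem_surfIdeal C _)
  obtain rfl := dim_eq_two C _ hC d ℓ hinj hfin
  exact not_udata r hr ⟨ℓ, ψ, hℓ, h1, fun g hg => h2 _ (map_RelZ_mem_surfIdeal C _ hg), h3⟩

end Pool.Agent.Lib.MP_cf0da3_ag
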