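import Pool.Agent.Lib.MP_cf0da3_ag.Noeth

/-! Homogeneous primes, prime filtrations, the local to global lemma. -/

namespace Pool.Agent.Lib.MP_cf0da3_ag

open Module Filter TensorProduct

variable {k K : Type*} [Field k] [Field K] [Algebra k K] {W : Submodule k K}
  {V : Type*} [AddCommGroup V] [Module K V] [Module k V] [IsScalarTower k K V]
  {L N : ℤ → Submodule k V} {q : ℤ → Submodule k K}

theorem IsPrimeFam.mul_notMem (hq : IsPrimeFam W q) {a b : ℤ} {f g : K} (hf : f ∈ Rg W a)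
    (hg : g ∈ Rg W b) (hf' : f ∉ q a) (hg' : g ∉ q b) : f * g ∉ q (a + b) :=
  fun h => (hq.prime a b f hf g hg h).elim hf' hg'

theorem IsPrimeFam.pow_notMem (hq : IsPrimeFam W q) {a : ℤ} {f : K} (hf : f ∈ Rg W a)
    (hf' : f ∉ q a) (n : ℕ) : f ^ n ∉ q (n * a) := by
  induction n with
  | zero => simpa using hq.one_notMem
  | succ n ih =>
    have := hq.mul_notMem (pow_mem_Rg hf n) hf ih hf'
    rw [pow_succ]
    have h : ((n + 1 : ℕ) : ℤ) * a = n * a + a := by push_cast; ring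
    rwa [h]

theorem IsPrimeFam.prod_notMem (hq : IsPrimeFam W q) {ι : Type*} (s : Finset ι) (a : ι → ℤ)
    (f : ι → K) (hf : ∀ i ∈ s, f i ∈ Rg W (a i)) (hf' : ∀ i ∈ s, f i ∉ q (a i)) :
    ∏ i ∈ s, f i ∉ q (∑ i ∈ s, a i) := by
  classical
  induction s using Finset.induction_on with
  | empty => simpa using hq.one_notMem
  | insert i s hi ih =>
    rw [Finset.prod_insert hi, Finset.sum_insert hi]
    exact hq.mul_notMem (hf i (Finset.mem_insert_self _ _))
      (prod_mem_Rg s a f fun j hj => hf j (Finset.mem_insert_of_mem hj))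
      (hf' i (Finset.mem_insert_self _ _))
      (ih (fun j hj => hf j (Finset.mem_insert_of_mem hj))
        fun j hj => hf' j (Finset.mem_insert_of_mem hj))

theorem IsPrimeFam.mul_mem_left (hq : IsPrimeFam W q) {a b : ℤ} {f g : K} (hf : f ∈ Rg W a)
    (hg : g ∈ q b) : f * g ∈ q (a + b) :=
  hq.isMod.smul_mem hf hg

theorem mem_colon {b a : ℤ} {w : V} {f : K} :
    f ∈ colon W N b w a ↔ f ∈ Rg W a ∧ f • w ∈ N (a + b) := Iff.rfl

theorem colon_le (W : Submodule k K) (N : ℤ → Submodule k V) (b : ℤ) (w : V) :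
    colon W N b w ≤ Rg W := fun _ => inf_le_left

theorem isMod_colon (hN : IsMod W N) (b : ℤ) (w : V) : IsMod W (colon W N b w) := by
  intro t x hx f hf
  obtain ⟨h1, h2⟩ := mem_colon.mp hf
  refine mem_colon.mpr ⟨isMod_Rg W t x hx f h1, ?_⟩
  have := hN _ x hx _ h2
  rw [smul_eq_mul, mul_smul]
  rwa [show t + 1 + b = t + b + 1 by ring]

theorem hf_sup_cyc [FiniteDimensional k W] (hN : IsFG W N) (b : ℤ) (w : V) (t : ℤ) :
    hf (N ⊔ cyc W b w) t - hf N t = hf (Rg W) (t - b) - hf (colon W N b w) (t - b) := by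
  have := hN.finiteDimensional t
  have := finiteDimensional_Rg (W := W) (t - b)
  have h := finrank_sup_map (smulMap k K w) (Rg W (t - b)) (N t)
  have h1 : (N ⊔ cyc W b w) t = N t ⊔ (Rg W (t - b)).map (smulMap k K w) := rfl
  have h2 : colon W N b w (t - b) = Rg W (t - b) ⊓ (N t).comap (smulMap k K w) := by
    unfold colon
    rw [sub_add_cancel]
  unfold hf
  rw [h1, h2]
  omega

/-- Induction along a prime filtration, from the top. -/
theorem prime_induction [FiniteDimensional k W] (hL : IsFG W L)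
    (Q : (ℤ → Submodule k V) → Prop) (hQL : Q L)
    (step : ∀ (N : ℤ → Submodule k V) (b : ℤ) (w : V), IsMod W N → N ≤ L → w ∈ L b →
      IsPrimeFam W (colon W N b w) → Q (N ⊔ cyc W b w) → Q N) :
    ∀ N : ℤ → Submodule k V, IsMod W N → N ≤ L → Q N := by
  suffices h : ∀ A : {N : ℤ → Submodule k V // IsMod W N ∧ N ≤ L}, Q A.1 from
    fun N h1 h2 => h ⟨N, h1, h2⟩
  intro A
  induction A using hL.wellFounded_gt.induction with
  | _ A ih =>
    obtain ⟨N, hN, hNL⟩ := A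
    by_cases heq : N = L
    · rw [← heq] at hQL
      exact hQL
    obtain ⟨-, t, h2⟩ := Pi.lt_def.mp (lt_of_le_of_ne hNL heq)
    obtain ⟨x, hx, hx'⟩ := SetLike.exists_of_lt h2
    obtain ⟨C, ⟨b, w, hw, hw', hC⟩, hmax⟩ := (isFG_Rg W).wellFounded_gt.has_min
      {C | ∃ b w, w ∈ L b ∧ w ∉ N b ∧ C.1 = colon W N b w}
      ⟨⟨colon W N t x, isMod_colon hN t x, colon_le W N t x⟩, t, x, hx, hx', rfl⟩
    have hprime : IsPrimeFam W (colon W N b w) := by
      refine ⟨colon_le W N b w, isMod_colon hN b w, fun h => hw' ?_, ?_⟩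
      · simpa using (mem_colon.mp h).2
      · intro a c f hf g hg hfg
        by_cases hgw : g • w ∈ N (c + b)
        · exact Or.inr (mem_colon.mpr ⟨hg, hgw⟩)
        · left
          have hle : colon W N b w ≤ colon W N (c + b) (g • w) := by
            intro a' f' hf'
            obtain ⟨h3, h4⟩ := mem_colon.mp hf'
            refine mem_colon.mpr ⟨h3, ?_⟩
            have := hN.smul_mem hg h4
            rw [smul_comm, show c + (a' + b) = a' + (c + b) by ring] at this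
            exact this
          have hnlt := hmax ⟨colon W N (c + b) (g • w), isMod_colon hN _ _, colon_le W N _ _⟩
            ⟨c + b, g • w, hL.isMod.smul_mem hg hw, hgw, rfl⟩
          rw [hC] at hnlt
          have h5 : colon W N b w = colon W N (c + b) (g • w) := eq_of_le_of_not_lt hle hnlt
          rw [h5]
          refine mem_colon.mpr ⟨hf, ?_⟩
          have := (mem_colon.mp hfg).2
          rwa [mul_smul, add_assoc] at this
    refine step N b w hN hNL hw hprime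
      (ih ⟨N ⊔ cyc W b w, hN.sup (isMod_cyc W b w), sup_le hNL (cyc_le hL.isMod hw)⟩ ?_)
    refine lt_of_le_of_ne le_sup_left fun h => hw' ?_
    have h3 : w ∈ (N ⊔ cyc W b w) b := Submodule.mem_sup_right (self_mem_cyc W b w)
    have h4 : N = N ⊔ cyc W b w := h
    rwa [← h4] at h3

/-- An irrelevant ideal contains everything in positive degree. -/
theorem eq_Rg_of_not_relevant (hq : IsMod W q) (hle : q ≤ Rg W) (h : ¬ Relevant W q) {t : ℤ}
    (ht : 1 ≤ t) : q t = Rg W t := by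
  refine le_antisymm (hle t) ?_
  have h1 : ∀ g ∈ W, g ∈ q 1 := by
    intro g hg
    by_contra hc
    exact h ⟨g, hg, hc⟩
  obtain ⟨n, rfl⟩ : ∃ n : ℕ, t = (n : ℤ) + 1 := ⟨(t - 1).toNat, by omega⟩
  rw [show (n : ℤ) + 1 = ((n + 1 : ℕ) : ℤ) by push_cast; ring, Rg_natCast, pow_succ,
    Submodule.mul_le]
  intro f hf g hg
  have := hq.smul_mem (a := n) (by rwa [Rg_natCast]) (h1 g hg)
  rwa [show ((n + 1 : ℕ) : ℤ) = (n : ℤ) + 1 by push_cast; ring]

/-- Local to global: if `N ≤ L` agree at all relevant primes, they agree in large degrees. -/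
theorem eventually_eq_of_local [FiniteDimensional k W] (hL : IsFG W L) (hN : IsMod W N)
    (hle : N ≤ L)
    (h : ∀ q, IsPrimeFam W q → Relevant W q → ∀ t, ∀ v ∈ L t,
      ∃ a, ∃ f ∈ Rg W a, f ∉ q a ∧ f • v ∈ N (a + t)) :
    ∀ᶠ t in atTop, N t = L t := by
  refine prime_induction hL (fun N' => N ≤ N' → ∀ᶠ t in atTop, N' t = L t)
    (fun _ => Eventually.of_forall fun _ => rfl) ?_ N hN hle le_rfl
  intro N' b w hN' _ hw hprime ih hNN'
  have hirr : ¬ Relevant W (colon W N' b w) := by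
    intro hrel
    obtain ⟨a, f, hf, hf', hfw⟩ := h _ hprime hrel b w hw
    exact hf' (mem_colon.mpr ⟨hf, hNN' _ hfw⟩)
  filter_upwards [ih (hNN'.trans le_sup_left), eventually_ge_atTop (b + 1)] with t h1 h2
  rw [← h1]
  refine le_antisymm le_sup_left (sup_le le_rfl ?_)
  rintro x ⟨f, hf, rfl⟩
  rw [SetLike.mem_coe, ← eq_Rg_of_not_relevant hprime.isMod hprime.le hirr (by omega)] at hf
  have := (mem_colon.mp hf).2
  rwa [sub_add_cancel] at this

theorem Ht1.relevant (hq : Ht1 W q) : Relevant W q := by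
  by_contra h
  refine hq.2.2 ⟨0, ?_⟩
  filter_upwards [eventually_ge_atTop 1] with t ht
  unfold hf
  rw [eq_Rg_of_not_relevant hq.1.isMod hq.1.le h ht, sub_self]

/-- The quotient by a nonzero homogeneous ideal has linear growth. -/
theorem evLin_of_ne_bot (hW : Ctx W) (hq : IsMod W q) (hle : q ≤ Rg W) (h0 : ∃ a, q a ≠ ⊥) :
    ∃ c₁ c₀ : ℚ, ∀ᶠ t : ℤ in atTop, ((hf (Rg W) t - hf q t : ℤ) : ℚ) = c₁ * t + c₀ := by
  have := hW.fd
  obtain ⟨a, ha⟩ := h0
  obtain ⟨f, hf, hf0⟩ := Submodule.exists_mem_ne_zero_of_ne_bot ha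
  have hqfg : IsFG W q := (isFG_Rg W).of_le hq hle
  obtain ⟨a₂, a₁, a₀, hR⟩ := hW.evQuad (isFG_Rg W)
  obtain ⟨b₂, b₁, b₀, hQ⟩ := hW.evQuad hqfg
  have hR' : ∀ᶠ t : ℤ in atTop, (Pool.Agent.Lib.MP_cf0da3_ag.hf (Rg W) (t - a) : ℚ) =
      a₂ * ((t - a : ℤ) : ℚ) ^ 2 + a₁ * ((t - a : ℤ) : ℚ) + a₀ :=
    (tendsto_atTop_add_const_right atTop (-a) tendsto_id).eventually hR
  have h1 : b₂ ≤ a₂ := by
    refine (quad_le_of_eventually' (a₁ := b₁) (a₀ := b₀) (b₁ := a₁) (b₀ := a₀) ?_).1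
    filter_upwards [hR, hQ] with t h3 h4
    rw [← h3, ← h4]
    have := finiteDimensional_Rg (W := W) t
    exact_mod_cast hf_mono (hle t)
  have h2 : a₂ ≤ b₂ := by
    refine (quad_le_of_eventually' (a₁ := a₁ - 2 * a₂ * a) (a₀ := a₂ * (a : ℚ) ^ 2 - a₁ * a + a₀)
      (b₁ := b₁) (b₀ := b₀) ?_).1
    filter_upwards [hR', hQ] with t h3 h4
    have := hqfg.finiteDimensional t
    have h5 : (Pool.Agent.Lib.MP_cf0da3_ag.hf (Rg W) (t - a) : ℚ) ≤
        Pool.Agent.Lib.MP_cf0da3_ag.hf q t := by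
      rw [← hf_cyc_of_ne a hf0 t]
      exact_mod_cast hf_mono (cyc_le hq hf t)
    rw [h3, h4] at h5
    push_cast at h5
    linarith
  refine ⟨a₁ - b₁, a₀ - b₀, ?_⟩
  filter_upwards [hR, hQ] with t h3 h4
  push_cast
  rw [h3, h4, le_antisymm h1 h2]
  ring

/-- Adding an element outside a prime: the Hilbert function of `R / (q + f R)`. -/
theorem IsPrimeFam.hf_sup_cyc [FiniteDimensional k W] (hq : IsPrimeFam W q) {a : ℤ} {f : K}
    (hf' : f ∈ Rg W a) (hf'' : f ∉ q a) (t : ℤ) :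
    hf (Rg W) t - hf (q ⊔ cyc W a f) t =
      (hf (Rg W) t - hf q t) - (hf (Rg W) (t - a) - hf q (t - a)) := by
  have hqfg : IsFG W q := (isFG_Rg W).of_le hq.isMod hq.le
  have h1 := Pool.Agent.Lib.MP_cf0da3_ag.hf_sup_cyc hqfg a f t
  have h2 : colon W q a f = q := by
    funext c
    ext g
    rw [mem_colon, smul_eq_mul]
    constructor
    · rintro ⟨h3, h4⟩
      exact (hq.prime c a g h3 f hf' h4).resolve_right hf''
    · intro hg
      refine ⟨hq.le c hg, ?_⟩
      have := hq.mul_mem_left hf' hg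
      rwa [mul_comm, add_comm] at this
  rw [h2] at h1
  omega

/-- Height one primes are minimal among nonzero primes. -/
theorem Ht1.eq_of_le (hW : Ctx W) {p : ℤ → Submodule k K} (hp : Ht1 W p) (hq : IsPrimeFam W q)
    (hq0 : ∃ a, q a ≠ ⊥) (hle : q ≤ p) : q = p := by
  have := hW.fd
  by_contra hne
  obtain ⟨-, a, h2⟩ := Pi.lt_def.mp (lt_of_le_of_ne hle hne)
  obtain ⟨f, hf1, hf2⟩ := SetLike.exists_of_lt h2
  obtain ⟨c₁, c₀, hlin⟩ := evLin_of_ne_bot hW hq.isMod hq.le hq0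
  have hlin' : ∀ᶠ t : ℤ in atTop, ((hf (Rg W) (t - a) - hf q (t - a) : ℤ) : ℚ) =
      c₁ * ((t - a : ℤ) : ℚ) + c₀ :=
    (tendsto_atTop_add_const_right atTop (-a) tendsto_id).eventually hlin
  have hpfg : IsFG W p := (isFG_Rg W).of_le hp.1.isMod hp.1.le
  refine hp.2.2 ⟨⌈c₁ * a⌉, ?_⟩
  filter_upwards [hlin, hlin'] with t h3 h4
  have := hpfg.finiteDimensional t
  have h5 := hq.hf_sup_cyc (hp.1.le a hf1) hf2 t
  have h6 : hf (q ⊔ cyc W a f) t ≤ hf p t := hf_mono (sup_le hle (cyc_le hp.1.isMod hf1) t)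
  have h7 : ((hf (Rg W) t - hf (q ⊔ cyc W a f) t : ℤ) : ℚ) = c₁ * a := by
    rw [h5, Int.cast_sub, h3, h4]
    push_cast
    ring
  have h8 : hf (Rg W) t - hf (q ⊔ cyc W a f) t ≤ ⌈c₁ * a⌉ := by
    rw [← h7, Int.ceil_intCast]
  omega

theorem LF.of_le {M : ℤ → Submodule k V} {r : ℕ} {q' : ℤ → Submodule k K} (h : q ≤ q')
    (hLF : LF W M r q') : LF W M r q := by
  obtain ⟨b, e, m, h1, h2, f, hf, hf', h3⟩ := hLF
  exact ⟨b, e, m, h1, h2, f, hf, fun hh => hf' (h e hh), h3⟩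

end Pool.Agent.Lib.MP_cf0da3_ag
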