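import Pool.Agent.Lib.MP_cf0da3_ag.Poly3
import Pool.Agent.Lib.MP_cf0da3_ag.Primes

/-! The saturation in codimension two, its free resolution and the duality inequality. -/

namespace Pool.Agent.Lib.MP_cf0da3_ag

open Module Filter TensorProduct

namespace Hl

section LinAlg

variable {k V W : Type*} [Field k] [AddCommGroup V] [Module k V] [AddCommGroup W] [Module k W]

theorem finrank_map_add_finrank_inf_ker (A : Submodule k V) [FiniteDimensional k A]
    (ψ : V →ₗ[k] W) :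
    finrank k (A.map ψ) + finrank k (A ⊓ LinearMap.ker ψ : Submodule k V) = finrank k A := by
  have h := LinearMap.finrank_range_add_finrank_ker (ψ.domRestrict A)
  rw [LinearMap.range_domRestrict, LinearMap.ker_domRestrict,
    ← Submodule.finrank_map_subtype_eq A, Submodule.map_comap_subtype] at h
  exact h

theorem finrank_le_inf_comap (A : Submodule k V) [FiniteDimensional k A] (φ : V →ₗ[k] W)
    {R₀ R₁ : Submodule k W} [FiniteDimensional k R₁] (h01 : R₀ ≤ R₁) (h : ∀ x ∈ A, φ x ∈ R₁) :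
    finrank k A + finrank k R₀ ≤ finrank k (A ⊓ R₀.comap φ : Submodule k V) + finrank k R₁ := by
  have h1 := finrank_map_add_finrank_inf_ker A (R₀.mkQ.comp φ)
  have h2 := finrank_map_add_finrank_inf_ker R₁ R₀.mkQ
  rw [LinearMap.ker_comp, Submodule.ker_mkQ] at h1
  rw [Submodule.ker_mkQ, inf_eq_right.mpr h01] at h2
  have h3 : finrank k (A.map (R₀.mkQ.comp φ)) ≤ finrank k (R₁.map R₀.mkQ) :=
    Submodule.finrank_mono (by
      rintro _ ⟨x, hx, rfl⟩
      exact ⟨φ x, h x hx, rfl⟩)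
  omega

theorem finrank_le_iInf_comap {ι : Type*} (S : Finset ι) (A : Submodule k V)
    [FiniteDimensional k A] (φ : ι → V →ₗ[k] W) (R₀ R₁ : ι → Submodule k W)
    [∀ i, FiniteDimensional k (R₁ i)] (h01 : ∀ i, R₀ i ≤ R₁ i) (h : ∀ i, ∀ x ∈ A, φ i x ∈ R₁ i) :
    (finrank k A : ℤ) ≤ finrank k (A ⊓ ⨅ i ∈ S, (R₀ i).comap (φ i) : Submodule k V) +
      ∑ i ∈ S, ((finrank k (R₁ i) : ℤ) - finrank k (R₀ i)) := by
  classical
  induction S using Finset.induction_on with
  | empty =>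
    have : (A ⊓ ⨅ i ∈ (∅ : Finset ι), (R₀ i).comap (φ i) : Submodule k V) = A := by simp
    rw [this]
    simp
  | insert j S hj ih =>
    rw [Finset.iInf_insert, Finset.sum_insert hj, inf_comm ((R₀ j).comap (φ j)), ← inf_assoc]
    have : FiniteDimensional k (A ⊓ ⨅ i ∈ S, (R₀ i).comap (φ i) : Submodule k V) :=
      Submodule.finiteDimensional_of_le inf_le_left
    have h1 := finrank_le_inf_comap (A ⊓ ⨅ i ∈ S, (R₀ i).comap (φ i)) (φ j) (h01 j)
      (fun x hx => h j x hx.1)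
    omega

theorem finrank_le_of_forall {ι : Type*} [Fintype ι] (A B : Submodule k V)
    [FiniteDimensional k A] [FiniteDimensional k B] (φ : ι → V →ₗ[k] W)
    (R₀ R₁ : ι → Submodule k W) [∀ i, FiniteDimensional k (R₁ i)] (h01 : ∀ i, R₀ i ≤ R₁ i)
    (h : ∀ i, ∀ x ∈ A, φ i x ∈ R₁ i) (hB : ∀ x ∈ A, (∀ i, φ i x ∈ R₀ i) → x ∈ B) :
    (finrank k A : ℤ) ≤ finrank k B + ∑ i, ((finrank k (R₁ i) : ℤ) - finrank k (R₀ i)) := by
  have h1 := finrank_le_iInf_comap Finset.univ A φ R₀ R₁ h01 h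
  have h2 : finrank k (A ⊓ ⨅ i ∈ (Finset.univ : Finset ι), (R₀ i).comap (φ i) : Submodule k V) ≤
      finrank k B := by
    refine Submodule.finrank_mono fun x hx => hB x hx.1 fun i => ?_
    have := hx.2
    simp only [Finset.mem_univ, iInf_pos, SetLike.mem_coe, Submodule.mem_iInf,
      Submodule.mem_comap] at this
    exact this i
  omega

end LinAlg

section Denom

variable {k K : Type*} [Field k] [Field K] [Algebra k K] {W : Submodule k K}

theorem exists_denom (hW : Ctx W) {ι : Type*} [Finite ι] (c : ι → K) (d : ι → ℤ) :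
    ∃ a : ℤ, ∃ h ∈ Rg W a, h ≠ 0 ∧ ∀ i, h * c i ∈ Rg W (a + d i) := by
  classical
  have := Fintype.ofFinite ι
  choose a h hh h0 hc using fun i => hW.frac (c i)
  obtain ⟨d₀, hd₀⟩ := (Set.finite_range d).bddBelow
  refine ⟨∑ i, a i + |d₀|, ∏ i, h i, ?_, Finset.prod_ne_zero_iff.mpr fun i _ => h0 i, fun i => ?_⟩
  · exact Rg_mono hW.one_mem (le_add_of_nonneg_right (abs_nonneg _))
      (prod_mem_Rg _ a h fun i _ => hh i)
  · have h1 := mul_mem_Rg (prod_mem_Rg (Finset.univ.erase i) a h fun j _ => hh j) (hc i)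
    rw [← mul_assoc, Finset.prod_erase_mul _ _ (Finset.mem_univ i),
      Finset.sum_erase_add _ _ (Finset.mem_univ i)] at h1
    refine Rg_mono hW.one_mem ?_ h1
    have := hd₀ ⟨i, rfl⟩
    have := neg_abs_le d₀
    omega

theorem mem_gen_single {n : ℕ} {a : Fin n → ℤ} {t : ℤ} {x : Fin n → K} :
    x ∈ gen W a (fun j => (Pi.single j 1 : Fin n → K)) t ↔ ∀ j, x j ∈ Rg W (t - a j) := by
  rw [mem_gen]
  have key : ∀ f : Fin n → K, ∑ i, f i • (Pi.single i 1 : Fin n → K) = f := by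
    intro f
    funext j
    simp [Finset.sum_apply, Pi.single_apply]
  simp only [key, exists_eq_right]

theorem li_single (K : Type*) [Field K] (n : ℕ) :
    LinearIndependent K (fun j => (Pi.single j 1 : Fin n → K)) := by
  have := (Pi.basisFun K (Fin n)).linearIndependent
  rwa [show (⇑(Pi.basisFun K (Fin n)) : Fin n → Fin n → K) = fun j => Pi.single j 1 from
    funext fun j => Pi.basisFun_apply K (Fin n) j] at this

theorem exists_decomp_U3 (s : Fin 2 → K) {j : ℤ} {x : K} (hx : x ∈ Rg (U3 k s) (j + 1))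
    (h0 : j + 1 = 0 → x = 0) :
    ∃ g₀ ∈ Rg (U3 k s) j, ∃ g₁ ∈ Rg (U3 k s) j, ∃ g₂ ∈ Rg (U3 k s) j,
      x = g₀ + s 0 * g₁ + s 1 * g₂ := by
  rcases lt_or_ge j 0 with hj | hj
  · have hx0 : x = 0 := by
      rcases lt_or_eq_of_le (show j + 1 ≤ 0 by omega) with h | h
      · rwa [Rg_of_neg _ h, Submodule.mem_bot] at hx
      · exact h0 h
    exact ⟨0, Submodule.zero_mem _, 0, Submodule.zero_mem _, 0, Submodule.zero_mem _,
      by simp [hx0]⟩
  lift j to ℕ using hj
  rw [show (j : ℤ) + 1 = ((j + 1 : ℕ) : ℤ) by push_cast; ring, Rg_natCast, pow_succ'] at hx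
  rw [Rg_natCast]
  clear h0
  induction hx using Submodule.mul_induction_on' with
  | mem_mul_mem m hm y hy =>
    obtain ⟨a, b, c, rfl⟩ := Submodule.mem_span_triple.mp hm
    exact ⟨a • y, Submodule.smul_mem _ _ hy, b • y, Submodule.smul_mem _ _ hy, c • y,
      Submodule.smul_mem _ _ hy, by simp only [Algebra.smul_def]; ring⟩
  | add x hx y hy ihx ihy =>
    obtain ⟨g₀, h₀, g₁, h₁, g₂, h₂, rfl⟩ := ihx
    obtain ⟨g₀', h₀', g₁', h₁', g₂', h₂', rfl⟩ := ihy
    exact ⟨_, Submodule.add_mem _ h₀ h₀', _, Submodule.add_mem _ h₁ h₁', _,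
      Submodule.add_mem _ h₂ h₂', by ring⟩

theorem exists_quad {n : ℕ} (a : Fin n → ℤ) : ∃ d₂ d₁ d₀ : ℚ, ∀ t : ℤ,
    ∑ j, ((t : ℚ) - a j + 1) * ((t : ℚ) - a j + 2) / 2 = d₂ * (t : ℚ) ^ 2 + d₁ * t + d₀ := by
  refine ⟨∑ _j : Fin n, 1 / 2, ∑ j, (3 - 2 * (a j : ℚ)) / 2, ∑ j, (1 - (a j : ℚ)) * (2 - a j) / 2,
    fun t => ?_⟩
  rw [Finset.sum_mul, Finset.sum_mul, ← Finset.sum_add_distrib, ← Finset.sum_add_distrib]
  exact Finset.sum_congr rfl fun j _ => by ring

theorem sum_al_add {n : ℕ} (a : Fin n → ℤ) (t : ℤ) :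
    ((∑ j, al (t - a j) : ℤ) : ℚ) + ((∑ j, al (-t - 3 + a j) : ℤ) : ℚ) =
      ∑ j, ((t : ℚ) - a j + 1) * ((t : ℚ) - a j + 2) / 2 := by
  push_cast
  rw [← Finset.sum_add_distrib]
  refine Finset.sum_congr rfl fun j _ => ?_
  have h := two_mul_al_add (t - a j)
  rw [show -(t - a j) - 3 = -t - 3 + a j by ring] at h
  have h' : ((2 * (al (t - a j) + al (-t - 3 + a j)) : ℤ) : ℚ) =
      (((t - a j + 1) * (t - a j + 2) : ℤ) : ℚ) := by rw [h]
  push_cast at h'
  linarith

theorem eventually_sum_al_eq_zero {n : ℕ} (a : Fin n → ℤ) :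
    ∀ᶠ t : ℤ in atTop, ∑ j, al (-t - 3 + a j) = 0 := by
  have : ∀ᶠ t : ℤ in atTop, ∀ j, a j ≤ t := eventually_all.mpr fun j => eventually_ge_atTop _
  filter_upwards [this] with t ht
  exact Finset.sum_eq_zero fun j _ => al_of_neg (by have := ht j; omega)

end Denom

end Hl

section General

variable {k K : Type*} [Field k] [Field K] [Algebra k K] {s : Fin 2 → K}
  {V : Type*} [AddCommGroup V] [Module K V] [Module k V] [IsScalarTower k K V]
  {G : ℤ → Submodule k V}

theorem mem_hull (hG : IsMod (U3 k s) G) {t : ℤ} {v : V} :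
    v ∈ hull s G t ↔ ∀ q : MvPolynomial (Fin 3) k, Prime q →
      ∃ (a : ℕ) (f : MvPolynomial (Fin 3) k), f.IsHomogeneous a ∧ ¬ q ∣ f ∧
        ev3 k s f • v ∈ G (t + a) := by
  refine ⟨fun hv => ?_, fun h => Submodule.subset_span h⟩
  unfold hull at hv
  induction hv using Submodule.span_induction with
  | mem x hx => exact hx
  | zero =>
    intro q hq
    exact ⟨0, 1, MvPolynomial.isHomogeneous_one _ _, hq.not_dvd_one, by simp⟩
  | add x y _ _ hx hy =>
    intro q hq
    obtain ⟨a, f, hf, hqf, hfx⟩ := hx q hq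
    obtain ⟨b, g, hg, hqg, hgy⟩ := hy q hq
    refine ⟨a + b, f * g, hf.mul hg, fun h => (hq.dvd_or_dvd h).elim hqf hqg, ?_⟩
    rw [map_mul, smul_add]
    refine Submodule.add_mem _ ?_ ?_
    · have := hG.smul_mem (ev3_mem_Rg s hg) hfx
      rwa [smul_smul, mul_comm, show (b : ℤ) + (t + a) = t + ((a + b : ℕ) : ℤ) by
        push_cast; ring] at this
    · have := hG.smul_mem (ev3_mem_Rg s hf) hgy
      rwa [smul_smul, show (a : ℤ) + (t + b) = t + ((a + b : ℕ) : ℤ) by push_cast; ring] at this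
  | smul c x _ hx =>
    intro q hq
    obtain ⟨a, f, hf, hqf, hfx⟩ := hx q hq
    refine ⟨a, f, hf, hqf, ?_⟩
    rw [smul_comm]
    exact Submodule.smul_mem _ _ hfx

omit [IsScalarTower k K V] in
theorem le_hull (s : Fin 2 → K) (G : ℤ → Submodule k V) : G ≤ hull s G := by
  intro t v hv
  refine Submodule.subset_span fun q hq => ?_
  exact ⟨0, 1, MvPolynomial.isHomogeneous_one _ _, hq.not_dvd_one, by simpa using hv⟩

/-- The hull is a module over any ring over which `G` is a module. -/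
theorem isMod_hull {W : Submodule k K} (hG : IsMod (U3 k s) G) (hW : IsMod W G) :
    IsMod W (hull s G) := by
  intro t w hw v hv
  rw [mem_hull hG] at hv ⊢
  intro q hq
  obtain ⟨a, f, hf, hqf, hfv⟩ := hv q hq
  refine ⟨a, f, hf, hqf, ?_⟩
  have := hW _ w hw _ hfv
  rwa [smul_comm, add_right_comm] at this

/-- The hull is stable under first order operators preserving `G`. -/
theorem hull_stable {W : Submodule k K} (hU : U3 k s ≤ W) (hW : IsMod W G) (c : ℤ)
    (T : V →ₗ[k] V) (δ : K → K) (hT : ∀ (f : K) (v : V), T (f • v) = δ f • v + f • T v)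
    (hδ : ∀ a : ℤ, ∀ f ∈ Rg (U3 k s) a, δ f ∈ Rg W (a + c))
    (hTG : ∀ t, ∀ v ∈ G t, T v ∈ G (t + c)) : ∀ t, ∀ v ∈ hull s G t, T v ∈ hull s G (t + c) := by
  have hG : IsMod (U3 k s) G := hW.of_le hU
  intro t v hv
  rw [mem_hull hG] at hv ⊢
  intro q hq
  obtain ⟨a, f, hf, hqf, hfv⟩ := hv q hq
  refine ⟨a + a, f * f, hf.mul hf, fun h => (hq.dvd_or_dvd h).elim hqf hqf, ?_⟩
  have h1 := hG.smul_mem (ev3_mem_Rg s hf) (hTG _ _ hfv)
  have h2 := hW.smul_mem (hδ _ _ (ev3_mem_Rg s hf)) hfv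
  rw [show (a : ℤ) + (t + a + c) = t + c + ((a + a : ℕ) : ℤ) by push_cast; ring] at h1
  rw [show (a : ℤ) + c + (t + a) = t + c + ((a + a : ℕ) : ℤ) by push_cast; ring] at h2
  have h3 := Submodule.sub_mem _ h1 h2
  rwa [hT, smul_add, smul_comm (ev3 k s f) (δ (ev3 k s f)), add_sub_cancel_left, smul_smul,
    ← map_mul] at h3

theorem mem_dualFam {u : ℤ} {φ : Module.Dual K V} :
    φ ∈ dualFam s G u ↔ ∀ t, ∀ g ∈ G t, φ g ∈ Rg (U3 k s) (t + u) := Iff.rfl

/-- Choosing functionals out of a set with the same common kernel on `Y`. -/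
theorem exists_functionals [FiniteDimensional K V] (Y : Submodule K V)
    (S : Set (Module.Dual K V)) :
    ∃ (n : ℕ) (φ : Fin n → Module.Dual K V), (∀ i, φ i ∈ S) ∧
      Y ⊓ ⨅ i, LinearMap.ker (φ i) = Y ⊓ ⨅ ψ ∈ S, LinearMap.ker ψ ∧
      n + finrank K (Y ⊓ ⨅ ψ ∈ S, LinearMap.ker ψ : Submodule K V) = finrank K Y := by
  induction hd : finrank K Y using Nat.strong_induction_on generalizing Y with
  | _ d ih =>
  by_cases hY : Y ≤ ⨅ ψ ∈ S, LinearMap.ker ψ
  · refine ⟨0, Fin.elim0, fun i => i.elim0, ?_, ?_⟩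
    · rw [inf_eq_left.mpr hY, iInf_of_empty, inf_top_eq]
    · rw [inf_eq_left.mpr hY, zero_add, hd]
  · obtain ⟨ψ, hψS, hψ⟩ : ∃ ψ ∈ S, ¬ Y ≤ LinearMap.ker ψ := by
      by_contra hcon
      push Not at hcon
      exact hY (le_iInf₂ hcon)
    have h1 := Hl.finrank_map_add_finrank_inf_ker Y ψ
    have h2 : finrank K (Y.map ψ) = 1 := by
      have h3 : finrank K (Y.map ψ) ≤ 1 := by
        simpa using Submodule.finrank_le (Y.map ψ)
      have h4 : finrank K (Y.map ψ) ≠ 0 := by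
        rw [Ne, Submodule.finrank_eq_zero, ← LinearMap.le_ker_iff_map]
        exact hψ
      omega
    obtain ⟨n, φ, hφ, h3, h4⟩ := ih _ (by omega) (Y ⊓ LinearMap.ker ψ) rfl
    have h5 : Y ⊓ LinearMap.ker ψ ⊓ ⨅ ψ ∈ S, LinearMap.ker ψ = Y ⊓ ⨅ ψ ∈ S, LinearMap.ker ψ := by
      have h6 : ⨅ ψ ∈ S, LinearMap.ker ψ ≤ LinearMap.ker ψ := iInf₂_le ψ hψS
      rw [inf_assoc, inf_eq_right.mpr h6]
    refine ⟨n + 1, Fin.cons ψ φ, fun i => Fin.cases hψS hφ i, ?_, ?_⟩
    · rw [← h5, ← h3]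
      ext x
      simp only [Submodule.mem_inf, Submodule.mem_iInf, Fin.forall_fin_succ, Fin.cons_zero,
        Fin.cons_succ, and_assoc]
    · rw [h5] at h4
      omega

/-- Upper bound for the Hilbert function given by finitely many functionals. -/
theorem hf_sub_le_of_functionals (hs : AlgebraicIndependent k s) {L : ℤ → Submodule k V}
    {n : ℕ} (φ : Fin n → Module.Dual K V) (u t : ℤ) [FiniteDimensional k (L t)]
    (h : ∀ i, ∀ v ∈ L t, φ i v ∈ Rg (U3 k s) (t + u)) :
    hf L t - hf (L ⊓ cst k (⨅ i, LinearMap.ker (φ i))) t ≤ n * al (t + u) := by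
  have i1 : FiniteDimensional k ((L ⊓ cst k (⨅ i, LinearMap.ker (φ i))) t) :=
    Submodule.finiteDimensional_of_le (S₂ := L t) inf_le_left
  have i2 := finiteDimensional_Rg (W := U3 k s) (t + u)
  have h1 := Hl.finrank_le_of_forall (L t) ((L ⊓ cst k (⨅ i, LinearMap.ker (φ i))) t)
    (fun i => (φ i).restrictScalars k) (fun _ => ⊥) (fun _ => Rg (U3 k s) (t + u))
    (fun _ => bot_le) h (fun x hx hx' => ⟨hx, by
      rw [SetLike.mem_coe, mem_cst, Submodule.mem_iInf]
      exact fun i => hx' i⟩)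
  have h2 := hf_Rg_U3 hs (t + u)
  simp only [hf] at h2 ⊢
  simp only [finrank_bot, Nat.cast_zero, sub_zero, Finset.sum_const, Finset.card_univ,
    Fintype.card_fin, nsmul_eq_mul, h2] at h1
  omega

theorem Hl.dual_hull (hs : AlgebraicIndependent k s) (hG : IsMod (U3 k s) G) {u : ℤ}
    {φ : Module.Dual K V} (hφ : φ ∈ dualFam s G u) : φ ∈ dualFam s (hull s G) u := by
  intro t v hv
  rw [mem_hull hG] at hv
  refine mem_Rg_U3_of_forall_prime hs _ _ fun q hq => ?_
  obtain ⟨a, f, hf, hqf, hfv⟩ := hv q hq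
  refine ⟨a, f, hf, hqf, ?_⟩
  have := hφ _ _ hfv
  rwa [map_smul, smul_eq_mul, add_right_comm] at this

theorem Hl.mem_hull_of_two (hG : IsMod (U3 k s) G) {t : ℤ} {y : V} (h₀ : y ∈ hull s G (t + 1))
    (h₁ : s 0 • y ∈ hull s G (t + 1)) : y ∈ hull s G t := by
  rw [mem_hull hG] at h₀ h₁ ⊢
  intro q hq
  have hX := fun i : Fin 3 => MvPolynomial.isHomogeneous_X k i
  rcases not_dvd_X0_or_X1 hq with h | h
  · obtain ⟨a, f, hf, hqf, hfv⟩ := h₀ q hq
    refine ⟨a + 1, f * MvPolynomial.X 0, hf.mul (hX 0), fun h' => (hq.dvd_or_dvd h').elim hqf h, ?_⟩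
    rwa [map_mul, ev3_X0, mul_one, show t + ((a + 1 : ℕ) : ℤ) = t + 1 + a by push_cast; ring]
  · obtain ⟨a, f, hf, hqf, hfv⟩ := h₁ q hq
    refine ⟨a + 1, f * MvPolynomial.X 1, hf.mul (hX 1), fun h' => (hq.dvd_or_dvd h').elim hqf h, ?_⟩
    rwa [map_mul, ev3_X1, mul_smul, show t + ((a + 1 : ℕ) : ℤ) = t + 1 + a by push_cast; ring]

end General

section Free

variable {k F : Type*} [Field k] [Infinite k] [Field F] [Algebra k F] {s : Fin 2 → F}
  {V : Type*} [AddCommGroup V] [Module F V] [Module k V] [IsScalarTower k F V]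
  {G : ℤ → Submodule k V} {N : ℕ}

/-- A graded module on which the Koszul complex is exact in degree one is free. -/
theorem exists_basis_of_koszul (hs : AlgebraicIndependent k s)
    (htop : IntermediateField.adjoin k (Set.range s) = ⊤) {L : ℤ → Submodule k V}
    (hL : IsFG (U3 k s) L)
    (hK : ∀ (t : ℤ) (v₀ v₁ v₂ : V), v₀ ∈ L t → v₁ ∈ L t → v₂ ∈ L t →
      v₀ + s 0 • v₁ + s 1 • v₂ = 0 →
      ∃ w₀₁ ∈ L (t - 1), ∃ w₀₂ ∈ L (t - 1), ∃ w₁₂ ∈ L (t - 1),
        v₀ = s 0 • w₀₁ + s 1 • w₀₂ ∧ v₁ = - w₀₁ + s 1 • w₁₂ ∧ v₂ = - w₀₂ - s 0 • w₁₂) :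
    ∃ (n : ℕ) (b : Fin n → ℤ) (v : Fin n → V), LinearIndependent F v ∧
      L = gen (U3 k s) b v := by
  classical
  obtain ⟨b, v, hgen⟩ := Nat.find_spec hL
  have hmin := fun m (hm : m < Nat.find hL) => Nat.find_min hL hm
  generalize Nat.find hL = n at b v hgen hmin
  -- no relation has a nonzero constant coefficient
  have hconst : ∀ (t : ℤ) (f : Fin n → F), (∀ i, f i ∈ Rg (U3 k s) (t - b i)) →
      ∑ i, f i • v i = 0 → ∀ i, t - b i = 0 → f i = 0 := by
    intro t f hf hsum i₀ hi₀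
    by_contra hne
    obtain ⟨m, rfl⟩ : ∃ m, n = m + 1 := ⟨n - 1, by have := i₀.pos; omega⟩
    have h1 := hf i₀
    rw [hi₀, Rg_zero, Submodule.mem_one] at h1
    obtain ⟨c, hc⟩ := h1
    have hc0 : c ≠ 0 := fun h0 => hne (by rw [← hc, h0, map_zero])
    refine hmin m (Nat.lt_succ_self m) ⟨b ∘ i₀.succAbove, v ∘ i₀.succAbove, ?_⟩
    rw [hgen]
    refine le_antisymm (gen_le (isMod_gen _ _ _) fun i => ?_)
      (gen_le (isMod_gen _ _ _) fun j => self_mem_gen _ b v _)
    by_cases hi : i = i₀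
    · subst hi
      rw [Fin.sum_univ_succAbove _ i, ← hc, algebraMap_smul] at hsum
      have h2 : v i = (-c⁻¹) • ∑ j, f (i.succAbove j) • v (i.succAbove j) := by
        rw [← neg_eq_of_add_eq_zero_right hsum, smul_neg, neg_smul, neg_neg, smul_smul,
          inv_mul_cancel₀ hc0, one_smul]
      rw [h2, show b i = t by omega]
      exact Submodule.smul_mem _ _ (mem_gen.mpr ⟨fun j => f (i.succAbove j), fun j => hf _, rfl⟩)
    · obtain ⟨j, rfl⟩ := Fin.exists_succAbove_eq hi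
      exact self_mem_gen _ (b ∘ i₀.succAbove) (v ∘ i₀.succAbove) j
  -- there are no relations
  have hZ : ∀ (t : ℤ) (f : Fin n → F), (∀ i, f i ∈ Rg (U3 k s) (t - b i)) →
      ∑ i, f i • v i = 0 → ∀ i, f i = 0 := by
    obtain ⟨t₀, ht₀⟩ := (Set.finite_range b).bddBelow
    have hlow : ∀ t < t₀, ∀ f : Fin n → F, (∀ i, f i ∈ Rg (U3 k s) (t - b i)) →
        ∑ i, f i • v i = 0 → ∀ i, f i = 0 := by
      intro t ht f hf _ i
      have h1 := hf i
      have h2 := ht₀ ⟨i, rfl⟩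
      rwa [Rg_of_neg _ (by omega), Submodule.mem_bot] at h1
    intro t
    rcases lt_or_ge t (t₀ - 1) with ht | ht
    · exact hlow t (by omega)
    induction t, ht using Int.leInduction with
    | base => exact hlow _ (by omega)
    | succ t _ ih =>
      intro f hf hsum
      have hdec := fun i => Hl.exists_decomp_U3 s (j := t - b i) (x := f i)
        (by rw [show t - b i + 1 = t + 1 - b i by ring]; exact hf i)
        (fun h => hconst _ f hf hsum i (by omega))
      choose g₀ hg₀ g₁ hg₁ g₂ hg₂ hfg using hdec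
      obtain ⟨w₀₁, h₀₁, w₀₂, h₀₂, w₁₂, h₁₂, e₀, e₁, e₂⟩ := hK t (∑ i, g₀ i • v i) (∑ i, g₁ i • v i)
        (∑ i, g₂ i • v i) (by rw [hgen]; exact mem_gen.mpr ⟨g₀, hg₀, rfl⟩)
        (by rw [hgen]; exact mem_gen.mpr ⟨g₁, hg₁, rfl⟩)
        (by rw [hgen]; exact mem_gen.mpr ⟨g₂, hg₂, rfl⟩) (by
          rw [← hsum, Finset.smul_sum, Finset.smul_sum, ← Finset.sum_add_distrib,
            ← Finset.sum_add_distrib]
          refine Finset.sum_congr rfl fun i _ => ?_
          rw [hfg i, add_smul, add_smul, mul_smul, mul_smul])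
      rw [hgen, mem_gen] at h₀₁ h₀₂ h₁₂
      obtain ⟨a₀₁, ha₀₁, rfl⟩ := h₀₁
      obtain ⟨a₀₂, ha₀₂, rfl⟩ := h₀₂
      obtain ⟨a₁₂, ha₁₂, rfl⟩ := h₁₂
      have hup : ∀ (a : Fin n → F), (∀ i, a i ∈ Rg (U3 k s) (t - 1 - b i)) → ∀ i,
          a i ∈ Rg (U3 k s) (t - b i) := fun a ha i => Rg_mono (one_mem_U3 s) (by omega) (ha i)
      have hmul : ∀ (a : Fin n → F), (∀ i, a i ∈ Rg (U3 k s) (t - 1 - b i)) → ∀ j i,
          s j * a i ∈ Rg (U3 k s) (t - b i) := by
        intro a ha j i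
        have := mul_mem_Rg (mem_Rg_one (s_mem_U3 s j)) (ha i)
        rwa [show 1 + (t - 1 - b i) = t - b i by ring] at this
      have z₀ := ih (fun i => g₀ i - (s 0 * a₀₁ i + s 1 * a₀₂ i))
        (fun i => Submodule.sub_mem _ (hg₀ i)
          (Submodule.add_mem _ (hmul _ ha₀₁ 0 i) (hmul _ ha₀₂ 1 i))) (by
          simp only [sub_smul, add_smul, mul_smul, Finset.sum_sub_distrib, Finset.sum_add_distrib,
            ← Finset.smul_sum, e₀, sub_self])
      have z₁ := ih (fun i => g₁ i - (- a₀₁ i + s 1 * a₁₂ i))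
        (fun i => Submodule.sub_mem _ (hg₁ i)
          (Submodule.add_mem _ (Submodule.neg_mem _ (hup _ ha₀₁ i)) (hmul _ ha₁₂ 1 i))) (by
          simp only [sub_smul, add_smul, mul_smul, neg_smul, Finset.sum_sub_distrib,
            Finset.sum_add_distrib, Finset.sum_neg_distrib, ← Finset.smul_sum, e₁, sub_self])
      have z₂ := ih (fun i => g₂ i - (- a₀₂ i - s 0 * a₁₂ i))
        (fun i => Submodule.sub_mem _ (hg₂ i)
          (Submodule.sub_mem _ (Submodule.neg_mem _ (hup _ ha₀₂ i)) (hmul _ ha₁₂ 0 i))) (by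
          simp only [sub_smul, mul_smul, neg_smul, Finset.sum_sub_distrib,
            Finset.sum_neg_distrib, ← Finset.smul_sum, e₂, sub_self])
      intro i
      rw [hfg i]
      linear_combination z₀ i + s 0 * z₁ i + s 1 * z₂ i
  refine ⟨n, b, v, Fintype.linearIndependent_iff.mpr fun c hc i => ?_, hgen⟩
  obtain ⟨a, h, -, h0, hh⟩ := Hl.exists_denom (ctx_U3 htop) c (fun i => - b i)
  have := hZ a (fun i => h * c i) (fun i => by rw [sub_eq_add_neg]; exact hh i) (by
    simp only [mul_smul, ← Finset.smul_sum, hc, smul_zero]) i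
  exact (mul_eq_zero.mp this).resolve_left h0

omit [Infinite k] in
theorem Hl.exists_coord_denom (htop : IntermediateField.adjoin k (Set.range s) = ⊤)
    (hG : IsFG (U3 k s) G) (e : Basis (Fin N) F V) :
    ∃ a : ℤ, ∃ h ∈ Rg (U3 k s) a, h ≠ 0 ∧ ∀ i, h • e.coord i ∈ dualFam s G a := by
  obtain ⟨n, b, v, rfl⟩ := hG
  obtain ⟨a, h, hh, h0, hc⟩ := Hl.exists_denom (ctx_U3 htop)
    (fun x : Fin n × Fin N => e.coord x.2 (v x.1)) (fun x => b x.1)
  refine ⟨a, h, hh, h0, fun i t g hg => ?_⟩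
  obtain ⟨f, hf, rfl⟩ := mem_gen.mp hg
  rw [map_sum]
  refine Submodule.sum_mem _ fun j _ => ?_
  have := mul_mem_Rg (hf j) (hc (j, i))
  rw [show t - b j + (a + b j) = t + a by ring] at this
  rw [map_smul, LinearMap.smul_apply]
  exact this

theorem isFG_hull (hs : AlgebraicIndependent k s)
    (htop : IntermediateField.adjoin k (Set.range s) = ⊤) (hG : IsFG (U3 k s) G)
    (e : Basis (Fin N) F V) : IsFG (U3 k s) (hull s G) := by
  obtain ⟨a, h, -, h0, hc⟩ := Hl.exists_coord_denom htop hG e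
  refine (isFG_gen (U3 k s) (fun _ : Fin N => -a) (fun i => h⁻¹ • e i)).of_le
    (isMod_hull hG.isMod hG.isMod) fun t x hx => ?_
  refine mem_gen.mpr ⟨fun i => h * e.repr x i, fun i => ?_, ?_⟩
  · rw [sub_neg_eq_add]
    exact Hl.dual_hull hs hG.isMod (hc i) t x hx
  · simp only [smul_smul]
    conv_rhs => rw [← e.sum_repr x]
    refine Finset.sum_congr rfl fun i _ => ?_
    rw [mul_right_comm, mul_inv_cancel₀ h0, one_mul]

theorem Hl.exists_colon_bound (hs : AlgebraicIndependent k s) (hG : IsMod (U3 k s) G) {b : ℤ}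
    {w : V} (hw : w ∈ hull s G b) : ∃ C : ℤ, ∀ M : ℤ → Submodule k V, IsMod (U3 k s) M → G ≤ M →
      ∀ t, hf (Rg (U3 k s)) t - hf (colon (U3 k s) M b w) t ≤ C := by
  rw [mem_hull hG] at hw
  obtain ⟨a₁, a₂, f, hf', g, hg', hf0, hg0, hfg⟩ := exists_coprime_pair'
    (fun a => MvPolynomial.homogeneousSubmodule (Fin 3) k a ⊓
      (G (b + a)).comap ((smulMap k F w).comp (ev3 k s).toLinearMap))
    (fun a i f hf => ⟨by
      have := (MvPolynomial.isHomogeneous_X k i).mul hf.1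
      rwa [add_comm] at this, by
      have h1 : ev3 k s f • w ∈ G (b + a) := hf.2
      have h2 := hG.smul_mem (ev3_mem_Rg s (MvPolynomial.isHomogeneous_X k i)) h1
      rw [smul_smul, ← map_mul, show ((1 : ℕ) : ℤ) + (b + a) = b + ((a + 1 : ℕ) : ℤ) by
        push_cast; ring] at h2
      exact h2⟩)
    (fun q hq => by
      obtain ⟨a, f, h1, h2, h3⟩ := hw q hq
      exact ⟨a, f, ⟨h1, h3⟩, h2⟩)
  obtain ⟨C, hC⟩ := hf_quot_coprime_le hs hf'.1 hg'.1 hf0 hg0 hfg
  refine ⟨C, fun M hM hGM t => le_trans ?_ (hC t)⟩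
  have i1 := finiteDimensional_Rg (W := U3 k s) t
  have i2 : FiniteDimensional k (colon (U3 k s) M b w t) :=
    Submodule.finiteDimensional_of_le (colon_le _ _ _ _ t)
  have h1 : cyc (U3 k s) a₁ (ev3 k s f) ⊔ cyc (U3 k s) a₂ (ev3 k s g) ≤ colon (U3 k s) M b w := by
    refine sup_le (cyc_le (isMod_colon hM b w) (mem_colon.mpr ⟨ev3_mem_Rg s hf'.1, ?_⟩))
      (cyc_le (isMod_colon hM b w) (mem_colon.mpr ⟨ev3_mem_Rg s hg'.1, ?_⟩))
    · rw [add_comm]
      exact hGM _ hf'.2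
    · rw [add_comm]
      exact hGM _ hg'.2
  have := hf_mono (h1 t)
  omega

theorem hf_hull_sub_le (hs : AlgebraicIndependent k s)
    (htop : IntermediateField.adjoin k (Set.range s) = ⊤) (hG : IsFG (U3 k s) G)
    (e : Basis (Fin N) F V) : ∃ C : ℤ, ∀ t, hf (hull s G) t - hf G t ≤ C := by
  classical
  obtain ⟨n, a, g, hH⟩ := isFG_hull hs htop hG e
  have hg : ∀ j, g j ∈ hull s G (a j) := fun j => by rw [hH]; exact self_mem_gen _ a g j
  have key : ∀ S : Finset (Fin n), IsFG (U3 k s) (G ⊔ ⨆ j ∈ S, cyc (U3 k s) (a j) (g j)) ∧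
      ∃ C : ℤ, ∀ t, hf (G ⊔ ⨆ j ∈ S, cyc (U3 k s) (a j) (g j)) t - hf G t ≤ C := by
    intro S
    induction S using Finset.induction_on with
    | empty => simpa using ⟨hG, 0, le_rfl⟩
    | insert j S hj ih =>
      obtain ⟨h1, C, hC⟩ := ih
      rw [Finset.iSup_insert, sup_comm (cyc (U3 k s) (a j) (g j)), ← sup_assoc]
      refine ⟨h1.sup (isFG_cyc _ _ _), ?_⟩
      obtain ⟨C', hC'⟩ := Hl.exists_colon_bound hs hG.isMod (hg j)
      refine ⟨C + C', fun t => ?_⟩
      have h2 := hf_sup_cyc h1 (a j) (g j) t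
      have h3 := hC' _ h1.isMod le_sup_left (t - a j)
      have h4 := hC t
      omega
  obtain ⟨-, C, hC⟩ := key Finset.univ
  have h1 : G ⊔ ⨆ j ∈ (Finset.univ : Finset (Fin n)), cyc (U3 k s) (a j) (g j) = hull s G := by
    have h2 : ⨆ j ∈ (Finset.univ : Finset (Fin n)), cyc (U3 k s) (a j) (g j) = hull s G := by
      rw [hH]
      funext t
      simp [gen, iSup_apply]
    rw [h2, sup_eq_right.mpr (le_hull s G)]
  exact ⟨C, by rwa [h1] at hC⟩

/-- Evaluation of functionals at a vector, as a `k`-linear map. -/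
def Hl.evalAt (k F : Type*) {V : Type*} [Field k] [Field F] [Algebra k F] [AddCommGroup V]
    [Module F V] (v : V) : Module.Dual F V →ₗ[k] F where
  toFun φ := φ v
  map_add' _ _ := rfl
  map_smul' _ _ := rfl

theorem finiteDimensional_dualFam (hs : AlgebraicIndependent k s) (e : Basis (Fin N) F V)
    (he : ∀ i, e i ∈ G 0) (u : ℤ) : FiniteDimensional k (dualFam s G u) := by
  have i1 := finiteDimensional_Rg (W := U3 k s) (0 + u)
  let Φ : dualFam s G u →ₗ[k] (Fin N → Rg (U3 k s) (0 + u)) :=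
    LinearMap.pi fun i => ((Hl.evalAt k F (e i)).domRestrict (dualFam s G u)).codRestrict _
      fun φ => φ.2 0 (e i) (he i)
  refine FiniteDimensional.of_injective Φ fun φ ψ hφ => ?_
  refine Subtype.ext (e.ext fun i => ?_)
  exact congrArg Subtype.val (congrFun hφ i)

/-- Euler characteristic is at most `h⁰ + h²`. -/
theorem duality_ineq (hs : AlgebraicIndependent k s)
    (htop : IntermediateField.adjoin k (Set.range s) = ⊤) (hG : IsFG (U3 k s) G)
    (e : Basis (Fin N) F V) (he : ∀ i, e i ∈ G 0) {c₂ c₁ c₀ : ℚ}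
    (hP : ∀ᶠ t : ℤ in atTop, (hf G t : ℚ) = c₂ * (t : ℚ) ^ 2 + c₁ * t + c₀) (t : ℤ) :
    c₂ * (t : ℚ) ^ 2 + c₁ * t + c₀ ≤ hf (hull s G) t + hf (dualFam s G) (-t - 3) := by
  classical
  have hHfg := isFG_hull hs htop hG e
  obtain ⟨n, a, g, hH⟩ := isFG_hull hs htop hG e
  let π : (Fin n → F) →ₗ[F] V := Fintype.linearCombination F g
  have hπ : ∀ x, π x = ∑ j, x j • g j := fun x => Fintype.linearCombination_apply F g x
  set F₀ := gen (U3 k s) a (fun j => (Pi.single j 1 : Fin n → F)) with hF₀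
  have hF₀fg : IsFG (U3 k s) F₀ := isFG_gen _ _ _
  have hmemH : ∀ t y, y ∈ hull s G t ↔ ∃ x ∈ F₀ t, π x = y := by
    intro t y
    rw [hH, mem_gen]
    simp only [hF₀, Hl.mem_gen_single, hπ]
  set F₁ := F₀ ⊓ cst k (LinearMap.ker π) with hF₁
  have hmem₁ : ∀ t x, x ∈ F₁ t ↔ x ∈ F₀ t ∧ π x = 0 := fun t x => Iff.rfl
  have hF₁fg : IsFG (U3 k s) F₁ := hF₀fg.of_le (hF₀fg.isMod.inf (isMod_cst _ _)) inf_le_left
  obtain ⟨m, b, v, hli, hgen⟩ := exists_basis_of_koszul hs htop hF₁fg (by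
    intro t v₀ v₁ v₂ h₀ h₁ h₂ hrel
    rw [hmem₁, hF₀, Hl.mem_gen_single] at h₀ h₁ h₂
    choose w₀₁ h₀₁ w₀₂ h₀₂ w₁₂ h₁₂ e₀ e₁ e₂ using fun j =>
      koszul_U3 hs (t - a j) (h₀.1 j) (h₁.1 j) (h₂.1 j) (congrFun hrel j)
    have e₀' : v₀ = s 0 • w₀₁ + s 1 • w₀₂ := funext e₀
    have e₁' : v₁ = - w₀₁ + s 1 • w₁₂ := funext e₁
    have e₂' : v₂ = - w₀₂ - s 0 • w₁₂ := funext e₂
    have hF : ∀ w : Fin n → F, (∀ j, w j ∈ Rg (U3 k s) (t - a j - 1)) → w ∈ F₀ (t - 1) := by
      intro w hw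
      rw [hF₀, Hl.mem_gen_single]
      intro j
      rw [show t - 1 - a j = t - a j - 1 by ring]
      exact hw j
    have p₁ : π w₀₁ = s 1 • π w₁₂ := by
      have := h₁.2
      rw [e₁', map_add, map_neg, map_smul] at this
      exact neg_add_eq_zero.mp this
    have p₂ : π w₀₂ = - (s 0 • π w₁₂) := by
      have := h₂.2
      rw [e₂', map_sub, map_neg, map_smul, sub_eq_zero] at this
      rw [← this, neg_neg]
    have hy : π w₁₂ ∈ hull s G (t - 1 - 1) := by
      refine Hl.mem_hull_of_two hG.isMod ?_ ?_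
      · rw [sub_add_cancel]
        exact (hmemH _ _).mpr ⟨_, hF _ h₁₂, rfl⟩
      · rw [sub_add_cancel]
        refine (hmemH _ _).mpr ⟨_, Submodule.neg_mem _ (hF _ h₀₂), ?_⟩
        rw [map_neg, p₂, neg_neg]
    obtain ⟨z, hz, hzy⟩ := (hmemH _ _).mp hy
    have hz0 : z ∈ F₀ (t - 1) := hF₀fg.isMod.mono (one_mem_U3 s) (by omega) hz
    have hzs : ∀ j, s j • z ∈ F₀ (t - 1) := fun j => by
      have := hF₀fg.isMod _ _ (s_mem_U3 s j) _ hz
      rwa [sub_add_cancel] at this
    refine ⟨w₀₁ - s 1 • z, (hmem₁ _ _).mpr ⟨Submodule.sub_mem _ (hF _ h₀₁) (hzs 1), ?_⟩,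
      w₀₂ + s 0 • z, (hmem₁ _ _).mpr ⟨Submodule.add_mem _ (hF _ h₀₂) (hzs 0), ?_⟩,
      w₁₂ - z, (hmem₁ _ _).mpr ⟨Submodule.sub_mem _ (hF _ h₁₂) hz0, ?_⟩, ?_, ?_, ?_⟩
    · rw [map_sub, map_smul, hzy, p₁, sub_self]
    · rw [map_add, map_smul, hzy, p₂, neg_add_cancel]
    · rw [map_sub, hzy, sub_self]
    · rw [e₀']
      module
    · rw [e₁']
      module
    · rw [e₂']
      module)
  -- the Hilbert function of the hull
  have hHf : ∀ t, hf (hull s G) t = ∑ j, al (t - a j) - ∑ i, al (t - b i) := by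
    intro t
    have i0 := hF₀fg.finiteDimensional t
    have h1 := Hl.finrank_map_add_finrank_inf_ker (F₀ t) (π.restrictScalars k)
    have h2 : (F₀ t).map (π.restrictScalars k) = hull s G t := by
      ext y
      rw [hmemH]
      rfl
    have h3 : F₀ t ⊓ LinearMap.ker (π.restrictScalars k) = F₁ t := rfl
    have h4 := hf_gen_of_li (W := U3 k s) a (Hl.li_single F n) t
    have h5 := hf_gen_of_li (W := U3 k s) b hli t
    rw [← hgen] at h5
    rw [← hF₀] at h4
    simp only [hf_Rg_U3 hs] at h4 h5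
    rw [h2, h3] at h1
    rw [← h4, ← h5]
    simp only [hf]
    omega
  -- the dual bound
  have hdual : ∀ u, ∑ j, al (u + a j) - ∑ i, al (u + b i) ≤ hf (dualFam s G) u := by
    intro u
    have i0 := finiteDimensional_dualFam hs e he u
    let D : Module.Dual F V →ₗ[k] (Fin n → F) := LinearMap.pi fun j => Hl.evalAt k F (g j)
    have i1 := (isFG_gen (U3 k s) (fun j => - a j)
      (fun j => (Pi.single j 1 : Fin n → F))).finiteDimensional u
    have i2 := fun i => finiteDimensional_Rg (W := U3 k s) (u + b i)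
    have hv : ∀ i, v i ∈ F₁ (b i) := fun i => by rw [hgen]; exact self_mem_gen _ b v i
    have h1 := Hl.finrank_le_of_forall
      (gen (U3 k s) (fun j => - a j) (fun j => (Pi.single j 1 : Fin n → F)) u)
      ((dualFam s G u).map D)
      (fun i => (Fintype.linearCombination F (v i)).restrictScalars k) (fun _ => ⊥)
      (fun i => Rg (U3 k s) (u + b i)) (fun _ => bot_le) (fun i y hy => by
        rw [Hl.mem_gen_single] at hy
        have h2 := ((hmem₁ _ _).mp (hv i)).1
        rw [hF₀, Hl.mem_gen_single] at h2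
        rw [LinearMap.restrictScalars_apply, Fintype.linearCombination_apply]
        refine Submodule.sum_mem _ fun j _ => ?_
        have := mul_mem_Rg (hy j) (h2 j)
        rwa [show u - -a j + (b i - a j) = u + b i by ring] at this) (fun y hy hy0 => by
        rw [Hl.mem_gen_single] at hy
        have h2 : (Fintype.linearCombination F y : Module.Dual F (Fin n → F)) ∈
            (LinearMap.ker π).dualAnnihilator := by
          rw [Submodule.mem_dualAnnihilator]
          intro x hx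
          obtain ⟨c, h, -, h0, hh⟩ := Hl.exists_denom (ctx_U3 htop) x (fun j => - a j)
          have h3 : h • x ∈ F₁ c := by
            refine (hmem₁ _ _).mpr ⟨?_, by rw [map_smul, LinearMap.mem_ker.mp hx, smul_zero]⟩
            rw [hF₀, Hl.mem_gen_single]
            intro j
            rw [sub_eq_add_neg]
            exact hh j
          rw [hgen, mem_gen] at h3
          obtain ⟨f, -, hf⟩ := h3
          have h4 := congrArg (Fintype.linearCombination F y) hf
          rw [map_sum, map_smul, Finset.sum_eq_zero] at h4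
          · exact (smul_eq_zero.mp h4.symm).resolve_left h0
          · intro i _
            have h5 := hy0 i
            rw [LinearMap.restrictScalars_apply, Fintype.linearCombination_apply,
              Submodule.mem_bot] at h5
            rw [map_smul, Fintype.linearCombination_apply]
            simp only [smul_eq_mul] at h5 ⊢
            rw [Finset.sum_congr rfl fun j _ => mul_comm (v i j) (y j), h5, mul_zero]
        rw [← LinearMap.range_dualMap_eq_dualAnnihilator_ker] at h2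
        obtain ⟨φ, hφ⟩ := h2
        have hφ' : ∀ x, φ (π x) = ∑ j, x j * y j := fun x => by
          have := LinearMap.congr_fun hφ x
          rw [LinearMap.dualMap_apply, Fintype.linearCombination_apply] at this
          exact this
        refine ⟨φ, fun t x hx => ?_, funext fun j => ?_⟩
        · obtain ⟨f, hf, rfl⟩ := (hmemH _ _).mp (le_hull s G t hx)
          rw [hF₀, Hl.mem_gen_single] at hf
          rw [hφ']
          refine Submodule.sum_mem _ fun j _ => ?_
          have := mul_mem_Rg (hf j) (hy j)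
          rwa [show t - a j + (u - -a j) = t + u by ring] at this
        · have := hφ' (Pi.single j 1)
          rw [hπ] at this
          change φ (g j) = y j
          simpa [Pi.single_apply] using this)
    have h2 := Submodule.finrank_map_le D (dualFam s G u)
    have h3 := hf_gen_of_li (W := U3 k s) (fun j => - a j) (Hl.li_single F n) u
    have h4 := fun i => hf_Rg_U3 hs (u + b i)
    simp only [hf_Rg_U3 hs, sub_neg_eq_add] at h3
    simp only [hf] at h3 h4 ⊢
    simp only [finrank_bot, Nat.cast_zero, sub_zero, h4, h3] at h1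
    omega
  -- comparison of polynomials
  obtain ⟨d₂, d₁, d₀, hd⟩ := Hl.exists_quad a
  obtain ⟨d₂', d₁', d₀', hd'⟩ := Hl.exists_quad b
  have hpol : ∀ t : ℤ, (hf (hull s G) t : ℚ) +
      ((∑ j, al (-t - 3 + a j) - ∑ i, al (-t - 3 + b i) : ℤ) : ℚ) =
      (d₂ - d₂') * (t : ℚ) ^ 2 + (d₁ - d₁') * t + (d₀ - d₀') := by
    intro t
    have h1 := Hl.sum_al_add a t
    have h2 := Hl.sum_al_add b t
    rw [hd] at h1
    rw [hd'] at h2
    rw [hHf, Int.cast_sub, Int.cast_sub]
    linarith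
  have hev : ∀ᶠ t : ℤ in atTop, (hf (hull s G) t : ℚ) =
      (d₂ - d₂') * (t : ℚ) ^ 2 + (d₁ - d₁') * t + (d₀ - d₀') := by
    filter_upwards [Hl.eventually_sum_al_eq_zero a, Hl.eventually_sum_al_eq_zero b] with t h1 h2
    rw [← hpol, h1, h2]
    simp
  obtain ⟨C, hC⟩ := hf_hull_sub_le hs htop hG e
  obtain ⟨l₂, l₂'⟩ := quad_le_of_eventually' (a₂ := c₂) (a₁ := c₁) (a₀ := c₀) (b₂ := d₂ - d₂')
    (b₁ := d₁ - d₁') (b₀ := d₀ - d₀') (by
      filter_upwards [hP, hev] with t h1 h2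
      rw [← h1, ← h2]
      have := hHfg.finiteDimensional t
      exact_mod_cast hf_mono (le_hull s G t))
  obtain ⟨r₂, r₂'⟩ := quad_le_of_eventually' (b₂ := c₂) (b₁ := c₁) (b₀ := c₀ + C) (a₂ := d₂ - d₂')
    (a₁ := d₁ - d₁') (a₀ := d₀ - d₀') (by
      filter_upwards [hP, hev] with t h1 h2
      rw [← add_assoc, ← h1, ← h2]
      have := hC t
      exact_mod_cast (by omega : hf (hull s G) t ≤ hf G t + C))
  have e₂ := le_antisymm l₂ r₂
  obtain ⟨l₁, l₁'⟩ := l₂' e₂
  obtain ⟨r₁, -⟩ := r₂' e₂.symm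
  have e₁ := le_antisymm l₁ r₁
  have l₀ := l₁' e₁
  have h1 := hpol t
  have h2 : ((∑ j, al (-t - 3 + a j) - ∑ i, al (-t - 3 + b i) : ℤ) : ℚ) ≤
      hf (dualFam s G) (-t - 3) := by exact_mod_cast hdual (-t - 3)
  rw [e₂, e₁]
  linarith

/-- The dual grows at most linearly from one degree to the next. -/
theorem hf_dualFam_succ_le (hs : AlgebraicIndependent k s)
    (htop : IntermediateField.adjoin k (Set.range s) = ⊤) (hG : IsFG (U3 k s) G)
    (e : Basis (Fin N) F V) (he : ∀ i, e i ∈ G 0) (u : ℤ) :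
    hf (dualFam s G) (u + 1) ≤ hf (dualFam s G) u + N * max (u + 2) 0 := by
  obtain ⟨a, h, hh, h0, hc⟩ := Hl.exists_coord_denom htop hG e
  obtain ⟨a, D, rfl, hD, rfl⟩ := exists_homog_of_mem_Rg hh h0
  have hD0 : D ≠ 0 := fun h => h0 (by rw [h, map_zero])
  obtain ⟨l, hl, hlp, hlD⟩ := exists_linear_not_dvd hD0
  have hl0 := ev3_ne_zero hs hl hlp.ne_zero
  have i0 := finiteDimensional_dualFam hs e he u
  have i1 := finiteDimensional_dualFam hs e he (u + 1)
  have i2 := finiteDimensional_Rg (W := U3 k s) (u + 1)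
  let μ : Module.Dual F V →ₗ[k] Module.Dual F V :=
    { toFun := fun φ => ev3 k s l • φ
      map_add' := fun _ _ => smul_add _ _ _
      map_smul' := fun r φ => smul_comm _ r φ }
  have h1 := Hl.finrank_le_of_forall (dualFam s G (u + 1)) ((dualFam s G u).map μ)
    (fun i => Hl.evalAt k F (e i)) (fun _ => cyc (U3 k s) 1 (ev3 k s l) (u + 1))
    (fun _ => Rg (U3 k s) (u + 1))
    (fun _ => cyc_le (isMod_Rg _) (ev3_mem_Rg s hl) (u + 1))
    (fun i φ hφ => by
      have := hφ 0 (e i) (he i)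
      rwa [zero_add] at this)
    (fun φ hφ hφ0 => by
      refine ⟨(ev3 k s l)⁻¹ • φ, fun t x hx => ?_, ?_⟩
      · refine mem_Rg_U3_of_forall_prime hs _ _ fun q hq => ?_
        by_cases hql : q ∣ l
        · refine ⟨a, D, hD, fun hqD => hlD
            (((hq.dvd_prime_iff_associated hlp).mp hql).symm.dvd.trans hqD), ?_⟩
          have h2 : ev3 k s D * ((ev3 k s l)⁻¹ • φ) x =
              ∑ i, (ev3 k s D • e.coord i) x * ((ev3 k s l)⁻¹ * φ (e i)) := by
            conv_lhs => rw [← e.sum_repr x]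
            rw [map_sum, Finset.mul_sum]
            refine Finset.sum_congr rfl fun i _ => ?_
            simp only [map_smul, LinearMap.smul_apply, smul_eq_mul, Basis.coord_apply]
            ring
          rw [h2]
          refine Submodule.sum_mem _ fun i _ => ?_
          obtain ⟨y, hy, hy'⟩ := mem_cyc.mp (hφ0 i)
          have h3 : (ev3 k s l)⁻¹ * φ (e i) = y := by
            rw [inv_mul_eq_iff_eq_mul₀ hl0, mul_comm]
            exact hy'.symm
          have := mul_mem_Rg (hc i t x hx) hy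
          rwa [show t + a + (u + 1 - 1) = t + u + a by ring, ← h3] at this
        · refine ⟨1, l, hl, hql, ?_⟩
          rw [LinearMap.smul_apply, smul_eq_mul, mul_inv_cancel_left₀ hl0, add_assoc]
          exact hφ t x hx
      · exact smul_inv_smul₀ hl0 φ)
  have h2 := Submodule.finrank_map_le μ (dualFam s G u)
  have h3 := hf_cyc_of_ne (W := U3 k s) 1 hl0 (u + 1)
  have h4 := hf_Rg_U3 hs (u + 1)
  rw [hf_Rg_U3 hs, add_sub_cancel_right] at h3
  simp only [hf] at h3 h4 ⊢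
  simp only [h3, h4, al_succ_sub, Finset.sum_const, Finset.card_univ, Fintype.card_fin,
    nsmul_eq_mul] at h1
  omega

end Free

end Pool.Agent.Lib.MP_cf0da3_ag
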