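import Pool.Agent.Lib.MP_cf0da3_ag.Defs

/-! Relative lengths of lattices and determinants. -/

namespace Pool.Agent.Lib.MP_cf0da3_ag

open Module

section

variable {O V V' : Type*} [Ring O] [AddCommGroup V] [Module O V] [AddCommGroup V'] [Module O V']

theorem relLen_self (A : Submodule O V) : relLen A A = 0 := by
  rw [relLen, Submodule.mkQ_map_self]
  exact Module.length_bot

theorem relLen_add {A B C : Submodule O V} (hAB : A ≤ B) (hBC : B ≤ C) :
    relLen A C = relLen A B + relLen B C := by
  let f : B.map A.mkQ →ₗ[O] C.map A.mkQ := Submodule.inclusion (Submodule.map_mono hBC)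
  let g : C.map A.mkQ →ₗ[O] C.map B.mkQ := (Submodule.factor hAB).restrict (by
    rintro _ ⟨x, hx, rfl⟩
    exact ⟨x, hx, rfl⟩)
  refine Module.length_eq_add_of_exact f g (Submodule.inclusion_injective _) ?_ ?_
  · rintro ⟨_, x, hx, rfl⟩
    exact ⟨⟨_, x, hx, rfl⟩, rfl⟩
  · rintro ⟨_, x, hx, rfl⟩
    constructor
    · intro h
      have h1 : B.mkQ x = 0 := congrArg Subtype.val h
      have h2 : x ∈ B := (Submodule.Quotient.mk_eq_zero B).1 h1
      exact ⟨⟨_, x, h2, rfl⟩, rfl⟩
    · rintro ⟨⟨_, y, hy, rfl⟩, h⟩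
      rw [← h]
      exact Subtype.ext ((Submodule.Quotient.mk_eq_zero B).2 hy)

theorem relLen_map (e : V ≃ₗ[O] V') (A B : Submodule O V) :
    relLen (A.map (e : V →ₗ[O] V')) (B.map (e : V →ₗ[O] V')) = relLen A B := by
  let Q : (V ⧸ A) ≃ₗ[O] (V' ⧸ A.map (e : V →ₗ[O] V')) := Submodule.Quotient.equiv A _ e rfl
  have h : (B.map (e : V →ₗ[O] V')).map (A.map (e : V →ₗ[O] V')).mkQ =
      (B.map A.mkQ).map (Q : (V ⧸ A) →ₗ[O] (V' ⧸ A.map (e : V →ₗ[O] V'))) := by
    rw [← Submodule.map_comp, ← Submodule.map_comp]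
    rfl
  rw [relLen, relLen, h]
  exact (Q.submoduleMap (B.map A.mkQ)).length_eq.symm

/-- `(A + O w) / A` is `O / (A : w)`. -/
theorem relLen_sup_span (A : Submodule O V) (w : V) :
    relLen A (A ⊔ Submodule.span O {w}) =
      Module.length O (O ⧸ A.comap (LinearMap.toSpanSingleton O V w)) := by
  have h1 : (A ⊔ Submodule.span O {w}).map A.mkQ =
      LinearMap.range (A.mkQ ∘ₗ LinearMap.toSpanSingleton O V w) := by
    rw [Submodule.map_sup, Submodule.mkQ_map_self, bot_sup_eq, LinearMap.range_comp,
      ← LinearMap.span_singleton_eq_range]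
  have h2 : A.comap (LinearMap.toSpanSingleton O V w) =
      LinearMap.ker (A.mkQ ∘ₗ LinearMap.toSpanSingleton O V w) := by
    rw [LinearMap.ker_comp, Submodule.ker_mkQ]
  rw [relLen, h1, h2]
  exact (LinearMap.quotKerEquivRange _).length_eq.symm

theorem relLen_mono_right (A : Submodule O V) {B C : Submodule O V} (h : B ≤ C) :
    relLen A B ≤ relLen A C :=
  Module.length_le_of_injective (Submodule.inclusion (Submodule.map_mono h))
    (Submodule.inclusion_injective _)

theorem relLen_inf_le (A B : Submodule O V) : relLen (A ⊓ B) B ≤ relLen A B := by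
  let g : B.map (A ⊓ B).mkQ →ₗ[O] B.map A.mkQ :=
    (Submodule.factor (inf_le_left : A ⊓ B ≤ A)).restrict (by
      rintro _ ⟨x, hx, rfl⟩
      exact ⟨x, hx, rfl⟩)
  refine Module.length_le_of_injective g ?_
  rw [injective_iff_map_eq_zero]
  rintro ⟨_, x, hx, rfl⟩ h
  have h1 : A.mkQ x = 0 := congrArg Subtype.val h
  have h2 : x ∈ A := (Submodule.Quotient.mk_eq_zero A).1 h1
  exact Subtype.ext ((Submodule.Quotient.mk_eq_zero (A ⊓ B)).2 ⟨h2, hx⟩)

/-- `A` and `B` are commensurable with index `n`. -/
def LenRel (A B : Submodule O V) (n : ℤ) : Prop :=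
  ∃ C, C ≤ A ∧ C ≤ B ∧ ∃ a b : ℕ, relLen C A = a ∧ relLen C B = b ∧ n = a - b

theorem LenRel.refl (A : Submodule O V) : LenRel A A 0 :=
  ⟨A, le_rfl, le_rfl, 0, 0, relLen_self A, relLen_self A, by simp⟩

theorem LenRel.symm {A B : Submodule O V} {n : ℤ} (h : LenRel A B n) : LenRel B A (-n) := by
  obtain ⟨C, h1, h2, a, b, ha, hb, rfl⟩ := h
  exact ⟨C, h2, h1, b, a, hb, ha, by ring⟩

theorem LenRel.trans {A B C : Submodule O V} {n m : ℤ} (h : LenRel A B n) (h' : LenRel B C m) :
    LenRel A C (n + m) := by
  obtain ⟨C₁, h1, h2, a, b, ha, hb, rfl⟩ := h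
  obtain ⟨C₂, h3, h4, b', c, hb', hc, rfl⟩ := h'
  have f1 : relLen (C₁ ⊓ C₂) C₁ ≠ ⊤ := by
    rw [inf_comm]
    refine ne_top_of_le_ne_top ?_ ((relLen_inf_le C₂ C₁).trans (relLen_mono_right C₂ h2))
    rw [hb']; exact ENat.natCast_ne_top _
  have f2 : relLen (C₁ ⊓ C₂) C₂ ≠ ⊤ := by
    refine ne_top_of_le_ne_top ?_ ((relLen_inf_le C₁ C₂).trans (relLen_mono_right C₁ h3))
    rw [hb]; exact ENat.natCast_ne_top _
  obtain ⟨x₁, hx₁⟩ := ENat.ne_top_iff_exists.1 f1
  obtain ⟨x₂, hx₂⟩ := ENat.ne_top_iff_exists.1 f2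
  have e1 := relLen_add (inf_le_left : C₁ ⊓ C₂ ≤ C₁) h2
  have e2 := relLen_add (inf_le_right : C₁ ⊓ C₂ ≤ C₂) h3
  rw [e1, ← hx₁, ← hx₂, hb, hb'] at e2
  have e3 : x₁ + b = x₂ + b' := by exact_mod_cast e2
  refine ⟨C₁ ⊓ C₂, inf_le_left.trans h1, inf_le_right.trans h4, x₁ + a, x₂ + c, ?_, ?_, ?_⟩
  · rw [relLen_add inf_le_left h1, ← hx₁, ha, Nat.cast_add]
  · rw [relLen_add inf_le_right h4, ← hx₂, hc, Nat.cast_add]
  · push_cast
    omega

theorem LenRel.map (e : V ≃ₗ[O] V') {A B : Submodule O V} {n : ℤ} (h : LenRel A B n) :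
    LenRel (A.map (e : V →ₗ[O] V')) (B.map (e : V →ₗ[O] V')) n := by
  obtain ⟨C, h1, h2, a, b, ha, hb, rfl⟩ := h
  exact ⟨C.map (e : V →ₗ[O] V'), Submodule.map_mono h1, Submodule.map_mono h2, a, b,
    by rw [relLen_map, ha], by rw [relLen_map, hb], rfl⟩

theorem LenRel.exists_inf {A B : Submodule O V} {n : ℤ} (h : LenRel A B n) :
    ∃ a b : ℕ, relLen (A ⊓ B) A = a ∧ relLen (A ⊓ B) B = b ∧ n = a - b := by
  obtain ⟨C, h1, h2, a, b, ha, hb, rfl⟩ := h
  have e1 := relLen_add (le_inf h1 h2) (inf_le_left : A ⊓ B ≤ A)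
  have e2 := relLen_add (le_inf h1 h2) (inf_le_right : A ⊓ B ≤ B)
  rw [ha] at e1
  rw [hb] at e2
  have f0 : relLen C (A ⊓ B) ≠ ⊤ := fun h => by simp [h] at e1
  have f1 : relLen (A ⊓ B) A ≠ ⊤ := fun h => by simp [h] at e1
  have f2 : relLen (A ⊓ B) B ≠ ⊤ := fun h => by simp [h] at e2
  obtain ⟨x, hx⟩ := ENat.ne_top_iff_exists.1 f0
  obtain ⟨y, hy⟩ := ENat.ne_top_iff_exists.1 f1
  obtain ⟨z, hz⟩ := ENat.ne_top_iff_exists.1 f2
  rw [← hx, ← hy] at e1
  rw [← hx, ← hz] at e2
  have e1' : a = x + y := by exact_mod_cast e1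
  have e2' : b = x + z := by exact_mod_cast e2
  exact ⟨y, z, hy.symm, hz.symm, by omega⟩

end

section Det

variable {K : Type*} [Field K] (O : Subring K) {V : Type*} [AddCommGroup V] [Module K V]
  {ι : Type*} [Fintype ι] [DecidableEq ι]

/-- The lattice spanned by `v` and the determinant of `v` have the same index. -/
def DetRel (e : Basis ι K V) (v : ι → V) : Prop :=
  e.det v ≠ 0 ∧ ∃ n : ℤ,
    LenRel (Submodule.span O (Set.range v)) (Submodule.span O (Set.range e)) n ∧
    LenRel (Submodule.span O {e.det v}) (Submodule.span O {(1 : K)}) n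

variable {O}

theorem span_le_span_one {a : K} (ha : a ∈ O) :
    Submodule.span O {a} ≤ Submodule.span O {(1 : K)} := by
  rw [Submodule.span_singleton_le_iff_mem, Submodule.mem_span_singleton]
  exact ⟨⟨a, ha⟩, by simp [Subring.smul_def]⟩

theorem lenRel_mul {a b : K} {n : ℤ}
    (h : LenRel (Submodule.span O {a}) (Submodule.span O {b}) n) {c : K} (hc : c ≠ 0) :
    LenRel (Submodule.span O {a * c}) (Submodule.span O {b * c}) n := by
  have := h.map ((LinearEquiv.smulOfNeZero K K c hc).restrictScalars O)
  rw [Submodule.map_span, Submodule.map_span, Set.image_singleton, Set.image_singleton] at this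
  rw [mul_comm a, mul_comm b]
  exact this

theorem lenRel_update (e : Basis ι K V) {v : ι → V} (hv : e.det v ≠ 0) (j : ι) {a : K}
    (ha : a ∈ O) {m : ℕ} (hm : relLen (Submodule.span O {a}) (Submodule.span O {(1 : K)}) = m) :
    LenRel (Submodule.span O (Set.range (Function.update v j (a • v j))))
      (Submodule.span O (Set.range v)) (-m) := by
  obtain ⟨hli, hsp⟩ := (e.is_basis_iff_det).2 (isUnit_iff_ne_zero.2 hv)
  let b : Basis ι K V := Basis.mk hli hsp.ge
  have hb : ∀ i, b i = v i := fun i => Basis.mk_apply _ _ _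
  set A := Submodule.span O (Set.range (Function.update v j (a • v j))) with hA
  have hvj : a • v j ∈ A := Submodule.subset_span ⟨j, by simp⟩
  have hsup : Submodule.span O (Set.range v) = A ⊔ Submodule.span O {v j} := by
    apply le_antisymm
    · rw [Submodule.span_le]
      rintro _ ⟨i, rfl⟩
      by_cases hij : i = j
      · rw [hij]
        exact Submodule.mem_sup_right (Submodule.mem_span_singleton_self _)
      · exact Submodule.mem_sup_left (Submodule.subset_span ⟨i, by simp [hij]⟩)
    · refine sup_le ?_ ?_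
      · rw [hA, Submodule.span_le]
        rintro _ ⟨i, rfl⟩
        by_cases hij : i = j
        · rw [hij, Function.update_self]
          exact Submodule.smul_mem _ (⟨a, ha⟩ : O) (Submodule.subset_span ⟨j, rfl⟩)
        · rw [Function.update_of_ne hij]
          exact Submodule.subset_span ⟨i, rfl⟩
      · rw [Submodule.span_singleton_le_iff_mem]
        exact Submodule.subset_span ⟨j, rfl⟩
  have hcomap : A.comap (LinearMap.toSpanSingleton O V (v j)) =
      (Submodule.span O {a}).comap (LinearMap.toSpanSingleton O K 1) := by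
    ext x
    simp only [Submodule.mem_comap, LinearMap.toSpanSingleton_apply]
    constructor
    · intro hx
      have hle : A ≤ (Submodule.span O {a}).comap ((b.coord j).restrictScalars O) := by
        rw [hA, Submodule.span_le]
        rintro _ ⟨i, rfl⟩
        change b.coord j _ ∈ Submodule.span O {a}
        by_cases hij : i = j
        · rw [hij, Function.update_self, ← hb, map_smul]
          simp
        · rw [Function.update_of_ne hij, ← hb]
          simp [hij]
      have h1 : b.coord j ((x : K) • v j) ∈ Submodule.span O {a} := hle hx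
      rw [← hb, map_smul] at h1
      simpa [Subring.smul_def] using h1
    · intro hx
      obtain ⟨y, hy⟩ := Submodule.mem_span_singleton.1 hx
      have h1 : (x : K) = y * a := by simpa [Subring.smul_def] using hy.symm
      have h2 : x • v j = y • a • v j := by
        rw [Subring.smul_def, Subring.smul_def, h1, mul_smul]
      rw [h2]
      exact A.smul_mem y hvj
  have hlen : relLen A (Submodule.span O (Set.range v)) = m := by
    rw [hsup, relLen_sup_span, hcomap, ← relLen_sup_span, sup_eq_right.2 (span_le_span_one ha), hm]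
  exact ⟨A, le_rfl, hsup ▸ le_sup_left, 0, m, relLen_self A, hlen, by simp⟩

theorem detRel_update_iff (hfin : ∀ a ∈ O, a ≠ 0 →
      relLen (Submodule.span O {a}) (Submodule.span O {(1 : K)}) ≠ ⊤)
    (e : Basis ι K V) {v : ι → V} (j : ι) {a : K} (ha : a ∈ O) (ha0 : a ≠ 0) :
    DetRel O e (Function.update v j (a • v j)) ↔ DetRel O e v := by
  have hdet : e.det (Function.update v j (a • v j)) = a * e.det v := by
    rw [AlternatingMap.map_update_smul, Function.update_eq_self, smul_eq_mul]
  obtain ⟨m, hm⟩ := ENat.ne_top_iff_exists.1 (hfin a ha ha0)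
  have h0 : LenRel (Submodule.span O {a}) (Submodule.span O {(1 : K)}) (-m) :=
    ⟨_, le_rfl, span_le_span_one ha, 0, m, relLen_self _, hm.symm, by simp⟩
  constructor
  · rintro ⟨h1, n, h2, h3⟩
    rw [hdet] at h1 h3
    have hv : e.det v ≠ 0 := right_ne_zero_of_mul h1
    have h4 := lenRel_mul h0 hv
    rw [one_mul] at h4
    exact ⟨hv, _, (lenRel_update e hv j ha hm.symm).symm.trans h2, h4.symm.trans h3⟩
  · rintro ⟨hv, n, h2, h3⟩
    have h4 := lenRel_mul h0 hv
    rw [one_mul] at h4
    rw [DetRel, hdet]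
    exact ⟨mul_ne_zero ha0 hv, _, (lenRel_update e hv j ha hm.symm).trans h2, h4.trans h3⟩

theorem DetRel.update_add (e : Basis ι K V) {v : ι → V} {i j : ι} (hij : i ≠ j) {a : K}
    (ha : a ∈ O) (h : DetRel O e v) : DetRel O e (Function.update v j (v j + a • v i)) := by
  have hdet : e.det (Function.update v j (v j + a • v i)) = e.det v := by
    rw [AlternatingMap.map_update_add, AlternatingMap.map_update_smul, Function.update_eq_self,
      AlternatingMap.map_update_self _ _ hij.symm, smul_zero, add_zero]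
  have hspan : Submodule.span O (Set.range (Function.update v j (v j + a • v i))) =
      Submodule.span O (Set.range v) := by
    apply le_antisymm
    · rw [Submodule.span_le]
      rintro _ ⟨l, rfl⟩
      by_cases hl : l = j
      · rw [hl, Function.update_self]
        exact add_mem (Submodule.subset_span ⟨j, rfl⟩)
          (Submodule.smul_mem _ (⟨a, ha⟩ : O) (Submodule.subset_span ⟨i, rfl⟩))
      · rw [Function.update_of_ne hl]
        exact Submodule.subset_span ⟨l, rfl⟩
    · rw [Submodule.span_le]
      rintro _ ⟨l, rfl⟩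
      by_cases hl : l = j
      · have h1 : v j + a • v i ∈
            Submodule.span O (Set.range (Function.update v j (v j + a • v i))) :=
          Submodule.subset_span ⟨j, by simp⟩
        have h2 : v i ∈ Submodule.span O (Set.range (Function.update v j (v j + a • v i))) :=
          Submodule.subset_span ⟨i, by simp [hij]⟩
        have h3 := sub_mem h1 (Submodule.smul_mem _ (⟨a, ha⟩ : O) h2)
        rw [hl]
        simpa [Subring.smul_def] using h3
      · exact Submodule.subset_span ⟨l, by simp [hl]⟩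
  rw [DetRel, hdet, hspan]
  exact h

variable (hfrac : ∀ x : K, ∃ a ∈ O, a ≠ 0 ∧ a * x ∈ O)
    (hfin : ∀ a ∈ O, a ≠ 0 →
      relLen (Submodule.span O {a}) (Submodule.span O {(1 : K)}) ≠ ⊤)

include hfrac hfin

theorem DetRel.update_smul (e : Basis ι K V) {v : ι → V} (j : ι) {c : K} (hc : c ≠ 0)
    (h : DetRel O e v) : DetRel O e (Function.update v j (c • v j)) := by
  obtain ⟨a, ha, ha0, hac⟩ := hfrac c
  rw [← detRel_update_iff hfin e j ha ha0, Function.update_idem, Function.update_self, smul_smul]
  exact (detRel_update_iff hfin e j hac (mul_ne_zero ha0 hc)).2 h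

theorem DetRel.update_add_smul (e : Basis ι K V) {v : ι → V} {i j : ι} (hij : i ≠ j) (c : K)
    (h : DetRel O e v) : DetRel O e (Function.update v j (v j + c • v i)) := by
  obtain ⟨a, ha, ha0, hac⟩ := hfrac c
  rw [← detRel_update_iff hfin e j ha ha0, Function.update_idem, Function.update_self, smul_add,
    smul_smul]
  have := DetRel.update_add e hij hac ((detRel_update_iff hfin e j ha ha0).2 h)
  rwa [Function.update_idem, Function.update_self, Function.update_of_ne hij] at this

theorem DetRel.smul (e : Basis ι K V) {v : ι → V} {D : ι → K} (hD : ∀ j, D j ≠ 0)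
    (h : DetRel O e v) : DetRel O e fun j => D j • v j := by
  have key : ∀ s : Finset ι, DetRel O e fun j => if j ∈ s then D j • v j else v j := by
    intro s
    induction s using Finset.induction_on with
    | empty => simpa using h
    | insert i s hi ih =>
      have h1 := DetRel.update_smul hfrac hfin e i (hD i) ih
      have h2 : (fun j => if j ∈ insert i s then D j • v j else v j) =
          Function.update (fun j => if j ∈ s then D j • v j else v j) i
            (D i • if i ∈ s then D i • v i else v i) := by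
        funext j
        by_cases hj : j = i
        · rw [hj]; simp [hi]
        · simp [hj]
      rw [h2]
      exact h1
  simpa using key Finset.univ

theorem DetRel.matrix (e : Basis ι K V) (M : Matrix ι ι K) (hM : M.det ≠ 0) :
    ∀ v : ι → V, DetRel O e v → DetRel O e fun j => ∑ i, M i j • v i := by
  refine Matrix.diagonal_transvection_induction_of_det_ne_zero
    (fun M => ∀ v : ι → V, DetRel O e v → DetRel O e fun j => ∑ i, M i j • v i) M hM ?_ ?_ ?_
  · intro D hD v hv
    rw [Matrix.det_diagonal, Finset.prod_ne_zero_iff] at hD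
    have h1 := DetRel.smul hfrac hfin e (fun j => hD j (Finset.mem_univ j)) hv
    have h2 : (fun j => ∑ i, Matrix.diagonal D i j • v i) = fun j => D j • v j := by
      funext j
      rw [Finset.sum_eq_single j]
      · simp
      · intro i _ hi
        simp [hi]
      · simp
    rw [h2]
    exact h1
  · rintro ⟨i, j, hij, c⟩ v hv
    have h1 := DetRel.update_add_smul hfrac hfin e hij c hv
    have h2 : (fun l => ∑ k, (Matrix.TransvectionStruct.mk i j hij c).toMatrix k l • v k) =
        Function.update v j (v j + c • v i) := by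
      funext l
      simp only [Matrix.TransvectionStruct.toMatrix_mk, Matrix.transvection, Matrix.add_apply,
        add_smul, Finset.sum_add_distrib, Matrix.one_apply, Matrix.single_apply]
      by_cases hl : l = j
      · rw [hl]; simp
      · simp [hl, Ne.symm hl]
    rw [h2]
    exact h1
  · intro A B _ _ hA hB v hv
    have h1 := hB _ (hA v hv)
    have h2 : (fun j => ∑ i, (A * B) i j • v i) = fun j => ∑ i, B i j • ∑ l, A l i • v l := by
      funext j
      simp only [Matrix.mul_apply, Finset.sum_smul, Finset.smul_sum, smul_smul]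
      rw [Finset.sum_comm]
      simp only [mul_comm]
    rw [h2]
    exact h1

end Det

/-- The index of two lattices over a one dimensional domain is the order of the determinant. -/
theorem relLen_det {K : Type*} [Field K] (O : Subring K)
    (hfrac : ∀ x : K, ∃ a ∈ O, a ≠ 0 ∧ a * x ∈ O)
    (hfin : ∀ a ∈ O, a ≠ 0 →
      relLen (Submodule.span O {a}) (Submodule.span O {(1 : K)}) ≠ ⊤)
    {V : Type*} [AddCommGroup V] [Module K V] {ι : Type*} [Fintype ι] [DecidableEq ι]
    (e : Basis ι K V) (e' : ι → V) (hdet : e.det e' ≠ 0) :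
    relLen (Submodule.span O (Set.range e) ⊓ Submodule.span O (Set.range e'))
        (Submodule.span O (Set.range e')) +
      relLen (Submodule.span O {(1 : K)} ⊓ Submodule.span O {e.det e'})
        (Submodule.span O {(1 : K)}) =
    relLen (Submodule.span O (Set.range e) ⊓ Submodule.span O (Set.range e'))
        (Submodule.span O (Set.range e)) +
      relLen (Submodule.span O {(1 : K)} ⊓ Submodule.span O {e.det e'})
        (Submodule.span O {e.det e'}) := by
  have h0 : DetRel O e e := by
    rw [DetRel, e.det_self]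
    exact ⟨one_ne_zero, 0, LenRel.refl _, LenRel.refl _⟩
  have h1 := DetRel.matrix hfrac hfin e (e.toMatrix e') (by rwa [← Basis.det_apply]) e h0
  have h2 : (fun j => ∑ i, e.toMatrix e' i j • e i) = e' :=
    funext fun j => e.sum_toMatrix_smul_self e' j
  rw [h2] at h1
  obtain ⟨-, n, h3, h4⟩ := h1
  obtain ⟨a, b, ha, hb, hn⟩ := h3.exists_inf
  obtain ⟨a', b', ha', hb', hn'⟩ := h4.exists_inf
  rw [inf_comm] at ha hb ha' hb'
  rw [ha, hb, ha', hb']
  have : a + b' = b + a' := by omega
  exact_mod_cast this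

end Pool.Agent.Lib.MP_cf0da3_ag
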