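import Pool.Agent.Lib.MP_cf0da3_ag.Primes

/-! Tensor products with a locally free module. -/

namespace Pool.Agent.Lib.MP_cf0da3_ag

open Module Filter TensorProduct

variable {k K : Type*} [Field k] [Field K] [Algebra k K] {W : Submodule k K}
  {V : Type*} [AddCommGroup V] [Module K V] [Module k V] [IsScalarTower k K V]
  {V' : Type*} [AddCommGroup V'] [Module K V'] [Module k V'] [IsScalarTower k K V']
  {L N : ℤ → Submodule k V} {M M' : ℤ → Submodule k V'} {q : ℤ → Submodule k K}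

omit [IsScalarTower k K V'] in
theorem tmul_mem_tens {i j : ℤ} {v : V} {m : V'} (hv : v ∈ L i) (hm : m ∈ M j) :
    v ⊗ₜ[K] m ∈ tens K L M (i + j) :=
  Submodule.subset_span ⟨i, j, rfl, v, hv, m, hm, rfl⟩

omit [IsScalarTower k K V'] in
theorem tmul_mem_tens' {i j t : ℤ} {v : V} {m : V'} (hv : v ∈ L i) (hm : m ∈ M j)
    (h : i + j = t) : v ⊗ₜ[K] m ∈ tens K L M t :=
  h ▸ tmul_mem_tens hv hm

omit [IsScalarTower k K V'] in
theorem smul_mem_idealSmul {i j t : ℤ} {f : K} {m : V'} (hf : f ∈ q i) (hm : m ∈ M j)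
    (h : i + j = t) : f • m ∈ idealSmul q M t :=
  Submodule.subset_span ⟨i, j, h, f, hf, m, hm, rfl⟩

theorem IsMod.smul_mem' (hL : IsMod W L) {a t s : ℤ} {f : K} {v : V} (hf : f ∈ Rg W a)
    (hv : v ∈ L t) (h : a + t = s) : f • v ∈ L s :=
  h ▸ hL.smul_mem hf hv

theorem mul_mem_Rg' {a b s : ℤ} {f g : K} (hf : f ∈ Rg W a) (hg : g ∈ Rg W b) (h : a + b = s) :
    f * g ∈ Rg W s :=
  h ▸ mul_mem_Rg hf hg

theorem smul_mem_of_mem_span {S : Set V} {P : Submodule k V} {f : K} (h : ∀ x ∈ S, f • x ∈ P)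
    {x : V} (hx : x ∈ Submodule.span k S) : f • x ∈ P := by
  induction hx using Submodule.span_induction with
  | mem x hx => exact h x hx
  | zero => simp
  | add x y _ _ hx hy => rw [smul_add]; exact P.add_mem hx hy
  | smul c x _ hx => rw [smul_comm]; exact P.smul_mem c hx

omit [IsScalarTower k K V'] in
theorem tens_mono (h : N ≤ L) (h' : M' ≤ M) : tens K N M' ≤ tens K L M := by
  intro t
  refine Submodule.span_mono ?_
  rintro x ⟨i, j, hij, v, hv, m, hm, rfl⟩
  exact ⟨i, j, hij, v, h i hv, m, h' j hm, rfl⟩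

omit [IsScalarTower k K V'] in
theorem isMod_tens (hL : IsMod W L) (M : ℤ → Submodule k V') : IsMod W (tens K L M) := by
  intro t w hw x hx
  refine smul_mem_of_mem_span ?_ hx
  rintro x ⟨i, j, hij, v, hv, m, hm, rfl⟩
  rw [smul_tmul']
  exact tmul_mem_tens' (hL i w hw v hv) hm (by omega)

omit [IsScalarTower k K V'] in
/-- Multiplying the second factor. -/
theorem smul_mem_tens_right {h : K} {e : ℤ} (hh : ∀ t, ∀ v ∈ M t, h • v ∈ M' (t + e)) {t : ℤ}
    {x : V ⊗[K] V'} (hx : x ∈ tens K L M t) : h • x ∈ tens K L M' (t + e) := by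
  refine smul_mem_of_mem_span ?_ hx
  rintro x ⟨i, j, hij, v, hv, m, hm, rfl⟩
  rw [← tmul_smul]
  exact tmul_mem_tens' hv (hh j m hm) (by omega)

omit [IsScalarTower k K V'] in
/-- Multiplying the first factor. -/
theorem smul_mem_tens_left {h : K} {e : ℤ} (hh : ∀ t, ∀ v ∈ L t, h • v ∈ N (t + e)) {t : ℤ}
    {x : V ⊗[K] V'} (hx : x ∈ tens K L M t) : h • x ∈ tens K N M (t + e) := by
  refine smul_mem_of_mem_span ?_ hx
  rintro x ⟨i, j, hij, v, hv, m, hm, rfl⟩
  rw [smul_tmul']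
  exact tmul_mem_tens' (hh i v hv) hm (by omega)

theorem tens_gen_gen (W : Submodule k K) {ι ι' : Type*} (b : ι → ℤ) (v : ι → V) (b' : ι' → ℤ)
    (v' : ι' → V') :
    tens K (gen W b v) (gen W b' v') =
      gen W (fun x : ι × ι' => b x.1 + b' x.2) (fun x => v x.1 ⊗ₜ[K] v' x.2) := by
  apply le_antisymm
  · intro t
    refine Submodule.span_le.2 ?_
    rintro x ⟨i, j, hij, y, hy, m, hm, rfl⟩
    rw [SetLike.mem_coe]
    unfold gen at hy hm
    induction hy using Submodule.iSup_induction' with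
    | zero => simp
    | add x y _ _ ihx ihy => rw [add_tmul]; exact Submodule.add_mem _ ihx ihy
    | mem α y hy =>
      induction hm using Submodule.iSup_induction' with
      | zero => simp
      | add x y _ _ ihx ihy => rw [tmul_add]; exact Submodule.add_mem _ ihx ihy
      | mem β m hm =>
        obtain ⟨f, hf, rfl⟩ := mem_cyc.1 hy
        obtain ⟨g, hg, rfl⟩ := mem_cyc.1 hm
        refine cyc_le_gen W (fun x : ι × ι' => b x.1 + b' x.2) (fun x => v x.1 ⊗ₜ[K] v' x.2)
          (α, β) t (mem_cyc.2 ⟨f * g, mul_mem_Rg' hf hg (by simp only; omega), ?_⟩)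
        rw [smul_tmul_smul]
  · exact gen_le (isMod_tens (isMod_gen W b v) _) fun x =>
      tmul_mem_tens (self_mem_gen W b v x.1) (self_mem_gen W b' v' x.2)

theorem IsFG.tens (hL : IsFG W L) (hM : IsFG W M) : IsFG W (tens K L M) := by
  obtain ⟨n, b, v, rfl⟩ := hL
  obtain ⟨n', b', v', rfl⟩ := hM
  rw [tens_gen_gen]
  exact isFG_gen _ _ _

theorem mem_tens_gen_left {ι : Type*} [Fintype ι] {b : ι → ℤ} {v : ι → V} (hM : IsMod W M)
    {t : ℤ} {x : V ⊗[K] V'} : x ∈ tens K (gen W b v) M t ↔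
      ∃ m : ι → V', (∀ i, m i ∈ M (t - b i)) ∧ ∑ i, v i ⊗ₜ[K] m i = x := by
  constructor
  · intro hx
    induction hx using Submodule.span_induction with
    | mem x hx =>
      obtain ⟨i, j, hij, y, hy, m, hm, rfl⟩ := hx
      obtain ⟨f, hf, rfl⟩ := mem_gen.1 hy
      refine ⟨fun α => f α • m, fun α => hM.smul_mem' (hf α) hm (by omega), ?_⟩
      simp only [sum_tmul, smul_tmul]
    | zero => exact ⟨0, fun i => Submodule.zero_mem _, by simp⟩
    | add x y _ _ hx hy =>
      obtain ⟨m, hm, rfl⟩ := hx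
      obtain ⟨m', hm', rfl⟩ := hy
      exact ⟨m + m', fun i => Submodule.add_mem _ (hm i) (hm' i), by
        simp [tmul_add, Finset.sum_add_distrib]⟩
    | smul c x _ hx =>
      obtain ⟨m, hm, rfl⟩ := hx
      exact ⟨c • m, fun i => Submodule.smul_mem _ c (hm i), by
        simp [Finset.smul_sum, tmul_smul]⟩
  · rintro ⟨m, hm, rfl⟩
    exact Submodule.sum_mem _ fun i _ => tmul_mem_tens' (self_mem_gen W b v i) (hm i) (by omega)

theorem mem_tens_gen_right {ι : Type*} [Fintype ι] {b : ι → ℤ} {m : ι → V'} (hN : IsMod W N)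
    {t : ℤ} {x : V ⊗[K] V'} (hx : x ∈ tens K N (gen W b m) t) :
      ∃ n : ι → V, (∀ i, n i ∈ N (t - b i)) ∧ ∑ i, n i ⊗ₜ[K] m i = x := by
  induction hx using Submodule.span_induction with
  | mem x hx =>
    obtain ⟨i, j, hij, y, hy, z, hz, rfl⟩ := hx
    obtain ⟨f, hf, rfl⟩ := mem_gen.1 hz
    refine ⟨fun α => f α • y, fun α => hN.smul_mem' (hf α) hy (by omega), ?_⟩
    simp only [tmul_sum, smul_tmul]
  | zero => exact ⟨0, fun i => Submodule.zero_mem _, by simp⟩
  | add x y _ _ hx hy =>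
    obtain ⟨n, hn, rfl⟩ := hx
    obtain ⟨n', hn', rfl⟩ := hy
    exact ⟨n + n', fun i => Submodule.add_mem _ (hn i) (hn' i), by
      simp [add_tmul, Finset.sum_add_distrib]⟩
  | smul c x _ hx =>
    obtain ⟨n, hn, rfl⟩ := hx
    exact ⟨c • n, fun i => Submodule.smul_mem _ c (hn i), by
      simp [Finset.smul_sum, smul_tmul']⟩

section Dual

variable {K V V' : Type*} [Field K] [AddCommGroup V] [Module K V] [AddCommGroup V'] [Module K V']

theorem exists_dual_of_li {ι : Type*} [DecidableEq ι] {v : ι → V} (hv : LinearIndependent K v)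
    (i : ι) : ∃ l : V →ₗ[K] K, ∀ j, l (v j) = if j = i then 1 else 0 := by
  obtain ⟨g, hg⟩ := LinearMap.exists_leftInverse_of_injective (Finsupp.linearCombination K v)
    (LinearMap.ker_eq_bot.2 hv)
  refine ⟨Finsupp.lapply i ∘ₗ g, fun j => ?_⟩
  have := LinearMap.congr_fun hg (Finsupp.single j 1)
  simp only [LinearMap.comp_apply, Finsupp.linearCombination_single, one_smul,
    LinearMap.id_apply] at this
  simp [this, Finsupp.single_apply]

/-- Contraction of the first factor with a dual functional. -/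
theorem exists_contr_left {ι : Type*} [Fintype ι] {v : ι → V} (hv : LinearIndependent K v)
    (i : ι) : ∃ c : V ⊗[K] V' →ₗ[K] V', (∀ m : ι → V', c (∑ j, v j ⊗ₜ[K] m j) = m i) ∧
      ∀ x y, ∃ a : K, c (x ⊗ₜ[K] y) = a • y := by
  classical
  obtain ⟨l, hl⟩ := exists_dual_of_li hv i
  refine ⟨(TensorProduct.lid K V').toLinearMap ∘ₗ l.rTensor V', fun m => ?_,
    fun x y => ⟨l x, by simp⟩⟩
  simp [hl]

theorem eq_of_sum_tmul_eq_left {ι : Type*} [Fintype ι] {v : ι → V} (hv : LinearIndependent K v)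
    {m m' : ι → V'} (h : ∑ j, v j ⊗ₜ[K] m j = ∑ j, v j ⊗ₜ[K] m' j) : m = m' := by
  funext i
  obtain ⟨c, hc, -⟩ := exists_contr_left (V' := V') hv i
  rw [← hc m, h, hc]

theorem eq_of_sum_tmul_eq_right {ι : Type*} [Fintype ι] {m : ι → V'} (hm : LinearIndependent K m)
    {n n' : ι → V} (h : ∑ j, n j ⊗ₜ[K] m j = ∑ j, n' j ⊗ₜ[K] m j) : n = n' := by
  refine eq_of_sum_tmul_eq_left hm ?_
  have := congrArg (TensorProduct.comm K V V') h
  simpa using this

end Dual

/-- Dimension of an internal direct sum. -/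
theorem finrank_eq_sum_of_param {V₁ V₂ : Type*} [AddCommGroup V₁] [Module k V₁] [AddCommGroup V₂]
    [Module k V₂] {ι : Type*} [Fintype ι] (P : ι → Submodule k V₁)
    [∀ i, FiniteDimensional k (P i)] (ψ : ι → V₁ →ₗ[k] V₂) (T : Submodule k V₂)
    (hinj : ∀ m : ι → V₁, ∑ i, ψ i (m i) = 0 → ∀ i, m i = 0)
    (hT : ∀ x, x ∈ T ↔ ∃ m : ι → V₁, (∀ i, m i ∈ P i) ∧ ∑ i, ψ i (m i) = x) :
    finrank k T = ∑ i, finrank k (P i) := by
  classical
  let φ : (∀ i, P i) →ₗ[k] V₂ := ∑ i, (ψ i).comp ((P i).subtype.comp (LinearMap.proj i))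
  have hφ : ∀ f, φ f = ∑ i, ψ i (f i) := by
    intro f; simp [φ]
  have hinj' : Function.Injective φ := by
    rw [injective_iff_map_eq_zero]
    intro f hf
    rw [hφ] at hf
    funext i
    exact Subtype.ext (hinj (fun i => f i) hf i)
  have hr : LinearMap.range φ = T := by
    ext x
    rw [hT, LinearMap.mem_range]
    constructor
    · rintro ⟨f, rfl⟩
      exact ⟨fun i => f i, fun i => (f i).2, (hφ f).symm⟩
    · rintro ⟨f, hf, rfl⟩
      exact ⟨fun i => ⟨f i, hf i⟩, hφ _⟩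
  rw [← hr, LinearMap.finrank_range_of_inj hinj', Module.finrank_pi_fintype]

/-- The `k`-linear map `m ↦ w ⊗ m`. -/
noncomputable def tmulMap (k K : Type*) {V : Type*} (V' : Type*) [Field k] [Field K] [Algebra k K]
    [AddCommGroup V] [Module K V] [Module k V] [IsScalarTower k K V] [AddCommGroup V']
    [Module K V'] [Module k V'] [IsScalarTower k K V'] (w : V) : V' →ₗ[k] V ⊗[K] V' :=
  (TensorProduct.mk K V V' w).restrictScalars k

@[simp] theorem tmulMap_apply (w : V) (m : V') : tmulMap k K V' w m = w ⊗ₜ[K] m := rfl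

theorem hf_tens_gen [FiniteDimensional k W] {ι : Type*} [Fintype ι] (b : ι → ℤ) {v : ι → V}
    (hv : LinearIndependent K v) (hM : IsFG W M) (t : ℤ) :
    hf (tens K (gen W b v) M) t = ∑ i, hf M (t - b i) := by
  have := fun i => hM.finiteDimensional (t - b i)
  have h := finrank_eq_sum_of_param (fun i => M (t - b i)) (fun i => tmulMap k K V' (v i))
    (tens K (gen W b v) M t) (fun m hm i => congrFun
      (eq_of_sum_tmul_eq_left hv (m := m) (m' := 0) (by simpa using hm)) i)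
    (fun x => mem_tens_gen_left hM.isMod)
  unfold hf
  rw [h]
  push_cast
  rfl

theorem hf_tens_cyc [FiniteDimensional k W] (b : ℤ) {v : V} (hv : v ≠ 0) (hM : IsFG W M) (t : ℤ) :
    hf (tens K (cyc W b v) M) t = hf M (t - b) := by
  rw [cyc_eq_gen, hf_tens_gen _ ((linearIndependent_unique_iff).mpr hv) hM]
  simp

theorem isMod_idealSmul (hq : IsMod W q) (M : ℤ → Submodule k V') :
    IsMod W (idealSmul q M) := by
  intro t w hw x hx
  refine smul_mem_of_mem_span ?_ hx
  rintro x ⟨i, j, hij, f, hf, m, hm, rfl⟩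
  rw [smul_smul]
  exact smul_mem_idealSmul (hq i w hw f hf) hm (by omega)

theorem idealSmul_le (hq : q ≤ Rg W) (hM : IsMod W M) : idealSmul q M ≤ M := by
  intro t
  refine Submodule.span_le.2 ?_
  rintro x ⟨i, j, hij, f, hf, m, hm, rfl⟩
  exact hM.smul_mem' (hq i hf) hm hij

/-- A module killed by the ideal `J` has Hilbert function bounded by that of `R / J`. -/
theorem hf_sup_gen_le [FiniteDimensional k W] (hN : IsFG W N) {ι : Type*} [Fintype ι] (b : ι → ℤ)
    (v : ι → V) {J : ℤ → Submodule k K} (hJ : ∀ i, J ≤ colon W N (b i) (v i)) (t : ℤ) :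
    hf (N ⊔ gen W b v) t - hf N t ≤ ∑ i, (hf (Rg W) (t - b i) - hf J (t - b i)) := by
  classical
  have key : ∀ s : Finset ι, IsFG W (N ⊔ s.sup fun i => cyc W (b i) (v i)) ∧
      hf (N ⊔ s.sup fun i => cyc W (b i) (v i)) t - hf N t ≤
        ∑ i ∈ s, (hf (Rg W) (t - b i) - hf J (t - b i)) := by
    intro s
    induction s using Finset.induction_on with
    | empty => simpa using hN
    | insert i s hi ih =>
      rw [Finset.sup_insert, sup_comm (cyc W (b i) (v i)), ← sup_assoc, Finset.sum_insert hi]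
      refine ⟨ih.1.sup (isFG_cyc _ _ _), ?_⟩
      have h1 := hf_sup_cyc ih.1 (b i) (v i) t
      have := finiteDimensional_Rg (W := W) (t - b i)
      have : FiniteDimensional k
          (colon W (N ⊔ s.sup fun i => cyc W (b i) (v i)) (b i) (v i) (t - b i)) :=
        Submodule.finiteDimensional_of_le (colon_le W _ _ _ (t - b i))
      have h2 : hf J (t - b i) ≤
          hf (colon W (N ⊔ s.sup fun i => cyc W (b i) (v i)) (b i) (v i)) (t - b i) := by
        refine hf_mono fun f hf => ?_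
        have h3 := mem_colon.1 (hJ i _ hf)
        exact mem_colon.2 ⟨h3.1, Submodule.mem_sup_left h3.2⟩
      linarith [ih.2]
  have heq : gen W b v = Finset.univ.sup fun i => cyc W (b i) (v i) := by
    funext t
    rw [Finset.sup_univ_eq_iSup, iSup_apply]
    rfl
  rw [heq]
  exact (key Finset.univ).2

theorem eventually_sub_const {P : ℤ → Prop} (h : ∀ᶠ t in atTop, P t) (b : ℤ) :
    ∀ᶠ t in atTop, P (t - b) :=
  (tendsto_atTop_add_const_right atTop (-b) tendsto_id).eventually h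

/-- A bounded nonnegative eventually quadratic function is eventually constant. -/
theorem EvQuad.exists_const {E : ℤ → ℤ} (hE : EvQuad E) {C : ℚ} (h0 : ∀ t, 0 ≤ E t)
    (hC : ∀ᶠ t in atTop, (E t : ℚ) ≤ C) :
    ∃ c : ℚ, 0 ≤ c ∧ c ≤ C ∧ ∀ᶠ t in atTop, (E t : ℚ) = c := by
  obtain ⟨c₂, c₁, c₀, h⟩ := hE
  have h1 := quad_le_of_eventually' (a₂ := 0) (a₁ := 0) (a₀ := 0) (b₂ := c₂) (b₁ := c₁) (b₀ := c₀)
    (h.mono fun t ht => by
      have : (0 : ℚ) ≤ E t := by exact_mod_cast h0 t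
      linarith)
  have h2 := quad_le_of_eventually' (a₂ := c₂) (a₁ := c₁) (a₀ := c₀) (b₂ := 0) (b₁ := 0) (b₀ := C)
    ((h.and hC).mono fun t ht => by linarith [ht.1, ht.2])
  have e2 : c₂ = 0 := le_antisymm h2.1 h1.1
  have e1 : c₁ = 0 := le_antisymm (h2.2 e2).1 (h1.2 e2.symm).1
  refine ⟨c₀, (h1.2 e2.symm).2 e1.symm, (h2.2 e2).2 e1, h.mono fun t ht => ?_⟩
  rw [ht, e2, e1]
  ring

theorem EvQuad.sub {E E' : ℤ → ℤ} (hE : EvQuad E) (hE' : EvQuad E') :
    EvQuad fun t => E t - E' t := by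
  obtain ⟨c₂, c₁, c₀, h⟩ := hE
  obtain ⟨d₂, d₁, d₀, h'⟩ := hE'
  refine ⟨c₂ - d₂, c₁ - d₁, c₀ - d₀, (h.and h').mono fun t ht => ?_⟩
  push_cast
  rw [ht.1, ht.2]
  ring

theorem hf_idealSmul_inf_gen [FiniteDimensional k W] (hq : IsPrimeFam W q) {r : ℕ} {b e : ℤ}
    {m : Fin r → V'} (hm : ∀ i, m i ∈ M b) (hli : LinearIndependent K m) {h : K}
    (hh : h ∈ Rg W e) (hh' : h ∉ q e)
    (hM : ∀ t, ∀ v ∈ M t, h • v ∈ gen W (fun _ => b) m (t + e)) (t : ℤ) :
    hf (idealSmul q M ⊓ gen W (fun _ => b) m) t = r * hf q (t - b) := by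
  have := finiteDimensional_Rg (W := W) (t - b)
  have : FiniteDimensional k (q (t - b)) := Submodule.finiteDimensional_of_le (hq.le _)
  have key : ∀ x ∈ idealSmul q M t, ∃ g : Fin r → K, (∀ i, g i ∈ q (t - b + e)) ∧
      ∑ i, g i • m i = h • x := by
    intro x hx
    induction hx using Submodule.span_induction with
    | mem x hx =>
      obtain ⟨i, j, hij, f, hf, y, hy, rfl⟩ := hx
      obtain ⟨g, hg, hsum⟩ := mem_gen.1 (hM j y hy)
      refine ⟨fun α => g α * f, fun α => hq.isMod.smul_mem' (hg α) hf (by omega), ?_⟩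
      rw [smul_comm, ← hsum, Finset.smul_sum]
      simp only [smul_smul, mul_comm]
    | zero => exact ⟨0, fun i => Submodule.zero_mem _, by simp⟩
    | add x y _ _ hx hy =>
      obtain ⟨g, hg, hs⟩ := hx
      obtain ⟨g', hg', hs'⟩ := hy
      exact ⟨g + g', fun i => Submodule.add_mem _ (hg i) (hg' i), by
        simp [add_smul, Finset.sum_add_distrib, hs, hs']⟩
    | smul c x _ hx =>
      obtain ⟨g, hg, hs⟩ := hx
      refine ⟨c • g, fun i => Submodule.smul_mem _ c (hg i), ?_⟩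
      rw [smul_comm h, ← hs, Finset.smul_sum]
      simp only [Pi.smul_apply, smul_assoc]
  have h1 := finrank_eq_sum_of_param (fun _ : Fin r => q (t - b)) (fun i => smulMap k K (m i))
    ((idealSmul q M ⊓ gen W (fun _ => b) m) t)
    (fun g hg => Fintype.linearIndependent_iff.1 hli g hg) (fun x => ?_)
  · unfold hf
    rw [h1]
    simp
  · constructor
    · rintro ⟨hx1, hx2⟩
      obtain ⟨f, hf, rfl⟩ := mem_gen.1 hx2
      obtain ⟨g, hg, hs⟩ := key _ hx1
      refine ⟨f, fun i => ?_, rfl⟩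
      have h2 : ∑ i, (g i - f i * h) • m i = 0 := by
        simp only [sub_smul, Finset.sum_sub_distrib, hs, Finset.smul_sum, smul_smul, mul_comm,
          sub_self]
      have h3 : g i = f i * h := sub_eq_zero.1 (Fintype.linearIndependent_iff.1 hli _ h2 i)
      exact (hq.prime _ _ _ (hf i) _ hh (h3 ▸ hg i)).resolve_right hh'
    · rintro ⟨f, hf, rfl⟩
      exact ⟨Submodule.sum_mem _ fun i _ => smul_mem_idealSmul (hf i) (hm i) (by omega),
        mem_gen.2 ⟨f, fun i => hq.le _ (hf i), rfl⟩⟩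

theorem cval_core (hW : Ctx W) (hM : IsFG W M) {r : ℕ}
    (hLF : ∀ q, IsPrimeFam W q → Relevant W q → LF W M r q) (hq : IsPrimeFam W q) {c₁ c₀ : ℚ}
    (hδ : ∀ᶠ t : ℤ in atTop, ((hf (Rg W) t - hf q t : ℤ) : ℚ) = c₁ * t + c₀) :
    ∃ c : ℚ, (c₁ = 0 → c = 0) ∧ ∀ᶠ t in atTop,
      ((hf M t - hf (idealSmul q M) t - r * (hf (Rg W) t - hf q t) : ℤ) : ℚ) = c := by
  have := hW.fd
  have hqM : idealSmul q M ≤ M := idealSmul_le hq.le hM.isMod
  obtain ⟨n, β, v, hgen⟩ := id hM
  by_cases hrel : Relevant W q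
  · obtain ⟨b, e, m, hm, hli, h, hh, hh', hhM⟩ := hLF q hq hrel
    set M₁ := gen W (fun _ => b) m with hM₁
    have hM₁M : M₁ ≤ M := gen_le hM.isMod hm
    have hFG : IsFG W (idealSmul q M ⊔ M₁) :=
      (hM.of_le (isMod_idealSmul hq.isMod M) hqM).sup (isFG_gen _ _ _)
    have hle : idealSmul q M ⊔ M₁ ≤ M := sup_le hqM hM₁M
    have hJ : ∀ i, q ⊔ cyc W e h ≤ colon W (idealSmul q M ⊔ M₁) (β i) (v i) := by
      intro i
      have hv : v i ∈ M (β i) := by rw [hgen]; exact self_mem_gen W β v i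
      refine sup_le (fun a f hf => mem_colon.2 ⟨hq.le a hf,
        Submodule.mem_sup_left (smul_mem_idealSmul hf hv rfl)⟩) ?_
      refine cyc_le (isMod_colon hFG.isMod _ _) (mem_colon.2 ⟨hh, Submodule.mem_sup_right ?_⟩)
      rw [add_comm]
      exact hhM _ _ hv
    have hbound : ∀ᶠ t in atTop,
        ((hf M t - hf (idealSmul q M ⊔ M₁) t : ℤ) : ℚ) ≤ n * (c₁ * e) := by
      have h1 : ∀ᶠ t : ℤ in atTop, ∀ i, ((hf (Rg W) (t - β i) -
          hf (q ⊔ cyc W e h) (t - β i) : ℤ) : ℚ) = c₁ * e := by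
        refine eventually_all.2 fun i => ?_
        filter_upwards [eventually_sub_const hδ (β i),
          eventually_sub_const (eventually_sub_const hδ e) (β i)] with t h1 h2
        rw [hq.hf_sup_cyc hh hh', Int.cast_sub, h1, h2]
        push_cast
        ring
      filter_upwards [h1] with t ht
      have h2 := hf_sup_gen_le hFG β v hJ t
      rw [← hgen, sup_eq_right.2 hle] at h2
      have h3 : ((hf M t - hf (idealSmul q M ⊔ M₁) t : ℤ) : ℚ) ≤
          ((∑ i, (hf (Rg W) (t - β i) - hf (q ⊔ cyc W e h) (t - β i)) : ℤ) : ℚ) := by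
        exact_mod_cast h2
      rw [Int.cast_sum, Finset.sum_congr rfl fun i _ => ht i] at h3
      simpa using h3
    obtain ⟨c, hc0, hcC, hc⟩ := ((hW.evQuad hM).sub (hW.evQuad hFG)).exists_const
      (fun t => by
        have := hM.finiteDimensional t
        exact sub_nonneg.2 (hf_mono (hle t))) hbound
    refine ⟨c - r * (c₁ * b), fun h0 => ?_, ?_⟩
    · rw [h0] at hcC ⊢
      simp only [zero_mul, mul_zero, sub_zero] at hcC ⊢
      exact le_antisymm hcC hc0
    · filter_upwards [hc, hδ, eventually_sub_const hδ b] with t h1 h2 h3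
      have := hM.finiteDimensional t
      have : FiniteDimensional k (idealSmul q M t) := Submodule.finiteDimensional_of_le (hqM t)
      have : FiniteDimensional k (M₁ t) := Submodule.finiteDimensional_of_le (hM₁M t)
      have h4 : hf (idealSmul q M ⊔ M₁) t + hf (idealSmul q M ⊓ M₁) t =
          hf (idealSmul q M) t + hf M₁ t := by
        unfold hf
        exact_mod_cast Submodule.finrank_sup_add_finrank_inf_eq (idealSmul q M t) (M₁ t)
      have h5 := hf_idealSmul_inf_gen hq hm hli hh hh' hhM t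
      have h6 : hf M₁ t = r * hf (Rg W) (t - b) := by
        rw [hM₁, hf_gen_of_li _ hli]
        simp
      have h7 : hf M t - hf (idealSmul q M) t - r * (hf (Rg W) t - hf q t) =
          (hf M t - hf (idealSmul q M ⊔ M₁) t) + r * (hf (Rg W) (t - b) - hf q (t - b)) -
            r * (hf (Rg W) t - hf q t) := by
        rw [← hM₁] at h5
        linear_combination h4 - h5 + h6
      rw [h7, Int.cast_sub, Int.cast_add, Int.cast_mul, Int.cast_mul, h1, h2, h3]
      push_cast
      ring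
  · refine ⟨0, fun _ => rfl, ?_⟩
    have h1 : ∀ᶠ t : ℤ in atTop, ∀ i, 1 ≤ t - β i :=
      eventually_all.2 fun i => eventually_sub_const (eventually_ge_atTop 1) (β i)
    filter_upwards [h1, eventually_ge_atTop 1] with t ht ht1
    have h2 : idealSmul q M t = M t := by
      refine le_antisymm (hqM t) fun x hx => ?_
      rw [hgen] at hx
      obtain ⟨f, hf, rfl⟩ := mem_gen.1 hx
      refine Submodule.sum_mem _ fun i _ => smul_mem_idealSmul (i := t - β i) (j := β i) ?_ ?_
        (by omega)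
      · rw [eq_Rg_of_not_relevant hq.isMod hq.le hrel (ht i)]
        exact hf i
      · rw [hgen]
        exact self_mem_gen W β v i
    unfold hf
    rw [h2, eq_Rg_of_not_relevant hq.isMod hq.le hrel ht1]
    simp

theorem cval_spec (hW : Ctx W) (hM : IsFG W M) {r : ℕ}
    (hLF : ∀ q, IsPrimeFam W q → Relevant W q → LF W M r q) (hq : IsPrimeFam W q)
    (hq0 : ∃ a, q a ≠ ⊥) :
    ∀ᶠ t in atTop,
      hf M t - hf (idealSmul q M) t - r * (hf (Rg W) t - hf q t) = cval W M r q := by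
  obtain ⟨c₁, c₀, hδ⟩ := evLin_of_ne_bot hW hq.isMod hq.le hq0
  obtain ⟨c, -, hc⟩ := cval_core hW hM hLF hq hδ
  have hex : ∃ c : ℤ, ∀ᶠ t in atTop,
      hf M t - hf (idealSmul q M) t - r * (hf (Rg W) t - hf q t) = c := by
    obtain ⟨t₀, ht₀⟩ := hc.exists
    refine ⟨_, hc.mono fun t ht => Int.cast_injective (α := ℚ) (ht.trans ht₀.symm)⟩
  unfold cval
  rw [dif_pos hex]
  exact hex.choose_spec

theorem cval_eq_zero (hW : Ctx W) (hM : IsFG W M) {r : ℕ}
    (hLF : ∀ q, IsPrimeFam W q → Relevant W q → LF W M r q) (hq : IsPrimeFam W q)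
    (hq0 : ∃ a, q a ≠ ⊥) (hht : ¬ Ht1 W q) : cval W M r q = 0 := by
  have := hW.fd
  obtain ⟨c₁, c₀, hδ⟩ := evLin_of_ne_bot hW hq.isMod hq.le hq0
  obtain ⟨c, hc0, hc⟩ := cval_core hW hM hLF hq hδ
  obtain ⟨C, hC⟩ : ∃ C : ℤ, ∀ᶠ t in atTop, hf (Rg W) t - hf q t ≤ C := by
    by_contra hcon
    exact hht ⟨hq, hq0, hcon⟩
  have h1 := quad_le_of_eventually' (a₂ := 0) (a₁ := 0) (a₀ := 0) (b₂ := 0) (b₁ := c₁) (b₀ := c₀)
    (hδ.mono fun t ht => by
      have := finiteDimensional_Rg (W := W) t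
      have h0 : (0 : ℚ) ≤ ((hf (Rg W) t - hf q t : ℤ) : ℚ) := by
        exact_mod_cast sub_nonneg.2 (hf_mono (hq.le t))
      linarith)
  have h2 := quad_le_of_eventually' (a₂ := 0) (a₁ := c₁) (a₀ := c₀) (b₂ := 0) (b₁ := 0) (b₀ := C)
    ((hδ.and hC).mono fun t ht => by
      have h0 : ((hf (Rg W) t - hf q t : ℤ) : ℚ) ≤ C := by exact_mod_cast ht.2
      linarith [ht.1])
  have e1 : c₁ = 0 := le_antisymm (h2.2 rfl).1 (h1.2 rfl).1
  obtain ⟨t, ht1, ht2⟩ := (hc.and (cval_spec hW hM hLF hq hq0)).exists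
  rw [ht2, hc0 e1] at ht1
  exact_mod_cast ht1

theorem finrank_map_add_finrank_inf_ker {V₁ V₂ : Type*} [AddCommGroup V₁] [Module k V₁]
    [AddCommGroup V₂] [Module k V₂] (f : V₁ →ₗ[k] V₂) (B : Submodule k V₁)
    [FiniteDimensional k B] :
    finrank k (B.map f) + finrank k (B ⊓ LinearMap.ker f : Submodule k V₁) = finrank k B := by
  have h := LinearMap.finrank_range_add_finrank_ker (f.domRestrict B)
  rw [LinearMap.range_domRestrict, LinearMap.ker_domRestrict] at h
  rw [← h, ← Submodule.finrank_map_subtype_eq B ((LinearMap.ker f).comap B.subtype),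
    Submodule.map_comap_subtype]

theorem finrank_sup_map_tens {V₁ V₂ : Type*} [AddCommGroup V₁] [Module k V₁] [AddCommGroup V₂]
    [Module k V₂] (ψ : V₁ →ₗ[k] V₂) (A : Submodule k V₂) (B : Submodule k V₁)
    [FiniteDimensional k A] [FiniteDimensional k B] :
    finrank k (A ⊔ B.map ψ : Submodule k V₂) + finrank k (B ⊓ A.comap ψ : Submodule k V₁) =
      finrank k A + finrank k B := by
  have h1 := finrank_map_add_finrank_inf_ker (A.mkQ ∘ₗ ψ) B
  have h2 := finrank_map_add_finrank_inf_ker A.mkQ (A ⊔ B.map ψ)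
  rw [LinearMap.ker_comp, Submodule.ker_mkQ, Submodule.map_comp] at h1
  rw [Submodule.ker_mkQ, Submodule.map_sup, Submodule.mkQ_map_self, bot_sup_eq,
    inf_eq_right.2 le_sup_left] at h2
  omega

theorem tens_sup_cyc (hM : IsMod W M) (b : ℤ) (w : V) (t : ℤ) :
    tens K (N ⊔ cyc W b w) M t = tens K N M t ⊔ (M (t - b)).map (tmulMap k K V' w) := by
  apply le_antisymm
  · refine Submodule.span_le.2 ?_
    rintro x ⟨i, j, hij, y, hy, m, hm, rfl⟩
    obtain ⟨n, hn, z, hz, rfl⟩ := Submodule.mem_sup.1 hy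
    obtain ⟨f, hf, rfl⟩ := mem_cyc.1 hz
    rw [SetLike.mem_coe, add_tmul, smul_tmul]
    exact Submodule.add_mem_sup (tmul_mem_tens' hn hm hij)
      ⟨f • m, hM.smul_mem' hf hm (by omega), rfl⟩
  · refine sup_le (tens_mono le_sup_left le_rfl t) ?_
    rintro x ⟨m, hm, rfl⟩
    exact tmul_mem_tens' (L := N ⊔ cyc W b w) (Submodule.mem_sup_right (self_mem_cyc W b w)) hm
      (by omega)

theorem hf_tens_sup_cyc [FiniteDimensional k W] (hM : IsFG W M) {r : ℕ}
    (hLF : ∀ q, IsPrimeFam W q → Relevant W q → LF W M r q) (hN : IsFG W N) (b : ℤ) (w : V) :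
    ∀ᶠ t in atTop, hf (tens K (N ⊔ cyc W b w) M) t - hf (tens K N M) t =
      hf M (t - b) - hf (idealSmul (colon W N b w) M) (t - b) := by
  set Kk : ℤ → Submodule k V' :=
    fun j => M j ⊓ (tens K N M (j + b)).comap (tmulMap k K V' w) with hKk
  have hKmod : IsMod W Kk := by
    intro t f hf m hm
    refine ⟨hM.isMod t f hf m hm.1, ?_⟩
    have h1 := isMod_tens hN.isMod M _ f hf _ hm.2
    rw [tmulMap_apply, ← tmul_smul, add_right_comm] at h1
    exact h1
  have hKFG : IsFG W Kk := hM.of_le hKmod fun _ => inf_le_left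
  have hle : idealSmul (colon W N b w) M ≤ Kk := by
    intro t
    refine Submodule.span_le.2 ?_
    rintro x ⟨i, j, hij, f, hf, m, hm, rfl⟩
    refine ⟨hM.isMod.smul_mem' (mem_colon.1 hf).1 hm hij, ?_⟩
    rw [SetLike.mem_coe, Submodule.mem_comap, tmulMap_apply, ← smul_tmul]
    exact tmul_mem_tens' (mem_colon.1 hf).2 hm (by omega)
  have hev := eventually_eq_of_local hKFG (isMod_idealSmul (isMod_colon hN.isMod b w) M) hle (by
    intro p hp hrel t v hv
    obtain ⟨b', e, m, hm, hli, h, hh, hh', hhM⟩ := hLF p hp hrel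
    refine ⟨e, h, hh, hh', ?_⟩
    obtain ⟨f, hf, hsum⟩ := mem_gen.1 (hhM t v hv.1)
    obtain ⟨n, hn, hsum'⟩ := mem_tens_gen_right hN.isMod (smul_mem_tens_right hhM hv.2)
    have h1 : n = fun i => f i • w := by
      refine eq_of_sum_tmul_eq_right hli ?_
      rw [hsum', tmulMap_apply, ← tmul_smul, ← hsum, tmul_sum]
      simp only [smul_tmul]
    rw [← hsum]
    refine Submodule.sum_mem _ fun i _ => smul_mem_idealSmul (i := t + e - b') (j := b')
      (mem_colon.2 ⟨hf i, ?_⟩) (hm i) (by omega)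
    have h2 := hn i
    rw [h1] at h2
    have h3 : t + e - b' + b = t + b + e - b' := by ring
    rwa [h3])
  filter_upwards [eventually_sub_const hev b] with t ht
  have := (hN.tens hM).finiteDimensional t
  have := hM.finiteDimensional (t - b)
  have h1 := finrank_sup_map_tens (tmulMap k K V' w) (tens K N M t) (M (t - b))
  have h2 : Kk (t - b) = M (t - b) ⊓ (tens K N M t).comap (tmulMap k K V' w) := by
    simp only [hKk, sub_add_cancel]
  unfold hf
  rw [ht, tens_sup_cyc hM.isMod, h2]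
  omega

theorem lam_step (hW : Ctx W) (hM : IsFG W M) {r : ℕ}
    (hLF : ∀ q, IsPrimeFam W q → Relevant W q → LF W M r q) (hN : IsFG W N) (b : ℤ) (w : V)
    (hq : IsPrimeFam W (colon W N b w)) (hq0 : ∃ a, colon W N b w a ≠ ⊥) :
    ∀ᶠ t in atTop,
      (hf (tens K (N ⊔ cyc W b w) M) t - r * hf (N ⊔ cyc W b w) t) -
        (hf (tens K N M) t - r * hf N t) = cval W M r (colon W N b w) := by
  have := hW.fd
  filter_upwards [hf_tens_sup_cyc hM hLF hN b w,
    eventually_sub_const (cval_spec hW hM hLF hq hq0) b] with t h1 h2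
  have h3 := hf_sup_cyc hN b w t
  linear_combination h1 + h2 - r * h3

/-- Tensoring with a locally free module commutes with intersection with a subspace. -/
theorem tens_inf_eventually [FiniteDimensional k W] (hL : IsFG W L) (hM : IsFG W M) {ρ : ℕ}
    (hLF : ∀ q, IsPrimeFam W q → Relevant W q → LF W L ρ q) (Y : Submodule K V') :
    ∀ᶠ t in atTop, tens K L (M ⊓ cst k Y) t =
      tens K L M t ⊓ (LinearMap.range (Y.subtype.lTensor V)).restrictScalars k := by
  set Y' := LinearMap.range (Y.subtype.lTensor V) with hY'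
  have hFG : IsFG W (tens K L M ⊓ cst k Y') :=
    (hL.tens hM).of_le ((isMod_tens hL.isMod M).inf (isMod_cst W Y')) inf_le_left
  have hle : tens K L (M ⊓ cst k Y) ≤ tens K L M ⊓ cst k Y' := by
    refine le_inf (tens_mono le_rfl inf_le_left) fun t => Submodule.span_le.2 ?_
    rintro x ⟨i, j, -, v, -, m, hm, rfl⟩
    exact ⟨v ⊗ₜ[K] (⟨m, hm.2⟩ : Y), rfl⟩
  refine eventually_eq_of_local hFG (isMod_tens hL.isMod _) hle ?_
  intro p hp hrel t v hv
  obtain ⟨b, e, l, hl, hli, h, hh, hh', hhL⟩ := hLF p hp hrel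
  refine ⟨e, h, hh, hh', ?_⟩
  obtain ⟨m, hm, hsum⟩ := (mem_tens_gen_left hM.isMod).1 (smul_mem_tens_left hhL hv.1)
  rw [← hsum]
  refine Submodule.sum_mem _ fun i _ => tmul_mem_tens' (M := M ⊓ cst k Y) (j := t + e - b) (hl i)
    ⟨hm i, ?_⟩ (by omega)
  obtain ⟨c, hc, hc'⟩ := exists_contr_left (V' := V') hli i
  have h1 : ∀ z : V ⊗[K] Y, c (Y.subtype.lTensor V z) ∈ Y := by
    intro z
    induction z using TensorProduct.induction_on with
    | zero => simp
    | tmul x y =>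
      obtain ⟨a, ha⟩ := hc' x y
      rw [LinearMap.lTensor_tmul, Submodule.subtype_apply, ha]
      exact Y.smul_mem a y.2
    | add x y hx hy => rw [map_add, map_add]; exact Y.add_mem hx hy
  obtain ⟨z, hz⟩ : v ∈ Y' := hv.2
  rw [SetLike.mem_coe, mem_cst, ← hc m, hsum, map_smul, ← hz]
  exact Y.smul_mem h (h1 z)

end Pool.Agent.Lib.MP_cf0da3_ag
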