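import Pool.Agent.Lib.MP_cf0da3_ag.Local
import Pool.Agent.Lib.MP_cf0da3_ag.Tensor
import Pool.Agent.Lib.MP_cf0da3_ag.Length

/-! The Hilbert polynomial of a tensor product only depends on the determinant. -/

namespace Pool.Agent.Lib.MP_cf0da3_ag

open Module Filter TensorProduct

variable {k K : Type*} [Field k] [Field K] [Algebra k K] {W : Submodule k K}
  {V : Type*} [AddCommGroup V] [Module K V] [Module k V] [IsScalarTower k K V]
  {V' : Type*} [AddCommGroup V'] [Module K V'] [Module k V'] [IsScalarTower k K V']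
  {L N : ℤ → Submodule k V} {M : ℤ → Submodule k V'}

theorem zpow_mem_Rg_notMem {p : ℤ → Submodule k K} (hp : IsPrimeFam W p) {g : K} (hg : g ∈ W)
    (hg' : g ∉ p 1) {m : ℤ} (hm : 0 ≤ m) : g ^ m ∈ Rg W m ∧ g ^ m ∉ p m := by
  lift m to ℕ using hm
  rw [zpow_natCast]
  exact ⟨by simpa using pow_mem_Rg (mem_Rg_one hg) m,
    by simpa using hp.pow_notMem (mem_Rg_one hg) hg' m⟩

/-- Membership in the localisation of an element of degree `b`. -/
theorem zpow_smul_mem_loc_iff {p : ℤ → Submodule k K} (hp : IsPrimeFam W p) (hN : IsMod W N)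
    {g : K} (hg : g ∈ W) (hg' : g ∉ p 1) (b : ℤ) (y : V) :
    g ^ (-b) • y ∈ loc W p N ↔ ∃ a, ∃ h ∈ Rg W a, h ∉ p a ∧ h • y ∈ N (a + b) := by
  have hg0 : g ≠ 0 := fun h => hg' (h ▸ Submodule.zero_mem _)
  rw [mem_loc hp hN]
  constructor
  · rintro ⟨a, h, hh, hh', hy⟩
    have h1 := zpow_mem_Rg_notMem hp hg hg' (m := |b| - b) (sub_nonneg.2 (le_abs_self b))
    have h2 := zpow_mem_Rg_notMem hp hg hg' (abs_nonneg b)
    refine ⟨a + (|b| - b), h * g ^ (|b| - b), mul_mem_Rg hh h1.1,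
      hp.mul_notMem hh h1.1 hh' h1.2, ?_⟩
    have h3 := hN.smul_mem' h2.1 hy (s := a + (|b| - b) + b) (by ring)
    rw [smul_smul, smul_smul] at h3
    have h4 : h * g ^ (|b| - b) = g ^ |b| * h * g ^ (-b) := by
      rw [sub_eq_add_neg, zpow_add₀ hg0]; ring
    rwa [h4]
  · rintro ⟨a, h, hh, hh', hy⟩
    have h1 := zpow_mem_Rg_notMem hp hg hg' (m := |b| + b) (by linarith [neg_abs_le b])
    have h2 := zpow_mem_Rg_notMem hp hg hg' (abs_nonneg b)
    refine ⟨a + (|b| + b), h * g ^ (|b| + b), mul_mem_Rg hh h1.1,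
      hp.mul_notMem hh h1.1 hh' h1.2, ?_⟩
    have h3 := hN.smul_mem' h2.1 hy (s := a + (|b| + b)) (by ring)
    rw [smul_smul] at h3 ⊢
    have h4 : h * g ^ (|b| + b) * g ^ (-b) = g ^ |b| * h := by
      rw [mul_assoc, ← zpow_add₀ hg0, add_neg_cancel_right, mul_comm]
    rwa [h4]

open Classical in
theorem relLen_loc_step (hW : Ctx W) {p : ℤ → Submodule k K} (hp : Ht1 W p) (hN : IsMod W N)
    (b : ℤ) (w : V) (hq : IsPrimeFam W (colon W N b w)) (hq0 : ∃ a, colon W N b w a ≠ ⊥) :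
    relLen (loc W p N) (loc W p (N ⊔ cyc W b w)) = if colon W N b w = p then 1 else 0 := by
  obtain ⟨g, hg, hg'⟩ := hp.relevant
  rw [loc_sup hp.1 hN (isMod_cyc W b w), loc_cyc hp.1 hg hg']
  split_ifs with hcp
  · rw [relLen_sup_span]
    have := isLocalRing_Oloc hp.1
    have hI : (loc W p N).comap (LinearMap.toSpanSingleton (Oloc W p) V (g ^ (-b) • w)) =
        IsLocalRing.maximalIdeal (Oloc W p) := by
      symm
      refine (IsLocalRing.maximalIdeal.isMaximal (Oloc W p)).eq_of_le ?_ ?_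
      · rw [Ne, Ideal.eq_top_iff_one, Submodule.mem_comap, LinearMap.toSpanSingleton_apply,
          one_smul, zpow_smul_mem_loc_iff hp.1 hN hg hg']
        rintro ⟨a, h, hh, hh', hw⟩
        exact hh' (hcp ▸ mem_colon.2 ⟨hh, hw⟩)
      · intro x hx
        obtain ⟨a, h, hh, hh', hx'⟩ := (mem_maximalIdeal_Oloc hp.1 x).1 hx
        rw [Submodule.mem_comap, LinearMap.toSpanSingleton_apply, Subring.smul_def, smul_comm,
          zpow_smul_mem_loc_iff hp.1 hN hg hg']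
        refine ⟨a, h, hh, hh', ?_⟩
        rw [smul_smul]
        exact (mem_colon.1 (hcp.ge a hx')).2
    rw [hI, Module.length_eq_one_iff, isSimpleModule_iff_isCoatom]
    exact (IsLocalRing.maximalIdeal.isMaximal (Oloc W p)).out
  · have hnle : ¬ colon W N b w ≤ p := fun h => hcp (hp.eq_of_le hW hq hq0 h)
    obtain ⟨a, ha⟩ := not_forall.1 hnle
    obtain ⟨f, hf, hf'⟩ := SetLike.not_le_iff_exists.1 ha
    have hmem : g ^ (-b) • w ∈ loc W p N := (zpow_smul_mem_loc_iff hp.1 hN hg hg' b w).2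
      ⟨a, f, (mem_colon.1 hf).1, hf', (mem_colon.1 hf).2⟩
    rw [sup_eq_left.2 ((Submodule.span_singleton_le_iff_mem _ _).2 hmem), relLen_self]

open Classical in
theorem lam_multiset (hW : Ctx W) (hM : IsFG W M) {r : ℕ}
    (hLF : ∀ q, IsPrimeFam W q → Relevant W q → LF W M r q) (hL : IsFG W L) (hN : IsMod W N)
    (hle : N ≤ L) (htors : ∀ t, ∀ v ∈ L t, ∃ a, ∃ f ∈ Rg W a, f ≠ 0 ∧ f • v ∈ N (a + t)) :
    ∃ S : Multiset (ℤ → Submodule k K), (∀ q ∈ S, Ht1 W q) ∧
      (∀ p, Ht1 W p → relLen (loc W p N) (loc W p L) = (S.count p : ℕ)) ∧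
      ∀ᶠ t in atTop, (hf (tens K L M) t - r * hf L t) - (hf (tens K N M) t - r * hf N t) =
        (S.map (cval W M r)).sum := by
  have := hW.fd
  refine prime_induction hL (fun N => (∀ t, ∀ v ∈ L t, ∃ a, ∃ f ∈ Rg W a, f ≠ 0 ∧
      f • v ∈ N (a + t)) → ∃ S : Multiset (ℤ → Submodule k K), (∀ q ∈ S, Ht1 W q) ∧
      (∀ p, Ht1 W p → relLen (loc W p N) (loc W p L) = (S.count p : ℕ)) ∧
      ∀ᶠ t in atTop, (hf (tens K L M) t - r * hf L t) - (hf (tens K N M) t - r * hf N t) =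
        (S.map (cval W M r)).sum) ?_ ?_ N hN hle htors
  · intro _
    exact ⟨0, by simp, fun p _ => by simp [relLen_self], Eventually.of_forall fun t => by simp⟩
  · intro N b w hN hle hw hq ih htors
    obtain ⟨S, hS, hlen, hsum⟩ := ih fun t v hv => by
      obtain ⟨a, f, hf, hf0, hfv⟩ := htors t v hv
      exact ⟨a, f, hf, hf0, Submodule.mem_sup_left hfv⟩
    have hq0 : ∃ a, colon W N b w a ≠ ⊥ := by
      obtain ⟨a, f, hf, hf0, hfv⟩ := htors b w hw
      exact ⟨a, (Submodule.ne_bot_iff _).2 ⟨f, mem_colon.2 ⟨hf, hfv⟩, hf0⟩⟩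
    have hstep := lam_step hW hM hLF (hL.of_le hN hle) b w hq hq0
    have hadd : ∀ p, Ht1 W p → relLen (loc W p N) (loc W p L) =
        (if colon W N b w = p then 1 else 0) + (S.count p : ℕ) := by
      intro p hp
      rw [relLen_add (loc_mono le_sup_left) (loc_mono (sup_le hle (cyc_le hL.isMod hw))),
        relLen_loc_step hW hp hN b w hq hq0, hlen p hp]
    by_cases hht : Ht1 W (colon W N b w)
    · refine ⟨colon W N b w ::ₘ S, ?_, fun p hp => ?_, ?_⟩
      · intro q hq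
        rcases Multiset.mem_cons.1 hq with rfl | h
        exacts [hht, hS q h]
      · rw [hadd p hp, Multiset.count_cons, add_comm]
        by_cases h : colon W N b w = p
        · simp [h]
        · simp [h, Ne.symm h]
      · filter_upwards [hsum, hstep] with t h1 h2
        rw [Multiset.map_cons, Multiset.sum_cons]
        linear_combination h1 + h2
    · refine ⟨S, hS, fun p hp => ?_, ?_⟩
      · rw [hadd p hp, if_neg (fun h : colon W N b w = p => hht (h ▸ hp)), zero_add]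
      · filter_upwards [hsum, hstep] with t h1 h2
        rw [cval_eq_zero hW hM hLF hq hq0 hht] at h2
        linear_combination h1 + h2

theorem Ctx.tors (hW : Ctx W) (hL : IsMod W L) {v : V} (hv : v ∈ spanK K L) (t : ℤ) :
    ∃ a, ∃ f ∈ Rg W a, f ≠ 0 ∧ f • v ∈ L (a + t) := by
  have key : ∃ a, ∃ f ∈ Rg W a, f ≠ 0 ∧ f • v ∈ L a := by
    induction hv using Submodule.span_induction with
    | mem x hx =>
      obtain ⟨s, hs⟩ := Set.mem_iUnion.1 hx
      exact ⟨|s|, 1, Rg_mono hW.one_mem (abs_nonneg s) (one_mem_Rg_zero W), one_ne_zero,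
        by rw [one_smul]; exact hL.mono hW.one_mem (le_abs_self s) hs⟩
    | zero => exact ⟨0, 1, one_mem_Rg_zero W, one_ne_zero, by simp⟩
    | add x y _ _ hx hy =>
      obtain ⟨a, f, hf, hf0, hfx⟩ := hx
      obtain ⟨a', f', hf', hf0', hfy⟩ := hy
      refine ⟨a + a', f * f', mul_mem_Rg hf hf', mul_ne_zero hf0 hf0', ?_⟩
      rw [smul_add]
      refine Submodule.add_mem _ ?_ ?_
      · rw [mul_comm, mul_smul]
        exact hL.smul_mem' hf' hfx (add_comm _ _)
      · rw [mul_smul]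
        exact hL.smul_mem hf hfy
    | smul c x _ hx =>
      obtain ⟨a, f, hf, hf0, hfx⟩ := hx
      obtain ⟨a', h, hh, hh0, hhc⟩ := hW.frac c
      refine ⟨a' + a, h * f, mul_mem_Rg hh hf, mul_ne_zero hh0 hf0, ?_⟩
      have h1 := hL.smul_mem hhc hfx
      rw [smul_smul] at h1 ⊢
      rwa [mul_right_comm]
  obtain ⟨a, f, hf, hf0, hfv⟩ := key
  exact ⟨a + |t|, f, Rg_mono hW.one_mem (by linarith [abs_nonneg t]) hf, hf0,
    hL.mono hW.one_mem (by linarith [neg_abs_le t]) hfv⟩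

theorem span_singleton_mul_unit (O : Subring K) {u : K} (hu0 : u ≠ 0) (hu : u ∈ O)
    (hu' : u⁻¹ ∈ O) (a : K) : Submodule.span O {u * a} = Submodule.span O {a} := by
  apply le_antisymm
  · rw [Submodule.span_singleton_le_iff_mem]
    exact Submodule.mem_span_singleton.2 ⟨⟨u, hu⟩, rfl⟩
  · rw [Submodule.span_singleton_le_iff_mem]
    refine Submodule.mem_span_singleton.2 ⟨⟨u⁻¹, hu'⟩, ?_⟩
    rw [Subring.smul_def, smul_eq_mul, inv_mul_cancel_left₀ hu0]

theorem spanK_cyc_eq_top (W : Submodule k K) (b : ℤ) {x : K} (hx : x ≠ 0) :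
    spanK K (cyc W b x) = ⊤ := by
  rw [eq_top_iff]
  intro y _
  have h1 : x ∈ spanK K (cyc W b x) :=
    Submodule.subset_span (Set.mem_iUnion.2 ⟨b, self_mem_cyc W b x⟩)
  have h2 := Submodule.smul_mem _ (y * x⁻¹) h1
  rwa [smul_eq_mul, inv_mul_cancel_right₀ hx] at h2

theorem loc_Rg {p : ℤ → Submodule k K} (hp : Ht1 W p) :
    loc W p (Rg W) = Submodule.span (Oloc W p) {(1 : K)} := by
  obtain ⟨g, hg, hg'⟩ := hp.relevant
  rw [← cyc_one, loc_cyc hp.1 hg hg']
  simp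

open Classical in
/-- Two multisets attached to a pair of lattices in the same vector space. -/
theorem lam_pair (hW : Ctx W) (hM : IsFG W M) {r : ℕ}
    (hLF : ∀ q, IsPrimeFam W q → Relevant W q → LF W M r q) (hL : IsFG W L) (hN : IsFG W N)
    (hL' : spanK K L = ⊤) (hN' : spanK K N = ⊤) :
    ∃ S S' : Multiset (ℤ → Submodule k K), (∀ q ∈ S, Ht1 W q) ∧ (∀ q ∈ S', Ht1 W q) ∧
      (∀ p, Ht1 W p → relLen (loc W p L ⊓ loc W p N) (loc W p L) = (S.count p : ℕ) ∧
        relLen (loc W p L ⊓ loc W p N) (loc W p N) = (S'.count p : ℕ)) ∧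
      ∀ᶠ t in atTop, (hf (tens K L M) t - r * hf L t) - (hf (tens K N M) t - r * hf N t) =
        (S.map (cval W M r)).sum - (S'.map (cval W M r)).sum := by
  obtain ⟨S, hS, hlen, hsum⟩ := lam_multiset hW hM hLF hL (hL.isMod.inf hN.isMod) inf_le_left
    fun t v hv => by
      obtain ⟨a, f, hf, hf0, hfv⟩ := hW.tors hN.isMod (v := v) (hN' ▸ Submodule.mem_top) t
      exact ⟨a, f, hf, hf0, hL.isMod.smul_mem hf hv, hfv⟩
  obtain ⟨S', hS', hlen', hsum'⟩ := lam_multiset hW hM hLF hN (hL.isMod.inf hN.isMod) inf_le_right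
    fun t v hv => by
      obtain ⟨a, f, hf, hf0, hfv⟩ := hW.tors hL.isMod (v := v) (hL' ▸ Submodule.mem_top) t
      exact ⟨a, f, hf, hf0, hfv, hN.isMod.smul_mem hf hv⟩
  refine ⟨S, S', hS, hS', fun p hp => ?_, ?_⟩
  · rw [← loc_inf hp.1 hL.isMod hN.isMod]
    exact ⟨hlen p hp, hlen' p hp⟩
  · filter_upwards [hsum, hsum'] with t h1 h2
    linear_combination h1 - h2

theorem relLen_span_ne_top (hW : Ctx W) (hM : IsFG W M) {r : ℕ}
    (hLF : ∀ q, IsPrimeFam W q → Relevant W q → LF W M r q) {p : ℤ → Submodule k K}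
    (hp : Ht1 W p) (a : K) (ha : a ∈ Oloc W p) (ha0 : a ≠ 0) :
    relLen (Submodule.span (Oloc W p) {a}) (Submodule.span (Oloc W p) {(1 : K)}) ≠ ⊤ := by
  obtain ⟨g, hg, hg'⟩ := hp.relevant
  obtain ⟨α, h, hh, hh', hha⟩ := (mem_Oloc hp.1).1 ha
  have hh0 : h ≠ 0 := fun h0 => hh' (h0 ▸ Submodule.zero_mem _)
  have hg0 : g ≠ 0 := fun h0 => hg' (h0 ▸ Submodule.zero_mem _)
  have hgα := zpow_mem_Rg_notMem hp.1 hg hg' (nonneg_of_mem_Rg hh hh0)
  obtain ⟨S, -, hlen, -⟩ := lam_multiset hW hM hLF (isFG_Rg W) (isMod_cyc W α (h * a))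
    (cyc_le (isMod_Rg W) hha) fun t v _ => hW.tors (isMod_cyc W α (h * a))
      ((spanK_cyc_eq_top W α (mul_ne_zero hh0 ha0)) ▸ Submodule.mem_top) t
  have h1 := hlen p hp
  have h2 : g ^ (-α) • (h * a) = h / g ^ α * a := by
    rw [smul_eq_mul, zpow_neg, div_eq_mul_inv]; ring
  rw [loc_Rg hp, loc_cyc hp.1 hg hg', h2, span_singleton_mul_unit _
    (div_ne_zero hh0 (zpow_ne_zero _ hg0)) (div_mem_Oloc hp.1 hh hgα.1 hgα.2)
    (by rw [inv_div]; exact div_mem_Oloc hp.1 hgα.1 hh hh')] at h1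
  rw [h1]
  exact ENat.natCast_ne_top _

theorem lemmaD (hW : Ctx W) (hM : IsFG W M) {r : ℕ}
    (hLF : ∀ q, IsPrimeFam W q → Relevant W q → LF W M r q)
    {ι : Type*} [Fintype ι] [DecidableEq ι] (e : Basis ι K V) (hL : IsFG W L)
    (hspan : spanK K L = ⊤) (h₀ : K) (hh₀ : h₀ ≠ 0) (j : ℕ)
    (hloc : ∀ p, Ht1 W p → ∃ (e' : ι → V) (g c : K), g ∈ W ∧ g ∉ p 1 ∧ c ≠ 0 ∧
      c ∈ Oloc W p ∧ c⁻¹ ∈ Oloc W p ∧
      loc W p L = Submodule.span (Oloc W p) (Set.range e') ∧ e.det e' = c * h₀ * g ^ j) :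
    ∀ᶠ t in atTop, hf (tens K L M) t - r * hf L t =
      ((Fintype.card ι : ℤ) - 1) * (hf M t - r * hf (Rg W) t) +
        (hf M (t + j) - r * hf (Rg W) (t + j)) := by
  classical
  have := hW.fd
  have href : spanK K (gen W (fun _ => 0) e) = ⊤ := by
    rw [eq_top_iff, ← e.span_eq, Submodule.span_le]
    rintro x ⟨i, rfl⟩
    exact Submodule.subset_span (Set.mem_iUnion.2 ⟨0, self_mem_gen W (fun _ => 0) e i⟩)
  obtain ⟨S₁, S₂, hS₁, hS₂, hlen, hsum⟩ :=
    lam_pair hW hM hLF (isFG_gen W (fun _ => 0) e) hL href hspan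
  obtain ⟨S₃, S₄, hS₃, hS₄, hlen', hsum'⟩ :=
    lam_pair hW hM hLF (isFG_cyc W 0 (1 : K)) (isFG_cyc W (-j) h₀)
      (spanK_cyc_eq_top W 0 one_ne_zero) (spanK_cyc_eq_top W _ hh₀)
  have hS : S₂ + S₃ = S₁ + S₄ := by
    refine Multiset.ext.2 fun p => ?_
    rw [Multiset.count_add, Multiset.count_add]
    by_cases hp : Ht1 W p
    · obtain ⟨e', g, c, hg, hg', hc0, hc, hc', hLp, hdet⟩ := hloc p hp
      have hg0 : g ≠ 0 := fun h0 => hg' (h0 ▸ Submodule.zero_mem _)
      have h1 := relLen_det (Oloc W p) (hW.frac_Oloc hp.1 hp.relevant)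
        (relLen_span_ne_top hW hM hLF hp) e e'
        (hdet ▸ mul_ne_zero (mul_ne_zero hc0 hh₀) (pow_ne_zero _ hg0))
      have h2 := hlen p hp
      have h3 := hlen' p hp
      have h4 : loc W p (gen W (fun _ => 0) e) = Submodule.span (Oloc W p) (Set.range e) := by
        rw [loc_gen hp.1 hg hg']
        simp
      have h5 : loc W p (cyc W (-j) h₀) = Submodule.span (Oloc W p) {e.det e'} := by
        rw [loc_cyc hp.1 hg hg', hdet, mul_assoc, span_singleton_mul_unit _ hc0 hc hc']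
        simp [mul_comm]
      rw [h4, hLp] at h2
      rw [cyc_one, loc_Rg hp, h5] at h3
      rw [h2.1, h2.2, h3.1, h3.2] at h1
      exact_mod_cast h1
    · rw [Multiset.count_eq_zero_of_notMem fun h => hp (hS₁ p h),
        Multiset.count_eq_zero_of_notMem fun h => hp (hS₂ p h),
        Multiset.count_eq_zero_of_notMem fun h => hp (hS₃ p h),
        Multiset.count_eq_zero_of_notMem fun h => hp (hS₄ p h)]
  have hS' := congrArg (fun S => (Multiset.map (cval W M r) S).sum) hS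
  simp only [Multiset.map_add, Multiset.sum_add] at hS'
  filter_upwards [hsum, hsum'] with t h1 h2
  rw [hf_tens_gen _ e.linearIndependent hM, hf_gen_of_li _ e.linearIndependent] at h1
  rw [hf_tens_cyc _ one_ne_zero hM, hf_tens_cyc _ hh₀ hM, hf_cyc_of_ne _ one_ne_zero,
    hf_cyc_of_ne _ hh₀] at h2
  simp only [sub_zero, Finset.sum_const, Finset.card_univ, nsmul_eq_mul, sub_neg_eq_add] at h1 h2
  linear_combination hS' - h1 + h2

end Pool.Agent.Lib.MP_cf0da3_ag
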