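import Pool.Agent.Lib.MP_cf0da3_ag.Basic

/-! Noetherian property and Hilbert polynomials of graded families. -/

namespace Pool.Agent.Lib.MP_cf0da3_ag

open Module Filter TensorProduct

variable {k K : Type*} [Field k] [Field K] [Algebra k K] {W : Submodule k K}
  {V : Type*} [AddCommGroup V] [Module K V] [Module k V] [IsScalarTower k K V]
  {L N : ℤ → Submodule k V}

section Rees

open Polynomial

/-- The Rees type algebra generated by `s X`. -/
noncomputable def reesAlg (k : Type*) {K : Type*} [Field k] [Field K] [Algebra k K] (s : Set K) :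
    Subalgebra k K[X] :=
  Algebra.adjoin k ((fun w => monomial 1 w) '' s)

theorem coeff_mem_of_mem_reesAlg {s : Set K} (hs : s ⊆ W) {f : K[X]} (hf : f ∈ reesAlg k s)
    (n : ℕ) : f.coeff n ∈ Rg W n := by
  induction hf using Algebra.adjoin_induction generalizing n with
  | mem x hx =>
    obtain ⟨w, hw, rfl⟩ := hx
    rw [coeff_monomial]
    split_ifs with h
    · subst h
      exact mem_Rg_one (hs hw)
    · exact Submodule.zero_mem _
  | algebraMap r =>
    rw [Polynomial.algebraMap_apply, coeff_C]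
    split_ifs with h
    · subst h
      exact algebraMap_mem_Rg_zero W r
    · exact Submodule.zero_mem _
  | add x y _ _ ihx ihy => rw [coeff_add]; exact Submodule.add_mem _ (ihx n) (ihy n)
  | mul x y _ _ ihx ihy =>
    rw [coeff_mul]
    refine Submodule.sum_mem _ fun c hc => ?_
    have := mul_mem_Rg (ihx c.1) (ihy c.2)
    rwa [← Nat.cast_add, Finset.HasAntidiagonal.mem_antidiagonal.mp hc] at this

theorem monomial_mem_reesAlg {s : Set K} (hs : Submodule.span k s = W) {n : ℕ} {f : K}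
    (hf : f ∈ Rg W n) : monomial n f ∈ reesAlg k s := by
  rw [Rg_natCast] at hf
  induction hf using Submodule.pow_induction_on_left' with
  | algebraMap r =>
    rw [monomial_zero_left, ← Polynomial.algebraMap_apply]
    exact Subalgebra.algebraMap_mem _ r
  | add x y i _ _ ihx ihy => rw [map_add]; exact Subalgebra.add_mem _ ihx ihy
  | mem_mul m hm i x _ ih =>
    have h1 : monomial 1 m ∈ reesAlg k s := by
      rw [← hs] at hm
      induction hm using Submodule.span_induction with
      | mem x hx => exact Algebra.subset_adjoin ⟨x, hx, rfl⟩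
      | zero => rw [map_zero]; exact Subalgebra.zero_mem _
      | add x y _ _ ihx ihy => rw [map_add]; exact Subalgebra.add_mem _ ihx ihy
      | smul c x _ ih => rw [← smul_monomial]; exact Subalgebra.smul_mem _ ih c
    have h2 := Subalgebra.mul_mem _ h1 ih
    rwa [monomial_mul_monomial, add_comm] at h2

/-- The submodule attached to a graded family. -/
def reesMod {s : Set K} (hs : s ⊆ W) (t₀ : ℤ) (N : ℤ → Submodule k V) (hN : IsMod W N) :
    Submodule (reesAlg k s) (PolynomialModule K V) where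
  carrier := {f | ∀ n : ℕ, f.coeff n ∈ N (n + t₀)}
  add_mem' := fun ha hb n => Submodule.add_mem _ (ha n) (hb n)
  zero_mem' := fun _ => Submodule.zero_mem _
  smul_mem' := by
    intro c f hf n
    rw [Subalgebra.smul_def, PolynomialModule.smul_apply]
    refine Submodule.sum_mem _ fun x hx => ?_
    have := hN.smul_mem (coeff_mem_of_mem_reesAlg hs c.2 x.1) (hf x.2)
    rwa [← add_assoc, ← Nat.cast_add, Finset.HasAntidiagonal.mem_antidiagonal.mp hx] at this

theorem single_mem_reesMod {s : Set K} (hs : s ⊆ W) (t₀ : ℤ) (hN : IsMod W N) (n : ℕ) (x : V) :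
    PolynomialModule.single K n x ∈ reesMod hs t₀ N hN ↔ x ∈ N (n + t₀) := by
  constructor
  · intro h
    simpa using h n
  · intro h m
    rw [PolynomialModule.coeff_single, Finsupp.single_apply]
    split_ifs with hm
    · subst hm
      exact h
    · exact Submodule.zero_mem _

theorem reesMod_gen_le {s : Set K} (hs : Submodule.span k s = W) (hs' : s ⊆ W) {n : ℕ}
    (b : Fin n → ℤ) (v : Fin n → V) {t₀ : ℤ} (ht₀ : ∀ i, t₀ ≤ b i) :
    reesMod hs' t₀ (gen W b v) (isMod_gen W b v) ≤ Submodule.span (reesAlg k s)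
      (Set.range fun i => PolynomialModule.single K (b i - t₀).toNat (v i)) := by
  intro f hf
  have h1 : f = ∑ m ∈ f.coeff.support, PolynomialModule.single K m (f.coeff m) := by
    apply PolynomialModule.coeff_injective
    rw [PolynomialModule.coeff_sum]
    simp only [PolynomialModule.coeff_single]
    exact (Finsupp.sum_single f.coeff).symm
  rw [h1]
  refine Submodule.sum_mem _ fun m _ => ?_
  obtain ⟨g, hg, hg'⟩ := mem_gen.mp (hf m)
  rw [← hg']
  have h2 : PolynomialModule.single K m (∑ i, g i • v i) =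
      ∑ i, PolynomialModule.single K m (g i • v i) :=
    map_sum (PolynomialModule.lsingle K m) _ _
  rw [h2]
  refine Submodule.sum_mem _ fun i _ => ?_
  rcases lt_or_ge ((m : ℤ) + t₀ - b i) 0 with h | h
  · have := hg i
    rw [Rg_of_neg W h, Submodule.mem_bot] at this
    simp [this]
  · have h3 : g i ∈ Rg W (((m : ℤ) + t₀ - b i).toNat : ℕ) := by
      rw [Int.toNat_of_nonneg h]
      exact hg i
    have h4 := Submodule.smul_mem (Submodule.span (reesAlg k s)
      (Set.range fun i => PolynomialModule.single K (b i - t₀).toNat (v i)))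
      ⟨_, monomial_mem_reesAlg hs h3⟩ (Submodule.subset_span ⟨i, rfl⟩)
    rw [Subalgebra.smul_def, PolynomialModule.monomial_smul_single] at h4
    have h5 : ((m : ℤ) + t₀ - b i).toNat + (b i - t₀).toNat = m := by
      have := ht₀ i
      omega
    rwa [h5] at h4

end Rees

theorem IsFG.wellFounded_gt' [FiniteDimensional k W] (hL : IsFG W L) :
    WellFounded (fun A B : {N : ℤ → Submodule k V // IsMod W N ∧ N ≤ L} => B.1 < A.1) := by
  obtain ⟨n, b, v, rfl⟩ := hL
  obtain ⟨s, hs⟩ : W.FG := Module.Finite.iff_fg.mp inferInstance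
  have hs' : (s : Set K) ⊆ W := by rw [← hs]; exact Submodule.subset_span
  obtain ⟨t₀, ht₀⟩ := (Set.finite_range b).bddBelow
  have ht₀' : ∀ i, t₀ ≤ b i := fun i => ht₀ ⟨i, rfl⟩
  have hnoeth : IsNoetherianRing (reesAlg k (s : Set K)) := by
    apply isNoetherianRing_of_fg
    exact Subalgebra.fg_def.mpr ⟨_, s.finite_toSet.image _, rfl⟩
  set P := Submodule.span (reesAlg k (s : Set K))
      (Set.range fun i => PolynomialModule.single K (b i - t₀).toNat (v i)) with hP
  have hPn : IsNoetherian (reesAlg k (s : Set K)) P :=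
    isNoetherian_span_of_finite _ (Set.finite_range _)
  have hwf : WellFounded (fun A B : Submodule (reesAlg k (s : Set K)) P => B < A) :=
    wellFounded_gt
  refine Subrelation.wf ?_ (InvImage.wf
    (fun A : {N : ℤ → Submodule k V // IsMod W N ∧ N ≤ gen W b v} =>
      (reesMod hs' t₀ A.1 A.2.1).comap P.subtype) hwf)
  intro A B hAB
  obtain ⟨h1, t, h2⟩ := Pi.lt_def.mp hAB
  obtain ⟨x, hx, hx'⟩ := SetLike.exists_of_lt h2
  have ht : t₀ ≤ t := by
    by_contra hc
    apply hx'
    obtain ⟨g, hg, hg'⟩ := mem_gen.mp (A.2.2 t hx)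
    have : ∀ i, g i = 0 := fun i => by
      have h3 := hg i
      have h4 := ht₀' i
      rwa [Rg_of_neg W (by omega), Submodule.mem_bot] at h3
    rw [← hg']
    simp [this]
  have hm : (((t - t₀).toNat : ℕ) : ℤ) + t₀ = t := by omega
  have hxP : PolynomialModule.single K (t - t₀).toNat x ∈ P := by
    apply reesMod_gen_le hs hs' b v ht₀'
    rw [single_mem_reesMod, hm]
    exact A.2.2 t hx
  refine lt_of_le_of_ne (Submodule.comap_mono fun f hf m => h1 _ (hf m)) fun heq => hx' ?_
  have h3 : (⟨_, hxP⟩ : P) ∈ (reesMod hs' t₀ A.1 A.2.1).comap P.subtype := by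
    rw [Submodule.mem_comap, Submodule.subtype_apply, single_mem_reesMod, hm]
    exact hx
  have heq' : (reesMod hs' t₀ B.1 B.2.1).comap P.subtype =
      (reesMod hs' t₀ A.1 A.2.1).comap P.subtype := heq
  rw [← heq', Submodule.mem_comap, Submodule.subtype_apply, single_mem_reesMod, hm] at h3
  exact h3

theorem isFG_bot (W : Submodule k K) : IsFG W (⊥ : ℤ → Submodule k V) := by
  refine ⟨0, fun _ => 0, fun _ => 0, ?_⟩
  funext t
  exact (iSup_of_empty _).symm

/-- Hilbert basis theorem. -/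
theorem IsFG.of_le [FiniteDimensional k W] (hL : IsFG W L) (hN : IsMod W N) (h : N ≤ L) :
    IsFG W N := by
  obtain ⟨A, ⟨hA1, hA2⟩, hmax⟩ := hL.wellFounded_gt'.has_min {A | IsFG W A.1 ∧ A.1 ≤ N}
    ⟨⟨⊥, (isFG_bot W).isMod, bot_le⟩, isFG_bot W, bot_le⟩
  suffices hAN : A.1 = N by rwa [← hAN]
  by_contra hne
  obtain ⟨-, t, h2⟩ := Pi.lt_def.mp (lt_of_le_of_ne hA2 hne)
  obtain ⟨x, hx, hx'⟩ := SetLike.exists_of_lt h2
  have hle : A.1 ⊔ cyc W t x ≤ N := sup_le hA2 (cyc_le hN hx)
  have hfg := hA1.sup (isFG_cyc W t x)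
  refine hmax ⟨A.1 ⊔ cyc W t x, hfg.isMod, hle.trans h⟩ ⟨hfg, hle⟩ ?_
  refine lt_of_le_of_ne le_sup_left fun heq => hx' ?_
  have h3 : x ∈ (A.1 ⊔ cyc W t x) t := Submodule.mem_sup_right (self_mem_cyc W t x)
  have h4 : A.1 = A.1 ⊔ cyc W t x := heq
  rwa [← h4] at h3

/-- Ascending chain condition for graded submodules of a finitely generated graded module. -/
theorem IsFG.wellFounded_gt [FiniteDimensional k W] (hL : IsFG W L) :
    WellFounded (fun A B : {N : ℤ → Submodule k V // IsMod W N ∧ N ≤ L} => B.1 < A.1) :=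
  hL.wellFounded_gt'

theorem finrank_map_add_inf_ker {V' : Type*} [AddCommGroup V'] [Module k V'] {V : Type*}
    [AddCommGroup V] [Module k V] (φ : V' →ₗ[k] V) (A : Submodule k V')
    [FiniteDimensional k A] :
    finrank k (A.map φ) + finrank k (A ⊓ LinearMap.ker φ : Submodule k V') = finrank k A := by
  have h := LinearMap.finrank_range_add_finrank_ker (φ.domRestrict A)
  rw [LinearMap.range_domRestrict, LinearMap.ker_domRestrict,
    ← Submodule.finrank_map_subtype_eq A, Submodule.map_comap_subtype] at h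
  exact h

theorem finrank_sup_map {V' : Type*} [AddCommGroup V'] [Module k V'] {V : Type*}
    [AddCommGroup V] [Module k V] (φ : V' →ₗ[k] V) (A : Submodule k V') (B : Submodule k V)
    [FiniteDimensional k A] [FiniteDimensional k B] :
    finrank k (B ⊔ A.map φ : Submodule k V) + finrank k (A ⊓ B.comap φ : Submodule k V') =
      finrank k B + finrank k A := by
  have : FiniteDimensional k (A ⊓ B.comap φ : Submodule k V') :=
    Submodule.finiteDimensional_of_le inf_le_left
  have h1 := Submodule.finrank_sup_add_finrank_inf_eq B (A.map φ)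
  have h2 := finrank_map_add_inf_ker φ A
  have h3 := finrank_map_add_inf_ker φ (A ⊓ B.comap φ)
  have h4 : (A ⊓ B.comap φ).map φ = B ⊓ A.map φ := by
    rw [← Submodule.map_inf_eq_map_inf_comap, inf_comm]
  have h5 : A ⊓ B.comap φ ⊓ LinearMap.ker φ = A ⊓ LinearMap.ker φ := by
    rw [inf_assoc, inf_eq_right.mpr (LinearMap.ker_le_comap φ)]
  rw [h4, h5] at h3
  omega

/-- The `s`-th difference vanishes eventually. -/
def DiffOrd : ℕ → (ℤ → ℤ) → Prop
  | 0, f => ∀ᶠ t in atTop, f t = 0
  | s + 1, f => DiffOrd s fun t => f (t + 1) - f t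

theorem DiffOrd.sub_shift {s : ℕ} {f g : ℤ → ℤ} (hf : DiffOrd s f) (hg : DiffOrd s g) :
    DiffOrd s fun t => f (t + 1) - g t := by
  induction s generalizing f g with
  | zero =>
    have h1 : ∀ᶠ t in atTop, f (t + 1) = 0 :=
      (tendsto_atTop_add_const_right atTop 1 tendsto_id).eventually hf
    filter_upwards [h1, hg] with t h2 h3
    rw [h2, h3, sub_zero]
  | succ s ih =>
    have h := ih hf hg
    show DiffOrd s fun t => (f (t + 1 + 1) - g (t + 1)) - (f (t + 1) - g t)
    have heq : (fun t => (f (t + 1 + 1) - g (t + 1)) - (f (t + 1) - g t)) =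
        fun t => (f (t + 1 + 1) - f (t + 1)) - (g (t + 1) - g t) := by
      funext t
      ring
    rw [heq]
    exact h

theorem exists_const_of_diff {f g : ℤ → ℚ}
    (h : ∀ᶠ t in atTop, f (t + 1) - f t = g (t + 1) - g t) :
    ∃ c : ℚ, ∀ᶠ t in atTop, f t = g t + c := by
  obtain ⟨T, hT⟩ := eventually_atTop.mp h
  refine ⟨f T - g T, eventually_atTop.mpr ⟨T, fun t ht => ?_⟩⟩
  induction t, ht using Int.leInduction with
  | base => ring
  | succ t ht ih =>
    have := hT t ht
    linarith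

theorem DiffOrd.evQuad {f : ℤ → ℤ} (h : DiffOrd 3 f) : EvQuad f := by
  have h0 : ∀ᶠ t in atTop, ((f (t + 1 + 1 + 1) - f (t + 1 + 1)) - (f (t + 1 + 1) - f (t + 1))) -
      ((f (t + 1 + 1) - f (t + 1)) - (f (t + 1) - f t)) = 0 := h
  obtain ⟨c₂, h2⟩ := exists_const_of_diff
    (f := fun t => ((f (t + 1 + 1) : ℚ) - f (t + 1)) - (f (t + 1) - f t)) (g := fun _ => 0) (by
      filter_upwards [h0] with t ht
      rw [sub_self]
      exact_mod_cast ht)
  obtain ⟨c₁, h1⟩ := exists_const_of_diff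
    (f := fun t => (f (t + 1) : ℚ) - f t) (g := fun t => c₂ * t) (by
      filter_upwards [h2] with t ht
      push_cast
      linarith)
  obtain ⟨c₀, h3⟩ := exists_const_of_diff
    (f := fun t => (f t : ℚ)) (g := fun t => c₂ / 2 * (t : ℚ) ^ 2 + (c₁ - c₂ / 2) * t) (by
      filter_upwards [h1] with t ht
      push_cast
      linarith)
  exact ⟨c₂ / 2, c₁ - c₂ / 2, c₀, h3⟩

theorem sup_gen_eq_of_kill {y : K} {s : Set K} {M : ℤ → Submodule k V}
    (hN : IsMod (Submodule.span k (insert y s)) N) (hM : IsMod (Submodule.span k (insert y s)) M)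
    (hNM : N ≤ M) (hy : ∀ t, ∀ x ∈ M t, y • x ∈ N (t + 1)) {ι : Type*} {b : ι → ℤ} {v : ι → V}
    (hv : ∀ i, v i ∈ M (b i)) :
    N ⊔ gen (Submodule.span k (insert y s)) b v = N ⊔ gen (Submodule.span k s) b v := by
  have hle : Submodule.span k s ≤ Submodule.span k (insert y s) :=
    Submodule.span_mono (Set.subset_insert _ _)
  apply le_antisymm
  · refine sup_le le_sup_left (gen_le ?_ fun i => Submodule.mem_sup_right (self_mem_gen _ b v i))
    have hP : IsMod (Submodule.span k s) (N ⊔ gen (Submodule.span k s) b v) :=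
      (hN.of_le hle).sup (isMod_gen _ b v)
    have hPM : N ⊔ gen (Submodule.span k s) b v ≤ M := sup_le hNM (gen_le (hM.of_le hle) hv)
    intro t w hw x hx
    obtain ⟨c, z, hz, rfl⟩ := Submodule.mem_span_insert.mp hw
    rw [add_smul, smul_assoc]
    exact Submodule.add_mem _
      (Submodule.smul_mem _ c (Submodule.mem_sup_left (hy t x (hPM t hx)))) (hP t z hz x hx)
  · exact sup_le_sup_left (gen_le ((isMod_gen _ b v).of_le hle) (self_mem_gen _ b v)) _

theorem diffOrd_hf (ys : List K) : ∀ (N L : ℤ → Submodule k V),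
    IsMod (Submodule.span k {x | x ∈ ys}) N → (∀ t, FiniteDimensional k (L t)) →
    ∀ (n : ℕ) (b : Fin n → ℤ) (v : Fin n → V),
      L = N ⊔ gen (Submodule.span k {x | x ∈ ys}) b v →
      DiffOrd ys.length fun t => hf L t - hf N t := by
  induction ys with
  | nil =>
    intro N L _ _ n b v hL
    obtain ⟨T, hT⟩ := (Set.finite_range b).bddAbove
    refine eventually_atTop.mpr ⟨T + 1, fun t ht => ?_⟩
    have h1 : gen (Submodule.span k {x : K | x ∈ ([] : List K)}) b v t = ⊥ := by
      unfold gen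
      rw [iSup_eq_bot]
      intro i
      have h2 : b i ≤ T := hT ⟨i, rfl⟩
      have h3 : (t - b i).toNat ≠ 0 := by omega
      simp [cyc, Rg, Submodule.bot_pow h3]
    have h2 : L t = N t := by
      rw [hL, Pi.sup_apply, h1, sup_bot_eq]
    show hf L t - hf N t = 0
    unfold hf
    rw [h2, sub_self]
  | cons y ys ih =>
    intro N L hN hfd n b v hL
    have hset : {x | x ∈ y :: ys} = insert y {x | x ∈ ys} := by
      ext x
      simp
    rw [hset] at hN hL
    set s : Set K := {x | x ∈ ys} with hs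
    have hle : Submodule.span k s ≤ Submodule.span k (insert y s) :=
      Submodule.span_mono (Set.subset_insert _ _)
    have hyW : y ∈ Submodule.span k (insert y s) := Submodule.subset_span (Set.mem_insert _ _)
    have : FiniteDimensional k (Submodule.span k (insert y s)) :=
      FiniteDimensional.span_of_finite k ((List.finite_toSet ys).insert y)
    have hLm : IsMod (Submodule.span k (insert y s)) L := by
      rw [hL]
      exact hN.sup (isMod_gen _ b v)
    have hNL : N ≤ L := by rw [hL]; exact le_sup_left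
    have hGL : gen (Submodule.span k (insert y s)) b v ≤ L := by rw [hL]; exact le_sup_right
    let μ : V →ₗ[k] V := (LinearMap.lsmul K V y).restrictScalars k
    have hμ : ∀ x, μ x = y • x := fun x => rfl
    let N₁ : ℤ → Submodule k V := fun t => N t ⊔ (L (t - 1)).map μ
    let Kk : ℤ → Submodule k V := fun t => L t ⊓ (N (t + 1)).comap μ
    have hN₁m : IsMod (Submodule.span k (insert y s)) N₁ := by
      intro t w hw x hx
      obtain ⟨x₁, hx₁, x₂, ⟨z, hz, rfl⟩, rfl⟩ := Submodule.mem_sup.mp hx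
      rw [smul_add]
      refine Submodule.add_mem_sup (hN t w hw x₁ hx₁) ⟨w • z, ?_, ?_⟩
      · have := hLm _ w hw z hz
        rwa [show t - 1 + 1 = t + 1 - 1 by ring] at this
      · rw [hμ, hμ, smul_comm]
    have hN₁L : N₁ ≤ L := by
      intro t
      refine sup_le (hNL t) ?_
      rintro x ⟨z, hz, rfl⟩
      have := hLm _ y hyW z hz
      rwa [sub_add_cancel] at this
    have hNN₁ : N ≤ N₁ := fun t => le_sup_left
    have hL₁ : L = N₁ ⊔ gen (Submodule.span k s) b v := by
      rw [← sup_gen_eq_of_kill hN₁m hLm hN₁L ?_ fun i => hGL _ (self_mem_gen _ b v i)]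
      · refine le_antisymm ?_ (sup_le hN₁L hGL)
        rw [hL]
        exact sup_le_sup_right hNN₁ _
      · intro t x hx
        exact Submodule.mem_sup_right ⟨x, by rwa [add_sub_cancel_right], rfl⟩
    have hKm : IsMod (Submodule.span k (insert y s)) Kk := by
      intro t w hw x hx
      refine ⟨hLm t w hw x hx.1, ?_⟩
      have := hN _ w hw _ hx.2
      rw [hμ, smul_comm] at this
      exact this
    have hNK : N ≤ Kk := fun t x hx => ⟨hNL t hx, hN t y hyW x hx⟩
    have hKL : Kk ≤ L := fun t => inf_le_left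
    obtain ⟨n', b', v', hK'⟩ : IsFG (Submodule.span k (insert y s))
        (Kk ⊓ gen (Submodule.span k (insert y s)) b v) :=
      (isFG_gen _ b v).of_le (hKm.inf (isMod_gen _ b v)) inf_le_right
    have hK₁ : Kk = N ⊔ gen (Submodule.span k s) b' v' := by
      rw [← sup_gen_eq_of_kill hN hKm hNK (fun t x hx => hx.2) fun i => ?_, ← hK']
      · funext t
        rw [Pi.sup_apply, Pi.inf_apply, inf_comm, ← sup_inf_assoc_of_le _ (hNK t)]
        have h1 := hKL t
        rw [hL, Pi.sup_apply] at h1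
        exact (inf_eq_right.mpr h1).symm
      · have := self_mem_gen (Submodule.span k (insert y s)) b' v' i
        rw [← hK'] at this
        exact this.1
    have h1 := ih N₁ L (hN₁m.of_le hle) hfd n b v hL₁
    have h2 := ih N Kk (hN.of_le hle)
      (fun t => Submodule.finiteDimensional_of_le (hKL t)) n' b' v' hK₁
    have h3 := h1.sub_shift h2
    show DiffOrd ys.length fun t => (hf L (t + 1) - hf N (t + 1)) - (hf L t - hf N t)
    have heq : (fun t => (hf L (t + 1) - hf N (t + 1)) - (hf L t - hf N t)) =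
        fun t => (hf L (t + 1) - hf N₁ (t + 1)) - (hf Kk t - hf N t) := by
      funext t
      have := hfd t
      have := hfd (t + 1)
      have : FiniteDimensional k (N (t + 1)) := Submodule.finiteDimensional_of_le (hNL (t + 1))
      have h4 := finrank_sup_map μ (L t) (N (t + 1))
      have h5 : N₁ (t + 1) = N (t + 1) ⊔ (L t).map μ := by
        simp only [N₁, add_sub_cancel_right]
      have h6 : Kk t = L t ⊓ (N (t + 1)).comap μ := rfl
      simp only [hf]
      rw [h5, h6]
      omega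
    rw [heq]
    exact h3

/-- Hilbert polynomial over the polynomial ring in three variables. -/
theorem evQuad_of_isFG_U3 (s : Fin 2 → K) (hL : IsFG (U3 k s) L) : EvQuad (hf L) := by
  have hfd := hL.finiteDimensional
  obtain ⟨n, b, v, hL'⟩ := hL
  have hU : U3 k s = Submodule.span k {x | x ∈ [1, s 0, s 1]} := by
    unfold U3
    congr 1
    ext x
    simp
  have h := diffOrd_hf [1, s 0, s 1] ⊥ L (isFG_bot _).isMod hfd n b v (by rw [← hU, hL']; simp)
  have heq : (fun t => hf L t - hf (⊥ : ℤ → Submodule k V) t) = hf L := by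
    funext t
    rw [hf_eq_zero_of_eq_bot (A := (⊥ : ℤ → Submodule k V)) rfl, sub_zero]
  rw [heq] at h
  exact DiffOrd.evQuad h

theorem Ctx.evQuad (hW : Ctx W) (hL : IsFG W L) : EvQuad (hf L) := by
  obtain ⟨s, -, hs⟩ := hW.quad
  exact evQuad_of_isFG_U3 s (hs.trans hL)

/-- Comparison of quadratic polynomials along an arithmetic progression. -/
theorem quad_le_of_eventually {a₂ a₁ a₀ b₂ b₁ b₀ : ℚ} {n : ℕ} (hn : 0 < n)
    (h : ∀ᶠ j : ℤ in atTop, a₂ * ((n : ℚ) * j) ^ 2 + a₁ * ((n : ℚ) * j) + a₀ ≤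
      b₂ * ((n : ℚ) * j) ^ 2 + b₁ * ((n : ℚ) * j) + b₀) :
    a₂ ≤ b₂ ∧ (a₂ = b₂ → a₁ ≤ b₁ ∧ (a₁ = b₁ → a₀ ≤ b₀)) := by
  have hn' : (0 : ℚ) < n := by exact_mod_cast hn
  have hx : ∀ C : ℚ, ∃ x : ℚ, C < x ∧ 1 < x ∧
      a₂ * x ^ 2 + a₁ * x + a₀ ≤ b₂ * x ^ 2 + b₁ * x + b₀ := by
    intro C
    have ht : Tendsto (fun j : ℤ => (n : ℚ) * j) atTop atTop :=
      tendsto_intCast_atTop_atTop.const_mul_atTop hn'
    obtain ⟨j, h1, h2, h3⟩ :=
      ((ht.eventually_gt_atTop C).and ((ht.eventually_gt_atTop 1).and h)).exists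
    exact ⟨_, h1, h2, h3⟩
  refine ⟨?_, fun e2 => ⟨?_, fun e1 => ?_⟩⟩
  · by_contra hc
    have hd : 0 < a₂ - b₂ := by linarith [not_le.mp hc]
    obtain ⟨x, h1, h2, h3⟩ := hx ((|b₁ - a₁| + |b₀ - a₀|) / (a₂ - b₂))
    rw [div_lt_iff₀ hd] at h1
    have h4 := le_abs_self (b₁ - a₁)
    have h5 := le_abs_self (b₀ - a₀)
    have h6 := abs_nonneg (b₀ - a₀)
    nlinarith [mul_lt_mul_of_pos_left h1 (show 0 < x by linarith),
      mul_le_mul_of_nonneg_left h4 (show 0 ≤ x by linarith),
      mul_nonneg h6 (show 0 ≤ x - 1 by linarith)]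
  · by_contra hc
    have hd : 0 < a₁ - b₁ := by linarith [not_le.mp hc]
    obtain ⟨x, h1, -, h3⟩ := hx ((b₀ - a₀) / (a₁ - b₁))
    rw [div_lt_iff₀ hd] at h1
    rw [e2] at h3
    nlinarith
  · obtain ⟨x, -, -, h3⟩ := hx 0
    rw [e2, e1] at h3
    linarith

theorem quad_le_of_eventually' {a₂ a₁ a₀ b₂ b₁ b₀ : ℚ}
    (h : ∀ᶠ t : ℤ in atTop, a₂ * (t : ℚ) ^ 2 + a₁ * t + a₀ ≤ b₂ * (t : ℚ) ^ 2 + b₁ * t + b₀) :
    a₂ ≤ b₂ ∧ (a₂ = b₂ → a₁ ≤ b₁ ∧ (a₁ = b₁ → a₀ ≤ b₀)) :=
  quad_le_of_eventually (n := 1) one_pos (by simpa using h)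

theorem quad_eq_of_eventually {a₂ a₁ a₀ b₂ b₁ b₀ : ℚ} {n : ℕ} (hn : 0 < n)
    (h : ∀ᶠ j : ℤ in atTop, a₂ * ((n : ℚ) * j) ^ 2 + a₁ * ((n : ℚ) * j) + a₀ =
      b₂ * ((n : ℚ) * j) ^ 2 + b₁ * ((n : ℚ) * j) + b₀) :
    a₂ = b₂ ∧ a₁ = b₁ ∧ a₀ = b₀ := by
  obtain ⟨h2, h2'⟩ := quad_le_of_eventually hn (h.mono fun _ h => h.le)
  obtain ⟨g2, g2'⟩ := quad_le_of_eventually hn (h.mono fun _ h => h.ge)
  have e2 := le_antisymm h2 g2
  obtain ⟨h1, h1'⟩ := h2' e2
  obtain ⟨g1, g1'⟩ := g2' e2.symm
  have e1 := le_antisymm h1 g1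
  exact ⟨e2, e1, le_antisymm (h1' e1) (g1' e1.symm)⟩

end Pool.Agent.Lib.MP_cf0da3_ag
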