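import Pool.Agent.Lib.MP_cf0da3_ag.Noeth

/-! The polynomial ring in three variables, dehomogenised inside `k(s₀, s₁)`. -/

namespace Pool.Agent.Lib.MP_cf0da3_ag

open Module Filter TensorProduct

variable {k K : Type*} [Field k] [Field K] [Algebra k K] {s : Fin 2 → K}

@[simp] theorem ev3_X0 (s : Fin 2 → K) : ev3 k s (MvPolynomial.X 0) = 1 := by simp [ev3]

@[simp] theorem ev3_X1 (s : Fin 2 → K) : ev3 k s (MvPolynomial.X 1) = s 0 := by simp [ev3]

@[simp] theorem ev3_X2 (s : Fin 2 → K) : ev3 k s (MvPolynomial.X 2) = s 1 := by simp [ev3]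

theorem U3_eq_map (s : Fin 2 → K) :
    U3 k s = (MvPolynomial.homogeneousSubmodule (Fin 3) k 1).map (ev3 k s).toLinearMap := by
  rw [MvPolynomial.homogeneousSubmodule_one_eq_span_X, Submodule.map_span, U3]
  congr 1
  ext x
  simp only [Set.mem_insert_iff, Set.mem_singleton_iff, Set.mem_image, Set.mem_range,
    exists_exists_eq_and, AlgHom.toLinearMap_apply]
  constructor
  · rintro (rfl | rfl | rfl)
    exacts [⟨0, ev3_X0 s⟩, ⟨1, ev3_X1 s⟩, ⟨2, ev3_X2 s⟩]
  · rintro ⟨i, rfl⟩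
    fin_cases i <;> simp

theorem Rg_U3_eq_map (s : Fin 2 → K) (a : ℕ) :
    Rg (U3 k s) (a : ℤ) =
      (MvPolynomial.homogeneousSubmodule (Fin 3) k a).map (ev3 k s).toLinearMap := by
  rw [Rg_natCast, U3_eq_map, ← Submodule.map_pow, MvPolynomial.homogeneousSubmodule_one_pow]

theorem mem_Rg_U3_iff (s : Fin 2 → K) (a : ℕ) (x : K) :
    x ∈ Rg (U3 k s) (a : ℤ) ↔
      ∃ f : MvPolynomial (Fin 3) k, f.IsHomogeneous a ∧ ev3 k s f = x := by
  rw [Rg_U3_eq_map]
  rfl

theorem ev3_mem_Rg (s : Fin 2 → K) {a : ℕ} {f : MvPolynomial (Fin 3) k}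
    (hf : f.IsHomogeneous a) : ev3 k s f ∈ Rg (U3 k s) (a : ℤ) :=
  (mem_Rg_U3_iff s a _).mpr ⟨f, hf, rfl⟩

theorem exists_homog_of_mem_Rg {t : ℤ} {x : K} (hx : x ∈ Rg (U3 k s) t) (h0 : x ≠ 0) :
    ∃ (n : ℕ) (f : MvPolynomial (Fin 3) k), (n : ℤ) = t ∧ f.IsHomogeneous n ∧ ev3 k s f = x := by
  have ht := nonneg_of_mem_Rg hx h0
  lift t to ℕ using ht
  obtain ⟨f, hf, h⟩ := (mem_Rg_U3_iff s t x).mp hx
  exact ⟨t, f, rfl, hf, h⟩

theorem ev3_eq_zero (hs : AlgebraicIndependent k s) {a : ℕ} {f : MvPolynomial (Fin 3) k}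
    (hf : f.IsHomogeneous a) (h : ev3 k s f = 0) : f = 0 := by
  let deh : MvPolynomial (Fin 3) k →ₐ[k] MvPolynomial (Fin 2) k :=
    MvPolynomial.aeval ![1, MvPolynomial.X 0, MvPolynomial.X 1]
  have h1 : ev3 k s = (MvPolynomial.aeval s).comp deh := by
    apply MvPolynomial.algHom_ext
    intro i
    fin_cases i <;> simp [deh]
  have h2 : deh f = 0 := by
    apply hs
    rw [map_zero, ← h, h1]
    rfl
  let L := FractionRing (MvPolynomial (Fin 3) k)
  let ι : MvPolynomial (Fin 3) k →ₐ[k] L := IsScalarTower.toAlgHom k _ L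
  have hι : Function.Injective ι := IsFractionRing.injective (MvPolynomial (Fin 3) k) L
  have hX : ι (MvPolynomial.X 0) ≠ 0 := by
    rw [Ne, map_eq_zero_iff ι hι]
    exact MvPolynomial.X_ne_zero _
  let ψ : MvPolynomial (Fin 2) k →ₐ[k] L :=
    MvPolynomial.aeval ![ι (MvPolynomial.X 1) / ι (MvPolynomial.X 0),
      ι (MvPolynomial.X 2) / ι (MvPolynomial.X 0)]
  have key1 : ∀ m ∈ MvPolynomial.homogeneousSubmodule (Fin 3) k 1,
      ι (MvPolynomial.X 0) * ψ (deh m) = ι m := by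
    intro m hm
    rw [MvPolynomial.homogeneousSubmodule_one_eq_span_X] at hm
    induction hm using Submodule.span_induction with
    | mem x hx =>
      obtain ⟨i, rfl⟩ := hx
      fin_cases i
      · simp [deh]
      · simp [deh, ψ, mul_div_cancel₀ _ hX]
      · simp [deh, ψ, mul_div_cancel₀ _ hX]
    | zero => simp
    | add x y _ _ hx hy => simp only [map_add, mul_add, hx, hy]
    | smul c x _ hx => simp only [map_smul, mul_smul_comm, hx]
  have key : ∀ (n : ℕ) (g : MvPolynomial (Fin 3) k),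
      g ∈ MvPolynomial.homogeneousSubmodule (Fin 3) k 1 ^ n →
      ι (MvPolynomial.X 0) ^ n * ψ (deh g) = ι g := by
    intro n g hg
    induction hg using Submodule.pow_induction_on_left' with
    | algebraMap r => simp only [pow_zero, one_mul, AlgHom.commutes]
    | add x y i hx hy ihx ihy => simp only [map_add, mul_add, ihx, ihy]
    | mem_mul m hm i x hx ih =>
      rw [map_mul, map_mul, map_mul, ← key1 m hm, ← ih, pow_succ]
      ring
  have h3 := key a f (by rw [MvPolynomial.homogeneousSubmodule_one_pow]; exact hf)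
  rw [h2, map_zero, mul_zero] at h3
  exact (map_eq_zero_iff ι hι).mp h3.symm

theorem ev3_inj (hs : AlgebraicIndependent k s) {a b : ℕ} {f g : MvPolynomial (Fin 3) k}
    (hf : f.IsHomogeneous a) (hg : g.IsHomogeneous b) (hab : a = b)
    (h : ev3 k s f = ev3 k s g) : f = g := by
  subst hab
  rw [← sub_eq_zero]
  exact ev3_eq_zero hs (hf.sub hg) (by rw [map_sub, h, sub_self])

theorem ev3_ne_zero (hs : AlgebraicIndependent k s) {a : ℕ} {f : MvPolynomial (Fin 3) k}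
    (hf : f.IsHomogeneous a) (h : f ≠ 0) : ev3 k s f ≠ 0 :=
  fun h0 => h (ev3_eq_zero hs hf h0)

theorem finrank_homogeneousSubmodule_three (a : ℕ) :
    finrank k (MvPolynomial.homogeneousSubmodule (Fin 3) k a) = (a + 2).choose 2 := by
  classical
  have h1 : MvPolynomial.homogeneousSubmodule (Fin 3) k a =
      MvPolynomial.restrictSupport k
        ((Finset.univ.finsuppAntidiag a : Finset (Fin 3 →₀ ℕ)) : Set (Fin 3 →₀ ℕ)) := by
    rw [MvPolynomial.homogeneousSubmodule_eq_finsupp_supported, MvPolynomial.restrictSupport]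
    congr 1
    ext d
    simp [Finset.mem_finsuppAntidiag, Finsupp.degree_eq_sum]
  rw [h1, finrank_eq_card_basis (MvPolynomial.basisRestrictSupport k _)]
  simp only [Finset.coe_sort_coe, Fintype.card_coe]
  rw [Finset.card_finsuppAntidiag_nat_eq_choose]
  simp only [Finset.card_univ, Fintype.card_fin]
  rw [show 3 + a - 1 = a + 2 by omega, ← Nat.choose_symm (by omega : 2 ≤ a + 2)]
  simp

theorem hf_Rg_U3 (hs : AlgebraicIndependent k s) (t : ℤ) : hf (Rg (U3 k s)) t = al t := by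
  rcases lt_or_ge t 0 with ht | ht
  · rw [hf_eq_zero_of_eq_bot (Rg_of_neg _ ht), al, if_neg (by omega)]
  lift t to ℕ using ht
  have h1 : finrank k (Rg (U3 k s) (t : ℤ)) =
      finrank k (MvPolynomial.homogeneousSubmodule (Fin 3) k t) := by
    rw [Rg_U3_eq_map, ← LinearMap.range_domRestrict]
    apply LinearMap.finrank_range_of_inj
    rw [injective_iff_map_eq_zero]
    intro f hf
    exact Subtype.ext (ev3_eq_zero hs f.2 hf)
  rw [hf, h1, finrank_homogeneousSubmodule_three, al, if_pos (by omega), Nat.choose_two_right]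
  push_cast
  rw [mul_comm]

theorem two_mul_al {x : ℤ} (hx : -2 ≤ x) : 2 * al x = (x + 1) * (x + 2) := by
  unfold al
  split_ifs with h
  · have : Even ((x + 1) * (x + 2)) := by
      have := Int.even_mul_succ_self (x + 1)
      rwa [add_assoc, one_add_one_eq_two] at this
    obtain ⟨c, hc⟩ := this
    omega
  · have : x = -1 ∨ x = -2 := by omega
    rcases this with rfl | rfl <;> norm_num

theorem al_of_neg {x : ℤ} (hx : x < 0) : al x = 0 := by
  rw [al, if_neg (by omega)]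

theorem al_nonneg (x : ℤ) : 0 ≤ al x := by
  rcases lt_or_ge x 0 with h | h
  · rw [al_of_neg h]
  · have := two_mul_al (x := x) (by omega)
    nlinarith

theorem two_mul_al_add (x : ℤ) : 2 * (al x + al (-x - 3)) = (x + 1) * (x + 2) := by
  rcases lt_or_ge x 0 with h | h
  · rw [al_of_neg h, zero_add, two_mul_al (by omega)]
    ring
  · rw [al_of_neg (x := -x - 3) (by omega), add_zero, two_mul_al (by omega)]

theorem al_mono {x y : ℤ} (h : x ≤ y) : al x ≤ al y := by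
  rcases lt_or_ge x 0 with hx | hx
  · rw [al_of_neg hx]
    exact al_nonneg y
  · have h1 := two_mul_al (x := x) (by omega)
    have h2 := two_mul_al (x := y) (by omega)
    nlinarith

theorem al_succ_sub (u : ℤ) : al (u + 1) - al u = max (u + 2) 0 := by
  rcases lt_or_ge u (-2) with h | h
  · rw [al_of_neg (x := u) (by omega), al_of_neg (x := u + 1) (by omega)]
    omega
  · have h1 := two_mul_al (x := u) (by omega)
    have h2 := two_mul_al (x := u + 1) (by omega)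
    rw [max_eq_left (by omega)]
    nlinarith

theorem exists_aeval_mem_Rg (s : Fin 2 → K) (r : MvPolynomial (Fin 2) k) :
    ∃ a : ℤ, MvPolynomial.aeval s r ∈ Rg (U3 k s) a := by
  induction r using MvPolynomial.induction_on with
  | C c => exact ⟨0, by simpa using algebraMap_mem_Rg_zero (U3 k s) c⟩
  | add p q hp hq =>
    obtain ⟨a, ha⟩ := hp
    obtain ⟨b, hb⟩ := hq
    refine ⟨max a b, ?_⟩
    rw [map_add]
    exact Submodule.add_mem _ (Rg_mono (one_mem_U3 s) (le_max_left a b) ha)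
      (Rg_mono (one_mem_U3 s) (le_max_right a b) hb)
  | mul_X p i hp =>
    obtain ⟨a, ha⟩ := hp
    refine ⟨a + 1, ?_⟩
    rw [map_mul, MvPolynomial.aeval_X]
    exact mul_mem_Rg ha (mem_Rg_one (s_mem_U3 s i))

theorem ctx_U3 (htop : IntermediateField.adjoin k (Set.range s) = ⊤) : Ctx (U3 k s) := by
  refine ⟨inferInstance, one_mem_U3 s, fun x => ?_, s, s_mem_U3 s, isFG_Rg _⟩
  have hx : x ∈ IntermediateField.adjoin k (Set.range s) := by rw [htop]; trivial
  obtain ⟨r, q, rfl⟩ := (IntermediateField.mem_adjoin_range_iff k s x).mp hx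
  by_cases hq : MvPolynomial.aeval s q = 0
  · exact ⟨0, 1, one_mem_Rg_zero _, one_ne_zero, by simp [hq]⟩
  obtain ⟨a, ha⟩ := exists_aeval_mem_Rg s r
  obtain ⟨b, hb⟩ := exists_aeval_mem_Rg s q
  refine ⟨max a b, _, Rg_mono (one_mem_U3 s) (le_max_right a b) hb, hq, ?_⟩
  rw [mul_div_cancel₀ _ hq]
  exact Rg_mono (one_mem_U3 s) (le_max_left a b) ha

/-- The quotient of two forms is a form. -/
theorem exists_homog_quot {a n : ℕ} {f g : MvPolynomial (Fin 3) k} (hf : f.IsHomogeneous a)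
    (hg : g.IsHomogeneous n) (h : f ∣ g) :
    g = 0 ∨ ∃ (m : ℕ) (u : MvPolynomial (Fin 3) k), a + m = n ∧ u.IsHomogeneous m ∧ g = f * u := by
  classical
  obtain ⟨u, rfl⟩ := h
  let _ := MvPolynomial.gradedAlgebra (σ := Fin 3) (R := k)
  have h1 : ∀ (φ : MvPolynomial (Fin 3) k) (i : ℕ),
      (DirectSum.decompose (MvPolynomial.homogeneousSubmodule (Fin 3) k) φ i :
        MvPolynomial (Fin 3) k) = MvPolynomial.homogeneousComponent i φ :=
    fun φ i => MvPolynomial.decomposition.decompose'_apply φ i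
  have h2 := DirectSum.coe_decompose_mul_of_left_mem
    (MvPolynomial.homogeneousSubmodule (Fin 3) k) (b := u) n hf
  rw [h1, h1, MvPolynomial.homogeneousComponent_eq_self hg] at h2
  split_ifs at h2 with h3
  · exact Or.inr ⟨n - a, _, by omega, MvPolynomial.homogeneousComponent_isHomogeneous _ _, h2⟩
  · exact Or.inl h2

theorem exists_quot_mem_Rg (s : Fin 2 → K) {a n : ℕ} {f g : MvPolynomial (Fin 3) k}
    (hf : f.IsHomogeneous a) (hg : g.IsHomogeneous n) (h : f ∣ g) :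
    ∃ u : MvPolynomial (Fin 3) k, g = f * u ∧ ev3 k s u ∈ Rg (U3 k s) ((n : ℤ) - a) := by
  rcases exists_homog_quot hf hg h with rfl | ⟨m, u, rfl, hu, h'⟩
  · exact ⟨0, by simp, by simp⟩
  · refine ⟨u, h', ?_⟩
    have := ev3_mem_Rg s hu
    rwa [show (m : ℤ) = ((a + m : ℕ) : ℤ) - a by push_cast; ring] at this

/-- The polynomial ring is saturated in codimension two. -/
theorem mem_Rg_U3_of_forall_prime (hs : AlgebraicIndependent k s) (t : ℤ) (x : K)
    (h : ∀ q : MvPolynomial (Fin 3) k, Prime q →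
      ∃ (a : ℕ) (f : MvPolynomial (Fin 3) k), f.IsHomogeneous a ∧ ¬ q ∣ f ∧
        ev3 k s f * x ∈ Rg (U3 k s) (t + a)) : x ∈ Rg (U3 k s) t := by
  by_cases hx : x = 0
  · simp [hx]
  have aux : ∀ q : MvPolynomial (Fin 3) k, Prime q →
      ∃ (a n : ℕ) (f g : MvPolynomial (Fin 3) k), f.IsHomogeneous a ∧ g.IsHomogeneous n ∧
        (n : ℤ) = t + a ∧ ¬ q ∣ f ∧ ev3 k s g = ev3 k s f * x := by
    intro q hq
    obtain ⟨a, f, hf, hqf, hm⟩ := h q hq
    have hf0 : f ≠ 0 := fun h0 => hqf (h0 ▸ dvd_zero q)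
    obtain ⟨n, g, hn, hg, hev⟩ := exists_homog_of_mem_Rg hm (mul_ne_zero (ev3_ne_zero hs hf hf0) hx)
    exact ⟨a, n, f, g, hf, hg, hn, hqf, hev⟩
  obtain ⟨a₁, n₁, f₁, g₁, hf₁, hg₁, hn₁, hq₁, hev₁⟩ := aux (MvPolynomial.X 0) MvPolynomial.X_prime
  have hf0 : f₁ ≠ 0 := fun h0 => hq₁ (h0 ▸ dvd_zero _)
  have hdvd : f₁ ∣ g₁ := by
    obtain ⟨a', b', c', hrel, ha', hb'⟩ :=
      UniqueFactorizationMonoid.exists_reduced_factors f₁ hf0 g₁
    have hc0 : c' ≠ 0 := fun h0 => hf0 (by rw [← ha', h0, zero_mul])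
    have ha0 : a' ≠ 0 := fun h0 => hf0 (by rw [← ha', h0, mul_zero])
    have hu : IsUnit a' := by
      by_contra hnu
      obtain ⟨q, hq, hqa⟩ := WfDvdMonoid.exists_irreducible_factor hnu ha0
      have hqp : Prime q := hq.prime
      obtain ⟨a, n, f, g, hf, hg, hn, hqf, hev⟩ := aux q hqp
      have h1 : f * g₁ = f₁ * g := by
        refine ev3_inj hs (hf.mul hg₁) (hf₁.mul hg) (by omega) ?_
        rw [map_mul, map_mul, hev, hev₁]
        ring
      have h2 : f * b' = a' * g := by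
        apply mul_left_cancel₀ hc0
        rw [← ha', ← hb'] at h1
        linear_combination h1
      have h3 : q ∣ f * b' := h2 ▸ hqa.mul_right g
      exact hqp.not_isUnit (hrel hqa ((hqp.dvd_or_dvd h3).resolve_left hqf))
    rw [← ha', ← hb']
    exact mul_dvd_mul_left c' hu.dvd
  obtain ⟨u, hu, hm⟩ := exists_quot_mem_Rg s hf₁ hg₁ hdvd
  have h4 : x = ev3 k s u := by
    apply mul_left_cancel₀ (ev3_ne_zero hs hf₁ hf0)
    rw [← hev₁, hu, map_mul]
  rw [h4]
  rwa [show (n₁ : ℤ) - a₁ = t by omega] at hm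

theorem exists_eq_C_of_prime_dvd_linear {q f : MvPolynomial (Fin 3) k} (hq : Prime q)
    (hf : f.IsHomogeneous 1) (hf0 : f ≠ 0) (h : q ∣ f) : ∃ c : k, c ≠ 0 ∧ f = c • q := by
  obtain ⟨u, rfl⟩ := h
  have hu0 : u ≠ 0 := right_ne_zero_of_mul hf0
  have h1 := hf.totalDegree hf0
  rw [MvPolynomial.totalDegree_mul_of_isDomain hq.ne_zero hu0] at h1
  have h2 : q.totalDegree ≠ 0 := by
    intro h0
    rw [MvPolynomial.totalDegree_eq_zero_iff_eq_C] at h0
    apply hq.not_isUnit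
    rw [h0]
    refine IsUnit.map _ (IsUnit.mk0 _ fun h1 => hq.ne_zero ?_)
    rw [h0, h1, map_zero]
  have h3 : u.totalDegree = 0 := by omega
  rw [MvPolynomial.totalDegree_eq_zero_iff_eq_C] at h3
  refine ⟨u.coeff 0, fun h0 => hu0 (by rw [h3, h0, map_zero]), ?_⟩
  rw [MvPolynomial.smul_eq_C_mul, ← h3, mul_comm]

/-- Two independent linear forms are coprime. -/
theorem mem_Rg_U3_of_two_linear (hs : AlgebraicIndependent k s) {l₁ l₂ : K} (h₁ : l₁ ∈ U3 k s)
    (h₂ : l₂ ∈ U3 k s) (hli : LinearIndependent k ![l₁, l₂]) (t : ℤ) (x : K)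
    (hx₁ : l₁ * x ∈ Rg (U3 k s) (t + 1)) (hx₂ : l₂ * x ∈ Rg (U3 k s) (t + 1)) :
    x ∈ Rg (U3 k s) t := by
  obtain ⟨f₁, hf₁, rfl⟩ := (mem_Rg_U3_iff s 1 l₁).mp (mem_Rg_one h₁)
  obtain ⟨f₂, hf₂, rfl⟩ := (mem_Rg_U3_iff s 1 l₂).mp (mem_Rg_one h₂)
  refine mem_Rg_U3_of_forall_prime hs t x fun q hq => ?_
  by_cases hq₁ : q ∣ f₁
  · by_cases hq₂ : q ∣ f₂
    · exfalso
      have hf10 : f₁ ≠ 0 := fun h0 => hli.ne_zero 0 (by simp [h0])
      have hf20 : f₂ ≠ 0 := fun h0 => hli.ne_zero 1 (by simp [h0])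
      obtain ⟨c₁, hc₁, rfl⟩ := exists_eq_C_of_prime_dvd_linear hq hf₁ hf10 hq₁
      obtain ⟨c₂, hc₂, rfl⟩ := exists_eq_C_of_prime_dvd_linear hq hf₂ hf20 hq₂
      have := (LinearIndependent.pair_iff.mp hli c₂ (-c₁) (by
        simp only [map_smul, smul_smul, ← add_smul]
        rw [show c₂ * c₁ + -c₁ * c₂ = 0 by ring, zero_smul])).1
      exact hc₂ this
    · exact ⟨1, f₂, hf₂, hq₂, hx₂⟩
  · exact ⟨1, f₁, hf₁, hq₁, hx₁⟩

theorem finrank_U3 (hs : AlgebraicIndependent k s) : finrank k (U3 k s) = 3 := by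
  have := hf_Rg_U3 hs 1
  rw [hf, Rg_one] at this
  norm_num [al] at this
  exact_mod_cast this

theorem not_dvd_X0_or_X1 {q : MvPolynomial (Fin 3) k} (hq : Prime q) :
    ¬ q ∣ MvPolynomial.X 0 ∨ ¬ q ∣ MvPolynomial.X 1 := by
  by_contra h
  push Not at h
  have h1 := (hq.dvd_prime_iff_associated MvPolynomial.X_prime).mp h.1
  have h2 := h1.symm.dvd.trans h.2
  rw [MvPolynomial.X_dvd_X] at h2
  exact absurd h2 (by decide)

/-- Exactness of the Koszul complex of the polynomial ring in homological degree one. -/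
theorem koszul_U3 (hs : AlgebraicIndependent k s) (t : ℤ) {v₀ v₁ v₂ : K}
    (h₀ : v₀ ∈ Rg (U3 k s) t) (h₁ : v₁ ∈ Rg (U3 k s) t) (h₂ : v₂ ∈ Rg (U3 k s) t)
    (h : v₀ + s 0 * v₁ + s 1 * v₂ = 0) :
    ∃ w₀₁ ∈ Rg (U3 k s) (t - 1), ∃ w₀₂ ∈ Rg (U3 k s) (t - 1), ∃ w₁₂ ∈ Rg (U3 k s) (t - 1),
      v₀ = s 0 * w₀₁ + s 1 * w₀₂ ∧ v₁ = - w₀₁ + s 1 * w₁₂ ∧ v₂ = - w₀₂ - s 0 * w₁₂ := by
  rcases lt_or_ge t 0 with ht | ht
  · rw [Rg_of_neg _ ht, Submodule.mem_bot] at h₀ h₁ h₂
    exact ⟨0, Submodule.zero_mem _, 0, Submodule.zero_mem _, 0, Submodule.zero_mem _,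
      by simp [h₀], by simp [h₁], by simp [h₂]⟩
  lift t to ℕ using ht
  obtain ⟨g₀, hg₀, rfl⟩ := (mem_Rg_U3_iff s t _).mp h₀
  obtain ⟨g₁, hg₁, rfl⟩ := (mem_Rg_U3_iff s t _).mp h₁
  obtain ⟨g₂, hg₂, rfl⟩ := (mem_Rg_U3_iff s t _).mp h₂
  have hX := fun i : Fin 3 => MvPolynomial.isHomogeneous_X k i
  have hrel : MvPolynomial.X 0 * g₀ + MvPolynomial.X 1 * g₁ + MvPolynomial.X 2 * g₂ = 0 := by
    refine ev3_eq_zero hs ((((hX 0).mul hg₀).add ((hX 1).mul hg₁)).add ((hX 2).mul hg₂)) ?_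
    simpa using h
  let ρ : MvPolynomial (Fin 3) k →ₐ[k] MvPolynomial (Fin 3) k :=
    MvPolynomial.aeval ![0, MvPolynomial.X 1, MvPolynomial.X 2]
  have hρh : ∀ g : MvPolynomial (Fin 3) k, g.IsHomogeneous t → (ρ g).IsHomogeneous t := by
    intro g hg
    have := hg.aeval (![0, MvPolynomial.X 1, MvPolynomial.X 2] : Fin 3 → MvPolynomial (Fin 3) k)
      (n := 1) (fun i => by
        fin_cases i
        exacts [MvPolynomial.isHomogeneous_zero _ _ _, hX 1, hX 2])
    rwa [one_mul] at this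
  have hρd : ∀ g : MvPolynomial (Fin 3) k, MvPolynomial.X 0 ∣ g - ρ g := by
    intro g
    induction g using MvPolynomial.induction_on with
    | C c => simp [ρ]
    | add p q hp hq =>
      rw [map_add, show p + q - (ρ p + ρ q) = (p - ρ p) + (q - ρ q) by ring]
      exact dvd_add hp hq
    | mul_X p i hp =>
      rw [map_mul, show p * MvPolynomial.X i - ρ p * ρ (MvPolynomial.X i) =
        (p - ρ p) * MvPolynomial.X i + ρ p * (MvPolynomial.X i - ρ (MvPolynomial.X i)) by ring]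
      refine dvd_add (hp.mul_right _) (Dvd.dvd.mul_left ?_ _)
      fin_cases i <;> simp [ρ]
  have hrel' : MvPolynomial.X 1 * ρ g₁ + MvPolynomial.X 2 * ρ g₂ = 0 := by
    have := congrArg ρ hrel
    simpa [ρ] using this
  have hd : MvPolynomial.X 2 ∣ ρ g₁ := by
    have h1 : (MvPolynomial.X 2 : MvPolynomial (Fin 3) k) ∣ MvPolynomial.X 1 * ρ g₁ :=
      ⟨- ρ g₂, by linear_combination hrel'⟩
    refine (MvPolynomial.X_prime.dvd_or_dvd h1).resolve_left ?_
    rw [MvPolynomial.X_dvd_X]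
    decide
  obtain ⟨w, hw, hwm⟩ := exists_quot_mem_Rg s (hX 2) (hρh g₁ hg₁) hd
  have hw' : ρ g₂ = - MvPolynomial.X 1 * w := by
    apply mul_left_cancel₀ (MvPolynomial.X_ne_zero (R := k) (2 : Fin 3))
    rw [hw] at hrel'
    linear_combination hrel'
  obtain ⟨u₁, hu₁, hum₁⟩ := exists_quot_mem_Rg s (hX 0) (hg₁.sub (hρh g₁ hg₁)) (hρd g₁)
  obtain ⟨u₂, hu₂, hum₂⟩ := exists_quot_mem_Rg s (hX 0) (hg₂.sub (hρh g₂ hg₂)) (hρd g₂)
  rw [hw] at hu₁
  rw [hw'] at hu₂
  have e₁ := congrArg (ev3 k s) hu₁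
  have e₂ := congrArg (ev3 k s) hu₂
  simp only [map_sub, map_mul, map_neg, ev3_X0, ev3_X1, ev3_X2, one_mul] at e₁ e₂
  refine ⟨- ev3 k s u₁, Submodule.neg_mem _ hum₁, - ev3 k s u₂, Submodule.neg_mem _ hum₂,
    ev3 k s w, hwm, ?_, ?_, ?_⟩
  · linear_combination h - s 0 * e₁ - s 1 * e₂
  · linear_combination e₁
  · linear_combination e₂

/-- A graded family of forms without common prime factor contains two coprime elements. -/
theorem exists_coprime_pair' [Infinite k] (T : ℕ → Submodule k (MvPolynomial (Fin 3) k))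
    (hmul : ∀ (a : ℕ) (i : Fin 3), ∀ f ∈ T a, MvPolynomial.X i * f ∈ T (a + 1))
    (h : ∀ q : MvPolynomial (Fin 3) k, Prime q → ∃ a : ℕ, ∃ f ∈ T a, ¬ q ∣ f) :
    ∃ (a b : ℕ), ∃ f ∈ T a, ∃ g ∈ T b, f ≠ 0 ∧ g ≠ 0 ∧ IsRelPrime f g := by
  classical
  have hpow : ∀ (a n : ℕ) (i : Fin 3), ∀ f ∈ T a, MvPolynomial.X i ^ n * f ∈ T (a + n) := by
    intro a n i f hf
    induction n with
    | zero => simpa using hf
    | succ n ih =>
      have := hmul _ i _ ih
      rwa [← mul_assoc, ← pow_succ'] at this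
  have hup : ∀ q : MvPolynomial (Fin 3) k, Prime q → ∃ a : ℕ, ∀ b, a ≤ b → ∃ f ∈ T b, ¬ q ∣ f := by
    intro q hq
    obtain ⟨a, f, hf, hqf⟩ := h q hq
    refine ⟨a, fun b hb => ?_⟩
    obtain ⟨n, rfl⟩ := Nat.exists_eq_add_of_le hb
    obtain ⟨i, hi⟩ : ∃ i : Fin 3, ¬ q ∣ MvPolynomial.X i :=
      (not_dvd_X0_or_X1 hq).elim (fun h => ⟨0, h⟩) (fun h => ⟨1, h⟩)
    refine ⟨_, hpow a n i f hf, fun hd => ?_⟩
    exact (hq.dvd_or_dvd hd).elim (fun h1 => hi (hq.dvd_of_dvd_pow h1)) hqf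
  obtain ⟨a, f, hf, hqf⟩ := h (MvPolynomial.X 0) MvPolynomial.X_prime
  have hf0 : f ≠ 0 := fun h0 => hqf (h0 ▸ dvd_zero _)
  let S : Finset (MvPolynomial (Fin 3) k) :=
    insert (MvPolynomial.X 0) (UniqueFactorizationMonoid.factors f).toFinset
  have hS : ∀ q : S, Prime q.1 := by
    rintro ⟨q, hq⟩
    rcases Finset.mem_insert.mp hq with rfl | hq
    · exact MvPolynomial.X_prime
    · exact UniqueFactorizationMonoid.prime_of_factor q (Multiset.mem_toFinset.mp hq)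
  choose A hA using fun q : S => hup q.1 (hS q)
  let b := ∑ q : S, A q
  let p : S → Submodule k (T b) := fun q =>
    ((Ideal.span {q.1}).restrictScalars k).comap (T b).subtype
  have hp : ∀ q, p q ≠ ⊤ := by
    intro q htop
    obtain ⟨g, hg, hqg⟩ := hA q b
      (Finset.single_le_sum (fun _ _ => Nat.zero_le _) (Finset.mem_univ q))
    have : (⟨g, hg⟩ : T b) ∈ p q := by rw [htop]; trivial
    exact hqg (Ideal.mem_span_singleton.mp this)
  obtain ⟨g, hg⟩ := Submodule.exists_forall_notMem_of_forall_ne_top p hp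
  have hg' : ∀ q ∈ S, ¬ q ∣ g.1 := fun q hq hd =>
    hg ⟨q, hq⟩ (Ideal.mem_span_singleton.mpr hd)
  refine ⟨a, b, f, hf, g.1, g.2, hf0, fun h0 => ?_, ?_⟩
  · exact hg' _ (Finset.mem_insert_self _ _) (h0 ▸ dvd_zero _)
  · refine (UniqueFactorizationMonoid.isRelPrime_iff_no_prime_factors hf0).mpr
      fun d hdf hdg hd => ?_
    obtain ⟨q, hq, hdq⟩ := UniqueFactorizationMonoid.exists_mem_factors_of_dvd hf0
      hd.irreducible hdf
    exact hg' q (Finset.mem_insert_of_mem (Multiset.mem_toFinset.mpr hq)) (hdq.symm.dvd.trans hdg)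

/-- A family of homogeneous polynomials without common prime factor contains, after taking
homogeneous combinations, two elements without common prime factor. -/
theorem exists_coprime_pair [Infinite k] (I : Ideal (MvPolynomial (Fin 3) k))
    (h : ∀ q : MvPolynomial (Fin 3) k, Prime q →
      ∃ (a : ℕ) (f : MvPolynomial (Fin 3) k), f.IsHomogeneous a ∧ ¬ q ∣ f ∧ f ∈ I) :
    ∃ (a b : ℕ) (f g : MvPolynomial (Fin 3) k), f.IsHomogeneous a ∧ g.IsHomogeneous b ∧
      f ∈ I ∧ g ∈ I ∧ f ≠ 0 ∧ g ≠ 0 ∧ IsRelPrime f g := by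
  obtain ⟨a, b, f, hf, g, hg, h1, h2, h3⟩ := exists_coprime_pair'
    (fun a => MvPolynomial.homogeneousSubmodule (Fin 3) k a ⊓ I.restrictScalars k)
    (fun a i f hf => ⟨by
      have := (MvPolynomial.isHomogeneous_X k i).mul hf.1
      rwa [add_comm] at this, I.mul_mem_left _ hf.2⟩)
    (fun q hq => by
      obtain ⟨a, f, h1, h2, h3⟩ := h q hq
      exact ⟨a, f, ⟨h1, h3⟩, h2⟩)
  exact ⟨a, b, f, g, hf.1, hg.1, hf.2, hg.2, h1, h2, h3⟩

/-- The quotient by two coprime forms has bounded Hilbert function. -/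
theorem hf_quot_coprime_le (hs : AlgebraicIndependent k s) {a b : ℕ}
    {f g : MvPolynomial (Fin 3) k} (hf' : f.IsHomogeneous a) (hg' : g.IsHomogeneous b)
    (hf0 : f ≠ 0) (hg0 : g ≠ 0) (hfg : IsRelPrime f g) :
    ∃ C : ℤ, ∀ t : ℤ, hf (Rg (U3 k s)) t -
      hf (cyc (U3 k s) a (ev3 k s f) ⊔ cyc (U3 k s) b (ev3 k s g)) t ≤ C := by
  refine ⟨a * b + al (a + b), fun t => ?_⟩
  have hfe := ev3_ne_zero hs hf' hf0
  have hge := ev3_ne_zero hs hg' hg0
  have i1 := (isFG_cyc (U3 k s) a (ev3 k s f)).finiteDimensional t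
  have i2 := (isFG_cyc (U3 k s) b (ev3 k s g)).finiteDimensional t
  have i3 := (isFG_cyc (U3 k s) (a + b) (ev3 k s f * ev3 k s g)).finiteDimensional t
  have h1 := Submodule.finrank_sup_add_finrank_inf_eq (cyc (U3 k s) a (ev3 k s f) t)
    (cyc (U3 k s) b (ev3 k s g) t)
  have h2 : cyc (U3 k s) a (ev3 k s f) t ⊓ cyc (U3 k s) b (ev3 k s g) t ≤
      cyc (U3 k s) (a + b) (ev3 k s f * ev3 k s g) t := by
    rintro x ⟨hx1, hx2⟩
    obtain ⟨y, hy, rfl⟩ := mem_cyc.mp hx1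
    obtain ⟨z, hz, hzy⟩ := mem_cyc.mp hx2
    by_cases hy0 : y = 0
    · simp [hy0]
    have hz0 : z ≠ 0 := by
      rintro rfl
      rw [zero_smul, smul_eq_mul] at hzy
      exact mul_ne_zero hy0 hfe hzy.symm
    obtain ⟨n, Y, hn, hY, rfl⟩ := exists_homog_of_mem_Rg hy hy0
    obtain ⟨m, Z, hm, hZ, rfl⟩ := exists_homog_of_mem_Rg hz hz0
    have h3 : Z * g = Y * f := by
      refine ev3_inj hs (hZ.mul hg') (hY.mul hf') (by omega) ?_
      rw [map_mul, map_mul]
      exact hzy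
    have h4 : g ∣ Y := hfg.symm.dvd_of_dvd_mul_right ⟨Z, by rw [← h3, mul_comm]⟩
    obtain ⟨u, hu, hum⟩ := exists_quot_mem_Rg s hg' hY h4
    refine mem_cyc.mpr ⟨ev3 k s u, ?_, ?_⟩
    · rwa [show (n : ℤ) - b = t - (a + b) by omega] at hum
    · rw [hu, map_mul, smul_eq_mul, smul_eq_mul]
      ring
  have h3 := Submodule.finrank_mono h2
  have h4 := hf_cyc_of_ne (W := U3 k s) a hfe t
  have h5 := hf_cyc_of_ne (W := U3 k s) b hge t
  have h6 := hf_cyc_of_ne (W := U3 k s) (a + b) (mul_ne_zero hfe hge) t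
  rw [hf_Rg_U3 hs] at h4 h5 h6 ⊢
  simp only [hf, Pi.sup_apply] at h4 h5 h6 ⊢
  have h7 : al t - al (t - a) - al (t - b) + al (t - (a + b)) ≤ a * b + al (a + b) := by
    have ha : (0 : ℤ) ≤ a := Int.natCast_nonneg a
    have hb : (0 : ℤ) ≤ b := Int.natCast_nonneg b
    rcases lt_or_ge t (a + b) with ht | ht
    · have := al_of_neg (x := t - (a + b)) (by omega)
      have := al_mono ht.le
      have := al_nonneg (t - a)
      have := al_nonneg (t - b)
      have := mul_nonneg ha hb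
      omega
    · have e1 := two_mul_al (x := t) (by omega)
      have e2 := two_mul_al (x := t - a) (by omega)
      have e3 := two_mul_al (x := t - b) (by omega)
      have e4 := two_mul_al (x := t - (a + b)) (by omega)
      have := al_nonneg (a + b)
      nlinarith
  omega

/-- A nonzero form is not divisible by some linear form. -/
theorem exists_linear_not_dvd [Infinite k] {D : MvPolynomial (Fin 3) k} (hD : D ≠ 0) :
    ∃ l : MvPolynomial (Fin 3) k, l.IsHomogeneous 1 ∧ Prime l ∧ ¬ l ∣ D := by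
  obtain ⟨x, hx⟩ : ∃ x : Fin 3 → k, MvPolynomial.eval x D ≠ 0 := by
    by_contra h
    push Not at h
    exact hD (MvPolynomial.funext fun x => by rw [h x, map_zero])
  have hX := fun i : Fin 3 => MvPolynomial.isHomogeneous_X k i
  by_cases h0 : x 0 = 0
  · refine ⟨MvPolynomial.X 0, hX 0, MvPolynomial.X_prime, ?_⟩
    rintro ⟨u, rfl⟩
    simp [h0] at hx
  · have hl : (MvPolynomial.X 1 - MvPolynomial.C (x 1 / x 0) * MvPolynomial.X 0 :
        MvPolynomial (Fin 3) k).IsHomogeneous 1 := (hX 1).sub ((hX 0).C_mul _)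
    have hc : (MvPolynomial.X 1 - MvPolynomial.C (x 1 / x 0) * MvPolynomial.X 0 :
        MvPolynomial (Fin 3) k).coeff (Finsupp.single 1 1) = 1 := by
      simp [MvPolynomial.coeff_X, Finsupp.single_eq_single_iff]
    refine ⟨_, hl, Irreducible.prime ?_, ?_⟩
    · refine MvPolynomial.irreducible_of_totalDegree_eq_one (hl.totalDegree fun h => ?_)
        fun c hc' => ?_
      · rw [h] at hc
        simp at hc
      · have := hc' (Finsupp.single 1 1)
        rw [hc] at this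
        exact isUnit_of_dvd_one this
    · rintro ⟨u, rfl⟩
      apply hx
      simp [div_mul_cancel₀ _ h0]

end Pool.Agent.Lib.MP_cf0da3_ag
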