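import Pool.Agent.Lib.MP_cf0da3_ag.Poly3

/-! General lemmas used in the first part of the set-up. -/

namespace Pool.Agent.Lib.MP_cf0da3_ag

open Module Filter TensorProduct

section Transport

variable {k K K' : Type*} [Field k] [Field K] [Field K'] [Algebra k K] [Algebra k K']

theorem map_mem_Rg (φ : K →+* K') (hφ : ∀ c : k, ∃ c' : k, φ (algebraMap k K c) = algebraMap k K' c')
    {U : Submodule k K} {U' : Submodule k K'} (hU : ∀ x ∈ U, φ x ∈ U') {t : ℤ} {x : K}
    (hx : x ∈ Rg U t) : φ x ∈ Rg U' t := by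
  rcases lt_or_ge t 0 with ht | ht
  · rw [Rg_of_neg U ht, Submodule.mem_bot] at hx
    simp [hx]
  lift t to ℕ using ht
  rw [Rg_natCast] at hx ⊢
  induction hx using Submodule.pow_induction_on_left' with
  | algebraMap r =>
    obtain ⟨c', hc'⟩ := hφ r
    rw [hc', pow_zero]
    exact Submodule.algebraMap_mem c'
  | add x y i hx hy ihx ihy => rw [map_add]; exact Submodule.add_mem _ ihx ihy
  | mem_mul m hm i x hx ih =>
    rw [map_mul, pow_succ']
    exact Submodule.mul_mem_mul (hU m hm) ih

theorem map_mem_U3 (φ : K →+* K') (hφ : ∀ c : k, ∃ c' : k, φ (algebraMap k K c) = algebraMap k K' c')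
    {s : Fin 2 → K} {s' : Fin 2 → K'} (hs : ∀ i, φ (s i) = s' i) {x : K} (hx : x ∈ U3 k s) :
    φ x ∈ U3 k s' := by
  unfold U3 at hx
  induction hx using Submodule.span_induction with
  | mem x hx =>
    rcases hx with rfl | rfl | rfl
    · rw [map_one]; exact one_mem_U3 _
    · rw [hs]; exact s_mem_U3 _ _
    · rw [hs]; exact s_mem_U3 _ _
  | zero => simp
  | add x y _ _ ihx ihy => rw [map_add]; exact Submodule.add_mem _ ihx ihy
  | smul c x _ ih =>
    obtain ⟨c', hc'⟩ := hφ c
    rw [Algebra.smul_def, map_mul, hc', ← Algebra.smul_def]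
    exact Submodule.smul_mem _ _ ih

theorem map_mem_adjoin (φ : K →+* K')
    (hφ : ∀ c : k, ∃ c' : k, φ (algebraMap k K c) = algebraMap k K' c')
    {ι : Type*} {s : ι → K} {s' : ι → K'} (hs : ∀ i, φ (s i) = s' i) {x : K}
    (hx : x ∈ IntermediateField.adjoin k (Set.range s)) :
    φ x ∈ IntermediateField.adjoin k (Set.range s') := by
  induction hx using IntermediateField.adjoin_induction with
  | mem x hx =>
    obtain ⟨i, rfl⟩ := hx
    rw [hs]; exact IntermediateField.subset_adjoin _ _ ⟨i, rfl⟩
  | algebraMap c =>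
    obtain ⟨c', hc'⟩ := hφ c
    rw [hc']; exact IntermediateField.algebraMap_mem _ _
  | add x y _ _ ihx ihy => rw [map_add]; exact add_mem ihx ihy
  | inv x _ ih => rw [map_inv₀]; exact inv_mem ih
  | mul x y _ _ ihx ihy => rw [map_mul]; exact mul_mem ihx ihy

theorem adjoin_range_coe_eq_top {ι : Type*} (s : ι → K) :
    IntermediateField.adjoin k (Set.range fun i =>
      (⟨s i, IntermediateField.subset_adjoin k _ ⟨i, rfl⟩⟩ :
        IntermediateField.adjoin k (Set.range s))) = ⊤ := by
  rw [eq_top_iff]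
  rintro ⟨x, hx⟩ -
  induction hx using IntermediateField.adjoin_induction with
  | mem x hx =>
    obtain ⟨i, rfl⟩ := hx
    exact IntermediateField.subset_adjoin _ _ ⟨i, rfl⟩
  | algebraMap c => exact IntermediateField.algebraMap_mem _ c
  | add x y hx hy ihx ihy => exact add_mem ihx ihy
  | inv x hx ih => exact inv_mem ih
  | mul x y hx hy ihx ihy => exact mul_mem ihx ihy

end Transport

section Sandwich

variable {k K : Type*} [Field k] [Field K] [Algebra k K] {W : Submodule k K}
  {V : Type*} [AddCommGroup V] [Module K V] [Module k V] [IsScalarTower k K V]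
  {L : ℤ → Submodule k V}

theorem Ctx.common_denom (hW : Ctx W) {ι : Type*} [Fintype ι] (c : ι → K) :
    ∃ a : ℤ, ∃ h ∈ Rg W a, h ≠ 0 ∧ ∀ i, h * c i ∈ Rg W a := by
  classical
  choose a h hh h0 hc using fun i => hW.frac (c i)
  refine ⟨∑ i, a i, ∏ i, h i, prod_mem_Rg _ _ _ fun i _ => hh i,
    Finset.prod_ne_zero_iff.mpr fun i _ => h0 i, fun i => ?_⟩
  rw [← Finset.prod_erase_mul _ _ (Finset.mem_univ i), ← Finset.sum_erase_add _ _ (Finset.mem_univ i),
    mul_assoc]
  exact mul_mem_Rg (prod_mem_Rg _ _ _ fun j _ => hh j) (hc i)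

theorem hf_le_of_basis (hW : Ctx W) (hL : IsFG W L) {ι : Type*} [Fintype ι] (β : Basis ι K V) :
    ∃ c : ℤ, ∀ t, hf L t ≤ Fintype.card ι * hf (Rg W) (t + c) := by
  classical
  have := hW.fd
  obtain ⟨n, b, v, rfl⟩ := hL
  obtain ⟨a, h, hh, h0, hc⟩ := hW.common_denom (fun x : Fin n × ι => β.repr (v x.1) x.2)
  obtain ⟨b₀, hb₀⟩ := (Set.finite_range b).bddBelow
  refine ⟨a - b₀, fun t => ?_⟩
  have e1 := hf_gen_of_li (W := W) (fun _ : ι => (0 : ℤ)) β.linearIndependent (t + (a - b₀))
  simp only [sub_zero, Finset.sum_const, Finset.card_univ, nsmul_eq_mul] at e1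
  rw [← e1]
  have hfd := (isFG_gen W (fun _ : ι => (0 : ℤ)) β).finiteDimensional (t + (a - b₀))
  let m : V →ₗ[k] V := (h • LinearMap.id (R := K) (M := V)).restrictScalars k
  have hm : Function.Injective m := by
    intro x y hxy
    have : h • x = h • y := hxy
    exact smul_right_injective V h0 this
  have hle : (gen W b v t).map m ≤ gen W (fun _ : ι => (0 : ℤ)) β (t + (a - b₀)) := by
    rintro _ ⟨x, hx, rfl⟩
    obtain ⟨f, hf, rfl⟩ := mem_gen.mp hx
    refine mem_gen.mpr ⟨fun i => ∑ j, f j * (h * β.repr (v j) i), fun i => ?_, ?_⟩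
    · refine Submodule.sum_mem _ fun j _ => ?_
      refine Rg_mono hW.one_mem ?_ (mul_mem_Rg (hf j) (hc (j, i)))
      have := hb₀ ⟨j, rfl⟩
      omega
    · change _ = h • ∑ j, f j • v j
      simp only [Finset.sum_smul, Finset.smul_sum]
      rw [Finset.sum_comm]
      refine Finset.sum_congr rfl fun j _ => ?_
      conv_rhs => rw [← β.sum_repr (v j)]
      simp only [Finset.smul_sum, smul_smul]
      refine Finset.sum_congr rfl fun i _ => ?_
      congr 1
      ring
  have h1 := Submodule.finrank_mono hle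
  rw [(Submodule.equivMapOfInjective m hm _).finrank_eq.symm] at h1
  unfold hf
  exact_mod_cast h1

theorem hf_sandwich (hW : Ctx W) (hL : IsFG W L) [FiniteDimensional K V]
    (hspan : spanK K L = ⊤) : ∃ a c : ℤ, ∀ t,
      finrank K V * hf (Rg W) (t - a) ≤ hf L t ∧ hf L t ≤ finrank K V * hf (Rg W) (t + c) := by
  classical
  have := hW.fd
  obtain ⟨B, hB, hsp, hli⟩ := exists_linearIndependent K (⋃ t, (L t : Set V))
  have hfin : B.Finite := hli.set_finite_of_isNoetherian
  have := hfin.fintype
  have hsp' : ⊤ ≤ Submodule.span K (Set.range (Subtype.val : B → V)) := by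
    rw [Subtype.range_coe, hsp]; exact hspan.ge
  let β : Basis B K V := Basis.mk hli hsp'
  have hcard : Fintype.card B = finrank K V := (finrank_eq_card_basis β).symm
  obtain ⟨c, hc⟩ := hf_le_of_basis hW hL β
  choose d hd using fun x : B => Set.mem_iUnion.mp (hB x.2)
  obtain ⟨a, ha⟩ := (Set.finite_range d).bddAbove
  refine ⟨a, c, fun t => ⟨?_, by rw [← hcard]; exact hc t⟩⟩
  have e1 := hf_gen_of_li (W := W) (fun _ : B => a) hli t
  simp only [Finset.sum_const, Finset.card_univ, nsmul_eq_mul] at e1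
  rw [← hcard, ← e1]
  have := hL.finiteDimensional t
  refine hf_mono (gen_le hL.isMod (fun x => ?_) t)
  exact hL.isMod.mono hW.one_mem (ha ⟨x, rfl⟩) (hd x)

end Sandwich

section Poly

open Polynomial

variable {k K : Type*} [Field k] [Field K] [Algebra k K]

/-- The span of `X, 1, s 0, s 1` in the polynomial ring. -/
noncomputable def PX (k : Type*) {K : Type*} [Field k] [Field K] [Algebra k K] (s : Fin 2 → K) :
    Submodule k (Polynomial K) :=
  Submodule.span k {Polynomial.X, Polynomial.C 1, Polynomial.C (s 0), Polynomial.C (s 1)}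

variable {s : Fin 2 → K}

theorem X_mem_PX : (X : K[X]) ∈ PX k s := Submodule.subset_span (by simp)

theorem one_mem_PX : (1 : K[X]) ∈ PX k s := Submodule.subset_span (by simp)

theorem C_mem_PX {a : K} (ha : a ∈ U3 k s) : C a ∈ PX k s := by
  unfold U3 at ha
  induction ha using Submodule.span_induction with
  | mem x hx =>
    rcases hx with rfl | rfl | rfl <;> exact Submodule.subset_span (by simp)
  | zero => simp
  | add x y _ _ ihx ihy => rw [map_add]; exact Submodule.add_mem _ ihx ihy
  | smul c x _ ih => rw [← smul_C]; exact Submodule.smul_mem _ _ ih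

theorem prod_mem_pow {A : Type*} [CommRing A] [Algebra k A] (P : Submodule k A) {ι : Type*}
    (t : Finset ι) (f : ι → A) (h : ∀ i ∈ t, f i ∈ P) : ∏ i ∈ t, f i ∈ P ^ t.card := by
  classical
  induction t using Finset.induction_on with
  | empty => simpa using Submodule.algebraMap_mem (R := k) (A := A) 1
  | insert i t hi ih =>
    rw [Finset.prod_insert hi, Finset.card_insert_of_notMem hi, pow_succ']
    exact Submodule.mul_mem_mul (h i (Finset.mem_insert_self _ _))
      (ih fun j hj => h j (Finset.mem_insert_of_mem hj))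

theorem charpoly_mem_PX {N : ℕ} (A : Matrix (Fin N) (Fin N) K) (hA : ∀ i j, A i j ∈ U3 k s) :
    A.charpoly ∈ PX k s ^ N := by
  rw [Matrix.charpoly, Matrix.det_apply]
  refine Submodule.sum_mem _ fun σ _ => ?_
  rw [Units.smul_def, ← Int.cast_smul_eq_zsmul k]
  refine Submodule.smul_mem _ _ ?_
  have := prod_mem_pow (PX k s) Finset.univ (fun i => A.charmatrix (σ i) i) (fun i _ => by
    by_cases h : σ i = i
    · rw [h, Matrix.charmatrix_apply_eq]
      exact Submodule.sub_mem _ X_mem_PX (C_mem_PX (hA _ _))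
    · rw [Matrix.charmatrix_apply_ne _ _ _ h]
      exact Submodule.neg_mem _ (C_mem_PX (hA _ _)))
  simpa using this

theorem derivative_mem_PX {π : K[X]} (h : π ∈ PX k s) : ∃ c : k, derivative π = C (algebraMap k K c) := by
  unfold PX at h
  induction h using Submodule.span_induction with
  | mem x hx =>
    rcases hx with rfl | rfl | rfl | rfl
    · exact ⟨1, by simp⟩
    · exact ⟨0, by simp⟩
    · exact ⟨0, by simp⟩
    · exact ⟨0, by simp⟩
  | zero => exact ⟨0, by simp⟩
  | add x y _ _ ihx ihy =>
    obtain ⟨a, ha⟩ := ihx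
    obtain ⟨b, hb⟩ := ihy
    exact ⟨a + b, by simp [ha, hb]⟩
  | smul c x _ ih =>
    obtain ⟨a, ha⟩ := ih
    refine ⟨c * a, ?_⟩
    rw [derivative_smul, ha, smul_C, map_mul, Algebra.smul_def]

theorem C_algebraMap_mem_PX (c : k) : C (algebraMap k K c) ∈ PX k s := by
  refine C_mem_PX ?_
  rw [Algebra.algebraMap_eq_smul_one]
  exact Submodule.smul_mem _ _ (one_mem_U3 _)

theorem derivative_mem_PX_pow {n : ℕ} {ν : K[X]} (h : ν ∈ PX k s ^ n) :
    derivative ν ∈ PX k s ^ n := by
  induction h using Submodule.pow_induction_on_left' with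
  | algebraMap r =>
    rw [Polynomial.algebraMap_apply, derivative_C]; exact Submodule.zero_mem _
  | add x y i hx hy ihx ihy => rw [map_add]; exact Submodule.add_mem _ ihx ihy
  | mem_mul m hm i x hx ih =>
    obtain ⟨c, hc⟩ := derivative_mem_PX hm
    rw [derivative_mul, hc, pow_succ']
    exact Submodule.add_mem _ (Submodule.mul_mem_mul (C_algebraMap_mem_PX c) hx)
      (Submodule.mul_mem_mul hm ih)

theorem iterate_derivative_mem_PX_pow {n : ℕ} {ν : K[X]} (h : ν ∈ PX k s ^ n) (m : ℕ) :
    derivative^[m] ν ∈ PX k s ^ n := by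
  induction m with
  | zero => exact h
  | succ m ih => rw [Function.iterate_succ_apply']; exact derivative_mem_PX_pow ih

theorem exists_simple_root (p : ℕ) [Fact p.Prime] [CharP K p] {N : ℕ} (hp : N < p) {χ : K[X]}
    (hχ : χ ∈ PX k s ^ N) (h0 : χ ≠ 0) (hdeg : χ.natDegree ≤ N) {w : K} (hw : χ.eval w = 0) :
    ∃ ν : K[X], ν ∈ PX k s ^ N ∧ ν.eval w = 0 ∧ ν.derivative.eval w ≠ 0 := by
  have hpos : 0 < χ.rootMultiplicity w := (rootMultiplicity_pos h0).mpr hw
  have hle : χ.rootMultiplicity w ≤ χ.natDegree := by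
    have := natDegree_le_of_dvd (pow_rootMultiplicity_dvd χ w) h0
    rwa [natDegree_pow, natDegree_X_sub_C, mul_one] at this
  obtain ⟨m, hm⟩ := Nat.exists_eq_succ_of_ne_zero hpos.ne'
  refine ⟨derivative^[m] χ, iterate_derivative_mem_PX_pow hχ m,
    isRoot_iterate_derivative_of_lt_rootMultiplicity (by omega), ?_⟩
  rw [← Function.iterate_succ_apply' derivative, ← hm, eval_iterate_derivative_rootMultiplicity,
    nsmul_eq_mul]
  refine mul_ne_zero ?_ (eval_divByMonic_pow_rootMultiplicity_ne_zero w h0)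
  rw [Ne, CharP.cast_eq_zero_iff K p, (Fact.out : p.Prime).dvd_factorial]
  omega

variable {W : Submodule k K}

theorem eval_mem_of_PX (hU : U3 k s ≤ W) {w : K} (hw : w ∈ W) {π : K[X]} (h : π ∈ PX k s) :
    π.eval w ∈ W := by
  unfold PX at h
  induction h using Submodule.span_induction with
  | mem x hx =>
    rcases hx with rfl | rfl | rfl | rfl
    · simpa using hw
    · simpa using hU (one_mem_U3 _)
    · simpa using hU (s_mem_U3 _ 0)
    · simpa using hU (s_mem_U3 _ 1)
  | zero => simp
  | add x y _ _ ihx ihy => rw [eval_add]; exact Submodule.add_mem _ ihx ihy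
  | smul c x _ ih => rw [eval_smul]; exact Submodule.smul_mem _ _ ih

theorem eval_mem_of_PX_pow (hU : U3 k s ≤ W) {w : K} (hw : w ∈ W) {n : ℕ} {ν : K[X]}
    (h : ν ∈ PX k s ^ n) : ν.eval w ∈ W ^ n := by
  induction h using Submodule.pow_induction_on_left' with
  | algebraMap r =>
    rw [Polynomial.algebraMap_apply, eval_C, pow_zero]; exact Submodule.algebraMap_mem r
  | add x y i hx hy ihx ihy => rw [eval_add]; exact Submodule.add_mem _ ihx ihy
  | mem_mul m hm i x hx ih =>
    rw [eval_mul, pow_succ']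
    exact Submodule.mul_mem_mul (eval_mem_of_PX hU hw hm) ih

theorem deriv_eval_mem_of_PX (hU : U3 k s ≤ W) (D : Derivation k K K)
    (hD : ∀ i, ∃ c : k, D (s i) = algebraMap k K c) (w : K) {π : K[X]} (h : π ∈ PX k s) :
    D (π.eval w) - π.derivative.eval w * D w ∈ W := by
  have h1 : ∀ c : k, algebraMap k K c ∈ W := fun c => by
    rw [Algebra.algebraMap_eq_smul_one]
    exact Submodule.smul_mem _ _ (hU (one_mem_U3 _))
  unfold PX at h
  induction h using Submodule.span_induction with
  | mem x hx =>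
    rcases hx with rfl | rfl | rfl | rfl
    · simp
    · simp
    · obtain ⟨c, hc⟩ := hD 0
      simpa [hc] using h1 c
    · obtain ⟨c, hc⟩ := hD 1
      simpa [hc] using h1 c
  | zero => simp
  | add x y _ _ ihx ihy =>
    have := Submodule.add_mem _ ihx ihy
    rw [eval_add, map_add, map_add, eval_add]
    have e : D (eval w x) + D (eval w y) - (eval w (derivative x) + eval w (derivative y)) * D w =
      D (eval w x) - eval w (derivative x) * D w + (D (eval w y) - eval w (derivative y) * D w) := by
      ring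
    rwa [e]
  | smul c x _ ih =>
    have := Submodule.smul_mem _ c ih
    rwa [eval_smul, derivative_smul, eval_smul, D.map_smul, smul_mul_assoc, ← smul_sub]

theorem deriv_eval_mem_of_PX_pow (hU : U3 k s ≤ W) (D : Derivation k K K)
    (hD : ∀ i, ∃ c : k, D (s i) = algebraMap k K c) {w : K} (hw : w ∈ W) {n : ℕ} {ν : K[X]}
    (h : ν ∈ PX k s ^ n) : D (ν.eval w) - ν.derivative.eval w * D w ∈ W ^ n := by
  induction h using Submodule.pow_induction_on_left' with
  | algebraMap r =>
    rw [Polynomial.algebraMap_apply, eval_C, derivative_C]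
    simp
  | add x y i hx hy ihx ihy =>
    have := Submodule.add_mem _ ihx ihy
    rw [eval_add, map_add, map_add, eval_add]
    have e : D (eval w x) + D (eval w y) - (eval w (derivative x) + eval w (derivative y)) * D w =
      D (eval w x) - eval w (derivative x) * D w + (D (eval w y) - eval w (derivative y) * D w) := by
      ring
    rwa [e]
  | mem_mul m hm i x hx ih =>
    have h1 := Submodule.mul_mem_mul (eval_mem_of_PX hU hw hm) ih
    have h2 := Submodule.mul_mem_mul (deriv_eval_mem_of_PX hU D hD w hm)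
      (eval_mem_of_PX_pow hU hw hx)
    have e : D (eval w (m * x)) - eval w (derivative (m * x)) * D w =
        eval w m * (D (eval w x) - eval w (derivative x) * D w) +
          (D (eval w m) - eval w (derivative m) * D w) * eval w x := by
      rw [eval_mul, D.leibniz, derivative_mul, eval_add, eval_mul, eval_mul, smul_eq_mul,
        smul_eq_mul]
      ring
    rw [e, pow_succ']
    exact Submodule.add_mem _ h1 h2

theorem exists_map_eq_of_PX_pow {E : Type*} [Field E] [Algebra E K]
    (hk : ∀ c : k, ∃ e, algebraMap E K e = algebraMap k K c)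
    (hs : ∀ i, ∃ e, algebraMap E K e = s i) {n : ℕ} {ν : K[X]} (h : ν ∈ PX k s ^ n) :
    ∃ ν₀ : E[X], ν₀.map (algebraMap E K) = ν := by
  induction h using Submodule.pow_induction_on_left' with
  | algebraMap r =>
    obtain ⟨e, he⟩ := hk r
    exact ⟨C e, by rw [map_C, he, Polynomial.algebraMap_apply]⟩
  | add x y i hx hy ihx ihy =>
    obtain ⟨a, rfl⟩ := ihx
    obtain ⟨b, rfl⟩ := ihy
    exact ⟨a + b, Polynomial.map_add _⟩
  | mem_mul m hm i x hx ih =>
    obtain ⟨a, rfl⟩ := ih
    have : ∃ m₀ : E[X], m₀.map (algebraMap E K) = m := by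
      unfold PX at hm
      clear hx
      induction hm using Submodule.span_induction with
      | mem x hx =>
        rcases hx with rfl | rfl | rfl | rfl
        · exact ⟨X, by simp⟩
        · exact ⟨1, by simp⟩
        · obtain ⟨e, he⟩ := hs 0
          exact ⟨C e, by simp [he]⟩
        · obtain ⟨e, he⟩ := hs 1
          exact ⟨C e, by simp [he]⟩
      | zero => exact ⟨0, by simp⟩
      | add x y _ _ ihx ihy =>
        obtain ⟨a, rfl⟩ := ihx
        obtain ⟨b, rfl⟩ := ihy
        exact ⟨a + b, Polynomial.map_add _⟩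
      | smul c x _ ih =>
        obtain ⟨a, rfl⟩ := ih
        obtain ⟨e, he⟩ := hk c
        refine ⟨C e * a, ?_⟩
        rw [Polynomial.map_mul, map_C, he, Algebra.smul_def, Polynomial.algebraMap_apply]
    obtain ⟨b, rfl⟩ := this
    exact ⟨b * a, Polynomial.map_mul _⟩

theorem isSeparable_of_simple_root {E : Type*} [Field E] [Algebra E K] {w : K} (ν₀ : E[X])
    (h0 : (ν₀.map (algebraMap E K)).eval w = 0)
    (h1 : (ν₀.map (algebraMap E K)).derivative.eval w ≠ 0) : IsSeparable E w := by
  rw [derivative_map, eval_map_algebraMap] at h1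
  rw [eval_map_algebraMap] at h0
  have hne : ν₀ ≠ 0 := by
    rintro rfl
    simp at h1
  have hint : IsIntegral E w := (show IsAlgebraic E w from ⟨ν₀, hne, h0⟩).isIntegral
  rw [IsSeparable, separable_iff_derivative_ne_zero (minpoly.irreducible hint)]
  intro hd
  obtain ⟨g, rfl⟩ := minpoly.dvd E w h0
  apply h1
  rw [derivative_mul, hd]
  simp

end Poly

section Deriv

variable {K₀ K : Type*} [Field K₀] [Field K] [Algebra K₀ K]

theorem eq_zero_of_sum_pow (p : ℕ) [Fact p.Prime] [CharP K p] (D : Derivation K₀ K K) {u : K}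
    (hu : D u = 1) : ∀ (n : ℕ), n ≤ p → ∀ a : Fin n → K, (∀ i, D (a i) = 0) →
      ∑ i, a i * u ^ (i : ℕ) = 0 → ∀ i, a i = 0 := by
  intro n
  induction n with
  | zero => intro _ a _ _ i; exact i.elim0
  | succ n ih =>
    intro hn a ha h
    have h2 := congrArg D h
    rw [map_sum, map_zero, Fin.sum_univ_succ] at h2
    have h3 : ∑ i : Fin n, (((i : ℕ) + 1 : ℕ) * a i.succ) * u ^ (i : ℕ) = 0 := by
      rw [← h2]
      simp only [Derivation.leibniz, ha, Derivation.leibniz_pow, hu, Fin.val_zero, Fin.val_succ,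
        smul_eq_mul, mul_zero, add_zero, nsmul_eq_mul, mul_one, Nat.cast_zero, zero_mul, zero_add,
        Nat.add_sub_cancel]
      refine Finset.sum_congr rfl fun i _ => ?_
      ring
    have h4 := ih (by omega) (fun i => (((i : ℕ) + 1 : ℕ) : K) * a i.succ) (fun i => by
      rw [← nsmul_eq_mul, map_nsmul, ha, smul_zero]) h3
    have h5 : ∀ i : Fin n, a i.succ = 0 := fun i => by
      refine (mul_eq_zero.mp (h4 i)).resolve_left ?_
      rw [CharP.cast_eq_zero_iff K p]
      exact Nat.not_dvd_of_pos_of_lt (by omega) (by omega)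
    rw [Fin.sum_univ_succ] at h
    simp only [h5, zero_mul, Finset.sum_const_zero, add_zero, Fin.val_zero, pow_zero,
      mul_one] at h
    exact Fin.cases h h5

theorem linearIndependent_pbasis (p : ℕ) [Fact p.Prime] [CharP K p] (s : Fin 2 → K)
    (D : Fin 2 → Derivation K₀ K K) (hD : ∀ i j, D i (s j) = if i = j then 1 else 0) :
    LinearIndependent K₀ fun ij : Fin p × Fin p => s 0 ^ (ij.1 : ℕ) * s 1 ^ (ij.2 : ℕ) := by
  rw [Fintype.linearIndependent_iff]
  intro g hg
  have h00 : D 0 (s 0) = 1 := by simpa using hD 0 0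
  have h01 : D 0 (s 1) = 0 := by simpa using hD 0 1
  have h11 : D 1 (s 1) = 1 := by simpa using hD 1 1
  have h1 := eq_zero_of_sum_pow p (D 0) h00 p le_rfl
    (fun i => ∑ j : Fin p, algebraMap K₀ K (g (i, j)) * s 1 ^ (j : ℕ)) (fun i => by
      simp [Derivation.leibniz_pow, h01]) (by
      rw [← hg, Fintype.sum_prod_type]
      refine Finset.sum_congr rfl fun i _ => ?_
      rw [Finset.sum_mul]
      refine Finset.sum_congr rfl fun j _ => ?_
      rw [Algebra.smul_def]
      ring)
  rintro ⟨i, j⟩
  have h2 := eq_zero_of_sum_pow p (D 1) h11 p le_rfl (fun j => algebraMap K₀ K (g (i, j)))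
    (fun j => by simp) (h1 i) j
  simpa using h2

theorem exists_derivation_of_separable {k K : Type*} [Field k] [Field K] [Algebra k K]
    {ι : Type*} {s : ι → K} (hs : AlgebraicIndependent k s)
    [Algebra.IsSeparable (IntermediateField.adjoin k (Set.range s)) K] (v : ι → K) :
    ∃ D : K →+ K, (∀ x y, D (x * y) = x * D y + y * D x) ∧ ∀ i, D (s i) = v i := by
  let g : MvPolynomial ι k →ₐ[k] DualNumber K :=
    MvPolynomial.aeval fun i => TrivSqZeroExt.inl (s i) + TrivSqZeroExt.inr (v i)
  have hg : ∀ f, (g f).fst = MvPolynomial.aeval s f := by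
    intro f
    have : (((TrivSqZeroExt.fstHom K K K).restrictScalars k).comp g) = MvPolynomial.aeval s := by
      apply MvPolynomial.algHom_ext
      intro i
      simp [g]
    exact DFunLike.congr_fun this f
  have hu : ∀ y : nonZeroDivisors (MvPolynomial ι k), IsUnit (g.toRingHom y) := by
    intro y
    rw [TrivSqZeroExt.isUnit_iff_isUnit_fst, isUnit_iff_ne_zero]
    change (g y).fst ≠ 0
    rw [hg]
    intro h
    exact nonZeroDivisors.ne_zero y.2 (hs (by rw [h, map_zero]))
  set F := IntermediateField.adjoin k (Set.range s) with hF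
  let g1 : FractionRing (MvPolynomial ι k) →+* DualNumber K := IsLocalization.lift hu
  let g2 : F →+* DualNumber K := g1.comp hs.aevalEquivField.symm.toRingEquiv.toRingHom
  have hg2 : ∀ x : F, (g2 x).fst = (x : K) := by
    have : ((TrivSqZeroExt.fstHom K K K).toRingHom.comp g1) =
        (algebraMap F K).comp hs.aevalEquivField.toRingEquiv.toRingHom := by
      apply IsLocalization.ringHom_ext (nonZeroDivisors (MvPolynomial ι k))
      refine RingHom.ext fun f => ?_
      change (g1 (algebraMap _ _ f)).fst = _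
      rw [IsLocalization.lift_eq]
      exact (hg f).trans (hs.aevalEquivField_algebraMap_apply_coe f).symm
    intro x
    have h := DFunLike.congr_fun this (hs.aevalEquivField.symm x)
    refine h.trans ?_
    change ((hs.aevalEquivField (hs.aevalEquivField.symm x) : F) : K) = _
    rw [AlgEquiv.apply_symm_apply]
  have hg2s : ∀ i, g2 ⟨s i, IntermediateField.subset_adjoin k _ ⟨i, rfl⟩⟩ =
      TrivSqZeroExt.inl (s i) + TrivSqZeroExt.inr (v i) := by
    intro i
    have e : hs.aevalEquivField.symm ⟨s i, IntermediateField.subset_adjoin k _ ⟨i, rfl⟩⟩ =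
        algebraMap (MvPolynomial ι k) _ (MvPolynomial.X i) := by
      rw [AlgEquiv.symm_apply_eq]
      apply Subtype.ext
      rw [hs.aevalEquivField_algebraMap_apply_coe]
      simp
    change g1 (hs.aevalEquivField.symm _) = _
    rw [e, IsLocalization.lift_eq]
    simp [g]
  have hsm : Algebra.FormallySmooth F K := by
    have := Algebra.FormallyEtale.of_isSeparable F K
    infer_instance
  obtain ⟨l, hl1, hl2⟩ : ∃ l : K →+* DualNumber K, (∀ x, (l x).fst = x) ∧
      ∀ x : F, l x = g2 x := by
    let alg : Algebra F (DualNumber K) := g2.toAlgebra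
    let π : @AlgHom F (DualNumber K) K _ _ _ alg _ :=
      @AlgHom.mk F (DualNumber K) K _ _ _ alg _ (TrivSqZeroExt.fstHom K K K).toRingHom hg2
    have hπ : Function.Surjective π := fun x => ⟨TrivSqZeroExt.inl x, rfl⟩
    have hnil : IsNilpotent (RingHom.ker (π : DualNumber K →+* K)) := by
      refine ⟨2, (Submodule.pow_succ _).trans ?_⟩
      rw [Submodule.pow_one, Ideal.zero_eq_bot, eq_bot_iff, Ideal.mul_le]
      intro a ha b hb
      have ha' : a.fst = 0 := ha
      have hb' : b.fst = 0 := hb
      rw [Ideal.mem_bot]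
      ext <;> simp [ha', hb']
    let l := @Algebra.FormallySmooth.liftOfSurjective F K _ _ _ (DualNumber K) _ alg K _ _ hsm
      (AlgHom.id F K) π hπ hnil
    refine ⟨l.toRingHom, fun x => ?_, fun x => l.commutes x⟩
    exact DFunLike.congr_fun (@Algebra.FormallySmooth.comp_liftOfSurjective F K _ _ _
      (DualNumber K) _ alg K _ _ hsm (AlgHom.id F K) π hπ hnil) x
  refine ⟨{ toFun := fun x => (l x).snd, map_zero' := by simp, map_add' := by simp }, ?_, ?_⟩
  · intro x y
    simp [hl1, mul_comm]
  · intro i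
    have := hl2 ⟨s i, IntermediateField.subset_adjoin k _ ⟨i, rfl⟩⟩
    change (l (s i)).snd = v i
    rw [this, hg2s]
    simp

end Deriv

end Pool.Agent.Lib.MP_cf0da3_ag
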