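import Pool.Agent.Lib.MP_cf0da3_ag.Hull
import Pool.Agent.Lib.MP_cf0da3_ag.Setup1A

/-! First consequences of the set-up: finiteness, separability, `p`-basis, derivations. -/

set_option linter.unusedSectionVars false

namespace Pool.Agent.Lib.MP_cf0da3_ag

open Module Filter TensorProduct

namespace Setup

variable {p N : ℕ} [Fact p.Prime] {k K K₀ V : Type} [Field k] [IsAlgClosed k] [CharP k p]
  [Field K] [Field K₀] [Algebra k K] [Algebra k K₀] [Algebra K₀ K] [IsScalarTower k K₀ K]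
  [AddCommGroup V] [Module K₀ V] [Module k V] [IsScalarTower k K₀ V] (S : Setup p N k K K₀ V)

include S in
theorem charP_K : CharP K p := charP_of_injective_algebraMap (algebraMap k K).injective p

/-- The Frobenius as an isomorphism onto the field of `p`-th powers. -/
noncomputable def fr : K ≃+* K₀ :=
  haveI := S.charP_K
  RingEquiv.ofBijective
    ({ toFun := fun x => (S.frob_mem x).choose
       map_one' := (algebraMap K₀ K).injective (by rw [(S.frob_mem _).choose_spec]; simp)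
       map_mul' := fun x y => (algebraMap K₀ K).injective (by
        rw [map_mul, (S.frob_mem _).choose_spec, (S.frob_mem _).choose_spec,
          (S.frob_mem _).choose_spec, mul_pow])
       map_zero' := (algebraMap K₀ K).injective (by
        rw [(S.frob_mem _).choose_spec, map_zero, zero_pow (Fact.out : p.Prime).ne_zero])
       map_add' := fun x y => (algebraMap K₀ K).injective (by
        rw [map_add, (S.frob_mem _).choose_spec, (S.frob_mem _).choose_spec,
          (S.frob_mem _).choose_spec, add_pow_char]) } : K →+* K₀)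
    ⟨RingHom.injective _, fun y => by
      obtain ⟨x, hx⟩ := S.frob_surj y
      exact ⟨x, (algebraMap K₀ K).injective (((S.frob_mem x).choose_spec).trans hx.symm)⟩⟩

theorem algebraMap_fr (x : K) : algebraMap K₀ K (S.fr x) = x ^ p :=
  (S.frob_mem x).choose_spec

theorem fr_eq {x : K} {y : K₀} (h : algebraMap K₀ K y = x ^ p) : S.fr x = y :=
  (algebraMap K₀ K).injective (by rw [algebraMap_fr, h])

theorem fr_algebraMap (c : k) : S.fr (algebraMap k K c) = algebraMap k K₀ (c ^ p) :=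
  S.fr_eq (by rw [← IsScalarTower.algebraMap_apply, map_pow])

theorem fr_alg (c : k) : ∃ c' : k, S.fr.toRingHom (algebraMap k K c) = algebraMap k K₀ c' :=
  ⟨c ^ p, S.fr_algebraMap c⟩

theorem fr_symm_alg (c : k) :
    ∃ c' : k, S.fr.symm.toRingHom (algebraMap k K₀ c) = algebraMap k K c' := by
  obtain ⟨c', rfl⟩ := IsAlgClosed.exists_pow_nat_eq c (Fact.out : p.Prime).pos
  exact ⟨c', by rw [← S.fr_algebraMap]; exact S.fr.symm_apply_apply _⟩

theorem fr_s (i : Fin 2) : S.fr (S.s i) = S.s₀ i := S.fr_eq (S.s₀_eq i)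

theorem fr_symm_s (i : Fin 2) : S.fr.symm (S.s₀ i) = S.s i := by
  rw [← S.fr_s, RingEquiv.symm_apply_apply]

theorem fr_mem_W₀ (x : K) : S.fr x ∈ S.W₀ ↔ x ∈ S.W := S.W₀_iff _ _ (S.algebraMap_fr x)

theorem fr_mem_U3 (x : K) : S.fr x ∈ U3 k S.s₀ ↔ x ∈ U3 k S.s :=
  ⟨fun h => by simpa using map_mem_U3 S.fr.symm.toRingHom S.fr_symm_alg S.fr_symm_s h,
    fun h => map_mem_U3 S.fr.toRingHom S.fr_alg S.fr_s h⟩

theorem fr_mem_Rg {U : Submodule k K} {U₀ : Submodule k K₀} (hU : ∀ x, S.fr x ∈ U₀ ↔ x ∈ U)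
    (t : ℤ) (x : K) : S.fr x ∈ Rg U₀ t ↔ x ∈ Rg U t := by
  constructor
  · intro h
    have := map_mem_Rg S.fr.symm.toRingHom S.fr_symm_alg (U := U₀) (U' := U) (fun y hy => by
      rw [← hU]; simpa using hy) h
    simpa using this
  · intro h
    exact map_mem_Rg S.fr.toRingHom S.fr_alg (fun y hy => (hU y).mpr hy) h

theorem mem_Rg₀_iff (t : ℤ) {x : K} {y : K₀} (h : algebraMap K₀ K y = x ^ p) :
    y ∈ Rg S.W₀ t ↔ x ∈ Rg S.W t := by
  rw [← S.fr_eq h]; exact S.fr_mem_Rg S.fr_mem_W₀ t x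

theorem mem_Rg_U3₀_iff (t : ℤ) {x : K} {y : K₀} (h : algebraMap K₀ K y = x ^ p) :
    y ∈ Rg (U3 k S.s₀) t ↔ x ∈ Rg (U3 k S.s) t := by
  rw [← S.fr_eq h]; exact S.fr_mem_Rg S.fr_mem_U3 t x

theorem algInd₀ : AlgebraicIndependent k S.s₀ := by
  have h := S.algInd.ringHom_of_comp_eq (frobeniusEquiv k p) S.fr (frobeniusEquiv k p).surjective
    S.fr.injective (RingHom.ext fun c => (S.fr_algebraMap c).symm)
  have e : S.fr ∘ S.s = S.s₀ := funext S.fr_s
  rwa [e] at h

theorem algInd_sF : AlgebraicIndependent k S.sF :=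
  AlgebraicIndependent.of_comp S.F.val S.algInd

theorem algInd_sF₀ : AlgebraicIndependent k S.sF₀ :=
  AlgebraicIndependent.of_comp S.F₀.val S.algInd₀

theorem adjoin_sF : IntermediateField.adjoin k (Set.range S.sF) = ⊤ :=
  adjoin_range_coe_eq_top S.s

theorem adjoin_sF₀ : IntermediateField.adjoin k (Set.range S.sF₀) = ⊤ :=
  adjoin_range_coe_eq_top S.s₀

theorem U3_le_W : U3 k S.s ≤ S.W := U3_le S.one_mem S.s_mem

theorem one_mem₀ : (1 : K₀) ∈ S.W₀ := by
  simpa using (S.fr_mem_W₀ 1).mpr S.one_mem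

theorem U3_le_W₀ : U3 k S.s₀ ≤ S.W₀ :=
  U3_le S.one_mem₀ fun i => by rw [← S.fr_s]; exact (S.fr_mem_W₀ _).mpr (S.s_mem i)

theorem rank_eq_of_fr {A : Submodule k K} {A₀ : Submodule k K₀} (h : ∀ x, S.fr x ∈ A₀ ↔ x ∈ A) :
    Module.rank k A = Module.rank k A₀ := by
  let j : A ≃+ A₀ :=
    { toFun := fun x => ⟨S.fr x, (h x).mpr x.2⟩
      invFun := fun y => ⟨S.fr.symm y, (h _).mp (by simp)⟩
      left_inv := fun x => by simp
      right_inv := fun y => by simp
      map_add' := fun x y => by simp }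
  refine rank_eq_of_equiv_equiv (frobeniusEquiv k p) j (frobeniusEquiv k p).bijective ?_
  intro c x
  apply Subtype.ext
  change S.fr (c • (x : K)) = (c ^ p) • S.fr x
  rw [Algebra.smul_def, Algebra.smul_def, map_mul, fr_algebraMap]

theorem fd₀ : FiniteDimensional k S.W₀ := by
  have := S.geo.fd
  apply Module.rank_lt_aleph0_iff.mp
  rw [← S.rank_eq_of_fr S.fr_mem_W₀]
  exact Module.rank_lt_aleph0 k _

theorem hf_Rg₀ (t : ℤ) : hf (Rg S.W₀) t = hf (Rg S.W) t := by
  unfold hf finrank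
  rw [S.rank_eq_of_fr (S.fr_mem_Rg S.fr_mem_W₀ t)]

theorem e_ne_zero (i : Fin N) : S.e i ≠ 0 := S.e_li.ne_zero i

theorem isFG_U3_Rg₀ : IsFG (U3 k S.s₀) (Rg S.W₀) := by
  let i₀ : Fin N := ⟨0, S.N_pos⟩
  have h1 : IsFG (U3 k S.s₀) (cyc S.W₀ 0 (S.e i₀)) :=
    (isFG_gen (U3 k S.s₀) (fun _ => 0) S.e).of_le ((isMod_cyc _ _ _).of_le S.U3_le_W₀)
      (cyc_le S.ulrich (self_mem_gen _ (fun _ => 0) S.e i₀))
  obtain ⟨l, hl⟩ := Submodule.exists_dual_map_eq_bot_of_notMem (R := K₀) (p := (⊥ : Submodule K₀ V))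
    (x := S.e i₀) (by simpa using S.e_ne_zero i₀) inferInstance
  have hl0 : l (S.e i₀) ≠ 0 := hl.1
  have h2 := h1.map ((l (S.e i₀))⁻¹ • l)
  have e : (fun t => (cyc S.W₀ 0 (S.e i₀) t).map
      (((l (S.e i₀))⁻¹ • l).restrictScalars k)) = Rg S.W₀ := by
    funext t
    ext x
    simp only [Submodule.mem_map, mem_cyc, sub_zero, LinearMap.coe_restrictScalars]
    constructor
    · rintro ⟨_, ⟨f, hf, rfl⟩, rfl⟩
      simpa [hl0] using hf
    · intro hx
      exact ⟨_, ⟨x, hx, rfl⟩, by simp [hl0]⟩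
  rwa [e] at h2

theorem isFG_U3_Rg : IsFG (U3 k S.s) (Rg S.W) := by
  obtain ⟨n, b, v, h⟩ := S.isFG_U3_Rg₀
  refine ⟨n, b, fun i => S.fr.symm (v i), ?_⟩
  funext t
  ext x
  rw [← S.fr_mem_Rg S.fr_mem_W₀, h, mem_gen, mem_gen]
  constructor
  · rintro ⟨f, hf, e⟩
    refine ⟨fun i => S.fr.symm (f i), fun i => ?_, ?_⟩
    · rw [← S.fr_mem_Rg S.fr_mem_U3]; simpa using hf i
    · apply S.fr.injective
      rw [← e]; simp
  · rintro ⟨f, hf, rfl⟩
    exact ⟨fun i => S.fr (f i), fun i => (S.fr_mem_Rg S.fr_mem_U3 _ _).mpr (hf i), by simp⟩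

theorem ctx₀ : Ctx S.W₀ := by
  refine ⟨S.fd₀, S.one_mem₀, fun y => ?_, S.s₀, fun i => S.U3_le_W₀ (s_mem_U3 _ i), S.isFG_U3_Rg₀⟩
  obtain ⟨x, rfl⟩ := S.fr.surjective y
  obtain ⟨a, h, hh, h0, hx⟩ := S.geo.frac x
  refine ⟨a, S.fr h, (S.fr_mem_Rg S.fr_mem_W₀ _ _).mpr hh, by simpa using h0, ?_⟩
  rw [← map_mul]
  exact (S.fr_mem_Rg S.fr_mem_W₀ _ _).mpr hx

theorem ctx : Ctx S.W :=
  ⟨S.geo.fd, S.one_mem, S.geo.frac, S.s, S.s_mem, S.isFG_U3_Rg⟩

theorem hilb : ∀ᶠ t : ℤ in atTop, 2 * hf (Rg S.W) t = 1715 * t * (t - 5) + 9604 := by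
  obtain ⟨c₂, c₁, c₀, h⟩ := S.ctx.evQuad (isFG_Rg S.W)
  obtain ⟨j₀, hj₀⟩ := eventually_atTop.mp S.geo.hilb
  obtain ⟨t₀, ht₀⟩ := eventually_atTop.mp h
  have key := quad_eq_of_eventually (a₂ := c₂) (a₁ := c₁) (a₀ := c₀) (b₂ := 1715 / 2)
    (b₁ := -8575 / 2) (b₀ := 4802) (n := 7) (by norm_num) (by
      refine eventually_atTop.mpr ⟨max (j₀ : ℤ) (max t₀ 0), fun j hj => ?_⟩
      have h1 : (j₀ : ℤ) ≤ j := le_trans (le_max_left _ _) hj
      have h2 : max t₀ 0 ≤ j := le_trans (le_max_right _ _) hj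
      have h3 : t₀ ≤ j := le_trans (le_max_left _ _) h2
      have h4 : 0 ≤ j := le_trans (le_max_right _ _) h2
      lift j to ℕ using h4
      have e1 := hj₀ j (by exact_mod_cast h1)
      have e2 := ht₀ (7 * (j : ℤ)) (by omega)
      have e3 : (2 : ℚ) * (hf (Rg S.W) (7 * (j : ℤ)) : ℚ) =
          1715 * (7 * (j : ℚ)) * (7 * (j : ℚ) - 5) + 9604 := by exact_mod_cast e1
      push_cast at e2 ⊢
      linarith)
  obtain ⟨rfl, rfl, rfl⟩ := key
  refine h.mono fun t ht => ?_
  have : (2 : ℚ) * (hf (Rg S.W) t : ℚ) = 1715 * (t : ℚ) * ((t : ℚ) - 5) + 9604 := by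
    rw [ht]; ring
  exact_mod_cast this

theorem M_eq : S.M = gen S.W₀ (fun _ => 0) S.e := by
  apply le_antisymm
  · exact gen_le ((isMod_gen _ _ _).of_le S.U3_le_W₀) fun i => self_mem_gen _ (fun _ => 0) S.e i
  · exact gen_le S.ulrich fun i => self_mem_gen _ (fun _ => 0) S.e i

theorem isFG_M : IsFG S.W₀ S.M := by
  rw [M_eq]; exact isFG_gen _ _ _

theorem M_eq_F₀ : S.M = gen (U3 k S.sF₀) (fun _ => 0) S.e :=
  gen_U3_map (K := K₀) S.sF₀ _ _

theorem hf_M (t : ℤ) : hf S.M t = N * al t := by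
  rw [M_eq_F₀, hf_gen_of_li _ S.e_li]
  simp [hf_Rg_U3 S.algInd_sF₀]

theorem spanK_M_inf (Y : Submodule K₀ V) : spanK K₀ (S.M ⊓ cst k Y) = Y := by
  apply le_antisymm
  · rw [spanK, Submodule.span_le]
    intro x hx
    obtain ⟨t, ht⟩ := Set.mem_iUnion.mp hx
    exact ht.2
  · intro y hy
    have hy' : y ∈ Submodule.span S.F₀ (Set.range S.e) := by rw [S.e_span]; trivial
    obtain ⟨c, hc⟩ := (Submodule.mem_span_range_iff_exists_fun _).mp hy'
    obtain ⟨a, h, -, h0, hh⟩ := (ctx_U3 S.adjoin_sF₀).common_denom c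
    have h1 : h • y ∈ S.M a := by
      rw [M_eq_F₀, mem_gen]
      exact ⟨fun i => h * c i, fun i => by simpa using hh i, by
        rw [← hc, Finset.smul_sum]; simp [mul_smul]⟩
    have h2 : (h : K₀) • y ∈ spanK K₀ (S.M ⊓ cst k Y) :=
      Submodule.subset_span (Set.mem_iUnion.mpr ⟨a, h1, Y.smul_mem _ hy⟩)
    have h3 := Submodule.smul_mem _ (h : K₀)⁻¹ h2
    rwa [inv_smul_smul₀ (by simpa using h0)] at h3

theorem finite_V_F₀ : Module.Finite S.F₀ V :=
  ⟨S.e_span ▸ Submodule.fg_span (Set.finite_range _)⟩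

include S in
theorem finite_V : Module.Finite K₀ V :=
  have := S.finite_V_F₀
  Module.Finite.of_restrictScalars_finite S.F₀ K₀ V

include S in
theorem N_eq : N = 1715 * finrank K₀ V := by
  have := S.finite_V
  have hsp : spanK K₀ S.M = ⊤ := by
    have h := S.spanK_M_inf ⊤
    have e : S.M ⊓ cst k (⊤ : Submodule K₀ V) = S.M := inf_eq_left.mpr fun t x _ => trivial
    rwa [e] at h
  obtain ⟨a, c, h⟩ := hf_sandwich S.ctx₀ S.isFG_M hsp
  obtain ⟨t₀, ht₀⟩ := eventually_atTop.mp S.hilb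
  set r := finrank K₀ V
  have h1 := quad_le_of_eventually' (a₂ := 1715 * r) (a₁ := 1715 * r * (-2 * a - 5))
    (a₀ := r * (1715 * a * (a + 5) + 9604)) (b₂ := N) (b₁ := 3 * N) (b₀ := 2 * N) (by
      refine eventually_atTop.mpr ⟨max 0 (t₀ + a), fun t ht => ?_⟩
      have e1 := (h t).1
      rw [hf_M, hf_Rg₀] at e1
      have e2 := ht₀ (t - a) (by have := le_max_right 0 (t₀ + a); omega)
      have e3 := two_mul_al (x := t) (by have := le_max_left 0 (t₀ + a); omega)
      have e4 : (r : ℤ) * (1715 * (t - a) * (t - a - 5) + 9604) ≤ N * ((t + 1) * (t + 2)) := by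
        rw [← e2, ← e3]; linarith
      have e5 : (r : ℚ) * (1715 * (t - a) * (t - a - 5) + 9604) ≤ N * ((t + 1) * (t + 2)) := by
        exact_mod_cast e4
      linarith)
  have h2 := quad_le_of_eventually' (b₂ := 1715 * r) (b₁ := 1715 * r * (2 * c - 5))
    (b₀ := r * (1715 * c * (c - 5) + 9604)) (a₂ := N) (a₁ := 3 * N) (a₀ := 2 * N) (by
      refine eventually_atTop.mpr ⟨max 0 (t₀ - c), fun t ht => ?_⟩
      have e1 := (h t).2
      rw [hf_M, hf_Rg₀] at e1
      have e2 := ht₀ (t + c) (by have := le_max_right 0 (t₀ - c); omega)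
      have e3 := two_mul_al (x := t) (by have := le_max_left 0 (t₀ - c); omega)
      have e4 : N * ((t + 1) * (t + 2)) ≤ (r : ℤ) * (1715 * (t + c) * (t + c - 5) + 9604) := by
        rw [← e2, ← e3]; linarith
      have e5 : N * ((t + 1) * (t + 2)) ≤ (r : ℚ) * (1715 * (t + c) * (t + c - 5) + 9604) := by
        exact_mod_cast e4
      linarith)
  exact_mod_cast le_antisymm h2.1 h1.1

theorem finrank_F₀ : finrank S.F₀ K₀ = 1715 := by
  have h1 : finrank S.F₀ V = N := by
    simpa using finrank_eq_card_basis (Basis.mk S.e_li S.e_span.ge)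
  have h2 := Module.finrank_mul_finrank S.F₀ K₀ V
  have h3 := S.N_eq
  have h4 := S.N_pos
  have h5 : 0 < finrank K₀ V := by omega
  exact Nat.eq_of_mul_eq_mul_right h5 (by rw [h2, h1, ← h3])

theorem finrank_F : finrank S.F K = 1715 := by
  let i : S.F ≃+* S.F₀ :=
    { toFun := fun x => ⟨S.fr x, map_mem_adjoin S.fr.toRingHom S.fr_alg S.fr_s x.2⟩
      invFun := fun y => ⟨S.fr.symm y,
        map_mem_adjoin S.fr.symm.toRingHom S.fr_symm_alg S.fr_symm_s y.2⟩
      left_inv := fun x => by simp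
      right_inv := fun y => by simp
      map_mul' := fun x y => Subtype.ext (by simp)
      map_add' := fun x y => Subtype.ext (by simp) }
  rw [Algebra.finrank_eq_of_equiv_equiv i S.fr (RingHom.ext fun x => rfl), finrank_F₀]

/-- Every element of `W` is a simple root of a polynomial of controlled degree. Here
`Submodule.span k {X, C 1, C (s 0), C (s 1)} ^ N` encodes the degree bounds. -/
theorem exists_poly (hp : N < p) {w : K} (hw : w ∈ S.W) :
    ∃ ν : Polynomial K, ν ∈ (Submodule.span k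
        {Polynomial.X, Polynomial.C 1, Polynomial.C (S.s 0), Polynomial.C (S.s 1)} :
        Submodule k (Polynomial K)) ^ N ∧
      ν.eval w = 0 ∧ ν.derivative.eval w ≠ 0 := by
  have := S.charP_K
  have h1 : ∀ i, S.fr w • S.e i ∈ gen (U3 k S.s₀) (fun _ => 0) S.e (0 + 1) := fun i =>
    S.ulrich 0 _ ((S.fr_mem_W₀ w).mpr hw) _ (self_mem_gen _ (fun _ => 0) S.e i)
  choose a ha hsum using fun i => mem_gen.mp (h1 i)
  let A : Matrix (Fin N) (Fin N) K := fun i j => S.fr.symm (a i j)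
  have hA : ∀ i j, A i j ∈ U3 k S.s := fun i j => by
    rw [← S.fr_mem_U3]
    have := ha i j
    rw [zero_add, sub_zero, Rg_one] at this
    simpa [A] using this
  refine exists_simple_root p hp (charpoly_mem_PX A hA) A.charpoly_monic.ne_zero
    (by simp) ?_
  rw [Matrix.eval_charpoly]
  apply S.fr.injective
  rw [map_zero, RingEquiv.map_det]
  let i₀ : Fin N := ⟨0, S.N_pos⟩
  obtain ⟨l, hl⟩ := Submodule.exists_dual_map_eq_bot_of_notMem (R := K₀) (p := (⊥ : Submodule K₀ V))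
    (x := S.e i₀) (by simpa using S.e_ne_zero i₀) inferInstance
  refine Matrix.exists_mulVec_eq_zero_iff.mp ⟨fun i => l (S.e i), fun h => hl.1 (congrFun h i₀), ?_⟩
  funext i
  have h2 := congrArg l (hsum i)
  simp only [map_sum, map_smul, smul_eq_mul] at h2
  have h3 : ∀ j, S.fr ((Matrix.scalar (Fin N) w - A) i j) =
      (if i = j then S.fr w else 0) - a i j := by
    intro j
    rw [Matrix.sub_apply, map_sub, Matrix.scalar_apply, Matrix.diagonal_apply]
    split_ifs <;> simp [A]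
  change ∑ j, S.fr ((Matrix.scalar (Fin N) w - A) i j) * l (S.e j) = 0
  simp only [h3]
  simp [sub_mul, Finset.sum_sub_distrib, h2]

/-- A common denominator of bounded degree for the derivatives of the elements of `W`. -/
theorem exists_denom (hp : N < p) :
    ∃ Δ ∈ Rg S.W ((120 * N : ℕ) : ℤ), Δ ≠ 0 ∧ ∀ D : Derivation k K K,
      (∀ i, ∃ c : k, D (S.s i) = algebraMap k K c) →
      ∀ w ∈ S.W, Δ * D w ∈ Rg S.W ((120 * N : ℕ) : ℤ) := by
  classical
  have := S.geo.fd
  let b := Module.finBasis k S.W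
  choose ν hν h0 h1 using fun i => S.exists_poly hp (b i).2
  have hd : ∀ i, (ν i).derivative.eval (b i : K) ∈ Rg S.W (N : ℤ) := fun i => by
    rw [Rg_natCast]
    exact eval_mem_of_PX_pow S.U3_le_W (b i).2 (derivative_mem_PX_pow (hν i))
  have hle : (∑ _i : Fin (finrank k S.W), (N : ℤ)) ≤ ((120 * N : ℕ) : ℤ) := by
    have := S.geo.rank_le
    simp only [Finset.sum_const, Finset.card_univ, Fintype.card_fin, nsmul_eq_mul]
    exact_mod_cast Nat.mul_le_mul_right N this
  refine ⟨∏ i, (ν i).derivative.eval (b i : K),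
    Rg_mono S.one_mem hle (prod_mem_Rg _ _ _ fun i _ => hd i),
    Finset.prod_ne_zero_iff.mpr fun i _ => h1 i, fun D hD w hw => ?_⟩
  have hb : ∀ i, (∏ i, (ν i).derivative.eval (b i : K)) * D (b i) ∈
      Rg S.W ((120 * N : ℕ) : ℤ) := fun i => by
    refine Rg_mono S.one_mem hle ?_
    rw [← Finset.prod_erase_mul _ _ (Finset.mem_univ i),
      ← Finset.sum_erase_add _ _ (Finset.mem_univ i), mul_assoc]
    refine mul_mem_Rg (prod_mem_Rg _ _ _ fun j _ => hd j) ?_
    have := deriv_eval_mem_of_PX_pow S.U3_le_W D hD (b i).2 (hν i)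
    rw [h0, map_zero, zero_sub, neg_mem_iff] at this
    rwa [Rg_natCast]
  have e : w = ∑ i, b.repr ⟨w, hw⟩ i • (b i : K) := by
    have := congrArg S.W.subtype (b.sum_repr ⟨w, hw⟩)
    rw [map_sum] at this
    exact this.symm
  rw [e, map_sum, Finset.mul_sum]
  refine Submodule.sum_mem _ fun i _ => ?_
  rw [D.map_smul, mul_smul_comm]
  exact Submodule.smul_mem _ _ (hb i)

theorem isSeparable (hp : N < p) (E : Type) [Field E] [Algebra E K]
    (hk : ∀ c : k, ∃ e, algebraMap E K e = algebraMap k K c)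
    (hs : ∀ i, ∃ e, algebraMap E K e = S.s i) : Algebra.IsSeparable E K := by
  have h1 : ∀ w ∈ S.W, w ∈ separableClosure E K := by
    intro w hw
    obtain ⟨ν, hν, h0, h1⟩ := S.exists_poly hp hw
    obtain ⟨ν₀, rfl⟩ := exists_map_eq_of_PX_pow hk hs hν
    exact mem_separableClosure_iff.mpr (isSeparable_of_simple_root ν₀ h0 h1)
  have h2 : ∀ (a : ℤ), ∀ x ∈ Rg S.W a, x ∈ separableClosure E K := by
    intro a x hx
    rcases lt_or_ge a 0 with ha | ha
    · rw [Rg_of_neg _ ha, Submodule.mem_bot] at hx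
      rw [hx]; exact zero_mem _
    lift a to ℕ using ha
    rw [Rg_natCast] at hx
    induction hx using Submodule.pow_induction_on_left' with
    | algebraMap r =>
      obtain ⟨e, he⟩ := hk r
      rw [← he]; exact IntermediateField.algebraMap_mem _ e
    | add x y i hx hy ihx ihy => exact add_mem ihx ihy
    | mem_mul m hm i x hx ih => exact mul_mem (h1 m hm) ih
  refine ⟨fun x => mem_separableClosure_iff.mp ?_⟩
  obtain ⟨a, h, hh, h0, hx⟩ := S.geo.frac x
  have := mul_mem (inv_mem (h2 a h hh)) (h2 a _ hx)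
  rwa [inv_mul_cancel_left₀ h0] at this

theorem exists_derivations (hp : N < p) : ∃ D : Fin 2 → Derivation K₀ K K,
    ∀ i j, D i (S.s j) = if i = j then 1 else 0 := by
  have := S.charP_K
  have hsep : Algebra.IsSeparable S.F K := S.isSeparable hp S.F
    (fun c => ⟨algebraMap k S.F c, rfl⟩) (fun i => ⟨S.sF i, rfl⟩)
  choose D hD hs using fun i : Fin 2 =>
    exists_derivation_of_separable S.algInd (fun j => if i = j then (1 : K) else 0)
  have h1 : ∀ i (x : K) (n : ℕ), D i (x ^ (n + 1)) = (n + 1 : ℕ) * x ^ n * D i x := by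
    intro i x n
    induction n with
    | zero => simp
    | succ n ih => rw [pow_succ, hD, ih]; push_cast; ring
  have h2 : ∀ i (y : K₀), D i (algebraMap K₀ K y) = 0 := by
    intro i y
    obtain ⟨x, hx⟩ := S.frob_surj y
    obtain ⟨n, hn⟩ := Nat.exists_eq_succ_of_ne_zero (Fact.out : p.Prime).ne_zero
    have hp0 : ((n + 1 : ℕ) : K) = 0 := by
      rw [← Nat.succ_eq_add_one, ← hn]; exact CharP.cast_eq_zero K p
    rw [hx, hn, h1, hp0, zero_mul, zero_mul]
  refine ⟨fun i => Derivation.mk'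
    { toFun := D i
      map_add' := map_add (D i)
      map_smul' := fun c x => by
        simp [Algebra.smul_def, hD, h2] } (fun x y => hD i x y), fun i j => hs i j⟩

theorem span_pbasis (hp : N < p) : Submodule.span K₀ (Set.range fun ij : Fin p × Fin p =>
    S.s 0 ^ (ij.1 : ℕ) * S.s 1 ^ (ij.2 : ℕ)) = ⊤ := by
  have := S.charP_K
  have hp0 : 0 < p := (Fact.out : p.Prime).pos
  let E := IntermediateField.adjoin K₀ (Set.range S.s)
  have hsep : Algebra.IsSeparable E K := S.isSeparable hp E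
    (fun c => ⟨algebraMap K₀ E (algebraMap k K₀ c), by
      rw [← IsScalarTower.algebraMap_apply, ← IsScalarTower.algebraMap_apply]⟩)
    (fun i => ⟨⟨S.s i, IntermediateField.subset_adjoin _ _ ⟨i, rfl⟩⟩, rfl⟩)
  have hE : CharP E p := (algebraMap E K).charP_iff_charP p |>.mpr inferInstance
  have hins : IsPurelyInseparable E K := by
    rw [isPurelyInseparable_iff_pow_mem E p]
    intro x
    refine ⟨1, algebraMap K₀ E (S.fr x), ?_⟩
    rw [← IsScalarTower.algebraMap_apply, algebraMap_fr, pow_one]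
  have hsurj := IsPurelyInseparable.surjective_algebraMap_of_isSeparable E K
  have halg : ∀ x ∈ Set.range S.s, IsAlgebraic K₀ x := by
    intro x _
    refine IsAlgebraic.of_pow hp0 ?_
    rw [← S.algebraMap_fr]
    exact isAlgebraic_algebraMap _
  set T := Submodule.span K₀ (Set.range fun ij : Fin p × Fin p =>
    S.s 0 ^ (ij.1 : ℕ) * S.s 1 ^ (ij.2 : ℕ)) with hT
  have hmon : ∀ a b : ℕ, S.s 0 ^ a * S.s 1 ^ b ∈ T := by
    intro a b
    have e : S.s 0 ^ a * S.s 1 ^ b = (S.s₀ 0 ^ (a / p) * S.s₀ 1 ^ (b / p)) •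
        (S.s 0 ^ (a % p) * S.s 1 ^ (b % p)) := by
      rw [Algebra.smul_def, map_mul, map_pow, map_pow, S.s₀_eq, S.s₀_eq, ← pow_mul, ← pow_mul]
      conv_lhs => rw [← Nat.div_add_mod a p, ← Nat.div_add_mod b p]
      ring
    rw [e]
    exact Submodule.smul_mem _ _ (Submodule.subset_span
      ⟨(⟨a % p, Nat.mod_lt _ hp0⟩, ⟨b % p, Nat.mod_lt _ hp0⟩), rfl⟩)
  have hmul : ∀ i, ∀ x ∈ T, S.s i * x ∈ T := by
    intro i x hx
    induction hx using Submodule.span_induction with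
    | mem x hx =>
      obtain ⟨ij, rfl⟩ := hx
      fin_cases i
      · have := hmon (ij.1 + 1) ij.2
        rwa [pow_succ', mul_assoc] at this
      · have := hmon ij.1 (ij.2 + 1)
        rwa [pow_succ', mul_left_comm] at this
    | zero => simp
    | add x y _ _ ihx ihy => rw [mul_add]; exact add_mem ihx ihy
    | smul c x _ ih => rw [mul_smul_comm]; exact Submodule.smul_mem _ _ ih
  have hadj : ∀ y ∈ Algebra.adjoin K₀ (Set.range S.s), ∀ x ∈ T, y * x ∈ T := by
    intro y hy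
    induction hy using Algebra.adjoin_induction with
    | mem y hy => obtain ⟨i, rfl⟩ := hy; exact hmul i
    | algebraMap c => intro x hx; rw [← Algebra.smul_def]; exact Submodule.smul_mem _ _ hx
    | add y z _ _ ihy ihz => intro x hx; rw [add_mul]; exact add_mem (ihy x hx) (ihz x hx)
    | mul y z _ _ ihy ihz => intro x hx; rw [mul_assoc]; exact ihy _ (ihz x hx)
  rw [eq_top_iff]
  intro x _
  obtain ⟨y, rfl⟩ := hsurj x
  have hy : (y : K) ∈ Algebra.adjoin K₀ (Set.range S.s) := by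
    rw [← IntermediateField.adjoin_toSubalgebra_of_isAlgebraic halg]; exact y.2
  simpa using hadj _ hy _ (hmon 0 0)

theorem exists_pbasis (hp : N < p) : ∃ b : Basis (Fin p × Fin p) K₀ K,
    ∀ ij : Fin p × Fin p, b ij = S.s 0 ^ (ij.1 : ℕ) * S.s 1 ^ (ij.2 : ℕ) := by
  have := S.charP_K
  obtain ⟨D, hD⟩ := S.exists_derivations hp
  exact ⟨Basis.mk (linearIndependent_pbasis p S.s D hD) (S.span_pbasis hp).ge, fun ij => by simp⟩

theorem exists_basis_e' (hp : N < p) : ∃ e : Basis (Fin N) S.F (K ⊗[K₀] V),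
    ∀ i, e i = S.e' i := by
  have hrank : Fintype.card (Fin N) = finrank S.F (K ⊗[K₀] V) := by
    rw [← Module.finrank_mul_finrank S.F K (K ⊗[K₀] V), finrank_F, Module.finrank_baseChange,
      Fintype.card_fin]
    exact S.N_eq
  set T := Submodule.span S.F (Set.range S.e') with hT
  have h1 : ∀ v : V, (1 : K) ⊗ₜ[K₀] v ∈ T := by
    intro v
    have hv : v ∈ Submodule.span S.F₀ (Set.range S.e) := by rw [S.e_span]; trivial
    obtain ⟨c, rfl⟩ := (Submodule.mem_span_range_iff_exists_fun _).mp hv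
    rw [tmul_sum]
    refine Submodule.sum_mem _ fun i _ => ?_
    have hc : algebraMap K₀ K (c i) ∈ S.F := by
      have h := map_mem_adjoin S.fr.symm.toRingHom S.fr_symm_alg S.fr_symm_s (c i).2
      have := pow_mem h p
      rw [← S.algebraMap_fr] at this
      simpa using this
    have e : (1 : K) ⊗ₜ[K₀] (c i • S.e i) = (⟨_, hc⟩ : S.F) • S.e' i := by
      change (1 : K) ⊗ₜ[K₀] ((c i : K₀) • S.e i) = algebraMap K₀ K (c i) • ((1 : K) ⊗ₜ[K₀] S.e i)
      rw [tmul_smul, algebraMap_smul]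
    rw [e]
    exact Submodule.smul_mem _ _ (Submodule.subset_span ⟨i, rfl⟩)
  have h2 : ∀ (x : K) (v : V), x ⊗ₜ[K₀] v ∈ T := by
    intro x
    have hx : x ∈ Submodule.span K₀ (Set.range fun ij : Fin p × Fin p =>
      S.s 0 ^ (ij.1 : ℕ) * S.s 1 ^ (ij.2 : ℕ)) := by rw [S.span_pbasis hp]; trivial
    induction hx using Submodule.span_induction with
    | mem x hx =>
      obtain ⟨ij, rfl⟩ := hx
      intro v
      have e : (S.s 0 ^ (ij.1 : ℕ) * S.s 1 ^ (ij.2 : ℕ)) ⊗ₜ[K₀] v =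
          (S.sF 0 ^ (ij.1 : ℕ) * S.sF 1 ^ (ij.2 : ℕ)) • ((1 : K) ⊗ₜ[K₀] v) := by
        change _ = (S.s 0 ^ (ij.1 : ℕ) * S.s 1 ^ (ij.2 : ℕ)) • ((1 : K) ⊗ₜ[K₀] v)
        rw [smul_tmul', smul_eq_mul, mul_one]
      beta_reduce
      rw [e]
      exact Submodule.smul_mem _ _ (h1 v)
    | zero => intro v; simp
    | add x y _ _ ihx ihy => intro v; rw [add_tmul]; exact add_mem (ihx v) (ihy v)
    | smul c x _ ih => intro v; rw [smul_tmul]; exact ih _
  have hsp : ⊤ ≤ T := by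
    intro z hz
    clear hz
    induction z using TensorProduct.induction_on with
    | zero => exact zero_mem _
    | tmul x v => exact h2 x v
    | add x y ihx ihy => exact add_mem ihx ihy
  exact ⟨basisOfTopLeSpanOfCardEqFinrank S.e' hsp hrank, fun i => by simp⟩

end Setup

end Pool.Agent.Lib.MP_cf0da3_ag
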