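import Pool.Agent.Lib.MP_cf0da3_ag.Setup2A

/-! The Hilbert polynomial of the Frobenius pull-back. -/

set_option linter.unusedSectionVars false

namespace Pool.Agent.Lib.MP_cf0da3_ag

open Module Filter TensorProduct

theorem tendsto_lin' {n : ℤ} (hn : 0 < n) (b : ℤ) :
    Tendsto (fun m : ℤ => n * m + b) atTop atTop :=
  Filter.tendsto_atTop_atTop.2 fun B => ⟨max (B - b) 0, fun m hm => by
    have h1 : B - b ≤ m := (le_max_left _ _).trans hm
    have h2 : 0 ≤ m := (le_max_right _ _).trans hm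
    nlinarith⟩

namespace Setup

variable {p N : ℕ} [Fact p.Prime] {k K K₀ V : Type} [Field k] [IsAlgClosed k] [CharP k p]
  [Field K] [Field K₀] [Algebra k K] [Algebra k K₀] [Algebra K₀ K] [IsScalarTower k K₀ K]
  [AddCommGroup V] [Module K₀ V] [Module k V] [IsScalarTower k K₀ V] (S : Setup p N k K K₀ V)

theorem tens_L_M (m : ℤ) : tens K₀ S.L S.M m = S.G (p * m) := by
  apply le_antisymm
  · rw [tens, Submodule.span_le]
    rintro _ ⟨i, j, hij, v, hv, x, hx, rfl⟩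
    rw [M_eq, mem_gen] at hx
    obtain ⟨f, hf, rfl⟩ := hx
    rw [tmul_sum]
    refine Submodule.sum_mem _ fun l _ => ?_
    have h1 : v ⊗ₜ[K₀] (f l • S.e l) = (f l • v) • S.e' l := by
      rw [e', smul_tmul', smul_eq_mul, mul_one, smul_tmul]
    rw [h1]
    have h2 : f l • v ∈ S.L m :=
      S.isMod_L.smul_mem' (hf l) hv (by rw [← hij]; ring)
    exact (isMod_gen S.W (fun _ => 0) S.e').smul_mem' h2
      (self_mem_gen S.W (fun _ => 0) S.e' l) (add_zero _)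
  · intro x hx
    obtain ⟨f, hf, rfl⟩ := mem_gen.1 hx
    refine Submodule.sum_mem _ fun l _ => ?_
    have h1 : f l • S.e' l = f l ⊗ₜ[K₀] S.e l := by
      rw [e', smul_tmul', smul_eq_mul, mul_one]
    rw [h1]
    have h2 : f l ∈ S.L m := by
      have := hf l
      rwa [sub_zero] at this
    exact tmul_mem_tens' h2 (self_mem_gen (U3 k S.s₀) (fun _ => 0) S.e l) (add_zero _)

theorem tens_L_M_inf (hp : N < p) (Y : Submodule K₀ V) : ∀ᶠ m : ℤ in atTop,
    tens K₀ S.L (S.M ⊓ cst k Y) m = (S.G ⊓ cst k (Y.baseChange K)) (p * m) := by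
  have := S.fd₀
  filter_upwards [tens_inf_eventually S.isFG_L S.isFG_M (fun q hq hrel => S.LF_L hp hq hrel) Y]
    with m hm
  rw [hm, tens_L_M]
  rfl

/-- The Hilbert function of a saturated piece of the Frobenius pull-back. -/
theorem hf_G_inf (hp : N < p) (Y : Submodule K₀ V) : ∀ᶠ m : ℤ in atTop,
    hf (S.G ⊓ cst k (Y.baseChange K)) (p * m) - finrank K₀ Y * hf (Rg S.W) (p * m) =
      ((p : ℤ) ^ 2 - 1) * (hf (S.M ⊓ cst k Y) m - finrank K₀ Y * hf (Rg S.W) m) +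
        (hf (S.M ⊓ cst k Y) (m + (5 * (p * (p - 1) / 2) : ℕ)) -
          finrank K₀ Y * hf (Rg S.W) (m + (5 * (p * (p - 1) / 2) : ℕ))) := by
  obtain ⟨b, hb⟩ := S.exists_pbasis hp
  obtain ⟨h₀, h0, hloc⟩ := S.loc_L hp b hb
  have key := lemmaD S.ctx₀ (S.isFG_M_inf Y) (fun q hq hrel => S.LF_M Y hq hrel) b S.isFG_L
    S.spanK_L h₀ h0 _ hloc
  filter_upwards [key, S.tens_L_M_inf hp Y] with m h1 h2
  have h3 : hf (tens K₀ S.L (S.M ⊓ cst k Y)) m = hf (S.G ⊓ cst k (Y.baseChange K)) (p * m) := by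
    unfold hf; rw [h2]
  have h4 : hf S.L m = hf (Rg S.W) (p * m) := rfl
  have h5 : ((Fintype.card (Fin p × Fin p) : ℕ) : ℤ) = (p : ℤ) ^ 2 := by
    simp [sq]
  rw [h3, h4, h5, hf_Rg₀, hf_Rg₀] at h1
  exact h1

theorem hf_M_inf_le (Y : Submodule K₀ V) (t : ℤ) :
    hf (S.M ⊓ cst k Y) t ≤ 1715 * finrank K₀ Y * al t := by
  have := S.fd₀
  have := S.finite_V_F₀
  have := S.finite_V
  obtain ⟨n, φ, hφ, h1, h2⟩ := exists_functionals (K := S.F₀) (Y.restrictScalars S.F₀)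
    (Set.range S.β.coord)
  have hbot : (Y.restrictScalars S.F₀ ⊓ ⨅ ψ ∈ Set.range S.β.coord, LinearMap.ker ψ :
      Submodule S.F₀ V) = ⊥ := by
    rw [eq_bot_iff]
    intro x hx
    rw [Submodule.mem_bot, ← S.β.forall_coord_eq_zero_iff]
    intro i
    exact (Submodule.mem_iInf _).1 ((Submodule.mem_iInf _).1 hx.2 (S.β.coord i)) ⟨i, rfl⟩
  rw [hbot] at h1 h2
  have h3 : finrank S.F₀ (Y.restrictScalars S.F₀) = 1715 * finrank K₀ Y := by
    rw [← S.finrank_F₀]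
    exact (Module.finrank_mul_finrank S.F₀ K₀ Y).symm
  have hn : n = 1715 * finrank K₀ Y := by
    rw [finrank_bot, add_zero] at h2
    exact h2.trans h3
  have := (S.isFG_M_inf Y).finiteDimensional t
  have h4 := hf_sub_le_of_functionals (K := S.F₀) S.algInd_sF₀ (L := S.M ⊓ cst k Y) φ 0 t
    (fun i v hv => by
      obtain ⟨j, hj⟩ := hφ i
      rw [← hj, add_zero]
      exact S.mem_M_iff.1 hv.1 j)
  have h5 : hf ((S.M ⊓ cst k Y) ⊓ cst k (⨅ i, LinearMap.ker (φ i))) t = 0 := by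
    apply hf_eq_zero_of_eq_bot
    rw [eq_bot_iff]
    intro x hx
    have : x ∈ (Y.restrictScalars S.F₀ ⊓ ⨅ i, LinearMap.ker (φ i) : Submodule S.F₀ V) :=
      ⟨hx.1.2, hx.2⟩
    rw [h1] at this
    exact this
  rw [h5, sub_zero, add_zero, hn] at h4
  exact_mod_cast h4

theorem hilbQ : ∀ᶠ t : ℤ in atTop,
    (hf (Rg S.W) t : ℚ) = 1715 / 2 * (t : ℚ) ^ 2 - 8575 / 2 * t + 4802 := by
  filter_upwards [S.hilb] with t ht
  have : (2 : ℚ) * (hf (Rg S.W) t : ℚ) = 1715 * (t : ℚ) * ((t : ℚ) - 5) + 9604 := by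
    exact_mod_cast ht
  linarith

/-- Semistability of the Ulrich module. -/
theorem hf_M_inf (Y : Submodule K₀ V) : ∃ κ c : ℚ, κ ≤ 6860 * finrank K₀ Y ∧
    ∀ᶠ m : ℤ in atTop, ((hf (S.M ⊓ cst k Y) m - finrank K₀ Y * hf (Rg S.W) m : ℤ) : ℚ) =
      κ * m + c := by
  have := S.finite_V
  obtain ⟨c₂, c₁, c₀, h⟩ := S.ctx₀.evQuad (S.isFG_M_inf Y)
  obtain ⟨a, ha⟩ := hf_lower S.ctx₀ (S.isFG_M_inf Y)
  rw [S.spanK_M_inf] at ha
  set r := finrank K₀ Y with hr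
  have h1 := quad_le_of_eventually' (a₂ := c₂) (a₁ := c₁) (a₀ := c₀) (b₂ := 1715 * r / 2)
    (b₁ := 1715 * r * 3 / 2) (b₀ := 1715 * r) (by
      filter_upwards [h, eventually_ge_atTop 0] with t e1 e2
      have e3 := S.hf_M_inf_le Y t
      have e4 := two_mul_al (x := t) (by omega)
      have e5 : (hf (S.M ⊓ cst k Y) t : ℚ) ≤ 1715 * r * (al t : ℚ) := by exact_mod_cast e3
      have e6 : 2 * (al t : ℚ) = (t + 1) * (t + 2) := by exact_mod_cast e4
      have e7 : (al t : ℚ) = (t + 1) * (t + 2) / 2 := by linarith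
      rw [← e1]
      refine e5.trans (le_of_eq ?_)
      rw [e7]; ring)
  have h2 := quad_le_of_eventually' (b₂ := c₂) (b₁ := c₁) (b₀ := c₀) (a₂ := 1715 * r / 2)
    (a₁ := r * (-1715 * a - 8575 / 2)) (a₀ := r * (1715 / 2 * a ^ 2 + 8575 / 2 * a + 4802)) (by
      filter_upwards [h, eventually_sub_const S.hilbQ a] with t e1 e2
      have e3 := ha t
      rw [hf_Rg₀] at e3
      have e5 : (r : ℚ) * (hf (Rg S.W) (t - a) : ℚ) ≤ (hf (S.M ⊓ cst k Y) t : ℚ) := by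
        exact_mod_cast e3
      rw [← e1]
      refine le_trans (le_of_eq ?_) e5
      rw [e2]; push_cast; ring)
  have h3 : c₂ = 1715 * r / 2 := le_antisymm h1.1 h2.1
  have h4 := (h1.2 h3).1
  refine ⟨c₁ + 8575 * r / 2, c₀ - 4802 * r, by linarith, ?_⟩
  filter_upwards [h, S.hilbQ] with t e1 e2
  push_cast
  rw [e1, e2, h3]; ring

theorem cast_shift : ((5 * (p * (p - 1) / 2) : ℕ) : ℚ) = 5 * ((p : ℚ) * (p - 1) / 2) := by
  have hp : 0 < p := (Fact.out : p.Prime).pos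
  have h1 : 2 ∣ p * (p - 1) := (Nat.even_mul_pred_self p).two_dvd
  rw [Nat.cast_mul, Nat.cast_div h1 (by norm_num), Nat.cast_mul, Nat.cast_sub hp]
  push_cast; ring

theorem hf_G_inf_eq (hp : N < p) (Y : Submodule K₀ V) {κ c : ℚ}
    (h : ∀ᶠ m : ℤ in atTop,
      ((hf (S.M ⊓ cst k Y) m - finrank K₀ Y * hf (Rg S.W) m : ℤ) : ℚ) = κ * m + c) :
    ∀ᶠ m : ℤ in atTop,
      (hf (S.G ⊓ cst k (Y.baseChange K)) (p * m) : ℚ) =
        finrank K₀ Y * (1715 * ((p : ℚ) * m) * ((p : ℚ) * m - 5) / 2) +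
          κ * p * ((p : ℚ) * m) +
          (finrank K₀ Y * 4802 + c * (p : ℚ) ^ 2 + κ * (5 * ((p : ℚ) * (p - 1) / 2))) := by
  have hp0 : 0 < p := (Fact.out : p.Prime).pos
  have h2 := (tendsto_lin' (n := 1) one_pos ((5 * (p * (p - 1) / 2) : ℕ) : ℤ)).eventually h
  have h3 := (tendsto_lin' (n := p) (by exact_mod_cast hp0) 0).eventually S.hilbQ
  filter_upwards [S.hf_G_inf hp Y, h, h2, h3] with m e1 e2 e3 e4
  rw [one_mul] at e3
  rw [add_zero] at e4
  have e5 := congrArg (Int.cast : ℤ → ℚ) e1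
  rw [Int.cast_add, Int.cast_mul, e2, e3, Int.cast_sub, Int.cast_mul, e4] at e5
  rw [Int.cast_add, Int.cast_natCast, Int.cast_natCast, cast_shift] at e5
  push_cast at e5
  linear_combination e5

/-- Slope bound for saturated pieces of the Frobenius pull-back which descend. -/
theorem hf_G_inf_slope (hp : N < p) (Y : Submodule K₀ V) :
    ∃ κ c : ℚ, κ ≤ 6860 * finrank K₀ Y ∧ ∀ᶠ m : ℤ in atTop,
      (hf (S.G ⊓ cst k (Y.baseChange K)) (p * m) : ℚ) =
        finrank K₀ Y * (1715 * ((p : ℚ) * m) * ((p : ℚ) * m - 5) / 2) +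
          κ * p * ((p : ℚ) * m) + c := by
  obtain ⟨κ, c, hκ, h⟩ := S.hf_M_inf Y
  exact ⟨κ, _, hκ, S.hf_G_inf_eq hp Y h⟩

theorem isFG_G : IsFG S.W S.G := isFG_gen _ _ _

/-- The Hilbert polynomial of the Frobenius pull-back. -/
theorem hf_G (hp : N < p) : ∀ᶠ t : ℤ in atTop,
    (hf S.G t : ℚ) = (finrank K₀ V * (1715 / 2 : ℚ)) * (t : ℚ) ^ 2 +
      (finrank K₀ V * (6860 * p - 8575 / 2 : ℚ)) * t +
      finrank K₀ V * (14063 * (p : ℚ) ^ 2 - 17150 * p + 4802) := by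
  have hp0 : 0 < p := (Fact.out : p.Prime).pos
  have e0 : S.M ⊓ cst k (⊤ : Submodule K₀ V) = S.M := inf_eq_left.mpr fun t x _ => trivial
  have e1 : S.G ⊓ cst k ((⊤ : Submodule K₀ V).baseChange K) = S.G := by
    rw [Submodule.baseChange_top]
    exact inf_eq_left.mpr fun t x _ => trivial
  have h := S.hf_G_inf_eq hp ⊤ (κ := 6860 * finrank K₀ V) (c := -3087 * finrank K₀ V) (by
    filter_upwards [S.hilbQ, eventually_ge_atTop 0] with t h1 h2
    have e4 := two_mul_al (x := t) (by omega)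
    have e6 : 2 * (al t : ℚ) = (t + 1) * (t + 2) := by exact_mod_cast e4
    have e7 : (al t : ℚ) = (t + 1) * (t + 2) / 2 := by linarith
    have e8 : (N : ℚ) = 1715 * finrank K₀ V := by exact_mod_cast S.N_eq
    rw [e0, hf_M, finrank_top]
    push_cast
    rw [h1, e7, e8]; ring)
  rw [e1, finrank_top] at h
  obtain ⟨c₂, c₁, c₀, hq⟩ := S.ctx.evQuad S.isFG_G
  have h3 := (tendsto_lin' (n := p) (by exact_mod_cast hp0) 0).eventually hq
  obtain ⟨rfl, rfl, rfl⟩ := quad_eq_of_eventually (a₂ := c₂) (a₁ := c₁) (a₀ := c₀)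
    (b₂ := finrank K₀ V * (1715 / 2 : ℚ)) (b₁ := finrank K₀ V * (6860 * p - 8575 / 2 : ℚ))
    (b₀ := finrank K₀ V * (14063 * (p : ℚ) ^ 2 - 17150 * p + 4802)) hp0 (by
      filter_upwards [h, h3] with m e2 e3
      rw [add_zero] at e3
      push_cast at e3
      rw [← e3, e2]; ring)
  exact hq

end Setup

end Pool.Agent.Lib.MP_cf0da3_ag
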