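import Mathlib

/-! The determinant of a change of `p`-basis is a power of the Jacobian. -/

namespace Pool.Agent.Lib.MP_cf0da3_ag

open Module

theorem det_of_triangular_span {K m α : Type*} [Field K] [Fintype m] [DecidableEq m]
    [LinearOrder α] (ρ : m → α) (hρ : Function.Injective ρ) (r d : m → m → K) (c : m → K)
    (h : ∀ I, r I - c I • d I ∈ Submodule.span K (d '' {L | ρ L < ρ I})) :
    (Matrix.of r).det = (∏ I, c I) * (Matrix.of d).det := by
  have hex : ∀ I, ∃ γ : m → K, (∀ L, ¬ ρ L < ρ I → γ L = 0) ∧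
      r I - c I • d I = ∑ L, γ L • d L := by
    intro I
    obtain ⟨l, hl, hl'⟩ := (Finsupp.mem_span_image_iff_linearCombination K).1 (h I)
    refine ⟨l, fun L hL => ?_, ?_⟩
    · by_contra hne
      exact hL (hl (Finsupp.mem_support_iff.2 hne))
    · rw [← hl', Finsupp.linearCombination_apply, Finsupp.sum_fintype _ _ (by simp)]
  choose γ hγ0 hγ using hex
  let C : Matrix m m K := Matrix.of γ + Matrix.diagonal c
  have hC : Matrix.of r = C * Matrix.of d := by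
    ext I J
    have := congrFun (hγ I) J
    simp only [Pi.sub_apply, Pi.smul_apply, smul_eq_mul, Finset.sum_apply] at this
    simp only [C, Matrix.add_mul, Matrix.add_apply, Matrix.diagonal_mul, Matrix.mul_apply (M := Matrix.of γ),
      Matrix.of_apply]
    rw [← this]
    ring
  let _ : LinearOrder m := LinearOrder.lift' ρ hρ
  have htri : C.BlockTriangular OrderDual.toDual := by
    intro I J hIJ
    have h1 : ρ I < ρ J := hIJ
    have h2 : I ≠ J := fun h => by rw [h] at h1; exact lt_irrefl _ h1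
    simp only [C, Matrix.add_apply, Matrix.of_apply, Matrix.diagonal_apply_ne _ h2, add_zero]
    exact hγ0 I J (not_lt.2 h1.le)
  rw [hC, Matrix.det_mul, Matrix.det_of_isLowerTriangular C htri]
  congr 1
  refine Finset.prod_congr rfl fun I _ => ?_
  simp [C, hγ0 I I (lt_irrefl _)]

section Wr

variable {K₀ K : Type*} [Field K₀] [Field K] [Algebra K₀ K]

/-- The rows of formal partial derivatives of the monomials. -/
def dRow (p : ℕ) (u v : K) (L : ℕ × ℕ) : Fin p × Fin p → K := fun ab =>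
  ((ab.1 : ℕ).descFactorial L.1 : K) * ((ab.2 : ℕ).descFactorial L.2 : K) *
    (u ^ ((ab.1 : ℕ) - L.1) * v ^ ((ab.2 : ℕ) - L.2))

theorem deriv_pow_sub (E : Derivation K₀ K K) (u : K) (a l : ℕ) :
    (a.descFactorial l : K) * E (u ^ (a - l)) =
      (a.descFactorial (l + 1) : K) * u ^ (a - (l + 1)) * E u := by
  rw [Derivation.leibniz_pow, Nat.descFactorial_succ, Nat.sub_add_eq]
  simp only [nsmul_eq_mul, smul_eq_mul, Nat.cast_mul]
  ring

theorem deriv_dRow (p : ℕ) (E : Derivation K₀ K K) (u v c : K) (L : ℕ × ℕ) :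
    (fun ab => E ((c • dRow p u v L) ab)) =
      E c • dRow p u v L + (c * E u) • dRow p u v (L.1 + 1, L.2) +
        (c * E v) • dRow p u v (L.1, L.2 + 1) := by
  funext ab
  have h1 := deriv_pow_sub E u ab.1 L.1
  have h2 := deriv_pow_sub E v ab.2 L.2
  simp only [Pi.add_apply, Pi.smul_apply, smul_eq_mul, dRow, Derivation.leibniz,
    Derivation.map_natCast, mul_zero, add_zero]
  linear_combination (c * ((ab.2 : ℕ).descFactorial L.2 : K) * v ^ ((ab.2 : ℕ) - L.2)) * h1 +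
    (c * ((ab.1 : ℕ).descFactorial L.1 : K) * u ^ ((ab.1 : ℕ) - L.1)) * h2

theorem deriv_mem_span (p : ℕ) (E : Derivation K₀ K K) (u v : K) {S T : Set (ℕ × ℕ)}
    (h : ∀ L ∈ S, L ∈ T ∧ (E u = 0 ∨ (L.1 + 1, L.2) ∈ T) ∧ (L.1, L.2 + 1) ∈ T)
    {x : Fin p × Fin p → K} (hx : x ∈ Submodule.span K (dRow p u v '' S)) :
    (fun ab => E (x ab)) ∈ Submodule.span K (dRow p u v '' T) := by
  have key : ∀ c : K, (fun ab => E ((c • x) ab)) ∈ Submodule.span K (dRow p u v '' T) := by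
    induction hx using Submodule.span_induction with
    | mem x hx =>
      obtain ⟨L, hL, rfl⟩ := hx
      intro c
      rw [deriv_dRow]
      obtain ⟨h1, h2, h3⟩ := h L hL
      refine add_mem (add_mem ?_ ?_) ?_
      · exact Submodule.smul_mem _ _ (Submodule.subset_span ⟨_, h1, rfl⟩)
      · rcases h2 with h2 | h2
        · rw [h2, mul_zero, zero_smul]; exact zero_mem _
        · exact Submodule.smul_mem _ _ (Submodule.subset_span ⟨_, h2, rfl⟩)
      · exact Submodule.smul_mem _ _ (Submodule.subset_span ⟨_, h3, rfl⟩)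
    | zero =>
      intro c
      have : (fun ab => E ((c • (0 : Fin p × Fin p → K)) ab)) = 0 := by
        funext ab; simp
      rw [this]; exact zero_mem _
    | add x y _ _ ihx ihy =>
      intro c
      have : (fun ab => E ((c • (x + y)) ab)) =
          (fun ab => E ((c • x) ab)) + fun ab => E ((c • y) ab) := by
        funext ab; simp only [smul_add, Pi.add_apply, map_add]
      rw [this]; exact add_mem (ihx c) (ihy c)
    | smul a x _ ih =>
      intro c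
      rw [smul_smul]; exact ih _
  simpa using key 1

/-- The operators `E₁ ^ i E₂ ^ j`. -/
noncomputable def opT (E₁ E₂ : Derivation K₀ K K) (i j : ℕ) : K →ₗ[K₀] K :=
  (E₁ : K →ₗ[K₀] K) ^ i * (E₂ : K →ₗ[K₀] K) ^ j

theorem row_mem_span (p : ℕ) (E₁ E₂ : Derivation K₀ K K) (u v : K) (hu : E₂ u = 0) (i j : ℕ) :
    (fun ab : Fin p × Fin p => opT E₁ E₂ i j (u ^ (ab.1 : ℕ) * v ^ (ab.2 : ℕ))) -
      (E₁ u ^ i * E₂ v ^ j) • dRow p u v (i, j) ∈
      Submodule.span K (dRow p u v '' {L | L.1 < i ∨ (L.1 = i ∧ L.2 < j)}) := by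
  induction i with
  | zero =>
    induction j with
    | zero =>
      have : (fun ab : Fin p × Fin p => opT E₁ E₂ 0 0 (u ^ (ab.1 : ℕ) * v ^ (ab.2 : ℕ))) -
          (E₁ u ^ 0 * E₂ v ^ 0) • dRow p u v (0, 0) = 0 := by
        funext ab; simp [opT, dRow]
      rw [this]; exact zero_mem _
    | succ j ih =>
      have h1 := deriv_mem_span p E₂ u v (T := {L | L.1 < 0 ∨ (L.1 = 0 ∧ L.2 < j + 1)})
        (fun L hL => by
          simp only [Set.mem_ofPred_eq] at hL ⊢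
          exact ⟨by omega, Or.inl hu, by omega⟩) ih
      have h2 := deriv_dRow p E₂ u v (E₁ u ^ 0 * E₂ v ^ j) (0, j)
      have h3 : (fun ab : Fin p × Fin p => opT E₁ E₂ 0 (j + 1) (u ^ (ab.1 : ℕ) * v ^ (ab.2 : ℕ))) -
          (E₁ u ^ 0 * E₂ v ^ (j + 1)) • dRow p u v (0, j + 1) =
          (fun ab => E₂ (((fun ab : Fin p × Fin p =>
            opT E₁ E₂ 0 j (u ^ (ab.1 : ℕ) * v ^ (ab.2 : ℕ))) -
            (E₁ u ^ 0 * E₂ v ^ j) • dRow p u v (0, j)) ab)) +
            E₂ (E₁ u ^ 0 * E₂ v ^ j) • dRow p u v (0, j) := by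
        funext ab
        have h4 := congrFun h2 ab
        simp only [Pi.add_apply, Pi.sub_apply, map_sub, Pi.smul_apply, smul_eq_mul] at h4 ⊢
        rw [h4, hu]
        have h5 : opT E₁ E₂ 0 (j + 1) (u ^ (ab.1 : ℕ) * v ^ (ab.2 : ℕ)) =
            E₂ (opT E₁ E₂ 0 j (u ^ (ab.1 : ℕ) * v ^ (ab.2 : ℕ))) := by
          simp only [opT, pow_zero, one_mul, pow_succ', Module.End.mul_apply]
          rfl
        rw [h5]
        ring
      rw [h3]
      exact add_mem h1 (Submodule.smul_mem _ _ (Submodule.subset_span ⟨_, by simp, rfl⟩))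
  | succ i ih =>
    have h1 := deriv_mem_span p E₁ u v (T := {L | L.1 < i + 1 ∨ (L.1 = i + 1 ∧ L.2 < j)})
      (fun L hL => by
        simp only [Set.mem_ofPred_eq] at hL ⊢
        exact ⟨by omega, Or.inr (by omega), by omega⟩) ih
    have h2 := deriv_dRow p E₁ u v (E₁ u ^ i * E₂ v ^ j) (i, j)
    have h3 : (fun ab : Fin p × Fin p => opT E₁ E₂ (i + 1) j (u ^ (ab.1 : ℕ) * v ^ (ab.2 : ℕ))) -
        (E₁ u ^ (i + 1) * E₂ v ^ j) • dRow p u v (i + 1, j) =
        (fun ab => E₁ (((fun ab : Fin p × Fin p =>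
          opT E₁ E₂ i j (u ^ (ab.1 : ℕ) * v ^ (ab.2 : ℕ))) -
          (E₁ u ^ i * E₂ v ^ j) • dRow p u v (i, j)) ab)) +
          E₁ (E₁ u ^ i * E₂ v ^ j) • dRow p u v (i, j) +
          (E₁ u ^ i * E₂ v ^ j * E₁ v) • dRow p u v (i, j + 1) := by
      funext ab
      have h4 := congrFun h2 ab
      simp only [Pi.add_apply, Pi.sub_apply, map_sub, Pi.smul_apply, smul_eq_mul] at h4 ⊢
      rw [h4]
      have h5 : opT E₁ E₂ (i + 1) j (u ^ (ab.1 : ℕ) * v ^ (ab.2 : ℕ)) =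
          E₁ (opT E₁ E₂ i j (u ^ (ab.1 : ℕ) * v ^ (ab.2 : ℕ))) := by
        simp only [opT, pow_succ', mul_assoc, Module.End.mul_apply]
        rfl
      rw [h5]
      ring
    rw [h3]
    exact add_mem (add_mem h1 (Submodule.smul_mem _ _ (Submodule.subset_span ⟨_, by simp, rfl⟩)))
      (Submodule.smul_mem _ _ (Submodule.subset_span ⟨_, by simp, rfl⟩))

theorem dRow_eq_zero (p : ℕ) (u v : K) {L : ℕ × ℕ} (h : p ≤ L.1 ∨ p ≤ L.2) :
    dRow p u v L = 0 := by
  funext ab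
  rcases h with h | h
  · simp [dRow, Nat.descFactorial_eq_zero_iff_lt.2 (ab.1.2.trans_le h)]
  · simp [dRow, Nat.descFactorial_eq_zero_iff_lt.2 (ab.2.2.trans_le h)]

/-- The Wronskian determinant. -/
noncomputable def wr (p : ℕ) (E₁ E₂ : Derivation K₀ K K) (g : Fin p × Fin p → K) : K :=
  (Matrix.of fun I J : Fin p × Fin p => opT E₁ E₂ I.1 I.2 (g J)).det

theorem sum_fst_eq (p : ℕ) : ∑ I : Fin p × Fin p, (I.1 : ℕ) = p * (p * (p - 1) / 2) := by
  rw [Fintype.sum_prod_type]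
  simp only [Finset.sum_const, Finset.card_univ, Fintype.card_fin, smul_eq_mul]
  rw [← Finset.mul_sum, Fin.sum_univ_eq_sum_range (fun i => i) p, Finset.sum_range_id]

theorem sum_snd_eq (p : ℕ) : ∑ I : Fin p × Fin p, (I.2 : ℕ) = p * (p * (p - 1) / 2) := by
  rw [Fintype.sum_prod_type]
  simp only [Finset.sum_const, Finset.card_univ, Fintype.card_fin, smul_eq_mul]
  rw [Fin.sum_univ_eq_sum_range (fun i => i) p, Finset.sum_range_id]

theorem wr_monomial (p : ℕ) (E₁ E₂ : Derivation K₀ K K) (u v : K) (hu : E₂ u = 0) :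
    wr p E₁ E₂ (fun ab => u ^ (ab.1 : ℕ) * v ^ (ab.2 : ℕ)) =
      E₁ u ^ (p * (p * (p - 1) / 2)) * E₂ v ^ (p * (p * (p - 1) / 2)) *
        ∏ I : Fin p × Fin p, (((I.1 : ℕ).factorial : K) * ((I.2 : ℕ).factorial : K)) := by
  let ρ : Fin p × Fin p → ℕ ×ₗ ℕ := fun I => toLex ((I.1 : ℕ), (I.2 : ℕ))
  have hρ : Function.Injective ρ := fun I J h => by
    have h' : ((I.1 : ℕ), (I.2 : ℕ)) = ((J.1 : ℕ), (J.2 : ℕ)) := toLex.injective h
    rw [Prod.mk.injEq] at h'
    exact Prod.ext (Fin.ext h'.1) (Fin.ext h'.2)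
  have hlt : ∀ I J, ρ I < ρ J ↔ (I.1 : ℕ) < J.1 ∨ ((I.1 : ℕ) = J.1 ∧ (I.2 : ℕ) < J.2) :=
    fun I J => Prod.Lex.toLex_lt_toLex
  have h1 := det_of_triangular_span ρ hρ
    (fun I J : Fin p × Fin p => opT E₁ E₂ I.1 I.2 (u ^ (J.1 : ℕ) * v ^ (J.2 : ℕ)))
    (fun I => dRow p u v (I.1, I.2)) (fun I => E₁ u ^ (I.1 : ℕ) * E₂ v ^ (I.2 : ℕ)) (fun I => by
      refine Submodule.span_le.2 ?_ (row_mem_span p E₁ E₂ u v hu I.1 I.2)
      rintro _ ⟨L, hL, rfl⟩
      by_cases hp : p ≤ L.1 ∨ p ≤ L.2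
      · rw [dRow_eq_zero p u v hp]; exact zero_mem _
      · push Not at hp
        exact Submodule.subset_span ⟨(⟨L.1, hp.1⟩, ⟨L.2, hp.2⟩), (hlt _ _).2 hL, rfl⟩)
  have h2 : (Matrix.of fun I : Fin p × Fin p => dRow p u v (I.1, I.2)).det =
      ∏ I : Fin p × Fin p, (((I.1 : ℕ).factorial : K) * ((I.2 : ℕ).factorial : K)) := by
    let _ : LinearOrder (Fin p × Fin p) := LinearOrder.lift' ρ hρ
    rw [Matrix.det_of_isUpperTriangular]
    · refine Finset.prod_congr rfl fun I _ => ?_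
      simp [dRow, Nat.descFactorial_self]
    · intro I J hIJ
      have h3 : ρ J < ρ I := hIJ
      rcases (hlt _ _).1 h3 with h | h
      · simp [dRow, Nat.descFactorial_eq_zero_iff_lt.2 h]
      · simp [dRow, Nat.descFactorial_eq_zero_iff_lt.2 h.2]
  rw [wr, h1, h2, Finset.prod_mul_distrib, Finset.prod_pow_eq_pow_sum, Finset.prod_pow_eq_pow_sum,
    sum_fst_eq, sum_snd_eq]

theorem wr_eq (p : ℕ) (E₁ E₂ : Derivation K₀ K K) (b : Basis (Fin p × Fin p) K₀ K)
    (g : Fin p × Fin p → K) :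
    wr p E₁ E₂ g = wr p E₁ E₂ b * algebraMap K₀ K (b.det g) := by
  rw [wr, wr, Basis.det_apply, RingHom.map_det, ← Matrix.det_mul]
  congr 1
  ext I J
  rw [Matrix.mul_apply, Matrix.of_apply, ← b.sum_toMatrix_smul_self g J, map_sum]
  refine Finset.sum_congr rfl fun L _ => ?_
  rw [map_smul, Algebra.smul_def, mul_comm]
  rfl

theorem det_swap (p : ℕ) (b : Basis (Fin p × Fin p) K₀ K) :
    ∃ ε : K, (ε = 1 ∨ ε = -1) ∧ ∀ u v : K,
      algebraMap K₀ K (b.det fun ij : Fin p × Fin p => v ^ (ij.1 : ℕ) * u ^ (ij.2 : ℕ)) =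
        ε * algebraMap K₀ K (b.det fun ij : Fin p × Fin p => u ^ (ij.1 : ℕ) * v ^ (ij.2 : ℕ)) := by
  let σ : Equiv.Perm (Fin p × Fin p) := Equiv.prodComm _ _
  have h : ∀ u v : K, (b.det fun ij : Fin p × Fin p => v ^ (ij.1 : ℕ) * u ^ (ij.2 : ℕ)) =
      Equiv.Perm.sign σ • b.det fun ij : Fin p × Fin p => u ^ (ij.1 : ℕ) * v ^ (ij.2 : ℕ) := by
    intro u v
    rw [← AlternatingMap.map_perm]
    congr 1
    funext ij
    exact mul_comm _ _
  rcases Int.units_eq_one_or (Equiv.Perm.sign σ) with h1 | h1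
  · exact ⟨1, Or.inl rfl, fun u v => by rw [h u v, h1, one_smul, one_mul]⟩
  · exact ⟨-1, Or.inr rfl, fun u v => by simp [h u v, h1]⟩

theorem det_pbasis_aux (p : ℕ) [Fact p.Prime] [CharP K p] (s : Fin 2 → K)
    (b : Basis (Fin p × Fin p) K₀ K)
    (hb : ∀ ij : Fin p × Fin p, b ij = s 0 ^ (ij.1 : ℕ) * s 1 ^ (ij.2 : ℕ))
    (D : Fin 2 → Derivation K₀ K K) (hD : ∀ i j, D i (s j) = if i = j then 1 else 0)
    (u v : K) (hv : D 1 v ≠ 0) :
    algebraMap K₀ K (b.det fun ij : Fin p × Fin p => u ^ (ij.1 : ℕ) * v ^ (ij.2 : ℕ)) =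
      (D 0 u * D 1 v - D 1 u * D 0 v) ^ (p * (p * (p - 1) / 2)) := by
  have h00 : D 0 (s 0) = 1 := by simp [hD]
  have h10 : D 1 (s 0) = 0 := by simp [hD]
  have h11 : D 1 (s 1) = 1 := by simp [hD]
  set N := p * (p * (p - 1) / 2)
  set κ : K := ∏ I : Fin p × Fin p, (((I.1 : ℕ).factorial : K) * ((I.2 : ℕ).factorial : K))
    with hκ
  have hfac : ∀ i : Fin p, ((i : ℕ).factorial : K) ≠ 0 := fun i h => by
    rw [CharP.cast_eq_zero_iff K p, (Fact.out : p.Prime).dvd_factorial] at h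
    exact absurd i.2 (not_lt.2 h)
  have hκ0 : κ ≠ 0 := Finset.prod_ne_zero_iff.2 fun I _ => mul_ne_zero (hfac _) (hfac _)
  have hbf : (b : Fin p × Fin p → K) = fun ij => s 0 ^ (ij.1 : ℕ) * s 1 ^ (ij.2 : ℕ) := funext hb
  have a1 := wr_monomial p (D 0) (D 1) (s 0) (s 1) h10
  have a2 := wr_monomial p (D 0) (D 1) (s 0) v h10
  rw [wr_eq p _ _ b, hbf, a1, h00, h11, ← hκ] at a2
  let E : Derivation K₀ K K := D 1 v • D 0 - D 0 v • D 1
  have hE : ∀ x, E x = D 1 v * D 0 x - D 0 v * D 1 x := fun x => by simp [E]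
  have hEv : E v = 0 := by rw [hE]; ring
  have a3 := wr_monomial p (D 1) E v (s 0) hEv
  have a4 := wr_monomial p (D 1) E v u hEv
  obtain ⟨ε, -, hε⟩ := det_swap p b
  rw [wr_eq p _ _ b, hε, hE, ← hκ] at a3 a4
  rw [h00, h10] at a3
  simp only [one_pow, one_mul, mul_one, mul_zero, sub_zero] at a2 a3
  have hvN : D 1 v ^ N ≠ 0 := pow_ne_zero _ hv
  have b2 : algebraMap K₀ K (b.det fun ab : Fin p × Fin p => s 0 ^ (ab.1 : ℕ) * v ^ (ab.2 : ℕ)) =
      D 1 v ^ N := mul_left_cancel₀ hκ0 (a2.trans (mul_comm _ _))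
  rw [b2] at a3
  have b3 : wr p (D 1) E b * ε = D 1 v ^ N * κ :=
    mul_left_cancel₀ hvN (by linear_combination a3)
  rw [← mul_assoc, b3] at a4
  have b4 : D 0 u * D 1 v - D 1 u * D 0 v = D 1 v * D 0 u - D 0 v * D 1 u := by ring
  rw [b4]
  exact mul_left_cancel₀ (mul_ne_zero hvN hκ0) (by linear_combination a4)

theorem derivation_eq_zero_of_span (p : ℕ) (E : Derivation K₀ K K) (u v : K)
    (hspan : Submodule.span K₀
      (Set.range fun ij : Fin p × Fin p => u ^ (ij.1 : ℕ) * v ^ (ij.2 : ℕ)) = ⊤)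
    (hu : E u = 0) (hv : E v = 0) (x : K) : E x = 0 := by
  have hle : Submodule.span K₀
      (Set.range fun ij : Fin p × Fin p => u ^ (ij.1 : ℕ) * v ^ (ij.2 : ℕ)) ≤
      LinearMap.ker (E : K →ₗ[K₀] K) := by
    rw [Submodule.span_le]
    rintro _ ⟨ij, rfl⟩
    change E _ = 0
    simp [Derivation.leibniz_pow, hu, hv]
  exact hle (hspan ▸ Submodule.mem_top)

end Wr

theorem det_pbasis (p : ℕ) [Fact p.Prime] {K₀ K : Type*} [Field K₀] [Field K] [Algebra K₀ K]
    [CharP K p] (s : Fin 2 → K) (b : Basis (Fin p × Fin p) K₀ K)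
    (hb : ∀ ij : Fin p × Fin p, b ij = s 0 ^ (ij.1 : ℕ) * s 1 ^ (ij.2 : ℕ))
    (D : Fin 2 → Derivation K₀ K K) (hD : ∀ i j, D i (s j) = if i = j then 1 else 0)
    (u v : K) (hspan : Submodule.span K₀
      (Set.range fun ij : Fin p × Fin p => u ^ (ij.1 : ℕ) * v ^ (ij.2 : ℕ)) = ⊤) :
    D 0 u * D 1 v - D 1 u * D 0 v ≠ 0 ∧
    ∃ ε : K, (ε = 1 ∨ ε = -1) ∧
      algebraMap K₀ K (b.det fun ij : Fin p × Fin p => u ^ (ij.1 : ℕ) * v ^ (ij.2 : ℕ)) =
        ε * (D 0 u * D 1 v - D 1 u * D 0 v) ^ (p * (p * (p - 1) / 2)) := by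
  have h00 : D 0 (s 0) = 1 := by simp [hD]
  have h10 : D 1 (s 0) = 0 := by simp [hD]
  have h01 : D 0 (s 1) = 0 := by simp [hD]
  have h11 : D 1 (s 1) = 1 := by simp [hD]
  have hJ : D 0 u * D 1 v - D 1 u * D 0 v ≠ 0 := by
    intro hJ
    have e1 := derivation_eq_zero_of_span p (D 1 u • D 0 - D 0 u • D 1) u v hspan
      (by simp; ring) (by simp; linear_combination -hJ) (s 1)
    have e2 := derivation_eq_zero_of_span p (D 1 v • D 0 - D 0 v • D 1) u v hspan
      (by simp; linear_combination hJ) (by simp; ring) (s 1)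
    have e1' : D 0 u = 0 := by simpa [h01, h11] using e1
    have e2' : D 0 v = 0 := by simpa [h01, h11] using e2
    have e3 := derivation_eq_zero_of_span p (D 0) u v hspan e1' e2' (s 0)
    rw [h00] at e3
    exact one_ne_zero e3
  refine ⟨hJ, ?_⟩
  by_cases hv : D 1 v = 0
  · have hu : D 1 u ≠ 0 := fun hu => hJ (by rw [hu, hv]; ring)
    have h1 := det_pbasis_aux p s b hb D hD v u hu
    obtain ⟨ε, hε1, hε⟩ := det_swap p b
    have h2 : D 0 v * D 1 u - D 1 v * D 0 u = -(D 0 u * D 1 v - D 1 u * D 0 v) := by ring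
    rw [hε v u, h1, h2, neg_pow, ← mul_assoc]
    refine ⟨_, ?_, rfl⟩
    rcases neg_one_pow_eq_or K (p * (p * (p - 1) / 2)) with h | h <;>
      rcases hε1 with h' | h' <;> simp [h, h']
  · exact ⟨1, Or.inl rfl, by rw [one_mul]; exact det_pbasis_aux p s b hb D hD u v hv⟩

end Pool.Agent.Lib.MP_cf0da3_ag
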