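import Pool.Agent.Lib.MP_cf0da3_ag.Setup1
import Pool.Agent.Lib.MP_cf0da3_ag.LemmaD
import Pool.Agent.Lib.MP_cf0da3_ag.Wronski

/-! Local freeness of the Ulrich module and of the Frobenius push-forward. -/

set_option linter.unusedSectionVars false

namespace Pool.Agent.Lib.MP_cf0da3_ag

open Module Filter TensorProduct

section General

variable {k K : Type*} [Field k] [Field K] [Algebra k K] {W : Submodule k K}
  {V : Type*} [AddCommGroup V] [Module K V] [Module k V] [IsScalarTower k K V]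
  {L : ℤ → Submodule k V}

theorem exists_isFG_le (hL : IsMod W L) (t : ℤ) [FiniteDimensional k (L t)] :
    ∃ G : ℤ → Submodule k V, IsFG W G ∧ G ≤ L ∧ L t ≤ G t := by
  let β := Module.finBasis k (L t)
  refine ⟨gen W (fun _ => t) (fun i => (β i : V)), isFG_gen _ _ _,
    gen_le hL fun i => (β i).2, fun x hx => ?_⟩
  have h1 : x = ∑ i, β.repr ⟨x, hx⟩ i • (β i : V) := by
    have := congrArg (L t).subtype (β.sum_repr ⟨x, hx⟩)
    rw [map_sum] at this
    exact this.symm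
  rw [h1]
  exact Submodule.sum_mem _ fun i _ => Submodule.smul_mem _ _
    (self_mem_gen W (fun _ => t) (fun i => (β i : V)) i)

theorem isFG_of_step (hL : IsMod W L) (hfd : ∀ t, FiniteDimensional k (L t)) (m₀ : ℕ)
    (hneg : ∀ t < 0, L t = ⊥)
    (hstep : ∀ m : ℕ, m₀ ≤ m → ∀ G : ℤ → Submodule k V, IsMod W G → L m ≤ G m →
      L (m + 1) ≤ G (m + 1)) : IsFG W L := by
  have key : ∀ n : ℕ, ∃ G : ℤ → Submodule k V, IsFG W G ∧ G ≤ L ∧
      ∀ m : ℕ, m ≤ n → L m ≤ G m := by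
    intro n
    induction n with
    | zero =>
      obtain ⟨G, h1, h2, h3⟩ := exists_isFG_le hL 0
      refine ⟨G, h1, h2, fun m hm => ?_⟩
      obtain rfl : m = 0 := by omega
      exact h3
    | succ n ih =>
      obtain ⟨G, h1, h2, h3⟩ := ih
      obtain ⟨G', h1', h2', h3'⟩ := exists_isFG_le hL ((n + 1 : ℕ) : ℤ)
      refine ⟨G ⊔ G', h1.sup h1', sup_le h2 h2', fun m hm => ?_⟩
      rcases Nat.lt_or_ge n m with h | h
      · obtain rfl : m = n + 1 := by omega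
        exact h3'.trans le_sup_right
      · exact (h3 m h).trans le_sup_left
  obtain ⟨G, h1, h2, h3⟩ := key m₀
  have h4 : ∀ m : ℕ, L m ≤ G m := by
    intro m
    induction m with
    | zero => exact h3 0 (Nat.zero_le _)
    | succ m ih =>
      rcases Nat.lt_or_ge m m₀ with h | h
      · exact h3 _ h
      · exact hstep m h G h1.isMod ih
  have : L = G := by
    refine le_antisymm (fun t => ?_) h2
    rcases lt_or_ge t 0 with ht | ht
    · rw [hneg t ht]; exact bot_le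
    · lift t to ℕ using ht
      exact h4 t
  rw [this]; exact h1

theorem span_pow_le_mul (p : ℕ) (T : Submodule k K) (hT : ∀ w ∈ W, w ^ p ∈ T) (s : Finset K)
    (hp : 0 < p) : (s : Set K) ⊆ W → ∀ n : ℕ, s.card * p ≤ n →
      Submodule.span k (s : Set K) ^ (n + p) ≤ T * W ^ n := by
  classical
  induction s using Finset.induction_on with
  | empty =>
    intro _ n _
    rw [Finset.coe_empty, Submodule.span_empty, Submodule.bot_pow (by omega)]
    exact bot_le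
  | insert x s hx ih =>
    intro hs n hn
    rw [Finset.coe_insert] at hs
    have hxW : x ∈ W := hs (Set.mem_insert _ _)
    have hsW : (s : Set K) ⊆ W := (Set.subset_insert _ _).trans hs
    have hC : Submodule.span k {x} ≤ W := Submodule.span_le.2 (Set.singleton_subset_iff.2 hxW)
    have hB : Submodule.span k (s : Set K) ≤ W := Submodule.span_le.2 hsW
    rw [Finset.card_insert_of_notMem hx, add_mul, one_mul] at hn
    rw [Finset.coe_insert, Submodule.span_insert, ← Submodule.add_eq_sup, add_pow]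
    refine Finset.sum_induction _ (fun X => X ≤ T * W ^ n) (fun a b ha hb => sup_le ha hb)
      bot_le fun m hm => ?_
    have hm' : m ≤ n + p := by simpa [Nat.lt_succ_iff] using hm
    rw [natCast_eq_one (Nat.choose_pos hm').ne', mul_one]
    rcases Nat.lt_or_ge m p with h | h
    · have e1 : n + p - m = (n - m) + p := by omega
      have e2 : n = (n - m) + m := by omega
      rw [e1, mul_comm]
      conv_rhs => rw [e2, pow_add, ← mul_assoc]
      exact mul_le_mul' (ih hsW _ (by omega)) (pow_le_pow_left' hC m)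
    · have e1 : m = p + (m - p) := by omega
      have e2 : n = (m - p) + (n + p - m) := by omega
      have h1 : Submodule.span k {x} ^ p ≤ T := by
        rw [Submodule.span_pow, Set.singleton_pow, Submodule.span_le, Set.singleton_subset_iff]
        exact hT x hxW
      conv_lhs => rw [e1, pow_add, ← e1, mul_assoc]
      conv_rhs => rw [e2, pow_add]
      exact mul_le_mul' h1 (mul_le_mul' (pow_le_pow_left' hC _) (pow_le_pow_left' hB _))

theorem hf_lower (hW : Ctx W) (hL : IsFG W L) [FiniteDimensional K V] : ∃ a : ℤ, ∀ t,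
    finrank K (spanK K L) * hf (Rg W) (t - a) ≤ hf L t := by
  classical
  have := hW.fd
  obtain ⟨B, hB, hsp, hli⟩ := exists_linearIndependent K (⋃ t, (L t : Set V))
  have hfin : B.Finite := hli.set_finite_of_isNoetherian
  have := hfin.fintype
  have hcard : finrank K (spanK K L) = Fintype.card B := by
    rw [spanK, ← hsp, ← finrank_span_eq_card hli, Subtype.range_coe]
  choose d hd using fun x : B => Set.mem_iUnion.mp (hB x.2)
  obtain ⟨a, ha⟩ := (Set.finite_range d).bddAbove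
  refine ⟨a, fun t => ?_⟩
  have e1 := hf_gen_of_li (W := W) (fun _ : B => a) hli t
  simp only [Finset.sum_const, Finset.card_univ, nsmul_eq_mul] at e1
  rw [hcard, ← e1]
  have := hL.finiteDimensional t
  refine hf_mono (gen_le hL.isMod (fun x => ?_) t)
  exact hL.isMod.mono hW.one_mem (ha ⟨x, rfl⟩) (hd x)

/-- At a closed point two independent linear forms vanish. -/
theorem exists_two_linear {q : ℤ → Submodule k K} (hq : IsPoint W q) {s : Fin 2 → K}
    (hs : AlgebraicIndependent k s) (hU : U3 k s ≤ W) :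
    ∃ l₁ l₂ : K, l₁ ∈ U3 k s ∧ l₂ ∈ U3 k s ∧ l₁ ∈ q 1 ∧ l₂ ∈ q 1 ∧
      LinearIndependent k ![l₁, l₂] := by
  have h2 : 2 ≤ finrank k (U3 k s ⊓ q 1 : Submodule k K) := by
    have hfd : FiniteDimensional k (U3 k s ⊓ q 1 : Submodule k K) :=
      Submodule.finiteDimensional_of_le inf_le_left
    by_cases h : U3 k s ≤ q 1
    · rw [inf_eq_left.2 h, finrank_U3 hs]; omega
    · obtain ⟨l₀, hl₀, hl₀'⟩ := SetLike.not_le_iff_exists.1 h
      have h0 : l₀ ≠ 0 := ne_zero_of_notMem_fam hl₀'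
      have hle : U3 k s ≤ (U3 k s ⊓ q 1) ⊔ Submodule.span k {l₀} := by
        intro l hl
        obtain ⟨c, hc⟩ := hq.2.2 _ (div_mem_Oloc hq.1 (mem_Rg_one (hU hl)) (mem_Rg_one (hU hl₀)) hl₀')
        have h3 : l - c • l₀ ∈ U3 k s := Submodule.sub_mem _ hl (Submodule.smul_mem _ _ hl₀)
        have h4 : l / l₀ - algebraMap k K c = (l - c • l₀) / l₀ := by
          rw [Algebra.smul_def]; field_simp
        rw [h4, div_mem_mloc_iff hq.1 (mem_Rg_one (hU h3)) (mem_Rg_one (hU hl₀)) hl₀'] at hc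
        have h5 : l = (l - c • l₀) + c • l₀ := by abel
        rw [h5]
        exact Submodule.add_mem_sup ⟨h3, hc⟩
          (Submodule.smul_mem _ _ (Submodule.mem_span_singleton_self _))
      have h6 := Submodule.finrank_mono hle
      have h7 := Submodule.finrank_add_le_finrank_add_finrank (U3 k s ⊓ q 1)
        (Submodule.span k {l₀})
      rw [finrank_span_singleton h0] at h7
      rw [finrank_U3 hs] at h6
      omega
  obtain ⟨f, hf⟩ := exists_linearIndependent_of_le_finrank h2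
  refine ⟨f 0, f 1, (f 0).2.1, (f 1).2.1, (f 0).2.2, (f 1).2.2, ?_⟩
  have h3 := hf.map' (U3 k s ⊓ q 1).subtype (Submodule.ker_subtype _)
  have h4 : (![(f 0 : K), (f 1 : K)] : Fin 2 → K) = (U3 k s ⊓ q 1).subtype ∘ f := by
    funext i; fin_cases i <;> rfl
  rw [h4]; exact h3

end General

namespace Setup

variable {p N : ℕ} [Fact p.Prime] {k K K₀ V : Type} [Field k] [IsAlgClosed k] [CharP k p]
  [Field K] [Field K₀] [Algebra k K] [Algebra k K₀] [Algebra K₀ K] [IsScalarTower k K₀ K]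
  [AddCommGroup V] [Module K₀ V] [Module k V] [IsScalarTower k K₀ V] (S : Setup p N k K K₀ V)
  {q₀ : ℤ → Submodule k K₀}

/-- The pull-back of an ideal along the Frobenius isomorphism. -/
def pull (q₀ : ℤ → Submodule k K₀) : ℤ → Submodule k K := fun t =>
  { carrier := {x | S.fr x ∈ q₀ t}
    add_mem' := fun {a b} ha hb => by
      change S.fr (a + b) ∈ q₀ t
      rw [map_add]; exact (q₀ t).add_mem ha hb
    zero_mem' := by
      change S.fr 0 ∈ q₀ t
      rw [map_zero]; exact (q₀ t).zero_mem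
    smul_mem' := fun c x hx => by
      change S.fr (c • x) ∈ q₀ t
      rw [Algebra.smul_def, map_mul, S.fr_algebraMap, ← Algebra.smul_def]
      exact (q₀ t).smul_mem _ hx }

theorem mem_over {t : ℤ} {x : K} : x ∈ S.pull q₀ t ↔ S.fr x ∈ q₀ t := Iff.rfl

theorem fr_mem_Rg₀ (t : ℤ) (x : K) : S.fr x ∈ Rg S.W₀ t ↔ x ∈ Rg S.W t :=
  S.fr_mem_Rg S.fr_mem_W₀ t x

theorem isPrimeFam_over (hq : IsPrimeFam S.W₀ q₀) : IsPrimeFam S.W (S.pull q₀) where
  le t x hx := (S.fr_mem_Rg₀ t x).1 (hq.le t hx)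
  isMod t w hw v hv := by
    change S.fr (w • v) ∈ q₀ (t + 1)
    rw [smul_eq_mul, map_mul]
    exact hq.isMod t _ ((S.fr_mem_W₀ w).2 hw) _ hv
  one_notMem := by
    change S.fr 1 ∉ q₀ 0
    rw [map_one]; exact hq.one_notMem
  prime a b f hf g hg hfg := hq.prime a b _ ((S.fr_mem_Rg₀ _ _).2 hf) _
    ((S.fr_mem_Rg₀ _ _).2 hg) (by rw [← map_mul]; exact hfg)

theorem relevant_over (hrel : Relevant S.W₀ q₀) : Relevant S.W (S.pull q₀) := by
  obtain ⟨g, hg, hg'⟩ := hrel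
  obtain ⟨g, rfl⟩ := S.fr.surjective g
  exact ⟨g, (S.fr_mem_W₀ g).1 hg, hg'⟩

theorem fr_mem_Oloc (hq : IsPrimeFam S.W₀ q₀) (x : K) :
    S.fr x ∈ Oloc S.W₀ q₀ ↔ x ∈ Oloc S.W (S.pull q₀) := by
  rw [mem_Oloc hq, mem_Oloc (S.isPrimeFam_over hq)]
  constructor
  · rintro ⟨a, h, hh, hh', hx⟩
    obtain ⟨h, rfl⟩ := S.fr.surjective h
    rw [← map_mul] at hx
    exact ⟨a, h, (S.fr_mem_Rg₀ _ _).1 hh, hh', (S.fr_mem_Rg₀ _ _).1 hx⟩
  · rintro ⟨a, h, hh, hh', hx⟩
    exact ⟨a, S.fr h, (S.fr_mem_Rg₀ _ _).2 hh, hh', by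
      rw [← map_mul]; exact (S.fr_mem_Rg₀ _ _).2 hx⟩

theorem fr_mem_mloc (x : K) : S.fr x ∈ mloc S.W₀ q₀ ↔ x ∈ mloc S.W (S.pull q₀) := by
  constructor
  · rintro ⟨a, h, hh, hh', hx⟩
    obtain ⟨h, rfl⟩ := S.fr.surjective h
    rw [← map_mul] at hx
    exact ⟨a, h, (S.fr_mem_Rg₀ _ _).1 hh, hh', hx⟩
  · rintro ⟨a, h, hh, hh', hx⟩
    exact ⟨a, S.fr h, (S.fr_mem_Rg₀ _ _).2 hh, hh', by rw [← map_mul]; exact hx⟩

theorem isPoint_over (hq : IsPoint S.W₀ q₀) : IsPoint S.W (S.pull q₀) := by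
  refine ⟨S.isPrimeFam_over hq.1, S.relevant_over hq.2.1, fun x hx => ?_⟩
  obtain ⟨c, hc⟩ := hq.2.2 _ ((S.fr_mem_Oloc hq.1 x).2 hx)
  obtain ⟨c', rfl⟩ := IsAlgClosed.exists_pow_nat_eq c (Fact.out : p.Prime).pos
  refine ⟨c', (S.fr_mem_mloc _).1 ?_⟩
  rw [map_sub, S.fr_algebraMap]; exact hc

theorem fr_smul (h x : K) : S.fr h • x = h ^ p * x := by
  rw [Algebra.smul_def, S.algebraMap_fr]

theorem pow_eq_pred_mul (h x : K) : h ^ p * x = h ^ (p - 1) * (h * x) := by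
  have hp : 0 < p := (Fact.out : p.Prime).pos
  rw [← mul_assoc, ← pow_succ, Nat.sub_add_cancel hp]

theorem pow_mul_mem_L {a : ℤ} {h x : K} (hh : h ∈ Rg S.W a) (hx : h * x ∈ Rg S.W a) :
    S.fr h • x ∈ S.L a := by
  have hp : 0 < p := (Fact.out : p.Prime).pos
  rw [fr_smul, pow_eq_pred_mul]
  refine mul_mem_Rg' (pow_mem_Rg hh _) hx ?_
  rw [Nat.cast_sub hp]; push_cast; ring

theorem isMod_L : IsMod S.W₀ S.L := by
  intro t w hw v hv
  obtain ⟨w, rfl⟩ := S.fr.surjective w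
  rw [fr_smul]
  exact mul_mem_Rg' (pow_mem_Rg (mem_Rg_one ((S.fr_mem_W₀ w).1 hw)) p) hv (by ring)

theorem mem_loc_L (hq : IsPrimeFam S.W₀ q₀) (x : K) :
    x ∈ loc S.W₀ q₀ S.L ↔ x ∈ Oloc S.W (S.pull q₀) := by
  rw [mem_loc hq S.isMod_L, mem_Oloc (S.isPrimeFam_over hq)]
  constructor
  · rintro ⟨a, h, hh, hh', hx⟩
    obtain ⟨h, rfl⟩ := S.fr.surjective h
    rw [fr_smul] at hx
    have h1 := (S.fr_mem_Rg₀ _ _).1 hh
    exact ⟨p * a, h ^ p, pow_mem_Rg h1 p, (S.isPrimeFam_over hq).pow_notMem h1 hh' p, hx⟩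
  · rintro ⟨a, h, hh, hh', hx⟩
    exact ⟨a, S.fr h, (S.fr_mem_Rg₀ _ _).2 hh, hh', S.pow_mul_mem_L hh hx⟩

/-- The basis of the Ulrich module. -/
noncomputable def β : Basis (Fin N) S.F₀ V := Basis.mk S.e_li S.e_span.ge

theorem β_apply (i : Fin N) : S.β i = S.e i := Basis.mk_apply _ _ i

theorem mem_M_iff {t : ℤ} {v : V} : v ∈ S.M t ↔ ∀ i, S.β.repr v i ∈ Rg (U3 k S.sF₀) t := by
  rw [M_eq_F₀, mem_gen]
  constructor
  · rintro ⟨f, hf, rfl⟩ i
    have : S.β.repr (∑ j, f j • S.e j) i = f i := by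
      simp only [← S.β_apply]
      exact congrFun (S.β.repr_sum_self f) i
    rw [this]; simpa using hf i
  · intro h
    refine ⟨fun i => S.β.repr v i, fun i => by simpa using h i, ?_⟩
    simp only [← S.β_apply]
    exact S.β.sum_repr v

theorem mem_M_of_two {l₁ l₂ : K₀} (h₁ : l₁ ∈ U3 k S.s₀) (h₂ : l₂ ∈ U3 k S.s₀)
    (hli : LinearIndependent k ![l₁, l₂]) {t : ℤ} {z : V} (hz₁ : l₁ • z ∈ S.M (t + 1))
    (hz₂ : l₂ • z ∈ S.M (t + 1)) : z ∈ S.M t := by
  have hU : U3 k S.s₀ = (U3 k S.sF₀).map (IsScalarTower.toAlgHom k S.F₀ K₀).toLinearMap :=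
    (U3_map S.sF₀).symm
  rw [hU] at h₁ h₂
  obtain ⟨l₁, h₁, rfl⟩ := h₁
  obtain ⟨l₂, h₂, rfl⟩ := h₂
  have hli' : LinearIndependent k ![l₁, l₂] := by
    refine LinearIndependent.of_comp (IsScalarTower.toAlgHom k S.F₀ K₀).toLinearMap ?_
    have : (IsScalarTower.toAlgHom k S.F₀ K₀).toLinearMap ∘ ![l₁, l₂] =
        ![(IsScalarTower.toAlgHom k S.F₀ K₀).toLinearMap l₁,
          (IsScalarTower.toAlgHom k S.F₀ K₀).toLinearMap l₂] := by
      funext i; fin_cases i <;> rfl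
    rw [this]; exact hli
  rw [mem_M_iff] at hz₁ hz₂ ⊢
  intro i
  refine mem_Rg_U3_of_two_linear S.algInd_sF₀ h₁ h₂ hli' t _ ?_ ?_
  · have e : S.β.repr (l₁ • z) i = l₁ * S.β.repr z i := by rw [map_smul]; rfl
    rw [← e]; exact hz₁ i
  · have e : S.β.repr (l₂ • z) i = l₂ * S.β.repr z i := by rw [map_smul]; rfl
    rw [← e]; exact hz₂ i

theorem isFG_M_inf (Y : Submodule K₀ V) : IsFG S.W₀ (S.M ⊓ cst k Y) :=
  have := S.fd₀
  S.isFG_M.of_le (S.isFG_M.isMod.inf (isMod_cst _ _)) inf_le_left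

theorem LF_M (Y : Submodule K₀ V) (hq : IsPrimeFam S.W₀ q₀)
    (hrel : Relevant S.W₀ q₀) : LF S.W₀ (S.M ⊓ cst k Y) (finrank K₀ Y) q₀ := by
  have := S.fd₀
  have := S.geo.fd
  obtain ⟨q, hpt, hle⟩ := exists_point hq hrel
  refine LF.of_le hle ?_
  have hpt' := S.isPoint_over hpt
  obtain ⟨j₀, hj₀⟩ := S.geo.chart
  obtain ⟨u, v, -, -, hu, hv, -, -, -, -, -, hb, -⟩ := hj₀ _ hpt'.1 hpt'.2.1
  obtain ⟨u', hu', v', hv', hgen⟩ := two_gen_of_pbasis p hpt' u v hu hv hb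
  have hFG := S.isFG_M_inf Y
  have key := LF_of_S2 S.ctx₀ hpt.1 hpt.2.1 hFG (S.fr u') (S.fr v') ((S.fr_mem_mloc _).2 hu')
    ((S.fr_mem_mloc _).2 hv') (fun x hx => by
      obtain ⟨x, rfl⟩ := S.fr.surjective x
      obtain ⟨a, ha, b, hb, rfl⟩ := hgen x ((S.fr_mem_mloc _).1 hx)
      exact ⟨S.fr a, (S.fr_mem_Oloc hpt.1 _).2 ha, S.fr b, (S.fr_mem_Oloc hpt.1 _).2 hb, by
        rw [map_add, map_mul, map_mul]⟩) (fun z hz => by
      obtain ⟨g, hg, hg'⟩ := hpt.2.1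
      have hg0 : g ≠ 0 := ne_zero_of_notMem_fam hg'
      obtain ⟨l₁, l₂, h₁, h₂, h₁', h₂', hli⟩ := exists_two_linear hpt S.algInd₀ S.U3_le_W₀
      have hl : ∀ i : Fin 2, (![l₁, l₂] i / g) • z ∈ loc S.W₀ q (S.M ⊓ cst k Y) := by
        intro i
        refine hz _ ((div_mem_mloc_iff hpt.1 (mem_Rg_one (S.U3_le_W₀ ?_)) (mem_Rg_one hg)
          hg').2 ?_)
        · fin_cases i
          · exact h₁
          · exact h₂
        · fin_cases i
          · exact h₁'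
          · exact h₂'
      obtain ⟨a, h, hh, hh', hm⟩ := exists_common_denom hpt.1 hFG.isMod _ hl
      have e : ∀ l : K₀, h • (l / g) • z = l • (h / g) • z := by
        intro l
        rw [smul_smul, smul_smul]; congr 1; ring
      have m₁ : l₁ • (h / g) • z ∈ (S.M ⊓ cst k Y) a := by rw [← e]; exact hm 0
      have m₂ : l₂ • (h / g) • z ∈ (S.M ⊓ cst k Y) a := by rw [← e]; exact hm 1
      have m₃ : (h / g) • z ∈ S.M (a - 1) :=
        S.mem_M_of_two h₁ h₂ hli (by rw [sub_add_cancel]; exact m₁.1)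
          (by rw [sub_add_cancel]; exact m₂.1)
      have l0 : l₁ ≠ 0 := hli.ne_zero 0
      have m₄ : (h / g) • z ∈ Y := by
        have := Y.smul_mem l₁⁻¹ (mem_cst.1 m₁.2)
        rwa [inv_smul_smul₀ l0] at this
      refine (mem_loc hpt.1 hFG.isMod).2 ⟨a, h, hh, hh', ?_⟩
      have m₅ := hFG.isMod (a - 1) g hg _ ⟨m₃, m₄⟩
      rwa [sub_add_cancel, smul_smul, mul_div_cancel₀ _ hg0] at m₅)
  rwa [S.spanK_M_inf] at key

theorem isFG_L : IsFG S.W₀ S.L := by
  have := S.geo.fd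
  have hp : 0 < p := (Fact.out : p.Prime).pos
  obtain ⟨s, hs⟩ := (Submodule.fg_iff_finiteDimensional S.W).2 this
  refine isFG_of_step S.isMod_L (fun t => finiteDimensional_Rg _) s.card (fun t ht => ?_)
    (fun m hm G hG hLG => ?_)
  · exact Rg_of_neg _ (mul_neg_of_pos_of_neg (by exact_mod_cast hp) ht)
  · have h1 := span_pow_le_mul (W := S.W) p (Submodule.span k {x | ∃ w ∈ S.W, x = w ^ p})
      (fun w hw => Submodule.subset_span ⟨w, hw, rfl⟩) s hp
      (by rw [← hs]; exact Submodule.subset_span) (p * m)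
      (by rw [mul_comm]; exact Nat.mul_le_mul_left _ hm)
    have e1 : S.L (m + 1) = S.W ^ (p * m + p) := by
      rw [← Rg_natCast]; unfold L; congr 1
    have e2 : S.L m = S.W ^ (p * m) := by
      rw [← Rg_natCast]; unfold L; congr 1
    rw [hs, ← e1, ← e2] at h1
    refine h1.trans (Submodule.mul_le.2 fun a ha b hb => ?_)
    induction ha using Submodule.span_induction with
    | mem x hx =>
      obtain ⟨w, hw, rfl⟩ := hx
      rw [← S.fr_smul]
      exact hG _ _ ((S.fr_mem_W₀ w).2 hw) _ (hLG hb)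
    | zero => rw [zero_mul]; exact Submodule.zero_mem _
    | add x y _ _ hx hy => rw [add_mul]; exact Submodule.add_mem _ hx hy
    | smul c x _ hx => rw [smul_mul_assoc]; exact Submodule.smul_mem _ _ hx

theorem spanK_L : spanK K₀ S.L = ⊤ := by
  rw [eq_top_iff]
  intro x _
  obtain ⟨a, h, hh, h0, hx⟩ := S.geo.frac x
  have h1 : S.fr h • x ∈ spanK K₀ S.L :=
    Submodule.subset_span (Set.mem_iUnion.2 ⟨a, S.pow_mul_mem_L hh hx⟩)
  have h2 := Submodule.smul_mem _ (S.fr h)⁻¹ h1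
  rwa [inv_smul_smul₀ ((map_ne_zero _).2 h0)] at h2

theorem loc_L_eq (hq : IsPrimeFam S.W₀ q₀) {u v : K} (hu : u ∈ Oloc S.W (S.pull q₀))
    (hv : v ∈ Oloc S.W (S.pull q₀))
    (hb : ∀ x ∈ Oloc S.W (S.pull q₀), ∃ w : Fin p × Fin p → K,
      (∀ ij, w ij ∈ Oloc S.W (S.pull q₀)) ∧
        x = ∑ ij : Fin p × Fin p, w ij ^ p * (u ^ (ij.1 : ℕ) * v ^ (ij.2 : ℕ))) :
    loc S.W₀ q₀ S.L = Submodule.span (Oloc S.W₀ q₀)
      (Set.range fun ij : Fin p × Fin p => u ^ (ij.1 : ℕ) * v ^ (ij.2 : ℕ)) := by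
  apply le_antisymm
  · intro x hx
    obtain ⟨w, hw, rfl⟩ := hb x ((S.mem_loc_L hq x).1 hx)
    refine Submodule.sum_mem _ fun ij _ => ?_
    rw [← S.fr_smul]
    exact Submodule.smul_mem _ (⟨S.fr (w ij), (S.fr_mem_Oloc hq _).2 (hw ij)⟩ : Oloc S.W₀ q₀)
      (Submodule.subset_span ⟨ij, rfl⟩)
  · rw [Submodule.span_le]
    rintro _ ⟨ij, rfl⟩
    exact (S.mem_loc_L hq _).2 (Subring.mul_mem _ (Subring.pow_mem _ hu _) (Subring.pow_mem _ hv _))

theorem span_eq_top_of_loc (hq : IsPrimeFam S.W₀ q₀) (hrel : Relevant S.W₀ q₀) {ι : Type}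
    {m : ι → K} (h : loc S.W₀ q₀ S.L = Submodule.span (Oloc S.W₀ q₀) (Set.range m)) :
    Submodule.span K₀ (Set.range m) = ⊤ := by
  rw [eq_top_iff]
  intro x _
  obtain ⟨a, ha, h0, hx⟩ := S.ctx.frac_Oloc (S.isPrimeFam_over hq) (S.relevant_over hrel) x
  have h1 : S.fr a • x ∈ loc S.W₀ q₀ S.L := by
    rw [S.mem_loc_L hq, fr_smul, pow_eq_pred_mul]
    exact Subring.mul_mem _ (Subring.pow_mem _ ha _) hx
  rw [h] at h1
  have h2 := Submodule.smul_mem _ (S.fr a)⁻¹ (Submodule.span_le_restrictScalars (Oloc S.W₀ q₀) K₀ _ h1)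
  rwa [inv_smul_smul₀ ((map_ne_zero _).2 h0)] at h2

theorem LF_L (hp : N < p) (hq : IsPrimeFam S.W₀ q₀)
    (hrel : Relevant S.W₀ q₀) : LF S.W₀ S.L (p * p) q₀ := by
  obtain ⟨j₀, hj₀⟩ := S.geo.chart
  obtain ⟨u, v, -, -, hu, hv, -, -, -, -, -, hb, -⟩ :=
    hj₀ _ (S.isPrimeFam_over hq) (S.relevant_over hrel)
  have h1 := S.loc_L_eq hq hu hv hb
  have h2 := S.span_eq_top_of_loc hq hrel h1
  obtain ⟨b, -⟩ := S.exists_pbasis hp
  have h3 := linearIndependent_of_top_le_span_of_card_eq_finrank h2.ge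
    (finrank_eq_card_basis b).symm
  have h4 := LF_of_loc_eq_span hq hrel S.isFG_L _ h3 h1
  simpa using h4

/-- The determinant of the Frobenius push-forward. -/
theorem loc_L (hp : N < p) (b : Basis (Fin p × Fin p) K₀ K)
    (hb : ∀ ij : Fin p × Fin p, b ij = S.s 0 ^ (ij.1 : ℕ) * S.s 1 ^ (ij.2 : ℕ)) :
    ∃ h₀ : K₀, h₀ ≠ 0 ∧
      ∀ q₀, Ht1 S.W₀ q₀ → ∃ (e' : Fin p × Fin p → K) (g c : K₀), g ∈ S.W₀ ∧ g ∉ q₀ 1 ∧ c ≠ 0 ∧
        c ∈ Oloc S.W₀ q₀ ∧ c⁻¹ ∈ Oloc S.W₀ q₀ ∧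
        loc S.W₀ q₀ S.L = Submodule.span (Oloc S.W₀ q₀) (Set.range e') ∧
        b.det e' = c * h₀ * g ^ (5 * (p * (p - 1) / 2)) := by
  classical
  have := S.charP_K
  obtain ⟨j₀, hj₀⟩ := S.geo.chart
  obtain ⟨D, hD⟩ := S.exists_derivations hp
  set j := j₀ ((D 0).restrictScalars k) ((D 1).restrictScalars k) with hj
  set e₀ := p * (p - 1) / 2 with he₀
  refine ⟨if j = 0 then 1 else S.fr j ^ e₀, ?_, fun q₀ hq₀ => ?_⟩
  · split_ifs with h
    · exact one_ne_zero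
    · exact pow_ne_zero _ ((map_ne_zero _).2 h)
  · have hq := hq₀.1
    have hrel := hq₀.relevant
    obtain ⟨u, v, g, c, hu, hv, hg, hg', hc0, hc, hc', hbb, hjac⟩ :=
      hj₀ _ (S.isPrimeFam_over hq) (S.relevant_over hrel)
    have h1 := S.loc_L_eq hq hu hv hbb
    have h2 := S.span_eq_top_of_loc hq hrel h1
    obtain ⟨hne, ε, hε, hdet⟩ := det_pbasis p S.s b hb D hD u v h2
    have h3 : D 0 u * D 1 v - D 1 u * D 0 v = c * g ^ 5 * j :=
      hjac ((D 0).restrictScalars k) ((D 1).restrictScalars k)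
    rw [h3] at hne hdet
    have hj0 : j ≠ 0 := right_ne_zero_of_mul hne
    rw [if_neg hj0]
    obtain ⟨ε₀, hε₀, hε₁⟩ : ∃ ε₀ : K₀, (ε₀ = 1 ∨ ε₀ = -1) ∧ algebraMap K₀ K ε₀ = ε := by
      rcases hε with rfl | rfl
      · exact ⟨1, Or.inl rfl, map_one _⟩
      · exact ⟨-1, Or.inr rfl, by rw [map_neg, map_one]⟩
    have hc₀ : S.fr c ∈ Oloc S.W₀ q₀ := (S.fr_mem_Oloc hq _).2 hc
    have hc₁ : (S.fr c)⁻¹ ∈ Oloc S.W₀ q₀ := by
      rw [← map_inv₀]; exact (S.fr_mem_Oloc hq _).2 hc'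
    refine ⟨_, S.fr g, ε₀ * S.fr c ^ e₀, (S.fr_mem_W₀ _).2 hg, hg', ?_, ?_, ?_, h1, ?_⟩
    · refine mul_ne_zero ?_ (pow_ne_zero _ ((map_ne_zero _).2 hc0))
      rcases hε₀ with rfl | rfl
      · exact one_ne_zero
      · exact neg_ne_zero.2 one_ne_zero
    · refine Subring.mul_mem _ ?_ (Subring.pow_mem _ hc₀ _)
      rcases hε₀ with rfl | rfl
      · exact Subring.one_mem _
      · exact Subring.neg_mem _ (Subring.one_mem _)
    · rw [mul_inv, ← inv_pow]
      refine Subring.mul_mem _ ?_ (Subring.pow_mem _ hc₁ _)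
      rcases hε₀ with rfl | rfl
      · rw [inv_one]; exact Subring.one_mem _
      · rw [inv_neg, inv_one]; exact Subring.neg_mem _ (Subring.one_mem _)
    · apply (algebraMap K₀ K).injective
      rw [hdet]
      simp only [map_mul, map_pow, S.algebraMap_fr, hε₁]
      ring

end Setup

end Pool.Agent.Lib.MP_cf0da3_ag
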