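import Mathlib

/-! Commutative algebra for the passage from sheaves to graded modules. -/

set_option autoImplicit false

namespace Pool.Agent.Lib.MP_cf0da3_ag

open MvPolynomial

attribute [local instance] MvPolynomial.gradedAlgebra

variable {k : Type} [Field k] {σ τ : Type}

theorem decompose_eq (f : MvPolynomial σ k) (n : ℕ) :
    (DirectSum.decompose (homogeneousSubmodule σ k) f n : MvPolynomial σ k) =
      homogeneousComponent n f :=
  decomposition.decompose'_apply f n

theorem homogeneousComponent_mul_left {a : MvPolynomial σ k} {i : ℕ} (ha : a.IsHomogeneous i)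
    (b : MvPolynomial σ k) (j : ℕ) :
    homogeneousComponent (i + j) (a * b) = a * homogeneousComponent j b := by
  rw [← decompose_eq, ← decompose_eq]
  exact DirectSum.coe_decompose_mul_add_of_left_mem (homogeneousSubmodule σ k) ha

theorem isHomogeneous_of_comp {P : Ideal (MvPolynomial σ k)}
    (hP : ∀ f ∈ P, ∀ n, homogeneousComponent n f ∈ P) :
    P.IsHomogeneous (homogeneousSubmodule σ k) := fun n f hf => by
  rw [decompose_eq]
  exact hP f hf n

/-- A rational function that is regular on two charts after division by the coordinate is a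
linear form. -/
theorem exists_linear {K : Type} [Field K] [Algebra (MvPolynomial σ k) K]
    (hinj : Function.Injective (algebraMap (MvPolynomial σ k) K)) {i j : σ} (hij : i ≠ j)
    {z : K} {e e' : ℕ} {g g' : MvPolynomial σ k} (hg : g.IsHomogeneous e)
    (h : z * algebraMap _ K (X i : MvPolynomial σ k) ^ e = algebraMap _ K (g * X i))
    (h' : z * algebraMap _ K (X j : MvPolynomial σ k) ^ e' = algebraMap _ K (g' * X j)) :
    ∃ l : MvPolynomial σ k, l.IsHomogeneous 1 ∧ algebraMap _ K l = z := by
  have h1 : g * X i * X j ^ e' = X i ^ e * (g' * X j) := by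
    apply hinj
    rw [map_mul, map_mul _ (X i ^ e), ← h, ← h', map_pow, map_pow]
    ring
  have h2 : (X i : MvPolynomial σ k) ^ e ∣ g * X i := by
    refine X_prime.pow_dvd_of_dvd_mul_right e (b := X j ^ e') (fun hd => ?_) ⟨_, h1⟩
    exact hij (X_dvd_X.1 (X_prime.dvd_of_dvd_pow hd))
  obtain ⟨c, hc⟩ := h2
  have h3 : g * X i = X i ^ e * homogeneousComponent 1 c := by
    rw [← homogeneousComponent_mul_left (i := e) (by simpa using (isHomogeneous_X k i).pow e),
      ← hc, homogeneousComponent_eq_self (hg.mul (isHomogeneous_X k i))]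
  refine ⟨_, homogeneousComponent_isHomogeneous 1 c, ?_⟩
  have h4 : algebraMap _ K (X i : MvPolynomial σ k) ^ e ≠ 0 :=
    pow_ne_zero _ fun h0 => X_ne_zero i (hinj (h0.trans (map_zero _).symm))
  refine mul_right_cancel₀ h4 ?_
  rw [h, h3, map_mul, map_pow, mul_comm]

theorem finite_aux [Finite σ] [Fintype τ] {P : Ideal (MvPolynomial σ k)}
    (hP : ∀ f ∈ P, ∀ n, homogeneousComponent n f ∈ P) {ℓ : τ → MvPolynomial σ k}
    (hℓ : ∀ i, (ℓ i).IsHomogeneous 1) {N : ℕ}
    (hN : idealOfVars σ k ^ N ≤ P ⊔ Ideal.span (Set.range ℓ))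
    {B : Type} [CommRing B] [Algebra (MvPolynomial τ k) B] (q : MvPolynomial σ k →+* B)
    (hq : Function.Surjective q) (hqP : ∀ p ∈ P, q p = 0)
    (hC : ∀ c, algebraMap (MvPolynomial τ k) B (C c) = q (C c))
    (hX : ∀ i, algebraMap (MvPolynomial τ k) B (X i) = q (ℓ i)) :
    Module.Finite (MvPolynomial τ k) B := by
  classical
  obtain ⟨T, hT⟩ : (restrictTotalDegree σ k N).FG := Module.Finite.iff_fg.1 inferInstance
  let M : Submodule (MvPolynomial τ k) B := Submodule.span _ (T.image q : Set B)
  have hlow : ∀ f ∈ restrictTotalDegree σ k N, q f ∈ M := by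
    intro f hf
    rw [← hT] at hf
    induction hf using Submodule.span_induction with
    | mem x hx => exact Submodule.subset_span (Finset.mem_coe.2 (Finset.mem_image_of_mem q hx))
    | zero => rw [map_zero]; exact M.zero_mem
    | add x y _ _ hx hy => rw [map_add]; exact M.add_mem hx hy
    | smul c x _ hx =>
      have := M.smul_mem (C c) hx
      rw [Algebra.smul_def, hC] at this
      rw [smul_eq_C_mul, map_mul]
      exact this
  have hall : ∀ n (f : MvPolynomial σ k), f.IsHomogeneous n → q f ∈ M := by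
    intro n
    induction n with
    | zero =>
      intro f hf
      exact hlow f ((mem_restrictTotalDegree _ _ _).2 (hf.totalDegree_le.trans (Nat.zero_le _)))
    | succ n ih =>
      intro f hf
      by_cases hn : n + 1 ≤ N
      · exact hlow f ((mem_restrictTotalDegree _ _ _).2 (hf.totalDegree_le.trans hn))
      have h1 : f ∈ idealOfVars σ k ^ N := by
        refine (mem_pow_idealOfVars_iff' N f).2 fun x hx => hf.coeff_eq_zero ?_
        omega
      obtain ⟨p, hp, q', hq', hpq⟩ := Submodule.mem_sup.1 (hN h1)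
      obtain ⟨g, rfl⟩ := Ideal.mem_span_range_iff_exists_fun.1 hq'
      have h2 := congrArg (homogeneousComponent (n + 1)) hpq
      rw [homogeneousComponent_eq_self hf, map_add, map_sum] at h2
      rw [← h2, map_add, hqP _ (hP p hp _), zero_add, map_sum]
      refine M.sum_mem fun i _ => ?_
      rw [mul_comm, add_comm, homogeneousComponent_mul_left (hℓ i), map_mul]
      have := M.smul_mem (X i) (ih _ (homogeneousComponent_isHomogeneous n (g i)))
      rw [Algebra.smul_def, hX] at this
      exact this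
  refine ⟨⟨T.image q, eq_top_iff.2 fun b _ => ?_⟩⟩
  obtain ⟨f, rfl⟩ := hq b
  rw [← sum_homogeneousComponent f, map_sum]
  exact M.sum_mem fun n _ => hall n _ (homogeneousComponent_isHomogeneous n f)

/-- Linear forms without common zero on the variety give a finite ring map. -/
theorem finite_of_no_zero [Finite σ] [Fintype τ] {P : Ideal (MvPolynomial σ k)}
    (hP : ∀ f ∈ P, ∀ n, homogeneousComponent n f ∈ P) {ℓ : τ → MvPolynomial σ k}
    (hℓ : ∀ i, (ℓ i).IsHomogeneous 1)
    (h0 : ∀ Q : Ideal (MvPolynomial σ k), Q.IsHomogeneous (homogeneousSubmodule σ k) →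
      Q.IsPrime → P ≤ Q → (∀ i, ℓ i ∈ Q) → ∀ j, X j ∈ Q) :
    (aeval (fun i => Ideal.Quotient.mk P (ℓ i)) :
      MvPolynomial τ k →ₐ[k] MvPolynomial σ k ⧸ P).toRingHom.Finite := by
  have hI : (P ⊔ Ideal.span (Set.range ℓ)).IsHomogeneous (homogeneousSubmodule σ k) :=
    (isHomogeneous_of_comp hP).sup (Ideal.homogeneous_span _ _ (by
      rintro _ ⟨i, rfl⟩
      exact ⟨1, hℓ i⟩))
  have hJ : idealOfVars σ k ≤ (P ⊔ Ideal.span (Set.range ℓ)).radical := by
    rw [hI.radical_eq, idealOfVars, Ideal.span_le]
    rintro _ ⟨j, rfl⟩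
    refine Submodule.mem_sInf.2 fun Q hQ => ?_
    exact h0 Q hQ.1 hQ.2.2 (le_sup_left.trans hQ.2.1)
      (fun i => (le_sup_right.trans hQ.2.1) (Ideal.subset_span ⟨i, rfl⟩)) j
  obtain ⟨N, hN⟩ := Ideal.exists_pow_le_of_le_radical_of_fg hJ (idealOfVars_fg σ k)
  exact @finite_aux k _ σ τ _ _ P hP ℓ hℓ N hN (MvPolynomial σ k ⧸ P) _
    (aeval (fun i => Ideal.Quotient.mk P (ℓ i)) :
      MvPolynomial τ k →ₐ[k] MvPolynomial σ k ⧸ P).toRingHom.toAlgebra (Ideal.Quotient.mk P)
    Ideal.Quotient.mk_surjective (fun p hp => Ideal.Quotient.eq_zero_iff_mem.2 hp)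
    (fun c => aeval_C (fun i => Ideal.Quotient.mk P (ℓ i)) c)
    (fun i => aeval_X (fun i => Ideal.Quotient.mk P (ℓ i)) i)

/-- Descent of a matrix representation from the fraction field to the polynomial ring. -/
theorem exists_descent {R K ρ : Type} [CommRing R] [Algebra k R] [CommRing K] [Algebra R K]
    [Fintype ρ] [DecidableEq ρ] (hinj : Function.Injective (algebraMap R K))
    (ψ' : MvPolynomial σ k →+* Matrix ρ ρ K)
    (hC : ∀ c, ψ' (C c) = Matrix.scalar ρ (algebraMap R K (algebraMap k R c)))
    (hX : ∀ j a b, ψ' (X j) a b ∈ Set.range (algebraMap R K)) :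
    ∃ ψ : MvPolynomial σ k →ₐ[k] Matrix ρ ρ R, ∀ f, (ψ f).map (algebraMap R K) = ψ' f := by
  let μ : Matrix ρ ρ R →+* Matrix ρ ρ K := (algebraMap R K).mapMatrix
  have hμ : Function.Injective μ := fun A B h => by
    ext a b
    exact hinj (congrFun (congrFun h a) b)
  have hs : ∀ t : R, μ (Matrix.scalar ρ t) = Matrix.scalar ρ (algebraMap R K t) := fun t => by
    ext a b
    simp only [μ, RingHom.mapMatrix_apply, Matrix.scalar_apply, Matrix.map_apply,
      Matrix.diagonal_apply]
    split_ifs <;> simp
  have hr : ∀ f, ∃ A, μ A = ψ' f := by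
    intro f
    induction f using MvPolynomial.induction_on with
    | C c => exact ⟨_, (hs _).trans (hC c).symm⟩
    | add p q hp hq =>
      obtain ⟨A, hA⟩ := hp
      obtain ⟨B, hB⟩ := hq
      exact ⟨A + B, by rw [map_add, map_add, hA, hB]⟩
    | mul_X p j hp =>
      obtain ⟨A, hA⟩ := hp
      choose B hB using hX j
      refine ⟨A * Matrix.of B, ?_⟩
      rw [map_mul, map_mul, hA]
      congr 1
      ext a b
      exact hB a b
  choose g hg using hr
  refine ⟨{ toFun := g
            map_one' := hμ (by rw [hg, map_one, map_one])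
            map_mul' := fun x y => hμ (by rw [hg, map_mul, map_mul, hg, hg])
            map_zero' := hμ (by rw [hg, map_zero, map_zero])
            map_add' := fun x y => hμ (by rw [hg, map_add, map_add, hg, hg])
            commutes' := fun c => hμ ?_ }, hg⟩
  change μ (g (C c)) = μ (Matrix.scalar ρ (algebraMap k R c))
  rw [hg, hC, hs]

end Pool.Agent.Lib.MP_cf0da3_ag
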