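import Mathlib

/-! Projective space and linear projections, as schemes and morphisms of schemes. -/

set_option autoImplicit false

namespace Pool.Agent.Lib.MP_cf0da3_ag

open CategoryTheory AlgebraicGeometry MvPolynomial

attribute [local instance] MvPolynomial.gradedAlgebra

/-- Projective `n`-space over `k`: `Proj` of the polynomial ring in `n + 1` variables with its
standard grading. -/
noncomputable abbrev PP (k : Type) [Field k] (n : ℕ) : Scheme.{0} :=
  Proj (homogeneousSubmodule (Fin (n + 1)) k)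

/-- The value of a morphism of commutative rings on an element. -/
def applyHom {R S : CommRingCat.{0}} (φ : R ⟶ S) (x : R) : S := φ.hom x

/-- The free module sheaf of rank `r` on a scheme. -/
noncomputable def freeSheaf (Y : Scheme.{0}) (r : ℕ) : Y.Modules :=
  SheafOfModules.free (R := Y.ringCatSheaf) (Fin r)

/-- The section `f / g ^ e` of the structure sheaf of `Proj` over the basic open set of `g`, for
`g` of degree one and `f` of degree `e`. -/
noncomputable def fracProj {A σ : Type} [CommRing A] [SetLike σ A] [AddSubgroupClass σ A]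
    (𝒜 : ℕ → σ) [GradedRing 𝒜] (g : A) (hg : g ∈ 𝒜 1) (e : ℕ) (f : A) (hf : f ∈ 𝒜 (e • 1)) :
    Γ(Proj 𝒜, Proj.basicOpen 𝒜 g) :=
  applyHom (Proj.awayToSection 𝒜 g) (HomogeneousLocalization.Away.mk 𝒜 hg e f hf)

variable {k : Type} [Field k] {n m d : ℕ}

/-- The open set of projective space where the form `g` does not vanish. -/
noncomputable abbrev DD (g : MvPolynomial (Fin (n + 1)) k) : (PP k n).Opens :=
  Proj.basicOpen (homogeneousSubmodule (Fin (n + 1)) k) g

theorem mem_smul_one {e : ℕ} {f : MvPolynomial (Fin (n + 1)) k} (hf : f.IsHomogeneous e) :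
    f ∈ homogeneousSubmodule (Fin (n + 1)) k (e • 1) := by
  simpa using hf

/-- The regular function `f / g ^ e` on `DD g`, for a linear form `g` and a form `f` of
degree `e`. -/
noncomputable def frac (g : MvPolynomial (Fin (n + 1)) k) (hg : g.IsHomogeneous 1) (e : ℕ)
    (f : MvPolynomial (Fin (n + 1)) k) (hf : f.IsHomogeneous e) : Γ(PP k n, DD g) :=
  fracProj (homogeneousSubmodule (Fin (n + 1)) k) g hg e f (mem_smul_one hf)

/-- Substitution of `ℓ i` for the variable `y i`. -/
noncomputable def subst (ℓ : Fin (d + 1) → MvPolynomial (Fin (m + 1)) k)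
    (f : MvPolynomial (Fin (d + 1)) k) : MvPolynomial (Fin (m + 1)) k :=
  aeval ℓ f

theorem isHomogeneous_aeval {ℓ : Fin (d + 1) → MvPolynomial (Fin (m + 1)) k}
    (hℓ : ∀ i, (ℓ i).IsHomogeneous 1) {e : ℕ} {f : MvPolynomial (Fin (d + 1)) k}
    (hf : f.IsHomogeneous e) : (subst ℓ f).IsHomogeneous e := by
  simpa [subst] using hf.aeval ℓ hℓ

/-- `π` is the restriction to `X` (embedded by `ι`) of the linear projection
`x ↦ (ℓ 0 x : ... : ℓ d x)`: the preimage of the chart `y i ≠ 0` is the part of `X` where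
`ℓ i ≠ 0`, and on it the function `f / (y i) ^ e` pulls back to `f (ℓ) / (ℓ i) ^ e`. -/
def IsLinearProjection {X : Scheme.{0}} (ι : X ⟶ PP k m)
    (ℓ : Fin (d + 1) → MvPolynomial (Fin (m + 1)) k) (hℓ : ∀ i, (ℓ i).IsHomogeneous 1)
    (π : X ⟶ PP k d) : Prop :=
  ∀ i : Fin (d + 1), ∃ h : π ⁻¹ᵁ DD (MvPolynomial.X i) = ι ⁻¹ᵁ DD (ℓ i),
    ∀ (e : ℕ) (f : MvPolynomial (Fin (d + 1)) k) (hf : f.IsHomogeneous e),
      applyHom (π.app (DD (MvPolynomial.X i)))
          (frac (MvPolynomial.X i) (isHomogeneous_X k i) e f hf) =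
        applyHom (ι.appLE (DD (ℓ i)) (π ⁻¹ᵁ DD (MvPolynomial.X i)) h.le)
          (frac (ℓ i) (hℓ i) e (subst ℓ f) (isHomogeneous_aeval hℓ hf))

/-- Some sheaf of modules on `X` has a free direct image of positive finite rank under some linear
projection from `X` (embedded by `ι`) to a projective space. -/
def HasFreeProjection {X : Scheme.{0}} (ι : X ⟶ PP k m) : Prop :=
  ∃ (d : ℕ) (ℓ : Fin (d + 1) → MvPolynomial (Fin (m + 1)) k) (hℓ : ∀ i, (ℓ i).IsHomogeneous 1)
    (π : X ⟶ PP k d), IsLinearProjection ι ℓ hℓ π ∧ ∃ (U : X.Modules) (r : ℕ), 0 < r ∧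
      Nonempty ((Scheme.Modules.pushforward π).obj U ≅ freeSheaf (PP k d) r)

end Pool.Agent.Lib.MP_cf0da3_ag
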