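import Pool.Agent.Lib.MP_cf0da3_ag.ShPsi

/-! The surface as a closed subscheme of projective space, and the absence of Ulrich sheaves. -/

set_option autoImplicit false

namespace Pool.Agent.Lib.MP_cf0da3_ag

open CategoryTheory AlgebraicGeometry MvPolynomial TopologicalSpace

attribute [local instance] MvPolynomial.gradedAlgebra

variable {k : Type} [Field k] {m d : ℕ}

/-- The variety of a relevant homogeneous prime ideal. -/
theorem exists_variety {P : Ideal (MvPolynomial (Fin (m + 1)) k)} (hp : P.IsPrime)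
    (hP : ∀ f ∈ P, ∀ n, homogeneousComponent n f ∈ P) (hX : ∃ j, MvPolynomial.X j ∉ P) :
    ∃ (X : Scheme.{0}) (ι : X ⟶ PP k m), IsClosedImmersion ι ∧ IsIntegral X ∧
      ∀ y : PP k m, y ∈ Set.range ι ↔ P ≤ y.asHomogeneousIdeal.toIdeal := by
  let p : PP k m := (⟨⟨P, isHomogeneous_of_comp hP⟩, hp, fun h => by
    obtain ⟨j, hj⟩ := hX
    exact hj (h (HomogeneousIdeal.mem_irrelevant_of_mem _ one_pos (isHomogeneous_X k j)))⟩ :
    ProjectiveSpectrum (homogeneousSubmodule (Fin (m + 1)) k))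
  let Z : Closeds (PP k m) := Closeds.closure {p}
  let I := Scheme.IdealSheafData.vanishingIdeal Z
  have hr : Set.range I.subschemeι = closure {p} := by
    rw [I.range_subschemeι]
    exact Scheme.IdealSheafData.coe_support_vanishingIdeal Z
  have hred : IsReduced I.subscheme := by
    have : ∀ U, IsReduced (I.subschemeCover.openCover.X U) := fun U => by
      have : _root_.IsReduced (Γ(PP k m, U.1) ⧸ I.ideal U) :=
        (Ideal.isRadical_iff_quotient_reduced _).1 (PrimeSpectrum.isRadical_vanishingIdeal _)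
      exact inferInstanceAs (IsReduced (Spec (.of (Γ(PP k m, U.1) ⧸ I.ideal U))))
    exact IsReduced.of_openCover _ I.subschemeCover.openCover
  have hirr : IrreducibleSpace I.subscheme := by
    have h1 : IsIrreducible (Set.range I.subschemeι) := by
      rw [hr]
      exact isIrreducible_singleton.closure
    have := Subtype.irreducibleSpace h1
    exact I.subschemeι.isEmbedding.toHomeomorph.symm.surjective.irreducibleSpace
      I.subschemeι.isEmbedding.toHomeomorph.symm.continuous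
  refine ⟨I.subscheme, I.subschemeι, inferInstance,
    isIntegral_of_irreducibleSpace_of_isReduced _, fun y => ?_⟩
  rw [hr]
  exact (ProjectiveSpectrum.le_iff_mem_closure _ p y).symm

theorem finite_of_proj {X : Scheme.{0}} (ι : X ⟶ PP k m)
    {P : Ideal (MvPolynomial (Fin (m + 1)) k)}
    (hP : ∀ f ∈ P, ∀ n, homogeneousComponent n f ∈ P)
    (hι : ∀ y : PP k m, P ≤ y.asHomogeneousIdeal.toIdeal → y ∈ Set.range ι)
    {ℓ : Fin (d + 1) → MvPolynomial (Fin (m + 1)) k} (hℓ : ∀ i, (ℓ i).IsHomogeneous 1)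
    {π : X ⟶ PP k d} (hπ : IsLinearProjection ι ℓ hℓ π) :
    (aeval (fun i => Ideal.Quotient.mk P (ℓ i)) : MvPolynomial (Fin (d + 1)) k →ₐ[k]
      MvPolynomial (Fin (m + 1)) k ⧸ P).toRingHom.Finite := by
  refine finite_of_no_zero hP hℓ fun Q hQ hQp hPQ hℓQ j => ?_
  by_contra hj
  let y : PP k m := (⟨⟨Q, hQ⟩, hQp, fun h =>
    hj (h (HomogeneousIdeal.mem_irrelevant_of_mem _ one_pos (isHomogeneous_X k j)))⟩ :
    ProjectiveSpectrum (homogeneousSubmodule (Fin (m + 1)) k))
  obtain ⟨x, hx⟩ := hι y hPQ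
  have h1 : ∃ i, π x ∈ DD (MvPolynomial.X i : MvPolynomial (Fin (d + 1)) k) := by
    by_contra h
    refine (π x).not_irrelevant_le ((HomogeneousIdeal.irrelevant_le _).2 fun n hn f hf => ?_)
    have h2 : f ∈ idealOfVars (Fin (d + 1)) k ^ 1 := by
      refine (mem_pow_idealOfVars_iff' 1 f).2 fun c hc => IsHomogeneous.coeff_eq_zero hf ?_
      omega
    rw [pow_one] at h2
    refine (Ideal.span_le.2 ?_ : _ ≤ (π x).asHomogeneousIdeal.toIdeal) h2
    rintro _ ⟨i, rfl⟩
    by_contra hi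
    exact h ⟨i, hi⟩
  obtain ⟨i, hi⟩ := h1
  obtain ⟨he, -⟩ := hπ i
  have h3 : ι x ∈ DD (ℓ i) := he.le hi
  rw [hx] at h3
  exact h3 (hℓQ i)

theorem no_ulrich_sheaf : ∃ (X : Scheme.{0}) (ι : X ⟶ PP (AlgebraicClosure ℚ) 119),
    IsClosedImmersion ι ∧ IsIntegral X ∧
    ∀ (d : ℕ) (ℓ : Fin (d + 1) → MvPolynomial (Fin (119 + 1)) (AlgebraicClosure ℚ))
      (hℓ : ∀ i, (ℓ i).IsHomogeneous 1) (π : X ⟶ PP (AlgebraicClosure ℚ) d),
      IsLinearProjection ι ℓ hℓ π → ∀ (U : X.Modules) (r : ℕ), 0 < r →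
        IsEmpty ((Scheme.Modules.pushforward π).obj U ≅
          SheafOfModules.free (R := (PP (AlgebraicClosure ℚ) d).ringCatSheaf) (Fin r)) := by
  obtain ⟨K, _, _, C, hC⟩ := exists_good (AlgebraicClosure ℚ) (by norm_num)
  obtain ⟨X, ι, h1, h2, h3⟩ := exists_variety (surfIdeal_isPrime C (AlgebraicClosure ℚ))
    (surfIdeal_homogeneous C _) (exists_X_notMem_surfIdeal C _)
  refine ⟨X, ι, h1, h2, fun d ℓ hℓ π hπ U r hr => ⟨fun φ => ?_⟩⟩
  obtain ⟨ψ', p1, p2, p3⟩ := exists_psiK ι (surfIdeal_homogeneous C _)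
    (fun x f hf => (h3 _).1 ⟨x, rfl⟩ hf) hℓ hπ U r φ
  have hK := IsFractionRing.injective (MvPolynomial (Fin (d + 1)) (AlgebraicClosure ℚ))
    (FractionRing (MvPolynomial (Fin (d + 1)) (AlgebraicClosure ℚ)))
  have hfin := finite_of_proj ι (surfIdeal_homogeneous C _) (fun y hy => (h3 y).2 hy) hℓ hπ
  have hinj : Function.Injective (aeval (fun i => Ideal.Quotient.mk (surfIdeal C _) (ℓ i)) :
      MvPolynomial (Fin (d + 1)) (AlgebraicClosure ℚ) →ₐ[AlgebraicClosure ℚ]
        MvPolynomial (Fin (119 + 1)) (AlgebraicClosure ℚ) ⧸ surfIdeal C _) := by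
    refine (injective_iff_map_eq_zero _).2 fun f hf => ?_
    have e : (aeval (fun i => Ideal.Quotient.mk (surfIdeal C _) (ℓ i)) :
        MvPolynomial (Fin (d + 1)) (AlgebraicClosure ℚ) →ₐ[AlgebraicClosure ℚ]
          MvPolynomial (Fin (119 + 1)) (AlgebraicClosure ℚ) ⧸ surfIdeal C _) =
        (Ideal.Quotient.mkₐ _ (surfIdeal C _)).comp (aeval ℓ) :=
      MvPolynomial.algHom_ext fun i => by simp
    rw [e] at hf
    have h4 := p2 (aeval ℓ f) (Ideal.Quotient.eq_zero_iff_mem.1 hf)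
    rw [p1] at h4
    have h5 := congrFun (congrFun h4 ⟨0, hr⟩) ⟨0, hr⟩
    rw [Matrix.scalar_apply, Matrix.diagonal_apply_eq] at h5
    exact hK (h5.trans (map_zero _).symm)
  obtain rfl := dim_eq_two C _ hC d ℓ hinj hfin
  have hlin : ∀ j a b, ∃ l : MvPolynomial (Fin (2 + 1)) (AlgebraicClosure ℚ),
      l.IsHomogeneous 1 ∧ algebraMap _ _ l = ψ' (MvPolynomial.X j) a b := fun j a b => by
    obtain ⟨n, f, hf, h⟩ := p3 0 j a b
    obtain ⟨n', f', -, h'⟩ := p3 1 j a b
    exact exists_linear hK (by decide) hf h h'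
  obtain ⟨ψ, hψ⟩ := exists_descent hK ψ'
    (fun c => by
      have := p1 (MvPolynomial.C c)
      rw [aeval_C] at this
      exact this)
    (fun j a b => (hlin j a b).imp fun _ h => h.2)
  have hext : ∀ f A, A.map (algebraMap _ _) = ψ' f → ψ f = A := fun f A h => by
    ext1 a b
    exact hK (congrFun (congrFun ((hψ f).trans h.symm) a) b)
  refine not_udata r hr ⟨ℓ, ψ, hℓ, fun j a b => ?_, fun g hg => hext _ _ ?_, fun i => hext _ _ ?_⟩
  · obtain ⟨l, hl, e⟩ := hlin j a b
    have : ψ (MvPolynomial.X j) a b = l :=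
      hK ((congrFun (congrFun (hψ (MvPolynomial.X j)) a) b).trans e.symm)
    rw [this]
    exact hl
  · rw [p2 _ (map_RelZ_mem_surfIdeal C _ hg)]
    exact Matrix.map_zero _ (map_zero _)
  · have := p1 (MvPolynomial.X i)
    rw [aeval_X] at this
    rw [this, Matrix.diagonal_map (map_zero _)]
    rfl

end Pool.Agent.Lib.MP_cf0da3_ag
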