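import Pool.Agent.Lib.MP_cf0da3_ag.ShDefs

/-! Regular functions on the charts of projective space. -/

set_option autoImplicit false

namespace Pool.Agent.Lib.MP_cf0da3_ag

open CategoryTheory AlgebraicGeometry MvPolynomial TopologicalSpace

attribute [local instance] MvPolynomial.gradedAlgebra

variable {k : Type} [Field k] {n : ℕ}

instance ptPrime (x : PP k n) : x.asHomogeneousIdeal.toIdeal.IsPrime := x.isPrime

/-- The value of a section in the local ring of a point. -/
noncomputable def vl (W : (PP k n).Opens) (x : PP k n) (hx : x ∈ W) :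
    Γ(PP k n, W) →+* Localization x.asHomogeneousIdeal.toIdeal.primeCompl :=
  (algebraMap (HomogeneousLocalization.AtPrime (homogeneousSubmodule (Fin (n + 1)) k)
    x.asHomogeneousIdeal.toIdeal) _).comp
    (openToLocalization (homogeneousSubmodule (Fin (n + 1)) k) W x hx).hom

theorem vl_res {W W' : (PP k n).Opens} (h : W' ≤ W) (x : PP k n) (hx : x ∈ W')
    (s : Γ(PP k n, W)) :
    vl W' x hx ((PP k n).presheaf.map (homOfLE h).op s) = vl W x (h hx) s := rfl

theorem vl_ext {W : (PP k n).Opens} {s t : Γ(PP k n, W)}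
    (h : ∀ x hx, vl W x hx s = vl W x hx t) : s = t := by
  apply Subtype.ext
  funext x
  exact HomogeneousLocalization.val_injective _ (h x.1 x.2)

theorem vl_frac (g : MvPolynomial (Fin (n + 1)) k) (hg : g.IsHomogeneous 1) (e : ℕ)
    (f : MvPolynomial (Fin (n + 1)) k) (hf : f.IsHomogeneous e) (x : PP k n) (hx : x ∈ DD g) :
    vl (DD g) x hx (frac g hg e f hf) =
      Localization.mk f ⟨g ^ e, pow_mem (show g ∈ x.asHomogeneousIdeal.toIdeal.primeCompl
        from hx) e⟩ := by
  have h := ProjectiveSpectrum.Proj.awayToSection_apply (homogeneousSubmodule (Fin (n + 1)) k) g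
    (HomogeneousLocalization.Away.mk (homogeneousSubmodule (Fin (n + 1)) k) hg e f
      (by simpa using hf)) ⟨x, hx⟩
  refine Eq.trans h ?_
  refine Eq.trans (congrArg _ (Localization.mk_eq_mk'_apply _ _)) ?_
  refine Eq.trans (IsLocalization.map_mk' _ _ _) ?_
  exact (Localization.mk_eq_mk'_apply _ _).symm

theorem vl_frac_mul (g : MvPolynomial (Fin (n + 1)) k) (hg : g.IsHomogeneous 1) (e : ℕ)
    (f : MvPolynomial (Fin (n + 1)) k) (hf : f.IsHomogeneous e) (x : PP k n) (hx : x ∈ DD g) :
    vl (DD g) x hx (frac g hg e f hf) * algebraMap _ _ g ^ e = algebraMap _ _ f := by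
  rw [vl_frac, Localization.mk_eq_mk', ← map_pow]
  exact IsLocalization.mk'_spec _ _ _

theorem isUnit_of_mem {g : MvPolynomial (Fin (n + 1)) k} {x : PP k n} (hx : x ∈ DD g) :
    IsUnit (algebraMap _ (Localization x.asHomogeneousIdeal.toIdeal.primeCompl) g) :=
  IsLocalization.map_units _ (⟨g, hx⟩ : x.asHomogeneousIdeal.toIdeal.primeCompl)

theorem frac_surj (g : MvPolynomial (Fin (n + 1)) k) (hg : g.IsHomogeneous 1)
    (s : Γ(PP k n, DD g)) : ∃ e f hf, s = frac g hg e f hf := by
  obtain ⟨a, ha⟩ := (Proj.basicOpenIsoAway (homogeneousSubmodule (Fin (n + 1)) k) g hg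
    one_pos).commRingCatIsoToRingEquiv.surjective s
  obtain ⟨e, f, hf, rfl⟩ := HomogeneousLocalization.Away.mk_surjective
    (homogeneousSubmodule (Fin (n + 1)) k) hg a
  exact ⟨e, f, by simpa using hf, ha.symm⟩

theorem not_mem_basicOpen_frac (g : MvPolynomial (Fin (n + 1)) k) (hg : g.IsHomogeneous 1) (e : ℕ)
    (f : MvPolynomial (Fin (n + 1)) k) (hf : f.IsHomogeneous e) (x : PP k n)
    (hfx : f ∈ x.asHomogeneousIdeal) : x ∉ (PP k n).basicOpen (frac g hg e f hf) := by
  intro h
  have hx : x ∈ DD g := (PP k n).basicOpen_le _ h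
  rw [Scheme.mem_basicOpen _ _ _ hx] at h
  have h1 := h.map ((algebraMap (HomogeneousLocalization.AtPrime
    (homogeneousSubmodule (Fin (n + 1)) k) x.asHomogeneousIdeal.toIdeal)
      (Localization x.asHomogeneousIdeal.toIdeal.primeCompl)).comp
    (stalkToFiberRingHom (homogeneousSubmodule (Fin (n + 1)) k) x).hom)
  have h2 : IsUnit (vl (DD g) x hx (frac g hg e f hf)) := by
    convert h1 using 1
    exact congrArg HomogeneousLocalization.val
      (stalkToFiberRingHom_germ (homogeneousSubmodule (Fin (n + 1)) k)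
        (DD g) x hx (frac g hg e f hf)).symm
  have h3 := h2.mul ((isUnit_of_mem hx).pow e)
  rw [vl_frac_mul, IsLocalization.AtPrime.isUnit_to_map_iff _ x.asHomogeneousIdeal.toIdeal] at h3
  exact h3 hfx

theorem frac_cocycle {g g' f : MvPolynomial (Fin (n + 1)) k} (hg : g.IsHomogeneous 1)
    (hg' : g'.IsHomogeneous 1) (hf : f.IsHomogeneous 1) {W : (PP k n).Opens} (h : W ≤ DD g)
    (h' : W ≤ DD g') :
    (PP k n).presheaf.map (homOfLE h').op (frac g' hg' 1 f hf) *
      (PP k n).presheaf.map (homOfLE h).op (frac g hg 1 g' hg') =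
      (PP k n).presheaf.map (homOfLE h).op (frac g hg 1 f hf) := by
  refine vl_ext fun x hx => ?_
  rw [map_mul, vl_res, vl_res, vl_res]
  have e1 := vl_frac_mul g' hg' 1 f hf x (h' hx)
  have e2 := vl_frac_mul g hg 1 g' hg' x (h hx)
  have e3 := vl_frac_mul g hg 1 f hf x (h hx)
  rw [pow_one] at e1 e2 e3
  refine (isUnit_of_mem (h hx)).mul_right_cancel ?_
  rw [mul_assoc, e2, e1, e3]

theorem eval₂_mul_of_isHomogeneous {J A : Type} [CommRing A] (c : k →+* A)
    {f : MvPolynomial J k} {m : ℕ} (hf : f.IsHomogeneous m) (t : A) (x : J → A) :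
    eval₂ c (fun j => x j * t) f = eval₂ c x f * t ^ m := by
  rw [eval₂_eq, eval₂_eq, Finset.sum_mul]
  refine Finset.sum_congr rfl fun d hd => ?_
  simp only [mul_pow]
  rw [Finset.prod_mul_distrib, Finset.prod_pow_eq_pow_sum, ← hf.degree_eq_sum_deg_support hd]
  ring

/-- Dehomogenisation. -/
theorem exists_dehom (g : MvPolynomial (Fin (n + 1)) k) (hg : g.IsHomogeneous 1) :
    ∃ δ : MvPolynomial (Fin (n + 1)) k →+* Γ(PP k n, DD g),
      ∀ e f hf, δ f = frac g hg e f hf := by
  let c : k →+* Γ(PP k n, DD g) :=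
    { toFun := fun a => frac g hg 0 (C a) (isHomogeneous_C _ a)
      map_one' := vl_ext fun x hx => by
        have := vl_frac_mul g hg 0 (C 1) (isHomogeneous_C _ 1) x hx
        rw [pow_zero, mul_one] at this
        rw [this, map_one, map_one, map_one]
      map_mul' := fun a b => vl_ext fun x hx => by
        have h := fun a => vl_frac_mul g hg 0 (C a) (isHomogeneous_C _ a) x hx
        simp only [pow_zero, mul_one] at h
        rw [h, map_mul (vl (DD g) x hx), h, h, map_mul, map_mul]
      map_zero' := vl_ext fun x hx => by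
        have := vl_frac_mul g hg 0 (C 0) (isHomogeneous_C _ 0) x hx
        rw [pow_zero, mul_one] at this
        rw [this, map_zero, map_zero, map_zero]
      map_add' := fun a b => vl_ext fun x hx => by
        have h := fun a => vl_frac_mul g hg 0 (C a) (isHomogeneous_C _ a) x hx
        simp only [pow_zero, mul_one] at h
        rw [h, map_add (vl (DD g) x hx), h, h, map_add, map_add] }
  refine ⟨eval₂Hom c (fun j => frac g hg 1 (X j) (isHomogeneous_X k j)), fun e f hf => ?_⟩
  refine vl_ext fun x hx => ?_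
  refine ((isUnit_of_mem hx).pow e).mul_right_cancel ?_
  rw [vl_frac_mul, coe_eval₂Hom, eval₂_comp_left, ← eval₂_mul_of_isHomogeneous _ hf]
  have h1 : (vl (DD g) x hx).comp c = (algebraMap (MvPolynomial (Fin (n + 1)) k) _).comp C := by
    ext a
    have h := vl_frac_mul g hg 0 (C a) (isHomogeneous_C _ a) x hx
    rw [pow_zero, mul_one] at h
    exact h
  have h2 : (fun j => ((vl (DD g) x hx) ∘ fun j => frac g hg 1 (X j) (isHomogeneous_X k j)) j *
      algebraMap _ _ g) = (algebraMap (MvPolynomial (Fin (n + 1)) k) _) ∘ X := by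
    funext j
    have h := vl_frac_mul g hg 1 (X j) (isHomogeneous_X k j) x hx
    rw [pow_one] at h
    exact h
  rw [h1, h2, ← eval₂_comp_left, eval₂_eta]

/-- The generic point of projective space. -/
noncomputable def gen0 (k : Type) [Field k] (n : ℕ) : PP k n :=
  (⟨⊥, Ideal.isPrime_bot, fun h => by
    have h1 : (X 0 : MvPolynomial (Fin (n + 1)) k) ∈
        HomogeneousIdeal.irrelevant (homogeneousSubmodule (Fin (n + 1)) k) :=
      HomogeneousIdeal.mem_irrelevant_of_mem _ one_pos (isHomogeneous_X k 0)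
    exact X_ne_zero 0 (Ideal.mem_bot.1 (h h1))⟩ :
    ProjectiveSpectrum (homogeneousSubmodule (Fin (n + 1)) k))

theorem gen0_mem {g : MvPolynomial (Fin (n + 1)) k} (hg : g ≠ 0) : gen0 k n ∈ DD g :=
  fun h => hg (Ideal.mem_bot.1 h)

theorem exists_evK : ∃ ev : ∀ W : (PP k n).Opens, gen0 k n ∈ W →
      (Γ(PP k n, W) →+* FractionRing (MvPolynomial (Fin (n + 1)) k)),
    (∀ W W' (h : W' ≤ W) hW' s, ev W' hW' ((PP k n).presheaf.map (homOfLE h).op s) =
      ev W (h hW') s) ∧
    ∀ g hg e f hf h, ev (DD g) h (frac g hg e f hf) * algebraMap _ _ g ^ e = algebraMap _ _ f := by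
  have hu : ∀ y : (gen0 k n).asHomogeneousIdeal.toIdeal.primeCompl,
      IsUnit (algebraMap _ (FractionRing (MvPolynomial (Fin (n + 1)) k)) y.1) := fun y =>
    IsLocalization.map_units _ (⟨y.1, mem_nonZeroDivisors_of_ne_zero
      fun h => y.2 (Ideal.mem_bot.2 h)⟩ : nonZeroDivisors _)
  let lf : Localization (gen0 k n).asHomogeneousIdeal.toIdeal.primeCompl →+*
    FractionRing (MvPolynomial (Fin (n + 1)) k) := IsLocalization.lift hu
  refine ⟨fun W hW => lf.comp (vl W _ hW), fun W W' h hW' s => rfl, fun g hg e f hf h => ?_⟩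
  have h1 := congrArg lf (vl_frac_mul g hg e f hf _ h)
  rw [map_mul, map_pow, IsLocalization.lift_eq, IsLocalization.lift_eq] at h1
  exact h1

end Pool.Agent.Lib.MP_cf0da3_ag
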