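import Pool.Agent.Lib.MP_cf0da3_ag.ShRho
import Pool.Agent.Lib.MP_cf0da3_ag.ShProj
import Pool.Agent.Lib.MP_cf0da3_ag.ShAlg
import Pool.Agent.Lib.MP_cf0da3_ag.Final

/-! From a sheaf with trivial direct image to a matrix representation of the coordinate ring. -/

set_option autoImplicit false

namespace Pool.Agent.Lib.MP_cf0da3_ag

open CategoryTheory AlgebraicGeometry MvPolynomial TopologicalSpace

attribute [local instance] MvPolynomial.gradedAlgebra

variable {k : Type} [Field k] {m d : ℕ}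

theorem exists_sigma {X : Scheme.{0}} (ι : X ⟶ PP k m) (π : X ⟶ PP k d) (U : X.Modules) (r : ℕ)
    (φ : (Scheme.Modules.pushforward π).obj U ≅
      SheafOfModules.free (R := (PP k d).ringCatSheaf) (Fin r)) :
    ∃ σ : ∀ (W : (PP k d).Opens) (_ : gen0 k d ∈ W) (V : (PP k m).Opens)
        (_ : π ⁻¹ᵁ W ≤ ι ⁻¹ᵁ V), Γ(PP k m, V) →+*
          Matrix (Fin r) (Fin r) (FractionRing (MvPolynomial (Fin (d + 1)) k)),
      (∀ (W W' : (PP k d).Opens) (h : W' ≤ W) hW' V V' (h' : V' ≤ V) e e' g,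
        σ W' hW' V' e' ((PP k m).presheaf.map (homOfLE h').op g) = σ W (h hW') V e g) ∧
      (∀ W hW V e g, ι.appLE V (π ⁻¹ᵁ W) e g = 0 → σ W hW V e g = 0) ∧
      (∀ y hy hW V e g n f hf, π.app (DD y) (frac y hy n f hf) = ι.appLE V (π ⁻¹ᵁ DD y) e g →
        σ (DD y) hW V e g * Matrix.scalar (Fin r) (algebraMap _ _ y) ^ n =
          Matrix.scalar (Fin r) (algebraMap _ _ f)) ∧
      (∀ y (_ : y.IsHomogeneous 1) hW V e g a b, ∃ (n : ℕ) (f : MvPolynomial (Fin (d + 1)) k),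
        f.IsHomogeneous n ∧ σ (DD y) hW V e g a b * algebraMap _ _ y ^ n = algebraMap _ _ f) := by
  obtain ⟨ρ, hρ1, hρ2⟩ := exists_rho π U r φ
  obtain ⟨ev, hev1, hev2⟩ := exists_evK (k := k) (n := d)
  refine ⟨fun W hW V e => (ev W hW).mapMatrix.comp ((ρ W).comp (ι.appLE V (π ⁻¹ᵁ W) e).hom),
    ?_, ?_, ?_, ?_⟩
  · intro W W' h hW' V V' h' e e' g
    have h1 : ι.appLE V' (π ⁻¹ᵁ W') e' ((PP k m).presheaf.map (homOfLE h').op g) =
        X.presheaf.map (homOfLE (π.preimage_mono h)).op (ι.appLE V (π ⁻¹ᵁ W) e g) := by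
      have a1 := ι.map_appLE e' (homOfLE h').op
      have a2 := ι.appLE_map e (homOfLE (π.preimage_mono h)).op
      exact congr($(a1.trans a2.symm) g)
    change (ρ W' (ι.appLE V' (π ⁻¹ᵁ W') e' _)).map (ev W' hW') =
      (ρ W (ι.appLE V (π ⁻¹ᵁ W) e g)).map (ev W (h hW'))
    rw [h1, hρ2 W W' h]
    ext a b
    exact hev1 W W' h hW' _
  · intro W hW V e g hg
    change (ev W hW).mapMatrix (ρ W (ι.appLE V (π ⁻¹ᵁ W) e g)) = 0
    rw [hg, map_zero, map_zero]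
  · intro y hy hW V e g n f hf hg
    change (ρ _ (ι.appLE V (π ⁻¹ᵁ DD y) e g)).map (ev _ hW) * _ = _
    rw [← hg, hρ1, ← hev2 y hy n f hf hW, map_mul, map_pow]
    congr 1
    ext a b
    simp only [Matrix.scalar_apply, Matrix.map_apply, Matrix.diagonal_apply]
    split_ifs <;> simp
  · intro y hy hW V e g a b
    obtain ⟨n, f, hf, h⟩ := frac_surj y hy (ρ _ (ι.appLE V (π ⁻¹ᵁ DD y) e g) a b)
    refine ⟨n, f, hf, ?_⟩
    rw [← hev2 y hy n f hf hW, ← h]
    rfl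

theorem exists_psiK {X : Scheme.{0}} [IsReduced X] (ι : X ⟶ PP k m)
    {P : Ideal (MvPolynomial (Fin (m + 1)) k)}
    (hP : ∀ f ∈ P, ∀ n, homogeneousComponent n f ∈ P)
    (hι : ∀ x : X, ∀ f ∈ P, f ∈ (ι x).asHomogeneousIdeal)
    {ℓ : Fin (d + 1) → MvPolynomial (Fin (m + 1)) k} (hℓ : ∀ i, (ℓ i).IsHomogeneous 1)
    {π : X ⟶ PP k d} (hπ : IsLinearProjection ι ℓ hℓ π) (U : X.Modules) (r : ℕ)
    (φ : (Scheme.Modules.pushforward π).obj U ≅
      SheafOfModules.free (R := (PP k d).ringCatSheaf) (Fin r)) :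
    ∃ ψ : MvPolynomial (Fin (m + 1)) k →+*
        Matrix (Fin r) (Fin r) (FractionRing (MvPolynomial (Fin (d + 1)) k)),
      (∀ f : MvPolynomial (Fin (d + 1)) k,
        ψ (aeval ℓ f) = Matrix.scalar (Fin r) (algebraMap _ _ f)) ∧ (∀ f ∈ P, ψ f = 0) ∧
      ∀ i j a b, ∃ (n : ℕ) (f : MvPolynomial (Fin (d + 1)) k), f.IsHomogeneous n ∧
        ψ (MvPolynomial.X j) a b * algebraMap (MvPolynomial (Fin (d + 1)) k) _
          (MvPolynomial.X i) ^ n = algebraMap _ _ (f * MvPolynomial.X i) := by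
  obtain ⟨σ, h1, h2, h3, h4⟩ := exists_sigma ι π U r φ
  choose he hπ using hπ
  have hg : ∀ i, gen0 k d ∈ DD (MvPolynomial.X i : MvPolynomial (Fin (d + 1)) k) := fun i =>
    gen0_mem (X_ne_zero i)
  obtain ⟨δ, hδ⟩ := exists_dehom (ℓ 0) (hℓ 0)
  set sc : MvPolynomial (Fin (d + 1)) k →+*
      Matrix (Fin r) (Fin r) (FractionRing (MvPolynomial (Fin (d + 1)) k)) :=
    (Matrix.scalar (Fin r)).comp (algebraMap _ _) with hsc
  have hcomm : ∀ t A, Commute A (sc t) := fun t A =>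
    (Matrix.scalar_commute _ (fun _ => Commute.all _ _) A).symm
  let σ0 := σ _ (hg 0) _ (he 0).le
  let θ : MvPolynomial (Fin (m + 1)) k →+* Polynomial Γ(PP k m, DD (ℓ 0)) :=
    eval₂Hom (Polynomial.C.comp (δ.comp C))
      (fun j => Polynomial.C (δ (MvPolynomial.X j)) * Polynomial.X)
  have hθ : ∀ n f, f.IsHomogeneous n → θ f = Polynomial.C (δ f) * Polynomial.X ^ n := by
    intro n f hf
    change eval₂ _ _ f = _
    rw [eval₂_mul_of_isHomogeneous _ hf]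
    congr 1
    have := eval₂_comp_left (Polynomial.C.comp δ) C MvPolynomial.X f
    rw [eval₂_eta] at this
    exact this.symm
  let ψ := (Polynomial.eval₂RingHom' σ0 (sc (MvPolynomial.X 0)) (fun a => hcomm _ _)).comp θ
  have hψ : ∀ n f (hf : f.IsHomogeneous n),
      ψ f = σ0 (frac (ℓ 0) (hℓ 0) n f hf) * sc (MvPolynomial.X 0) ^ n := by
    intro n f hf
    change Polynomial.eval₂RingHom' σ0 (sc (MvPolynomial.X 0)) (fun a => hcomm _ _) (θ f) = _
    rw [hθ n f hf, map_mul, map_pow, hδ n f hf]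
    simp only [Polynomial.eval₂RingHom'_apply, Polynomial.eval₂_C, Polynomial.eval₂_X]
  have hhom : ∀ n f (hf : f.IsHomogeneous n), ψ (aeval ℓ f) = sc f := by
    intro n f hf
    exact (hψ n _ (isHomogeneous_aeval hℓ hf)).trans (h3 _ _ _ _ _ _ n f hf (hπ 0 n f hf))
  refine ⟨ψ, fun f => ?_, fun f hf => ?_, fun i j a b => ?_⟩
  · change _ = sc f
    rw [← sum_homogeneousComponent f, map_sum, map_sum, map_sum]
    exact Finset.sum_congr rfl fun n _ => hhom n _ (homogeneousComponent_isHomogeneous n f)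
  · rw [← sum_homogeneousComponent f, map_sum]
    refine Finset.sum_eq_zero fun n _ => ?_
    rw [hψ n _ (homogeneousComponent_isHomogeneous n f), h2, zero_mul]
    refine eq_zero_of_basicOpen_eq_bot _ (eq_bot_iff.2 fun x hx => ?_)
    rw [Scheme.basicOpen_appLE] at hx
    exact absurd hx.2 (not_mem_basicOpen_frac _ _ _ _ _ _ (hι x _ (hP f hf n)))
  · obtain ⟨n, f, hf, hn⟩ := h4 _ (isHomogeneous_X k i) (hg i) _ (he i).le
      (frac (ℓ i) (hℓ i) 1 (MvPolynomial.X j) (isHomogeneous_X k j)) a b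
    refine ⟨n, f, hf, ?_⟩
    have e : π ⁻¹ᵁ (DD (MvPolynomial.X 0) ⊓ DD (MvPolynomial.X i)) ≤
        ι ⁻¹ᵁ (DD (ℓ 0) ⊓ DD (ℓ i)) := fun x hx => ⟨(he 0).le hx.1, (he i).le hx.2⟩
    have hW : gen0 k d ∈ DD (MvPolynomial.X 0) ⊓ DD (MvPolynomial.X i) := ⟨hg 0, hg i⟩
    have c := congrArg (σ _ hW _ e)
      (frac_cocycle (hℓ 0) (hℓ i) (isHomogeneous_X k j)
      (W := DD (ℓ 0) ⊓ DD (ℓ i)) inf_le_left inf_le_right)
    rw [map_mul, h1 _ _ inf_le_right _ _ _ _ (he i).le, h1 _ _ inf_le_left _ _ _ _ (he 0).le,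
      h1 _ _ inf_le_left _ _ _ _ (he 0).le] at c
    have c1 : σ0 (frac (ℓ 0) (hℓ 0) 1 (ℓ i) (hℓ i)) * sc (MvPolynomial.X 0) ^ 1 =
        sc (MvPolynomial.X i) := by
      rw [← hψ, ← hhom 1 _ (isHomogeneous_X k i), aeval_X]
    have c2 : ψ (MvPolynomial.X j) = σ _ (hg i) _ (he i).le
        (frac (ℓ i) (hℓ i) 1 (MvPolynomial.X j) (isHomogeneous_X k j)) *
          sc (MvPolynomial.X i) := by
      rw [hψ 1 _ (isHomogeneous_X k j), ← c1, ← mul_assoc]
      exact congrArg (· * _) c.symm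
    rw [c2, map_mul, ← hn]
    simp only [hsc, RingHom.comp_apply, Matrix.scalar_apply, Matrix.mul_diagonal]
    ring

end Pool.Agent.Lib.MP_cf0da3_ag
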