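import Mathlib

/-! A module whose direct image is free gives matrix representations of the rings of sections. -/

set_option autoImplicit false

namespace Pool.Agent.Lib.MP_cf0da3_ag

open CategoryTheory AlgebraicGeometry Limits TopologicalSpace

/-- The structure sheaf as a module over itself. -/
noncomputable abbrev unitM (Y : Scheme.{0}) : Y.Modules := SheafOfModules.unit Y.ringCatSheaf

theorem exists_frame {Y : Scheme.{0}} (E : Y.Modules) (r : ℕ)
    (φ : E ≅ SheafOfModules.free (R := Y.ringCatSheaf) (Fin r)) :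
    ∃ (i : Fin r → (unitM Y ⟶ E)) (p : Fin r → (E ⟶ unitM Y)),
      (∀ a b, i a ≫ p b = if a = b then 𝟙 _ else 0) ∧ ∑ a, p a ≫ i a = 𝟙 E := by
  let F : Y.Modules := SheafOfModules.free (R := Y.ringCatSheaf) (Fin r)
  let j : Fin r → (unitM Y ⟶ F) := fun a => SheafOfModules.ιFree (R := Y.ringCatSheaf) a
  have hc : IsColimit (Cofan.mk F j) :=
    SheafOfModules.isColimitFreeCofan (R := Y.ringCatSheaf) (Fin r)
  let q : Fin r → (F ⟶ unitM Y) := fun b =>
    Cofan.IsColimit.desc hc (fun a => if a = b then 𝟙 _ else 0)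
  have hq : ∀ a b, j a ≫ q b = if a = b then 𝟙 _ else 0 := fun a b =>
    Cofan.IsColimit.fac hc _ a
  have hs : ∑ a, q a ≫ j a = 𝟙 F := by
    refine Cofan.IsColimit.hom_ext hc _ _ fun a => ?_
    change j a ≫ _ = j a ≫ _
    rw [Preadditive.comp_sum, Finset.sum_eq_single a]
    · rw [← Category.assoc, hq, if_pos rfl, Category.id_comp, Category.comp_id]
    · intro b _ hb
      rw [← Category.assoc, hq, if_neg (Ne.symm hb), zero_comp]
    · intro h
      exact absurd (Finset.mem_univ a) h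
  let ψ : E ≅ F := φ
  refine ⟨fun a => j a ≫ ψ.inv, fun a => ψ.hom ≫ q a, fun a b => ?_, ?_⟩
  · rw [Category.assoc, ψ.inv_hom_id_assoc, hq]
  · have : ∑ a, (ψ.hom ≫ q a) ≫ j a ≫ ψ.inv = ψ.hom ≫ (∑ a, q a ≫ j a) ≫ ψ.inv := by
      rw [Preadditive.sum_comp, Preadditive.comp_sum]
      simp only [Category.assoc]
    rw [this, hs, Category.id_comp, ψ.hom_inv_id]

theorem sum_app {Y : Scheme.{0}} {M N : Y.Modules} {r : ℕ} (f : Fin r → (M ⟶ N)) (W : Y.Opens)
    (s : Γ(M, W)) : (∑ a, f a).app W s = ∑ a, (f a).app W s := by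
  have : ∀ t : Finset (Fin r), (∑ a ∈ t, f a).app W s = ∑ a ∈ t, (f a).app W s := by
    intro t
    induction t using Finset.induction_on with
    | empty => simp
    | insert a t ha ih =>
      rw [Finset.sum_insert ha, Finset.sum_insert ha, Scheme.Modules.Hom.add_app, ← ih]
      rfl
  exact this _

theorem app_map {Y : Scheme.{0}} {M N : Y.Modules} (f : M ⟶ N) {W W' : Y.Opens} (h : W' ≤ W)
    (s : Γ(M, W)) : f.app W' (M.presheaf.map (homOfLE h).op s) =
      N.presheaf.map (homOfLE h).op (f.app W s) :=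
  congr($(f.mapPresheaf.naturality (homOfLE h).op) s)

theorem exists_coords {Y : Scheme.{0}} (E : Y.Modules) (r : ℕ)
    (φ : E ≅ SheafOfModules.free (R := Y.ringCatSheaf) (Fin r)) :
    ∃ (e : ∀ W : Y.Opens, Fin r → Γ(E, W)) (c : ∀ W : Y.Opens, Fin r → Γ(E, W) →+ Γ(Y, W)),
      (∀ W a (t : Γ(Y, W)) s, c W a (t • s) = t * c W a s) ∧
      (∀ W a b, c W a (e W b) = if a = b then 1 else 0) ∧
      (∀ W s, s = ∑ a, c W a s • e W a) ∧
      (∀ W W' (h : W' ≤ W) a, E.presheaf.map (homOfLE h).op (e W a) = e W' a) ∧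
      (∀ W W' (h : W' ≤ W) a s, c W' a (E.presheaf.map (homOfLE h).op s) =
        Y.presheaf.map (homOfLE h).op (c W a s)) := by
  obtain ⟨i, p, hip, hs⟩ := exists_frame E r φ
  refine ⟨fun W a => (i a).app W (1 : Γ(Y, W)), fun W a => ((p a).app W).hom, ?_, ?_, ?_, ?_, ?_⟩
  · intro W a t s
    exact Scheme.Modules.Hom.app_smul (p a) t s
  · intro W a b
    have h1 : (p a).app W ((i b).app W (1 : Γ(Y, W))) = (i b ≫ p a).app W (1 : Γ(Y, W)) := rfl
    refine h1.trans ?_
    rw [hip]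
    by_cases h : a = b
    · rw [if_pos h, if_pos h.symm]
      rfl
    · rw [if_neg h, if_neg (Ne.symm h)]
      rfl
  · intro W s
    have h1 : s = (∑ a, p a ≫ i a).app W s := by
      rw [hs]
      rfl
    refine h1.trans ?_
    rw [sum_app]
    refine Finset.sum_congr rfl fun a _ => ?_
    have h2 := Scheme.Modules.Hom.app_smul (i a) (U := W) ((p a).app W s : Γ(Y, W)) (1 : Γ(Y, W))
    refine Eq.trans ?_ h2
    change (i a).app W ((p a).app W s) = _
    congr 1
    exact (mul_one (M := Γ(Y, W)) _).symm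
  · intro W W' h a
    refine (app_map (i a) h (1 : Γ(Y, W))).symm.trans ?_
    congr 1
    exact map_one (Y.presheaf.map (homOfLE h).op).hom
  · intro W W' h a s
    exact app_map (p a) h s

theorem exists_rho {X Y : Scheme.{0}} (π : X ⟶ Y) (U : X.Modules) (r : ℕ)
    (φ : (Scheme.Modules.pushforward π).obj U ≅
      SheafOfModules.free (R := Y.ringCatSheaf) (Fin r)) :
    ∃ ρ : ∀ W : Y.Opens, Γ(X, π ⁻¹ᵁ W) →+* Matrix (Fin r) (Fin r) Γ(Y, W),
      (∀ W t, ρ W (π.app W t) = Matrix.scalar (Fin r) t) ∧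
      (∀ W W' (h : W' ≤ W) g, ρ W' (X.presheaf.map (homOfLE (π.preimage_mono h)).op g) =
        (ρ W g).map (Y.presheaf.map (homOfLE h).op)) := by
  obtain ⟨e, c, h1, h2, h3, h4, h5⟩ := exists_coords _ r φ
  let act : ∀ W : Y.Opens, Γ(X, π ⁻¹ᵁ W) → Γ((Scheme.Modules.pushforward π).obj U, W) →
      Γ((Scheme.Modules.pushforward π).obj U, W) := fun W g s =>
    (g • (show Γ(U, π ⁻¹ᵁ W) from s) : Γ(U, π ⁻¹ᵁ W))
  have a0 : ∀ W (t : Γ(Y, W)) s, act W (π.app W t) s = t • s := fun W t s => rfl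
  have a1 : ∀ W s, act W 1 s = s := fun W s => one_smul Γ(X, π ⁻¹ᵁ W) (show Γ(U, π ⁻¹ᵁ W) from s)
  have a2 : ∀ W g h s, act W (g * h) s = act W g (act W h s) := fun W g h s =>
    mul_smul g h (show Γ(U, π ⁻¹ᵁ W) from s)
  have a3 : ∀ W s, act W 0 s = 0 := fun W s => zero_smul Γ(X, π ⁻¹ᵁ W) (show Γ(U, π ⁻¹ᵁ W) from s)
  have a4 : ∀ W g h s, act W (g + h) s = act W g s + act W h s := fun W g h s =>
    add_smul g h (show Γ(U, π ⁻¹ᵁ W) from s)
  have a5 : ∀ W g (s : Fin r → _), act W g (∑ a, s a) = ∑ a, act W g (s a) := fun W g s =>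
    Finset.smul_sum (M := Γ(X, π ⁻¹ᵁ W)) (N := Γ(U, π ⁻¹ᵁ W))
  have a6 : ∀ W g (t : Γ(Y, W)) s, act W g (t • s) = t • act W g s := fun W g t s => by
    rw [← a0, ← a0, ← a2, ← a2, mul_comm]
  have a7 : ∀ W W' (h : W' ≤ W) g s,
      ((Scheme.Modules.pushforward π).obj U).presheaf.map (homOfLE h).op (act W g s) =
      act W' (X.presheaf.map (homOfLE (π.preimage_mono h)).op g)
        (((Scheme.Modules.pushforward π).obj U).presheaf.map (homOfLE h).op s) :=
    fun W W' h g s => Scheme.Modules.map_smul U (homOfLE (π.preimage_mono h)) g s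
  refine ⟨fun W =>
    { toFun := fun g => Matrix.of fun a b => c W a (act W g (e W b))
      map_one' := ?_
      map_mul' := ?_
      map_zero' := ?_
      map_add' := ?_ }, ?_, ?_⟩
  · ext a b
    rw [Matrix.of_apply, a1, h2, Matrix.one_apply]
  · intro g h
    ext a b
    rw [Matrix.mul_apply, Matrix.of_apply, a2, h3 W (act W h (e W b)), a5, map_sum]
    refine Finset.sum_congr rfl fun l _ => ?_
    rw [a6, h1, Matrix.of_apply, Matrix.of_apply, mul_comm]
  · ext a b
    rw [Matrix.of_apply, a3, map_zero, Matrix.zero_apply]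
  · intro g h
    ext a b
    rw [Matrix.add_apply, Matrix.of_apply, a4, map_add, Matrix.of_apply, Matrix.of_apply]
  · intro W t
    ext a b
    change c W a (act W (π.app W t) (e W b)) = _
    rw [a0, h1, h2, Matrix.scalar_apply, Matrix.diagonal_apply]
    split_ifs <;> simp
  · intro W W' h g
    ext a b
    change c W' a (act W' _ (e W' b)) = Y.presheaf.map (homOfLE h).op (c W a (act W g (e W b)))
    rw [← h5, a7, h4]

end Pool.Agent.Lib.MP_cf0da3_ag
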